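import Pool.Agent.H262R4.FR.BTe

/-!
FR project (helper262), final assembly: Brun–Titchmarsh on average with `15/4` (helper488).
-/

namespace Pool.Agent.H262R4.FR.TBT

open Finset Filter

/-- the numerical inequality for the constants -/
theorem num_const {ε e : ℝ} (hε : 0 < ε) (hε1 : ε ≤ 1) (he : e = ε / 100) :
    (1 + e) * ((1 + e) * (1 + e) ^ 2) ≤ (15 / 4 + ε / 2) * ((4 / 15) * (1 - e)) := by
  subst he
  have h2 : ε ^ 2 ≤ ε := by nlinarith
  have h3 : ε ^ 3 ≤ ε := by nlinarith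
  have h4 : ε ^ 4 ≤ ε := by nlinarith [pow_pos hε 3]
  have h5 : (15 / 4 + ε / 2) * ((4 / 15) * (1 - ε / 100)) -
      (1 + ε / 100) * ((1 + ε / 100) * (1 + ε / 100) ^ 2) =
      (2 / 15 - 1 / 100 - 4 / 100) * ε - (2 / 1500 + 6 / 10000) * ε ^ 2 - (4 / 1000000) * ε ^ 3 -
      (1 / 100000000) * ε ^ 4 := by ring
  linarith

theorem err_bound {C1 C' A ℓ ε X : ℝ} (hX : 0 < X) (hC1 : 0 ≤ C1) (hA : 0 ≤ A) (hε : 0 < ε)
    (hℓ : 1 ≤ ℓ) (hC' : 0 ≤ C') (h : 64 * (16 * C' * C1 * A) / ε ^ 2 ≤ ℓ) {N ℓ2 : ℝ}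
    (hN : N ≤ C' * ℓ) (hℓ2 : ℓ / 2 ≤ ℓ2) :
    N * (A * (C1 * (2 * X) / ℓ2 ^ 3)) ≤ (ε ^ 2 / 64) * (X / ℓ) := by
  have hℓ0 : 0 < ℓ := by linarith
  have hℓ20 : 0 < ℓ2 := by linarith
  have h3 : (ℓ / 2) ^ 3 ≤ ℓ2 ^ 3 := pow_le_pow_left₀ (by linarith) hℓ2 3
  have h4 : C1 * (2 * X) / ℓ2 ^ 3 ≤ C1 * (2 * X) / (ℓ / 2) ^ 3 :=
    div_le_div_of_nonneg_left (by positivity) (by positivity) h3
  have h5 : N * (A * (C1 * (2 * X) / ℓ2 ^ 3)) ≤ (C' * ℓ) * (A * (C1 * (2 * X) / (ℓ / 2) ^ 3)) := by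
    apply mul_le_mul hN (mul_le_mul_of_nonneg_left h4 hA) (by positivity) (by positivity)
  refine h5.trans ?_
  have h6 : (C' * ℓ) * (A * (C1 * (2 * X) / (ℓ / 2) ^ 3)) = (16 * C' * C1 * A) * (X / ℓ) / ℓ := by
    field_simp
    ring
  rw [h6, div_le_iff₀ hℓ0]
  have h7 : 16 * C' * C1 * A ≤ (ε ^ 2 / 64) * ℓ := by
    rw [div_le_iff₀ (by positivity)] at h
    linarith
  have h8 : 0 ≤ X / ℓ := by positivity
  calc (16 * C' * C1 * A) * (X / ℓ) ≤ ((ε ^ 2 / 64) * ℓ) * (X / ℓ) :=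
        mul_le_mul_of_nonneg_right h7 h8
    _ = _ := by ring

/-- the product over the large prime factors -/
noncomputable def py (y q : ℕ) : ℝ :=
  ∏ p ∈ q.primeFactors.filter (fun p => y < p), (1 + 1 / ((p : ℝ) - 1)) ^ 2

theorem main (h1 : P_BT1) (h2 : P_BT2) (h3 : P_S1) (h4 : P_PHIS) (h5 : P_LW)
    (a : ℤ) (ha0 : a ≠ 0) (ε : ℝ) (hε : 0 < ε) (hε1 : ε ≤ 1) (δ : ℝ) (hδ : 0 < δ)
    (hδ1 : δ ≤ 1 / 2) :
    ∃ x0 : ℕ, ∀ x : ℕ, x0 ≤ x → ∀ Q : ℕ, (x : ℝ) ^ δ ≤ Q → (Q : ℝ) ≤ (x : ℝ) ^ (1 - δ) →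
    (((Ioc Q (2 * Q)).filter (fun q : ℕ => Int.gcd a q = 1 ∧
      (15 / 4 + ε) * (x / (Nat.totient q * Real.log x)) < piq x q a)).card : ℝ) ≤ ε * Q := by
  classical
  obtain ⟨e, he⟩ : ∃ e : ℝ, e = ε / 100 := ⟨_, rfl⟩
  have he0 : 0 < e := by rw [he]; positivity
  have he1 : e ≤ 1 / 100 := by rw [he]; linarith
  obtain ⟨ρ1, hρ1, hρ1', hBT1⟩ := h1 (2 * e / 15) (by positivity)
  obtain ⟨C2, hC2, hBT2⟩ := h2 a ha0 δ hδ
  obtain ⟨y0, hy0⟩ := h4.2 e he0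
  obtain ⟨y, hyy0, hya⟩ : ∃ y : ℕ, y0 ≤ y ∧ a.natAbs ≤ y :=
    ⟨max y0 a.natAbs, le_max_left _ _, le_max_right _ _⟩
  have hy : ∀ Q : ℕ, (((Ioc Q (2 * Q)).filter (fun q : ℕ => 1 + e < py y q)).card : ℝ) ≤ e * Q :=
    hy0 y hyy0
  obtain ⟨ρ, hρ, hρρ1, hρδ⟩ : ∃ ρ : ℝ, 0 < ρ ∧ 2 * ρ ≤ ρ1 ∧ ρ ≤ δ / 4 :=
    ⟨min (ρ1 / 2) (δ / 4), lt_min (by linarith) (by linarith),
      by have := min_le_left (ρ1 / 2) (δ / 4); linarith, min_le_right _ _⟩
  obtain ⟨ρ0, K', x1, hρ0, hρ0', hLW⟩ := h5 ((64 * C2 / ε ^ 2) ^ 2 + 1) ρ hρ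
  obtain ⟨C1, hC1, hBT1'⟩ := hBT1 a ha0 (ρ0 / 2) (by linarith)
  have hlog1e : 0 < Real.log (1 + e) := Real.log_pos (by linarith)
  obtain ⟨C', hC'⟩ : ∃ C' : ℝ, C' = 1 / Real.log (1 + e) + 1 := ⟨_, rfl⟩
  have hC'0 : 0 < C' := by rw [hC']; positivity
  obtain ⟨x2, hx2⟩ := eventually_atTop.mp (big_ev a e δ e ρ ρ0 ρ1
    (64 * (16 * C' * C1 * 2 ^ (y + 1)) / ε ^ 2) ε he0 he1 hδ hδ1 hρ hρδ hρρ1 hρ0 hρ0' hε)
  refine ⟨max x1 x2, fun x hx Q hQ1 hQ2 => ?_⟩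
  have hb := hx2 x (le_of_max_le_right hx)
  obtain ⟨hL1, _⟩ := hLW x (le_of_max_le_left hx)
  by_contra hcon
  rw [not_le] at hcon
  -- notation
  obtain ⟨P0, hP0d⟩ : ∃ P0 : ℕ, P0 = ⌊(x : ℝ) ^ ρ0⌋₊ := ⟨_, rfl⟩
  obtain ⟨P', hP'd⟩ : ∃ P' : ℕ, P' = ⌊(x : ℝ) ^ ρ⌋₊ := ⟨_, rfl⟩
  obtain ⟨Z, hZd⟩ : ∃ Z : ℕ, Z = ⌊(x : ℝ) ^ (4 / 15 - 2 * e / 15)⌋₊ := ⟨_, rfl⟩
  rw [← hP0d, ← hP'd] at hL1
  obtain ⟨L, hLd⟩ : ∃ L : ℝ, L = mass (Pr P0 P') := ⟨_, rfl⟩
  rw [← hLd] at hL1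
  have hx3 := hb.x3
  have hx0 : (0 : ℝ) < x := by
    have : 0 < x := by omega
    exact_mod_cast this
  have hx1 : (1 : ℝ) ≤ x := by
    have : 1 ≤ x := by omega
    exact_mod_cast this
  have hlogx := hb.logx
  have hlogx0 : 0 < Real.log x := by linarith
  have hL1' : 1 ≤ L := by
    have : 0 ≤ (64 * C2 / ε ^ 2) ^ 2 := sq_nonneg _
    linarith
  have hL0 : 0 < L := by linarith
  have hPP : P0 ≤ P' := by
    rw [hP0d, hP'd]
    exact Nat.floor_mono (Real.rpow_le_rpow_of_exponent_le hx1 hρ0'.le)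
  have haδ := hb.aδ
  have hanat : (0 : ℝ) ≤ a.natAbs := Nat.cast_nonneg _
  have hQa : (a.natAbs : ℝ) + 3 ≤ Q := haδ.trans hQ1
  have hQan : a.natAbs + 3 ≤ Q := by exact_mod_cast hQa
  have hQ0 : (0 : ℝ) < Q := by linarith
  have hQn : 0 < Q := by omega
  have hlogZ := (logZ hb).1
  have hZa := (logZ hb).2
  rw [← hZd] at hlogZ hZa
  have hZ2 : 2 ≤ Z := by omega
  have hZle : (Z : ℝ) ≤ (x : ℝ) ^ (4 / 15 - 2 * e / 15) := by
    rw [hZd]
    exact Nat.floor_le (Real.rpow_nonneg hx0.le _)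
  have hP'le : (P' : ℝ) ≤ (x : ℝ) ^ ρ := by
    rw [hP'd]
    exact Nat.floor_le (Real.rpow_nonneg hx0.le _)
  -- blocks
  obtain ⟨N, hNd⟩ : ∃ N : ℕ, N = ⌈Real.log x / Real.log (1 + e)⌉₊ := ⟨_, rfl⟩
  have hNlow : (x : ℝ) ≤ (1 + e) ^ N := by
    rw [← Real.log_le_log_iff hx0 (by positivity), Real.log_pow, ← div_le_iff₀ hlog1e, hNd]
    exact Nat.le_ceil _
  have hN : (P' : ℝ) ≤ (1 + e) ^ N := by
    refine le_trans ?_ hNlow
    have := hb.M3
    have h0 : 0 ≤ (x : ℝ) ^ ρ := Real.rpow_nonneg hx0.le _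
    linarith
  have hNup : (N : ℝ) ≤ C' * Real.log x := by
    have : (N : ℝ) < Real.log x / Real.log (1 + e) + 1 := by
      rw [hNd]
      exact Nat.ceil_lt_add_one (by positivity)
    rw [hC', add_mul, one_mul, one_div_mul_eq_div]
    linarith
  obtain ⟨hB3, hκB, -⟩ := blk hb he0 he1 he0 hρ0 hρ1 (B := P0) (by rw [hP0d])
    (by rw [← hP'd]; exact hPP) hQ2
  have hP01 : 1 ≤ P0 := by omega
  -- weights
  have hlamex : ∀ s : ℕ, ∃ lam : ℕ → ℝ, 1 ≤ s → Sel Z s lam := by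
    intro s
    by_cases hs : 1 ≤ s
    · obtain ⟨lam, hlam⟩ := h3 Z s hZ2 hs
      exact ⟨lam, fun _ => hlam⟩
    · exact ⟨fun _ => 0, fun h => absurd h hs⟩
  choose lam hlam using hlamex
  -- the sets
  obtain ⟨E0, hE0d⟩ : ∃ E0 : Finset ℕ, E0 = (Ioc Q (2 * Q)).filter (fun q : ℕ => Int.gcd a q = 1 ∧
      (15 / 4 + ε) * (x / (Nat.totient q * Real.log x)) < piq x q a) := ⟨_, rfl⟩
  rw [← hE0d] at hcon
  obtain ⟨E1, hE1d⟩ : ∃ E1 : Finset ℕ, E1 = E0.filter (fun q : ℕ => py y q ≤ 1 + e) := ⟨_, rfl⟩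
  have hE1mem : ∀ q ∈ E1, Q < q ∧ q ≤ 2 * Q ∧ Int.gcd a q = 1 ∧
      (15 / 4 + ε) * (x / (Nat.totient q * Real.log x)) < piq x q a ∧ py y q ≤ 1 + e := by
    intro q hq
    rw [hE1d, mem_filter, hE0d, mem_filter, mem_Ioc] at hq
    exact ⟨hq.1.1.1, hq.1.1.2, hq.1.2.1, hq.1.2.2, hq.2⟩
  have hE1card : (99 / 100) * ε * Q ≤ (E1.card : ℝ) := by
    have hsplit : E0.card ≤ E1.card + ((Ioc Q (2 * Q)).filter (fun q : ℕ => 1 + e < py y q)).card := by
      refine le_trans (card_le_card (?_ : E0 ⊆ E1 ∪ ((Ioc Q (2 * Q)).filter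
        (fun q : ℕ => 1 + e < py y q)))) (card_union_le _ _)
      intro q hq
      rw [mem_union]
      by_cases h : py y q ≤ 1 + e
      · left
        rw [hE1d, mem_filter]
        exact ⟨hq, h⟩
      · right
        rw [mem_filter]
        rw [hE0d, mem_filter] at hq
        exact ⟨hq.1, not_le.mp h⟩
    have h6 := hy Q
    have h7 : (E0.card : ℝ) ≤ (E1.card : ℝ) + e * Q := by
      have h8 := Nat.cast_le (α := ℝ).mpr hsplit
      rw [Nat.cast_add] at h8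
      linarith
    rw [he] at h7
    linarith
  obtain ⟨Φ, hΦd⟩ : ∃ Φ : ℝ, Φ = ∑ q ∈ E1, 1 / (Nat.totient q : ℝ) := ⟨_, rfl⟩
  have hΦlow : (99 / 200) * ε ≤ Φ := by
    have h6 : ∀ q ∈ E1, 1 / (2 * (Q : ℝ)) ≤ 1 / (Nat.totient q : ℝ) := by
      intro q hq
      obtain ⟨g1, g2, -⟩ := hE1mem q hq
      have h7 : 0 < Nat.totient q := Nat.totient_pos.mpr (by omega)
      have h8 : Nat.totient q ≤ 2 * Q := (Nat.totient_le q).trans g2
      apply one_div_le_one_div_of_le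
      · exact_mod_cast h7
      · exact_mod_cast h8
    have h7 := sum_le_sum h6
    rw [sum_const, nsmul_eq_mul, ← hΦd] at h7
    refine le_trans ?_ h7
    rw [mul_one_div, le_div_iff₀ (by positivity)]
    linarith
  have hΦ0 : 0 < Φ := by
    have : 0 < (99 / 200) * ε := by positivity
    linarith
  -- R
  obtain ⟨R, hRd⟩ : ∃ R : ℕ, R = (x + a.natAbs) / Q := ⟨_, rfl⟩
  have hR1 : R * Q ≤ x + a.natAbs := by
    rw [hRd]
    exact Nat.div_mul_le_self _ _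
  have hR2 : x + a.natAbs < R * Q + Q := by
    rw [hRd]
    exact Nat.lt_div_mul_add hQn
  have hax := hb.ax
  have haxx : (a.natAbs : ℝ) ≤ x := by
    have : e * x ≤ 1 * x := mul_le_mul_of_nonneg_right (by linarith) hx0.le
    linarith
  have haxn : a.natAbs ≤ x := by exact_mod_cast haxx
  have hRP : P' ≤ R := by
    rw [hRd, Nat.le_div_iff_mul_le hQn]
    have h6 : (P' : ℝ) * Q ≤ x := by
      refine le_trans (mul_le_mul hP'le hQ2 hQ0.le (Real.rpow_nonneg hx0.le _)) hb.PR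
    have h7 : P' * Q ≤ x := by exact_mod_cast h6
    omega
  -- error term
  obtain ⟨Er, hErd⟩ : ∃ Er : ℝ, Er = C1 * (2 * x) / Real.log ((x : ℝ) / 2) ^ 3 := ⟨_, rfl⟩
  have hlogx2 : Real.log x / 2 ≤ Real.log ((x : ℝ) / 2) := by
    rw [Real.log_div hx0.ne' (by norm_num)]
    have := hb.logx2
    linarith
  have hlogx20 : 0 < Real.log ((x : ℝ) / 2) := by linarith
  have hEr0 : 0 ≤ Er := by
    rw [hErd]
    positivity
  have hcore := core a ha0 x Z R y P0 P' N e e Er E1 lam he0.le hZ2 hEr0 hP01 hκB hPP hN hya he0.le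
    (fun q hq => by
      obtain ⟨g1, g2, g3, g4, g5⟩ := hE1mem q hq
      exact ⟨by omega, g3, g5⟩) hlam (by
      intro k s hk hs E hE
      obtain ⟨b1, b2, b3, b4, b5, b6, b7, b8, b9⟩ := blk hb he0 he1 he0 hρ0 hρ1
        (B := Bk e P0 P' k) (Q := Q) (by rw [← hP0d]; exact Bk_ge e hPP k)
        (by rw [← hP'd]; exact Bk_le e P0 P' k) hQ2
      have hsucc : Bk e P0 P' (k + 1) ≤ 2 * Bk e P0 P' k := by
        have h6 := Bk_succ_le he0.le P0 P' k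
        have h7 : (3 : ℝ) ≤ Bk e P0 P' k := by exact_mod_cast b1
        have h9 : (1 + e) * ((Bk e P0 P' k : ℝ) + 1) ≤ (1 + 1 / 100) * ((Bk e P0 P' k : ℝ) + 1) :=
          mul_le_mul_of_nonneg_right (by linarith) (by linarith)
        have h8 : (Bk e P0 P' (k + 1) : ℝ) ≤ 2 * Bk e P0 P' k := by linarith
        exact_mod_cast h8
      refine (hBT1' ((x + a.natAbs) / Bk e P0 P' k) (Bk e P0 P' k) (Bk e P0 P' (k + 1)) Z Q s
        (lam s) E b5 b1 b6 b7 (Bk_mono he0.le P0 P' (Nat.le_succ k)) hsucc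
        (by rw [hZd]; exact b8) (hlam s hs) (by omega) b9 (fun q hq => by
          obtain ⟨g1, g2, g3, g4, g5⟩ := hE1mem q (hE hq)
          exact ⟨g1, g2, g3⟩)).trans ?_
      refine add_le_add le_rfl ?_
      rw [hErd]
      have h6 : Real.log ((x : ℝ) / 2) ≤
          Real.log ((((x + a.natAbs) / Bk e P0 P' k : ℕ) : ℝ) * (Bk e P0 P' k : ℝ)) :=
        Real.log_le_log (by linarith) b4
      have h7 : Real.log ((x : ℝ) / 2) ^ 3 ≤
          Real.log ((((x + a.natAbs) / Bk e P0 P' k : ℕ) : ℝ) * (Bk e P0 P' k : ℝ)) ^ 3 :=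
        pow_le_pow_left₀ hlogx20.le h6 3
      apply div_le_div₀ (by positivity) _ (by positivity) h7
      exact mul_le_mul_of_nonneg_left b3 hC1.le)
  rw [← hΦd, ← hLd] at hcore
  -- S_C
  have hSC : (1 / L) * ∑ q ∈ E1, ∑ r ∈ Icc 1 R, omW (Pr P0 P') r * G a x Z q r ≤
      (15 / 4 + ε / 2) * ((x / Real.log x) * Φ) + (ε ^ 2 / 64) * (x / Real.log x) := by
    have hxa : ((x + a.natAbs : ℕ) : ℝ) ≤ (1 + e) * x := by
      push_cast
      linarith
    have herr : (N : ℝ) * (2 ^ (y + 1) * Er) ≤ (ε ^ 2 / 64) * (x / Real.log x) := by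
      rw [hErd]
      exact err_bound hx0 hC1.le (by positivity) hε hlogx hC'0.le hb.err hNup hlogx2
    have hlZ0 : 0 < (4 / 15) * (1 - e) * Real.log x := by
      have : 0 < 1 - e := by linarith
      positivity
    have hmain : ((1 + e) / Real.log Z) * Φ * (((x + a.natAbs : ℕ) : ℝ) * (1 + e) ^ 2 * L) ≤
        (15 / 4 + ε / 2) * ((x / Real.log x) * Φ) * L := by
      have h6 : (1 + e) / Real.log Z ≤ (1 + e) / ((4 / 15) * (1 - e) * Real.log x) :=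
        div_le_div_of_nonneg_left (by linarith) hlZ0 hlogZ
      have h7 := num_const hε hε1 he
      have h1e : 0 < 1 - e := by linarith
      calc ((1 + e) / Real.log Z) * Φ * (((x + a.natAbs : ℕ) : ℝ) * (1 + e) ^ 2 * L)
          ≤ ((1 + e) / ((4 / 15) * (1 - e) * Real.log x)) * Φ * (((1 + e) * x) * (1 + e) ^ 2 * L) := by
            gcongr
        _ = (((1 + e) * ((1 + e) * (1 + e) ^ 2)) / ((4 / 15) * (1 - e))) *
            ((x / Real.log x) * Φ) * L := by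
            field_simp
        _ ≤ (15 / 4 + ε / 2) * ((x / Real.log x) * Φ) * L := by
            have h8 : ((1 + e) * ((1 + e) * (1 + e) ^ 2)) / ((4 / 15) * (1 - e)) ≤
                15 / 4 + ε / 2 := by
              rw [div_le_iff₀ (by positivity)]
              exact h7
            gcongr
    rw [one_div, ← div_eq_inv_mul, div_le_iff₀ hL0]
    refine hcore.trans ?_
    have h9 : (N : ℝ) * (2 ^ (y + 1) * Er) ≤ (ε ^ 2 / 64) * (x / Real.log x) * L := by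
      refine herr.trans ?_
      have : 0 ≤ (ε ^ 2 / 64) * (x / Real.log x) := by positivity
      exact le_mul_of_one_le_right this hL1'
    rw [add_mul]
    exact add_le_add hmain h9
  -- S_B
  have hSB : (1 / L) * ∑ q ∈ E1, ∑ r ∈ Icc 1 R, |omW (Pr P0 P') r - L| * pn a q r ≤
      (ε ^ 2 / 32) * (x / Real.log x) := by
    have h6 := hBT2 x Q R P0 P' hx3 (by omega) hQ1 (by omega) (by omega) hP01 hRP
    rw [← hLd] at h6
    have h7 : ∑ q ∈ E1, ∑ r ∈ Icc 1 R, |omW (Pr P0 P') r - L| * pn a q r ≤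
        C2 * ((x : ℝ) / Real.log x) * Real.sqrt (L + 1) := by
      refine le_trans ?_ h6
      rw [sum_comm]
      refine sum_le_sum fun r _ => ?_
      rw [← mul_sum]
      refine mul_le_mul_of_nonneg_left ?_ (abs_nonneg _)
      have h8 : ∑ q ∈ E1, pn a q r = ((E1.filter (fun q : ℕ => 0 < a + (q : ℤ) * r ∧
          (a + (q : ℤ) * r).toNat.Prime)).card : ℝ) := by
        unfold pn
        rw [← sum_filter, sum_const, nsmul_eq_mul, mul_one]
      rw [h8]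
      have h9 : E1 ⊆ Ioc Q (2 * Q) := by
        intro q hq
        obtain ⟨g1, g2, -⟩ := hE1mem q hq
        rw [mem_Ioc]
        exact ⟨g1, g2⟩
      exact_mod_cast card_le_card (filter_subset_filter _ h9)
    rw [one_div, ← div_eq_inv_mul, div_le_iff₀ hL0]
    refine h7.trans ?_
    -- C2 sqrt(L+1) ≤ ε²/32 L
    have hsq : 0 < Real.sqrt L := Real.sqrt_pos.mpr hL0
    have h10 : Real.sqrt (L + 1) ≤ 2 * Real.sqrt L := by
      rw [Real.sqrt_le_left (by positivity), mul_pow, Real.sq_sqrt hL0.le]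
      linarith
    have h11 : 64 * C2 / ε ^ 2 ≤ Real.sqrt L := by
      apply Real.le_sqrt_of_sq_le
      linarith
    have h12 : 64 * C2 ≤ ε ^ 2 * Real.sqrt L := by
      rw [div_le_iff₀ (by positivity)] at h11
      linarith
    have h13 : C2 * Real.sqrt (L + 1) ≤ (ε ^ 2 / 32) * L := by
      calc C2 * Real.sqrt (L + 1) ≤ C2 * (2 * Real.sqrt L) :=
            mul_le_mul_of_nonneg_left h10 hC2.le
        _ = (64 * C2) * Real.sqrt L / 32 := by ring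
        _ ≤ (ε ^ 2 * Real.sqrt L) * Real.sqrt L / 32 := by
            apply div_le_div_of_nonneg_right _ (by norm_num)
            exact mul_le_mul_of_nonneg_right h12 hsq.le
        _ = (ε ^ 2 / 32) * (Real.sqrt L * Real.sqrt L) := by ring
        _ = (ε ^ 2 / 32) * L := by rw [Real.mul_self_sqrt hL0.le]
    have h14 : 0 ≤ (x : ℝ) / Real.log x := by positivity
    calc C2 * ((x : ℝ) / Real.log x) * Real.sqrt (L + 1) =
          (C2 * Real.sqrt (L + 1)) * ((x : ℝ) / Real.log x) := by ring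
      _ ≤ ((ε ^ 2 / 32) * L) * ((x : ℝ) / Real.log x) := mul_le_mul_of_nonneg_right h13 h14
      _ = _ := by ring
  -- S_A
  have hSA : ∑ q ∈ E1, (2 * (Z : ℝ) / q + 1) ≤ (ε ^ 2 / 64) * (x / Real.log x) := by
    have hcard : (E1.card : ℝ) ≤ Q := by
      have h9 : E1 ⊆ Ioc Q (2 * Q) := by
        intro q hq
        obtain ⟨g1, g2, -⟩ := hE1mem q hq
        rw [mem_Ioc]
        exact ⟨g1, g2⟩
      have h10 := card_le_card h9
      rw [Nat.card_Ioc] at h10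
      have h11 : E1.card ≤ Q := by omega
      exact_mod_cast h11
    have h6 : ∀ q ∈ E1, 2 * (Z : ℝ) / q + 1 ≤ 2 * (Z : ℝ) / Q + 1 := by
      intro q hq
      obtain ⟨g1, g2, -⟩ := hE1mem q hq
      have : (Q : ℝ) ≤ q := by exact_mod_cast g1.le
      gcongr
    have h7 := sum_le_sum h6
    rw [sum_const, nsmul_eq_mul] at h7
    refine h7.trans ?_
    have h8 : (E1.card : ℝ) * (2 * (Z : ℝ) / Q + 1) ≤ Q * (2 * (Z : ℝ) / Q + 1) :=
      mul_le_mul_of_nonneg_right hcard (by positivity)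
    have h9 : (Q : ℝ) * (2 * (Z : ℝ) / Q + 1) = 2 * Z + Q := by
      field_simp
    rw [h9] at h8
    refine h8.trans (le_trans ?_ hb.small)
    linarith
  -- total
  have htot : (15 / 4 + ε) * ((x / Real.log x) * Φ) ≤
      ∑ q ∈ E1, (2 * (Z : ℝ) / q + 1) +
      (1 / L) * ∑ q ∈ E1, ∑ r ∈ Icc 1 R, |omW (Pr P0 P') r - L| * pn a q r +
      (1 / L) * ∑ q ∈ E1, ∑ r ∈ Icc 1 R, omW (Pr P0 P') r * G a x Z q r := by
    rw [hΦd, mul_sum, mul_sum, mul_sum, mul_sum, ← sum_add_distrib, ← sum_add_distrib]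
    refine sum_le_sum fun q hq => ?_
    obtain ⟨g1, g2, g3, g4, g5⟩ := hE1mem q hq
    have h6 := piq_le2 a ha0 x q Z R (Pr P0 P') L hL0 (by omega) (by omega) (by
      have h7 : (R + 1) * Q ≤ (R + 1) * q := Nat.mul_le_mul_left _ g1.le
      have h8 : (R + 1) * Q = R * Q + Q := by ring
      omega)
    have h7 : (15 / 4 + ε) * ((x : ℝ) / Real.log x * (1 / (Nat.totient q : ℝ))) =
        (15 / 4 + ε) * (x / (Nat.totient q * Real.log x)) := by
      rw [mul_one_div, div_div, mul_comm (Real.log x)]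
    rw [h7]
    exact g4.le.trans h6
  have hfin : (15 / 4 + ε) * ((x / Real.log x) * Φ) ≤ (ε ^ 2 / 64) * (x / Real.log x) +
      (ε ^ 2 / 32) * (x / Real.log x) + ((15 / 4 + ε / 2) * ((x / Real.log x) * Φ) +
      (ε ^ 2 / 64) * (x / Real.log x)) :=
    htot.trans (add_le_add (add_le_add hSA hSB) hSC)
  have hXL : 0 < (x : ℝ) / Real.log x := by positivity
  have h20 : (ε / 2 * Φ) * ((x : ℝ) / Real.log x) ≤ (ε ^ 2 / 16) * ((x : ℝ) / Real.log x) := by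
    linarith
  have h21 : ε / 2 * Φ ≤ ε ^ 2 / 16 := le_of_mul_le_mul_right h20 hXL
  have h22 : ε / 2 * ((99 / 200) * ε) ≤ ε / 2 * Φ := mul_le_mul_of_nonneg_left hΦlow (by positivity)
  have h23 : ε / 2 * ((99 / 200) * ε) = (99 / 400) * ε ^ 2 := by ring
  have h24 : 0 < ε ^ 2 := by positivity
  linarith

end Pool.Agent.H262R4.FR.TBT

namespace Pool.Agent.H262R4.FR

open Finset

/-- Brun–Titchmarsh on average with the constant `15/4`, from the sieve estimates -/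
theorem t_BT (h1 : P_BT1) (h2 : P_BT2) (h3 : P_S1) (h4 : P_PHIS) (h5 : P_LW) : P_BT := by
  intro a ha ε hε δ hδ
  obtain ⟨x0, hx0⟩ := TBT.main h1 h2 h3 h4 h5 a ha (min ε 1) (lt_min hε one_pos)
    (min_le_right _ _) (min δ (1 / 2)) (lt_min hδ (by norm_num)) (min_le_right _ _)
  refine ⟨max x0 3, fun x hx Q hQ1 hQ2 => ?_⟩
  have hx3 : 3 ≤ x := le_of_max_le_right hx
  have hx1 : (1 : ℝ) ≤ x := by
    have : 1 ≤ x := by omega
    exact_mod_cast this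
  have hx0' : (0 : ℝ) < x := by linarith
  have h6 := hx0 x (le_of_max_le_left hx) Q
    ((Real.rpow_le_rpow_of_exponent_le hx1 (min_le_left _ _)).trans hQ1)
    (hQ2.trans (Real.rpow_le_rpow_of_exponent_le hx1 (by
      have := min_le_left δ (1 / 2)
      linarith)))
  refine le_trans ?_ (h6.trans (mul_le_mul_of_nonneg_right (min_le_left _ _) (Nat.cast_nonneg _)))
  have h7 : (Ioc Q (2 * Q)).filter (fun q : ℕ => Int.gcd a q = 1 ∧
      (15 / 4 + ε) * (x / (Nat.totient q * Real.log x)) < piq x q a) ⊆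
      (Ioc Q (2 * Q)).filter (fun q : ℕ => Int.gcd a q = 1 ∧
      (15 / 4 + min ε 1) * (x / (Nat.totient q * Real.log x)) < piq x q a) := by
    intro q hq
    rw [mem_filter] at hq ⊢
    refine ⟨hq.1, hq.2.1, lt_of_le_of_lt ?_ hq.2.2⟩
    have h8 : 0 ≤ (x : ℝ) / (Nat.totient q * Real.log x) := by
      have := Real.log_nonneg hx1
      positivity
    refine mul_le_mul_of_nonneg_right ?_ h8
    have := min_le_left ε 1
    linarith
  exact_mod_cast card_le_card h7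

end Pool.Agent.H262R4.FR
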