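import Pool.Agent.H262R4.FR.BT1A

/-!
FR project (helper262), task BT1 (helper48): upper bound sieve on average over the moduli, one
block of primes, from `P_DISP1`.
-/

namespace Pool.Agent.H262R4.FR

open Finset

theorem t_BT1 (h : P_DISP1) : P_BT1 := by
  intro δ hδ
  obtain ⟨ρ, hρ, hρ1, h⟩ := h δ hδ 3
  refine ⟨ρ, hρ, hρ1, ?_⟩
  intro a ha ρ0 hρ0
  obtain ⟨C1, hC1, h1⟩ := h (-a) (neg_ne_zero.2 ha) ρ0 hρ0
  obtain ⟨C2, hC2, h2⟩ := TBT1.err ρ0 hρ0
  obtain ⟨C3, hC3, h3⟩ := TBT1.logb ρ0 hρ0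
  have ha1 : 1 ≤ a.natAbs := Int.natAbs_pos.2 ha
  have har : (1 : ℝ) ≤ (a.natAbs : ℝ) := by exact_mod_cast ha1
  set X0 : ℝ := (a.natAbs : ℝ) ^ (1 / ρ0) with hX0
  have hX00 : 0 < X0 := by positivity
  refine ⟨C1 + 2 * (a.natAbs.divisors.card : ℝ) * C2 * C3 + 2 * X0 ^ 8, by positivity, ?_⟩
  intro M P P' Z Q s lam E hM hP hP0 hPρ hPP hPP2 hZ hSel hQ hQM hE
  have hMr : (3 : ℝ) ≤ M := by exact_mod_cast hM
  have hPr : (3 : ℝ) ≤ P := by exact_mod_cast hP
  set X : ℝ := (M : ℝ) * P with hX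
  have hX9 : 9 ≤ X := by rw [hX]; nlinarith
  have hXpos : 0 < X := by linarith
  have hMX : (M : ℝ) ≤ X := by rw [hX]; nlinarith
  have hPX : (P : ℝ) ≤ X := by rw [hX]; nlinarith
  have hlog : 0 < Real.log X := Real.log_pos (by linarith)
  have hlogX : Real.log X ≤ X := by linarith [Real.log_le_sub_one_of_pos hXpos]
  have hZX : ((Z ^ 2 : ℕ) : ℝ) ≤ X := by
    push_cast
    refine hZ.trans ?_
    calc X ^ (8 / 15 - δ) ≤ X ^ (1 : ℝ) :=
          Real.rpow_le_rpow_of_exponent_le (by linarith) (by linarith)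
      _ = X := Real.rpow_one X
  have hEq1 : ∀ q ∈ E, 1 ≤ q := fun q hq => by have := (hE q hq).1; omega
  have hn : ((Pr P P').card : ℝ) ≤ P := by
    have h4 : (Pr P P').card ≤ (Ioc P P').card := card_le_card (filter_subset _ _)
    rw [Nat.card_Ioc] at h4
    exact_mod_cast (by omega : (Pr P P').card ≤ P)
  have hEc : (E.card : ℝ) ≤ M * X ^ (-ρ0) := by
    have h4 : E ⊆ Ioc Q (2 * Q) := fun q hq => mem_Ioc.2 ⟨(hE q hq).1, (hE q hq).2.1⟩
    have h5 := card_le_card h4
    rw [Nat.card_Ioc] at h5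
    have h6 : (E.card : ℝ) ≤ Q := by exact_mod_cast (by omega : E.card ≤ Q)
    exact h6.trans hQM
  set n : ℕ := (Pr P P').card with hn'
  set MT : ℝ := (n : ℝ) * M * (∑ q ∈ E,
        ((Nat.totient a.natAbs : ℝ) / (a.natAbs : ℝ)) / (q : ℝ) *
        ∑ d ∈ (Icc 1 (Z ^ 2)).filter (fun d => Nat.Coprime d (q * a.natAbs)), lam d / d) with hMT
  by_cases hPa : a.natAbs < P
  · -- main case
    set α : ℕ → ℝ := fun m => if 1 ≤ m then
      ((E.filter (fun q => q ∣ m ∧ Int.gcd a ((m / q : ℕ) : ℤ) = 1)).card : ℝ) else 0 with hα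
    have hαb : ∀ m, |α m| ≤ (m.divisors.card : ℝ) := by
      intro m
      simp only [hα]
      split_ifs with hm
      · rw [abs_of_nonneg (by positivity)]
        have : E.filter (fun q => q ∣ m ∧ Int.gcd a ((m / q : ℕ) : ℤ) = 1) ⊆ m.divisors := by
          intro q hq
          rw [mem_filter] at hq
          rw [Nat.mem_divisors]
          exact ⟨hq.2.1, by omega⟩
        exact_mod_cast card_le_card this
      · simp
    have h4 := h1 M P P' Z lam α hM hP hP0 hPρ hPP hPP2 hZ hSel.bd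
      (fun d hd => ⟨(hSel.supp d hd).2.1, (hSel.supp d hd).2.2.2.2⟩) hαb
    rw [← hX] at h4
    simp only [Int.neg_gcd] at h4
    have h5 : ∑ m ∈ Icc 1 M, α m *
        Dl (-a) lam ((Icc 1 (Z ^ 2)).filter (fun d : ℕ => Int.gcd a d = 1)) (Pr P P') m =
        ∑ q ∈ E, ∑ b ∈ (Icc 1 (M / q)).filter (fun b : ℕ => Int.gcd a b = 1),
          Dl (-a) lam ((Icc 1 (Z ^ 2)).filter (fun d : ℕ => Int.gcd a d = 1)) (Pr P P')
            ((q * b : ℕ) : ℤ) := by
      rw [← TBT1.comb a E M hEq1 (fun m => Dl (-a) lam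
        ((Icc 1 (Z ^ 2)).filter (fun d : ℕ => Int.gcd a d = 1)) (Pr P P') ((m : ℕ) : ℤ))]
      apply sum_congr rfl
      intro m hm
      rw [mem_Icc] at hm
      simp only [hα]
      rw [if_pos hm.1]
    rw [h5] at h4
    have h6 : (∑ q ∈ E, ∑ b ∈ (Icc 1 (M / q)).filter (fun b : ℕ => Int.gcd a b = 1),
        ∑ p ∈ Pr P P', ∑ d ∈ Icc 1 (Z ^ 2), if (d : ℤ) ∣ a + q * b * p then lam d else 0) =
        (∑ q ∈ E, ∑ b ∈ (Icc 1 (M / q)).filter (fun b : ℕ => Int.gcd a b = 1),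
          Dl (-a) lam ((Icc 1 (Z ^ 2)).filter (fun d : ℕ => Int.gcd a d = 1)) (Pr P P')
            ((q * b : ℕ) : ℤ)) +
        ∑ q ∈ E, ∑ b ∈ (Icc 1 (M / q)).filter (fun b : ℕ => Int.gcd a b = 1),
          ∑ d ∈ (Icc 1 (Z ^ 2)).filter (fun d : ℕ => Int.gcd a d = 1),
            lam d * (Cc d ((q * b : ℕ) : ℤ) * (n : ℝ) / (Nat.totient d : ℝ)) := by
      rw [← sum_add_distrib]
      apply sum_congr rfl
      intro q hq
      rw [← sum_add_distrib]
      apply sum_congr rfl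
      intro b hb
      rw [mem_filter] at hb
      rw [TBT1.pull a ha lam Z q b (Pr P P') ?_ (hE q hq).2.2 hb.2]
      · unfold Dl
        rw [← sum_add_distrib]
        apply sum_congr rfl
        intro d _
        ring
      · intro p hp
        unfold Pr at hp
        rw [mem_filter, mem_Ioc] at hp
        exact ⟨hp.2, by omega⟩
    have h7 := TBT1.main_term a ha lam hSel.bd M Z n E hEq1
    rw [← hMT] at h7
    have h8 := h2 X (Z ^ 2) (by linarith) hZX
    have h9 := h3 X (by linarith)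
    have h10 : (E.card : ℝ) * ((n : ℝ) * (2 * (a.natAbs.divisors.card : ℝ) *
        ∑ d ∈ Icc 1 (Z ^ 2), (3 : ℝ) ^ om d * d.divisors.card / Nat.totient d)) ≤
        2 * (a.natAbs.divisors.card : ℝ) * C2 * C3 * (X / Real.log X ^ 3) := by
      refine TBT1.arith _ _ P M (X ^ (-ρ0)) _ _ C2 (X ^ (ρ0 / 4) * (1 + Real.log X)) C3
        (Real.log X ^ 3) (Nat.cast_nonneg _) hEc (Nat.cast_nonneg _) hn (Nat.cast_nonneg _) h8
        (Finset.sum_nonneg fun d _ => by positivity) h9 hC2.le (by linarith) (by linarith)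
        (mul_nonneg (Real.rpow_nonneg hXpos.le _) (by linarith)) (Real.rpow_nonneg hXpos.le _)
    have h11 := (le_abs_self _).trans h4
    have h12 : 0 ≤ 2 * X0 ^ 8 * (X / Real.log X ^ 3) := by positivity
    have h13 : (C1 + 2 * (a.natAbs.divisors.card : ℝ) * C2 * C3 + 2 * X0 ^ 8) * X /
        Real.log X ^ 3 = C1 * X / Real.log X ^ 3 +
        2 * (a.natAbs.divisors.card : ℝ) * C2 * C3 * (X / Real.log X ^ 3) +
        2 * X0 ^ 8 * (X / Real.log X ^ 3) := by ring
    rw [h6, h13]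
    linarith
  · -- bounded case
    have hXX0 : X ≤ X0 := by
      have h4 : X ^ ρ0 ≤ (a.natAbs : ℝ) := hP0.trans (by exact_mod_cast not_lt.1 hPa)
      calc X = (X ^ ρ0) ^ (1 / ρ0) := by
            rw [← Real.rpow_mul hXpos.le, mul_one_div_cancel hρ0.ne', Real.rpow_one]
        _ ≤ X0 := by rw [hX0]; gcongr
    have hEX : (E.card : ℝ) ≤ X := by
      refine hEc.trans (le_trans ?_ hMX)
      have : X ^ (-ρ0) ≤ 1 := Real.rpow_le_one_of_one_le_of_nonpos (by linarith) (by linarith)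
      nlinarith
    have hlam : ∀ d ∈ Icc 1 (Z ^ 2), |lam d| ≤ X ^ 2 := by
      intro d hd
      rw [mem_Icc] at hd
      refine (hSel.bd d).trans ((TBT1.three_pow_om' d hd.1).trans ?_)
      have : (d : ℝ) ≤ X := le_trans (by exact_mod_cast hd.2) hZX
      gcongr
    have hL : (∑ q ∈ E, ∑ b ∈ (Icc 1 (M / q)).filter (fun b : ℕ => Int.gcd a b = 1),
        ∑ p ∈ Pr P P', ∑ d ∈ Icc 1 (Z ^ 2), if (d : ℤ) ∣ a + q * b * p then lam d else 0) ≤
        X ^ 6 := by
      have k1 : ∀ q b p : ℕ,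
          ∑ d ∈ Icc 1 (Z ^ 2), (if (d : ℤ) ∣ a + q * b * p then lam d else 0) ≤ X ^ 3 := by
        intro q b p
        calc ∑ d ∈ Icc 1 (Z ^ 2), (if (d : ℤ) ∣ a + q * b * p then lam d else 0)
            ≤ ∑ d ∈ Icc 1 (Z ^ 2), X ^ 2 := by
              apply sum_le_sum
              intro d hd
              split_ifs
              · exact (le_abs_self _).trans (hlam d hd)
              · positivity
          _ = ((Z ^ 2 : ℕ) : ℝ) * X ^ 2 := by
              rw [sum_const, Nat.card_Icc, nsmul_eq_mul, Nat.add_sub_cancel]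
          _ ≤ X * X ^ 2 := by gcongr
          _ = X ^ 3 := by ring
      have k2 : ∀ q b : ℕ, ∑ p ∈ Pr P P',
          ∑ d ∈ Icc 1 (Z ^ 2), (if (d : ℤ) ∣ a + q * b * p then lam d else 0) ≤ X ^ 4 := by
        intro q b
        calc _ ≤ ∑ p ∈ Pr P P', X ^ 3 := sum_le_sum fun p _ => k1 q b p
          _ = (n : ℝ) * X ^ 3 := by rw [sum_const, nsmul_eq_mul]
          _ ≤ X * X ^ 3 := by gcongr; exact hn.trans hPX
          _ = X ^ 4 := by ring
      have k3 : ∀ q ∈ E, ∑ b ∈ (Icc 1 (M / q)).filter (fun b : ℕ => Int.gcd a b = 1),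
          ∑ p ∈ Pr P P', ∑ d ∈ Icc 1 (Z ^ 2),
            (if (d : ℤ) ∣ a + q * b * p then lam d else 0) ≤ X ^ 5 := by
        intro q hq
        have hc : (((Icc 1 (M / q)).filter (fun b : ℕ => Int.gcd a b = 1)).card : ℝ) ≤ X := by
          have h4 : ((Icc 1 (M / q)).filter (fun b : ℕ => Int.gcd a b = 1)).card ≤ M := by
            refine (card_le_card (filter_subset _ _)).trans ?_
            rw [Nat.card_Icc, Nat.add_sub_cancel]
            exact Nat.div_le_self _ _
          exact le_trans (by exact_mod_cast h4) hMX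
        calc _ ≤ ∑ b ∈ (Icc 1 (M / q)).filter (fun b : ℕ => Int.gcd a b = 1), X ^ 4 :=
              sum_le_sum fun b _ => k2 q b
          _ = (((Icc 1 (M / q)).filter (fun b : ℕ => Int.gcd a b = 1)).card : ℝ) * X ^ 4 := by
              rw [sum_const, nsmul_eq_mul]
          _ ≤ X * X ^ 4 := by gcongr
          _ = X ^ 5 := by ring
      calc _ ≤ ∑ q ∈ E, X ^ 5 := sum_le_sum k3
        _ = (E.card : ℝ) * X ^ 5 := by rw [sum_const, nsmul_eq_mul]
        _ ≤ X * X ^ 5 := by gcongr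
        _ = X ^ 6 := by ring
    have hR : |MT| ≤ X ^ 6 := by
      have k1 : ∀ q ∈ E, |((Nat.totient a.natAbs : ℝ) / (a.natAbs : ℝ)) / (q : ℝ) *
          ∑ d ∈ (Icc 1 (Z ^ 2)).filter (fun d => Nat.Coprime d (q * a.natAbs)), lam d / d| ≤
          X ^ 3 := by
        intro q hq
        have hq1 : (1 : ℝ) ≤ q := by exact_mod_cast hEq1 q hq
        have k2 : ((Nat.totient a.natAbs : ℝ) / (a.natAbs : ℝ)) / (q : ℝ) ≤ 1 := by
          rw [div_div, div_le_one (by positivity)]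
          have : (Nat.totient a.natAbs : ℝ) ≤ (a.natAbs : ℝ) := by
            exact_mod_cast Nat.totient_le _
          nlinarith
        have k3 : |∑ d ∈ (Icc 1 (Z ^ 2)).filter (fun d => Nat.Coprime d (q * a.natAbs)),
            lam d / d| ≤ X ^ 3 := by
          calc _ ≤ ∑ d ∈ (Icc 1 (Z ^ 2)).filter (fun d => Nat.Coprime d (q * a.natAbs)),
                |lam d / d| := abs_sum_le_sum_abs _ _
            _ ≤ ∑ d ∈ Icc 1 (Z ^ 2), |lam d / d| :=
                sum_le_sum_of_subset_of_nonneg (filter_subset _ _) (fun _ _ _ => abs_nonneg _)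
            _ ≤ ∑ d ∈ Icc 1 (Z ^ 2), X ^ 2 := by
                apply sum_le_sum
                intro d hd
                have k4 := hlam d hd
                rw [mem_Icc] at hd
                have k5 : (1 : ℝ) ≤ d := by exact_mod_cast hd.1
                rw [abs_div, abs_of_nonneg (by linarith : (0 : ℝ) ≤ d), div_le_iff₀ (by linarith)]
                nlinarith [sq_nonneg X]
            _ = ((Z ^ 2 : ℕ) : ℝ) * X ^ 2 := by
                rw [sum_const, Nat.card_Icc, nsmul_eq_mul, Nat.add_sub_cancel]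
            _ ≤ X * X ^ 2 := by gcongr
            _ = X ^ 3 := by ring
        rw [abs_mul, abs_of_nonneg (by positivity :
          0 ≤ ((Nat.totient a.natAbs : ℝ) / (a.natAbs : ℝ)) / (q : ℝ))]
        calc _ ≤ 1 * X ^ 3 := by gcongr
          _ = _ := one_mul _
      rw [hMT, abs_mul]
      have k6 : |(n : ℝ) * M| ≤ X := by
        rw [abs_of_nonneg (by positivity), hX, mul_comm]
        gcongr
      have k8 : |∑ q ∈ E, ((Nat.totient a.natAbs : ℝ) / (a.natAbs : ℝ)) / (q : ℝ) *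
          ∑ d ∈ (Icc 1 (Z ^ 2)).filter (fun d => Nat.Coprime d (q * a.natAbs)), lam d / d| ≤
          X ^ 4 := by
        refine (abs_sum_le_sum_abs _ _).trans ((sum_le_sum k1).trans ?_)
        rw [sum_const, nsmul_eq_mul]
        calc (E.card : ℝ) * X ^ 3 ≤ X * X ^ 3 :=
              mul_le_mul_of_nonneg_right hEX (by positivity)
          _ = X ^ 4 := by ring
      refine (mul_le_mul k6 k8 (abs_nonneg _) hXpos.le).trans ?_
      have k7 : X * X ^ 4 = X ^ 5 := by ring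
      rw [k7]
      exact pow_le_pow_right₀ (by linarith) (by norm_num)
    have hfin : 2 * X ^ 6 ≤ 2 * X0 ^ 8 * (X / Real.log X ^ 3) := by
      have k1 : X / X ^ 3 ≤ X / Real.log X ^ 3 := by gcongr
      calc 2 * X ^ 6 = 2 * X ^ 8 * (X / X ^ 3) := by field_simp
        _ ≤ 2 * X0 ^ 8 * (X / Real.log X ^ 3) := by gcongr
    have h13 : (C1 + 2 * (a.natAbs.divisors.card : ℝ) * C2 * C3 + 2 * X0 ^ 8) * X /
        Real.log X ^ 3 = (C1 + 2 * (a.natAbs.divisors.card : ℝ) * C2 * C3) *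
          (X / Real.log X ^ 3) + 2 * X0 ^ 8 * (X / Real.log X ^ 3) := by ring
    have h14 : 0 ≤ (C1 + 2 * (a.natAbs.divisors.card : ℝ) * C2 * C3) *
          (X / Real.log X ^ 3) := by positivity
    have h15 := neg_abs_le MT
    rw [h13]
    linarith

end Pool.Agent.H262R4.FR
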