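import Pool.Agent.H262R4.FR.Stubs

/-! BT2: the weights `|ω_W(r) - L|` against primes (helper493) -/

namespace Pool.Agent.H262R4.FR

open Finset

theorem t_BT2 (h1 : P_BTS) (h2 : P_TK) (h3 : P_PHIS) : P_BT2 := by
  intro a ha δ hδ
  obtain ⟨C1, hC1, h1⟩ := h1
  obtain ⟨C3, hC3, h3⟩ := h3.1
  have h2 := h2.1
  refine ⟨6 * C1 * Real.sqrt C3 / δ, by positivity, ?_⟩
  intro x Q R P P' hx hQ hxQ haQ hRQ hP hP'
  set L := mass (Pr P P') with hL
  have hL0 : 0 ≤ L := by
    rw [hL]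
    exact Finset.sum_nonneg fun p _ => by positivity
  have hQr : (3 : ℝ) ≤ Q := by exact_mod_cast hQ
  have hxr : (3 : ℝ) ≤ x := by exact_mod_cast hx
  have hlogQ : 0 < Real.log Q := Real.log_pos (by linarith)
  have hlogx : 0 < Real.log x := Real.log_pos (by linarith)
  have hlog : δ * Real.log x ≤ Real.log Q := by
    have := Real.log_le_log (Real.rpow_pos_of_pos (by linarith) δ) hxQ
    rwa [Real.log_rpow (by linarith)] at this
  have s1 : ∑ r ∈ Icc 1 R, |omW (Pr P P') r - L| *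
      (((Ioc Q (2 * Q)).filter (fun q : ℕ => 0 < a + (q : ℤ) * r ∧
        (a + (q : ℤ) * r).toNat.Prime)).card : ℝ) ≤
      C1 * ((Q : ℝ) / Real.log Q) * ∑ r ∈ Icc 1 R, |omW (Pr P P') r - L| *
        ((r : ℝ) / Nat.totient r) := by
    rw [Finset.mul_sum]
    refine Finset.sum_le_sum fun r hr => ?_
    rw [Finset.mem_Icc] at hr
    have := h1 a Q r ha hQ hr.1 haQ
    calc |omW (Pr P P') r - L| * (((Ioc Q (2 * Q)).filter (fun q : ℕ => 0 < a + (q : ℤ) * r ∧
        (a + (q : ℤ) * r).toNat.Prime)).card : ℝ)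
        ≤ |omW (Pr P P') r - L| * (C1 * ((Q : ℝ) / Real.log Q) * ((r : ℝ) / Nat.totient r)) :=
          mul_le_mul_of_nonneg_left this (abs_nonneg _)
      _ = _ := by ring
  have s2 : ∑ r ∈ Icc 1 R, |omW (Pr P P') r - L| * ((r : ℝ) / Nat.totient r) ≤
      Real.sqrt (4 * R * (L + 1)) * Real.sqrt (C3 * R) := by
    refine (Real.sum_mul_le_sqrt_mul_sqrt _ _ _).trans ?_
    refine mul_le_mul ?_ ?_ (Real.sqrt_nonneg _) (Real.sqrt_nonneg _)
    · refine Real.sqrt_le_sqrt ?_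
      simp only [sq_abs]
      exact h2 R P P' hP hP'
    · exact Real.sqrt_le_sqrt (h3 R)
  have s3 : Real.sqrt (4 * R * (L + 1)) * Real.sqrt (C3 * R) =
      2 * Real.sqrt C3 * R * Real.sqrt (L + 1) := by
    rw [← Real.sqrt_mul (by positivity)]
    have : 4 * (R : ℝ) * (L + 1) * (C3 * R) = (2 * R) ^ 2 * (C3 * (L + 1)) := by ring
    rw [this, Real.sqrt_mul (by positivity), Real.sqrt_sq (by positivity),
      Real.sqrt_mul hC3.le]
    ring
  have s4 : (R : ℝ) * Q ≤ 3 * x := by exact_mod_cast hRQ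
  have s5 : (Q : ℝ) / Real.log Q * R ≤ 3 * x / (δ * Real.log x) := by
    rw [div_mul_eq_mul_div]
    refine div_le_div₀ (by positivity) (by linarith) (by positivity) hlog
  calc _ ≤ C1 * ((Q : ℝ) / Real.log Q) * ∑ r ∈ Icc 1 R, |omW (Pr P P') r - L| *
        ((r : ℝ) / Nat.totient r) := s1
    _ ≤ C1 * ((Q : ℝ) / Real.log Q) * (2 * Real.sqrt C3 * R * Real.sqrt (L + 1)) := by
        rw [← s3]
        exact mul_le_mul_of_nonneg_left s2 (by positivity)
    _ = (2 * C1 * Real.sqrt C3 * Real.sqrt (L + 1)) * ((Q : ℝ) / Real.log Q * R) := by ring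
    _ ≤ (2 * C1 * Real.sqrt C3 * Real.sqrt (L + 1)) * (3 * x / (δ * Real.log x)) :=
        mul_le_mul_of_nonneg_left s5 (by positivity)
    _ = 6 * C1 * Real.sqrt C3 / δ * ((x : ℝ) / Real.log x) * Real.sqrt (L + 1) := by
        field_simp
        ring

end Pool.Agent.H262R4.FR
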