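import Pool.Agent.H262R4.FR.Stubs

/-! BTS: Brun-Titchmarsh with the roles switched (helper493) -/

namespace Pool.Agent.H262R4.FR

open Finset

namespace TBTS

/-- number of `q` in `(Q, 2Q]` with `d ∣ a + q r` -/
theorem cnt (a : ℤ) (Q r d : ℕ) (hd : 1 ≤ d) (hc : Nat.Coprime d r) :
    |(((Ioc Q (2 * Q)).filter (fun q : ℕ => (d : ℤ) ∣ a + (q : ℤ) * r)).card : ℝ) -
      (Q : ℝ) / d| ≤ 1 := by
  have hd0 : (0 : ℤ) < d := by exact_mod_cast hd
  obtain ⟨v, hv⟩ : ∃ v : ℕ, (d : ℤ) ∣ a + (v : ℤ) * r := by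
    have hi : IsCoprime (r : ℤ) (d : ℤ) := (Nat.isCoprime_iff_coprime.2 hc).symm
    obtain ⟨s, t, hst⟩ := hi
    refine ⟨((-a * s) % (d : ℤ)).toNat, ?_⟩
    rw [Int.toNat_of_nonneg (Int.emod_nonneg _ hd0.ne')]
    have h1 : (d : ℤ) ∣ (-a * s) % (d : ℤ) - (-a * s) := by
      have := Int.emod_add_mul_ediv (-a * s) (d : ℤ)
      exact ⟨-((-a * s) / (d : ℤ)), by linarith⟩
    have h2 : a + (-a * s) % (d : ℤ) * r = ((-a * s) % (d : ℤ) - (-a * s)) * r + d * (a * t) := by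
      have : a = a * (s * r + t * d) := by rw [hst, mul_one]
      calc a + (-a * s) % (d : ℤ) * r = a * (s * r + t * d) + (-a * s) % (d : ℤ) * r := by
            rw [hst, mul_one]
        _ = _ := by ring
    rw [h2]
    exact dvd_add (Dvd.dvd.mul_right h1 _) (Dvd.intro _ rfl)
  have he : (Ioc Q (2 * Q)).filter (fun q : ℕ => (d : ℤ) ∣ a + (q : ℤ) * r) =
      (Ioc Q (2 * Q)).filter (fun q : ℕ => q ≡ v [MOD d]) := by
    apply Finset.filter_congr
    intro q _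
    rw [← Int.natCast_modEq_iff, Int.modEq_iff_dvd]
    have hi : IsCoprime (d : ℤ) (r : ℤ) := Nat.isCoprime_iff_coprime.2 hc
    constructor
    · intro h
      have h1 : (d : ℤ) ∣ ((v : ℤ) - q) * r := by
        have := dvd_sub hv h
        have h2 : a + (v : ℤ) * r - (a + (q : ℤ) * r) = ((v : ℤ) - q) * r := by ring
        rwa [h2] at this
      exact hi.dvd_of_dvd_mul_right h1
    · intro h
      have h1 : a + (q : ℤ) * r = a + (v : ℤ) * r - ((v : ℤ) - q) * r := by ring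
      rw [h1]
      exact dvd_sub hv (Dvd.dvd.mul_right h _)
  rw [he]
  have hcard := Nat.Ioc_filter_modEq_card Q (2 * Q) (r := d) hd v
  have hdq : (0 : ℚ) < d := by exact_mod_cast hd
  set A : ℚ := (((2 * Q : ℕ) : ℚ) - v) / (d : ℚ) with hA
  set B : ℚ := ((Q : ℚ) - v) / (d : ℚ) with hB
  have hAB : A - B = (Q : ℚ) / d := by
    rw [hA, hB, ← sub_div]
    congr 1
    push_cast
    ring
  have hle : B ≤ A := by
    have : 0 ≤ A - B := by rw [hAB]; positivity
    linarith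
  have hmono : ⌊B⌋ ≤ ⌊A⌋ := Int.floor_le_floor hle
  rw [max_eq_left (by linarith)] at hcard
  have f1 := Int.floor_le A
  have f2 := Int.lt_floor_add_one A
  have f3 := Int.floor_le B
  have f4 := Int.lt_floor_add_one B
  have hq : |(((Ioc Q (2 * Q)).filter (fun q : ℕ => q ≡ v [MOD d])).card : ℚ) -
      (Q : ℚ) / d| ≤ 1 := by
    have h5 : (((Ioc Q (2 * Q)).filter (fun q : ℕ => q ≡ v [MOD d])).card : ℚ) =
        (⌊A⌋ : ℚ) - ⌊B⌋ := by exact_mod_cast hcard
    rw [h5, ← hAB, abs_le]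
    constructor <;> linarith
  have h6 := (Rat.cast_le (K := ℝ)).2 hq
  push_cast at h6
  exact h6

theorem three_pow_le (d : ℕ) (hd : 1 ≤ d) : (3 : ℝ) ^ om d ≤ (d : ℝ) ^ 2 := by
  have h1 : (3 : ℕ) ^ om d ≤ d ^ 2 := by
    calc (3 : ℕ) ^ om d = ∏ _p ∈ d.primeFactors, 3 := by rw [Finset.prod_const]; rfl
      _ ≤ ∏ p ∈ d.primeFactors, p ^ 2 := by
          refine Finset.prod_le_prod' fun p hp => ?_
          have := (Nat.prime_of_mem_primeFactors hp).two_le
          nlinarith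
      _ = (∏ p ∈ d.primeFactors, p) ^ 2 := by rw [Finset.prod_pow]
      _ ≤ d ^ 2 := Nat.pow_le_pow_left (Nat.le_of_dvd hd (Nat.prod_primeFactors_dvd d)) 2
  exact_mod_cast h1

theorem exists_Z (Q : ℕ) : ∃ Z : ℕ, Z ^ 8 ≤ Q ∧ Q < (Z + 1) ^ 8 := by
  refine ⟨Nat.findGreatest (fun z => z ^ 8 ≤ Q) Q, ?_, ?_⟩
  · exact Nat.findGreatest_spec (P := fun z => z ^ 8 ≤ Q) (Nat.zero_le _) (by simp)
  · by_contra h
    push Not at h
    have h1 : Nat.findGreatest (fun z => z ^ 8 ≤ Q) Q + 1 ≤ Q := by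
      refine le_trans ?_ h
      exact Nat.le_self_pow (by norm_num) _
    have h2 := Nat.le_findGreatest (P := fun z => z ^ 8 ≤ Q) h1 h
    omega

end TBTS

open TBTS

theorem t_BTS (h : P_S1) : P_BTS := by
  refine ⟨256, by norm_num, ?_⟩
  intro a Q r ha hQ hr haQ
  set F := (Ioc Q (2 * Q)).filter (fun q : ℕ => 0 < a + (q : ℤ) * r ∧
        (a + (q : ℤ) * r).toNat.Prime) with hF
  have hQr : (3 : ℝ) ≤ Q := by exact_mod_cast hQ
  have hlogQ : 0 < Real.log Q := Real.log_pos (by linarith)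
  have hrr : (1 : ℝ) ≤ r := by exact_mod_cast hr
  have hphi : (0 : ℝ) < Nat.totient r := by exact_mod_cast Nat.totient_pos.2 hr
  have hratio : 1 ≤ (r : ℝ) / Nat.totient r := by
    rw [le_div_iff₀ hphi, one_mul]
    exact_mod_cast Nat.totient_le r
  have hQlog : 1 ≤ (Q : ℝ) / Real.log Q := by
    rw [le_div_iff₀ hlogQ, one_mul]
    have := Real.log_le_sub_one_of_pos (show (0 : ℝ) < Q by linarith)
    linarith
  have hprod : 1 ≤ (Q : ℝ) / Real.log Q * ((r : ℝ) / Nat.totient r) := by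
    nlinarith
  have hFle : (F.card : ℝ) ≤ Q := by
    have h1 : F.card ≤ (Ioc Q (2 * Q)).card := Finset.card_filter_le _ _
    rw [Nat.card_Ioc] at h1
    have : F.card ≤ Q := by omega
    exact_mod_cast this
  by_cases hg : Nat.Coprime r a.natAbs
  swap
  · -- common divisor
    have hcard : F.card ≤ 1 := by
      rw [Finset.card_le_one]
      have key : ∀ q ∈ F, a + (q : ℤ) * r = (Nat.gcd r a.natAbs : ℕ) := by
        intro q hq
        rw [hF, Finset.mem_filter] at hq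
        obtain ⟨_, hpos, hpr⟩ := hq
        have hd : ((Nat.gcd r a.natAbs : ℕ) : ℤ) ∣ a + (q : ℤ) * r := by
          refine dvd_add ?_ (Dvd.dvd.mul_left (Int.natCast_dvd_natCast.2 (Nat.gcd_dvd_left _ _)) _)
          exact Int.natCast_dvd.2 (Nat.gcd_dvd_right _ _)
        have hd2 : Nat.gcd r a.natAbs ∣ (a + (q : ℤ) * r).toNat := by
          rw [← Int.natCast_dvd_natCast, Int.toNat_of_nonneg hpos.le]
          exact hd
        have hg1 : Nat.gcd r a.natAbs ≠ 1 := hg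
        have h3 := ((Nat.dvd_prime hpr).1 hd2).resolve_left hg1
        rw [h3, Int.toNat_of_nonneg hpos.le]
      intro q1 h1 q2 h2
      have e1 := key q1 h1
      have e2 := key q2 h2
      have hr0 : (0 : ℤ) < r := by exact_mod_cast hr
      have : (q1 : ℤ) * r = (q2 : ℤ) * r := by linarith
      exact_mod_cast mul_right_cancel₀ hr0.ne' this
    have : (F.card : ℝ) ≤ 1 := by exact_mod_cast hcard
    nlinarith
  obtain ⟨Z, hZ1, hZ2⟩ := exists_Z Q
  by_cases hZ : Z < 2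
  · -- small Q
    have hQs : Q < 256 := by
      calc Q < (Z + 1) ^ 8 := hZ2
        _ ≤ 2 ^ 8 := Nat.pow_le_pow_left (by omega) 8
        _ = 256 := by norm_num
    have hQs' : (Q : ℝ) ≤ 256 := by exact_mod_cast hQs.le
    have hl : Real.log Q ≤ 256 := by
      have := Real.log_le_sub_one_of_pos (show (0 : ℝ) < Q by linarith)
      linarith
    have h1 : (Q : ℝ) ≤ 256 * ((Q : ℝ) / Real.log Q) := by
      rw [← mul_div_assoc, le_div_iff₀ hlogQ]
      nlinarith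
    calc (F.card : ℝ) ≤ Q := hFle
      _ ≤ 256 * ((Q : ℝ) / Real.log Q) := h1
      _ ≤ 256 * ((Q : ℝ) / Real.log Q) * ((r : ℝ) / Nat.totient r) :=
          le_mul_of_one_le_right (by positivity) hratio
  push Not at hZ
  obtain ⟨lam, hl⟩ := h Z r hZ hr
  have hZr : (2 : ℝ) ≤ Z := by exact_mod_cast hZ
  have hlogZ : 0 < Real.log Z := Real.log_pos (by linarith)
  -- log Q ≤ 16 log Z
  have hlogle : Real.log Q ≤ 16 * Real.log Z := by
    have h1 : (Q : ℝ) ≤ ((Z : ℝ) + 1) ^ 8 := by exact_mod_cast hZ2.le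
    have h2 : (Z : ℝ) + 1 ≤ (Z : ℝ) ^ 2 := by nlinarith
    have h3 : (Q : ℝ) ≤ (Z : ℝ) ^ 16 := by
      calc (Q : ℝ) ≤ ((Z : ℝ) + 1) ^ 8 := h1
        _ ≤ ((Z : ℝ) ^ 2) ^ 8 := pow_le_pow_left₀ (by positivity) h2 8
        _ = (Z : ℝ) ^ 16 := by ring
    have := Real.log_le_log (by linarith) h3
    rwa [Real.log_pow] at this
  have hlogle2 : Real.log Q ≤ 16 * Z := by
    have := Real.log_le_sub_one_of_pos (show (0 : ℝ) < Z by linarith)
    linarith
  have hZQ : (Z : ℝ) ^ 8 ≤ Q := by exact_mod_cast hZ1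
  -- splitting
  have hpos : ∀ q ∈ Ioc Q (2 * Q), 0 < a + (q : ℤ) * r := by
    intro q hq
    rw [Finset.mem_Ioc] at hq
    have h1 : (a.natAbs : ℤ) ≤ Q := by exact_mod_cast haQ
    have h2 : -(a.natAbs : ℤ) ≤ a := by omega
    have h3 : (Q : ℤ) < q := by exact_mod_cast hq.1
    have h4 : (1 : ℤ) ≤ r := by exact_mod_cast hr
    nlinarith
  have hsplit : (F.card : ℝ) = ((F.filter fun q : ℕ => (a + (q : ℤ) * r).toNat ≤ Z).card : ℝ) +
      ((F.filter fun q : ℕ => ¬ (a + (q : ℤ) * r).toNat ≤ Z).card : ℝ) := by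
    rw [← Finset.card_filter_add_card_filter_not (s := F)
      (fun q : ℕ => (a + (q : ℤ) * r).toNat ≤ Z)]
    push_cast
    rfl
  have hF1 : ((F.filter fun q : ℕ => (a + (q : ℤ) * r).toNat ≤ Z).card : ℝ) ≤ Z := by
    have h1 : (F.filter fun q : ℕ => (a + (q : ℤ) * r).toNat ≤ Z).card ≤ (Icc 1 Z).card := by
      refine Finset.card_le_card_of_injOn (fun q : ℕ => (a + (q : ℤ) * r).toNat) ?_ ?_
      · intro q hq
        rw [Finset.mem_coe, Finset.mem_filter, hF, Finset.mem_filter] at hq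
        rw [Finset.mem_coe, Finset.mem_Icc]
        refine ⟨?_, hq.2⟩
        have h5 : 0 < a + (q : ℤ) * r := hq.1.2.1
        show 1 ≤ (a + (q : ℤ) * r).toNat
        omega
      · intro q1 h1 q2 h2 h12
        rw [Finset.mem_coe, Finset.mem_filter, hF, Finset.mem_filter] at h1 h2
        simp only at h12
        have hr0 : (0 : ℤ) < r := by exact_mod_cast hr
        have e1 := h1.1.2.1
        have e2 := h2.1.2.1
        have : (q1 : ℤ) * r = (q2 : ℤ) * r := by omega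
        exact_mod_cast mul_right_cancel₀ hr0.ne' this
    rw [Nat.card_Icc] at h1
    have h2 : (F.filter fun q : ℕ => (a + (q : ℤ) * r).toNat ≤ Z).card ≤ Z := by omega
    exact_mod_cast h2
  have hF2 : ((F.filter fun q : ℕ => ¬ (a + (q : ℤ) * r).toNat ≤ Z).card : ℝ) ≤
      ∑ q ∈ Ioc Q (2 * Q), ∑ d ∈ Icc 1 (Z ^ 2),
        if (d : ℤ) ∣ a + (q : ℤ) * r then lam d else 0 := by
    have h1 : ((F.filter fun q : ℕ => ¬ (a + (q : ℤ) * r).toNat ≤ Z).card : ℝ) =
        ∑ q ∈ F.filter fun q : ℕ => ¬ (a + (q : ℤ) * r).toNat ≤ Z, ∑ d ∈ Icc 1 (Z ^ 2),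
        if (d : ℤ) ∣ a + (q : ℤ) * r then lam d else 0 := by
      rw [Finset.card_eq_sum_ones]
      push_cast
      refine Finset.sum_congr rfl fun q hq => ?_
      rw [Finset.mem_filter, hF, Finset.mem_filter] at hq
      obtain ⟨⟨_, h0, hp⟩, hz⟩ := hq
      push Not at hz
      have h2 := hl.prime _ hp hz
      rw [Int.toNat_of_nonneg h0.le] at h2
      exact h2.symm
    rw [h1]
    refine Finset.sum_le_sum_of_subset_of_nonneg ?_ ?_
    · intro q hq
      rw [Finset.mem_filter, hF, Finset.mem_filter] at hq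
      exact hq.1.1
    · intro q hq _
      exact hl.nonneg _ (hpos q hq).ne'
  have hswap : ∑ q ∈ Ioc Q (2 * Q), ∑ d ∈ Icc 1 (Z ^ 2),
        (if (d : ℤ) ∣ a + (q : ℤ) * r then lam d else 0) =
      ∑ d ∈ Icc 1 (Z ^ 2), lam d *
        (((Ioc Q (2 * Q)).filter (fun q : ℕ => (d : ℤ) ∣ a + (q : ℤ) * r)).card : ℝ) := by
    rw [Finset.sum_comm]
    refine Finset.sum_congr rfl fun d _ => ?_
    rw [← Finset.sum_filter, Finset.sum_const, nsmul_eq_mul, mul_comm]
  have hterm : ∀ d ∈ Icc 1 (Z ^ 2), lam d *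
        (((Ioc Q (2 * Q)).filter (fun q : ℕ => (d : ℤ) ∣ a + (q : ℤ) * r)).card : ℝ) ≤
      Q * (lam d / d) + (Z : ℝ) ^ 4 := by
    intro d hd
    rw [Finset.mem_Icc] at hd
    by_cases h0 : lam d = 0
    · rw [h0, zero_mul, zero_div, mul_zero, zero_add]
      positivity
    · have hs := hl.supp d h0
      have hc := cnt a Q r d hd.1 hs.2.2.1
      have hb : |lam d| ≤ (Z : ℝ) ^ 4 := by
        calc |lam d| ≤ 3 ^ om d := hl.bd d
          _ ≤ (d : ℝ) ^ 2 := three_pow_le d hd.1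
          _ ≤ ((Z : ℝ) ^ 2) ^ 2 := by
              have : (d : ℝ) ≤ (Z : ℝ) ^ 2 := by exact_mod_cast hd.2
              exact pow_le_pow_left₀ (by positivity) this 2
          _ = (Z : ℝ) ^ 4 := by ring
      set N := (((Ioc Q (2 * Q)).filter (fun q : ℕ => (d : ℤ) ∣ a + (q : ℤ) * r)).card : ℝ)
      have h1 : lam d * N = Q * (lam d / d) + lam d * (N - (Q : ℝ) / d) := by
        ring
      rw [h1]
      have h2 : lam d * (N - (Q : ℝ) / d) ≤ (Z : ℝ) ^ 4 := by
        calc lam d * (N - (Q : ℝ) / d) ≤ |lam d * (N - (Q : ℝ) / d)| := le_abs_self _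
          _ = |lam d| * |N - (Q : ℝ) / d| := abs_mul _ _
          _ ≤ |lam d| * 1 := mul_le_mul_of_nonneg_left hc (abs_nonneg _)
          _ ≤ (Z : ℝ) ^ 4 := by rw [mul_one]; exact hb
      linarith
  have hmain : ∑ d ∈ Icc 1 (Z ^ 2), lam d / d ≤ ((r : ℝ) / Nat.totient r) / Real.log Z := by
    have h1 := hl.main 1 le_rfl
    have h2 : (Icc 1 (Z ^ 2)).filter (fun d => Nat.Coprime d 1) = Icc 1 (Z ^ 2) := by
      rw [Finset.filter_true_of_mem]
      intro d _
      exact Nat.coprime_one_right d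
    rw [h2] at h1
    simpa using h1
  have hsum : ∑ d ∈ Icc 1 (Z ^ 2), lam d *
        (((Ioc Q (2 * Q)).filter (fun q : ℕ => (d : ℤ) ∣ a + (q : ℤ) * r)).card : ℝ) ≤
      Q * (((r : ℝ) / Nat.totient r) / Real.log Z) + (Z : ℝ) ^ 6 := by
    refine (Finset.sum_le_sum hterm).trans ?_
    rw [Finset.sum_add_distrib, ← Finset.mul_sum, Finset.sum_const, Nat.card_Icc, nsmul_eq_mul]
    have h1 : ((Z ^ 2 + 1 - 1 : ℕ) : ℝ) * (Z : ℝ) ^ 4 = (Z : ℝ) ^ 6 := by
      rw [Nat.add_sub_cancel]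
      push_cast
      ring
    rw [h1]
    have h2 := mul_le_mul_of_nonneg_left hmain (show (0 : ℝ) ≤ Q by positivity)
    linarith
  have hA : (F.card : ℝ) ≤ Z + (Q * (((r : ℝ) / Nat.totient r) / Real.log Z) + (Z : ℝ) ^ 6) := by
    rw [hsplit]
    linarith
  -- final estimates
  have hB1 : (Z : ℝ) ≤ 16 * ((Q : ℝ) / Real.log Q) := by
    rw [← mul_div_assoc, le_div_iff₀ hlogQ]
    have h1 : (Z : ℝ) * Z ≤ (Z : ℝ) ^ 8 := by
      calc (Z : ℝ) * Z = (Z : ℝ) ^ 2 := by ring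
        _ ≤ (Z : ℝ) ^ 8 := pow_le_pow_right₀ (by linarith) (by norm_num)
    nlinarith
  have hB2 : (Z : ℝ) ^ 6 ≤ 16 * ((Q : ℝ) / Real.log Q) := by
    rw [← mul_div_assoc, le_div_iff₀ hlogQ]
    have h1 : (Z : ℝ) ^ 6 * Z ≤ (Z : ℝ) ^ 8 := by
      calc (Z : ℝ) ^ 6 * Z = (Z : ℝ) ^ 7 := by ring
        _ ≤ (Z : ℝ) ^ 8 := pow_le_pow_right₀ (by linarith) (by norm_num)
    have h2 : (0 : ℝ) < (Z : ℝ) ^ 6 := by positivity
    nlinarith
  have hB3 : (Q : ℝ) * (((r : ℝ) / Nat.totient r) / Real.log Z) ≤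
      16 * ((Q : ℝ) / Real.log Q) * ((r : ℝ) / Nat.totient r) := by
    have h1 : 1 / Real.log Z ≤ 16 / Real.log Q := by
      rw [div_le_div_iff₀ hlogZ hlogQ]
      linarith
    have h2 : (0 : ℝ) ≤ Q * ((r : ℝ) / Nat.totient r) := by positivity
    calc (Q : ℝ) * (((r : ℝ) / Nat.totient r) / Real.log Z)
        = Q * ((r : ℝ) / Nat.totient r) * (1 / Real.log Z) := by ring
      _ ≤ Q * ((r : ℝ) / Nat.totient r) * (16 / Real.log Q) := mul_le_mul_of_nonneg_left h1 h2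
      _ = _ := by ring
  have hB4 : (Q : ℝ) / Real.log Q ≤ (Q : ℝ) / Real.log Q * ((r : ℝ) / Nat.totient r) :=
    le_mul_of_one_le_right (by positivity) hratio
  nlinarith

end Pool.Agent.H262R4.FR
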