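import Pool.Agent.H262R4.FR.Stubs
import Pool.Agent.H510R2.Div

/-! DISP1 (helper196): dispersion, factorable moduli. -/

namespace Pool.Agent.H262R4.FR

open Finset
open Pool.Agent.H442R2.KF (e kf Wt tau)

namespace TDISP1

/-! ### Divisor functions (the first lemmas are copied from `H262R3.Lk.DENS`, helper418) -/

theorem tau_submul (d m : ℕ) :
    ((d * m).divisors.card : ℝ) ≤ (d.divisors.card : ℝ) * (m.divisors.card : ℝ) := by
  rw [Nat.divisors_mul]
  exact_mod_cast card_mul_le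

/-- sums over `d m ≤ W` -/
theorem sum_div_le (f : ℕ → ℝ) (g : ℕ → ℕ → ℝ) (h : ℕ → ℝ)
    (hg : ∀ d m, g d m ≤ f d * h m) (hg0 : ∀ d m, 0 ≤ g d m) (W : ℕ) :
    ∑ n ∈ Ioc 0 W, ∑ p ∈ n.divisorsAntidiagonal, g p.1 p.2 ≤
      (∑ d ∈ Ioc 0 W, f d) * ∑ m ∈ Ioc 0 W, h m := by
  rw [sum_mul_sum, ← sum_product', sum_sigma']
  calc ∑ x ∈ (Ioc 0 W).sigma fun n => n.divisorsAntidiagonal, g x.2.1 x.2.2
      = ∑ p ∈ (Ioc 0 W ×ˢ Ioc 0 W).filter (fun p => p.1 * p.2 ≤ W), g p.1 p.2 := by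
        refine sum_nbij' (fun x => x.2) (fun p => ⟨p.1 * p.2, p⟩) ?_ ?_ ?_ ?_ ?_
        · rintro ⟨n, p⟩ hx
          simp only [mem_sigma, mem_Ioc, Nat.mem_divisorsAntidiagonal] at hx
          obtain ⟨⟨h1, h2⟩, h3, h4⟩ := hx
          have hp1 : 0 < p.1 := Nat.pos_of_ne_zero (by rintro h; rw [h, zero_mul] at h3; omega)
          have hp2 : 0 < p.2 := Nat.pos_of_ne_zero (by rintro h; rw [h, mul_zero] at h3; omega)
          simp only [mem_filter, mem_product, mem_Ioc]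
          refine ⟨⟨⟨hp1, ?_⟩, hp2, ?_⟩, by omega⟩
          · exact (Nat.le_mul_of_pos_right _ hp2).trans (by omega)
          · exact (Nat.le_mul_of_pos_left _ hp1).trans (by omega)
        · intro p hp
          simp only [mem_filter, mem_product, mem_Ioc] at hp
          simp only [mem_sigma, mem_Ioc, Nat.mem_divisorsAntidiagonal]
          have := Nat.mul_pos hp.1.1.1 hp.1.2.1
          exact ⟨⟨this, hp.2⟩, trivial, by omega⟩
        · rintro ⟨n, p⟩ hx
          simp only [mem_sigma, mem_Ioc, Nat.mem_divisorsAntidiagonal] at hx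
          obtain ⟨_, h3, _⟩ := hx
          subst h3
          rfl
        · intro p _; rfl
        · intro x _; rfl
    _ ≤ ∑ p ∈ Ioc 0 W ×ˢ Ioc 0 W, g p.1 p.2 :=
        sum_le_sum_of_subset_of_nonneg (filter_subset _ _) fun p _ _ => hg0 _ _
    _ ≤ ∑ p ∈ Ioc 0 W ×ˢ Ioc 0 W, f p.1 * h p.2 := sum_le_sum fun p _ => hg _ _

theorem harm_le (W : ℕ) : ∑ n ∈ Ioc 0 W, (1 : ℝ) / n ≤ 1 + Real.log W := by
  have h := harmonic_le_one_add_log W
  rw [harmonic_eq_sum_Icc] at h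
  push_cast at h
  have e0 : Ioc 0 W = Icc 1 W := by ext n; rw [mem_Ioc, mem_Icc]; omega
  have e1 : ∑ n ∈ Icc 1 W, (1 / (n : ℝ)) = ∑ n ∈ Icc 1 W, ((n : ℝ))⁻¹ := by simp
  rw [e0, e1]
  exact h

theorem tau1_le (W : ℕ) : ∑ n ∈ Ioc 0 W, (n.divisors.card : ℝ) / n ≤ (1 + Real.log W) ^ 2 := by
  have h1 : ∀ n ∈ Ioc 0 W, (n.divisors.card : ℝ) / n =
      ∑ p ∈ n.divisorsAntidiagonal, (1 : ℝ) / (p.1 * p.2) := by
    intro n hn
    rw [mem_Ioc] at hn
    have h2 : ∀ p ∈ n.divisorsAntidiagonal, (1 : ℝ) / (p.1 * p.2) = 1 / n := by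
      intro p hp
      rw [Nat.mem_divisorsAntidiagonal] at hp
      rw [← hp.1]
      push_cast
      rfl
    rw [sum_congr rfl h2, sum_const, nsmul_eq_mul, ← Nat.map_div_right_divisors, card_map]
    ring
  rw [sum_congr rfl h1]
  have h3 := sum_div_le (fun n => (1 : ℝ) / n)
    (fun d m => (1 : ℝ) / (d * m)) (fun n => (1 : ℝ) / n)
    (fun d m => by
      apply le_of_eq
      rw [div_mul_div_comm, one_mul]) (fun d m => by positivity) W
  refine h3.trans ?_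
  have h4 := harm_le W
  have h5 : (0 : ℝ) ≤ ∑ n ∈ Ioc 0 W, (1 : ℝ) / n := sum_nonneg fun n _ => by positivity
  rw [sq]
  exact mul_le_mul h4 h4 h5 (h5.trans h4)

theorem tau2_le (W : ℕ) :
    ∑ n ∈ Ioc 0 W, (n.divisors.card : ℝ) ^ 2 / n ≤ (1 + Real.log W) ^ 4 := by
  have h1 : ∀ n ∈ Ioc 0 W, (n.divisors.card : ℝ) ^ 2 / n =
      ∑ p ∈ n.divisorsAntidiagonal, ((p.1 * p.2).divisors.card : ℝ) / (p.1 * p.2) := by
    intro n hn
    rw [mem_Ioc] at hn
    have h2 : ∀ p ∈ n.divisorsAntidiagonal, ((p.1 * p.2).divisors.card : ℝ) / (p.1 * p.2) =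
        (n.divisors.card : ℝ) / n := by
      intro p hp
      rw [Nat.mem_divisorsAntidiagonal] at hp
      rw [← hp.1]
      push_cast
      rfl
    rw [sum_congr rfl h2, sum_const, nsmul_eq_mul, ← Nat.map_div_right_divisors, card_map]
    ring
  rw [sum_congr rfl h1]
  have h3 := sum_div_le (fun n => (n.divisors.card : ℝ) / n)
    (fun d m => ((d * m).divisors.card : ℝ) / (d * m)) (fun n => (n.divisors.card : ℝ) / n)
    (fun d m => by
      rw [div_mul_div_comm]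
      gcongr
      exact tau_submul d m) (fun d m => by positivity) W
  refine h3.trans ?_
  have h4 := tau1_le W
  have h5 : (0 : ℝ) ≤ ∑ n ∈ Ioc 0 W, (n.divisors.card : ℝ) / n :=
    sum_nonneg fun n _ => by positivity
  calc _ ≤ (1 + Real.log W) ^ 2 * (1 + Real.log W) ^ 2 :=
        mul_le_mul h4 h4 h5 (h5.trans h4)
    _ = _ := by ring

/-- squares of the divisor function over a dyadic block -/
theorem tau_sq_block (Y : ℕ) :
    ∑ m ∈ Ioc Y (2 * Y), (m.divisors.card : ℝ) ^ 2 ≤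
      2 * (Y : ℝ) * (1 + Real.log ((2 * Y : ℕ) : ℝ)) ^ 4 := by
  calc ∑ m ∈ Ioc Y (2 * Y), (m.divisors.card : ℝ) ^ 2
      ≤ ∑ m ∈ Ioc Y (2 * Y), 2 * (Y : ℝ) * ((m.divisors.card : ℝ) ^ 2 / m) := by
        apply sum_le_sum
        intro m hm
        rw [mem_Ioc] at hm
        have hm0 : (0 : ℝ) < m := by exact_mod_cast (by omega : 0 < m)
        have hm2 : (m : ℝ) ≤ 2 * Y := by exact_mod_cast hm.2
        have h0 : (0 : ℝ) ≤ (m.divisors.card : ℝ) ^ 2 / m := by positivity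
        calc (m.divisors.card : ℝ) ^ 2 = m * ((m.divisors.card : ℝ) ^ 2 / m) := by
              field_simp
          _ ≤ _ := mul_le_mul_of_nonneg_right hm2 h0
    _ = 2 * (Y : ℝ) * ∑ m ∈ Ioc Y (2 * Y), ((m.divisors.card : ℝ) ^ 2 / m) := by rw [mul_sum]
    _ ≤ 2 * (Y : ℝ) * ∑ m ∈ Ioc 0 (2 * Y), ((m.divisors.card : ℝ) ^ 2 / m) := by
        apply mul_le_mul_of_nonneg_left _ (by positivity)
        apply sum_le_sum_of_subset_of_nonneg
        · intro m hm
          rw [mem_Ioc] at hm ⊢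
          omega
        · intro m _ _; positivity
    _ ≤ _ := mul_le_mul_of_nonneg_left (tau2_le _) (by positivity)

/-- (from `KF.Pri`) -/
theorem phi_mul_card (n : ℕ) (hn : 1 ≤ n) : n ≤ n.totient * n.divisors.card := by
  have hn0 : n ≠ 0 := by omega
  have h1 := Nat.totient_mul_prod_primeFactors n
  have h2 : ∏ p ∈ n.primeFactors, p ≤ n.divisors.card * ∏ p ∈ n.primeFactors, (p - 1) := by
    rw [Nat.card_divisors hn0, ← Finset.prod_mul_distrib]
    apply Finset.prod_le_prod'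
    intro p hp
    have hpp := Nat.prime_of_mem_primeFactors hp
    have hv : 1 ≤ n.factorization p := by
      rw [Nat.one_le_iff_ne_zero, ← Finsupp.mem_support_iff, Nat.support_factorization]
      exact hp
    have := hpp.two_le
    calc p ≤ 2 * (p - 1) := by omega
      _ ≤ (n.factorization p + 1) * (p - 1) := Nat.mul_le_mul_right _ (by omega)
  have h3 : 0 < ∏ p ∈ n.primeFactors, (p - 1) := by
    apply Finset.prod_pos
    intro p hp
    have := (Nat.prime_of_mem_primeFactors hp).two_le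
    omega
  have h4 : n * ∏ p ∈ n.primeFactors, (p - 1) ≤
      (n.totient * n.divisors.card) * ∏ p ∈ n.primeFactors, (p - 1) := by
    rw [← h1, mul_assoc]
    exact Nat.mul_le_mul_left _ h2
  exact Nat.le_of_mul_le_mul_right h4 h3

/-- powers of the logarithm -/
theorem log_pow_le (A : ℕ) (κ : ℝ) (hκ : 0 < κ) : ∃ C : ℝ, 0 < C ∧ ∀ X : ℝ, 1 ≤ X →
    Real.log X ^ A ≤ C * X ^ κ := by
  set s : ℝ := κ / (A + 1) with hs
  have hs0 : 0 < s := by positivity
  refine ⟨(1 / s) ^ A, by positivity, fun X hX => ?_⟩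
  have hX0 : 0 ≤ X := by linarith
  have h1 : Real.log X ≤ X ^ s / s := Real.log_le_rpow_div hX0 hs0
  have h2 : 0 ≤ Real.log X := Real.log_nonneg hX
  calc Real.log X ^ A ≤ (X ^ s / s) ^ A := by gcongr
    _ = (1 / s) ^ A * (X ^ s) ^ A := by rw [← mul_pow]; ring
    _ = (1 / s) ^ A * X ^ (s * A) := by rw [← Real.rpow_natCast (X ^ s), ← Real.rpow_mul hX0]
    _ ≤ (1 / s) ^ A * X ^ κ := by
        apply mul_le_mul_of_nonneg_left _ (by positivity)
        apply Real.rpow_le_rpow_of_exponent_le hX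
        rw [hs, div_mul_eq_mul_div, div_le_iff₀ (by positivity)]
        nlinarith [hκ.le]

theorem two_pow_om (d : ℕ) (hd : 1 ≤ d) : 2 ^ om d ≤ d.divisors.card := by
  rw [Nat.card_divisors (by omega), om, ← Finset.prod_const]
  apply Finset.prod_le_prod'
  intro p hp
  have hv : 1 ≤ d.factorization p := by
    rw [Nat.one_le_iff_ne_zero, ← Finsupp.mem_support_iff, Nat.support_factorization]
    exact hp
  omega

theorem three_pow_om (d : ℕ) (hd : 1 ≤ d) : (3 : ℝ) ^ om d ≤ (d.divisors.card : ℝ) ^ 2 := by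
  have h := two_pow_om d hd
  have h' : (2 : ℝ) ^ om d ≤ (d.divisors.card : ℝ) := by exact_mod_cast h
  calc (3 : ℝ) ^ om d ≤ 4 ^ om d := pow_le_pow_left₀ (by norm_num) (by norm_num) _
    _ = (2 ^ om d) ^ 2 := by rw [← pow_mul, mul_comm, pow_mul]; norm_num
    _ ≤ _ := pow_le_pow_left₀ (by positivity) h' _

theorem one_le_tau (n : ℕ) (hn : 1 ≤ n) : (1 : ℝ) ≤ (n.divisors.card : ℝ) := by
  exact_mod_cast Finset.card_pos.2 ⟨1, Nat.one_mem_divisors.2 (by omega)⟩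

theorem tau_cube (ε : ℝ) (hε : 0 < ε) : ∃ C : ℝ, 0 < C ∧ ∀ n : ℕ, 1 ≤ n → ∀ X : ℝ,
    (n : ℝ) ≤ X → (n.divisors.card : ℝ) ^ 3 ≤ C * X ^ ε := by
  obtain ⟨C, hC, h⟩ := Pool.Agent.H510R2.divisor_bound (ε / 3) (by positivity)
  refine ⟨C ^ 3, by positivity, fun n hn X hX => ?_⟩
  have hn0 : (0 : ℝ) < n := by exact_mod_cast (by omega : 0 < n)
  have hX0 : 0 < X := hn0.trans_le hX
  calc (n.divisors.card : ℝ) ^ 3 ≤ (C * (n : ℝ) ^ (ε / 3)) ^ 3 := by
        apply pow_le_pow_left₀ (by positivity) (h n hn)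
    _ ≤ (C * X ^ (ε / 3)) ^ 3 := by gcongr
    _ = C ^ 3 * X ^ ε := by
        rw [mul_pow, ← Real.rpow_natCast (X ^ (ε / 3)), ← Real.rpow_mul hX0.le]
        congr 2
        push_cast
        ring

/-! ### The trivial bound -/

theorem Ii_nonneg (a : ℤ) (d p : ℕ) (m : ℤ) : 0 ≤ Ii a d p m := by
  unfold Ii; split_ifs <;> norm_num

theorem Ii_le (a : ℤ) (d p : ℕ) (m : ℤ) : Ii a d p m ≤ 1 := by
  unfold Ii; split_ifs <;> norm_num

theorem Cc_nonneg (d : ℕ) (m : ℤ) : 0 ≤ Cc d m := by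
  unfold Cc; split_ifs <;> norm_num

theorem Cc_le (d : ℕ) (m : ℤ) : Cc d m ≤ 1 := by
  unfold Cc; split_ifs <;> norm_num

theorem Dl_triv (a : ℤ) (lam : ℕ → ℝ) (S T : Finset ℕ) (m : ℤ) (hl : ∀ d, |lam d| ≤ 3 ^ om d) :
    |Dl a lam S T m| ≤ ∑ p ∈ T, ∑ d ∈ S, (3 : ℝ) ^ om d * Ii a d p m +
      (T.card : ℝ) * ∑ d ∈ S, (3 : ℝ) ^ om d / (Nat.totient d : ℝ) := by
  unfold Dl
  calc |∑ d ∈ S, lam d * (∑ p ∈ T, Ii a d p m - Cc d m * (T.card : ℝ) / (Nat.totient d : ℝ))|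
      ≤ ∑ d ∈ S, |lam d * (∑ p ∈ T, Ii a d p m -
          Cc d m * (T.card : ℝ) / (Nat.totient d : ℝ))| := abs_sum_le_sum_abs _ _
    _ ≤ ∑ d ∈ S, (3 : ℝ) ^ om d * (∑ p ∈ T, Ii a d p m +
          (T.card : ℝ) / (Nat.totient d : ℝ)) := by
        apply sum_le_sum
        intro d _
        rw [abs_mul]
        apply mul_le_mul (hl d) _ (abs_nonneg _) (by positivity)
        have h1 : 0 ≤ ∑ p ∈ T, Ii a d p m := sum_nonneg fun p _ => Ii_nonneg a d p m
        have h2 : 0 ≤ (T.card : ℝ) / (Nat.totient d : ℝ) := by positivity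
        have h3 : Cc d m * (T.card : ℝ) / (Nat.totient d : ℝ) =
            Cc d m * ((T.card : ℝ) / (Nat.totient d : ℝ)) := by ring
        have h4 : 0 ≤ Cc d m * ((T.card : ℝ) / (Nat.totient d : ℝ)) :=
          mul_nonneg (Cc_nonneg d m) h2
        have h5 : Cc d m * ((T.card : ℝ) / (Nat.totient d : ℝ)) ≤
            (T.card : ℝ) / (Nat.totient d : ℝ) := by
          have := mul_le_mul_of_nonneg_right (Cc_le d m) h2
          linarith
        rw [h3, abs_le]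
        constructor <;> linarith
    _ = _ := by
        rw [sum_comm (s := T), mul_sum, ← sum_add_distrib]
        apply sum_congr rfl
        intro d _
        rw [mul_add, mul_sum]
        ring

theorem div_sum (a : ℤ) (S : Finset ℕ) (p : ℕ) (m : ℤ) (hS : ∀ d ∈ S, 1 ≤ d)
    (hne : m * p - a ≠ 0) :
    ∑ d ∈ S, (3 : ℝ) ^ om d * Ii a d p m ≤ ((m * p - a).natAbs.divisors.card : ℝ) ^ 3 := by
  set n := (m * p - a).natAbs with hn
  have hn0 : n ≠ 0 := by rw [hn]; exact Int.natAbs_ne_zero.2 hne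
  have h1 : ∑ d ∈ S, (3 : ℝ) ^ om d * Ii a d p m =
      ∑ d ∈ S.filter (fun d : ℕ => (d : ℤ) ∣ m * p - a), (3 : ℝ) ^ om d := by
    rw [sum_filter]
    apply sum_congr rfl
    intro d _
    unfold Ii
    split_ifs <;> simp
  rw [h1]
  calc ∑ d ∈ S.filter (fun d : ℕ => (d : ℤ) ∣ m * p - a), (3 : ℝ) ^ om d
      ≤ ∑ d ∈ S.filter (fun d : ℕ => (d : ℤ) ∣ m * p - a), (n.divisors.card : ℝ) ^ 2 := by
        apply sum_le_sum
        intro d hd
        rw [mem_filter] at hd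
        refine (three_pow_om d (hS d hd.1)).trans ?_
        have hdn : d ∣ n := Int.natCast_dvd.1 hd.2
        have : (d.divisors.card : ℝ) ≤ n.divisors.card := by
          exact_mod_cast card_le_card (Nat.divisors_subset_of_dvd hn0 hdn)
        gcongr
    _ ≤ ∑ d ∈ n.divisors, (n.divisors.card : ℝ) ^ 2 := by
        apply sum_le_sum_of_subset_of_nonneg
        · intro d hd
          rw [mem_filter] at hd
          rw [Nat.mem_divisors]
          exact ⟨Int.natCast_dvd.1 hd.2, hn0⟩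
        · intro d _ _; positivity
    _ = _ := by rw [sum_const, nsmul_eq_mul]; ring

theorem phi_sum (K X ε : ℝ) (Z2 : ℕ) (S : Finset ℕ) (hX : 1 ≤ X) (hK : 0 < K)
    (hS : S ⊆ Ioc 0 Z2) (hZ : (Z2 : ℝ) ≤ X)
    (ht : ∀ n : ℕ, 1 ≤ n → (n : ℝ) ≤ X → (n.divisors.card : ℝ) ^ 3 ≤ K * X ^ ε) :
    ∑ d ∈ S, (3 : ℝ) ^ om d / (Nat.totient d : ℝ) ≤ K * X ^ ε * (1 + Real.log X) := by
  have hX0 : 0 < X := by linarith
  calc ∑ d ∈ S, (3 : ℝ) ^ om d / (Nat.totient d : ℝ)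
      ≤ ∑ d ∈ S, K * X ^ ε * (1 / (d : ℝ)) := by
        apply sum_le_sum
        intro d hd
        have hd' := hS hd
        rw [mem_Ioc] at hd'
        have hd1 : 1 ≤ d := hd'.1
        have hd0 : (0 : ℝ) < d := by exact_mod_cast hd'.1
        have h1 := three_pow_om d hd1
        have h2 : (d : ℝ) ≤ (Nat.totient d : ℝ) * (d.divisors.card : ℝ) := by
          exact_mod_cast phi_mul_card d hd1
        have h3 : (0 : ℝ) < Nat.totient d := by exact_mod_cast Nat.totient_pos.2 hd'.1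
        have h4 := ht d hd1 (le_trans (by exact_mod_cast hd'.2) hZ)
        rw [mul_one_div, div_le_div_iff₀ h3 hd0]
        calc (3 : ℝ) ^ om d * d ≤ (d.divisors.card : ℝ) ^ 2 *
              ((Nat.totient d : ℝ) * (d.divisors.card : ℝ)) := by gcongr
          _ = (d.divisors.card : ℝ) ^ 3 * Nat.totient d := by ring
          _ ≤ K * X ^ ε * Nat.totient d := by gcongr
    _ = K * X ^ ε * ∑ d ∈ S, (1 / (d : ℝ)) := by rw [mul_sum]
    _ ≤ K * X ^ ε * ∑ d ∈ Ioc 0 Z2, (1 / (d : ℝ)) := by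
        apply mul_le_mul_of_nonneg_left _ (by positivity)
        apply sum_le_sum_of_subset_of_nonneg hS
        intro d _ _; positivity
    _ ≤ K * X ^ ε * (1 + Real.log X) := by
        apply mul_le_mul_of_nonneg_left _ (by positivity)
        refine (harm_le Z2).trans ?_
        have : Real.log (Z2 : ℝ) ≤ Real.log X := by
          rcases Nat.eq_zero_or_pos Z2 with h | h
          · rw [h]; simp only [Nat.cast_zero, Real.log_zero]; exact Real.log_nonneg hX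
          · exact Real.log_le_log (by exact_mod_cast h) hZ
        linarith

theorem card_Pr (P P' : ℕ) (h : P' ≤ 2 * P) : ((Pr P P').card : ℝ) ≤ P := by
  have h1 : (Pr P P').card ≤ (Ioc P P').card := card_filter_le _ _
  rw [Nat.card_Ioc] at h1
  exact_mod_cast h1.trans (by omega)

theorem small (a : ℤ) (r1 : ℝ) (h0 : 0 < r1) (h1 : r1 ≤ 1 / 20) : ∃ C : ℝ, 0 < C ∧
    ∀ (X : ℝ) (P P' Z : ℕ) (lam α : ℕ → ℝ) (S G : Finset ℕ), 1 ≤ X → 1 ≤ P →
    (P : ℝ) ≤ X ^ (1 / 100 : ℝ) → P' ≤ 2 * P → (Z : ℝ) ^ 2 ≤ X ^ (29 / 50 : ℝ) →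
    S ⊆ Ioc 0 (Z ^ 2) → (∀ d, |lam d| ≤ 3 ^ om d) →
    (∀ m, |α m| ≤ (m.divisors.card : ℝ)) →
    (∀ m ∈ G, 1 ≤ m ∧ (m : ℝ) * P ≤ 2 * X ^ (1 - r1)) →
    ∑ m ∈ G, |α m| * |Dl a lam S (Pr P P') m| ≤ C * X ^ (1 - r1 / 2) := by
  set ε : ℝ := r1 / 6 with hε
  have hε0 : 0 < ε := by positivity
  obtain ⟨C1, hC1, ht1⟩ := tau_cube ε hε0
  obtain ⟨C2, hC2, hl2⟩ := log_pow_le 1 ε hε0
  set b : ℝ := 4 + (a.natAbs : ℝ) with hb
  have hb0 : 4 ≤ b := by rw [hb]; have : (0 : ℝ) ≤ (a.natAbs : ℝ) := by positivity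
                         linarith
  set K : ℝ := C1 * b ^ ε with hK
  have hK0 : 0 < K := by positivity
  refine ⟨2 * K ^ 2 * (2 + C2) + (a.natAbs : ℝ) * K ^ 2, by positivity, ?_⟩
  intro X P P' Z lam α S G hX hP hPX hPP hZ hS hlam hα hG
  have hX0 : 0 < X := by linarith
  have hP0 : (0 : ℝ) < P := by exact_mod_cast hP
  -- divisor bound
  have ht : ∀ n : ℕ, 1 ≤ n → (n : ℝ) ≤ b * X → (n.divisors.card : ℝ) ^ 3 ≤ K * X ^ ε := by
    intro n hn hnX
    refine (ht1 n hn (b * X) hnX).trans (le_of_eq ?_)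
    rw [Real.mul_rpow (by linarith) hX0.le, hK]
    ring
  have hXb : X ≤ b * X := by nlinarith
  have hXe : 1 ≤ X ^ ε := Real.one_le_rpow hX hε0.le
  have hlog : 1 + Real.log X ≤ (1 + C2) * X ^ ε := by
    have := hl2 X hX
    rw [pow_one] at this
    nlinarith
  have hr : X ^ (1 - r1) ≤ X := by
    calc X ^ (1 - r1) ≤ X ^ (1 : ℝ) := Real.rpow_le_rpow_of_exponent_le hX (by linarith)
      _ = X := Real.rpow_one X
  have hZX : ((Z ^ 2 : ℕ) : ℝ) ≤ X := by
    push_cast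
    calc (Z : ℝ) ^ 2 ≤ X ^ (29 / 50 : ℝ) := hZ
      _ ≤ X ^ (1 : ℝ) := Real.rpow_le_rpow_of_exponent_le hX (by norm_num)
      _ = X := Real.rpow_one X
  have hphi := phi_sum K X ε (Z ^ 2) S hX hK0 hS hZX (fun n hn h => ht n hn (h.trans hXb))
  have hphi' : ∑ d ∈ S, (3 : ℝ) ^ om d / (Nat.totient d : ℝ) ≤ K * (1 + C2) * X ^ (2 * ε) := by
    refine hphi.trans ?_
    calc K * X ^ ε * (1 + Real.log X) ≤ K * X ^ ε * ((1 + C2) * X ^ ε) := by gcongr
      _ = K * (1 + C2) * X ^ (2 * ε) := by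
          rw [two_mul, Real.rpow_add hX0]; ring
  have hT := card_Pr P P' hPP
  set T := Pr P P' with hTd
  -- the bound for one `m`
  set U : ℝ := P * (K * (2 + C2) * X ^ (2 * ε)) with hU
  set V : ℝ := P * ((Z : ℝ) ^ 2 * (K * X ^ ε)) with hV
  have hV0 : 0 ≤ V := by positivity
  have hm1 : ∀ m ∈ G, |Dl a lam S T m| ≤ U + if m ≤ a.natAbs then V else 0 := by
    intro m hm
    obtain ⟨hm1, hm2⟩ := hG m hm
    have hm0 : (1 : ℝ) ≤ m := by exact_mod_cast hm1
    refine (Dl_triv a lam S T m hlam).trans ?_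
    have hp : ∀ p ∈ T, ∑ d ∈ S, (3 : ℝ) ^ om d * Ii a d p m ≤
        K * X ^ ε + if m ≤ a.natAbs then (Z : ℝ) ^ 2 * (K * X ^ ε) else 0 := by
      intro p hp
      rw [hTd, Pr, mem_filter, mem_Ioc] at hp
      have hp2 : (p : ℝ) ≤ 2 * P := by exact_mod_cast hp.1.2.trans hPP
      by_cases hne : (m : ℤ) * p - a = 0
      · have hma : m ≤ a.natAbs := by
          have h2 : (m : ℤ) * p = a := by linarith
          have h3 : a.natAbs = m * p := by rw [← h2, ← Int.natCast_mul, Int.natAbs_natCast]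
          rw [h3]
          exact Nat.le_mul_of_pos_right _ (by omega)
        rw [if_pos hma]
        have h5 : ∑ d ∈ S, (3 : ℝ) ^ om d * Ii a d p m ≤ ∑ d ∈ S, K * X ^ ε := by
          apply sum_le_sum
          intro d hd
          have hd' := hS hd
          rw [mem_Ioc] at hd'
          have hd1 : 1 ≤ d := hd'.1
          have hdX : (d : ℝ) ≤ X := le_trans (by exact_mod_cast hd'.2) hZX
          have h6 := ht d hd1 (hdX.trans hXb)
          have h7 := three_pow_om d hd1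
          have h8 := one_le_tau d hd1
          calc (3 : ℝ) ^ om d * Ii a d p m ≤ (3 : ℝ) ^ om d * 1 := by
                apply mul_le_mul_of_nonneg_left (Ii_le a d p m) (by positivity)
            _ ≤ (d.divisors.card : ℝ) ^ 2 := by rw [mul_one]; exact h7
            _ ≤ (d.divisors.card : ℝ) ^ 3 := pow_le_pow_right₀ h8 (by norm_num)
            _ ≤ _ := h6
        have h9 : (S.card : ℝ) ≤ (Z : ℝ) ^ 2 := by
          have := card_le_card hS
          rw [Nat.card_Ioc, Nat.sub_zero] at this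
          exact_mod_cast this
        rw [sum_const, nsmul_eq_mul] at h5
        have h10 : (S.card : ℝ) * (K * X ^ ε) ≤ (Z : ℝ) ^ 2 * (K * X ^ ε) :=
          mul_le_mul_of_nonneg_right h9 (by positivity)
        have h11 : 0 ≤ K * X ^ ε := by positivity
        linarith
      · have h5 := div_sum a S p m (fun d hd => by
          have := hS hd; rw [mem_Ioc] at this; exact this.1) hne
        have h6 : (((m : ℤ) * p - a).natAbs : ℝ) ≤ b * X := by
          have h7 : ((m : ℤ) * p - a).natAbs ≤ m * p + a.natAbs := by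
            have := Int.natAbs_sub_le ((m : ℤ) * p) a
            rwa [← Int.natCast_mul, Int.natAbs_natCast] at this
          have h8 : (((m : ℤ) * p - a).natAbs : ℝ) ≤ m * p + a.natAbs := by exact_mod_cast h7
          have h9 : (m : ℝ) * p ≤ 4 * X := by
            calc (m : ℝ) * p ≤ m * (2 * P) := by gcongr
              _ = 2 * (m * P) := by ring
              _ ≤ 2 * (2 * X ^ (1 - r1)) := by gcongr
              _ ≤ 4 * X := by linarith
          have h10 : (a.natAbs : ℝ) ≤ a.natAbs * X := by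
            have : (0 : ℝ) ≤ (a.natAbs : ℝ) := by positivity
            nlinarith
          rw [hb]
          linarith
        have h7 := ht _ (by
          have := Int.natAbs_pos.2 hne
          omega) h6
        have h8 : (0 : ℝ) ≤ if m ≤ a.natAbs then (Z : ℝ) ^ 2 * (K * X ^ ε) else 0 := by
          split_ifs
          · positivity
          · exact le_refl _
        linarith
    have h2 : ∑ p ∈ T, ∑ d ∈ S, (3 : ℝ) ^ om d * Ii a d p m ≤
        P * (K * X ^ ε + if m ≤ a.natAbs then (Z : ℝ) ^ 2 * (K * X ^ ε) else 0) := by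
      refine (sum_le_sum hp).trans ?_
      rw [sum_const, nsmul_eq_mul]
      apply mul_le_mul_of_nonneg_right hT
      split_ifs <;> positivity
    have h3 : (T.card : ℝ) * ∑ d ∈ S, (3 : ℝ) ^ om d / (Nat.totient d : ℝ) ≤
        P * (K * (1 + C2) * X ^ (2 * ε)) := by
      apply mul_le_mul hT hphi' (sum_nonneg fun d _ => by positivity) hP0.le
    have h4 : X ^ ε ≤ X ^ (2 * ε) := Real.rpow_le_rpow_of_exponent_le hX (by linarith)
    have h5 : (P : ℝ) * (K * X ^ ε) ≤ P * (K * X ^ (2 * ε)) := by gcongr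
    have h6 : P * (K * X ^ ε + if m ≤ a.natAbs then (Z : ℝ) ^ 2 * (K * X ^ ε) else 0) =
        P * (K * X ^ ε) + if m ≤ a.natAbs then V else 0 := by
      split_ifs
      · rw [hV]; ring
      · ring
    rw [h6] at h2
    have h7 : U = P * (K * X ^ (2 * ε)) + P * (K * (1 + C2) * X ^ (2 * ε)) := by rw [hU]; ring
    rw [h7]
    linarith
  -- coefficients
  have hm2 : ∀ m ∈ G, |α m| ≤ K * X ^ ε := by
    intro m hm
    obtain ⟨hm1, hm2⟩ := hG m hm
    have hm0 : (1 : ℝ) ≤ m := by exact_mod_cast hm1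
    have hP1 : (1 : ℝ) ≤ P := by exact_mod_cast hP
    have hmX : (m : ℝ) ≤ b * X := by
      calc (m : ℝ) ≤ m * P := by nlinarith
        _ ≤ 2 * X ^ (1 - r1) := hm2
        _ ≤ b * X := by nlinarith
    have h3 := one_le_tau m hm1
    calc |α m| ≤ (m.divisors.card : ℝ) := hα m
      _ = (m.divisors.card : ℝ) ^ 1 := by rw [pow_one]
      _ ≤ (m.divisors.card : ℝ) ^ 3 := pow_le_pow_right₀ h3 (by norm_num)
      _ ≤ _ := ht m hm1 hmX
  have hU0 : 0 ≤ U := by positivity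
  have hG1 : (G.card : ℝ) * P ≤ 2 * X ^ (1 - r1) := by
    have h2 : G ⊆ Ioc 0 ⌊2 * X ^ (1 - r1) / P⌋₊ := by
      intro m hm
      obtain ⟨hm1, hm2⟩ := hG m hm
      rw [mem_Ioc]
      refine ⟨hm1, Nat.le_floor ?_⟩
      rw [le_div_iff₀ hP0]
      exact hm2
    have h3 := card_le_card h2
    rw [Nat.card_Ioc, Nat.sub_zero] at h3
    have h4 : (G.card : ℝ) ≤ 2 * X ^ (1 - r1) / P :=
      (by exact_mod_cast h3 : (G.card : ℝ) ≤ (⌊2 * X ^ (1 - r1) / P⌋₊ : ℝ)).trans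
        (Nat.floor_le (by positivity))
    rwa [le_div_iff₀ hP0] at h4
  calc ∑ m ∈ G, |α m| * |Dl a lam S T m|
      ≤ ∑ m ∈ G, (K * X ^ ε) * (U + if m ≤ a.natAbs then V else 0) := by
        apply sum_le_sum
        intro m hm
        exact mul_le_mul (hm2 m hm) (hm1 m hm) (abs_nonneg _) (by positivity)
    _ = (K * X ^ ε) * ((G.card : ℝ) * U + ∑ m ∈ G, if m ≤ a.natAbs then V else 0) := by
        rw [← mul_sum, sum_add_distrib, sum_const, nsmul_eq_mul]
    _ ≤ (K * X ^ ε) * ((G.card : ℝ) * U + (a.natAbs : ℝ) * V) := by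
        apply mul_le_mul_of_nonneg_left _ (by positivity)
        have h2 : ∑ m ∈ G, (if m ≤ a.natAbs then V else 0) ≤ (a.natAbs : ℝ) * V := by
          rw [← sum_filter, sum_const, nsmul_eq_mul]
          apply mul_le_mul_of_nonneg_right _ hV0
          have h3 : (G.filter (fun m => m ≤ a.natAbs)) ⊆ Ioc 0 a.natAbs := by
            intro m hm
            rw [mem_filter] at hm
            rw [mem_Ioc]
            exact ⟨(hG m hm.1).1, hm.2⟩
          have h4 := card_le_card h3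
          rw [Nat.card_Ioc, Nat.sub_zero] at h4
          exact_mod_cast h4
        linarith
    _ = K ^ 2 * (2 + C2) * (X ^ ε * X ^ (2 * ε)) * ((G.card : ℝ) * P) +
          (a.natAbs : ℝ) * K ^ 2 * ((X ^ ε * X ^ ε) * (P * (Z : ℝ) ^ 2)) := by
        rw [hU, hV]; ring
    _ ≤ K ^ 2 * (2 + C2) * (X ^ ε * X ^ (2 * ε)) * (2 * X ^ (1 - r1)) +
          (a.natAbs : ℝ) * K ^ 2 * ((X ^ ε * X ^ ε) * (X ^ (1 / 100 : ℝ) * X ^ (29 / 50 : ℝ))) := by
        gcongr
    _ = 2 * K ^ 2 * (2 + C2) * X ^ (ε + 2 * ε + (1 - r1)) +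
          (a.natAbs : ℝ) * K ^ 2 * X ^ (ε + ε + (1 / 100 + 29 / 50 : ℝ)) := by
        rw [Real.rpow_add hX0 (ε + 2 * ε), Real.rpow_add hX0 ε (2 * ε),
          Real.rpow_add hX0 (ε + ε), Real.rpow_add hX0 ε ε,
          Real.rpow_add hX0 (1 / 100 : ℝ)]
        ring
    _ ≤ 2 * K ^ 2 * (2 + C2) * X ^ (1 - r1 / 2) +
          (a.natAbs : ℝ) * K ^ 2 * X ^ (1 - r1 / 2) := by
        have e1 : ε + 2 * ε + (1 - r1) ≤ 1 - r1 / 2 := by rw [hε]; linarith
        have e2 : ε + ε + (1 / 100 + 29 / 50 : ℝ) ≤ 1 - r1 / 2 := by rw [hε]; linarith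
        have e3 := Real.rpow_le_rpow_of_exponent_le hX e1
        have e4 := Real.rpow_le_rpow_of_exponent_le hX e2
        gcongr
    _ = _ := by ring

/-! ### The dyadic blocks -/

theorem block_sq (hF1 : P_F1) (a : ℤ) (lam : ℕ → ℝ) (S T : Finset ℕ) (Y : ℕ) (hY : 1 ≤ Y)
    (hl : ∀ d, |lam d| ≤ 3 ^ om d) :
    ∑ m ∈ Ioc Y (2 * Y), Dl a lam S T m ^ 2 ≤ 30 * VV a lam S T Y := by
  obtain ⟨f1, f2, f3, -⟩ := hF1
  set K : ℝ := ∑ p ∈ T, ∑ d ∈ S, (3 : ℝ) ^ om d +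
    (T.card : ℝ) * ∑ d ∈ S, (3 : ℝ) ^ om d / (Nat.totient d : ℝ) with hK
  have hb : ∀ m : ℤ, |Dl a lam S T m| ≤ K := by
    intro m
    refine (Dl_triv a lam S T m hl).trans ?_
    rw [hK]
    gcongr with p _ d _
    have := mul_le_mul_of_nonneg_left (Ii_le a d p m) (by positivity : (0 : ℝ) ≤ 3 ^ om d)
    linarith
  have hK0 : 0 ≤ K := (abs_nonneg _).trans (hb 0)
  have hsq : ∀ m : ℤ, Dl a lam S T m ^ 2 ≤ K ^ 2 := by
    intro m
    rw [← sq_abs]
    exact pow_le_pow_left₀ (abs_nonneg _) (hb m) 2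
  have hs0 : Summable (fun m : ℤ => Wd Y m * K ^ 2) := by
    have := (f3 Y 0 hY).mul_right (K ^ 2)
    simpa using this
  have hs : Summable (fun m : ℤ => Wd Y m * Dl a lam S T m ^ 2) := by
    refine Summable.of_nonneg_of_le (fun m => ?_) (fun m => ?_) hs0
    · exact mul_nonneg (f1 Y m hY).1 (sq_nonneg _)
    · exact mul_le_mul_of_nonneg_left (hsq m) (f1 Y m hY).1
  have h1 : ∑ m ∈ (Ioc Y (2 * Y)).map Nat.castEmbedding, Wd Y m * Dl a lam S T m ^ 2 ≤
      VV a lam S T Y := by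
    unfold VV
    exact hs.sum_le_tsum _ (fun m _ => mul_nonneg (f1 Y m hY).1 (sq_nonneg _))
  rw [sum_map] at h1
  have h2 : ∑ m ∈ Ioc Y (2 * Y), (1 / 30) * Dl a lam S T m ^ 2 ≤
      ∑ m ∈ Ioc Y (2 * Y), Wd Y (Nat.castEmbedding (R := ℤ) m) *
        Dl a lam S T (Nat.castEmbedding (R := ℤ) m) ^ 2 := by
    apply sum_le_sum
    intro m hm
    rw [mem_Ioc] at hm
    simp only [Nat.castEmbedding_apply]
    apply mul_le_mul_of_nonneg_right _ (sq_nonneg _)
    exact f2 Y m hY (by exact_mod_cast hm.1) (by exact_mod_cast hm.2)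
  rw [← mul_sum] at h2
  linarith

/-- Cauchy's inequality on a block -/
theorem block (hF1 : P_F1) (a : ℤ) (lam : ℕ → ℝ) (S T : Finset ℕ) (Y : ℕ) (hY : 1 ≤ Y)
    (hl : ∀ d, |lam d| ≤ 3 ^ om d) (A : ℕ) (X C4 : ℝ) (P : ℕ) (hC4 : 0 ≤ C4)
    (hX : 9 ≤ X) (hYX : (Y : ℝ) ≤ X)
    (hV : VV a lam S T Y ≤ C4 * (Y : ℝ) * (P : ℝ) ^ 2 / Real.log X ^ (2 * A + 4)) :
    ∑ m ∈ Ioc Y (2 * Y), (m.divisors.card : ℝ) * |Dl a lam S T m| ≤
      (Y : ℝ) * P * (9 * Real.sqrt (60 * C4) / Real.log X ^ A) := by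
  have hL : 2 ≤ Real.log X := by
    have h1 : Real.log 9 ≤ Real.log X := Real.log_le_log (by norm_num) hX
    have h2 : Real.log 9 = 2 * Real.log 3 := by
      rw [show (9 : ℝ) = 3 ^ 2 by norm_num, Real.log_pow]; norm_num
    have h3 : 1 ≤ Real.log 3 := by
      rw [Real.le_log_iff_exp_le (by norm_num)]
      have := Real.exp_one_lt_d9
      linarith
    linarith
  set L := Real.log X with hLd
  have hL0 : 0 < L := by linarith
  have hY0 : (0 : ℝ) < Y := by exact_mod_cast hY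
  have hlog : 0 ≤ 1 + Real.log ((2 * Y : ℕ) : ℝ) ∧ 1 + Real.log ((2 * Y : ℕ) : ℝ) ≤ 3 * L := by
    have h1 : 0 ≤ Real.log ((2 * Y : ℕ) : ℝ) := Real.log_natCast_nonneg _
    have h2 : Real.log ((2 * Y : ℕ) : ℝ) ≤ Real.log (2 * X) := by
      apply Real.log_le_log
      · exact_mod_cast (by omega : 0 < 2 * Y)
      · push_cast; linarith
    rw [Real.log_mul (by norm_num) (by linarith)] at h2
    have h3 : Real.log 2 ≤ 1 := by
      have := Real.log_two_lt_d9
      linarith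
    constructor <;> linarith
  have hsq : (∑ m ∈ Ioc Y (2 * Y), (m.divisors.card : ℝ) * |Dl a lam S T m|) ^ 2 ≤
      ((Y : ℝ) * P * (9 * Real.sqrt (60 * C4) / L ^ A)) ^ 2 := by
    calc (∑ m ∈ Ioc Y (2 * Y), (m.divisors.card : ℝ) * |Dl a lam S T m|) ^ 2
        ≤ (∑ m ∈ Ioc Y (2 * Y), (m.divisors.card : ℝ) ^ 2) *
            ∑ m ∈ Ioc Y (2 * Y), |Dl a lam S T m| ^ 2 := sum_mul_sq_le_sq_mul_sq _ _ _
      _ ≤ (2 * (Y : ℝ) * (3 * L) ^ 4) *
            (30 * (C4 * (Y : ℝ) * (P : ℝ) ^ 2 / L ^ (2 * A + 4))) := by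
          apply mul_le_mul _ _ (sum_nonneg fun m _ => by positivity) (by positivity)
          · refine (tau_sq_block Y).trans ?_
            gcongr
            exact hlog.2
          · simp only [sq_abs]
            refine (block_sq hF1 a lam S T Y hY hl).trans ?_
            linarith
      _ = ((Y : ℝ) * P * (9 * Real.sqrt (60 * C4) / L ^ A)) ^ 2 := by
          have h1 : Real.sqrt (60 * C4) ^ 2 = 60 * C4 := Real.sq_sqrt (by positivity)
          have h2 : L ^ (2 * A + 4) = (L ^ A) ^ 2 * L ^ 4 := by rw [pow_add, pow_mul']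
          have h3 : ((Y : ℝ) * P * (9 * Real.sqrt (60 * C4) / L ^ A)) ^ 2 =
              (Y : ℝ) ^ 2 * P ^ 2 * 81 * Real.sqrt (60 * C4) ^ 2 / (L ^ A) ^ 2 := by ring
          rw [h3, h1, h2]
          field_simp
          ring
  exact (pow_le_pow_iff_left₀ (sum_nonneg fun m _ => by positivity) (by positivity)
    (by norm_num)).1 hsq

/-- sorting into dyadic blocks -/
theorem classes (M : ℕ) (f : ℕ → ℝ) (hf : ∀ m, 0 ≤ f m) (W : ℝ) (hW : 0 ≤ W)
    (Q : ℕ → Prop) [DecidablePred Q] (hM : 1 ≤ M)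
    (hb : ∀ Y : ℕ, 1 ≤ Y → Y ≤ M → Q Y → ∑ m ∈ Ioc Y (2 * Y), f m ≤ Y * W) :
    ∑ m ∈ (Icc 1 M).filter (fun m => 2 ≤ m ∧ Q (2 ^ Nat.log 2 (m - 1))), f m ≤
      2 * (M : ℝ) * W := by
  set G := (Icc 1 M).filter (fun m => 2 ≤ m ∧ Q (2 ^ Nat.log 2 (m - 1))) with hG
  have hmaps : ∀ m ∈ G, Nat.log 2 (m - 1) ∈ range (Nat.log 2 M + 1) := by
    intro m hm
    rw [hG, mem_filter, mem_Icc] at hm
    rw [mem_range]
    have := Nat.log_mono_right (b := 2) (by omega : m - 1 ≤ M)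
    omega
  rw [← sum_fiberwise_of_maps_to hmaps]
  have h1 : ∀ i ∈ range (Nat.log 2 M + 1),
      ∑ m ∈ G.filter (fun m => Nat.log 2 (m - 1) = i), f m ≤ (2 : ℝ) ^ i * W := by
    intro i _
    rcases (G.filter (fun m => Nat.log 2 (m - 1) = i)).eq_empty_or_nonempty with h | ⟨m0, hm0⟩
    · rw [h, sum_empty]; positivity
    · have hprop : ∀ m ∈ G.filter (fun m => Nat.log 2 (m - 1) = i),
          m ≤ M ∧ 2 ^ i < m ∧ m ≤ 2 * 2 ^ i ∧ Q (2 ^ i) := by
        intro m hm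
        rw [mem_filter, hG, mem_filter, mem_Icc] at hm
        obtain ⟨⟨⟨_, h2⟩, h3, h4⟩, h5⟩ := hm
        have h6 := Nat.pow_log_le_self 2 (by omega : m - 1 ≠ 0)
        have h7 := Nat.lt_pow_succ_log_self (b := 2) (by norm_num) (m - 1)
        rw [h5] at h4 h6 h7
        rw [pow_succ] at h7
        refine ⟨h2, by omega, by omega, h4⟩
      obtain ⟨q1, q2, q3, q4⟩ := hprop m0 hm0
      have h2 := hb (2 ^ i) Nat.one_le_two_pow (by omega) q4
      push_cast at h2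
      refine le_trans (sum_le_sum_of_subset_of_nonneg ?_ fun m _ _ => hf m) h2
      intro m hm
      obtain ⟨w1, w2, w3, w4⟩ := hprop m hm
      rw [mem_Ioc]
      exact ⟨w2, w3⟩
  refine (sum_le_sum h1).trans ?_
  rw [← sum_mul]
  apply mul_le_mul_of_nonneg_right _ hW
  have h3 : ∀ n : ℕ, ∑ i ∈ range n, (2 : ℝ) ^ i = 2 ^ n - 1 := by
    intro n
    induction n with
    | zero => simp
    | succ n ih => rw [sum_range_succ, ih, pow_succ]; ring
  rw [h3, pow_succ]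
  have h4 : ((2 ^ Nat.log 2 M : ℕ) : ℝ) ≤ M := by
    exact_mod_cast Nat.pow_log_le_self 2 (by omega : M ≠ 0)
  push_cast at h4
  linarith

end TDISP1

open TDISP1

theorem t_DISP1 (hFR : P_FR) (hW4 : P_W4) (hF1 : P_F1) : P_DISP1 := by
  classical
  intro δ hδ A
  set δ1 : ℝ := min δ 1 with hδ1
  have hδp : 0 < δ1 := lt_min hδ one_pos
  have hδa : δ1 ≤ δ := min_le_left _ _
  have hδb : δ1 ≤ 1 := min_le_right _ _
  obtain ⟨ρw, η, hρw, hρw1, hη, hW⟩ := hW4 (δ1 / 2) (by positivity)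
  refine ⟨ρw / 2, by positivity, by linarith, ?_⟩
  intro a ha ρ0 hρ0
  set r1 : ℝ := δ1 / 20 with hr1
  have hr0 : 0 < r1 := by positivity
  have hr20 : r1 ≤ 1 / 20 := by rw [hr1]; linarith
  obtain ⟨C1, hC1, hfr⟩ := hFR a ha (2 * A + 4) ρ0 hρ0
  obtain ⟨C2, hC2, hw⟩ := hW a ha
  obtain ⟨C3, hC3, hlη⟩ := log_pow_le (2 * A + 4) η hη
  obtain ⟨C5, hC5, hsm⟩ := small a r1 hr0 hr20
  obtain ⟨C6, hC6, hlA⟩ := log_pow_le A (r1 / 2) (by positivity)
  set C4 : ℝ := (C1 + C2 * C3) * 2 ^ (2 * A + 4) with hC4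
  have hC40 : 0 ≤ C4 := by positivity
  refine ⟨2 * (9 * Real.sqrt (60 * C4)) + C5 * C6, by positivity, ?_⟩
  intro M P P' Z lam α hM hP hP0 hP1 hPP hPP2 hZ hlam hlam2 hα
  set X : ℝ := (M : ℝ) * P with hX
  have hMr : (3 : ℝ) ≤ M := by exact_mod_cast hM
  have hPr : (3 : ℝ) ≤ P := by exact_mod_cast hP
  have hX9 : 9 ≤ X := by rw [hX]; nlinarith
  have hX1 : 1 ≤ X := by linarith
  have hX0 : 0 < X := by linarith
  have hP0r : (0 : ℝ) < P := by linarith
  have hlogX : 0 < Real.log X := Real.log_pos (by linarith)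
  set S := (Icc 1 (Z ^ 2)).filter (fun d : ℕ => Int.gcd a d = 1) with hS
  have hSI : S ⊆ Ioc 0 (Z ^ 2) := by
    intro d hd
    rw [hS, mem_filter, mem_Icc] at hd
    rw [mem_Ioc]
    omega
  have hSp : ∀ d ∈ S, 1 ≤ d ∧ d ≤ Z ^ 2 ∧ Int.gcd a d = 1 := by
    intro d hd
    rw [hS, mem_filter, mem_Icc] at hd
    exact ⟨hd.1.1, hd.1.2, hd.2⟩
  have hPρ : (P : ℝ) ≤ X ^ (1 / 200 : ℝ) :=
    hP1.trans (Real.rpow_le_rpow_of_exponent_le hX1 (by linarith))
  -- one block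
  have hblk : ∀ Y : ℕ, 1 ≤ Y → Y ≤ M → X ^ (1 - r1) ≤ (Y : ℝ) * P →
      ∑ m ∈ Ioc Y (2 * Y), (m.divisors.card : ℝ) * |Dl a lam S (Pr P P') m| ≤
        Y * (P * (9 * Real.sqrt (60 * C4) / Real.log X ^ A)) := by
    intro Y hY hYM hYX
    have hY0 : (0 : ℝ) < Y := by exact_mod_cast hY
    have hYMr : (Y : ℝ) ≤ M := by exact_mod_cast hYM
    have hX'X : (Y : ℝ) * P ≤ X := by rw [hX]; gcongr
    have hX'1 : 1 ≤ (Y : ℝ) * P := (Real.one_le_rpow hX1 (by linarith)).trans hYX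
    have hX'0 : 0 < (Y : ℝ) * P := by positivity
    have hXr0 : 0 ≤ X ^ (1 - r1) := by positivity
    have hpow : ∀ s t : ℝ, 0 ≤ t → s ≤ (1 - r1) * t → X ^ s ≤ ((Y : ℝ) * P) ^ t := by
      intro s t ht hst
      calc X ^ s ≤ X ^ ((1 - r1) * t) := Real.rpow_le_rpow_of_exponent_le hX1 hst
        _ = (X ^ (1 - r1)) ^ t := Real.rpow_mul hX0.le _ _
        _ ≤ ((Y : ℝ) * P) ^ t := Real.rpow_le_rpow hXr0 hYX ht
    have hPw : (P : ℝ) ≤ ((Y : ℝ) * P) ^ ρw := hP1.trans (hpow _ _ hρw.le (by nlinarith))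
    have hPh : (P : ℝ) ≤ ((Y : ℝ) * P) ^ (1 / 100 : ℝ) :=
      hPw.trans (Real.rpow_le_rpow_of_exponent_le hX'1 hρw1)
    have hY3r : (3 : ℝ) ≤ Y := by
      have h1 : (3 : ℝ) ≤ X ^ (1 / 2 : ℝ) := by
        rw [← Real.sqrt_eq_rpow]
        apply Real.le_sqrt_of_sq_le
        linarith
      have h2 : (3 : ℝ) * P ≤ X ^ (1 / 2 : ℝ) * X ^ (1 / 200 : ℝ) := by
        apply mul_le_mul h1 hPρ hP0r.le (by positivity)
      rw [← Real.rpow_add hX0] at h2
      have h3 : X ^ (1 / 2 + 1 / 200 : ℝ) ≤ X ^ (1 - r1) :=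
        Real.rpow_le_rpow_of_exponent_le hX1 (by linarith)
      have h4 : (3 : ℝ) * P ≤ Y * P := h2.trans (h3.trans hYX)
      exact le_of_mul_le_mul_right h4 hP0r
    have hY3 : 3 ≤ Y := by exact_mod_cast hY3r
    have hset : Set1 a ρ0 (1 / 100) (29 / 50) Y P P' (Z ^ 2) S lam :=
      { hY := hY3
        hP := hP
        hP0 := (Real.rpow_le_rpow hX'0.le hX'X hρ0.le).trans hP0
        hP1 := hPh
        hPP := hPP
        hPP2 := hPP2
        hD := by
          push_cast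
          exact hZ.trans (hpow _ _ (by norm_num) (by nlinarith))
        hS := hSp
        hl := hlam }
    have hV1 := hfr Y P P' (Z ^ 2) S lam hset
    have hV2 := hw Y P P' Z S lam hY3 (by omega) hPw hPP hPP2
      (hZ.trans (hpow _ _ (by linarith) (by nlinarith))) hSp hlam hlam2
    set X' : ℝ := (Y : ℝ) * P with hX'
    have hlog' : Real.log X / 2 ≤ Real.log X' := by
      have h1 : Real.log (X ^ (1 - r1)) ≤ Real.log X' :=
        Real.log_le_log (by positivity) hYX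
      rw [Real.log_rpow hX0] at h1
      nlinarith
    have hlog0 : 0 < Real.log X' := by linarith
    have hη' : X' ^ (-η) ≤ C3 / Real.log X' ^ (2 * A + 4) := by
      rw [Real.rpow_neg hX'0.le, ← one_div, div_le_div_iff₀ (by positivity) (by positivity),
        one_mul]
      exact hlη X' hX'1
    have hcmp : 1 / Real.log X' ^ (2 * A + 4) ≤ 2 ^ (2 * A + 4) / Real.log X ^ (2 * A + 4) := by
      rw [div_le_div_iff₀ (by positivity) (by positivity), one_mul, ← mul_pow]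
      apply pow_le_pow_left₀ hlogX.le
      linarith
    have hVV : VV a lam S (Pr P P') Y ≤
        C4 * (Y : ℝ) * (P : ℝ) ^ 2 / Real.log X ^ (2 * A + 4) := by
      calc VV a lam S (Pr P P') Y
          ≤ C1 * (Y : ℝ) * (P : ℝ) ^ 2 / Real.log X' ^ (2 * A + 4) +
              C2 * (Y : ℝ) * (P : ℝ) ^ 2 * X' ^ (-η) := by linarith
        _ ≤ C1 * (Y : ℝ) * (P : ℝ) ^ 2 / Real.log X' ^ (2 * A + 4) +
              C2 * (Y : ℝ) * (P : ℝ) ^ 2 * (C3 / Real.log X' ^ (2 * A + 4)) := by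
            gcongr
        _ = ((C1 + C2 * C3) * (Y : ℝ) * (P : ℝ) ^ 2) * (1 / Real.log X' ^ (2 * A + 4)) := by
            ring
        _ ≤ ((C1 + C2 * C3) * (Y : ℝ) * (P : ℝ) ^ 2) *
              (2 ^ (2 * A + 4) / Real.log X ^ (2 * A + 4)) :=
            mul_le_mul_of_nonneg_left hcmp (by positivity)
        _ = _ := by rw [hC4]; ring
    have hYX2 : (Y : ℝ) ≤ X := by
      have : (Y : ℝ) * 1 ≤ Y * P := by gcongr; linarith
      linarith
    have := block hF1 a lam S (Pr P P') Y hY hlam A X C4 P hC40 hX9 hYX2 hVV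
    calc _ ≤ _ := this
      _ = _ := by ring
  -- splitting
  set W : ℝ := P * (9 * Real.sqrt (60 * C4) / Real.log X ^ A) with hWd
  have hW0 : 0 ≤ W := by positivity
  set Q : ℕ → Prop := fun Y => X ^ (1 - r1) ≤ (Y : ℝ) * P with hQ
  have hcl := classes M (fun m => (m.divisors.card : ℝ) * |Dl a lam S (Pr P P') m|)
    (fun m => by positivity) W hW0 Q (by omega) (fun Y h1 h2 h3 => hblk Y h1 h2 h3)
  set G := (Icc 1 M).filter (fun m => 2 ≤ m ∧ Q (2 ^ Nat.log 2 (m - 1))) with hG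
  have hsm' := hsm X P P' Z lam α S
    ((Icc 1 M).filter (fun m => ¬ (2 ≤ m ∧ Q (2 ^ Nat.log 2 (m - 1))))) hX1 (by omega)
    (hPρ.trans (Real.rpow_le_rpow_of_exponent_le hX1 (by norm_num))) hPP2
    (hZ.trans (Real.rpow_le_rpow_of_exponent_le hX1 (by linarith))) hSI hlam hα (by
      intro m hm
      rw [mem_filter, mem_Icc] at hm
      obtain ⟨⟨h1, h2⟩, h3⟩ := hm
      refine ⟨h1, ?_⟩
      by_cases h4 : 2 ≤ m
      · have h5 : ¬ Q (2 ^ Nat.log 2 (m - 1)) := fun h => h3 ⟨h4, h⟩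
        rw [hQ] at h5
        push Not at h5
        have h6 : m ≤ 2 * 2 ^ Nat.log 2 (m - 1) := by
          have h7 := Nat.lt_pow_succ_log_self (b := 2) (by norm_num) (m - 1)
          rw [pow_succ] at h7
          omega
        have h8 : (m : ℝ) ≤ 2 * ((2 ^ Nat.log 2 (m - 1) : ℕ) : ℝ) := by exact_mod_cast h6
        calc (m : ℝ) * P ≤ (2 * ((2 ^ Nat.log 2 (m - 1) : ℕ) : ℝ)) * P := by gcongr
          _ = 2 * (((2 ^ Nat.log 2 (m - 1) : ℕ) : ℝ) * P) := by ring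
          _ ≤ 2 * X ^ (1 - r1) := by linarith
      · have h5 : m = 1 := by omega
        rw [h5, Nat.cast_one, one_mul]
        have h6 : X ^ (1 / 200 : ℝ) ≤ X ^ (1 - r1) :=
          Real.rpow_le_rpow_of_exponent_le hX1 (by linarith)
        have h7 : 0 ≤ X ^ (1 - r1) := by positivity
        linarith)
  have hfin : X ^ (1 - r1 / 2) ≤ C6 * X / Real.log X ^ A := by
    rw [le_div_iff₀ (by positivity)]
    calc X ^ (1 - r1 / 2) * Real.log X ^ A ≤ X ^ (1 - r1 / 2) * (C6 * X ^ (r1 / 2)) := by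
          apply mul_le_mul_of_nonneg_left (hlA X hX1) (by positivity)
      _ = C6 * (X ^ (1 - r1 / 2) * X ^ (r1 / 2)) := by ring
      _ = C6 * X := by
          rw [← Real.rpow_add hX0]
          congr 1
          rw [show (1 - r1 / 2 + r1 / 2 : ℝ) = 1 by ring, Real.rpow_one]
  calc |∑ m ∈ Icc 1 M, α m * Dl a lam S (Pr P P') m|
      ≤ ∑ m ∈ Icc 1 M, |α m * Dl a lam S (Pr P P') m| := abs_sum_le_sum_abs _ _
    _ = ∑ m ∈ Icc 1 M, |α m| * |Dl a lam S (Pr P P') m| := by simp only [abs_mul]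
    _ = ∑ m ∈ G, |α m| * |Dl a lam S (Pr P P') m| +
        ∑ m ∈ (Icc 1 M).filter (fun m => ¬ (2 ≤ m ∧ Q (2 ^ Nat.log 2 (m - 1)))),
          |α m| * |Dl a lam S (Pr P P') m| := by
        rw [hG, sum_filter_add_sum_filter_not]
    _ ≤ 2 * (M : ℝ) * W + C5 * (C6 * X / Real.log X ^ A) := by
        apply add_le_add
        · refine le_trans (sum_le_sum fun m _ => ?_) hcl
          exact mul_le_mul_of_nonneg_right (hα m) (abs_nonneg _)
        · exact hsm'.trans (mul_le_mul_of_nonneg_left hfin hC5.le)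
    _ = _ := by rw [hWd, hX]; ring

end Pool.Agent.H262R4.FR
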