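import Pool.Agent.H262R4.FR.Stubs

/-! Task PHIS -/

set_option autoImplicit false

namespace Pool.Agent.H262R4.FR

namespace TPHIS

open Finset

theorem tel (y N : ℕ) (hy : 1 ≤ y) (h : y ≤ N) :
    ∑ n ∈ Ioc y N, 1 / ((n : ℝ) * ((n : ℝ) - 1)) = 1 / (y : ℝ) - 1 / (N : ℝ) := by
  induction N, h using Nat.le_induction with
  | base => simp
  | succ N h ih =>
    rw [Finset.sum_Ioc_succ_top h, ih]
    have h1 : (0 : ℝ) < N := by exact_mod_cast (hy.trans h)
    have h2 : (0 : ℝ) < (N : ℝ) + 1 := by linarith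
    have h3 : (0 : ℝ) < y := by exact_mod_cast hy
    push_cast
    rw [add_sub_cancel_right]
    field_simp
    ring

theorem tel_le (y N : ℕ) (hy : 1 ≤ y) :
    ∑ n ∈ Ioc y N, 1 / ((n : ℝ) * ((n : ℝ) - 1)) ≤ 1 / (y : ℝ) := by
  rcases le_or_gt y N with h | h
  · rw [tel y N hy h]
    have : 0 ≤ 1 / (N : ℝ) := by positivity
    linarith
  · rw [Finset.Ioc_eq_empty (by omega), Finset.sum_empty]
    positivity

theorem card_dvd (R d : ℕ) : (((Icc 1 R).filter (fun r => d ∣ r)).card : ℝ) ≤ (R : ℝ) / d := by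
  have h : (Icc 1 R).filter (fun r => d ∣ r) = (Ioc 0 R).filter (fun r => d ∣ r) := rfl
  rw [h, Nat.Ioc_filter_dvd_card_eq_div]
  exact Nat.cast_div_le

theorem sum_prod_le (w : ℕ → ℝ) (hw : ∀ p, 0 ≤ w p) (R : ℕ) :
    ∑ r ∈ Icc 1 R, ∏ p ∈ r.primeFactors, (1 + w p) ≤
      R * ∏ p ∈ (Icc 1 R).filter Nat.Prime, (1 + w p / p) := by
  classical
  set PR := (Icc 1 R).filter Nat.Prime with hPR
  have h1 : ∀ r ∈ Icc 1 R, ∏ p ∈ r.primeFactors, (1 + w p) ≤
      ∑ T ∈ PR.powerset, if (∏ p ∈ T, p) ∣ r then ∏ p ∈ T, w p else 0 := by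
    intro r hr
    rw [Finset.prod_one_add, ← Finset.sum_filter]
    refine Finset.sum_le_sum_of_subset_of_nonneg ?_ ?_
    · intro T hT
      rw [Finset.mem_powerset] at hT
      rw [Finset.mem_filter, Finset.mem_powerset]
      rw [Finset.mem_Icc] at hr
      refine ⟨?_, ?_⟩
      · intro p hp
        have hp' := hT hp
        rw [hPR, Finset.mem_filter, Finset.mem_Icc]
        have h2 := Nat.prime_of_mem_primeFactors hp'
        exact ⟨⟨h2.one_lt.le, (Nat.le_of_dvd (by omega) (Nat.dvd_of_mem_primeFactors hp')).trans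
          hr.2⟩, h2⟩
      · exact (Finset.prod_dvd_prod_of_subset _ _ _ hT).trans (Nat.prod_primeFactors_dvd r)
    · intro T _ _
      exact Finset.prod_nonneg fun p _ => hw p
  refine (Finset.sum_le_sum h1).trans ?_
  rw [Finset.sum_comm]
  have h2 : ∀ T ∈ PR.powerset, (∑ r ∈ Icc 1 R, if (∏ p ∈ T, p) ∣ r then ∏ p ∈ T, w p else 0) ≤
      R * ∏ p ∈ T, (w p / p) := by
    intro T hT
    rw [← Finset.sum_filter, Finset.sum_const, nsmul_eq_mul, Finset.prod_div_distrib]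
    have h3 := card_dvd R (∏ p ∈ T, p)
    have h4 : 0 ≤ ∏ p ∈ T, w p := Finset.prod_nonneg fun p _ => hw p
    calc _ ≤ (R : ℝ) / ((∏ p ∈ T, p : ℕ) : ℝ) * ∏ p ∈ T, w p := mul_le_mul_of_nonneg_right h3 h4
      _ = _ := by push_cast; ring
  refine (Finset.sum_le_sum h2).trans ?_
  rw [← Finset.mul_sum, ← Finset.prod_one_add]

/-- `w p` with `1 + w p = (p / (p - 1))²` -/
noncomputable def w (p : ℕ) : ℝ := if 2 ≤ p then ((p : ℝ) / (p - 1)) ^ 2 - 1 else 0

theorem w_nonneg (p : ℕ) : 0 ≤ w p := by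
  unfold w
  split_ifs with h
  · have h1 : (2 : ℝ) ≤ p := by exact_mod_cast h
    have h2 : 1 ≤ (p : ℝ) / (p - 1) := by
      rw [le_div_iff₀ (by linarith)]; linarith
    nlinarith
  · exact le_rfl

theorem w_le (p : ℕ) (hp : 2 ≤ p) : w p / p ≤ 3 * (1 / ((p : ℝ) * ((p : ℝ) - 1))) := by
  unfold w
  rw [if_pos hp]
  have h1 : (2 : ℝ) ≤ p := by exact_mod_cast hp
  have h2 : (0 : ℝ) < (p : ℝ) - 1 := by linarith
  have h3 : (0 : ℝ) < p := by linarith
  have h4 : ((p : ℝ) / (p - 1)) ^ 2 - 1 ≤ 3 / ((p : ℝ) - 1) := by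
    rw [div_pow, div_sub_one (by positivity), div_le_div_iff₀ (by positivity) h2]
    nlinarith [mul_nonneg h2.le (sub_nonneg.mpr h1)]
  calc (((p : ℝ) / (p - 1)) ^ 2 - 1) / p ≤ (3 / ((p : ℝ) - 1)) / p :=
        div_le_div_of_nonneg_right h4 h3.le
    _ = _ := by field_simp

theorem ratio_eq (r : ℕ) (hr : 1 ≤ r) :
    ((r : ℝ) / Nat.totient r) ^ 2 = ∏ p ∈ r.primeFactors, (1 + w p) := by
  have h1 := Nat.totient_mul_prod_primeFactors r
  have h2 : ∀ p ∈ r.primeFactors, 1 + w p = ((p : ℝ) / ((p - 1 : ℕ) : ℝ)) ^ 2 := by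
    intro p hp
    have h3 := (Nat.prime_of_mem_primeFactors hp).two_le
    unfold w
    rw [if_pos h3, Nat.cast_sub (by omega)]
    push_cast
    ring
  rw [Finset.prod_congr rfl h2, Finset.prod_pow, Finset.prod_div_distrib]
  congr 1
  have h4 : (0 : ℝ) < Nat.totient r := by exact_mod_cast Nat.totient_pos.mpr (by omega)
  have h5 : (0 : ℝ) < ∏ p ∈ r.primeFactors, ((p - 1 : ℕ) : ℝ) := by
    refine Finset.prod_pos fun p hp => ?_
    have := (Nat.prime_of_mem_primeFactors hp).two_le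
    exact_mod_cast (by omega : 0 < p - 1)
  rw [div_eq_div_iff h4.ne' h5.ne']
  have h6 : ((Nat.totient r * ∏ p ∈ r.primeFactors, p : ℕ) : ℝ) =
      ((r * ∏ p ∈ r.primeFactors, (p - 1) : ℕ) : ℝ) := by rw [h1]
  push_cast at h6
  linarith

theorem part1 (R : ℕ) :
    ∑ r ∈ Icc 1 R, ((r : ℝ) / Nat.totient r) ^ 2 ≤ Real.exp 3 * R := by
  have h1 : ∑ r ∈ Icc 1 R, ((r : ℝ) / Nat.totient r) ^ 2 =
      ∑ r ∈ Icc 1 R, ∏ p ∈ r.primeFactors, (1 + w p) :=
    Finset.sum_congr rfl fun r hr => ratio_eq r (Finset.mem_Icc.mp hr).1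
  rw [h1]
  refine (sum_prod_le w w_nonneg R).trans ?_
  rw [mul_comm]
  refine mul_le_mul_of_nonneg_right ?_ (Nat.cast_nonneg _)
  have h2 : ∏ p ∈ (Icc 1 R).filter Nat.Prime, (1 + w p / p) ≤
      ∏ p ∈ (Icc 1 R).filter Nat.Prime, Real.exp (w p / p) := by
    refine Finset.prod_le_prod (fun p _ => ?_) fun p _ => ?_
    · have := w_nonneg p
      positivity
    · rw [add_comm]; exact Real.add_one_le_exp _
  refine h2.trans ?_
  rw [← Real.exp_sum]
  refine Real.exp_le_exp.mpr ?_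
  calc ∑ p ∈ (Icc 1 R).filter Nat.Prime, w p / p ≤
        ∑ p ∈ (Icc 1 R).filter Nat.Prime, 3 * (1 / ((p : ℝ) * ((p : ℝ) - 1))) :=
        Finset.sum_le_sum fun p hp => w_le p (Finset.mem_filter.mp hp).2.two_le
    _ ≤ ∑ p ∈ Ioc 1 R, 3 * (1 / ((p : ℝ) * ((p : ℝ) - 1))) := by
        refine Finset.sum_le_sum_of_subset_of_nonneg ?_ ?_
        · intro p hp
          rw [Finset.mem_filter, Finset.mem_Icc] at hp
          rw [Finset.mem_Ioc]
          exact ⟨hp.2.one_lt, hp.1.2⟩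
        · intro p hp _
          rw [Finset.mem_Ioc] at hp
          have : (1 : ℝ) < p := by exact_mod_cast hp.1
          have h3 : (0 : ℝ) < (p : ℝ) - 1 := by linarith
          positivity
    _ ≤ 3 * (1 / ((1 : ℕ) : ℝ)) := by
        rw [← Finset.mul_sum]
        exact mul_le_mul_of_nonneg_left (tel_le 1 R le_rfl) (by norm_num)
    _ = 3 := by norm_num

/-- the sum over the primes `> y` dividing `q` -/
theorem part2 (ε : ℝ) (hε : 0 < ε) : ∃ y0 : ℕ, ∀ y : ℕ, y0 ≤ y → ∀ Q : ℕ,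
    (((Ioc Q (2 * Q)).filter (fun q : ℕ => 1 + ε <
      ∏ p ∈ q.primeFactors.filter (fun p => y < p), (1 + 1 / ((p : ℝ) - 1)) ^ 2)).card : ℝ) ≤
      ε * Q := by
  have hl : 0 < Real.log (1 + ε) := Real.log_pos (by linarith)
  refine ⟨⌈4 / (ε * Real.log (1 + ε))⌉₊ + 1, ?_⟩
  intro y hy Q
  have hy1 : 1 ≤ y := by omega
  have hy0 : (0 : ℝ) < y := by exact_mod_cast hy1
  have hy2 : 4 / (ε * Real.log (1 + ε)) ≤ y := by
    refine (Nat.le_ceil _).trans ?_
    exact_mod_cast (by omega : ⌈4 / (ε * Real.log (1 + ε))⌉₊ ≤ y)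
  set s : ℕ → ℝ := fun q => ∑ p ∈ q.primeFactors.filter (fun p => y < p), 2 / ((p : ℝ) - 1)
    with hs
  set B := (Ioc Q (2 * Q)).filter (fun q : ℕ => 1 + ε <
      ∏ p ∈ q.primeFactors.filter (fun p => y < p), (1 + 1 / ((p : ℝ) - 1)) ^ 2) with hB
  have hpp : ∀ p : ℕ, y < p → (0 : ℝ) < (p : ℝ) - 1 := by
    intro p hp
    have : (1 : ℝ) < p := by exact_mod_cast (by omega : 1 < p)
    linarith
  have hs0 : ∀ q, 0 ≤ s q := by
    intro q
    refine Finset.sum_nonneg fun p hp => ?_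
    have := hpp p (Finset.mem_filter.mp hp).2
    positivity
  have h1 : ∀ q ∈ B, Real.log (1 + ε) ≤ s q := by
    intro q hq
    have h2 := (Finset.mem_filter.mp hq).2
    rw [Real.log_le_iff_le_exp (by linarith)]
    refine h2.le.trans ?_
    rw [hs]
    simp only
    rw [Real.exp_sum]
    refine Finset.prod_le_prod (fun p hp => by positivity) fun p hp => ?_
    have h3 := hpp p (Finset.mem_filter.mp hp).2
    have h4 : 1 + 1 / ((p : ℝ) - 1) ≤ Real.exp (1 / ((p : ℝ) - 1)) := by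
      rw [add_comm]; exact Real.add_one_le_exp _
    calc (1 + 1 / ((p : ℝ) - 1)) ^ 2 ≤ Real.exp (1 / ((p : ℝ) - 1)) ^ 2 :=
          pow_le_pow_left₀ (by positivity) h4 2
      _ = Real.exp (2 / ((p : ℝ) - 1)) := by
          rw [← Real.exp_nat_mul]; congr 1; push_cast; ring
  have h2 : (B.card : ℝ) * Real.log (1 + ε) ≤ ∑ q ∈ Ioc Q (2 * Q), s q := by
    rw [← nsmul_eq_mul]
    refine (Finset.card_nsmul_le_sum _ _ _ h1).trans ?_
    exact Finset.sum_le_sum_of_subset_of_nonneg (Finset.filter_subset _ _) fun q _ _ => hs0 q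
  have h3 : ∑ q ∈ Ioc Q (2 * Q), s q ≤ 4 * Q / y := by
    have h4 : ∀ q ∈ Icc 1 (2 * Q), s q ≤
        ∑ p ∈ Ioc y (2 * Q), if p ∣ q then 2 / ((p : ℝ) - 1) else 0 := by
      intro q hq
      rw [← Finset.sum_filter]
      rw [Finset.mem_Icc] at hq
      refine Finset.sum_le_sum_of_subset_of_nonneg ?_ ?_
      · intro p hp
        rw [Finset.mem_filter] at hp
        have h5 := Nat.dvd_of_mem_primeFactors hp.1
        rw [Finset.mem_filter, Finset.mem_Ioc]
        exact ⟨⟨hp.2, (Nat.le_of_dvd (by omega) h5).trans hq.2⟩, h5⟩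
      · intro p hp _
        rw [Finset.mem_filter, Finset.mem_Ioc] at hp
        have := hpp p hp.1.1
        positivity
    calc ∑ q ∈ Ioc Q (2 * Q), s q ≤ ∑ q ∈ Icc 1 (2 * Q), s q := by
          refine Finset.sum_le_sum_of_subset_of_nonneg ?_ fun q _ _ => hs0 q
          intro q hq
          rw [Finset.mem_Ioc] at hq
          rw [Finset.mem_Icc]
          omega
      _ ≤ ∑ q ∈ Icc 1 (2 * Q), ∑ p ∈ Ioc y (2 * Q), (if p ∣ q then 2 / ((p : ℝ) - 1) else 0) :=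
          Finset.sum_le_sum h4
      _ = ∑ p ∈ Ioc y (2 * Q), ∑ q ∈ Icc 1 (2 * Q), (if p ∣ q then 2 / ((p : ℝ) - 1) else 0) :=
          Finset.sum_comm
      _ ≤ ∑ p ∈ Ioc y (2 * Q), 4 * Q * (1 / ((p : ℝ) * ((p : ℝ) - 1))) := by
          refine Finset.sum_le_sum fun p hp => ?_
          rw [Finset.mem_Ioc] at hp
          have h6 := hpp p hp.1
          have h7 : (0 : ℝ) < p := by linarith
          rw [← Finset.sum_filter, Finset.sum_const, nsmul_eq_mul]
          have h8 := card_dvd (2 * Q) p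
          calc _ ≤ (((2 * Q : ℕ) : ℝ) / p) * (2 / ((p : ℝ) - 1)) :=
                mul_le_mul_of_nonneg_right h8 (by positivity)
            _ = _ := by push_cast; field_simp; ring
      _ = 4 * Q * ∑ p ∈ Ioc y (2 * Q), (1 / ((p : ℝ) * ((p : ℝ) - 1))) := by
          rw [Finset.mul_sum]
      _ ≤ 4 * Q * (1 / (y : ℝ)) :=
          mul_le_mul_of_nonneg_left (tel_le y (2 * Q) hy1) (by positivity)
      _ = 4 * Q / y := by ring
  have h4 : 4 / (y : ℝ) ≤ ε * Real.log (1 + ε) := by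
    rw [div_le_iff₀ (by positivity)] at hy2
    rw [div_le_iff₀ hy0]
    linarith
  have h5 : (B.card : ℝ) * Real.log (1 + ε) ≤ (ε * Q) * Real.log (1 + ε) := by
    calc _ ≤ 4 * Q / (y : ℝ) := h2.trans h3
      _ = (4 / y) * Q := by ring
      _ ≤ (ε * Real.log (1 + ε)) * Q := mul_le_mul_of_nonneg_right h4 (Nat.cast_nonneg _)
      _ = _ := by ring
  exact le_of_mul_le_mul_right h5 hl

end TPHIS

theorem t_PHIS : P_PHIS :=
  ⟨⟨Real.exp 3, Real.exp_pos 3, TPHIS.part1⟩, TPHIS.part2⟩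

end Pool.Agent.H262R4.FR
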