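import Pool.Agent.H262R4.FR.Stubs
import Pool.Agent.H307R2.OP.BT4

/-! Task S1: Selberg weights. -/

set_option autoImplicit false

namespace Pool.Agent.H262R4.FR.TS1

open Finset
open scoped ArithmeticFunction.Moebius

theorem sum_le_of_inj {α β : Type} [DecidableEq β] (S : Finset α) (T : Finset β) (g : α → β)
    (hg : ∀ x ∈ S, g x ∈ T) (inj : ∀ x ∈ S, ∀ y ∈ S, g x = g y → x = y) (f : β → ℝ)
    (hf : ∀ y ∈ T, 0 ≤ f y) : ∑ x ∈ S, f (g x) ≤ ∑ y ∈ T, f y := by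
  rw [← Finset.sum_image (f := f) (g := g) (s := S) (fun x hx y hy h => inj x hx y hy h)]
  refine Finset.sum_le_sum_of_subset_of_nonneg ?_ fun y hy _ => hf y hy
  intro y hy
  obtain ⟨x, hx, rfl⟩ := Finset.mem_image.1 hy
  exact hg x hx

/-- squarefree numbers up to `Z` coprime to `s` -/
def AA (Z s : ℕ) : Finset ℕ := (Icc 1 Z).filter (fun r => Squarefree r ∧ Nat.Coprime r s)

theorem mem_AA {Z s r : ℕ} : r ∈ AA Z s ↔ (1 ≤ r ∧ r ≤ Z) ∧ Squarefree r ∧ Nat.Coprime r s := by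
  unfold AA
  rw [mem_filter, mem_Icc]

theorem AA_dvd {Z s r k : ℕ} (hr : r ∈ AA Z s) (hk : k ∣ r) : k ∈ AA Z s := by
  rw [mem_AA] at hr ⊢
  have h0 : 0 < r := hr.1.1
  exact ⟨⟨Nat.pos_of_dvd_of_pos hk h0, (Nat.le_of_dvd h0 hk).trans hr.1.2⟩,
    hr.2.1.squarefree_of_dvd hk, hr.2.2.coprime_dvd_left hk⟩

/-- the Selberg sum -/
noncomputable def GG (Z s : ℕ) : ℝ := ∑ r ∈ AA Z s, ((Nat.totient r : ℕ) : ℝ)⁻¹

noncomputable def TT (Z s l : ℕ) : ℝ :=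
  ∑ m ∈ (AA Z s).filter (fun m => l ∣ m), ((Nat.totient m : ℕ) : ℝ)⁻¹

noncomputable def rho (Z s l : ℕ) : ℝ := (μ l : ℝ) * (l * TT Z s l) / GG Z s

theorem GG_pos {Z s : ℕ} (hZ : 2 ≤ Z) : 0 < GG Z s := by
  have h1 : (1 : ℕ) ∈ AA Z s := by
    rw [mem_AA]
    exact ⟨⟨le_rfl, by omega⟩, squarefree_one, Nat.coprime_one_left s⟩
  have h2 := Finset.single_le_sum (f := fun r => ((Nat.totient r : ℕ) : ℝ)⁻¹)
    (fun r _ => by positivity) h1
  refine lt_of_lt_of_le ?_ h2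
  simp

theorem TT_nonneg (Z s l : ℕ) : 0 ≤ TT Z s l := Finset.sum_nonneg fun _ _ => by positivity

theorem rho_one {Z s : ℕ} (hZ : 2 ≤ Z) : rho Z s 1 = 1 := by
  have h1 : TT Z s 1 = GG Z s := by
    unfold TT GG
    rw [Finset.filter_true_of_mem fun m _ => one_dvd m]
  unfold rho
  rw [h1, ArithmeticFunction.moebius_apply_one]
  have := (GG_pos (s := s) hZ).ne'
  push_cast
  rw [one_mul, one_mul, div_self this]

theorem rho_ne {Z s l : ℕ} (h : rho Z s l ≠ 0) : l ∈ AA Z s := by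
  have h1 : TT Z s l ≠ 0 := fun h0 => h (by unfold rho; rw [h0]; simp)
  unfold TT at h1
  obtain ⟨m, hm, _⟩ := Finset.exists_ne_zero_of_sum_ne_zero h1
  rw [mem_filter] at hm
  exact AA_dvd hm.1 hm.2

theorem totient_split {e r : ℕ} (h : Squarefree (e * r)) :
    ((Nat.totient e : ℕ) : ℝ) * ((Nat.totient (e * r) : ℕ) : ℝ)⁻¹ =
      ((Nat.totient r : ℕ) : ℝ)⁻¹ := by
  have hc : Nat.Coprime e r := Nat.coprime_of_squarefree_mul h
  have he : e ≠ 0 := by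
    rintro rfl
    simp at h
  have h0 : ((Nat.totient e : ℕ) : ℝ) ≠ 0 := by
    have := Nat.totient_pos.2 (Nat.pos_of_ne_zero he)
    exact_mod_cast this.ne'
  rw [Nat.totient_mul hc]
  push_cast
  rw [mul_inv, mul_inv_cancel_left₀ h0]

theorem l_TT_le (Z s l : ℕ) (hl : 1 ≤ l) : (l : ℝ) * TT Z s l ≤ GG Z s := by
  have h1 : (l : ℝ) = ∑ e ∈ l.divisors, ((Nat.totient e : ℕ) : ℝ) := by
    have := Nat.sum_totient l
    exact_mod_cast this.symm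
  rw [h1]
  unfold TT
  rw [Finset.sum_mul_sum, ← Finset.sum_product']
  have h2 : ∀ x ∈ l.divisors ×ˢ (AA Z s).filter (fun m => l ∣ m),
      ((Nat.totient x.1 : ℕ) : ℝ) * ((Nat.totient x.2 : ℕ) : ℝ)⁻¹ =
        ((Nat.totient (x.2 / x.1) : ℕ) : ℝ)⁻¹ := by
    rintro ⟨e, m⟩ hx
    rw [mem_product, Nat.mem_divisors, mem_filter, mem_AA] at hx
    obtain ⟨⟨he, _⟩, ⟨⟨hm0, _⟩, hm1, _⟩, hlm⟩ := hx
    simp only at he hlm hm0 hm1 ⊢
    obtain ⟨r, rfl⟩ := he.trans hlm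
    have he0 : 0 < e := Nat.pos_of_ne_zero (by rintro rfl; simp at hm0)
    rw [Nat.mul_div_cancel_left r he0]
    exact totient_split hm1
  rw [Finset.sum_congr rfl h2]
  refine sum_le_of_inj _ _ (fun x : ℕ × ℕ => x.2 / x.1) ?_ ?_
    (fun r => ((Nat.totient r : ℕ) : ℝ)⁻¹) fun _ _ => by positivity
  · rintro ⟨e, m⟩ hx
    rw [mem_product, Nat.mem_divisors, mem_filter] at hx
    exact AA_dvd hx.2.1 (Nat.div_dvd_of_dvd (hx.1.1.trans hx.2.2))
  · have key : ∀ x ∈ l.divisors ×ˢ (AA Z s).filter (fun m => l ∣ m),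
        x.1 * Nat.gcd (x.2 / x.1) l = l ∧ x.2 = x.1 * (x.2 / x.1) := by
      rintro ⟨e, m⟩ hx
      rw [mem_product, Nat.mem_divisors, mem_filter, mem_AA] at hx
      obtain ⟨⟨he, _⟩, ⟨⟨hm0, _⟩, hm1, _⟩, hlm⟩ := hx
      simp only at he hlm hm0 hm1 ⊢
      obtain ⟨r, rfl⟩ := he.trans hlm
      have he0 : 0 < e := Nat.pos_of_ne_zero (by rintro rfl; simp at hm0)
      rw [Nat.mul_div_cancel_left r he0]
      refine ⟨?_, rfl⟩
      obtain ⟨l', rfl⟩ := he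
      have hl' : l' ∣ r := Nat.dvd_of_mul_dvd_mul_left he0 hlm
      have hc : Nat.Coprime e r := Nat.coprime_of_squarefree_mul hm1
      rw [Nat.Coprime.gcd_mul_left_cancel_right l' hc, Nat.gcd_eq_right hl']
    rintro ⟨e, m⟩ hx ⟨e', m'⟩ hx' h
    obtain ⟨h3, h4⟩ := key _ hx
    obtain ⟨h5, h6⟩ := key _ hx'
    simp only at h3 h4 h5 h6 h
    rw [h] at h3 h4
    have hg : 0 < Nat.gcd (m' / e') l := Nat.gcd_pos_of_pos_right _ hl
    have hee : e = e' := Nat.eq_of_mul_eq_mul_right hg (h3.trans h5.symm)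
    subst hee
    rw [← h6] at h4
    rw [h4]

theorem abs_rho_le {Z s : ℕ} (hZ : 2 ≤ Z) (l : ℕ) : |rho Z s l| ≤ 1 := by
  by_cases h : rho Z s l = 0
  · rw [h, abs_zero]; exact zero_le_one
  · have hl := (mem_AA.1 (rho_ne h)).1.1
    unfold rho
    have hG := GG_pos (s := s) hZ
    have h1 := l_TT_le Z s l hl
    have h2 := TT_nonneg Z s l
    rw [abs_div, abs_of_pos hG, div_le_one hG, abs_mul, abs_of_nonneg (a := (l : ℝ) * TT Z s l)
      (by positivity)]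
    have h3 : |(μ l : ℝ)| ≤ 1 := by
      have := ArithmeticFunction.abs_moebius_le_one (n := l)
      exact_mod_cast this
    calc |(μ l : ℝ)| * (l * TT Z s l) ≤ 1 * (l * TT Z s l) := by gcongr
      _ ≤ GG Z s := by rw [one_mul]; exact h1

/-- the weights -/
noncomputable def lam (Z s d : ℕ) : ℝ :=
  ∑ x ∈ (Icc 1 Z ×ˢ Icc 1 Z).filter (fun x : ℕ × ℕ => Nat.lcm x.1 x.2 = d),
    rho Z s x.1 * rho Z s x.2

theorem expand (Z s : ℕ) (F : ℕ → ℝ) : ∑ d ∈ Icc 1 (Z ^ 2), lam Z s d * F d =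
    ∑ l ∈ Icc 1 Z, ∑ k ∈ Icc 1 Z, rho Z s l * rho Z s k * F (Nat.lcm l k) := by
  rw [← Finset.sum_product']
  rw [← Finset.sum_fiberwise_of_maps_to (s := Icc 1 Z ×ˢ Icc 1 Z) (t := Icc 1 (Z ^ 2))
    (g := fun x : ℕ × ℕ => Nat.lcm x.1 x.2)]
  · refine Finset.sum_congr rfl fun d _ => ?_
    unfold lam
    rw [Finset.sum_mul]
    refine Finset.sum_congr rfl fun x hx => ?_
    rw [(mem_filter.1 hx).2]
  · rintro ⟨l, k⟩ hx
    rw [mem_product, mem_Icc, mem_Icc] at hx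
    simp only at hx ⊢
    rw [mem_Icc]
    refine ⟨Nat.lcm_pos (by omega) (by omega), ?_⟩
    calc Nat.lcm l k ≤ l * k := Nat.le_of_dvd (Nat.mul_pos (by omega) (by omega))
          (Nat.lcm_dvd (dvd_mul_right _ _) (dvd_mul_left _ _))
      _ ≤ Z * Z := Nat.mul_le_mul hx.1.2 hx.2.2
      _ = Z ^ 2 := by ring

theorem lcm_sq {l k : ℕ} (hl : Squarefree l) (hk : Squarefree k) :
    Nat.lcm l k = l * (k / Nat.gcd l k) ∧ Nat.Coprime l (k / Nat.gcd l k) := by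
  have hk0 : 0 < k := Nat.pos_of_ne_zero hk.ne_zero
  have hg0 : 0 < Nat.gcd l k := Nat.gcd_pos_of_pos_right _ hk0
  refine ⟨?_, ?_⟩
  · unfold Nat.lcm
    rw [Nat.mul_div_assoc _ (Nat.gcd_dvd_right l k)]
  · have h1 : Nat.gcd l k * (k / Nat.gcd l k) = k := Nat.mul_div_cancel' (Nat.gcd_dvd_right l k)
    have h2 : Nat.Coprime (Nat.gcd l k) (k / Nat.gcd l k) := by
      apply Nat.coprime_of_squarefree_mul
      rw [h1]
      exact hk
    have h3 : Nat.gcd l (k / Nat.gcd l k) ∣ Nat.gcd (Nat.gcd l k) (k / Nat.gcd l k) := by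
      refine Nat.dvd_gcd (Nat.dvd_gcd (Nat.gcd_dvd_left _ _) ?_) (Nat.gcd_dvd_right _ _)
      exact (Nat.gcd_dvd_right _ _).trans (Nat.div_dvd_of_dvd (Nat.gcd_dvd_right l k))
    rw [h2] at h3
    exact Nat.dvd_one.1 h3

theorem lam_ne {Z s d : ℕ} (h : lam Z s d ≠ 0) : ∃ l k : ℕ, l ∈ AA Z s ∧ k ∈ AA Z s ∧
    Nat.lcm l k = d := by
  unfold lam at h
  obtain ⟨⟨l, k⟩, hx, hne⟩ := Finset.exists_ne_zero_of_sum_ne_zero h
  exact ⟨l, k, rho_ne (left_ne_zero_of_mul hne), rho_ne (right_ne_zero_of_mul hne),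
    (mem_filter.1 hx).2⟩

theorem lam_supp {Z s d : ℕ} (h : lam Z s d ≠ 0) : 1 ≤ d ∧ Squarefree d ∧ Nat.Coprime d s ∧
    d ≤ Z ^ 2 ∧ ∃ k l : ℕ, k ≤ Z ∧ l ≤ Z ∧ d = k * l := by
  obtain ⟨l, k, hl, hk, rfl⟩ := lam_ne h
  rw [mem_AA] at hl hk
  obtain ⟨h1, h2⟩ := lcm_sq hl.2.1 hk.2.1
  have h3 : k / Nat.gcd l k ∣ k := Nat.div_dvd_of_dvd (Nat.gcd_dvd_right l k)
  have h4 : k / Nat.gcd l k ≤ Z := (Nat.le_of_dvd hk.1.1 h3).trans hk.1.2
  refine ⟨Nat.lcm_pos hl.1.1 hk.1.1, ?_, ?_, ?_, l, k / Nat.gcd l k, hl.1.2, h4, h1⟩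
  · rw [h1, Nat.squarefree_mul h2]
    exact ⟨hl.2.1, hk.2.1.squarefree_of_dvd h3⟩
  · rw [h1]
    exact Nat.Coprime.mul_left hl.2.2 (hk.2.2.coprime_dvd_left h3)
  · rw [h1, sq]
    exact Nat.mul_le_mul hl.1.2 h4

theorem lam_bd {Z s : ℕ} (hZ : 2 ≤ Z) (d : ℕ) : |lam Z s d| ≤ 3 ^ om d := by
  by_cases h : lam Z s d = 0
  · rw [h, abs_zero]; positivity
  · obtain ⟨h1, h2, _⟩ := lam_supp h
    unfold lam
    refine (Finset.abs_sum_le_sum_abs _ _).trans ?_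
    have h3 : ∀ x ∈ (Icc 1 Z ×ˢ Icc 1 Z).filter (fun x : ℕ × ℕ => Nat.lcm x.1 x.2 = d),
        |rho Z s x.1 * rho Z s x.2| ≤ 1 := by
      intro x _
      rw [abs_mul]
      exact mul_le_one₀ (abs_rho_le hZ _) (abs_nonneg _) (abs_rho_le hZ _)
    refine (Finset.sum_le_sum h3).trans ?_
    rw [Finset.sum_const, nsmul_eq_mul, mul_one]
    have h4 := Nat.card_pair_lcm_eq h2
    have h5 : ((Icc 1 Z ×ˢ Icc 1 Z).filter (fun x : ℕ × ℕ => Nat.lcm x.1 x.2 = d)).card ≤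
        3 ^ om d := by
      refine (Finset.card_le_card ?_).trans_eq (h4.trans ?_)
      · rintro ⟨l, k⟩ hx
        rw [mem_filter, mem_product] at hx
        simp only at hx
        rw [mem_filter, mem_product, Nat.mem_divisors, Nat.mem_divisors]
        refine ⟨⟨⟨?_, h2.ne_zero⟩, ?_, h2.ne_zero⟩, hx.2⟩
        · rw [← hx.2]; exact Nat.dvd_lcm_left _ _
        · rw [← hx.2]; exact Nat.dvd_lcm_right _ _
      · congr 1
    exact_mod_cast h5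

theorem int_lcm_dvd (l k : ℕ) (n : ℤ) : ((Nat.lcm l k : ℕ) : ℤ) ∣ n ↔ (l : ℤ) ∣ n ∧ (k : ℤ) ∣ n := by
  rw [Int.natCast_dvd, Int.natCast_dvd, Int.natCast_dvd, Nat.lcm_dvd_iff]

theorem sq_form (Z s : ℕ) (n : ℤ) :
    ∑ d ∈ Icc 1 (Z ^ 2), (if (d : ℤ) ∣ n then lam Z s d else 0) =
      (∑ l ∈ Icc 1 Z, if (l : ℤ) ∣ n then rho Z s l else 0) ^ 2 := by
  have h1 := expand Z s (fun d => if (d : ℤ) ∣ n then 1 else 0)
  have h2 : ∑ d ∈ Icc 1 (Z ^ 2), (if (d : ℤ) ∣ n then lam Z s d else 0) =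
      ∑ d ∈ Icc 1 (Z ^ 2), lam Z s d * (if (d : ℤ) ∣ n then 1 else 0) :=
    Finset.sum_congr rfl fun d _ => by rw [mul_ite, mul_one, mul_zero]
  rw [h2, h1, sq, Finset.sum_mul_sum]
  refine Finset.sum_congr rfl fun l _ => Finset.sum_congr rfl fun k _ => ?_
  by_cases hl : (l : ℤ) ∣ n <;> by_cases hk : (k : ℤ) ∣ n <;> simp [int_lcm_dvd, hl, hk]

theorem lam_prime {Z s : ℕ} (hZ : 2 ≤ Z) (p : ℕ) (hp : p.Prime) (hpZ : Z < p) :
    ∑ d ∈ Icc 1 (Z ^ 2), (if (d : ℤ) ∣ (p : ℤ) then lam Z s d else 0) = 1 := by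
  rw [sq_form, Finset.sum_eq_single 1]
  · simp [rho_one hZ]
  · intro l hl hl1
    rw [mem_Icc] at hl
    rw [if_neg]
    intro h
    have h1 : l ∣ p := by exact_mod_cast h
    rcases (Nat.dvd_prime hp).1 h1 with h2 | h2
    · exact hl1 h2
    · omega
  · intro h
    exact absurd (mem_Icc.2 ⟨le_rfl, by omega⟩) h

/-- sums over multiples -/
noncomputable def RR (Z s h k : ℕ) : ℝ :=
  ∑ l ∈ Icc 1 Z, if Nat.Coprime l h ∧ k ∣ l then rho Z s l / l else 0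

theorem coprime_lcm (l k h : ℕ) : Nat.Coprime (Nat.lcm l k) h ↔ Nat.Coprime l h ∧ Nat.Coprime k h :=
  ⟨fun H => ⟨H.coprime_dvd_left (Nat.dvd_lcm_left l k), H.coprime_dvd_left (Nat.dvd_lcm_right l k)⟩,
    fun H => (Nat.Coprime.mul_left H.1 H.2).coprime_dvd_left
      (Nat.lcm_dvd (dvd_mul_right _ _) (dvd_mul_left _ _))⟩

theorem inv_lcm {Z l k : ℕ} (hl : l ∈ Icc 1 Z) (hk : k ∈ Icc 1 Z) : (1 : ℝ) / (Nat.lcm l k : ℕ) =
    ∑ j ∈ Icc 1 Z, (if j ∣ l ∧ j ∣ k then ((Nat.totient j : ℕ) : ℝ) else 0) / (l * k) := by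
  rw [mem_Icc] at hl hk
  have h1 : ∑ j ∈ Icc 1 Z, (if j ∣ l ∧ j ∣ k then ((Nat.totient j : ℕ) : ℝ) else 0) =
      ((Nat.gcd l k : ℕ) : ℝ) := by
    rw [← Finset.sum_filter]
    have h2 : (Icc 1 Z).filter (fun j => j ∣ l ∧ j ∣ k) = (Nat.gcd l k).divisors := by
      ext j
      rw [mem_filter, mem_Icc, Nat.mem_divisors, Nat.dvd_gcd_iff]
      constructor
      · rintro ⟨_, h⟩
        exact ⟨h, (Nat.gcd_pos_of_pos_left _ (by omega)).ne'⟩
      · rintro ⟨h, _⟩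
        exact ⟨⟨Nat.pos_of_dvd_of_pos h.1 (by omega), (Nat.le_of_dvd (by omega) h.1).trans hl.2⟩, h⟩
    rw [h2]
    have := Nat.sum_totient (Nat.gcd l k)
    exact_mod_cast this
  rw [← Finset.sum_div, h1]
  have h3 : ((Nat.gcd l k : ℕ) : ℝ) * ((Nat.lcm l k : ℕ) : ℝ) = l * k := by
    exact_mod_cast Nat.gcd_mul_lcm l k
  have h4 : ((Nat.lcm l k : ℕ) : ℝ) ≠ 0 := by
    have := Nat.lcm_pos (m := l) (n := k) (by omega) (by omega)
    exact_mod_cast this.ne'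
  have h5 : (l : ℝ) * k ≠ 0 := by
    have h6 : (l : ℝ) ≠ 0 := by exact_mod_cast (by omega : l ≠ 0)
    have h7 : (k : ℝ) ≠ 0 := by exact_mod_cast (by omega : k ≠ 0)
    exact mul_ne_zero h6 h7
  rw [div_eq_div_iff h4 h5, one_mul, h3]

theorem main_form (Z s h : ℕ) :
    ∑ d ∈ (Icc 1 (Z ^ 2)).filter (fun d => Nat.Coprime d h), lam Z s d / d =
      ∑ j ∈ Icc 1 Z, ((Nat.totient j : ℕ) : ℝ) * RR Z s h j ^ 2 := by
  have h1 := expand Z s (fun d => if Nat.Coprime d h then 1 / (d : ℝ) else 0)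
  have h2 : ∑ d ∈ (Icc 1 (Z ^ 2)).filter (fun d => Nat.Coprime d h), lam Z s d / d =
      ∑ d ∈ Icc 1 (Z ^ 2), lam Z s d * (if Nat.Coprime d h then 1 / (d : ℝ) else 0) := by
    rw [Finset.sum_filter]
    refine Finset.sum_congr rfl fun d _ => ?_
    split_ifs
    · ring
    · ring
  rw [h2, h1]
  have h3 : ∀ l ∈ Icc 1 Z, ∀ k ∈ Icc 1 Z, rho Z s l * rho Z s k *
      (if Nat.Coprime (Nat.lcm l k) h then 1 / ((Nat.lcm l k : ℕ) : ℝ) else 0) =
      ∑ j ∈ Icc 1 Z, ((Nat.totient j : ℕ) : ℝ) *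
        ((if Nat.Coprime l h ∧ j ∣ l then rho Z s l / l else 0) *
          (if Nat.Coprime k h ∧ j ∣ k then rho Z s k / k else 0)) := by
    intro l hl k hk
    by_cases hc : Nat.Coprime (Nat.lcm l k) h
    · rw [if_pos hc, inv_lcm hl hk, Finset.mul_sum]
      rw [coprime_lcm] at hc
      refine Finset.sum_congr rfl fun j _ => ?_
      by_cases hj : j ∣ l ∧ j ∣ k
      · rw [if_pos hj, if_pos ⟨hc.1, hj.1⟩, if_pos ⟨hc.2, hj.2⟩, div_mul_div_comm]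
        ring
      · rw [if_neg hj]
        rw [not_and_or] at hj
        rcases hj with hj | hj
        · rw [if_neg (c := Nat.Coprime l h ∧ j ∣ l) fun h' => hj h'.2]
          ring
        · rw [if_neg (c := Nat.Coprime k h ∧ j ∣ k) fun h' => hj h'.2]
          ring
    · rw [if_neg hc, mul_zero]
      rw [coprime_lcm, not_and_or] at hc
      symm
      refine Finset.sum_eq_zero fun j _ => ?_
      rcases hc with hc | hc
      · rw [if_neg (c := Nat.Coprime l h ∧ j ∣ l) fun h' => hc h'.1]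
        ring
      · rw [if_neg (c := Nat.Coprime k h ∧ j ∣ k) fun h' => hc h'.1]
        ring
  rw [Finset.sum_congr rfl fun l hl => Finset.sum_congr rfl fun k hk => h3 l hl k hk]
  rw [Finset.sum_congr rfl fun l _ => Finset.sum_comm, Finset.sum_comm]
  refine Finset.sum_congr rfl fun j _ => ?_
  unfold RR
  rw [sq, Finset.sum_mul_sum, Finset.mul_sum]
  refine Finset.sum_congr rfl fun l _ => ?_
  rw [Finset.mul_sum]

theorem RR_eq (Z s h k : ℕ) : RR Z s h k = (GG Z s)⁻¹ * ∑ m ∈ AA Z s,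
    ((Nat.totient m : ℕ) : ℝ)⁻¹ *
      ∑ l ∈ m.divisors.filter (fun l => k ∣ l ∧ Nat.Coprime l h), (μ l : ℝ) := by
  have h1 : ∀ l ∈ Icc 1 Z, (if Nat.Coprime l h ∧ k ∣ l then rho Z s l / l else 0) =
      ∑ m ∈ AA Z s, (GG Z s)⁻¹ * (((Nat.totient m : ℕ) : ℝ)⁻¹ *
        if l ∣ m ∧ k ∣ l ∧ Nat.Coprime l h then (μ l : ℝ) else 0) := by
    intro l hl
    rw [mem_Icc] at hl
    have hl0 : (l : ℝ) ≠ 0 := by exact_mod_cast (by omega : l ≠ 0)
    by_cases hc : Nat.Coprime l h ∧ k ∣ l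
    · rw [if_pos hc]
      unfold rho TT
      rw [Finset.sum_filter]
      have h2 : ∀ S : ℝ, (μ l : ℝ) * (l * S) / GG Z s / l = (GG Z s)⁻¹ * (μ l * S) := by
        intro S
        field_simp
      rw [h2, Finset.mul_sum, Finset.mul_sum]
      refine Finset.sum_congr rfl fun m _ => ?_
      by_cases hm : l ∣ m
      · rw [if_pos hm, if_pos ⟨hm, hc.2, hc.1⟩]
        ring
      · rw [if_neg hm, if_neg fun h' => hm h'.1]
        ring
    · rw [if_neg hc]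
      symm
      refine Finset.sum_eq_zero fun m _ => ?_
      rw [if_neg fun h' => hc ⟨h'.2.2, h'.2.1⟩]
      ring
  unfold RR
  rw [Finset.sum_congr rfl h1, Finset.sum_comm, Finset.mul_sum]
  refine Finset.sum_congr rfl fun m hm => ?_
  rw [mem_AA] at hm
  rw [← Finset.mul_sum, ← Finset.mul_sum]
  congr 2
  rw [← Finset.sum_filter]
  refine Finset.sum_congr ?_ fun _ _ => rfl
  ext l
  rw [mem_filter, mem_filter, mem_Icc, Nat.mem_divisors]
  constructor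
  · rintro ⟨_, h2, h3⟩
    exact ⟨⟨h2, by omega⟩, h3⟩
  · rintro ⟨⟨h2, _⟩, h3⟩
    exact ⟨⟨Nat.pos_of_dvd_of_pos h2 hm.1.1, (Nat.le_of_dvd hm.1.1 h2).trans hm.1.2⟩, h2, h3⟩

theorem cop_iff {m h l : ℕ} (hm : Squarefree m) (hl : l ∣ m) :
    Nat.Coprime l h ↔ l ∣ m / Nat.gcd m h := by
  have h1 : Nat.gcd m h * (m / Nat.gcd m h) = m := Nat.mul_div_cancel' (Nat.gcd_dvd_left m h)
  have h2 : Nat.Coprime (Nat.gcd m h) (m / Nat.gcd m h) := by
    apply Nat.coprime_of_squarefree_mul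
    rw [h1]
    exact hm
  constructor
  · intro hc
    have h3 : Nat.Coprime l (Nat.gcd m h) := hc.coprime_dvd_right (Nat.gcd_dvd_right m h)
    rw [← h1] at hl
    exact h3.dvd_of_dvd_mul_left hl
  · intro hd
    have h3 : Nat.gcd l h ∣ Nat.gcd (Nat.gcd m h) (m / Nat.gcd m h) :=
      Nat.dvd_gcd (Nat.dvd_gcd ((Nat.gcd_dvd_left _ _).trans hl) (Nat.gcd_dvd_right _ _))
        ((Nat.gcd_dvd_left _ _).trans hd)
    rw [h2] at h3
    exact Nat.dvd_one.1 h3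

theorem I_le {m h k : ℕ} (hm : Squarefree m) :
    |∑ l ∈ m.divisors.filter (fun l => k ∣ l ∧ Nat.Coprime l h), (μ l : ℝ)| ≤
      if k ∣ m ∧ m / k ∣ h then 1 else 0 := by
  by_cases hk : k ∣ m
  · have h1 : m.divisors.filter (fun l => k ∣ l ∧ Nat.Coprime l h) =
        m.divisors.filter (fun l => k ∣ l ∧ l ∣ m / Nat.gcd m h) := by
      refine Finset.filter_congr fun l hl => ?_
      rw [cop_iff hm (Nat.dvd_of_mem_divisors hl)]
    rw [h1, Pool.Agent.Helper923.PPS.sum_moebius_between hm hk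
      (Nat.div_dvd_of_dvd (Nat.gcd_dvd_left m h))]
    split_ifs with h2 h3 h3
    · have := ArithmeticFunction.abs_moebius_le_one (n := k)
      exact_mod_cast this
    · exfalso
      refine h3 ⟨hk, ?_⟩
      rw [h2, Nat.div_div_self (Nat.gcd_dvd_left m h) hm.ne_zero]
      exact Nat.gcd_dvd_right m h
    · rw [abs_zero]; exact zero_le_one
    · rw [abs_zero]
  · rw [if_neg fun h' => hk h'.1]
    have h1 : m.divisors.filter (fun l => k ∣ l ∧ Nat.Coprime l h) = ∅ := by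
      rw [Finset.filter_eq_empty_iff]
      rintro l hl ⟨h2, _⟩
      exact hk (h2.trans (Nat.dvd_of_mem_divisors hl))
    rw [h1, Finset.sum_empty, abs_zero]

/-- the product over the primes of `h` which do not divide `s` -/
noncomputable def PI (s h : ℕ) : ℝ :=
  ∏ p ∈ h.primeFactors.filter (fun p => ¬ p ∣ s), (1 + 1 / ((p : ℝ) - 1))

theorem inv_totient {f : ℕ} (hf : Squarefree f) : ((Nat.totient f : ℕ) : ℝ)⁻¹ =
    ∏ p ∈ f.primeFactors, 1 / ((p : ℝ) - 1) := by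
  have h1 := Nat.totient_eq_div_primeFactors_mul f
  rw [Nat.prod_primeFactors_of_squarefree hf, Nat.div_self (Nat.pos_of_ne_zero hf.ne_zero),
    one_mul] at h1
  rw [h1]
  push_cast
  rw [← Finset.prod_inv_distrib]
  refine Finset.prod_congr rfl fun p hp => ?_
  rw [Nat.cast_sub (Nat.prime_of_mem_primeFactors hp).one_lt.le]
  push_cast
  rw [one_div]

theorem sum_D_le (s h : ℕ) (hh : 1 ≤ h) :
    ∑ f ∈ h.divisors.filter (fun f => Squarefree f ∧ Nat.Coprime f s),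
      ((Nat.totient f : ℕ) : ℝ)⁻¹ ≤ PI s h := by
  classical
  unfold PI
  rw [Finset.prod_one_add]
  have h1 : ∀ f ∈ h.divisors.filter (fun f => Squarefree f ∧ Nat.Coprime f s),
      ((Nat.totient f : ℕ) : ℝ)⁻¹ = ∏ p ∈ f.primeFactors, 1 / ((p : ℝ) - 1) := fun f hf =>
    inv_totient (mem_filter.1 hf).2.1
  rw [Finset.sum_congr rfl h1]
  refine sum_le_of_inj _ _ (fun f : ℕ => f.primeFactors) ?_ ?_
    (fun t => ∏ p ∈ t, 1 / ((p : ℝ) - 1)) ?_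
  · intro f hf
    rw [mem_filter, Nat.mem_divisors] at hf
    rw [Finset.mem_powerset]
    intro p hp
    rw [mem_filter]
    have hp' := Nat.prime_of_mem_primeFactors hp
    have hpf := Nat.dvd_of_mem_primeFactors hp
    refine ⟨Nat.mem_primeFactors.2 ⟨hp', hpf.trans hf.1.1, by omega⟩, fun hps => ?_⟩
    have h2 := Nat.dvd_gcd hpf hps
    rw [hf.2.2] at h2
    exact hp'.one_lt.ne' (Nat.dvd_one.1 h2)
  · intro f hf f' hf' hff
    rw [mem_filter] at hf hf'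
    rw [← Nat.prod_primeFactors_of_squarefree hf.2.1, ← Nat.prod_primeFactors_of_squarefree hf'.2.1]
    rw [hff]
  · intro t ht
    refine Finset.prod_nonneg fun p hp => ?_
    have h2 := (Nat.prime_of_mem_primeFactors
      (mem_filter.1 (Finset.mem_powerset.1 ht hp)).1).one_lt
    have h3 : (1 : ℝ) < p := by exact_mod_cast h2
    exact div_nonneg zero_le_one (by linarith)

theorem PI_nonneg (s h : ℕ) : 0 ≤ PI s h := by
  unfold PI
  refine Finset.prod_nonneg fun p hp => ?_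
  have h2 := (Nat.prime_of_mem_primeFactors (mem_filter.1 hp).1).one_lt
  have h3 : (1 : ℝ) < p := by exact_mod_cast h2
  have : 0 ≤ 1 / ((p : ℝ) - 1) := div_nonneg zero_le_one (by linarith)
  linarith

theorem RR_le {Z s h k : ℕ} (hZ : 2 ≤ Z) (hh : 1 ≤ h) :
    |RR Z s h k| ≤ (GG Z s)⁻¹ * ∑ m ∈ (AA Z s).filter (fun m => k ∣ m ∧ m / k ∣ h),
      ((Nat.totient m : ℕ) : ℝ)⁻¹ := by
  have hG := GG_pos (s := s) hZ
  rw [RR_eq, abs_mul, abs_of_pos (inv_pos.2 hG)]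
  refine mul_le_mul_of_nonneg_left ?_ (inv_pos.2 hG).le
  refine (Finset.abs_sum_le_sum_abs _ _).trans ?_
  rw [Finset.sum_filter]
  refine Finset.sum_le_sum fun m hm => ?_
  rw [mem_AA] at hm
  have h1 : (0 : ℝ) ≤ ((Nat.totient m : ℕ) : ℝ)⁻¹ := by positivity
  rw [abs_mul, abs_of_nonneg h1]
  refine (mul_le_mul_of_nonneg_left (I_le hm.2.1) h1).trans_eq ?_
  rw [mul_ite, mul_one, mul_zero]

theorem RR_zero {Z s h k : ℕ} (hZ : 2 ≤ Z) (hh : 1 ≤ h) (hk : k ∉ AA Z s) : RR Z s h k = 0 := by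
  have h1 := RR_le (Z := Z) (s := s) (h := h) (k := k) hZ hh
  have h2 : (AA Z s).filter (fun m => k ∣ m ∧ m / k ∣ h) = ∅ := by
    rw [Finset.filter_eq_empty_iff]
    rintro m hm ⟨h3, _⟩
    exact hk (AA_dvd hm h3)
  rw [h2, Finset.sum_empty, mul_zero] at h1
  exact abs_eq_zero.1 (le_antisymm h1 (abs_nonneg _))

theorem RR_bound {Z s h k : ℕ} (hZ : 2 ≤ Z) (hh : 1 ≤ h) (hk : k ∈ AA Z s) :
    |RR Z s h k| ≤ (GG Z s)⁻¹ * (((Nat.totient k : ℕ) : ℝ)⁻¹ * PI s h) := by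
  have hG := GG_pos (s := s) hZ
  refine (RR_le hZ hh).trans (mul_le_mul_of_nonneg_left ?_ (inv_pos.2 hG).le)
  rw [mem_AA] at hk
  have hk0 : 0 < k := hk.1.1
  have h1 : ∀ m ∈ (AA Z s).filter (fun m => k ∣ m ∧ m / k ∣ h),
      ((Nat.totient m : ℕ) : ℝ)⁻¹ =
        ((Nat.totient k : ℕ) : ℝ)⁻¹ * ((Nat.totient (m / k) : ℕ) : ℝ)⁻¹ := by
    intro m hm
    rw [mem_filter, mem_AA] at hm
    obtain ⟨f, rfl⟩ := hm.2.1
    rw [Nat.mul_div_cancel_left f hk0, Nat.totient_mul (Nat.coprime_of_squarefree_mul hm.1.2.1)]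
    push_cast
    rw [mul_inv]
  rw [Finset.sum_congr rfl h1, ← Finset.mul_sum]
  refine mul_le_mul_of_nonneg_left ?_ (by positivity)
  refine le_trans ?_ (sum_D_le s h hh)
  refine sum_le_of_inj _ _ (fun m : ℕ => m / k) ?_ ?_
    (fun f => ((Nat.totient f : ℕ) : ℝ)⁻¹) fun _ _ => by positivity
  · intro m hm
    rw [mem_filter, mem_AA] at hm
    rw [mem_filter, Nat.mem_divisors]
    have h2 : m / k ∣ m := Nat.div_dvd_of_dvd hm.2.1
    exact ⟨⟨hm.2.2, by omega⟩, hm.1.2.1.squarefree_of_dvd h2, hm.1.2.2.coprime_dvd_left h2⟩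
  · intro m hm m' hm' hmm
    rw [mem_filter] at hm hm'
    rw [← Nat.mul_div_cancel' hm.2.1, ← Nat.mul_div_cancel' hm'.2.1, hmm]

theorem GG_ge {Z s : ℕ} (hs : 1 ≤ s) :
    ((Nat.totient s : ℝ) / s) * Real.log ((Z : ℝ) + 1) ≤ GG Z s := by
  classical
  refine (Pool.Agent.H95R2.Leh.ApS.coprime_sum_ge hs Z).trans ?_
  set P : Finset ℕ := (Finset.Icc 1 Z).filter (fun p => p.Prime ∧ ¬ p ∣ s) with hPdef
  have e1 : ∑ n ∈ (Finset.Icc 1 Z).filter (fun n => Nat.Coprime n s), (n : ℝ)⁻¹ =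
      Pool.Agent.H307R2.OP.BT4P.SS P Z := by
    unfold Pool.Agent.H307R2.OP.BT4P.SS
    apply Finset.sum_congr _ fun _ _ => rfl
    ext n
    simp only [Finset.mem_filter, Finset.mem_Icc]
    constructor
    · rintro ⟨h1, h2⟩
      refine ⟨h1, fun p hp => ?_⟩
      rw [Nat.mem_primeFactors] at hp
      rw [hPdef, Finset.mem_filter, Finset.mem_Icc]
      refine ⟨⟨hp.1.one_lt.le, (Nat.le_of_dvd (by omega) hp.2.1).trans h1.2⟩, hp.1, fun h => ?_⟩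
      have := Nat.dvd_gcd hp.2.1 h
      rw [h2] at this
      exact hp.1.one_lt.ne' (Nat.dvd_one.mp this)
    · rintro ⟨h1, h2⟩
      refine ⟨h1, ?_⟩
      rw [Nat.coprime_iff_gcd_eq_one]
      by_contra hne
      obtain ⟨p, hp, hpd⟩ := Nat.exists_prime_and_dvd hne
      have h3 : p ∈ P := h2 (Nat.mem_primeFactors.2 ⟨hp, hpd.trans (Nat.gcd_dvd_left _ _), by omega⟩)
      rw [hPdef, Finset.mem_filter] at h3
      exact h3.2.2 (hpd.trans (Nat.gcd_dvd_right _ _))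
  rw [e1]
  refine (Pool.Agent.H307R2.OP.BT4P.SS_le_GG P (fun p hp => (Finset.mem_filter.1 hp).2.1) Z).trans ?_
  unfold Pool.Agent.H307R2.OP.BT4P.GG GG
  refine Finset.sum_le_sum_of_subset_of_nonneg ?_ fun _ _ _ => by positivity
  intro l hl
  rw [Finset.mem_filter, Finset.mem_Icc] at hl
  rw [mem_AA]
  refine ⟨hl.1, hl.2.1, ?_⟩
  rw [Nat.coprime_iff_gcd_eq_one]
  by_contra hne
  obtain ⟨p, hp, hpd⟩ := Nat.exists_prime_and_dvd hne
  have h3 : p ∈ P := hl.2.2 (Nat.mem_primeFactors.2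
    ⟨hp, hpd.trans (Nat.gcd_dvd_left _ _), by omega⟩)
  rw [hPdef, Finset.mem_filter] at h3
  exact h3.2.2 (hpd.trans (Nat.gcd_dvd_right _ _))

theorem lam_main {Z s : ℕ} (hZ : 2 ≤ Z) (hs : 1 ≤ s) (h : ℕ) (hh : 1 ≤ h) :
    ∑ d ∈ (Icc 1 (Z ^ 2)).filter (fun d => Nat.Coprime d h), lam Z s d / d ≤
      ((s : ℝ) / Nat.totient s) / Real.log Z *
        ∏ p ∈ h.primeFactors.filter (fun p => ¬ p ∣ s), (1 + 1 / ((p : ℝ) - 1)) ^ 2 := by
  rw [main_form, Finset.prod_pow]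
  have hG := GG_pos (s := s) hZ
  have hPI := PI_nonneg s h
  have h1 : ∑ j ∈ Icc 1 Z, ((Nat.totient j : ℕ) : ℝ) * RR Z s h j ^ 2 =
      ∑ j ∈ AA Z s, ((Nat.totient j : ℕ) : ℝ) * RR Z s h j ^ 2 := by
    symm
    refine Finset.sum_subset (Finset.filter_subset _ _) fun j _ hj => ?_
    rw [RR_zero hZ hh hj]
    ring
  rw [h1]
  have h2 : ∀ j ∈ AA Z s, ((Nat.totient j : ℕ) : ℝ) * RR Z s h j ^ 2 ≤
      (GG Z s)⁻¹ ^ 2 * PI s h ^ 2 * ((Nat.totient j : ℕ) : ℝ)⁻¹ := by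
    intro j hj
    have h3 := RR_bound hZ hh hj
    have h4 : RR Z s h j ^ 2 ≤ ((GG Z s)⁻¹ * (((Nat.totient j : ℕ) : ℝ)⁻¹ * PI s h)) ^ 2 := by
      rw [← sq_abs]
      exact pow_le_pow_left₀ (abs_nonneg _) h3 2
    have h5 : (0 : ℝ) < ((Nat.totient j : ℕ) : ℝ) := by
      have := Nat.totient_pos.2 (mem_AA.1 hj).1.1
      exact_mod_cast this
    calc ((Nat.totient j : ℕ) : ℝ) * RR Z s h j ^ 2 ≤
        ((Nat.totient j : ℕ) : ℝ) * ((GG Z s)⁻¹ * (((Nat.totient j : ℕ) : ℝ)⁻¹ * PI s h)) ^ 2 := by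
          gcongr
      _ = (GG Z s)⁻¹ ^ 2 * PI s h ^ 2 * ((Nat.totient j : ℕ) : ℝ)⁻¹ := by
          field_simp
  refine (Finset.sum_le_sum h2).trans ?_
  rw [← Finset.mul_sum]
  change (GG Z s)⁻¹ ^ 2 * PI s h ^ 2 * GG Z s ≤ _ * PI s h ^ 2
  have h6 : (GG Z s)⁻¹ ^ 2 * PI s h ^ 2 * GG Z s = (GG Z s)⁻¹ * PI s h ^ 2 := by
    field_simp
  rw [h6]
  refine mul_le_mul_of_nonneg_right ?_ (by positivity)
  have hs0 : (0 : ℝ) < s := by exact_mod_cast hs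
  have ht0 : (0 : ℝ) < (Nat.totient s : ℝ) := by exact_mod_cast Nat.totient_pos.2 hs
  have hZ0 : (1 : ℝ) < Z := by exact_mod_cast (by omega : 1 < Z)
  have hl0 : 0 < Real.log Z := Real.log_pos hZ0
  have h7 : ((Nat.totient s : ℝ) / s) * Real.log Z ≤ GG Z s := by
    refine le_trans ?_ (GG_ge hs)
    refine mul_le_mul_of_nonneg_left ?_ (by positivity)
    exact Real.log_le_log (by linarith) (by linarith)
  have h8 : (GG Z s)⁻¹ ≤ (((Nat.totient s : ℝ) / s) * Real.log Z)⁻¹ :=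
    inv_anti₀ (by positivity) h7
  refine h8.trans_eq ?_
  rw [mul_inv, inv_div]
  rfl

end Pool.Agent.H262R4.FR.TS1

namespace Pool.Agent.H262R4.FR

theorem t_S1 : P_S1 := by
  intro Z s hZ hs
  refine ⟨TS1.lam Z s, fun d hd => TS1.lam_supp hd, TS1.lam_bd hZ, fun n _ => ?_,
    fun p hp hpZ => TS1.lam_prime hZ p hp hpZ, fun h hh => TS1.lam_main hZ hs h hh⟩
  rw [TS1.sq_form]
  exact sq_nonneg _

end Pool.Agent.H262R4.FR
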