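import Pool.Agent.H262R4.FR.Stubs
import Pool.Agent.H442R2.KF.Inc
import Pool.Agent.H442R2.KF.Cls
import Pool.Agent.H442R2.KF.Kfb
import Pool.Agent.H510R2.Div

/-! FR project, task W1: incomplete Kloosterman sums with a gcd. -/

set_option autoImplicit false

namespace Pool.Agent.H262R4.FR

open Finset
open Pool.Agent.H442R2.KF (e kf Wt tau)

namespace TW1

theorem kf_red (B B' : ℤ) (q g q' : ℕ) (hq0 : 0 < q) (hqq : q = g * q') (hB : B = g * B')
    (m : ℤ) (hm : Int.gcd m q = 1) : kf B m q = kf B' m q' := by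
  have hg0 : 0 < g := Nat.pos_of_ne_zero (by rintro rfl; simp at hqq; omega)
  have hq0' : 0 < q' := Nat.pos_of_ne_zero (by rintro rfl; simp at hqq; omega)
  obtain ⟨x, hx, -⟩ := Pool.Agent.H442R2.KF.TaskA.unit_inv q hq0 m
    (Int.isCoprime_iff_gcd_eq_one.2 hm)
  have h1 : (q : ℤ) ∣ m * x - 1 := by
    rw [← ZMod.intCast_zmod_eq_zero_iff_dvd, Int.cast_sub, hx, Int.cast_one, sub_self]
  have h2 : (q' : ℤ) ∣ m * x - 1 := by
    refine dvd_trans ?_ h1
    rw [hqq]
    exact ⟨g, by push_cast; ring⟩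
  have hx' : ((m * x : ℤ) : ZMod q') = 1 := by
    rw [← ZMod.intCast_zmod_eq_zero_iff_dvd, Int.cast_sub, Int.cast_one, sub_eq_zero] at h2
    exact h2
  rw [Pool.Agent.H442R2.KF.kf_of_inv q hq0 B m x hx,
    Pool.Agent.H442R2.KF.kf_of_inv q' hq0' B' m x hx']
  congr 1
  have hgr : (g : ℝ) ≠ 0 := by exact_mod_cast hg0.ne'
  have hqr : (q' : ℝ) ≠ 0 := by exact_mod_cast hq0'.ne'
  rw [hqq, hB]
  push_cast
  field_simp

theorem moebius_gcd (g : ℕ) (hg : 0 < g) (m : ℤ) :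
    ∑ f ∈ g.divisors, (if m ≡ 0 [ZMOD (f : ℤ)] then (ArithmeticFunction.moebius f : ℤ) else 0) =
      if Int.gcd m g = 1 then 1 else 0 := by
  have hd : Int.gcd m g ≠ 0 := by
    intro h
    rw [Int.gcd_eq_zero_iff] at h
    have := h.2
    omega
  have h1 : g.divisors.filter (fun f : ℕ => m ≡ 0 [ZMOD (f : ℤ)]) = (Int.gcd m g).divisors := by
    ext f
    rw [mem_filter, Nat.mem_divisors, Nat.mem_divisors, Int.modEq_zero_iff_dvd]
    constructor
    · rintro ⟨⟨h2, -⟩, h3⟩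
      refine ⟨?_, hd⟩
      have h4 : (f : ℤ) ∣ (g : ℤ) := by exact_mod_cast h2
      have h5 := Int.dvd_coe_gcd h3 h4
      exact_mod_cast h5
    · rintro ⟨h2, -⟩
      have h3 : (f : ℤ) ∣ (Int.gcd m g : ℤ) := by exact_mod_cast h2
      refine ⟨⟨?_, hg.ne'⟩, h3.trans (Int.gcd_dvd_left ..)⟩
      have h4 : (f : ℤ) ∣ (g : ℤ) := h3.trans (Int.gcd_dvd_right ..)
      exact_mod_cast h4
  rw [← Finset.sum_filter, h1, ← ArithmeticFunction.coe_mul_zeta_apply,
    ArithmeticFunction.moebius_mul_coe_zeta, ArithmeticFunction.one_apply]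

theorem two_pow_le (n : ℕ) (hn : n ≠ 0) : 2 ^ n.primeFactors.card ≤ n.divisors.card := by
  rw [Nat.card_divisors hn, ← Finset.prod_const]
  refine Finset.prod_le_prod' fun p hp => ?_
  have h1 := (Nat.mem_primeFactors.1 hp)
  have h2 := h1.1.factorization_pos_of_dvd hn h1.2.1
  omega

/-- decomposition of the summand -/
theorem g_decomp (B B' : ℤ) (q g q' : ℕ) (hq0 : 0 < q) (hqq : q = g * q') (hB : B = g * B')
    (m : ℤ) : (if Int.gcd m q = 1 then kf B m q else 0) =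
      ∑ f ∈ g.divisors, ((ArithmeticFunction.moebius f : ℤ) : ℂ) *
        (if (m ≡ 0 [ZMOD (f : ℤ)] ∧ Int.gcd m q' = 1) then kf B' m q' else 0) := by
  have hg0 : 0 < g := Nat.pos_of_ne_zero (by rintro rfl; simp at hqq; omega)
  have hmul : Int.gcd m q = 1 ↔ Int.gcd m g = 1 ∧ Int.gcd m q' = 1 := by
    rw [← Int.isCoprime_iff_gcd_eq_one, ← Int.isCoprime_iff_gcd_eq_one,
      ← Int.isCoprime_iff_gcd_eq_one, hqq]
    push_cast
    exact IsCoprime.mul_right_iff
  have h0 := moebius_gcd g hg0 m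
  have h1 := congrArg (Int.cast : ℤ → ℂ) h0
  rw [Int.cast_sum] at h1
  by_cases h2 : Int.gcd m q' = 1
  · have h3 : ∑ f ∈ g.divisors, ((ArithmeticFunction.moebius f : ℤ) : ℂ) *
        (if (m ≡ 0 [ZMOD (f : ℤ)] ∧ Int.gcd m q' = 1) then kf B' m q' else 0) =
        (∑ f ∈ g.divisors, (((if m ≡ 0 [ZMOD (f : ℤ)] then
          (ArithmeticFunction.moebius f : ℤ) else 0 : ℤ)) : ℂ)) * kf B' m q' := by
      rw [Finset.sum_mul]
      refine Finset.sum_congr rfl fun f _ => ?_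
      by_cases h4 : m ≡ 0 [ZMOD (f : ℤ)]
      · simp [h4, h2]
      · simp [h4]
    rw [h3, h1]
    by_cases h5 : Int.gcd m g = 1
    · rw [if_pos (hmul.2 ⟨h5, h2⟩), if_pos h5, Int.cast_one, one_mul]
      exact kf_red B B' q g q' hq0 hqq hB m (hmul.2 ⟨h5, h2⟩)
    · rw [if_neg (fun h => h5 (hmul.1 h).1), if_neg h5, Int.cast_zero, zero_mul]
  · rw [if_neg (fun h => h2 (hmul.1 h).2)]
    symm
    refine Finset.sum_eq_zero fun f _ => ?_
    rw [if_neg (fun h => h2 h.2), mul_zero]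

/-- sums over intervals -/
theorem interval (B : ℤ) (q : ℕ) (hq : Squarefree q) (hB : B ≠ 0) (A y : ℤ) (hAy : A ≤ y) :
    ‖∑ m ∈ Icc A y, (if Int.gcd m q = 1 then kf B m q else 0)‖ ≤
      (q.divisors.card : ℝ) * (2 + Real.log q) *
        (Real.sqrt q + ((y : ℝ) - A + 1) * Real.sqrt ((Int.gcd B q : ℝ) / q)) := by
  have hq0 : 0 < q := Nat.pos_of_ne_zero hq.ne_zero
  obtain ⟨g, hgdef⟩ : ∃ g : ℕ, g = Int.gcd B q := ⟨_, rfl⟩
  have hg0 : 0 < g := by
    rw [hgdef]
    exact Nat.pos_of_ne_zero fun h => hB (Int.gcd_eq_zero_iff.1 h).1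
  obtain ⟨q', hq'⟩ : g ∣ q := by
    have h1 : (g : ℤ) ∣ (q : ℤ) := by rw [hgdef]; exact Int.gcd_dvd_right ..
    exact_mod_cast h1
  obtain ⟨B', hB'⟩ : (g : ℤ) ∣ B := by rw [hgdef]; exact Int.gcd_dvd_left ..
  have hq0' : 0 < q' := Nat.pos_of_ne_zero (by rintro rfl; simp at hq'; omega)
  have hsq' : Squarefree q' := hq.squarefree_of_dvd ⟨g, by rw [hq']; ring⟩
  have hcopg : Nat.Coprime g q' := by
    rw [hq'] at hq
    exact Nat.coprime_of_squarefree_mul hq
  have hcB : Int.gcd B' q' = 1 := by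
    have h1 : Int.gcd ((g : ℤ) * B') ((g : ℤ) * q') = g * Int.gcd B' q' := by
      rw [Int.gcd_mul_left, Int.natAbs_natCast]
    have h2 : Int.gcd ((g : ℤ) * B') ((g : ℤ) * q') = g := by
      have h3 : ((g : ℤ) * q') = (q : ℤ) := by rw [hq']; push_cast; ring
      rw [← hB', h3, ← hgdef]
    rw [h2] at h1
    have h4 : g * 1 = g * Int.gcd B' q' := by rw [mul_one]; exact h1
    exact (Nat.eq_of_mul_eq_mul_left hg0 h4).symm
  have hqr : (0 : ℝ) < q := by exact_mod_cast hq0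
  have hqr' : (0 : ℝ) < q' := by exact_mod_cast hq0'
  have hgr : (0 : ℝ) < g := by exact_mod_cast hg0
  have hAy' : (0 : ℝ) ≤ (y : ℝ) - A := by
    have : (A : ℝ) ≤ y := by exact_mod_cast hAy
    linarith
  have hstep : ∀ f ∈ g.divisors,
      ‖∑ m ∈ Icc A y, (if (m ≡ 0 [ZMOD (f : ℤ)] ∧ Int.gcd m q' = 1) then kf B' m q' else 0)‖ ≤
        2 ^ q'.primeFactors.card * Real.sqrt q' * (((y : ℝ) - A) / q' + 2 + Real.log q') := by
    intro f hf
    have hfg := Nat.dvd_of_mem_divisors hf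
    have hf0 : 0 < f := Nat.pos_of_dvd_of_pos hfg hg0
    have hcf : Nat.Coprime q' f := (hcopg.symm).coprime_dvd_right hfg
    have h1 := Pool.Agent.H442R2.KF.incomplete q' f hsq' hq0' hf0 hcf B' hcB 0 A y hAy
    rw [Finset.sum_filter] at h1
    refine h1.trans ?_
    have hf1 : (1 : ℝ) ≤ f := by exact_mod_cast hf0
    have h2 : ((y : ℝ) - A) / (f * q') ≤ ((y : ℝ) - A) / q' := by
      apply div_le_div_of_nonneg_left hAy' hqr'
      nlinarith
    have h3 : 0 ≤ (2 : ℝ) ^ q'.primeFactors.card * Real.sqrt q' := by positivity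
    exact mul_le_mul_of_nonneg_left (by linarith) h3
  have hlog' : 0 ≤ Real.log q' := Real.log_nonneg (by exact_mod_cast hq0')
  have hbound0 : 0 ≤ 2 ^ q'.primeFactors.card * Real.sqrt q' *
      (((y : ℝ) - A) / q' + 2 + Real.log q') := by positivity
  have hmain : ‖∑ m ∈ Icc A y, (if Int.gcd m q = 1 then kf B m q else 0)‖ ≤
      (g.divisors.card : ℝ) * (2 ^ q'.primeFactors.card * Real.sqrt q' *
        (((y : ℝ) - A) / q' + 2 + Real.log q')) := by
    have h1 : ∑ m ∈ Icc A y, (if Int.gcd m q = 1 then kf B m q else 0) =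
        ∑ f ∈ g.divisors, ((ArithmeticFunction.moebius f : ℤ) : ℂ) * ∑ m ∈ Icc A y,
          (if (m ≡ 0 [ZMOD (f : ℤ)] ∧ Int.gcd m q' = 1) then kf B' m q' else 0) := by
      rw [Finset.sum_congr rfl fun m _ => g_decomp B B' q g q' hq0 hq' hB' m, Finset.sum_comm]
      refine Finset.sum_congr rfl fun f _ => ?_
      rw [Finset.mul_sum]
    rw [h1]
    refine (norm_sum_le _ _).trans ?_
    calc ∑ f ∈ g.divisors, ‖((ArithmeticFunction.moebius f : ℤ) : ℂ) * ∑ m ∈ Icc A y,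
          (if (m ≡ 0 [ZMOD (f : ℤ)] ∧ Int.gcd m q' = 1) then kf B' m q' else 0)‖
        ≤ ∑ _f ∈ g.divisors, (2 ^ q'.primeFactors.card * Real.sqrt q' *
            (((y : ℝ) - A) / q' + 2 + Real.log q')) := by
          refine Finset.sum_le_sum fun f hf => ?_
          rw [norm_mul]
          have h2 : ‖((ArithmeticFunction.moebius f : ℤ) : ℂ)‖ ≤ 1 := by
            rw [Complex.norm_intCast]
            exact_mod_cast ArithmeticFunction.abs_moebius_le_one
          calc _ ≤ 1 * (2 ^ q'.primeFactors.card * Real.sqrt q' *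
                (((y : ℝ) - A) / q' + 2 + Real.log q')) :=
                mul_le_mul h2 (hstep f hf) (norm_nonneg _) zero_le_one
            _ = _ := one_mul _
      _ = _ := by rw [Finset.sum_const, nsmul_eq_mul]
  refine hmain.trans ?_
  -- the constants
  have hτ : (g.divisors.card : ℝ) * 2 ^ q'.primeFactors.card ≤ (q.divisors.card : ℝ) := by
    have h1 := two_pow_le q' hq0'.ne'
    have h2 : q.divisors.card = g.divisors.card * q'.divisors.card := by
      rw [hq', hcopg.card_divisors_mul]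
    rw [h2]
    push_cast
    have h3 : (2 : ℝ) ^ q'.primeFactors.card ≤ (q'.divisors.card : ℝ) := by exact_mod_cast h1
    exact mul_le_mul_of_nonneg_left h3 (Nat.cast_nonneg _)
  have hlog : Real.log q' ≤ Real.log q := by
    apply Real.log_le_log hqr'
    have : q' ≤ q := Nat.le_of_dvd hq0 ⟨g, by rw [hq']; ring⟩
    exact_mod_cast this
  have hs1 : Real.sqrt q' ≤ Real.sqrt q := by
    apply Real.sqrt_le_sqrt
    have : q' ≤ q := Nat.le_of_dvd hq0 ⟨g, by rw [hq']; ring⟩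
    exact_mod_cast this
  have hs2 : Real.sqrt ((g : ℝ) / q) = 1 / Real.sqrt q' := by
    have h1 : (g : ℝ) / q = 1 / q' := by
      rw [hq']
      push_cast
      field_simp
    rw [h1, Real.sqrt_div zero_le_one, Real.sqrt_one]
  have hs3 : Real.sqrt q' * (1 / q') = 1 / Real.sqrt q' := by
    have h1 : Real.sqrt q' ≠ 0 := (Real.sqrt_pos.2 hqr').ne'
    have h2 : (q' : ℝ) = Real.sqrt q' * Real.sqrt q' := (Real.mul_self_sqrt hqr'.le).symm
    rw [mul_one_div, div_eq_div_iff hqr'.ne' h1, one_mul]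
    exact h2.symm
  rw [← hgdef, hs2]
  have hL0 : 0 ≤ Real.log q := hlog'.trans hlog
  have hinv0 : 0 ≤ 1 / Real.sqrt q' := by positivity
  have hin : Real.sqrt q' * (((y : ℝ) - A) / q' + 2 + Real.log q') ≤
      (2 + Real.log q) * (Real.sqrt q + ((y : ℝ) - A + 1) * (1 / Real.sqrt q')) := by
    have e1 : Real.sqrt q' * (((y : ℝ) - A) / q' + 2 + Real.log q') =
        ((y : ℝ) - A) * (1 / Real.sqrt q') + Real.sqrt q' * (2 + Real.log q') := by
      rw [← hs3]; ring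
    rw [e1]
    have h1 : Real.sqrt q' * (2 + Real.log q') ≤ Real.sqrt q * (2 + Real.log q) :=
      mul_le_mul hs1 (by linarith) (by linarith) (Real.sqrt_nonneg _)
    have h2 : ((y : ℝ) - A) * (1 / Real.sqrt q') ≤
        (2 + Real.log q) * (((y : ℝ) - A + 1) * (1 / Real.sqrt q')) := by
      have h3 : ((y : ℝ) - A) * (1 / Real.sqrt q') ≤ ((y : ℝ) - A + 1) * (1 / Real.sqrt q') :=
        mul_le_mul_of_nonneg_right (by linarith) hinv0
      have h4 : 0 ≤ ((y : ℝ) - A + 1) * (1 / Real.sqrt q') := mul_nonneg (by linarith) hinv0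
      nlinarith
    nlinarith
  have hR0 : 0 ≤ (2 + Real.log q) * (Real.sqrt q + ((y : ℝ) - A + 1) * (1 / Real.sqrt q')) := by
    have : 0 ≤ ((y : ℝ) - A + 1) * (1 / Real.sqrt q') := mul_nonneg (by linarith) hinv0
    have := Real.sqrt_nonneg (q : ℝ)
    positivity
  calc (g.divisors.card : ℝ) * (2 ^ q'.primeFactors.card * Real.sqrt q' *
        (((y : ℝ) - A) / q' + 2 + Real.log q'))
      = ((g.divisors.card : ℝ) * 2 ^ q'.primeFactors.card) * (Real.sqrt q' *
        (((y : ℝ) - A) / q' + 2 + Real.log q')) := by ring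
    _ ≤ ((g.divisors.card : ℝ) * 2 ^ q'.primeFactors.card) * ((2 + Real.log q) *
        (Real.sqrt q + ((y : ℝ) - A + 1) * (1 / Real.sqrt q'))) :=
        mul_le_mul_of_nonneg_left hin
          (mul_nonneg (Nat.cast_nonneg _) (pow_nonneg (by norm_num) _))
    _ ≤ (q.divisors.card : ℝ) * ((2 + Real.log q) *
        (Real.sqrt q + ((y : ℝ) - A + 1) * (1 / Real.sqrt q'))) :=
        mul_le_mul_of_nonneg_right hτ hR0
    _ = _ := by ring

end TW1

theorem t_W1 : P_W1 := by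
  intro ε hε
  obtain ⟨C1, hC1, hC1'⟩ := Pool.Agent.H510R2.divisor_bound (ε / 2) (by positivity)
  refine ⟨C1 * (2 + 2 / ε), by positivity, ?_⟩
  intro q A1 A2 B Ω Λ hq hB hA hΛ hΩ hL
  have hq0 : 0 < q := Nat.pos_of_ne_zero hq.ne_zero
  have hq1 : (1 : ℝ) ≤ q := by exact_mod_cast hq0
  obtain ⟨W, hW⟩ : ∃ W : ℝ, W = (C1 * (2 + 2 / ε)) * (q : ℝ) ^ ε *
      (Real.sqrt q + ((A2 : ℝ) - A1 + 1) * Real.sqrt ((Int.gcd B q : ℝ) / q)) := ⟨_, rfl⟩
  have hconst : (q.divisors.card : ℝ) * (2 + Real.log q) ≤ (C1 * (2 + 2 / ε)) * (q : ℝ) ^ ε := by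
    have h1 := hC1' q hq0
    have h2 : 1 ≤ (q : ℝ) ^ (ε / 2) := Real.one_le_rpow hq1 (by positivity)
    have h3 : Real.log q ≤ (q : ℝ) ^ (ε / 2) / (ε / 2) :=
      Real.log_le_rpow_div (by linarith) (by positivity)
    have h4 : 2 + Real.log q ≤ (2 + 2 / ε) * (q : ℝ) ^ (ε / 2) := by
      have e1 : (q : ℝ) ^ (ε / 2) / (ε / 2) = (2 / ε) * (q : ℝ) ^ (ε / 2) := by
        field_simp
      rw [e1] at h3
      linarith
    have h5 : (q : ℝ) ^ ε = (q : ℝ) ^ (ε / 2) * (q : ℝ) ^ (ε / 2) := by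
      rw [← Real.rpow_add (by linarith)]
      congr 1
      ring
    have h6 : 0 ≤ 2 + Real.log q := by
      have := Real.log_nonneg hq1
      linarith
    calc (q.divisors.card : ℝ) * (2 + Real.log q)
        ≤ (C1 * (q : ℝ) ^ (ε / 2)) * ((2 + 2 / ε) * (q : ℝ) ^ (ε / 2)) :=
          mul_le_mul h1 h4 h6 (by positivity)
      _ = _ := by rw [h5]; ring
  have hAr : (A1 : ℝ) ≤ A2 := by exact_mod_cast hA
  have key := Pool.Agent.H442R2.KF.TaskD.abel (A1 : ℤ) (A2 : ℤ) (by exact_mod_cast hA) Ω Λ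
    (by rw [Int.cast_natCast, Int.cast_natCast]; exact hΩ)
    (by rw [Int.cast_natCast, Int.cast_natCast]; exact hL)
    (fun m => if Int.gcd m q = 1 then kf B m q else 0) W (by
      intro y hy1 hy2
      refine (TW1.interval B q hq hB (A1 : ℤ) y hy1).trans ?_
      rw [hW]
      have hy2' : (y : ℝ) ≤ A2 := by exact_mod_cast hy2
      have hy1' : (A1 : ℝ) ≤ y := by exact_mod_cast hy1
      have h1 : Real.sqrt q + ((y : ℝ) - ((A1 : ℤ) : ℝ) + 1) * Real.sqrt ((Int.gcd B q : ℝ) / q) ≤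
          Real.sqrt q + ((A2 : ℝ) - A1 + 1) * Real.sqrt ((Int.gcd B q : ℝ) / q) := by
        have := Real.sqrt_nonneg ((Int.gcd B q : ℝ) / q)
        have h2 : ((y : ℝ) - ((A1 : ℤ) : ℝ) + 1) ≤ (A2 : ℝ) - A1 + 1 := by
          push_cast; linarith
        have := mul_le_mul_of_nonneg_right h2 this
        linarith
      have h3 : 0 ≤ Real.sqrt q + ((y : ℝ) - ((A1 : ℤ) : ℝ) + 1) *
          Real.sqrt ((Int.gcd B q : ℝ) / q) := by
        have h4 : 0 ≤ ((y : ℝ) - ((A1 : ℤ) : ℝ) + 1) := by push_cast; linarith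
        positivity
      exact mul_le_mul hconst h1 h3 (by positivity))
  have hsum : ∑ n ∈ (Icc A1 A2).filter (fun n => Nat.Coprime n q), Ω n * kf B (n : ℤ) q =
      ∑ m ∈ Icc (A1 : ℤ) (A2 : ℤ), Ω m * (if Int.gcd m q = 1 then kf B m q else 0) := by
    rw [Finset.sum_filter]
    have himg : (Icc (A1 : ℤ) (A2 : ℤ)) = (Icc A1 A2).image (fun n : ℕ => (n : ℤ)) := by
      ext m
      rw [mem_image]
      constructor
      · intro hm
        rw [mem_Icc] at hm
        refine ⟨m.toNat, ?_, by omega⟩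
        rw [mem_Icc]
        omega
      · rintro ⟨n, hn, rfl⟩
        rw [mem_Icc] at hn ⊢
        omega
    rw [himg, Finset.sum_image (fun a _ b _ h => by exact_mod_cast h)]
    refine Finset.sum_congr rfl fun n _ => ?_
    have h1 : Int.gcd (n : ℤ) q = 1 ↔ Nat.Coprime n q := by
      rw [Int.gcd_natCast_natCast]
    by_cases h2 : Nat.Coprime n q
    · rw [if_pos h2, if_pos (h1.2 h2)]
      push_cast
      rfl
    · rw [if_neg h2, if_neg (fun h => h2 (h1.1 h)), mul_zero]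
  rw [hsum]
  refine key.trans (le_of_eq ?_)
  rw [hW]
  push_cast
  ring

end Pool.Agent.H262R4.FR
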