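import Pool.Agent.H262R4.FR.Stubs
import Pool.Agent.H442R2.KF.Kfb
import Pool.Agent.H510R2.Div

/-!
FR project (helper262), task W2 (helper131): one block, Cauchy over `(e1, k)` and then Weil.
-/

set_option autoImplicit false

namespace Pool.Agent.H262R4.FR

open Finset
open Pool.Agent.H442R2.KF (e kf Wt tau)

namespace TW2

open Pool.Agent.H442R2.KF Pool.Agent.H442R2.KF.TaskA

/-! ### Products of Kloosterman fractions -/

theorem kf_combine (q r1 r2 m1 m2 p2 : ℕ) (hq : 2 ≤ q) (h1 : r1 * m2 = q) (h2 : r2 * m1 = q)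
    (hp : Nat.Coprime p2 q) (b1 b2 : ℤ) (hB : b1 * m2 - b2 * m1 ≠ 0) :
    ∃ B : ℤ, B ≠ 0 ∧ Int.gcd B q = Int.gcd (b1 * m2 - b2 * m1) q ∧
      ∀ e1 : ℕ, Nat.Coprime e1 q →
        kf b1 ((e1 * p2 : ℕ) : ℤ) r1 * (starRingEnd ℂ) (kf b2 ((e1 * p2 : ℕ) : ℤ) r2) =
          kf B (e1 : ℤ) q := by
  have hq0 : 0 < q := by omega
  have hr1 : 0 < r1 := Nat.pos_of_ne_zero (by rintro rfl; simp at h1; omega)
  have hr2 : 0 < r2 := Nat.pos_of_ne_zero (by rintro rfl; simp at h2; omega)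
  have hm1 : 0 < m1 := Nat.pos_of_ne_zero (by rintro rfl; simp at h2; omega)
  have hm2 : 0 < m2 := Nat.pos_of_ne_zero (by rintro rfl; simp at h1; omega)
  have hpc : IsCoprime (p2 : ℤ) (q : ℤ) := Nat.isCoprime_iff_coprime.2 hp
  obtain ⟨y, hy, -⟩ := unit_inv q hq0 p2 hpc
  have hyd : (q : ℤ) ∣ (p2 : ℤ) * y - 1 := by
    rw [← ZMod.intCast_zmod_eq_zero_iff_dvd, Int.cast_sub, hy]
    simp
  have hycop : IsCoprime y (q : ℤ) := by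
    obtain ⟨z, hz⟩ := hyd
    exact ⟨p2, -z, by linarith⟩
  have hy0 : y ≠ 0 := by
    rintro rfl
    simp only [mul_zero, zero_sub] at hyd
    have h3 := Int.le_of_dvd (by norm_num) ((Int.dvd_neg).1 hyd)
    omega
  refine ⟨(b1 * m2 - b2 * m1) * y, mul_ne_zero hB hy0, ?_, ?_⟩
  · have h3 : Int.gcd y q = 1 := Int.isCoprime_iff_gcd_eq_one.1 hycop
    rw [mul_comm, Int.gcd_comm, Int.gcd_comm _ (q : ℤ)]
    exact Int.gcd_mul_right_right_of_gcd_eq_one (by rw [Int.gcd_comm]; exact h3)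
  · intro e1 he1
    have hec : IsCoprime (e1 : ℤ) (q : ℤ) := Nat.isCoprime_iff_coprime.2 he1
    obtain ⟨x, hx, -⟩ := unit_inv q hq0 e1 hec
    have hxd : (q : ℤ) ∣ (e1 : ℤ) * x - 1 := by
      rw [← ZMod.intCast_zmod_eq_zero_iff_dvd, Int.cast_sub, hx]
      simp
    have hxy : (q : ℤ) ∣ ((e1 * p2 : ℕ) : ℤ) * (x * y) - 1 := by
      have h3 : ((e1 * p2 : ℕ) : ℤ) * (x * y) - 1 =
          ((e1 : ℤ) * x - 1) * (p2 * y) + (p2 * y - 1) := by push_cast; ring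
      rw [h3]
      exact dvd_add (Dvd.dvd.mul_right hxd _) hyd
    have hr1d : (r1 : ℤ) ∣ ((e1 * p2 : ℕ) : ℤ) * (x * y) - 1 :=
      (Dvd.intro (m2 : ℤ) (by exact_mod_cast h1)).trans hxy
    have hr2d : (r2 : ℤ) ∣ ((e1 * p2 : ℕ) : ℤ) * (x * y) - 1 :=
      (Dvd.intro (m1 : ℤ) (by exact_mod_cast h2)).trans hxy
    have c1 : ((((e1 * p2 : ℕ) : ℤ) * (x * y) : ℤ) : ZMod r1) = 1 := by
      have := (ZMod.intCast_zmod_eq_zero_iff_dvd _ r1).2 hr1d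
      rwa [Int.cast_sub, Int.cast_one, sub_eq_zero] at this
    have c2 : ((((e1 * p2 : ℕ) : ℤ) * (x * y) : ℤ) : ZMod r2) = 1 := by
      have := (ZMod.intCast_zmod_eq_zero_iff_dvd _ r2).2 hr2d
      rwa [Int.cast_sub, Int.cast_one, sub_eq_zero] at this
    rw [kf_of_inv r1 hr1 b1 _ _ c1, kf_of_inv r2 hr2 b2 _ _ c2, kf_of_inv q hq0 _ _ _ hx, conj_e,
      ← e_add]
    congr 1
    have hr1' : (r1 : ℝ) ≠ 0 := by exact_mod_cast hr1.ne'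
    have hr2' : (r2 : ℝ) ≠ 0 := by exact_mod_cast hr2.ne'
    have hm1' : (m1 : ℝ) ≠ 0 := by exact_mod_cast hm1.ne'
    have hm2' : (m2 : ℝ) ≠ 0 := by exact_mod_cast hm2.ne'
    have hq1 : (q : ℝ) = r1 * m2 := by exact_mod_cast h1.symm
    have hq2 : (q : ℝ) = r2 * m1 := by exact_mod_cast h2.symm
    have e1' : (b1 : ℝ) * ((x * y : ℤ) : ℝ) / (r1 : ℝ) = (b1 * m2 * (x * y) : ℝ) / q := by
      rw [hq1]; push_cast; field_simp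
    have e2' : (b2 : ℝ) * ((x * y : ℤ) : ℝ) / (r2 : ℝ) = (b2 * m1 * (x * y) : ℝ) / q := by
      rw [hq2]; push_cast; field_simp
    rw [e1', e2']
    push_cast
    ring

/-! ### The gcd -/

theorem gcd_bound (b : ℤ) (j1 j2 m1 m2 p1 k v J : ℕ) (hb : b ≠ 0) (hj1 : 1 ≤ j1) (hj1' : j1 ≤ J)
    (hj2 : 1 ≤ j2) (hj2' : j2 ≤ J) (hm : Nat.Coprime m1 m2) (hp1 : 0 < p1) (hk : 0 < k)
    (hv : 0 < v) (hm1 : 0 < m1) (hm2 : 0 < m2) :
    (Int.gcd ((j1 : ℤ) * b * m2 - (j2 : ℤ) * b * m1) ((p1 * (k * (v * (m1 * m2))) : ℕ) : ℤ)) ≤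
      p1 * Int.gcd ((j1 : ℤ) * b * m2 - (j2 : ℤ) * b * m1) k * v * (b.natAbs * J) ^ 2 := by
  set B : ℤ := (j1 : ℤ) * b * m2 - (j2 : ℤ) * b * m1 with hB
  have hgd : ∀ n : ℕ, Int.gcd B (n : ℤ) = Nat.gcd B.natAbs n := fun n => rfl
  have hd1 : Nat.gcd B.natAbs m1 ≤ b.natAbs * J := by
    have h1 : (Nat.gcd B.natAbs m1 : ℤ) ∣ B := Int.natCast_dvd.2 (Nat.gcd_dvd_left _ _)
    have h2 : (Nat.gcd B.natAbs m1 : ℤ) ∣ (m1 : ℤ) := Int.natCast_dvd_natCast.2 (Nat.gcd_dvd_right _ _)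
    have h3 : (Nat.gcd B.natAbs m1 : ℤ) ∣ (j1 : ℤ) * b * m2 := by
      have : (j1 : ℤ) * b * m2 = B + (j2 : ℤ) * b * m1 := by rw [hB]; ring
      rw [this]
      exact dvd_add h1 (Dvd.dvd.mul_left h2 _)
    have h4 : IsCoprime (Nat.gcd B.natAbs m1 : ℤ) (m2 : ℤ) :=
      Nat.isCoprime_iff_coprime.2 (hm.coprime_dvd_left (Nat.gcd_dvd_right _ _))
    have h5 : (Nat.gcd B.natAbs m1 : ℤ) ∣ (j1 : ℤ) * b := h4.dvd_of_dvd_mul_right h3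
    have h6 : Nat.gcd B.natAbs m1 ∣ ((j1 : ℤ) * b).natAbs := Int.natCast_dvd.1 h5
    have h7 : ((j1 : ℤ) * b).natAbs = j1 * b.natAbs := by rw [Int.natAbs_mul, Int.natAbs_natCast]
    rw [h7] at h6
    have h8 := Nat.le_of_dvd (Nat.mul_pos hj1 (Int.natAbs_pos.2 hb)) h6
    calc _ ≤ j1 * b.natAbs := h8
      _ ≤ b.natAbs * J := by rw [mul_comm]; exact Nat.mul_le_mul_left _ hj1'
  have hd2 : Nat.gcd B.natAbs m2 ≤ b.natAbs * J := by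
    have h1 : (Nat.gcd B.natAbs m2 : ℤ) ∣ B := Int.natCast_dvd.2 (Nat.gcd_dvd_left _ _)
    have h2 : (Nat.gcd B.natAbs m2 : ℤ) ∣ (m2 : ℤ) := Int.natCast_dvd_natCast.2 (Nat.gcd_dvd_right _ _)
    have h3 : (Nat.gcd B.natAbs m2 : ℤ) ∣ (j2 : ℤ) * b * m1 := by
      have : (j2 : ℤ) * b * m1 = (j1 : ℤ) * b * m2 - B := by rw [hB]; ring
      rw [this]
      exact dvd_sub (Dvd.dvd.mul_left h2 _) h1
    have h4 : IsCoprime (Nat.gcd B.natAbs m2 : ℤ) (m1 : ℤ) :=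
      Nat.isCoprime_iff_coprime.2 (hm.symm.coprime_dvd_left (Nat.gcd_dvd_right _ _))
    have h5 : (Nat.gcd B.natAbs m2 : ℤ) ∣ (j2 : ℤ) * b := h4.dvd_of_dvd_mul_right h3
    have h6 : Nat.gcd B.natAbs m2 ∣ ((j2 : ℤ) * b).natAbs := Int.natCast_dvd.1 h5
    have h7 : ((j2 : ℤ) * b).natAbs = j2 * b.natAbs := by rw [Int.natAbs_mul, Int.natAbs_natCast]
    rw [h7] at h6
    have h8 := Nat.le_of_dvd (Nat.mul_pos hj2 (Int.natAbs_pos.2 hb)) h6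
    calc _ ≤ j2 * b.natAbs := h8
      _ ≤ b.natAbs * J := by rw [mul_comm]; exact Nat.mul_le_mul_left _ hj2'
  have hle : ∀ x y : ℕ, 0 < x → 0 < y →
      Nat.gcd B.natAbs (x * y) ≤ Nat.gcd B.natAbs x * Nat.gcd B.natAbs y := by
    intro x y hx hy
    exact Nat.le_of_dvd (Nat.mul_pos (Nat.gcd_pos_of_pos_right _ hx)
      (Nat.gcd_pos_of_pos_right _ hy)) (Nat.gcd_mul_right_dvd_mul_gcd _ _ _)
  have hle' : ∀ x : ℕ, 0 < x → Nat.gcd B.natAbs x ≤ x := fun x hx =>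
    Nat.le_of_dvd hx (Nat.gcd_dvd_right _ _)
  rw [hgd, hgd]
  calc Nat.gcd B.natAbs (p1 * (k * (v * (m1 * m2))))
      ≤ Nat.gcd B.natAbs p1 * Nat.gcd B.natAbs (k * (v * (m1 * m2))) := hle _ _ hp1 (by positivity)
    _ ≤ p1 * (Nat.gcd B.natAbs k * Nat.gcd B.natAbs (v * (m1 * m2))) :=
        Nat.mul_le_mul (hle' _ hp1) (hle _ _ hk (by positivity))
    _ ≤ p1 * (Nat.gcd B.natAbs k * (Nat.gcd B.natAbs v * Nat.gcd B.natAbs (m1 * m2))) := by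
        gcongr
        exact hle _ _ hv (by positivity)
    _ ≤ p1 * (Nat.gcd B.natAbs k * (v * (Nat.gcd B.natAbs m1 * Nat.gcd B.natAbs m2))) := by
        gcongr
        · exact hle' _ hv
        · exact hle _ _ hm1 hm2
    _ ≤ p1 * (Nat.gcd B.natAbs k * (v * ((b.natAbs * J) * (b.natAbs * J)))) := by gcongr
    _ = _ := by ring

/-! ### The inner sum -/

/-- one term -/
noncomputable def aa (p1 p2 : ℕ) (b : ℤ) (c2 : ℕ → ℕ → ℝ) (Φ : ℕ → ℝ → ℂ) (k l j e1 : ℕ) : ℂ :=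
  if Nat.Coprime (e1 * p2) (p1 * (k * l)) then
    ((c2 k l : ℝ) : ℂ) * (Φ j ((e1 : ℝ) * k * l) *
      kf ((j : ℤ) * b) ((e1 * p2 : ℕ) : ℤ) (p1 * (k * l)))
  else 0

theorem norm_aa_le (p1 p2 : ℕ) (b : ℤ) (c2 : ℕ → ℕ → ℝ) (Φ : ℕ → ℝ → ℂ) (k l j e1 : ℕ)
    (hc : |c2 k l| ≤ 1) (hΦ : ‖Φ j ((e1 : ℝ) * k * l)‖ ≤ 1) :
    ‖aa p1 p2 b c2 Φ k l j e1‖ ≤ 1 := by
  unfold aa
  split_ifs
  · rw [norm_mul, norm_mul, norm_kf, mul_one, Complex.norm_real, Real.norm_eq_abs]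
    calc _ ≤ (1 : ℝ) * 1 := mul_le_mul hc hΦ (norm_nonneg _) zero_le_one
      _ = 1 := one_mul 1
  · simp

/-- the conclusion of `W1` -/
def W1c (ε C : ℝ) : Prop := ∀ (q A1 A2 : ℕ) (B : ℤ) (Ω : ℝ → ℂ) (Λ : ℝ),
    Squarefree q → B ≠ 0 → A1 ≤ A2 → 0 ≤ Λ →
    (∀ s ∈ Set.Icc (A1 : ℝ) A2, ‖Ω s‖ ≤ 1) →
    (∀ s ∈ Set.Icc (A1 : ℝ) A2, ∀ s' ∈ Set.Icc (A1 : ℝ) A2, ‖Ω s - Ω s'‖ ≤ Λ * |s - s'|) →
    ‖∑ n ∈ (Icc A1 A2).filter (fun n => Nat.Coprime n q), Ω n * kf B (n : ℤ) q‖ ≤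
      C * (q : ℝ) ^ ε * (1 + Λ * ((A2 : ℝ) - A1)) *
        (Real.sqrt q + ((A2 : ℝ) - A1 + 1) * Real.sqrt ((Int.gcd B q : ℝ) / q))

/-- `B0` -/
def B0 (b : ℤ) (l1 l2 j1 j2 : ℕ) : ℤ :=
  (j1 : ℤ) * b * (l2 / Nat.gcd l1 l2 : ℕ) - (j2 : ℤ) * b * (l1 / Nat.gcd l1 l2 : ℕ)

theorem B0_ne (b : ℤ) (l1 l2 j1 j2 : ℕ) (hb : b ≠ 0) (hl1 : 0 < l1) (h : j1 * l2 ≠ j2 * l1) :
    B0 b l1 l2 j1 j2 ≠ 0 := by
  unfold B0
  intro h0
  apply h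
  have hv : 0 < Nat.gcd l1 l2 := Nat.gcd_pos_of_pos_left _ hl1
  obtain ⟨m1, hm1⟩ := Nat.gcd_dvd_left l1 l2
  obtain ⟨m2, hm2⟩ := Nat.gcd_dvd_right l1 l2
  set v := Nat.gcd l1 l2 with hvdef
  have e1 : l1 / v = m1 := by rw [hm1]; exact Nat.mul_div_cancel_left _ hv
  have e2 : l2 / v = m2 := by rw [hm2]; exact Nat.mul_div_cancel_left _ hv
  rw [e1, e2] at h0
  have h1 : b * ((j1 : ℤ) * m2 - j2 * m1) = 0 := by linarith
  have h2 : (j1 : ℤ) * m2 - j2 * m1 = 0 := (mul_eq_zero.1 h1).resolve_left hb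
  have h3 : j1 * m2 = j2 * m1 := by
    have : (j1 : ℤ) * m2 = j2 * m1 := by linarith
    exact_mod_cast this
  rw [hm1, hm2]
  calc j1 * (v * m2) = v * (j1 * m2) := by ring
    _ = v * (j2 * m1) := by rw [h3]
    _ = j2 * (v * m1) := by ring

theorem inner_bound (ε C : ℝ) (hε : 0 < ε) (hC : 0 < C) (hW : W1c ε C)
    (E K L J p1 p2 : ℕ) (b : ℤ) (V : ℝ) (c2 : ℕ → ℕ → ℝ) (Φ : ℕ → ℝ → ℂ) (hE : 1 ≤ E) (hK : 1 ≤ K)
    (hL : 1 ≤ L) (hp1 : p1.Prime) (hp2 : p2.Prime) (hpp : p1 ≠ p2) (hb : b ≠ 0)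
    (hV : 1 ≤ V) (hc2 : ∀ k l, |c2 k l| ≤ 1)
    (hc2' : ∀ k l, c2 k l ≠ 0 → Squarefree (k * l) ∧ Nat.Coprime (k * l) (p1 * p2))
    (hΦ1 : ∀ (j : ℕ) (s : ℝ), ((E * K * L : ℕ) : ℝ) ≤ s → ‖Φ j s‖ ≤ 1)
    (hΦ2 : ∀ (j : ℕ) (s s' : ℝ), ((E * K * L : ℕ) : ℝ) ≤ s → ((E * K * L : ℕ) : ℝ) ≤ s' →
      ‖Φ j s - Φ j s'‖ ≤ V * |s - s'| / (E * K * L : ℕ))
    (k l1 l2 j1 j2 : ℕ) (hk : k ∈ Ico K (2 * K)) (hl1 : l1 ∈ Ico L (2 * L))
    (hl2 : l2 ∈ Ico L (2 * L)) (hj1 : j1 ∈ Icc 1 J) (hj2 : j2 ∈ Icc 1 J)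
    (hne : j1 * l2 ≠ j2 * l1) :
    ‖∑ e1 ∈ Ico E (2 * E), aa p1 p2 b c2 Φ k l1 j1 e1 *
        (starRingEnd ℂ) (aa p1 p2 b c2 Φ k l2 j2 e1)‖ ≤
      C * (8 * p1 * K * L ^ 2 : ℝ) ^ ε * (9 * V) * (3 * p1 * Real.sqrt K * L +
        E * (Nat.gcd l1 l2 * |(b : ℝ)| * J * Real.sqrt (Int.gcd (B0 b l1 l2 j1 j2) k)) /
          (Real.sqrt K * L)) := by
  have hK0 : (0 : ℝ) < K := by exact_mod_cast hK
  have hL0 : (0 : ℝ) < L := by exact_mod_cast hL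
  have hE0 : (0 : ℝ) < E := by exact_mod_cast hE
  have hV0 : 0 < V := by linarith
  have hRnn : 0 ≤ C * (8 * p1 * K * L ^ 2 : ℝ) ^ ε * (9 * V) * (3 * p1 * Real.sqrt K * L +
        E * (Nat.gcd l1 l2 * |(b : ℝ)| * J * Real.sqrt (Int.gcd (B0 b l1 l2 j1 j2) k)) /
          (Real.sqrt K * L)) := by positivity
  by_cases hz1 : c2 k l1 = 0
  · have h0 : ∀ e1 ∈ Ico E (2 * E), aa p1 p2 b c2 Φ k l1 j1 e1 *
        (starRingEnd ℂ) (aa p1 p2 b c2 Φ k l2 j2 e1) = 0 := by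
      intro e1 _
      have : aa p1 p2 b c2 Φ k l1 j1 e1 = 0 := by unfold aa; simp [hz1]
      rw [this, zero_mul]
    rw [Finset.sum_eq_zero h0, norm_zero]
    exact hRnn
  by_cases hz2 : c2 k l2 = 0
  · have h0 : ∀ e1 ∈ Ico E (2 * E), aa p1 p2 b c2 Φ k l1 j1 e1 *
        (starRingEnd ℂ) (aa p1 p2 b c2 Φ k l2 j2 e1) = 0 := by
      intro e1 _
      have : aa p1 p2 b c2 Φ k l2 j2 e1 = 0 := by unfold aa; simp [hz2]
      rw [this, map_zero, mul_zero]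
    rw [Finset.sum_eq_zero h0, norm_zero]
    exact hRnn
  obtain ⟨hsq1, hco1⟩ := hc2' k l1 hz1
  obtain ⟨hsq2, hco2⟩ := hc2' k l2 hz2
  rw [Finset.mem_Ico] at hk hl1 hl2
  rw [Finset.mem_Icc] at hj1 hj2
  have hk0 : 0 < k := by omega
  have hl10 : 0 < l1 := by omega
  have hl20 : 0 < l2 := by omega
  have hB0 := B0_ne b l1 l2 j1 j2 hb hl10 hne
  have hv : 0 < Nat.gcd l1 l2 := Nat.gcd_pos_of_pos_left _ hl10
  obtain ⟨m1, hm1⟩ := Nat.gcd_dvd_left l1 l2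
  obtain ⟨m2, hm2⟩ := Nat.gcd_dvd_right l1 l2
  have hmco : Nat.Coprime m1 m2 := by
    have := Nat.coprime_div_gcd_div_gcd hv
    rwa [Nat.div_eq_of_eq_mul_right hv hm1, Nat.div_eq_of_eq_mul_right hv hm2] at this
  have hB0e : B0 b l1 l2 j1 j2 = (j1 : ℤ) * b * m2 - (j2 : ℤ) * b * m1 := by
    unfold B0
    rw [Nat.div_eq_of_eq_mul_right hv hm1, Nat.div_eq_of_eq_mul_right hv hm2]
  set v := Nat.gcd l1 l2 with hvdef
  rw [hB0e] at hB0 ⊢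
  have hm10 : 0 < m1 := Nat.pos_of_ne_zero (by rintro rfl; simp at hm1; omega)
  have hm20 : 0 < m2 := Nat.pos_of_ne_zero (by rintro rfl; simp at hm2; omega)
  set q : ℕ := p1 * (k * (v * (m1 * m2))) with hq
  have hp10 : 0 < p1 := hp1.pos
  have hr1 : p1 * (k * l1) * m2 = q := by rw [hq, hm1]; ring
  have hr2 : p1 * (k * l2) * m1 = q := by rw [hq, hm2]; ring
  have hq0 : 0 < q := by rw [hq]; positivity
  have hq2 : 2 ≤ q := by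
    calc 2 ≤ p1 := hp1.two_le
      _ ≤ q := Nat.le_of_dvd hq0 (Dvd.intro _ rfl)
  -- coprimality
  have hc1 : Nat.Coprime (k * l1) p1 := hco1.coprime_mul_right_right
  have hc1' : Nat.Coprime (k * l1) p2 := hco1.coprime_mul_left_right
  have hc2a : Nat.Coprime (k * l2) p1 := hco2.coprime_mul_right_right
  have hc2b : Nat.Coprime (k * l2) p2 := hco2.coprime_mul_left_right
  have hpp' : Nat.Coprime p2 p1 := (Nat.coprime_primes hp2 hp1).2 (Ne.symm hpp)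
  have hp2r1 : Nat.Coprime p2 (p1 * (k * l1)) := Nat.Coprime.mul_right hpp' hc1'.symm
  have hp2r2 : Nat.Coprime p2 (p1 * (k * l2)) := Nat.Coprime.mul_right hpp' hc2b.symm
  have hm2dvd : m2 ∣ p1 * (k * l2) := by rw [hm2]; exact ⟨p1 * (k * v), by ring⟩
  have hp2q : Nat.Coprime p2 q := by
    rw [← hr1]
    exact Nat.Coprime.mul_right hp2r1 (hp2r2.coprime_dvd_right hm2dvd)
  have hiff : ∀ e1 : ℕ, (Nat.Coprime (e1 * p2) (p1 * (k * l1)) ∧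
      Nat.Coprime (e1 * p2) (p1 * (k * l2))) ↔ Nat.Coprime e1 q := by
    intro e1
    constructor
    · rintro ⟨h1, h2⟩
      have h3 : Nat.Coprime e1 (p1 * (k * l1)) := h1.coprime_mul_right
      have h4 : Nat.Coprime e1 (p1 * (k * l2)) := h2.coprime_mul_right
      rw [← hr1]
      exact Nat.Coprime.mul_right h3 (h4.coprime_dvd_right hm2dvd)
    · intro h1
      exact ⟨Nat.Coprime.mul_left (h1.coprime_dvd_right (Dvd.intro _ hr1)) hp2r1,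
        Nat.Coprime.mul_left (h1.coprime_dvd_right (Dvd.intro _ hr2)) hp2r2⟩
  -- squarefree
  have hqsq : Squarefree q := by
    have h1 : Squarefree ((k * v) * m1) := by
      have : (k * v) * m1 = k * l1 := by rw [hm1]; ring
      rwa [this]
    have h2 : Squarefree ((k * v) * m2) := by
      have : (k * v) * m2 = k * l2 := by rw [hm2]; ring
      rwa [this]
    rw [Nat.squarefree_mul_iff] at h1 h2
    have h3 : Squarefree ((k * v) * m1 * m2) := by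
      rw [Nat.squarefree_mul_iff]
      refine ⟨Nat.Coprime.mul_left h2.1 hmco, ?_, h2.2.2⟩
      rw [Nat.squarefree_mul_iff]
      exact h1
    have h4 : q = p1 * ((k * v) * m1 * m2) := by rw [hq]; ring
    rw [h4, Nat.squarefree_mul_iff]
    refine ⟨?_, hp1.squarefree, h3⟩
    have h5 : Nat.Coprime p1 ((k * v) * m1) := by
      have : (k * v) * m1 = k * l1 := by rw [hm1]; ring
      rw [this]; exact hc1.symm
    have h6 : Nat.Coprime p1 m2 := by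
      have : m2 ∣ k * l2 := by rw [hm2]; exact ⟨k * v, by ring⟩
      exact hc2a.symm.coprime_dvd_right this
    exact Nat.Coprime.mul_right h5 h6
  obtain ⟨B, hBne, hBg, hBk⟩ := kf_combine q (p1 * (k * l1)) (p1 * (k * l2)) m1 m2 p2 hq2 hr1 hr2
    hp2q ((j1 : ℤ) * b) ((j2 : ℤ) * b) hB0
  -- rewriting the sum
  set Ω : ℝ → ℂ := fun s => Φ j1 (s * k * l1) * (starRingEnd ℂ) (Φ j2 (s * k * l2)) with hΩ
  have hsum : ∑ e1 ∈ Ico E (2 * E), aa p1 p2 b c2 Φ k l1 j1 e1 *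
        (starRingEnd ℂ) (aa p1 p2 b c2 Φ k l2 j2 e1) =
      ((c2 k l1 * c2 k l2 : ℝ) : ℂ) *
        ∑ n ∈ (Icc E (2 * E - 1)).filter (fun n => Nat.Coprime n q), Ω n * kf B (n : ℤ) q := by
    have hI : Ico E (2 * E) = Icc E (2 * E - 1) := by
      ext x; rw [Finset.mem_Ico, Finset.mem_Icc]; omega
    rw [hI, Finset.sum_filter, Finset.mul_sum]
    refine Finset.sum_congr rfl fun e1 _ => ?_
    unfold aa
    by_cases hcc : Nat.Coprime e1 q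
    · obtain ⟨h1, h2⟩ := (hiff e1).2 hcc
      rw [if_pos h1, if_pos h2, if_pos hcc, ← hBk e1 hcc, hΩ]
      simp only [map_mul, Complex.conj_ofReal]
      push_cast
      ring
    · rw [if_neg hcc, mul_zero]
      by_cases h1 : Nat.Coprime (e1 * p2) (p1 * (k * l1))
      · have h2 : ¬ Nat.Coprime (e1 * p2) (p1 * (k * l2)) := fun h2 => hcc ((hiff e1).1 ⟨h1, h2⟩)
        rw [if_neg h2, map_zero, mul_zero]
      · rw [if_neg h1, zero_mul]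
  have hA : ((2 * E - 1 : ℕ) : ℝ) - E = E - 1 := by
    rw [Nat.cast_sub (by omega)]; push_cast; ring
  have hlow : ∀ s ∈ Set.Icc (E : ℝ) ((2 * E - 1 : ℕ) : ℝ), ∀ l : ℕ, L ≤ l →
      ((E * K * L : ℕ) : ℝ) ≤ s * k * l := by
    intro s hs l hl
    push_cast
    have h1 : (K : ℝ) ≤ k := by exact_mod_cast hk.1
    have h2 : (L : ℝ) ≤ l := by exact_mod_cast hl
    have h3 : (0 : ℝ) < s := lt_of_lt_of_le hE0 hs.1
    exact mul_le_mul (mul_le_mul hs.1 h1 hK0.le h3.le) h2 hL0.le (by positivity)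
  have hΩ1 : ∀ s ∈ Set.Icc (E : ℝ) ((2 * E - 1 : ℕ) : ℝ), ‖Ω s‖ ≤ 1 := by
    intro s hs
    rw [hΩ]
    simp only [norm_mul, RCLike.norm_conj]
    calc _ ≤ (1 : ℝ) * 1 := mul_le_mul (hΦ1 _ _ (hlow s hs l1 hl1.1)) (hΦ1 _ _ (hlow s hs l2 hl2.1))
          (norm_nonneg _) zero_le_one
      _ = 1 := one_mul 1
  have hlip : ∀ s ∈ Set.Icc (E : ℝ) ((2 * E - 1 : ℕ) : ℝ),
      ∀ s' ∈ Set.Icc (E : ℝ) ((2 * E - 1 : ℕ) : ℝ), ∀ (j l : ℕ), L ≤ l → l < 2 * L →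
      ‖Φ j (s * k * l) - Φ j (s' * k * l)‖ ≤ 4 * V / E * |s - s'| := by
    intro s hs s' hs' j l hl hl'
    refine (hΦ2 j _ _ (hlow s hs l hl) (hlow s' hs' l hl)).trans ?_
    have h1 : s * k * l - s' * k * l = (s - s') * (k * l) := by ring
    rw [h1, abs_mul, abs_of_nonneg (by positivity : (0 : ℝ) ≤ (k : ℝ) * l)]
    push_cast
    have h2 : (k : ℝ) ≤ 2 * K := by exact_mod_cast hk.2.le
    have h3 : (l : ℝ) ≤ 2 * L := by exact_mod_cast hl'.le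
    have h4 : (k : ℝ) * l ≤ 4 * (K * L) := by
      calc (k : ℝ) * l ≤ (2 * K) * (2 * L) := mul_le_mul h2 h3 (by positivity) (by positivity)
        _ = 4 * (K * L) := by ring
    rw [div_le_iff₀ (by positivity)]
    calc V * (|s - s'| * ((k : ℝ) * l)) ≤ V * (|s - s'| * (4 * (K * L))) := by gcongr
      _ = 4 * V / E * |s - s'| * (E * K * L) := by field_simp
  have hΩ2 : ∀ s ∈ Set.Icc (E : ℝ) ((2 * E - 1 : ℕ) : ℝ),
      ∀ s' ∈ Set.Icc (E : ℝ) ((2 * E - 1 : ℕ) : ℝ), ‖Ω s - Ω s'‖ ≤ 8 * V / E * |s - s'| := by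
    intro s hs s' hs'
    have h1 : Ω s - Ω s' = (Φ j1 (s * k * l1) - Φ j1 (s' * k * l1)) *
        (starRingEnd ℂ) (Φ j2 (s * k * l2)) + Φ j1 (s' * k * l1) *
        (starRingEnd ℂ) (Φ j2 (s * k * l2) - Φ j2 (s' * k * l2)) := by
      rw [hΩ]; simp only [map_sub]; ring
    rw [h1]
    refine (norm_add_le _ _).trans ?_
    rw [norm_mul, norm_mul, RCLike.norm_conj, RCLike.norm_conj]
    have h2 := hlip s hs s' hs' j1 l1 hl1.1 hl1.2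
    have h3 := hlip s hs s' hs' j2 l2 hl2.1 hl2.2
    have h4 := hΦ1 j2 _ (hlow s hs l2 hl2.1)
    have h5 := hΦ1 j1 _ (hlow s' hs' l1 hl1.1)
    have h6 : 0 ≤ 4 * V / E * |s - s'| := by positivity
    calc _ ≤ 4 * V / E * |s - s'| * 1 + 1 * (4 * V / E * |s - s'|) := by
          refine add_le_add (mul_le_mul h2 h4 (norm_nonneg _) h6) (mul_le_mul h5 h3 (norm_nonneg _)
            zero_le_one)
      _ = _ := by ring
  have hmain := hW q E (2 * E - 1) B Ω (8 * V / E) hqsq hBne (by omega) (by positivity) hΩ1 hΩ2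
  rw [hA, hBg] at hmain
  rw [hsum, norm_mul, Complex.norm_real, Real.norm_eq_abs, abs_mul]
  have hcc : |c2 k l1| * |c2 k l2| ≤ 1 := by
    calc _ ≤ (1 : ℝ) * 1 := mul_le_mul (hc2 _ _) (hc2 _ _) (abs_nonneg _) zero_le_one
      _ = 1 := one_mul 1
  refine (mul_le_mul hcc hmain (norm_nonneg _) zero_le_one).trans ?_
  rw [one_mul]
  -- numerical bounds
  have hqr : (q : ℝ) = p1 * (k * (v * (m1 * m2))) := by rw [hq]; push_cast; ring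
  have hkR : (k : ℝ) ≤ 2 * K := by exact_mod_cast hk.2.le
  have hkR' : (K : ℝ) ≤ k := by exact_mod_cast hk.1
  have hl1R : (l1 : ℝ) ≤ 2 * L := by exact_mod_cast hl1.2.le
  have hl2R : (l2 : ℝ) ≤ 2 * L := by exact_mod_cast hl2.2.le
  have hl1R' : (L : ℝ) ≤ l1 := by exact_mod_cast hl1.1
  have hl2R' : (L : ℝ) ≤ l2 := by exact_mod_cast hl2.1
  have hl1e : (l1 : ℝ) = v * m1 := by exact_mod_cast hm1
  have hl2e : (l2 : ℝ) = v * m2 := by exact_mod_cast hm2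
  have hvR : (0 : ℝ) < v := by exact_mod_cast hv
  have hv1 : (1 : ℝ) ≤ v := by exact_mod_cast hv
  have hm1R : (0 : ℝ) < m1 := by exact_mod_cast hm10
  have hm2R : (0 : ℝ) < m2 := by exact_mod_cast hm20
  have hp1R : (2 : ℝ) ≤ p1 := by exact_mod_cast hp1.two_le
  have hp1R0 : (0 : ℝ) < p1 := by linarith
  have hkR0 : (0 : ℝ) < k := by exact_mod_cast hk0
  have hqR0 : (0 : ℝ) < q := by exact_mod_cast hq0
  have hm2l : (m2 : ℝ) ≤ 2 * L := by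
    calc (m2 : ℝ) ≤ v * m2 := by nlinarith
      _ ≤ 2 * L := by rw [← hl2e]; exact hl2R
  have hqle : (q : ℝ) ≤ 8 * p1 * K * L ^ 2 := by
    have h1 : (q : ℝ) = p1 * (k * (l1 * m2)) := by rw [hqr, hl1e]; ring
    rw [h1]
    calc (p1 : ℝ) * (k * (l1 * m2)) ≤ p1 * ((2 * K) * ((2 * L) * (2 * L))) := by gcongr
      _ = 8 * p1 * K * L ^ 2 := by ring
  have hqge : (p1 : ℝ) * K * L ^ 2 ≤ q * v := by
    have h1 : (q : ℝ) * v = p1 * (k * (l1 * l2)) := by rw [hqr, hl1e, hl2e]; ring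
    rw [h1]
    calc (p1 : ℝ) * K * L ^ 2 = p1 * (K * (L * L)) := by ring
      _ ≤ p1 * (k * (l1 * l2)) := by gcongr
  have hsK : 0 < Real.sqrt K := Real.sqrt_pos.2 hK0
  have hsq1' : Real.sqrt q ≤ 3 * p1 * Real.sqrt K * L := by
    have h1 : (q : ℝ) ≤ (3 * p1 * Real.sqrt K * L) ^ 2 := by
      have h2 : (3 * p1 * Real.sqrt K * L) ^ 2 = 9 * p1 ^ 2 * (Real.sqrt K ^ 2) * L ^ 2 := by ring
      rw [h2, Real.sq_sqrt hK0.le]
      calc (q : ℝ) ≤ 8 * p1 * K * L ^ 2 := hqle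
        _ = (8 * p1) * (K * L ^ 2) := by ring
        _ ≤ (9 * p1 ^ 2) * (K * L ^ 2) :=
            mul_le_mul_of_nonneg_right (by nlinarith) (by positivity)
        _ = _ := by ring
    rw [← Real.sqrt_sq (by positivity : (0 : ℝ) ≤ 3 * p1 * Real.sqrt K * L)]
    exact Real.sqrt_le_sqrt h1
  have hgb := gcd_bound b j1 j2 m1 m2 p1 k v J hb hj1.1 hj1.2 hj2.1 hj2.2 hmco hp10 hk0 hv hm10 hm20
  rw [← hq] at hgb
  set gk : ℕ := Int.gcd ((j1 : ℤ) * b * m2 - (j2 : ℤ) * b * m1) k with hgk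
  set gq : ℕ := Int.gcd ((j1 : ℤ) * b * m2 - (j2 : ℤ) * b * m1) q with hgq
  have hgbR : (gq : ℝ) ≤ p1 * gk * v * (|(b : ℝ)| * J) ^ 2 := by
    have h1 : ((gq : ℕ) : ℝ) ≤ ((p1 * gk * v * (b.natAbs * J) ^ 2 : ℕ) : ℝ) := by exact_mod_cast hgb
    push_cast at h1
    rwa [Nat.cast_natAbs, Int.cast_abs] at h1
  have hsq2' : Real.sqrt ((gq : ℝ) / q) ≤ v * |(b : ℝ)| * J * Real.sqrt gk / (Real.sqrt K * L) := by
    rw [← Real.sqrt_sq (by positivity :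
      (0 : ℝ) ≤ v * |(b : ℝ)| * J * Real.sqrt gk / (Real.sqrt K * L))]
    apply Real.sqrt_le_sqrt
    have h2 : (v * |(b : ℝ)| * J * Real.sqrt gk / (Real.sqrt K * L)) ^ 2 =
        (v * |(b : ℝ)| * J) ^ 2 * (Real.sqrt gk ^ 2) / ((Real.sqrt K ^ 2) * L ^ 2) := by ring
    rw [h2, Real.sq_sqrt (Nat.cast_nonneg _), Real.sq_sqrt hK0.le, div_le_div_iff₀ hqR0 (by positivity)]
    calc (gq : ℝ) * (K * L ^ 2) ≤ (p1 * gk * v * (|(b : ℝ)| * J) ^ 2) * (K * L ^ 2) := by gcongr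
      _ = (gk * v * (|(b : ℝ)| * J) ^ 2) * (p1 * K * L ^ 2) := by ring
      _ ≤ (gk * v * (|(b : ℝ)| * J) ^ 2) * (q * v) := by gcongr
      _ = (v * |(b : ℝ)| * J) ^ 2 * gk * q := by ring
  have hqε : (q : ℝ) ^ ε ≤ (8 * p1 * K * L ^ 2 : ℝ) ^ ε :=
    Real.rpow_le_rpow hqR0.le hqle hε.le
  have hfac : 1 + 8 * V / E * ((E : ℝ) - 1) ≤ 9 * V := by
    have h1 : 8 * V / E * ((E : ℝ) - 1) ≤ 8 * V / E * E := by
      gcongr
      linarith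
    have h2 : 8 * V / E * (E : ℝ) = 8 * V := by field_simp
    linarith
  have hfac0 : 0 ≤ 1 + 8 * V / E * ((E : ℝ) - 1) := by
    have : (1 : ℝ) ≤ E := by exact_mod_cast hE
    have h1 : 0 ≤ 8 * V / E * ((E : ℝ) - 1) := mul_nonneg (by positivity) (by linarith)
    linarith
  have hEe : (E : ℝ) - 1 + 1 = E := by ring
  rw [hEe]
  have hlast : Real.sqrt q + E * Real.sqrt ((gq : ℝ) / q) ≤ 3 * p1 * Real.sqrt K * L +
      E * (v * |(b : ℝ)| * J * Real.sqrt gk) / (Real.sqrt K * L) := by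
    rw [mul_div_assoc]
    exact add_le_add hsq1' (mul_le_mul_of_nonneg_left hsq2' hE0.le)
  calc C * (q : ℝ) ^ ε * (1 + 8 * V / E * ((E : ℝ) - 1)) *
        (Real.sqrt q + E * Real.sqrt ((gq : ℝ) / q))
      ≤ C * (8 * p1 * K * L ^ 2 : ℝ) ^ ε * (9 * V) * (3 * p1 * Real.sqrt K * L +
        E * (v * |(b : ℝ)| * J * Real.sqrt gk) / (Real.sqrt K * L)) := by
        gcongr
    _ = _ := rfl

/-! ### Expanding squares -/

theorem expand_sq {ι : Type*} (S : Finset ι) (T : Finset ℕ) (a : ι → ℕ → ℂ) :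
    ∑ e ∈ T, ‖∑ x ∈ S, a x e‖ ^ 2 ≤
      ∑ x ∈ S, ∑ y ∈ S, ‖∑ e ∈ T, a x e * (starRingEnd ℂ) (a y e)‖ := by
  have h1 : ((∑ e ∈ T, ‖∑ x ∈ S, a x e‖ ^ 2 : ℝ) : ℂ) =
      ∑ x ∈ S, ∑ y ∈ S, ∑ e ∈ T, a x e * (starRingEnd ℂ) (a y e) := by
    push_cast
    have h2 : ∀ e ∈ T, ((‖∑ x ∈ S, a x e‖ : ℝ) : ℂ) ^ 2 =
        ∑ x ∈ S, ∑ y ∈ S, a x e * (starRingEnd ℂ) (a y e) := by
      intro e _
      rw [← Complex.mul_conj', map_sum, Finset.sum_mul_sum]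
    rw [Finset.sum_congr rfl h2, Finset.sum_comm]
    refine Finset.sum_congr rfl fun x _ => ?_
    rw [Finset.sum_comm]
  have h3 : 0 ≤ ∑ e ∈ T, ‖∑ x ∈ S, a x e‖ ^ 2 := Finset.sum_nonneg fun _ _ => by positivity
  have h4 : ∑ e ∈ T, ‖∑ x ∈ S, a x e‖ ^ 2 = ‖((∑ e ∈ T, ‖∑ x ∈ S, a x e‖ ^ 2 : ℝ) : ℂ)‖ := by
    rw [Complex.norm_real, Real.norm_eq_abs, abs_of_nonneg h3]
  rw [h4, h1]
  refine (norm_sum_le _ _).trans (Finset.sum_le_sum fun x _ => norm_sum_le _ _)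

theorem cauchy_two (T S : Finset ℕ) (c : ℕ → ℝ) (hc : ∀ n, |c n| ≤ 1) (F : ℕ → ℕ → ℂ) :
    ‖∑ e ∈ T, ∑ k ∈ S, ((c e : ℝ) : ℂ) * F e k‖ ^ 2 ≤
      (T.card : ℝ) * S.card * ∑ k ∈ S, ∑ e ∈ T, ‖F e k‖ ^ 2 := by
  have h1 : ‖∑ e ∈ T, ∑ k ∈ S, ((c e : ℝ) : ℂ) * F e k‖ ≤ ∑ x ∈ T ×ˢ S, ‖F x.1 x.2‖ := by
    rw [Finset.sum_product]
    refine (norm_sum_le _ _).trans (Finset.sum_le_sum fun e _ => (norm_sum_le _ _).trans
      (Finset.sum_le_sum fun k _ => ?_))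
    rw [norm_mul, Complex.norm_real, Real.norm_eq_abs]
    calc _ ≤ 1 * ‖F e k‖ := mul_le_mul_of_nonneg_right (hc e) (norm_nonneg _)
      _ = _ := one_mul _
  have h2 : (∑ x ∈ T ×ˢ S, ‖F x.1 x.2‖) ^ 2 ≤ ((T ×ˢ S).card : ℝ) *
      ∑ x ∈ T ×ˢ S, ‖F x.1 x.2‖ ^ 2 := sq_sum_le_card_mul_sum_sq
  calc _ ≤ (∑ x ∈ T ×ˢ S, ‖F x.1 x.2‖) ^ 2 := pow_le_pow_left₀ (norm_nonneg _) h1 2
    _ ≤ _ := h2
    _ = _ := by
      rw [Finset.card_product, Finset.sum_product, Finset.sum_comm]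
      push_cast
      rfl

/-- the pairs of pairs as quadruples -/
theorem sum_quad (A B : Finset ℕ) (f : ℕ × ℕ → ℕ × ℕ → ℝ) :
    ∑ x ∈ A ×ˢ B, ∑ y ∈ A ×ˢ B, f x y =
      ∑ w ∈ (A ×ˢ A) ×ˢ (B ×ˢ B), f (w.1.1, w.2.1) (w.1.2, w.2.2) := by
  rw [Finset.sum_product, Finset.sum_product, Finset.sum_product]
  refine Finset.sum_congr rfl fun l1 _ => ?_
  simp only [Finset.sum_product]
  rw [Finset.sum_comm]

theorem B0_abs_le (b : ℤ) (l1 l2 j1 j2 L J : ℕ) (hl1 : l1 ≤ 2 * L) (hl2 : l2 ≤ 2 * L)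
    (hj1 : j1 ≤ J) (hj2 : j2 ≤ J) : (B0 b l1 l2 j1 j2).natAbs ≤ b.natAbs * (J * (2 * L)) := by
  unfold B0
  set m1 := l1 / Nat.gcd l1 l2 with hm1
  set m2 := l2 / Nat.gcd l1 l2 with hm2
  have h1 : m1 ≤ 2 * L := (Nat.div_le_self _ _).trans hl1
  have h2 : m2 ≤ 2 * L := (Nat.div_le_self _ _).trans hl2
  have h3 : (j1 : ℤ) * b * m2 - (j2 : ℤ) * b * m1 = b * ((j1 * m2 : ℕ) - (j2 * m1 : ℕ) : ℤ) := by
    push_cast; ring
  rw [h3, Int.natAbs_mul]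
  refine Nat.mul_le_mul_left _ ?_
  have h4 : j1 * m2 ≤ J * (2 * L) := Nat.mul_le_mul hj1 h2
  have h5 : j2 * m1 ≤ J * (2 * L) := Nat.mul_le_mul hj2 h1
  omega

/-! ### Summing up -/

theorem block_sum (ε C C2 C4 : ℝ) (hε : 0 < ε) (hC : 0 < C) (hC2 : 0 < C2) (hW : W1c ε C)
    (hτ : ∀ n : ℕ, 1 ≤ n → (n.divisors.card : ℝ) ≤ C2 * (n : ℝ) ^ ε)
    (hdiag : ∀ L J : ℕ, 1 ≤ L → 1 ≤ J →
      ((((Icc 1 L ×ˢ Icc 1 L) ×ˢ (Icc 1 J ×ˢ Icc 1 J)).filter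
        (fun x : (ℕ × ℕ) × (ℕ × ℕ) => x.2.1 * x.1.2 = x.2.2 * x.1.1)).card : ℝ) ≤
        C4 * ((L : ℝ) * J) ^ (1 + ε))
    (hgcd : ∀ (B : ℤ) (K : ℕ), B ≠ 0 →
      ∑ k ∈ Icc 1 K, Real.sqrt (Int.gcd B k) ≤ (K : ℝ) * (B.natAbs.divisors.card : ℝ))
    (hgg : ∀ L : ℕ, 1 ≤ L → ∑ l1 ∈ Icc 1 L, ∑ l2 ∈ Icc 1 L, (Nat.gcd l1 l2 : ℝ) ≤
      (L : ℝ) ^ 2 * (1 + Real.log L))
    (E K L J p1 p2 : ℕ) (b : ℤ) (V : ℝ) (c2 : ℕ → ℕ → ℝ) (Φ : ℕ → ℝ → ℂ) (hE : 1 ≤ E) (hK : 1 ≤ K)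
    (hL : 1 ≤ L) (hJ : 1 ≤ J) (hp1 : p1.Prime) (hp2 : p2.Prime) (hpp : p1 ≠ p2) (hb : b ≠ 0)
    (hV : 1 ≤ V) (hc2 : ∀ k l, |c2 k l| ≤ 1)
    (hc2' : ∀ k l, c2 k l ≠ 0 → Squarefree (k * l) ∧ Nat.Coprime (k * l) (p1 * p2))
    (hΦ1 : ∀ (j : ℕ) (s : ℝ), ((E * K * L : ℕ) : ℝ) ≤ s → ‖Φ j s‖ ≤ 1)
    (hΦ2 : ∀ (j : ℕ) (s s' : ℝ), ((E * K * L : ℕ) : ℝ) ≤ s → ((E * K * L : ℕ) : ℝ) ≤ s' →
      ‖Φ j s - Φ j s'‖ ≤ V * |s - s'| / (E * K * L : ℕ)) :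
    ∑ k ∈ Ico K (2 * K), ∑ x ∈ Ico L (2 * L) ×ˢ Icc 1 J, ∑ y ∈ Ico L (2 * L) ×ˢ Icc 1 J,
      ‖∑ e1 ∈ Ico E (2 * E), aa p1 p2 b c2 Φ k x.1 x.2 e1 *
        (starRingEnd ℂ) (aa p1 p2 b c2 Φ k y.1 y.2 e1)‖ ≤
      K * (E * (C4 * (2 * L * J : ℝ) ^ (1 + ε))) +
      K * (C * (8 * p1 * K * L ^ 2 : ℝ) ^ ε * (9 * V) * (3 * p1 * Real.sqrt K * L)) *
        (L ^ 2 * J ^ 2) +
      (C * (8 * p1 * K * L ^ 2 : ℝ) ^ ε * (9 * V)) * (E * |(b : ℝ)| * J / (Real.sqrt K * L)) *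
        (2 * K * (C2 * (|(b : ℝ)| * (J * (2 * L))) ^ ε)) *
        (J ^ 2 * ((2 * L) ^ 2 * (1 + Real.log (2 * L)))) := by
  classical
  have hK0 : (0 : ℝ) < K := by exact_mod_cast hK
  have hL0 : (0 : ℝ) < L := by exact_mod_cast hL
  have hE0 : (0 : ℝ) < E := by exact_mod_cast hE
  have hJ0 : (0 : ℝ) < J := by exact_mod_cast hJ
  have hV0 : 0 < V := by linarith
  have hb0 : 0 < |(b : ℝ)| := abs_pos.2 (by exact_mod_cast hb)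
  have hsK : 0 < Real.sqrt K := Real.sqrt_pos.2 hK0
  set U : ℝ := C * (8 * p1 * K * L ^ 2 : ℝ) ^ ε * (9 * V) with hU
  have hU0 : 0 ≤ U := by positivity
  set W : ℝ := E * |(b : ℝ)| * J / (Real.sqrt K * L) with hWd
  have hW0 : 0 ≤ W := by positivity
  set D : ℝ := C2 * (|(b : ℝ)| * (J * (2 * L))) ^ ε with hD
  have hD0 : 0 ≤ D := by positivity
  set Q : Finset ((ℕ × ℕ) × (ℕ × ℕ)) :=
    (Ico L (2 * L) ×ˢ Ico L (2 * L)) ×ˢ (Icc 1 J ×ˢ Icc 1 J) with hQ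
  -- pointwise
  have hpt : ∀ k ∈ Ico K (2 * K), ∀ w ∈ Q,
      ‖∑ e1 ∈ Ico E (2 * E), aa p1 p2 b c2 Φ k w.1.1 w.2.1 e1 *
        (starRingEnd ℂ) (aa p1 p2 b c2 Φ k w.1.2 w.2.2 e1)‖ ≤
      (if w.2.1 * w.1.2 = w.2.2 * w.1.1 then (E : ℝ) else 0) + U * (3 * p1 * Real.sqrt K * L) +
      U * W * (Nat.gcd w.1.1 w.1.2 * (if w.2.1 * w.1.2 = w.2.2 * w.1.1 then 0 else
        Real.sqrt (Int.gcd (B0 b w.1.1 w.1.2 w.2.1 w.2.2) k))) := by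
    rintro k hk ⟨⟨l1, l2⟩, ⟨j1, j2⟩⟩ hw
    simp only [hQ, Finset.mem_product] at hw
    obtain ⟨⟨hl1, hl2⟩, hj1, hj2⟩ := hw
    simp only
    by_cases heq : j1 * l2 = j2 * l1
    · rw [if_pos heq, if_pos heq, mul_zero, mul_zero, add_zero]
      have h1 : ‖∑ e1 ∈ Ico E (2 * E), aa p1 p2 b c2 Φ k l1 j1 e1 *
          (starRingEnd ℂ) (aa p1 p2 b c2 Φ k l2 j2 e1)‖ ≤ ∑ e1 ∈ Ico E (2 * E), (1 : ℝ) := by
        refine (norm_sum_le _ _).trans (Finset.sum_le_sum fun e1 he1 => ?_)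
        have hlow : ∀ l ∈ Ico L (2 * L), ((E * K * L : ℕ) : ℝ) ≤ (e1 : ℝ) * k * l := by
          intro l hl
          have h2 : E * K * L ≤ e1 * k * l := Nat.mul_le_mul (Nat.mul_le_mul
            (Finset.mem_Ico.1 he1).1 (Finset.mem_Ico.1 hk).1) (Finset.mem_Ico.1 hl).1
          exact_mod_cast h2
        rw [norm_mul, RCLike.norm_conj]
        calc _ ≤ (1 : ℝ) * 1 := mul_le_mul
              (norm_aa_le p1 p2 b c2 Φ k l1 j1 e1 (hc2 _ _) (hΦ1 _ _ (hlow l1 hl1)))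
              (norm_aa_le p1 p2 b c2 Φ k l2 j2 e1 (hc2 _ _) (hΦ1 _ _ (hlow l2 hl2)))
              (norm_nonneg _) zero_le_one
          _ = 1 := one_mul 1
      rw [Finset.sum_const, Nat.card_Ico, nsmul_eq_mul, mul_one] at h1
      have h3 : ((2 * E - E : ℕ) : ℝ) = E := by
        congr 1; omega
      rw [h3] at h1
      have h4 : 0 ≤ U * (3 * p1 * Real.sqrt K * L) := by positivity
      linarith
    · rw [if_neg heq, if_neg heq, zero_add]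
      refine (inner_bound ε C hε hC hW E K L J p1 p2 b V c2 Φ hE hK hL hp1 hp2 hpp hb hV hc2 hc2'
        hΦ1 hΦ2 k l1 l2 j1 j2 hk hl1 hl2 hj1 hj2 heq).trans (le_of_eq ?_)
      rw [← hU, mul_add, hWd]
      ring
  -- the sum over `k`
  have hcardK : ((Ico K (2 * K)).card : ℝ) = K := by
    rw [Nat.card_Ico]; congr 1; omega
  have hk : ∀ w ∈ Q, ∑ k ∈ Ico K (2 * K),
      ‖∑ e1 ∈ Ico E (2 * E), aa p1 p2 b c2 Φ k w.1.1 w.2.1 e1 *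
        (starRingEnd ℂ) (aa p1 p2 b c2 Φ k w.1.2 w.2.2 e1)‖ ≤
      K * (if w.2.1 * w.1.2 = w.2.2 * w.1.1 then (E : ℝ) else 0) +
        K * (U * (3 * p1 * Real.sqrt K * L)) +
      U * W * (2 * K * D) * (Nat.gcd w.1.1 w.1.2 : ℝ) := by
    intro w hw
    refine (Finset.sum_le_sum fun k hk => hpt k hk w hw).trans ?_
    rw [Finset.sum_add_distrib, Finset.sum_add_distrib, Finset.sum_const, Finset.sum_const,
      nsmul_eq_mul, nsmul_eq_mul, hcardK]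
    refine add_le_add le_rfl ?_
    rw [← Finset.mul_sum, ← Finset.mul_sum]
    have h1 : ∑ k ∈ Ico K (2 * K), (if w.2.1 * w.1.2 = w.2.2 * w.1.1 then 0 else
        Real.sqrt (Int.gcd (B0 b w.1.1 w.1.2 w.2.1 w.2.2) k)) ≤ 2 * K * D := by
      by_cases heq : w.2.1 * w.1.2 = w.2.2 * w.1.1
      · simp only [if_pos heq, Finset.sum_const_zero]
        positivity
      · simp only [if_neg heq]
        obtain ⟨⟨l1, l2⟩, ⟨j1, j2⟩⟩ := w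
        simp only [hQ, Finset.mem_product, Finset.mem_Ico, Finset.mem_Icc] at hw
        obtain ⟨⟨hl1, hl2⟩, hj1, hj2⟩ := hw
        simp only at heq ⊢
        have hBne := B0_ne b l1 l2 j1 j2 hb (by omega) heq
        have hsub : Ico K (2 * K) ⊆ Icc 1 (2 * K) := by
          intro x hx
          rw [Finset.mem_Ico] at hx
          rw [Finset.mem_Icc]
          omega
        refine (Finset.sum_le_sum_of_subset_of_nonneg hsub fun _ _ _ => Real.sqrt_nonneg _).trans ?_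
        refine (hgcd _ _ hBne).trans ?_
        push_cast
        refine mul_le_mul_of_nonneg_left ?_ (by positivity)
        refine (hτ _ (Int.natAbs_pos.2 hBne)).trans ?_
        rw [hD]
        refine mul_le_mul_of_nonneg_left ?_ hC2.le
        refine Real.rpow_le_rpow (Nat.cast_nonneg _) ?_ hε.le
        have h2 := B0_abs_le b l1 l2 j1 j2 L J hl1.2.le hl2.2.le hj1.2 hj2.2
        have h3 : (((B0 b l1 l2 j1 j2).natAbs : ℕ) : ℝ) ≤ ((b.natAbs * (J * (2 * L)) : ℕ) : ℝ) := by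
          exact_mod_cast h2
        refine h3.trans (le_of_eq ?_)
        push_cast
        rw [Nat.cast_natAbs, Int.cast_abs]
    calc U * W * ((Nat.gcd w.1.1 w.1.2 : ℝ) *
          ∑ k ∈ Ico K (2 * K), (if w.2.1 * w.1.2 = w.2.2 * w.1.1 then 0 else
          Real.sqrt (Int.gcd (B0 b w.1.1 w.1.2 w.2.1 w.2.2) k)))
        ≤ U * W * ((Nat.gcd w.1.1 w.1.2 : ℝ) * (2 * K * D)) := by gcongr
      _ = _ := by ring
  -- the sum over `w`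
  have hswap : ∑ k ∈ Ico K (2 * K), ∑ x ∈ Ico L (2 * L) ×ˢ Icc 1 J,
      ∑ y ∈ Ico L (2 * L) ×ˢ Icc 1 J,
      ‖∑ e1 ∈ Ico E (2 * E), aa p1 p2 b c2 Φ k x.1 x.2 e1 *
        (starRingEnd ℂ) (aa p1 p2 b c2 Φ k y.1 y.2 e1)‖ =
      ∑ w ∈ Q, ∑ k ∈ Ico K (2 * K),
      ‖∑ e1 ∈ Ico E (2 * E), aa p1 p2 b c2 Φ k w.1.1 w.2.1 e1 *
        (starRingEnd ℂ) (aa p1 p2 b c2 Φ k w.1.2 w.2.2 e1)‖ := by
    rw [Finset.sum_comm (s := Q)]
    refine Finset.sum_congr rfl fun k _ => ?_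
    rw [sum_quad (Ico L (2 * L)) (Icc 1 J) (fun x y => ‖∑ e1 ∈ Ico E (2 * E),
      aa p1 p2 b c2 Φ k x.1 x.2 e1 * (starRingEnd ℂ) (aa p1 p2 b c2 Φ k y.1 y.2 e1)‖)]
  rw [hswap]
  refine (Finset.sum_le_sum hk).trans ?_
  rw [Finset.sum_add_distrib, Finset.sum_add_distrib]
  have hcardQ : (Q.card : ℝ) = L ^ 2 * J ^ 2 := by
    have h1 : (Ico L (2 * L)).card = L := by rw [Nat.card_Ico]; omega
    rw [hQ, Finset.card_product, Finset.card_product, Finset.card_product, h1, Nat.card_Icc]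
    push_cast
    ring
  have hterm1 : ∑ w ∈ Q, (K : ℝ) * (if w.2.1 * w.1.2 = w.2.2 * w.1.1 then (E : ℝ) else 0) ≤
      K * (E * (C4 * (2 * L * J : ℝ) ^ (1 + ε))) := by
    rw [← Finset.mul_sum, ← Finset.sum_filter, Finset.sum_const, nsmul_eq_mul]
    have h1 : ((Q.filter (fun w => w.2.1 * w.1.2 = w.2.2 * w.1.1)).card : ℝ) ≤
        C4 * (2 * L * J : ℝ) ^ (1 + ε) := by
      have h2 := hdiag (2 * L) J (by omega) hJ
      push_cast at h2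
      refine le_trans ?_ h2
      have h3 : Q.filter (fun w => w.2.1 * w.1.2 = w.2.2 * w.1.1) ⊆
          ((Icc 1 (2 * L) ×ˢ Icc 1 (2 * L)) ×ˢ (Icc 1 J ×ˢ Icc 1 J)).filter
          (fun x : (ℕ × ℕ) × (ℕ × ℕ) => x.2.1 * x.1.2 = x.2.2 * x.1.1) := by
        intro w hw
        simp only [hQ, Finset.mem_filter, Finset.mem_product, Finset.mem_Ico,
          Finset.mem_Icc] at hw ⊢
        obtain ⟨⟨⟨hl1, hl2⟩, hj⟩, he⟩ := hw
        exact ⟨⟨⟨⟨by omega, by omega⟩, ⟨by omega, by omega⟩⟩, hj⟩, he⟩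
      exact_mod_cast Finset.card_le_card h3
    calc (K : ℝ) * (((Q.filter (fun w => w.2.1 * w.1.2 = w.2.2 * w.1.1)).card : ℝ) * E)
        ≤ K * ((C4 * (2 * L * J : ℝ) ^ (1 + ε)) * E) := by gcongr
      _ = _ := by ring
  have hterm2 : ∑ w ∈ Q, (K : ℝ) * (U * (3 * p1 * Real.sqrt K * L)) =
      K * (U * (3 * p1 * Real.sqrt K * L)) * (L ^ 2 * J ^ 2) := by
    rw [Finset.sum_const, nsmul_eq_mul, hcardQ]; ring
  have hterm3 : ∑ w ∈ Q, U * W * (2 * K * D) * (Nat.gcd w.1.1 w.1.2 : ℝ) ≤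
      U * W * (2 * K * D) * (J ^ 2 * ((2 * L) ^ 2 * (1 + Real.log (2 * L)))) := by
    rw [← Finset.mul_sum]
    refine mul_le_mul_of_nonneg_left ?_ (by positivity)
    rw [hQ, Finset.sum_product]
    have h1 : ∀ x ∈ Ico L (2 * L) ×ˢ Ico L (2 * L), ∑ y ∈ Icc 1 J ×ˢ Icc 1 J,
        (Nat.gcd x.1 x.2 : ℝ) = (J : ℝ) ^ 2 * (Nat.gcd x.1 x.2 : ℝ) := by
      intro x _
      rw [Finset.sum_const, Finset.card_product, Nat.card_Icc, nsmul_eq_mul]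
      push_cast
      ring
    rw [Finset.sum_congr rfl h1, ← Finset.mul_sum]
    refine mul_le_mul_of_nonneg_left ?_ (by positivity)
    have h2 := hgg (2 * L) (by omega)
    push_cast at h2
    refine le_trans ?_ h2
    rw [← Finset.sum_product' (f := fun l1 l2 => (Nat.gcd l1 l2 : ℝ))]
    refine Finset.sum_le_sum_of_subset_of_nonneg ?_ fun _ _ _ => Nat.cast_nonneg _
    intro x hx
    simp only [Finset.mem_product, Finset.mem_Ico, Finset.mem_Icc] at hx ⊢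
    omega
  rw [hterm2]
  linarith

end TW2

open TW2 in
theorem t_W2 (h1 : P_W1) (h3 : P_W3) : P_W2 := by
  classical
  intro ε hε
  obtain ⟨ε1, hε1⟩ : ∃ ε1 : ℝ, ε1 = ε / 4 := ⟨_, rfl⟩
  have hε1p : 0 < ε1 := by rw [hε1]; positivity
  have hε4 : ε = 4 * ε1 := by rw [hε1]; ring
  obtain ⟨C1, hC1, hW⟩ := h1 ε1 hε1p
  obtain ⟨C2, hC2, hτ⟩ := Pool.Agent.H510R2.divisor_bound ε1 hε1p
  obtain ⟨hd, hgcd, hgg⟩ := h3
  obtain ⟨C4, hC4, hdiag⟩ := hd ε1 hε1p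
  refine ⟨C4 * (2 * (2 : ℝ) ^ ε1) + 27 * (C1 * (8 : ℝ) ^ ε1) +
    72 * (C1 * (8 : ℝ) ^ ε1) * (C2 * (2 : ℝ) ^ ε1) * ((1 + 1 / ε1) * (2 : ℝ) ^ ε1),
    by positivity, ?_⟩
  intro E K L J p1 p2 b V c1 c2 Φ hE hK hL hJ hp1 hp2 hpp hb hV hc1 hc2 hc2' hΦ1 hΦ2
  have hE1 : (1 : ℝ) ≤ E := by exact_mod_cast hE
  have hK1 : (1 : ℝ) ≤ K := by exact_mod_cast hK
  have hL1 : (1 : ℝ) ≤ L := by exact_mod_cast hL
  have hJ1 : (1 : ℝ) ≤ J := by exact_mod_cast hJ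
  have hp11 : (1 : ℝ) ≤ p1 := by exact_mod_cast hp1.one_lt.le
  have hp21 : (1 : ℝ) ≤ p2 := by exact_mod_cast hp2.one_lt.le
  have hb1 : (1 : ℝ) ≤ |(b : ℝ)| := by
    have : (1 : ℤ) ≤ |b| := Int.one_le_abs hb
    exact_mod_cast this
  -- rewriting
  have hre : ∑ e1 ∈ Ico E (2 * E), ∑ k ∈ Ico K (2 * K), ∑ l ∈ Ico L (2 * L),
      (if Nat.Coprime (e1 * p2) (p1 * (k * l)) then
        ((c1 e1 * c2 k l : ℝ) : ℂ) * ∑ j ∈ Icc 1 J, Φ j ((e1 : ℝ) * k * l) *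
          kf ((j : ℤ) * b) ((e1 * p2 : ℕ) : ℤ) (p1 * (k * l))
      else 0) =
      ∑ e1 ∈ Ico E (2 * E), ∑ k ∈ Ico K (2 * K), ((c1 e1 : ℝ) : ℂ) *
        ∑ x ∈ Ico L (2 * L) ×ˢ Icc 1 J, aa p1 p2 b c2 Φ k x.1 x.2 e1 := by
    refine Finset.sum_congr rfl fun e1 _ => Finset.sum_congr rfl fun k _ => ?_
    rw [Finset.sum_product, Finset.mul_sum]
    refine Finset.sum_congr rfl fun l _ => ?_
    unfold aa
    by_cases h : Nat.Coprime (e1 * p2) (p1 * (k * l))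
    · simp only [if_pos h]
      rw [Finset.mul_sum, Finset.mul_sum]
      refine Finset.sum_congr rfl fun j _ => ?_
      push_cast
      ring
    · simp [if_neg h]
  rw [hre]
  refine (cauchy_two (Ico E (2 * E)) (Ico K (2 * K)) c1 hc1
    (fun e k => ∑ x ∈ Ico L (2 * L) ×ˢ Icc 1 J, aa p1 p2 b c2 Φ k x.1 x.2 e)).trans ?_
  have hcE : ((Ico E (2 * E)).card : ℝ) = E := by rw [Nat.card_Ico]; congr 1; omega
  have hcK : ((Ico K (2 * K)).card : ℝ) = K := by rw [Nat.card_Ico]; congr 1; omega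
  rw [hcE, hcK]
  have hexp : ∑ k ∈ Ico K (2 * K), ∑ e ∈ Ico E (2 * E),
      ‖∑ x ∈ Ico L (2 * L) ×ˢ Icc 1 J, aa p1 p2 b c2 Φ k x.1 x.2 e‖ ^ 2 ≤
      ∑ k ∈ Ico K (2 * K), ∑ x ∈ Ico L (2 * L) ×ˢ Icc 1 J, ∑ y ∈ Ico L (2 * L) ×ˢ Icc 1 J,
      ‖∑ e1 ∈ Ico E (2 * E), aa p1 p2 b c2 Φ k x.1 x.2 e1 *
        (starRingEnd ℂ) (aa p1 p2 b c2 Φ k y.1 y.2 e1)‖ :=
    Finset.sum_le_sum fun k _ => expand_sq (Ico L (2 * L) ×ˢ Icc 1 J) (Ico E (2 * E))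
      (fun x e => aa p1 p2 b c2 Φ k x.1 x.2 e)
  have hblock := block_sum ε1 C1 C2 C4 hε1p hC1 hC2 hW hτ hdiag hgcd hgg E K L J p1 p2 b V c2 Φ
    hE hK hL hJ hp1 hp2 hpp hb hV hc2 hc2' hΦ1 hΦ2
  -- the parameter `X`
  set X : ℝ := (p1 : ℝ) * p2 * |(b : ℝ)| * E * K * L * J with hX
  have hX1 : 1 ≤ X := by
    rw [hX]
    have a1 := one_le_mul_of_one_le_of_one_le hp11 hp21
    have a2 := one_le_mul_of_one_le_of_one_le a1 hb1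
    have a3 := one_le_mul_of_one_le_of_one_le a2 hE1
    have a4 := one_le_mul_of_one_le_of_one_le a3 hK1
    have a5 := one_le_mul_of_one_le_of_one_le a4 hL1
    exact one_le_mul_of_one_le_of_one_le a5 hJ1
  have hX0 : 0 < X := by linarith
  have hmono : ∀ {a c : ℝ}, 1 ≤ c → 0 ≤ a → a ≤ a * c := fun hc ha => by nlinarith
  have hXa : (p1 : ℝ) * K * L ≤ X := by
    have : X = (p1 : ℝ) * K * L * (p2 * |(b : ℝ)| * E * J) := by rw [hX]; ring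
    rw [this]
    refine hmono ?_ (by positivity)
    exact one_le_mul_of_one_le_of_one_le (one_le_mul_of_one_le_of_one_le
      (one_le_mul_of_one_le_of_one_le hp21 hb1) hE1) hJ1
  have hXb : |(b : ℝ)| * (J * L) ≤ X := by
    have : X = |(b : ℝ)| * (J * L) * ((p1 : ℝ) * p2 * E * K) := by rw [hX]; ring
    rw [this]
    refine hmono ?_ (by positivity)
    exact one_le_mul_of_one_le_of_one_le (one_le_mul_of_one_le_of_one_le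
      (one_le_mul_of_one_le_of_one_le hp11 hp21) hE1) hK1
  have hXJ : (L : ℝ) * J ≤ X := by
    refine le_trans ?_ hXb
    calc (L : ℝ) * J = 1 * (J * L) := by ring
      _ ≤ |(b : ℝ)| * (J * L) := by gcongr
  have hXL : (L : ℝ) ≤ X := by
    refine le_trans ?_ hXJ
    nlinarith
  set P : ℝ := X ^ ε1 with hP
  have hP1 : 1 ≤ P := Real.one_le_rpow hX1 hε1p.le
  have hP0 : 0 < P := by linarith
  have hPε : X ^ ε = P ^ 4 := by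
    rw [hP, hε4, ← Real.rpow_natCast, ← Real.rpow_mul hX0.le]
    congr 1
    push_cast; ring
  have hu8 : (8 * p1 * K * L ^ 2 : ℝ) ^ ε1 ≤ (8 : ℝ) ^ ε1 * P ^ 2 := by
    have a1 : (8 * p1 * K * L ^ 2 : ℝ) ≤ 8 * X ^ 2 := by
      calc (8 * p1 * K * L ^ 2 : ℝ) = 8 * ((p1 * K * L) * L) := by ring
        _ ≤ 8 * (X * X) := by gcongr
        _ = 8 * X ^ 2 := by ring
    refine (Real.rpow_le_rpow (by positivity) a1 hε1p.le).trans (le_of_eq ?_)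
    rw [Real.mul_rpow (by norm_num) (by positivity), hP, ← Real.rpow_natCast,
      ← Real.rpow_natCast, ← Real.rpow_mul hX0.le, ← Real.rpow_mul hX0.le, mul_comm ε1]
  have hu2 : (|(b : ℝ)| * (J * (2 * L))) ^ ε1 ≤ (2 : ℝ) ^ ε1 * P := by
    have a1 : |(b : ℝ)| * (J * (2 * L)) ≤ 2 * X := by
      calc |(b : ℝ)| * (J * (2 * L)) = 2 * (|(b : ℝ)| * (J * L)) := by ring
        _ ≤ 2 * X := by gcongr
    refine (Real.rpow_le_rpow (by positivity) a1 hε1p.le).trans (le_of_eq ?_)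
    rw [Real.mul_rpow (by norm_num) hX0.le]
  have hulog : 1 + Real.log (2 * L) ≤ (1 + 1 / ε1) * (2 : ℝ) ^ ε1 * P := by
    have a1 : Real.log (2 * L) ≤ (2 * L : ℝ) ^ ε1 / ε1 :=
      Real.log_le_rpow_div (by positivity) hε1p
    have a2 : (2 * L : ℝ) ^ ε1 ≤ (2 : ℝ) ^ ε1 * P := by
      rw [Real.mul_rpow (by norm_num) (by positivity)]
      exact mul_le_mul_of_nonneg_left (Real.rpow_le_rpow (by positivity) hXL hε1p.le)
        (by positivity)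
    have a3 : 1 ≤ (2 * L : ℝ) ^ ε1 := Real.one_le_rpow (by linarith) hε1p.le
    calc 1 + Real.log (2 * L) ≤ (2 * L : ℝ) ^ ε1 + (2 * L : ℝ) ^ ε1 / ε1 := add_le_add a3 a1
      _ = (1 + 1 / ε1) * (2 * L : ℝ) ^ ε1 := by ring
      _ ≤ (1 + 1 / ε1) * ((2 : ℝ) ^ ε1 * P) := by gcongr
      _ = _ := by ring
  have hulog0 : 0 ≤ 1 + Real.log (2 * L) := by
    have : 0 ≤ Real.log (2 * L) := Real.log_nonneg (by linarith)
    linarith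
  have hudiag : (2 * L * J : ℝ) ^ (1 + ε1) ≤ (2 * (2 : ℝ) ^ ε1) * P * (L * J) := by
    rw [Real.rpow_add (by positivity), Real.rpow_one]
    have a1 : (2 * L * J : ℝ) ^ ε1 ≤ (2 : ℝ) ^ ε1 * P := by
      have a2 : (2 * L * J : ℝ) = 2 * (L * J) := by ring
      rw [a2, Real.mul_rpow (by norm_num) (by positivity)]
      exact mul_le_mul_of_nonneg_left (Real.rpow_le_rpow (by positivity) hXJ hε1p.le)
        (by positivity)
    calc (2 * L * J : ℝ) * (2 * L * J : ℝ) ^ ε1 ≤ (2 * L * J : ℝ) * ((2 : ℝ) ^ ε1 * P) := by gcongr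
      _ = _ := by ring
  obtain ⟨s, hs⟩ : ∃ s : ℝ, s = Real.sqrt K := ⟨_, rfl⟩
  have hs0 : 0 < s := by rw [hs]; exact Real.sqrt_pos.2 (by linarith)
  have hsK : s ^ 2 = K := by rw [hs]; exact Real.sq_sqrt (by linarith)
  have hK52 : (K : ℝ) ^ (5 / 2 : ℝ) = s ^ 5 := by
    rw [← hsK, ← Real.rpow_natCast, ← Real.rpow_natCast, ← Real.rpow_mul hs0.le]
    norm_num
  have hK32 : (K : ℝ) ^ (3 / 2 : ℝ) = s ^ 3 := by
    rw [← hsK, ← Real.rpow_natCast, ← Real.rpow_natCast, ← Real.rpow_mul hs0.le]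
    norm_num
  rw [← hs] at hblock
  rw [hPε, hK52, hK32]
  set G8 : ℝ := C1 * (8 : ℝ) ^ ε1 with hG8
  set G2 : ℝ := C2 * (2 : ℝ) ^ ε1 with hG2
  set Gl : ℝ := (1 + 1 / ε1) * (2 : ℝ) ^ ε1 with hGl
  set G4 : ℝ := C4 * (2 * (2 : ℝ) ^ ε1) with hG4
  have hG80 : 0 < G8 := by positivity
  have hG20 : 0 < G2 := by positivity
  have hGl0 : 0 < Gl := by positivity
  have hG40 : 0 < G4 := by positivity
  have hV0 : 0 < V := by linarith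
  have b1 : C4 * (2 * L * J : ℝ) ^ (1 + ε1) ≤ G4 * P * (L * J) := by
    calc C4 * (2 * L * J : ℝ) ^ (1 + ε1) ≤ C4 * ((2 * (2 : ℝ) ^ ε1) * P * (L * J)) := by gcongr
      _ = _ := by rw [hG4]; ring
  have b2 : C1 * (8 * p1 * K * L ^ 2 : ℝ) ^ ε1 ≤ G8 * P ^ 2 := by
    calc C1 * (8 * p1 * K * L ^ 2 : ℝ) ^ ε1 ≤ C1 * ((8 : ℝ) ^ ε1 * P ^ 2) := by gcongr
      _ = _ := by rw [hG8]; ring
  have b3 : C2 * (|(b : ℝ)| * (J * (2 * L))) ^ ε1 ≤ G2 * P := by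
    calc C2 * (|(b : ℝ)| * (J * (2 * L))) ^ ε1 ≤ C2 * ((2 : ℝ) ^ ε1 * P) := by gcongr
      _ = _ := by rw [hG2]; ring
  have hP4 : P ≤ P ^ 4 := le_self_pow₀ hP1 (by norm_num)
  have hP24 : P ^ 2 ≤ P ^ 4 := pow_le_pow_right₀ hP1 (by norm_num)
  have hblock2 : ∑ k ∈ Ico K (2 * K), ∑ x ∈ Ico L (2 * L) ×ˢ Icc 1 J,
      ∑ y ∈ Ico L (2 * L) ×ˢ Icc 1 J,
      ‖∑ e1 ∈ Ico E (2 * E), aa p1 p2 b c2 Φ k x.1 x.2 e1 *
        (starRingEnd ℂ) (aa p1 p2 b c2 Φ k y.1 y.2 e1)‖ ≤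
      K * (E * (G4 * P * (L * J))) +
      K * (G8 * P ^ 2 * (9 * V) * (3 * p1 * s * L)) * (L ^ 2 * J ^ 2) +
      (G8 * P ^ 2 * (9 * V)) * (E * |(b : ℝ)| * J / (s * L)) *
        (2 * K * (G2 * P)) * (J ^ 2 * ((2 * L) ^ 2 * (Gl * P))) := by
    refine hblock.trans ?_
    gcongr
  calc (E : ℝ) * K * ∑ k ∈ Ico K (2 * K), ∑ e ∈ Ico E (2 * E),
      ‖∑ x ∈ Ico L (2 * L) ×ˢ Icc 1 J, aa p1 p2 b c2 Φ k x.1 x.2 e‖ ^ 2
      ≤ (E : ℝ) * K * (K * (E * (G4 * P * (L * J))) +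
      K * (G8 * P ^ 2 * (9 * V) * (3 * p1 * s * L)) * (L ^ 2 * J ^ 2) +
      (G8 * P ^ 2 * (9 * V)) * (E * |(b : ℝ)| * J / (s * L)) *
        (2 * K * (G2 * P)) * (J ^ 2 * ((2 * L) ^ 2 * (Gl * P)))) := by
        gcongr
        exact hexp.trans hblock2
    _ = G4 * P * ((E : ℝ) ^ 2 * K ^ 2 * L * J) +
        27 * G8 * (P ^ 2) * V * p1 * (E * s ^ 5 * L ^ 3 * J ^ 2) +
        72 * G8 * G2 * Gl * P ^ 4 * V * |(b : ℝ)| * ((E : ℝ) ^ 2 * s ^ 3 * L * J ^ 3) := by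
        rw [← hsK]
        field_simp
        ring
    _ ≤ G4 * (V * P ^ 4) * ((E : ℝ) ^ 2 * K ^ 2 * L * J) +
        27 * G8 * (V * P ^ 4) * (|(b : ℝ)| * p1 * (E * s ^ 5 * L ^ 3 * J ^ 2)) +
        72 * G8 * G2 * Gl * (V * P ^ 4) *
          (|(b : ℝ)| * p1 * ((E : ℝ) ^ 2 * s ^ 3 * L * J ^ 3)) := by
        have c1 : G4 * P ≤ G4 * (V * P ^ 4) := by
          refine mul_le_mul_of_nonneg_left ?_ hG40.le
          calc P = 1 * P := (one_mul P).symm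
            _ ≤ V * P ^ 4 := mul_le_mul hV hP4 hP0.le hV0.le
        have c2' : 27 * G8 * (P ^ 2) * V * p1 * (E * s ^ 5 * L ^ 3 * J ^ 2) ≤
            27 * G8 * (V * P ^ 4) * (|(b : ℝ)| * p1 * (E * s ^ 5 * L ^ 3 * J ^ 2)) := by
          calc 27 * G8 * (P ^ 2) * V * p1 * (E * s ^ 5 * L ^ 3 * J ^ 2) =
              27 * G8 * (V * P ^ 2) * (1 * p1 * (E * s ^ 5 * L ^ 3 * J ^ 2)) := by ring
            _ ≤ _ := by gcongr
        have c3' : 72 * G8 * G2 * Gl * P ^ 4 * V * |(b : ℝ)| * ((E : ℝ) ^ 2 * s ^ 3 * L * J ^ 3) ≤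
            72 * G8 * G2 * Gl * (V * P ^ 4) *
              (|(b : ℝ)| * p1 * ((E : ℝ) ^ 2 * s ^ 3 * L * J ^ 3)) := by
          calc 72 * G8 * G2 * Gl * P ^ 4 * V * |(b : ℝ)| * ((E : ℝ) ^ 2 * s ^ 3 * L * J ^ 3) =
              72 * G8 * G2 * Gl * (V * P ^ 4) *
                (|(b : ℝ)| * 1 * ((E : ℝ) ^ 2 * s ^ 3 * L * J ^ 3)) := by ring
            _ ≤ _ := by gcongr
        have c4 := mul_le_mul_of_nonneg_right c1
          (by positivity : (0 : ℝ) ≤ (E : ℝ) ^ 2 * K ^ 2 * L * J)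
        linarith
    _ ≤ _ := by
        have d1 : 0 ≤ (E : ℝ) ^ 2 * K ^ 2 * L * J := by positivity
        have d2 : 0 ≤ |(b : ℝ)| * p1 * (E * s ^ 5 * L ^ 3 * J ^ 2) := by positivity
        have d3 : 0 ≤ |(b : ℝ)| * p1 * ((E : ℝ) ^ 2 * s ^ 3 * L * J ^ 3) := by positivity
        set A1 : ℝ := (E : ℝ) ^ 2 * K ^ 2 * L * J with hA1
        set A2 : ℝ := |(b : ℝ)| * p1 * (E * s ^ 5 * L ^ 3 * J ^ 2) with hA2
        set A3 : ℝ := |(b : ℝ)| * p1 * ((E : ℝ) ^ 2 * s ^ 3 * L * J ^ 3) with hA3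
        have d4 : |(b : ℝ)| * p1 * ((E : ℝ) * s ^ 5 * L ^ 3 * J ^ 2 +
            (E : ℝ) ^ 2 * s ^ 3 * L * J ^ 3) = A2 + A3 := by rw [hA2, hA3]; ring
        rw [d4]
        have d5 : 0 ≤ V * P ^ 4 := by positivity
        have d6 : (G4 + 27 * G8 + 72 * G8 * G2 * Gl) * V * P ^ 4 * (A1 + (A2 + A3)) -
            (G4 * (V * P ^ 4) * A1 + 27 * G8 * (V * P ^ 4) * A2 +
              72 * G8 * G2 * Gl * (V * P ^ 4) * A3) =
            (V * P ^ 4) * (G4 * (A2 + A3) + 27 * G8 * (A1 + A3) +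
              72 * G8 * G2 * Gl * (A1 + A2)) := by ring
        have d7 : 0 ≤ (V * P ^ 4) * (G4 * (A2 + A3) + 27 * G8 * (A1 + A3) +
              72 * G8 * G2 * Gl * (A1 + A2)) := by positivity
        linarith

end Pool.Agent.H262R4.FR
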