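import Pool.Agent.H262R4.FR.Stubs
import Pool.Agent.H510R2.Div

set_option autoImplicit false

namespace Pool.Agent.H262R4.FR

open Finset

namespace TW3

theorem Icc_eq_Ioc (n : ℕ) : Icc 1 n = Ioc 0 n := by
  ext x; rw [mem_Icc, mem_Ioc]; omega

theorem part1 : ∀ ε : ℝ, 0 < ε → ∃ C : ℝ, 0 < C ∧ ∀ L J : ℕ, 1 ≤ L → 1 ≤ J →
    ((((Icc 1 L ×ˢ Icc 1 L) ×ˢ (Icc 1 J ×ˢ Icc 1 J)).filter
      (fun x : (ℕ × ℕ) × (ℕ × ℕ) => x.2.1 * x.1.2 = x.2.2 * x.1.1)).card : ℝ) ≤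
      C * ((L : ℝ) * J) ^ (1 + ε) := by
  intro ε hε
  obtain ⟨C, hC, hdiv⟩ := Pool.Agent.H510R2.divisor_bound (ε / 2) (by positivity)
  refine ⟨C ^ 2, by positivity, ?_⟩
  intro L J hL hJ
  have hLJ : (1 : ℝ) ≤ (L : ℝ) * J := by
    have h1 : (1 : ℝ) ≤ L := by exact_mod_cast hL
    have h2 : (1 : ℝ) ≤ J := by exact_mod_cast hJ
    nlinarith
  set s := (((Icc 1 L ×ˢ Icc 1 L) ×ˢ (Icc 1 J ×ˢ Icc 1 J)).filter
      (fun x : (ℕ × ℕ) × (ℕ × ℕ) => x.2.1 * x.1.2 = x.2.2 * x.1.1)) with hs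
  have hmem : ∀ x ∈ s, 1 ≤ x.1.1 ∧ x.1.1 ≤ L ∧ 1 ≤ x.1.2 ∧ x.1.2 ≤ L ∧ 1 ≤ x.2.1 ∧ x.2.1 ≤ J ∧
      1 ≤ x.2.2 ∧ x.2.2 ≤ J ∧ x.2.1 * x.1.2 = x.2.2 * x.1.1 := by
    intro x hx
    rw [hs, mem_filter, mem_product, mem_product, mem_product, mem_Icc, mem_Icc, mem_Icc,
      mem_Icc] at hx
    obtain ⟨⟨⟨⟨a, b⟩, c, d⟩, ⟨e, f⟩, g, h⟩, i⟩ := hx
    exact ⟨a, b, c, d, e, f, g, h, i⟩
  have hcard : s.card = ∑ N ∈ Icc 1 (J * L), (s.filter (fun x => x.2.1 * x.1.2 = N)).card := by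
    apply Finset.card_eq_sum_card_fiberwise
    intro x hx
    obtain ⟨a, b, c, d, e, f, g, h, i⟩ := hmem x hx
    rw [Finset.mem_coe, mem_Icc]
    exact ⟨Nat.mul_pos e c, Nat.mul_le_mul f d⟩
  have hfib : ∀ N ∈ Icc 1 (J * L),
      ((s.filter (fun x => x.2.1 * x.1.2 = N)).card : ℝ) ≤ (C * ((L : ℝ) * J) ^ (ε / 2)) ^ 2 := by
    intro N hN
    rw [mem_Icc] at hN
    have h1 : (s.filter (fun x => x.2.1 * x.1.2 = N)).card ≤
        (N.divisors ×ˢ N.divisors).card := by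
      apply Finset.card_le_card_of_injOn (fun x => (x.2.1, x.2.2))
      · intro x hx
        have hx' := Finset.mem_filter.1 (Finset.mem_coe.1 hx)
        obtain ⟨a, b, c, d, e, f, g, h, i⟩ := hmem x hx'.1
        rw [Finset.mem_coe, mem_product, Nat.mem_divisors, Nat.mem_divisors]
        have hN0 : N ≠ 0 := by omega
        exact ⟨⟨⟨x.1.2, hx'.2.symm⟩, hN0⟩, ⟨⟨x.1.1, by rw [← hx'.2, i]⟩, hN0⟩⟩
      · intro x hx y hy hxy
        have hx' := Finset.mem_filter.1 (Finset.mem_coe.1 hx)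
        have hy' := Finset.mem_filter.1 (Finset.mem_coe.1 hy)
        obtain ⟨a, b, c, d, e, f, g, h, i⟩ := hmem x hx'.1
        obtain ⟨a', b', c', d', e', f', g', h', i'⟩ := hmem y hy'.1
        have h1 : x.2.1 = y.2.1 := congrArg Prod.fst hxy
        have h2 : x.2.2 = y.2.2 := congrArg Prod.snd hxy
        have h3 : x.2.1 * x.1.2 = x.2.1 * y.1.2 := by
          rw [hx'.2, h1, hy'.2]
        have h4 : x.2.2 * x.1.1 = x.2.2 * y.1.1 := by
          rw [← i, hx'.2, h2, ← i', hy'.2]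
        have h5 : x.1.2 = y.1.2 := Nat.eq_of_mul_eq_mul_left e h3
        have h6 : x.1.1 = y.1.1 := Nat.eq_of_mul_eq_mul_left g h4
        exact Prod.ext (Prod.ext h6 h5) (Prod.ext h1 h2)
    rw [card_product] at h1
    have h2 : (N.divisors.card : ℝ) ≤ C * ((L : ℝ) * J) ^ (ε / 2) := by
      refine (hdiv N hN.1).trans ?_
      apply mul_le_mul_of_nonneg_left _ hC.le
      apply Real.rpow_le_rpow (by positivity) _ (by positivity)
      have : (N : ℝ) ≤ ((J * L : ℕ) : ℝ) := by exact_mod_cast hN.2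
      push_cast at this
      linarith [mul_comm (J : ℝ) L]
    calc ((s.filter (fun x => x.2.1 * x.1.2 = N)).card : ℝ)
        ≤ ((N.divisors.card * N.divisors.card : ℕ) : ℝ) := by exact_mod_cast h1
      _ = (N.divisors.card : ℝ) ^ 2 := by push_cast; ring
      _ ≤ _ := pow_le_pow_left₀ (by positivity) h2 2
  rw [hcard]
  push_cast
  calc ∑ N ∈ Icc 1 (J * L), ((s.filter (fun x => x.2.1 * x.1.2 = N)).card : ℝ)
      ≤ ∑ _N ∈ Icc 1 (J * L), (C * ((L : ℝ) * J) ^ (ε / 2)) ^ 2 := sum_le_sum hfib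
    _ = (J * L : ℕ) * (C * ((L : ℝ) * J) ^ (ε / 2)) ^ 2 := by
        rw [sum_const, Nat.card_Icc, nsmul_eq_mul]; simp
    _ = C ^ 2 * ((L : ℝ) * J) ^ (1 + ε) := by
        have h0 : (0 : ℝ) < (L : ℝ) * J := by linarith
        have e1 : ((L : ℝ) * J) ^ (1 + ε) = ((L : ℝ) * J) *
            (((L : ℝ) * J) ^ (ε / 2) * ((L : ℝ) * J) ^ (ε / 2)) := by
          rw [← Real.rpow_add h0, Real.rpow_add h0, Real.rpow_one]
          ring_nf
        rw [e1]; push_cast; ring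

theorem part2 : ∀ (B : ℤ) (K : ℕ), B ≠ 0 →
    ∑ k ∈ Icc 1 K, Real.sqrt (Int.gcd B k) ≤ (K : ℝ) * (B.natAbs.divisors.card : ℝ) := by
  intro B K hB
  have hB' : B.natAbs ≠ 0 := by simpa using hB
  have h1 : ∀ k ∈ Icc 1 K, Real.sqrt (Int.gcd B k) ≤
      ∑ f ∈ B.natAbs.divisors, if f ∣ k then Real.sqrt f else 0 := by
    intro k _
    have hg : Int.gcd B k ∈ B.natAbs.divisors := by
      rw [Nat.mem_divisors]
      refine ⟨?_, hB'⟩
      rw [Int.gcd]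
      exact Nat.gcd_dvd_left _ _
    have hgk : Int.gcd B k ∣ k := by
      rw [Int.gcd]
      simpa using Nat.gcd_dvd_right B.natAbs (Int.natAbs (k : ℤ))
    calc Real.sqrt (Int.gcd B k) = if Int.gcd B k ∣ k then Real.sqrt (Int.gcd B k : ℕ) else 0 := by
          rw [if_pos hgk]
      _ ≤ _ := by
          apply Finset.single_le_sum
            (f := fun f : ℕ => if f ∣ k then Real.sqrt f else 0) _ hg
          intro f _
          positivity
  calc ∑ k ∈ Icc 1 K, Real.sqrt (Int.gcd B k)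
      ≤ ∑ k ∈ Icc 1 K, ∑ f ∈ B.natAbs.divisors, (if f ∣ k then Real.sqrt f else 0) :=
        sum_le_sum h1
    _ = ∑ f ∈ B.natAbs.divisors, ∑ k ∈ Icc 1 K, (if f ∣ k then Real.sqrt f else 0) :=
        sum_comm
    _ ≤ ∑ _f ∈ B.natAbs.divisors, (K : ℝ) := by
        apply sum_le_sum
        intro f hf
        have hf1 : 1 ≤ f := Nat.pos_of_mem_divisors hf
        have hf1' : (1 : ℝ) ≤ f := by exact_mod_cast hf1
        rw [← sum_filter, sum_const, Icc_eq_Ioc, Nat.Ioc_filter_dvd_card_eq_div, nsmul_eq_mul]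
        have h2 : ((K / f : ℕ) : ℝ) ≤ (K : ℝ) / f := Nat.cast_div_le
        calc ((K / f : ℕ) : ℝ) * Real.sqrt f ≤ (K : ℝ) / f * f := by
              apply mul_le_mul h2 _ (Real.sqrt_nonneg _) (by positivity)
              rw [Real.sqrt_le_left (by positivity)]
              nlinarith
          _ = K := by field_simp
    _ = (K : ℝ) * (B.natAbs.divisors.card : ℝ) := by
        rw [sum_const, nsmul_eq_mul]; ring

theorem part3 : ∀ L : ℕ, 1 ≤ L → ∑ l1 ∈ Icc 1 L, ∑ l2 ∈ Icc 1 L, (Nat.gcd l1 l2 : ℝ) ≤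
    (L : ℝ) ^ 2 * (1 + Real.log L) := by
  intro L hL
  have h1 : ∀ l1 ∈ Icc 1 L, ∀ l2 ∈ Icc 1 L, (Nat.gcd l1 l2 : ℝ) =
      ∑ f ∈ Icc 1 L, (Nat.totient f : ℝ) * ((if f ∣ l1 then 1 else 0) * (if f ∣ l2 then 1 else 0)) := by
    intro l1 hl1 l2 hl2
    rw [mem_Icc] at hl1 hl2
    have hgpos : 0 < Nat.gcd l1 l2 := Nat.gcd_pos_of_pos_left _ hl1.1
    have hsub : (Nat.gcd l1 l2).divisors ⊆ Icc 1 L := by
      intro f hf
      rw [mem_Icc]
      refine ⟨Nat.pos_of_mem_divisors hf, ?_⟩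
      exact (Nat.le_of_dvd (by omega)
        ((Nat.dvd_of_mem_divisors hf).trans (Nat.gcd_dvd_left l1 l2))).trans hl1.2
    have hcast : (Nat.gcd l1 l2 : ℝ) = ∑ f ∈ (Nat.gcd l1 l2).divisors, (Nat.totient f : ℝ) := by
      conv_lhs => rw [← Nat.sum_totient (Nat.gcd l1 l2)]
      push_cast; rfl
    rw [hcast]
    have : ∀ f ∈ (Nat.gcd l1 l2).divisors, (Nat.totient f : ℝ) =
        (Nat.totient f : ℝ) * ((if f ∣ l1 then 1 else 0) * (if f ∣ l2 then 1 else 0)) := by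
      intro f hf
      have hd := Nat.dvd_of_mem_divisors hf
      rw [if_pos (hd.trans (Nat.gcd_dvd_left l1 l2)), if_pos (hd.trans (Nat.gcd_dvd_right l1 l2))]
      ring
    rw [sum_congr rfl this]
    apply sum_subset hsub
    intro f _ hf
    by_cases h1 : f ∣ l1
    · by_cases h2 : f ∣ l2
      · exfalso
        exact hf (Nat.mem_divisors.2 ⟨Nat.dvd_gcd h1 h2, hgpos.ne'⟩)
      · simp [h2]
    · simp [h1]
  calc ∑ l1 ∈ Icc 1 L, ∑ l2 ∈ Icc 1 L, (Nat.gcd l1 l2 : ℝ)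
      = ∑ l1 ∈ Icc 1 L, ∑ l2 ∈ Icc 1 L, ∑ f ∈ Icc 1 L, (Nat.totient f : ℝ) *
          ((if f ∣ l1 then 1 else 0) * (if f ∣ l2 then 1 else 0)) := by
        apply sum_congr rfl; intro l1 hl1
        apply sum_congr rfl; intro l2 hl2
        exact h1 l1 hl1 l2 hl2
    _ = ∑ f ∈ Icc 1 L, (Nat.totient f : ℝ) * ((∑ l1 ∈ Icc 1 L, (if f ∣ l1 then (1 : ℝ) else 0)) *
          (∑ l2 ∈ Icc 1 L, (if f ∣ l2 then (1 : ℝ) else 0))) := by
        have e1 : ∀ l1 ∈ Icc 1 L, ∑ l2 ∈ Icc 1 L, ∑ f ∈ Icc 1 L, (Nat.totient f : ℝ) *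
            ((if f ∣ l1 then (1 : ℝ) else 0) * (if f ∣ l2 then (1 : ℝ) else 0)) =
            ∑ f ∈ Icc 1 L, ∑ l2 ∈ Icc 1 L, (Nat.totient f : ℝ) *
            ((if f ∣ l1 then (1 : ℝ) else 0) * (if f ∣ l2 then (1 : ℝ) else 0)) := by
          intro l1 _
          exact sum_comm
        rw [sum_congr rfl e1, sum_comm]
        apply sum_congr rfl
        intro f _
        rw [sum_mul_sum, mul_sum]
        apply sum_congr rfl
        intro l1 _
        rw [mul_sum]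
    _ ≤ ∑ f ∈ Icc 1 L, (L : ℝ) ^ 2 * (f : ℝ)⁻¹ := by
        apply sum_le_sum
        intro f hf
        rw [mem_Icc] at hf
        have hf1' : (1 : ℝ) ≤ f := by exact_mod_cast hf.1
        have hc : ∑ l1 ∈ Icc 1 L, (if f ∣ l1 then (1 : ℝ) else 0) = ((L / f : ℕ) : ℝ) := by
          rw [← sum_filter, sum_const, Icc_eq_Ioc, Nat.Ioc_filter_dvd_card_eq_div, nsmul_eq_mul,
            mul_one]
        rw [hc]
        have h2 : ((L / f : ℕ) : ℝ) ≤ (L : ℝ) / f := Nat.cast_div_le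
        have h3 : (Nat.totient f : ℝ) ≤ f := by exact_mod_cast Nat.totient_le f
        calc (Nat.totient f : ℝ) * (((L / f : ℕ) : ℝ) * ((L / f : ℕ) : ℝ))
            ≤ (f : ℝ) * ((L : ℝ) / f * ((L : ℝ) / f)) := by
              apply mul_le_mul h3 _ (by positivity) (by positivity)
              apply mul_le_mul h2 h2 (by positivity) (by positivity)
          _ = (L : ℝ) ^ 2 * (f : ℝ)⁻¹ := by field_simp
    _ = (L : ℝ) ^ 2 * ∑ f ∈ Icc 1 L, (f : ℝ)⁻¹ := by rw [mul_sum]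
    _ ≤ (L : ℝ) ^ 2 * (1 + Real.log L) := by
        apply mul_le_mul_of_nonneg_left _ (by positivity)
        have h := harmonic_le_one_add_log L
        rw [harmonic_eq_sum_Icc] at h
        push_cast at h
        exact h

end TW3

/-- task W3 -/
theorem t_W3 : P_W3 := ⟨TW3.part1, TW3.part2, TW3.part3⟩

end Pool.Agent.H262R4.FR
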