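import Pool.Agent.H262R4.FR.W4f

namespace Pool.Agent.H262R4.FR
namespace TW4

open Finset
open Pool.Agent.H442R2.KF (e kf Wt tau norm_e norm_e_sub_le norm_kf)

/-- the trivial bound -/
noncomputable def Gt (a : ℤ) (Y P Z : ℕ) : ℝ :=
  ∑ d1 ∈ Icc 1 (Z ^ 2), ∑ d2 ∈ Icc 1 (Z ^ 2), ∑ p1 ∈ Icc 1 (2 * P), ∑ p2 ∈ Icc 1 (2 * P),
    3 ^ om d1 * 3 ^ om d2 * |S11 a Y d1 d2 p1 p2 - mn Y d1 d2 p1 p2|

theorem Gt_nonneg (a : ℤ) (Y P Z : ℕ) : 0 ≤ Gt a Y P Z := by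
  unfold Gt
  refine Finset.sum_nonneg fun _ _ => Finset.sum_nonneg fun _ _ => Finset.sum_nonneg fun _ _ =>
    Finset.sum_nonneg fun _ _ => ?_
  positivity

theorem off_triv {a : ℤ} {Y P P' Z : ℕ} {S : Finset ℕ} {lam : ℕ → ℝ} (hPP : P' ≤ 2 * P)
    (hS : ∀ d ∈ S, 1 ≤ d ∧ d ≤ Z ^ 2 ∧ Int.gcd a d = 1) (hl : ∀ d, |lam d| ≤ 3 ^ om d) :
    |OFF a lam S (Pr P P') Y| ≤ Gt a Y P Z := by
  classical
  have hS' : S ⊆ Icc 1 (Z ^ 2) := by
    intro d hd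
    rw [mem_Icc]
    exact ⟨(hS d hd).1, (hS d hd).2.1⟩
  have hT' : Pr P P' ⊆ Icc 1 (2 * P) := by
    intro p hp
    unfold Pr at hp
    rw [mem_filter, mem_Ioc] at hp
    rw [mem_Icc]
    exact ⟨hp.2.one_le, hp.1.2.trans hPP⟩
  have h0 : ∀ d1 d2 p1 p2 : ℕ,
      0 ≤ (3 : ℝ) ^ om d1 * 3 ^ om d2 * |S11 a Y d1 d2 p1 p2 - mn Y d1 d2 p1 p2| := by
    intros
    positivity
  unfold OFF Gt
  calc _ ≤ ∑ d1 ∈ S, ∑ d2 ∈ S, ∑ p1 ∈ Pr P P', ∑ p2 ∈ Pr P P',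
        (3 : ℝ) ^ om d1 * 3 ^ om d2 * |S11 a Y d1 d2 p1 p2 - mn Y d1 d2 p1 p2| := by
        refine (Finset.abs_sum_le_sum_abs _ _).trans (Finset.sum_le_sum fun d1 _ => ?_)
        refine (Finset.abs_sum_le_sum_abs _ _).trans (Finset.sum_le_sum fun d2 _ => ?_)
        refine (Finset.abs_sum_le_sum_abs _ _).trans (Finset.sum_le_sum fun p1 _ => ?_)
        refine (Finset.abs_sum_le_sum_abs _ _).trans (Finset.sum_le_sum fun p2 _ => ?_)
        split_ifs with h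
        · rw [abs_mul, abs_mul]
          exact mul_le_mul_of_nonneg_right
            (mul_le_mul (hl d1) (hl d2) (abs_nonneg _) (by positivity)) (abs_nonneg _)
        · rw [abs_zero]
          exact h0 _ _ _ _
    _ ≤ ∑ d1 ∈ S, ∑ d2 ∈ S, ∑ p1 ∈ Icc 1 (2 * P), ∑ p2 ∈ Icc 1 (2 * P),
        (3 : ℝ) ^ om d1 * 3 ^ om d2 * |S11 a Y d1 d2 p1 p2 - mn Y d1 d2 p1 p2| := by
        refine Finset.sum_le_sum fun d1 _ => Finset.sum_le_sum fun d2 _ => ?_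
        refine (Finset.sum_le_sum fun p1 _ =>
          Finset.sum_le_sum_of_subset_of_nonneg hT' fun p2 _ _ => h0 d1 d2 p1 p2).trans ?_
        exact Finset.sum_le_sum_of_subset_of_nonneg hT' fun p1 _ _ =>
          Finset.sum_nonneg fun p2 _ => h0 d1 d2 p1 p2
    _ ≤ _ := by
        refine (Finset.sum_le_sum fun d1 _ =>
          Finset.sum_le_sum_of_subset_of_nonneg hS' fun d2 _ _ =>
            Finset.sum_nonneg fun p1 _ => Finset.sum_nonneg fun p2 _ => h0 d1 d2 p1 p2).trans ?_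
        exact Finset.sum_le_sum_of_subset_of_nonneg hS' fun d1 _ _ =>
          Finset.sum_nonneg fun d2 _ => Finset.sum_nonneg fun p1 _ =>
            Finset.sum_nonneg fun p2 _ => h0 d1 d2 p1 p2

/-- the finite constant -/
noncomputable def Gs (a : ℤ) (Y0 : ℕ) : ℝ :=
  ∑ Y ∈ range Y0, ∑ P ∈ range Y0, ∑ Z ∈ range Y0, Gt a Y P Z

theorem Gs_le {a : ℤ} {Y0 Y P Z : ℕ} (hY : Y < Y0) (hP : P < Y0) (hZ : Z < Y0) :
    Gt a Y P Z ≤ Gs a Y0 := by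
  unfold Gs
  calc Gt a Y P Z ≤ ∑ Z ∈ range Y0, Gt a Y P Z :=
        Finset.single_le_sum (f := fun Z => Gt a Y P Z) (fun Z _ => Gt_nonneg a Y P Z)
          (mem_range.mpr hZ)
    _ ≤ ∑ P ∈ range Y0, ∑ Z ∈ range Y0, Gt a Y P Z :=
        Finset.single_le_sum (f := fun P => ∑ Z ∈ range Y0, Gt a Y P Z)
          (fun P _ => Finset.sum_nonneg fun Z _ => Gt_nonneg a Y P Z) (mem_range.mpr hP)
    _ ≤ _ := Finset.single_le_sum (f := fun Y => ∑ P ∈ range Y0, ∑ Z ∈ range Y0, Gt a Y P Z)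
          (fun Y _ => Finset.sum_nonneg fun P _ => Finset.sum_nonneg fun Z _ => Gt_nonneg a Y P Z)
          (mem_range.mpr hY)

theorem Gs_nonneg (a : ℤ) (Y0 : ℕ) : 0 ≤ Gs a Y0 := by
  unfold Gs
  exact Finset.sum_nonneg fun Y _ => Finset.sum_nonneg fun P _ => Finset.sum_nonneg fun Z _ =>
    Gt_nonneg a Y P Z

theorem n_bd {ε x : ℝ} {Z : ℕ} (hε : 0 < ε) (hε1 : ε ≤ 1) (hx : 1 ≤ x) (hZ : (Z : ℝ) ^ 2 ≤ x) :
    ((Nat.log 2 (Z ^ 2) + 1 : ℕ) : ℝ) ≤ 3 / ε * x ^ ε := by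
  have hx0 : 0 < x := by linarith
  have h1 : 1 ≤ x ^ ε := Real.one_le_rpow hx hε.le
  have h2 : 1 ≤ 1 / ε * x ^ ε := by
    have : 1 ≤ 1 / ε := by
      rw [le_div_iff₀ hε]
      linarith
    calc (1 : ℝ) = 1 * 1 := by ring
      _ ≤ _ := mul_le_mul this h1 zero_le_one (by positivity)
  have h3 : (Nat.log 2 (Z ^ 2) : ℝ) ≤ 2 / ε * x ^ ε := by
    rcases Nat.eq_zero_or_pos Z with h | h
    · subst h
      simp
      positivity
    · have h4 : 2 ^ Nat.log 2 (Z ^ 2) ≤ Z ^ 2 := Nat.pow_log_le_self 2 (by positivity)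
      have h5 : (2 : ℝ) ^ Nat.log 2 (Z ^ 2) ≤ x := by
        have : ((2 ^ Nat.log 2 (Z ^ 2) : ℕ) : ℝ) ≤ ((Z ^ 2 : ℕ) : ℝ) := by exact_mod_cast h4
        push_cast at this
        linarith
      have h6 : (Nat.log 2 (Z ^ 2) : ℝ) * Real.log 2 ≤ Real.log x := by
        rw [← Real.log_pow]
        exact Real.log_le_log (by positivity) h5
      have h7 : Real.log x ≤ x ^ ε / ε := Real.log_le_rpow_div hx0.le hε
      have h8 := Real.log_two_gt_d9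
      have h9 : (0 : ℝ) ≤ (Nat.log 2 (Z ^ 2) : ℝ) := by positivity
      have h10 : (Nat.log 2 (Z ^ 2) : ℝ) * (1 / 2) ≤ x ^ ε / ε := by
        calc (Nat.log 2 (Z ^ 2) : ℝ) * (1 / 2) ≤ (Nat.log 2 (Z ^ 2) : ℝ) * Real.log 2 :=
              mul_le_mul_of_nonneg_left (by linarith) h9
          _ ≤ _ := h6.trans h7
      calc (Nat.log 2 (Z ^ 2) : ℝ) = 2 * ((Nat.log 2 (Z ^ 2) : ℝ) * (1 / 2)) := by ring
        _ ≤ 2 * (x ^ ε / ε) := by linarith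
        _ = _ := by ring
  push_cast
  calc (Nat.log 2 (Z ^ 2) : ℝ) + 1 ≤ 2 / ε * x ^ ε + 1 / ε * x ^ ε := add_le_add h3 h2
    _ = _ := by ring

theorem fin_num {κ C2 CB : ℝ} {a : ℤ} {Y P : ℕ} {n : ℝ} (hκ : 0 < κ) (hP : 1 ≤ P) (hY : 3 ≤ Y)
    (hPr : (P : ℝ) ≤ ((Y : ℝ) * P) ^ (κ / 100)) (hn0 : 0 ≤ n)
    (hn : n ≤ 3 / (κ / 100) * ((Y : ℝ) * P) ^ (κ / 100)) :
    (P : ℝ) ^ 3 * (n ^ 3 * Bd a κ C2 (CB * ((Y : ℝ) * P) ^ (κ / 100)) Y P) ≤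
      ((3 / (κ / 100)) ^ 3 * CB ^ 2 * (4 * √(C3 C2 |(a : ℝ)| (κ / 100)) + 1)) * Y * (P : ℝ) ^ 2 *
        ((Y : ℝ) * P) ^ (-(κ / 100)) := by
  have hP1 : (1 : ℝ) ≤ P := by exact_mod_cast hP
  have hY3 : (3 : ℝ) ≤ Y := by exact_mod_cast hY
  set x : ℝ := (Y : ℝ) * P with hxdef
  have hx : 1 ≤ x := by
    rw [hxdef]
    nlinarith
  have hx0 : 0 < x := by linarith
  unfold Bd
  rw [← hxdef]
  calc (P : ℝ) ^ 3 * (n ^ 3 * ((CB * x ^ (κ / 100)) ^ 2 * Y * x ^ (-(2 * κ / 5)) *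
        (4 * √(C3 C2 |(a : ℝ)| (κ / 100)) + 1))) =
      (P : ℝ) ^ 2 * P * (n ^ 3 * ((CB * x ^ (κ / 100)) ^ 2 * Y * x ^ (-(2 * κ / 5)) *
        (4 * √(C3 C2 |(a : ℝ)| (κ / 100)) + 1))) := by ring
    _ ≤ (P : ℝ) ^ 2 * x ^ (κ / 100) * ((3 / (κ / 100) * x ^ (κ / 100)) ^ 3 *
        ((CB * x ^ (κ / 100)) ^ 2 * Y * x ^ (-(2 * κ / 5)) *
        (4 * √(C3 C2 |(a : ℝ)| (κ / 100)) + 1))) := by
        gcongr
    _ = ((3 / (κ / 100)) ^ 3 * CB ^ 2 * (4 * √(C3 C2 |(a : ℝ)| (κ / 100)) + 1)) * Y * (P : ℝ) ^ 2 *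
        ((x ^ (κ / 100)) ^ 6 * x ^ (-(2 * κ / 5))) := by ring
    _ ≤ _ := by
        apply mul_le_mul_of_nonneg_left _ (by positivity)
        rw [← Real.rpow_natCast, ← Real.rpow_mul hx0.le, ← Real.rpow_add hx0]
        apply Real.rpow_le_rpow_of_exponent_le hx
        push_cast
        linarith

end TW4

theorem t_W4 (hW2 : P_W2) (hPHX : P_PHX) (hPH : P_PH) : P_W4 := by
  intro δ hδ
  set δ' : ℝ := min δ (4 / 75) with hδ'
  have hδ'0 : 0 < δ' := lt_min hδ (by norm_num)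
  have hδ'1 : δ' ≤ δ := min_le_left _ _
  have hδ'2 : δ' ≤ 4 / 75 := min_le_right _ _
  set κ : ℝ := 15 * δ' / 4 with hκdef
  have hκ0 : 0 < κ := by positivity
  have hκ1 : κ ≤ 1 / 5 := by rw [hκdef]; linarith
  obtain ⟨C2, hC2, h2⟩ := hW2 (κ / 100) (by positivity)
  obtain ⟨Y0, h3⟩ := hPHX
  obtain ⟨CB, hCB, hom⟩ := TW4.om_bound (κ / 100) (by positivity)
  refine ⟨κ / 100, κ / 100, by positivity, by linarith, by positivity, fun a ha => ?_⟩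
  have hM0 : 0 ≤ (3 / (κ / 100)) ^ 3 * CB ^ 2 *
      (4 * √(TW4.C3 C2 |(a : ℝ)| (κ / 100)) + 1) := by positivity
  have hG0 := TW4.Gs_nonneg a Y0
  refine ⟨(3 / (κ / 100)) ^ 3 * CB ^ 2 * (4 * √(TW4.C3 C2 |(a : ℝ)| (κ / 100)) + 1) +
    TW4.Gs a Y0 + 1, by linarith, ?_⟩
  intro Y P P' Z S lam hY hP hPr hPP hPP2 hZ hS hl hfac
  have hP1 : (1 : ℝ) ≤ P := by exact_mod_cast hP
  have hY3 : (3 : ℝ) ≤ Y := by exact_mod_cast hY
  set x : ℝ := (Y : ℝ) * P with hxdef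
  have hx : 1 ≤ x := by
    rw [hxdef]
    nlinarith
  have hx0 : 0 < x := by linarith
  have hZx : (Z : ℝ) ^ 2 ≤ x := by
    refine hZ.trans ?_
    calc x ^ (8 / 15 - δ) ≤ x ^ (1 : ℝ) := Real.rpow_le_rpow_of_exponent_le hx (by linarith)
      _ = x := Real.rpow_one x
  have hPY : (P : ℝ) ≤ Y := by
    have h1 : (P : ℝ) ^ 2 ≤ x := by
      calc (P : ℝ) ^ 2 ≤ (x ^ (κ / 100)) ^ 2 := pow_le_pow_left₀ (by positivity) hPr 2
        _ = x ^ ((κ / 100) * 2) := by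
            rw [Real.rpow_mul hx0.le]
            exact (Real.rpow_natCast _ 2).symm
        _ ≤ x ^ (1 : ℝ) := Real.rpow_le_rpow_of_exponent_le hx (by linarith)
        _ = x := Real.rpow_one x
    rw [hxdef, pow_two] at h1
    exact le_of_mul_le_mul_right h1 (by linarith)
  have hYxη : 1 ≤ (Y : ℝ) * x ^ (-(κ / 100)) := by
    have h1 : x ≤ (Y : ℝ) ^ 2 := by
      rw [hxdef, pow_two]
      exact mul_le_mul_of_nonneg_left hPY (by positivity)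
    have h2 : x ^ (κ / 100) ≤ Y := by
      calc x ^ (κ / 100) ≤ x ^ (1 / 2 : ℝ) :=
            Real.rpow_le_rpow_of_exponent_le hx (by linarith)
        _ ≤ ((Y : ℝ) ^ 2) ^ (1 / 2 : ℝ) := Real.rpow_le_rpow hx0.le h1 (by norm_num)
        _ = Y := by
            rw [← Real.sqrt_eq_rpow, Real.sqrt_sq (by positivity)]
    rw [Real.rpow_neg hx0.le, ← div_eq_mul_inv, le_div_iff₀ (by positivity), one_mul]
    exact h2
  have hYP : 1 ≤ (Y : ℝ) * (P : ℝ) ^ 2 * x ^ (-(κ / 100)) := by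
    calc (1 : ℝ) = 1 * 1 := by ring
      _ ≤ ((Y : ℝ) * x ^ (-(κ / 100))) * (P : ℝ) ^ 2 :=
          mul_le_mul hYxη (one_le_pow₀ hP1) zero_le_one (by positivity)
      _ = _ := by ring
  by_cases hYY : Y0 ≤ Y
  · -- the main case
    have hB0 : 0 < CB * x ^ (κ / 100) := by positivity
    have c : TW4.Ctx a κ δ' C2 (CB * x ^ (κ / 100)) Y0 Y P Z S lam :=
      { hκ := hκdef
        hδ := hδ'0
        hκ1 := hκ1
        hC2 := hC2
        h2 := h2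
        h3 := h3
        ha := ha
        hY0 := hYY
        hY := hY
        hP := hP
        hPr := hPr
        hZ := hZ.trans (Real.rpow_le_rpow_of_exponent_le hx (by linarith))
        hS := hS
        hsq := fun d hd => (hfac d hd).1
        hB := hB0
        hlam := by
          intro d hd
          refine (hl d).trans ((hom d (hS d hd).1).trans ?_)
          apply mul_le_mul_of_nonneg_left _ (by linarith)
          apply Real.rpow_le_rpow (by positivity) _ (by positivity)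
          have h1 : (d : ℝ) ≤ ((Z ^ 2 : ℕ) : ℝ) := by exact_mod_cast (hS d hd).2.1
          push_cast at h1
          exact h1.trans hZx }
    have h1 := TW4.off_bd hPH c (fun d hd => (hfac d hd).2) hPP2
    have hn := TW4.n_bd (ε := κ / 100) (x := x) (Z := Z) (by positivity) (by linarith) hx hZx
    have h4 := TW4.fin_num (κ := κ) (C2 := C2) (CB := CB) (a := a) hκ0 hP hY hPr
      (n := ((Nat.log 2 (Z ^ 2) + 1 : ℕ) : ℝ)) (by positivity) hn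
    refine h1.trans (h4.trans ?_)
    have h5 : 0 ≤ (Y : ℝ) * (P : ℝ) ^ 2 * x ^ (-(κ / 100)) := by positivity
    calc _ = (3 / (κ / 100)) ^ 3 * CB ^ 2 * (4 * √(TW4.C3 C2 |(a : ℝ)| (κ / 100)) + 1) *
          ((Y : ℝ) * (P : ℝ) ^ 2 * x ^ (-(κ / 100))) := by ring
      _ ≤ ((3 / (κ / 100)) ^ 3 * CB ^ 2 * (4 * √(TW4.C3 C2 |(a : ℝ)| (κ / 100)) + 1) +
          TW4.Gs a Y0 + 1) * ((Y : ℝ) * (P : ℝ) ^ 2 * x ^ (-(κ / 100))) :=
          mul_le_mul_of_nonneg_right (by linarith) h5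
      _ = _ := by ring
  · -- small `Y`
    have hZY : Z ≤ Y := by
      have h1 : (Z : ℝ) ^ 2 ≤ (Y : ℝ) ^ 2 := by
        refine hZx.trans ?_
        rw [hxdef, pow_two]
        exact mul_le_mul_of_nonneg_left hPY (by positivity)
      have h2 : (Z : ℝ) ≤ Y := le_of_pow_le_pow_left₀ (by norm_num) (by positivity) h1
      exact_mod_cast h2
    have hPY' : P ≤ Y := by exact_mod_cast hPY
    have h1 := TW4.off_triv (P' := P') (P := P) (Y := Y) hPP2 hS hl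
    have h2 := TW4.Gs_le (a := a) (Y0 := Y0) (Y := Y) (P := P) (Z := Z) (by omega) (by omega)
      (by omega)
    refine h1.trans (h2.trans ?_)
    calc TW4.Gs a Y0 ≤ ((3 / (κ / 100)) ^ 3 * CB ^ 2 *
          (4 * √(TW4.C3 C2 |(a : ℝ)| (κ / 100)) + 1) + TW4.Gs a Y0 + 1) * 1 := by linarith
      _ ≤ ((3 / (κ / 100)) ^ 3 * CB ^ 2 * (4 * √(TW4.C3 C2 |(a : ℝ)| (κ / 100)) + 1) +
          TW4.Gs a Y0 + 1) * ((Y : ℝ) * (P : ℝ) ^ 2 * x ^ (-(κ / 100))) :=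
          mul_le_mul_of_nonneg_left hYP (by linarith)
      _ = _ := by ring

end Pool.Agent.H262R4.FR
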