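import Pool.Agent.H262R4.FR.AllM
import Pool.Agent.H262R4.FR.W1
import Pool.Agent.H262R4.FR.W2
import Pool.Agent.H262R4.FR.W3
import Pool.Agent.H262R4.FR.W4
import Pool.Agent.H262R4.FR.DISP1
import Pool.Agent.H262R4.FR.S1
import Pool.Agent.H262R4.FR.PHIS
import Pool.Agent.H262R4.FR.BTS
import Pool.Agent.H262R4.FR.BT1
import Pool.Agent.H262R4.FR.BT2
import Pool.Agent.H262R4.FR.BT

/-!
FR project: assembly of the Brun-Titchmarsh theorem on average with the constant 15/4.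
-/

namespace Pool.Agent.H262R4.FR

theorem f_W4 : P_W4 := t_W4 (t_W2 t_W1 t_W3) f_PHX t_PH

theorem f_DISP1 : P_DISP1 := t_DISP1 f_FR f_W4 t_F1

theorem f_BT1 : P_BT1 := t_BT1 f_DISP1

theorem f_BT2 : P_BT2 := t_BT2 (t_BTS t_S1) t_TK t_PHIS

theorem f_BT : P_BT := t_BT f_BT1 f_BT2 t_S1 t_PHIS t_LW

end Pool.Agent.H262R4.FR
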