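import Pool.Agent.H262R4.FR.Stubs
import Pool.Agent.H442R2.KF.Pri
import Pool.Agent.H510R2.Div

/-! Task DISP2: dispersion, arbitrary moduli. -/

namespace Pool.Agent.H262R4.FR

open Finset
open Pool.Agent.H442R2.KF (e kf Wt tau)

namespace TDISP2

/-! ### elementary real analysis -/

lemma rpow_log (k : ℕ) (η : ℝ) (hη : 0 < η) : ∃ C : ℝ, 0 < C ∧ ∀ x : ℝ, 1 ≤ x →
    x ^ (-η) * Real.log x ^ k ≤ C := by
  set ε : ℝ := η / (k + 1) with hε
  have hε0 : 0 < ε := by positivity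
  refine ⟨(1 / ε) ^ k, by positivity, fun x hx => ?_⟩
  have hx0 : 0 < x := by linarith
  have h1 : Real.log x ≤ x ^ ε / ε := Real.log_le_rpow_div hx0.le hε0
  have h2 : Real.log x ^ k ≤ (x ^ ε / ε) ^ k := pow_le_pow_left₀ (Real.log_nonneg hx) h1 k
  have h3 : (x ^ ε / ε) ^ k = x ^ (ε * k) * (1 / ε) ^ k := by
    rw [div_eq_mul_one_div, mul_pow, Real.rpow_mul hx0.le, Real.rpow_natCast]
  have h4 : x ^ (-η) * x ^ (ε * k) ≤ 1 := by
    rw [← Real.rpow_add hx0]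
    apply Real.rpow_le_one_of_one_le_of_nonpos hx
    have : ε * (k + 1) = η := by rw [hε]; field_simp
    nlinarith
  calc x ^ (-η) * Real.log x ^ k ≤ x ^ (-η) * (x ^ (ε * k) * (1 / ε) ^ k) := by
        rw [← h3]
        exact mul_le_mul_of_nonneg_left h2 (by positivity)
    _ = (x ^ (-η) * x ^ (ε * k)) * (1 / ε) ^ k := by ring
    _ ≤ 1 * (1 / ε) ^ k := mul_le_mul_of_nonneg_right h4 (by positivity)
    _ = _ := one_mul _

/-! ### trivial bounds for `Dl` -/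

lemma Ii_nonneg (a : ℤ) (d p : ℕ) (m : ℤ) : 0 ≤ Ii a d p m := by
  unfold Ii; split_ifs <;> norm_num

lemma Ii_le_one (a : ℤ) (d p : ℕ) (m : ℤ) : Ii a d p m ≤ 1 := by
  unfold Ii; split_ifs <;> norm_num

lemma Cc_nonneg (d : ℕ) (m : ℤ) : 0 ≤ Cc d m := by
  unfold Cc; split_ifs <;> norm_num

lemma Cc_le_one (d : ℕ) (m : ℤ) : Cc d m ≤ 1 := by
  unfold Cc; split_ifs <;> norm_num

/-- the inner bracket -/
lemma br_abs (a : ℤ) (T : Finset ℕ) (d : ℕ) (m : ℤ) :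
    |∑ p ∈ T, Ii a d p m - Cc d m * (T.card : ℝ) / (Nat.totient d : ℝ)| ≤
      ∑ p ∈ T, Ii a d p m + (T.card : ℝ) / (Nat.totient d : ℝ) := by
  have h1 : 0 ≤ ∑ p ∈ T, Ii a d p m := Finset.sum_nonneg fun p _ => Ii_nonneg a d p m
  have h2 : 0 ≤ Cc d m * (T.card : ℝ) / (Nat.totient d : ℝ) :=
    div_nonneg (mul_nonneg (Cc_nonneg d m) (Nat.cast_nonneg _)) (Nat.cast_nonneg _)
  have h3 : Cc d m * (T.card : ℝ) / (Nat.totient d : ℝ) ≤ (T.card : ℝ) / (Nat.totient d : ℝ) := by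
    apply div_le_div_of_nonneg_right _ (Nat.cast_nonneg _)
    exact mul_le_of_le_one_left (Nat.cast_nonneg _) (Cc_le_one d m)
  rw [abs_le]
  constructor <;> linarith

lemma Dl_abs (a : ℤ) (lam : ℕ → ℝ) (S T : Finset ℕ) (m : ℤ) (hl : ∀ d, |lam d| ≤ 1) :
    |Dl a lam S T m| ≤ ∑ d ∈ S, (∑ p ∈ T, Ii a d p m + (T.card : ℝ) / (Nat.totient d : ℝ)) := by
  unfold Dl
  refine (Finset.abs_sum_le_sum_abs _ _).trans (Finset.sum_le_sum fun d _ => ?_)
  rw [abs_mul]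
  calc |lam d| * |∑ p ∈ T, Ii a d p m - Cc d m * (T.card : ℝ) / (Nat.totient d : ℝ)|
      ≤ 1 * |∑ p ∈ T, Ii a d p m - Cc d m * (T.card : ℝ) / (Nat.totient d : ℝ)| :=
        mul_le_mul_of_nonneg_right (hl d) (abs_nonneg _)
    _ ≤ _ := by rw [one_mul]; exact br_abs a T d m

lemma br_crude (a : ℤ) (T : Finset ℕ) {d : ℕ} (hd : 1 ≤ d) (m : ℤ) :
    ∑ p ∈ T, Ii a d p m + (T.card : ℝ) / (Nat.totient d : ℝ) ≤ 2 * T.card := by
  have h1 : ∑ p ∈ T, Ii a d p m ≤ T.card := by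
    have := Finset.sum_le_card_nsmul T (fun p => Ii a d p m) 1 (fun p _ => Ii_le_one a d p m)
    simpa using this
  have h2 : (T.card : ℝ) / (Nat.totient d : ℝ) ≤ T.card := by
    apply div_le_self (Nat.cast_nonneg _)
    exact_mod_cast Nat.totient_pos.2 hd
  linarith

lemma Dl_crude (a : ℤ) (lam : ℕ → ℝ) (S T : Finset ℕ) (m : ℤ) (hl : ∀ d, |lam d| ≤ 1)
    (hS : ∀ d ∈ S, 1 ≤ d) : |Dl a lam S T m| ≤ S.card * (2 * T.card) := by
  refine (Dl_abs a lam S T m hl).trans ?_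
  have := Finset.sum_le_card_nsmul S
    (fun d => ∑ p ∈ T, Ii a d p m + (T.card : ℝ) / (Nat.totient d : ℝ)) (2 * T.card)
    (fun d hd => br_crude a T (hS d hd) m)
  simpa using this

/-! ### one dyadic block -/

lemma block (hF1 : P_F1) (a : ℤ) (lam : ℕ → ℝ) (S T : Finset ℕ) (Y : ℕ) (hY : 1 ≤ Y)
    (hl : ∀ d, |lam d| ≤ 1) (hS : ∀ d ∈ S, 1 ≤ d) :
    ∑ m ∈ Ioc Y (2 * Y), Dl a lam S T m ^ 2 ≤ 30 * VV a lam S T Y := by
  obtain ⟨f1, f2, f3, -⟩ := hF1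
  set B : ℝ := S.card * (2 * T.card) with hB
  have hsum : Summable (fun m : ℤ => Wd Y m * Dl a lam S T m ^ 2) := by
    have h0 := (f3 Y 0 hY).mul_right (B ^ 2)
    refine Summable.of_nonneg_of_le (fun m => mul_nonneg (f1 Y m hY).1 (sq_nonneg _))
      (fun m => ?_) h0
    rw [pow_zero, mul_one]
    apply mul_le_mul_of_nonneg_left _ (f1 Y m hY).1
    have := Dl_crude a lam S T m hl hS
    rw [← sq_abs]
    exact pow_le_pow_left₀ (abs_nonneg _) this 2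
  have h1 : ∑ m ∈ Ioc Y (2 * Y), Wd Y m * Dl a lam S T m ^ 2 ≤ VV a lam S T Y := by
    unfold VV
    have h2 := hsum.sum_le_tsum ((Ioc Y (2 * Y)).map ⟨fun n : ℕ => (n : ℤ), Nat.cast_injective⟩)
      (fun m _ => mul_nonneg (f1 Y m hY).1 (sq_nonneg _))
    rw [Finset.sum_map] at h2
    exact h2
  have h3 : ∑ m ∈ Ioc Y (2 * Y), Dl a lam S T m ^ 2 ≤
      30 * ∑ m ∈ Ioc Y (2 * Y), Wd Y m * Dl a lam S T m ^ 2 := by
    rw [Finset.mul_sum]
    apply Finset.sum_le_sum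
    intro m hm
    rw [Finset.mem_Ioc] at hm
    have hw := f2 Y m hY (by exact_mod_cast hm.1) (by exact_mod_cast hm.2)
    have := sq_nonneg (Dl a lam S T m)
    nlinarith
  linarith

lemma block_abs (hF1 : P_F1) (a : ℤ) (lam : ℕ → ℝ) (S T : Finset ℕ) (Y : ℕ) (hY : 1 ≤ Y)
    (hl : ∀ d, |lam d| ≤ 1) (hS : ∀ d ∈ S, 1 ≤ d) {K : ℝ} (hK : 0 ≤ K)
    (hV : 30 * VV a lam S T Y ≤ K ^ 2 * Y) :
    ∑ m ∈ Ioc Y (2 * Y), |Dl a lam S T m| ≤ K * Y := by
  have h1 := Finset.sum_mul_sq_le_sq_mul_sq (Ioc Y (2 * Y)) (fun _ => (1 : ℝ))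
    (fun m : ℕ => |Dl a lam S T m|)
  have h2 : ∑ m ∈ Ioc Y (2 * Y), (1 : ℝ) ^ 2 = Y := by
    rw [Finset.sum_const, Nat.card_Ioc]
    simp only [one_pow, nsmul_eq_mul, mul_one]
    rw [show 2 * Y - Y = Y by omega]
  rw [h2] at h1
  simp only [one_mul, sq_abs] at h1
  have h3 := block hF1 a lam S T Y hY hl hS
  have hY0 : (0 : ℝ) ≤ Y := Nat.cast_nonneg _
  have h4 : (∑ m ∈ Ioc Y (2 * Y), |Dl a lam S T m|) ^ 2 ≤ (K * Y) ^ 2 := by
    calc (∑ m ∈ Ioc Y (2 * Y), |Dl a lam S T m|) ^ 2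
        ≤ Y * ∑ m ∈ Ioc Y (2 * Y), Dl a lam S T m ^ 2 := h1
      _ ≤ Y * (K ^ 2 * Y) := mul_le_mul_of_nonneg_left (h3.trans hV) hY0
      _ = (K * Y) ^ 2 := by ring
  exact (abs_le_of_sq_le_sq' h4 (by positivity)).2

/-- summing the blocks -/
lemma blocks (F : ℕ → ℝ) (hF : ∀ m, 0 ≤ F m) {Ym F0 K : ℝ} (hYm : 1 ≤ Ym) (hK : 0 ≤ K) (M : ℕ)
    (h0 : ∀ N : ℕ, (N : ℝ) ≤ Ym → ∑ m ∈ Icc 1 N, F m ≤ F0)
    (h1 : ∀ Y : ℕ, Ym < 2 * (Y : ℝ) → Y ≤ M → ∑ m ∈ Ioc Y (2 * Y), F m ≤ K * Y) :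
    ∀ N : ℕ, N ≤ M → ∑ m ∈ Icc 1 N, F m ≤ F0 + 4 * K * N := by
  intro N
  induction N using Nat.strong_induction_on with
  | _ N ih =>
    intro hNM
    by_cases hN : (N : ℝ) ≤ Ym
    · have := h0 N hN
      have h2 : 0 ≤ 4 * K * (N : ℝ) := by positivity
      linarith
    · push Not at hN
      have hN1 : (1 : ℝ) < N := by linarith
      have hN2 : 2 ≤ N := by
        have : 1 < N := by exact_mod_cast hN1
        omega
      set Y : ℕ := (N + 1) / 2 with hY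
      have hYN : Y < N := by omega
      have h2Y : N ≤ 2 * Y := by omega
      have h10 : 5 * Y ≤ 4 * N := by omega
      have h3 := ih Y hYN (by omega)
      have h4 := h1 Y (by
        have : (N : ℝ) ≤ 2 * (Y : ℝ) := by exact_mod_cast h2Y
        linarith) (by omega)
      have h5 : ∑ m ∈ Icc 1 N, F m ≤ ∑ m ∈ Icc 1 Y, F m + ∑ m ∈ Ioc Y (2 * Y), F m := by
        have hsub : Icc 1 N ⊆ Icc 1 Y ∪ Ioc Y (2 * Y) := by
          intro m hm
          rw [Finset.mem_Icc] at hm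
          rw [Finset.mem_union, Finset.mem_Icc, Finset.mem_Ioc]
          omega
        have hdis : Disjoint (Icc 1 Y) (Ioc Y (2 * Y)) := by
          rw [Finset.disjoint_left]
          intro m hm hm'
          rw [Finset.mem_Icc] at hm
          rw [Finset.mem_Ioc] at hm'
          omega
        rw [← Finset.sum_union hdis]
        exact Finset.sum_le_sum_of_subset_of_nonneg hsub (fun m _ _ => hF m)
      have h6 : 5 * (Y : ℝ) ≤ 4 * N := by exact_mod_cast h10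
      nlinarith

/-! ### the trivial bound for small `m` -/

lemma card_Pr {P P' : ℕ} (h : P' ≤ 2 * P) : ((Pr P P').card : ℝ) ≤ P := by
  have h1 : (Pr P P').card ≤ (Ioc P P').card := Finset.card_filter_le _ _
  rw [Nat.card_Ioc] at h1
  exact_mod_cast (by omega : (Pr P P').card ≤ P)

lemma inner_tau {ε Cd : ℝ} (hε : 0 < ε) (hCd0 : 0 < Cd)
    (hCd : ∀ n : ℕ, 1 ≤ n → (n.divisors.card : ℝ) ≤ Cd * (n : ℝ) ^ ε) (a : ℤ) (S : Finset ℕ)
    (D : ℕ) (hS : ∀ d ∈ S, 1 ≤ d ∧ d ≤ D) (m p : ℕ) {B : ℝ} (hB0 : 0 ≤ B)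
    (hB : |(((m : ℤ) * p - a : ℤ) : ℝ)| ≤ B) :
    ∑ d ∈ S, Ii a d p m ≤ (if (m : ℤ) * p = a then (D : ℝ) else 0) + Cd * B ^ ε := by
  have h1 : ∑ d ∈ S, Ii a d p m = ((S.filter (fun d : ℕ => (d : ℤ) ∣ (m : ℤ) * p - a)).card : ℝ) := by
    unfold Ii
    rw [← Finset.sum_filter, Finset.sum_const, nsmul_eq_mul, mul_one]
  rw [h1]
  have hpos : 0 ≤ Cd * B ^ ε := by positivity
  split_ifs with h
  · have h2 : (S.filter (fun d : ℕ => (d : ℤ) ∣ (m : ℤ) * p - a)).card ≤ (Icc 1 D).card := by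
      apply Finset.card_le_card
      intro d hd
      rw [Finset.mem_filter] at hd
      rw [Finset.mem_Icc]
      exact hS d hd.1
    rw [Nat.card_Icc] at h2
    have h3 : ((S.filter (fun d : ℕ => (d : ℤ) ∣ (m : ℤ) * p - a)).card : ℝ) ≤ D := by
      exact Nat.cast_le.2 (by omega)
    linarith
  · have hk : (m : ℤ) * p - a ≠ 0 := sub_ne_zero.2 h
    have hk1 : 1 ≤ ((m : ℤ) * p - a).natAbs := Int.natAbs_pos.2 hk
    have h2 : (S.filter (fun d : ℕ => (d : ℤ) ∣ (m : ℤ) * p - a)).card ≤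
        (((m : ℤ) * p - a).natAbs.divisors).card := by
      apply Finset.card_le_card
      intro d hd
      rw [Finset.mem_filter] at hd
      rw [Nat.mem_divisors]
      exact ⟨Int.natCast_dvd.1 hd.2, by omega⟩
    have h3 := hCd _ hk1
    have h4 : ((((m : ℤ) * p - a).natAbs : ℕ) : ℝ) ≤ B := by
      rw [Nat.cast_natAbs]
      push_cast at hB ⊢
      exact hB
    have h5 : ((((m : ℤ) * p - a).natAbs : ℕ) : ℝ) ^ ε ≤ B ^ ε :=
      Real.rpow_le_rpow (Nat.cast_nonneg _) h4 hε.le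
    have h6 : ((S.filter (fun d : ℕ => (d : ℤ) ∣ (m : ℤ) * p - a)).card : ℝ) ≤
        ((((m : ℤ) * p - a).natAbs.divisors).card : ℝ) := by exact_mod_cast h2
    have h7 := mul_le_mul_of_nonneg_left h5 hCd0.le
    linarith

lemma one_m (a : ℤ) (D : ℕ) {p : ℕ} (hp : 1 ≤ p) (N : ℕ) :
    ∑ m ∈ Icc 1 N, (if (m : ℤ) * p = a then (D : ℝ) else 0) ≤ D := by
  by_cases h : ∃ m0 : ℕ, (m0 : ℤ) * p = a
  · obtain ⟨m0, hm0⟩ := h
    have h1 : ∀ m ∈ Icc 1 N, (if (m : ℤ) * p = a then (D : ℝ) else 0) ≤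
        if m = m0 then (D : ℝ) else 0 := by
      intro m _
      split_ifs with h2 h3
      · exact le_refl _
      · exfalso
        apply h3
        rw [← hm0] at h2
        have hp0 : (p : ℤ) ≠ 0 := by exact_mod_cast (by omega : p ≠ 0)
        exact_mod_cast mul_right_cancel₀ hp0 h2
      · exact Nat.cast_nonneg _
      · exact le_refl _
    refine (Finset.sum_le_sum h1).trans ?_
    rw [Finset.sum_ite_eq']
    split_ifs
    · exact le_refl _
    · exact Nat.cast_nonneg _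
  · push Not at h
    rw [Finset.sum_eq_zero]
    · exact Nat.cast_nonneg _
    · intro m _
      rw [if_neg (h m)]

lemma sum_phi (ε : ℝ) (hε : 0 < ε) : ∃ C : ℝ, 0 < C ∧ ∀ D : ℕ, 1 ≤ D →
    ∑ d ∈ Icc 1 D, 1 / (Nat.totient d : ℝ) ≤ C * (D : ℝ) ^ ε := by
  obtain ⟨C, hC, h⟩ := Pool.Agent.H510R2.divisor_bound (ε / 2) (by positivity)
  refine ⟨C * (1 + 2 / ε), by positivity, fun D hD => ?_⟩
  have hD1 : (1 : ℝ) ≤ D := by exact_mod_cast hD
  have hD0 : (0 : ℝ) < D := by linarith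
  have h1 : ∀ d ∈ Icc 1 D, 1 / (Nat.totient d : ℝ) ≤ C * (D : ℝ) ^ (ε / 2) * (d : ℝ)⁻¹ := by
    intro d hd
    rw [Finset.mem_Icc] at hd
    have hd0 : (0 : ℝ) < d := by exact_mod_cast hd.1
    have ht0 : (0 : ℝ) < Nat.totient d := by exact_mod_cast Nat.totient_pos.2 hd.1
    have h2 : (d : ℝ) ≤ (Nat.totient d : ℝ) * (d.divisors.card : ℝ) := by
      exact_mod_cast Pool.Agent.H442R2.KF.TaskQ.phi_mul_card d hd.1
    have h3 : (d.divisors.card : ℝ) ≤ C * (D : ℝ) ^ (ε / 2) :=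
      (h d hd.1).trans (mul_le_mul_of_nonneg_left
        (Real.rpow_le_rpow hd0.le (by exact_mod_cast hd.2) (by positivity)) hC.le)
    rw [div_le_iff₀ ht0, mul_assoc, ← div_eq_inv_mul]
    have h4 : (1 : ℝ) ≤ (Nat.totient d : ℝ) * (d.divisors.card : ℝ) / d := by
      rw [le_div_iff₀ hd0, one_mul]; exact h2
    calc (1 : ℝ) ≤ (Nat.totient d : ℝ) * (d.divisors.card : ℝ) / d := h4
      _ = (d.divisors.card : ℝ) * ((Nat.totient d : ℝ) / d) := by ring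
      _ ≤ C * (D : ℝ) ^ (ε / 2) * ((Nat.totient d : ℝ) / d) :=
          mul_le_mul_of_nonneg_right h3 (by positivity)
  have h5 : ∑ d ∈ Icc 1 D, (d : ℝ)⁻¹ ≤ 1 + Real.log D := by
    have h6 := harmonic_le_one_add_log D
    rw [harmonic_eq_sum_Icc] at h6
    push_cast at h6
    exact h6
  have h7 : 1 + Real.log D ≤ (1 + 2 / ε) * (D : ℝ) ^ (ε / 2) := by
    have h8 : Real.log D ≤ (D : ℝ) ^ (ε / 2) / (ε / 2) :=
      Real.log_le_rpow_div hD0.le (by positivity)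
    have h9 : 1 ≤ (D : ℝ) ^ (ε / 2) := Real.one_le_rpow hD1 (by positivity)
    have h10 : (D : ℝ) ^ (ε / 2) / (ε / 2) = 2 / ε * (D : ℝ) ^ (ε / 2) := by
      field_simp
    rw [h10] at h8
    linarith
  calc ∑ d ∈ Icc 1 D, 1 / (Nat.totient d : ℝ)
      ≤ ∑ d ∈ Icc 1 D, C * (D : ℝ) ^ (ε / 2) * (d : ℝ)⁻¹ := Finset.sum_le_sum h1
    _ = C * (D : ℝ) ^ (ε / 2) * ∑ d ∈ Icc 1 D, (d : ℝ)⁻¹ := by rw [Finset.mul_sum]
    _ ≤ C * (D : ℝ) ^ (ε / 2) * ((1 + 2 / ε) * (D : ℝ) ^ (ε / 2)) :=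
        mul_le_mul_of_nonneg_left (h5.trans h7) (by positivity)
    _ = C * (1 + 2 / ε) * ((D : ℝ) ^ (ε / 2) * (D : ℝ) ^ (ε / 2)) := by ring
    _ = C * (1 + 2 / ε) * (D : ℝ) ^ ε := by
        rw [← Real.rpow_add hD0, add_halves]

lemma triv (a : ℤ) (ε : ℝ) (hε : 0 < ε) : ∃ C : ℝ, 0 < C ∧
    ∀ (M P P' D N : ℕ) (S : Finset ℕ) (lam : ℕ → ℝ), 1 ≤ M → 1 ≤ P → P' ≤ 2 * P → N ≤ M →
    (D : ℝ) ≤ (M : ℝ) * P → (∀ d ∈ S, 1 ≤ d ∧ d ≤ D) → (∀ d, |lam d| ≤ 1) →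
    ∑ m ∈ Icc 1 N, |Dl a lam S (Pr P P') m| ≤
      C * ((N : ℝ) * P * ((M : ℝ) * P) ^ ε + (D : ℝ) * P) := by
  obtain ⟨Cd, hCd0, hCd⟩ := Pool.Agent.H510R2.divisor_bound ε hε
  obtain ⟨C2, hC20, hC2⟩ := sum_phi ε hε
  refine ⟨Cd * (2 + |(a : ℝ)|) ^ ε + C2 + 1, by positivity, ?_⟩
  intro M P P' D N S lam hM hP hPP hNM hD hS hl
  set T := Pr P P' with hT
  have hn : (T.card : ℝ) ≤ P := card_Pr hPP
  have hn0 : (0 : ℝ) ≤ T.card := Nat.cast_nonneg _
  have hM1 : (1 : ℝ) ≤ M := by exact_mod_cast hM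
  have hP1 : (1 : ℝ) ≤ P := by exact_mod_cast hP
  have hX1 : (1 : ℝ) ≤ (M : ℝ) * P := by nlinarith
  have hX0 : (0 : ℝ) < (M : ℝ) * P := by linarith
  have hN0 : (0 : ℝ) ≤ N := Nat.cast_nonneg _
  set X : ℝ := (M : ℝ) * P with hX
  set B : ℝ := (2 + |(a : ℝ)|) * X with hB
  have hB0 : 0 ≤ B := by positivity
  have hBe : B ^ ε = (2 + |(a : ℝ)|) ^ ε * X ^ ε := by
    rw [hB, Real.mul_rpow (by positivity) hX0.le]
  have hmem : ∀ p ∈ T, 1 ≤ p ∧ p ≤ 2 * P := by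
    intro p hp
    rw [hT, Pr, Finset.mem_filter, Finset.mem_Ioc] at hp
    omega
  -- the sum of the indicators
  have s1 : ∑ m ∈ Icc 1 N, ∑ p ∈ T, ∑ d ∈ S, Ii a d p m ≤
      (D : ℝ) * P + (N : ℝ) * P * (Cd * B ^ ε) := by
    have h1 : ∀ m ∈ Icc 1 N, ∀ p ∈ T, ∑ d ∈ S, Ii a d p m ≤
        (if (m : ℤ) * p = a then (D : ℝ) else 0) + Cd * B ^ ε := by
      intro m hm p hp
      rw [Finset.mem_Icc] at hm
      apply inner_tau hε hCd0 hCd a S D hS m p hB0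
      push_cast
      have hmM : (m : ℝ) ≤ M := by exact_mod_cast hm.2.trans hNM
      have hpP : (p : ℝ) ≤ 2 * P := by exact_mod_cast (hmem p hp).2
      have hp0 : (0 : ℝ) ≤ p := Nat.cast_nonneg _
      have hm0 : (0 : ℝ) ≤ m := Nat.cast_nonneg _
      have h2 : (m : ℝ) * p ≤ M * (2 * P) := mul_le_mul hmM hpP hp0 (by linarith)
      have h3 : |(m : ℝ) * p - a| ≤ (m : ℝ) * p + |(a : ℝ)| := by
        have := abs_sub (m * p : ℝ) (a : ℝ)
        rwa [abs_of_nonneg (mul_nonneg hm0 hp0)] at this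
      have h4 : |(a : ℝ)| ≤ |(a : ℝ)| * X := le_mul_of_one_le_right (abs_nonneg _) hX1
      rw [hB]
      calc |(m : ℝ) * p - a| ≤ (m : ℝ) * p + |(a : ℝ)| := h3
        _ ≤ M * (2 * P) + |(a : ℝ)| * X := by linarith
        _ = (2 + |(a : ℝ)|) * X := by rw [hX]; ring
    calc ∑ m ∈ Icc 1 N, ∑ p ∈ T, ∑ d ∈ S, Ii a d p m
        ≤ ∑ m ∈ Icc 1 N, ∑ p ∈ T, ((if (m : ℤ) * p = a then (D : ℝ) else 0) + Cd * B ^ ε) :=
          Finset.sum_le_sum fun m hm => Finset.sum_le_sum fun p hp => h1 m hm p hp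
      _ = ∑ p ∈ T, ∑ m ∈ Icc 1 N, (if (m : ℤ) * p = a then (D : ℝ) else 0) +
          (N : ℝ) * T.card * (Cd * B ^ ε) := by
          simp only [Finset.sum_add_distrib]
          rw [Finset.sum_comm]
          congr 1
          simp only [Finset.sum_const, Nat.card_Icc, nsmul_eq_mul, add_tsub_cancel_right]
          ring
      _ ≤ T.card * (D : ℝ) + (N : ℝ) * T.card * (Cd * B ^ ε) := by
          gcongr
          have := Finset.sum_le_card_nsmul T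
            (fun p => ∑ m ∈ Icc 1 N, (if (m : ℤ) * p = a then (D : ℝ) else 0)) D
            (fun p hp => one_m a D (hmem p hp).1 N)
          simpa using this
      _ ≤ (D : ℝ) * P + (N : ℝ) * P * (Cd * B ^ ε) := by
          have hD0 : (0 : ℝ) ≤ D := Nat.cast_nonneg _
          have h5 : (T.card : ℝ) * D ≤ P * D := mul_le_mul_of_nonneg_right hn hD0
          have h6 : (N : ℝ) * T.card * (Cd * B ^ ε) ≤ (N : ℝ) * P * (Cd * B ^ ε) :=
            mul_le_mul_of_nonneg_right (mul_le_mul_of_nonneg_left hn hN0) (by positivity)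
          linarith
  have s2 : ∑ d ∈ S, 1 / (Nat.totient d : ℝ) ≤ C2 * X ^ ε := by
    rcases Nat.eq_zero_or_pos D with h0 | h0
    · have hSe : S = ∅ := by
        rw [Finset.eq_empty_iff_forall_notMem]
        intro d hd
        have := hS d hd
        omega
      rw [hSe, Finset.sum_empty]
      positivity
    · calc ∑ d ∈ S, 1 / (Nat.totient d : ℝ) ≤ ∑ d ∈ Icc 1 D, 1 / (Nat.totient d : ℝ) := by
            apply Finset.sum_le_sum_of_subset_of_nonneg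
            · intro d hd
              rw [Finset.mem_Icc]
              exact hS d hd
            · intro d _ _
              positivity
        _ ≤ C2 * (D : ℝ) ^ ε := hC2 D h0
        _ ≤ C2 * X ^ ε := mul_le_mul_of_nonneg_left
            (Real.rpow_le_rpow (Nat.cast_nonneg _) hD hε.le) hC20.le
  calc ∑ m ∈ Icc 1 N, |Dl a lam S T m|
      ≤ ∑ m ∈ Icc 1 N, ∑ d ∈ S, (∑ p ∈ T, Ii a d p m + (T.card : ℝ) / (Nat.totient d : ℝ)) :=
        Finset.sum_le_sum fun m _ => Dl_abs a lam S T m hl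
    _ = ∑ m ∈ Icc 1 N, ∑ p ∈ T, ∑ d ∈ S, Ii a d p m +
        (N : ℝ) * T.card * ∑ d ∈ S, 1 / (Nat.totient d : ℝ) := by
        simp only [Finset.sum_add_distrib]
        congr 1
        · apply Finset.sum_congr rfl
          intro m _
          exact Finset.sum_comm
        · simp only [Finset.sum_const, Nat.card_Icc, nsmul_eq_mul, add_tsub_cancel_right]
          rw [mul_assoc, Finset.mul_sum (a := (T.card : ℝ))]
          congr 1
          apply Finset.sum_congr rfl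
          intro d _
          rw [mul_one_div]
    _ ≤ ((D : ℝ) * P + (N : ℝ) * P * (Cd * B ^ ε)) + (N : ℝ) * P * (C2 * X ^ ε) := by
        apply add_le_add s1
        apply mul_le_mul (mul_le_mul_of_nonneg_left hn hN0) s2 _ (by positivity)
        exact Finset.sum_nonneg fun d _ => by positivity
    _ ≤ _ := by
        rw [hBe]
        have h7 : 0 ≤ (N : ℝ) * P * X ^ ε := by positivity
        have h8 : 0 ≤ (D : ℝ) * P := by positivity
        have h9 : 0 ≤ Cd * (2 + |(a : ℝ)|) ^ ε := by positivity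
        nlinarith [mul_nonneg h9 h8, mul_nonneg hC20.le h8]

/-! ### one range of moduli -/

lemma om_ge (d : ℕ) : (1 : ℝ) ≤ 3 ^ om d := one_le_pow₀ (by norm_num)

theorem main_range (hFR : P_FR) (hF1 : P_F1) (a : ℤ) (ha : a ≠ 0) (A : ℕ) (ρ0 η C1 ρ1 : ℝ)
    (hρ0 : 0 < ρ0) (hη : 0 < η) (hC1 : 0 ≤ C1) (hρ1 : 0 < ρ1) (hρ1' : ρ1 ≤ 1 / 4) :
    ∃ C : ℝ, 0 < C ∧ ∀ (M P P' D : ℕ) (S : Finset ℕ) (lam α : ℕ → ℝ), 3 ≤ M → 3 ≤ P →
      81 ≤ (M : ℝ) * P → ((M : ℝ) * P) ^ ρ0 ≤ P → (P : ℝ) ≤ ((M : ℝ) * P) ^ (1 / 200 : ℝ) →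
      P ≤ P' → P' ≤ 2 * P → (D : ℝ) ≤ ((M : ℝ) * P) ^ (29 / 50 : ℝ) →
      (∀ d ∈ S, 1 ≤ d ∧ d ≤ D ∧ Int.gcd a d = 1) → (∀ d, |lam d| ≤ 1) → (∀ m, |α m| ≤ 1) →
      (∀ Y : ℕ, 3 ≤ Y → ((M : ℝ) * P) ^ (1 - ρ1) / 2 ≤ (Y : ℝ) * P →
        ((M : ℝ) * P) ^ (1 / 2 : ℝ) ≤ (Y : ℝ) * P → (P : ℝ) ≤ Y →
        (D : ℝ) ≤ ((Y : ℝ) * P) ^ (29 / 50 : ℝ) ∧
        |OFF a lam S (Pr P P') Y| ≤ C1 * (Y : ℝ) * (P : ℝ) ^ 2 * ((Y : ℝ) * P) ^ (-η)) →
      |∑ m ∈ Icc 1 M, α m * Dl a lam S (Pr P P') m| ≤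
        C * ((M : ℝ) * P) / Real.log ((M : ℝ) * P) ^ A := by
  obtain ⟨CF, hCF0, hCF⟩ := hFR a ha (2 * A) ρ0 hρ0
  obtain ⟨Ce, hCe0, hCe⟩ := rpow_log (2 * A) η hη
  obtain ⟨CL, hCL0, hCL⟩ := rpow_log A (ρ1 / 2) (by positivity)
  obtain ⟨Ct, hCt0, hCt⟩ := triv a (ρ1 / 2) (by positivity)
  set κ : ℝ := Real.sqrt (30 * (CF + C1 * Ce) * 4 ^ A) with hκ
  have hκ2 : κ ^ 2 = 30 * (CF + C1 * Ce) * 4 ^ A := Real.sq_sqrt (by positivity)
  have hκ0 : 0 ≤ κ := Real.sqrt_nonneg _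
  refine ⟨2 * Ct * CL + 4 * κ, by positivity, ?_⟩
  intro M P P' D S lam α hM hP hX81 hP0 hP1 hPP hPP2 hD hS hl hα hoff
  set X : ℝ := (M : ℝ) * P with hX
  have hX1 : (1 : ℝ) ≤ X := by linarith
  have hX0 : (0 : ℝ) < X := by linarith
  have hM0 : (0 : ℝ) < M := by exact_mod_cast (by omega : 0 < M)
  have hPp : (0 : ℝ) < P := by exact_mod_cast (by omega : 0 < P)
  have hlogX : 0 < Real.log X := Real.log_pos (by linarith)
  have hX14 : 3 ≤ X ^ (1 / 4 : ℝ) := by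
    have h1 : (81 : ℝ) ^ (1 / 4 : ℝ) = 3 := by
      rw [show (81 : ℝ) = 3 ^ (4 : ℝ) by norm_num, ← Real.rpow_mul (by norm_num)]
      norm_num
    rw [← h1]
    exact Real.rpow_le_rpow (by norm_num) hX81 (by norm_num)
  have hXhalf : X ^ (1 / 2 : ℝ) ≤ X ^ (1 - ρ1) / 2 := by
    have h1 : X ^ (1 / 2 : ℝ) * X ^ (1 / 4 : ℝ) ≤ X ^ (1 - ρ1) := by
      rw [← Real.rpow_add hX0]
      exact Real.rpow_le_rpow_of_exponent_le hX1 (by linarith)
    have h2 : 0 < X ^ (1 / 2 : ℝ) := by positivity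
    nlinarith
  set Ym : ℝ := (M : ℝ) * X ^ (-ρ1) with hYm
  have hYmP : Ym * P = X ^ (1 - ρ1) := by
    rw [hYm, show (1 : ℝ) - ρ1 = 1 + (-ρ1) by ring, Real.rpow_add hX0, Real.rpow_one, hX]
    ring
  have hYm1 : 1 ≤ Ym := by
    have h1 : (P : ℝ) ≤ Ym * P := by
      rw [hYmP]
      exact hP1.trans (Real.rpow_le_rpow_of_exponent_le hX1 (by linarith))
    by_contra hcon
    push Not at hcon
    nlinarith
  have hYmM : Ym ≤ M := by
    rw [hYm]
    exact mul_le_of_le_one_right hM0.le (Real.rpow_le_one_of_one_le_of_nonpos hX1 (by linarith))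
  have hS1 : ∀ d ∈ S, 1 ≤ d := fun d hd => (hS d hd).1
  set K : ℝ := κ * P / Real.log X ^ A with hK
  have hK0 : 0 ≤ K := by positivity
  -- the blocks
  have hb : ∀ Y : ℕ, Ym < 2 * (Y : ℝ) → Y ≤ M →
      ∑ m ∈ Ioc Y (2 * Y), |Dl a lam S (Pr P P') m| ≤ K * Y := by
    intro Y hY1 hY2
    have hYP1 : X ^ (1 - ρ1) / 2 ≤ (Y : ℝ) * P := by
      rw [← hYmP]
      nlinarith
    have hYP2 : X ^ (1 / 2 : ℝ) ≤ (Y : ℝ) * P := hXhalf.trans hYP1
    have hYP : (Y : ℝ) * P ≤ X := by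
      rw [hX]
      exact mul_le_mul_of_nonneg_right (by exact_mod_cast hY2) hPp.le
    have hPX : (P : ℝ) ≤ X ^ (1 / 4 : ℝ) :=
      hP1.trans (Real.rpow_le_rpow_of_exponent_le hX1 (by norm_num))
    have hYX : X ^ (1 / 4 : ℝ) ≤ Y := by
      have h1 : X ^ (1 / 4 : ℝ) * X ^ (1 / 4 : ℝ) ≤ (Y : ℝ) * X ^ (1 / 4 : ℝ) := by
        calc X ^ (1 / 4 : ℝ) * X ^ (1 / 4 : ℝ) = X ^ (1 / 2 : ℝ) := by
              rw [← Real.rpow_add hX0]; norm_num
          _ ≤ (Y : ℝ) * P := hYP2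
          _ ≤ (Y : ℝ) * X ^ (1 / 4 : ℝ) := mul_le_mul_of_nonneg_left hPX (Nat.cast_nonneg _)
      exact le_of_mul_le_mul_right h1 (by linarith)
    have hY3 : 3 ≤ Y := by
      have : (3 : ℝ) ≤ Y := hX14.trans hYX
      exact_mod_cast this
    have hYP1' : 1 ≤ (Y : ℝ) * P := (Real.one_le_rpow hX1 (by norm_num)).trans hYP2
    have hYP0 : 0 < (Y : ℝ) * P := by linarith
    obtain ⟨hDY, hOFF⟩ := hoff Y hY3 hYP1 hYP2 (hPX.trans hYX)
    have hset : Set1 a ρ0 (1 / 100) (29 / 50) Y P P' D S lam := by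
      refine ⟨hY3, hP, ?_, ?_, hPP, hPP2, hDY, hS, fun d => (hl d).trans (om_ge d)⟩
      · exact (Real.rpow_le_rpow hYP0.le hYP hρ0.le).trans hP0
      · calc (P : ℝ) ≤ X ^ (1 / 200 : ℝ) := hP1
          _ = (X ^ (1 / 2 : ℝ)) ^ (1 / 100 : ℝ) := by
              rw [← Real.rpow_mul hX0.le]; norm_num
          _ ≤ _ := Real.rpow_le_rpow (by positivity) hYP2 (by norm_num)
    have hV := hCF Y P P' D S lam hset
    have hlY : 0 ≤ Real.log ((Y : ℝ) * P) := Real.log_nonneg hYP1'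
    have hlY2 : Real.log X / 2 ≤ Real.log ((Y : ℝ) * P) := by
      have h1 := Real.log_le_log (by positivity) hYP2
      rw [Real.log_rpow hX0] at h1
      linarith
    have hlYp : 0 < Real.log ((Y : ℝ) * P) := by linarith
    have hlpow : Real.log X ^ (2 * A) ≤ 4 ^ A * Real.log ((Y : ℝ) * P) ^ (2 * A) := by
      have h1 : (Real.log X / 2) ^ (2 * A) ≤ Real.log ((Y : ℝ) * P) ^ (2 * A) :=
        pow_le_pow_left₀ (by positivity) hlY2 _
      have h2 : (Real.log X / 2) ^ (2 * A) = Real.log X ^ (2 * A) / 4 ^ A := by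
        rw [div_pow, pow_mul (2 : ℝ) 2 A]
        norm_num
      rw [h2, div_le_iff₀ (by positivity)] at h1
      linarith
    have hoff2 : |OFF a lam S (Pr P P') Y| ≤
        C1 * Ce * (Y : ℝ) * (P : ℝ) ^ 2 / Real.log ((Y : ℝ) * P) ^ (2 * A) := by
      refine hOFF.trans ?_
      have h1 := hCe _ hYP1'
      rw [le_div_iff₀ (by positivity)]
      calc C1 * (Y : ℝ) * (P : ℝ) ^ 2 * ((Y : ℝ) * P) ^ (-η) * Real.log ((Y : ℝ) * P) ^ (2 * A)
          = C1 * (Y : ℝ) * (P : ℝ) ^ 2 *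
            (((Y : ℝ) * P) ^ (-η) * Real.log ((Y : ℝ) * P) ^ (2 * A)) := by ring
        _ ≤ C1 * (Y : ℝ) * (P : ℝ) ^ 2 * Ce := mul_le_mul_of_nonneg_left h1 (by positivity)
        _ = _ := by ring
    apply block_abs hF1 a lam S (Pr P P') Y (by omega) hl hS1 hK0
    have h3 : VV a lam S (Pr P P') Y ≤
        (CF + C1 * Ce) * (Y : ℝ) * (P : ℝ) ^ 2 / Real.log ((Y : ℝ) * P) ^ (2 * A) := by
      have h4 : (CF + C1 * Ce) * (Y : ℝ) * (P : ℝ) ^ 2 / Real.log ((Y : ℝ) * P) ^ (2 * A) =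
          CF * (Y : ℝ) * (P : ℝ) ^ 2 / Real.log ((Y : ℝ) * P) ^ (2 * A) +
          C1 * Ce * (Y : ℝ) * (P : ℝ) ^ 2 / Real.log ((Y : ℝ) * P) ^ (2 * A) := by ring
      rw [h4]
      linarith
    have h5 : (1 : ℝ) / Real.log ((Y : ℝ) * P) ^ (2 * A) ≤ 4 ^ A / Real.log X ^ (2 * A) := by
      rw [div_le_div_iff₀ (by positivity) (by positivity)]
      linarith
    calc 30 * VV a lam S (Pr P P') Y
        ≤ 30 * ((CF + C1 * Ce) * (Y : ℝ) * (P : ℝ) ^ 2 / Real.log ((Y : ℝ) * P) ^ (2 * A)) := by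
          linarith
      _ = 30 * (CF + C1 * Ce) * (Y : ℝ) * (P : ℝ) ^ 2 *
          (1 / Real.log ((Y : ℝ) * P) ^ (2 * A)) := by ring
      _ ≤ 30 * (CF + C1 * Ce) * (Y : ℝ) * (P : ℝ) ^ 2 * (4 ^ A / Real.log X ^ (2 * A)) :=
          mul_le_mul_of_nonneg_left h5 (by positivity)
      _ = κ ^ 2 * (P : ℝ) ^ 2 / Real.log X ^ (2 * A) * Y := by rw [hκ2]; ring
      _ = K ^ 2 * Y := by
          rw [hK, div_pow, mul_pow, ← pow_mul, mul_comm A 2]
  -- small `m`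
  have h0 : ∀ N : ℕ, (N : ℝ) ≤ Ym → ∑ m ∈ Icc 1 N, |Dl a lam S (Pr P P') m| ≤
      2 * Ct * X ^ (1 - ρ1 / 2) := by
    intro N hN
    have hNM : N ≤ M := by exact_mod_cast hN.trans hYmM
    have hDX : (D : ℝ) ≤ (M : ℝ) * P := hD.trans (by
      calc X ^ (29 / 50 : ℝ) ≤ X ^ (1 : ℝ) :=
            Real.rpow_le_rpow_of_exponent_le hX1 (by norm_num)
        _ = _ := Real.rpow_one _)
    have h1 := hCt M P P' D N S lam (by omega) (by omega) hPP2 hNM hDX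
      (fun d hd => ⟨(hS d hd).1, (hS d hd).2.1⟩) hl
    refine h1.trans ?_
    have h2 : (N : ℝ) * P * X ^ (ρ1 / 2) ≤ X ^ (1 - ρ1 / 2) := by
      calc (N : ℝ) * P * X ^ (ρ1 / 2) ≤ Ym * P * X ^ (ρ1 / 2) :=
            mul_le_mul_of_nonneg_right (mul_le_mul_of_nonneg_right hN hPp.le) (by positivity)
        _ = X ^ (1 - ρ1 / 2) := by
            rw [hYmP, ← Real.rpow_add hX0]
            congr 1
            ring
    have h3 : (D : ℝ) * P ≤ X ^ (1 - ρ1 / 2) := by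
      calc (D : ℝ) * P ≤ X ^ (29 / 50 : ℝ) * X ^ (1 / 200 : ℝ) :=
            mul_le_mul hD hP1 hPp.le (by positivity)
        _ = X ^ (117 / 200 : ℝ) := by rw [← Real.rpow_add hX0]; norm_num
        _ ≤ _ := Real.rpow_le_rpow_of_exponent_le hX1 (by linarith)
    calc Ct * ((N : ℝ) * P * X ^ (ρ1 / 2) + (D : ℝ) * P)
        ≤ Ct * (X ^ (1 - ρ1 / 2) + X ^ (1 - ρ1 / 2)) :=
          mul_le_mul_of_nonneg_left (add_le_add h2 h3) hCt0.le
      _ = _ := by ring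
  have h6 := blocks (fun m => |Dl a lam S (Pr P P') m|) (fun m => abs_nonneg _) hYm1 hK0 M h0 hb M
    le_rfl
  have h7 : |∑ m ∈ Icc 1 M, α m * Dl a lam S (Pr P P') m| ≤
      ∑ m ∈ Icc 1 M, |Dl a lam S (Pr P P') m| := by
    refine (Finset.abs_sum_le_sum_abs _ _).trans (Finset.sum_le_sum fun m _ => ?_)
    rw [abs_mul]
    exact mul_le_of_le_one_left (abs_nonneg _) (hα m)
  refine (h7.trans h6).trans ?_
  have h8 : X ^ (1 - ρ1 / 2) ≤ CL * X / Real.log X ^ A := by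
    rw [le_div_iff₀ (by positivity), show (1 : ℝ) - ρ1 / 2 = 1 + (-(ρ1 / 2)) by ring,
      Real.rpow_add hX0, Real.rpow_one]
    have := hCL X hX1
    calc X * X ^ (-(ρ1 / 2)) * Real.log X ^ A = X * (X ^ (-(ρ1 / 2)) * Real.log X ^ A) := by ring
      _ ≤ X * CL := mul_le_mul_of_nonneg_left this hX0.le
      _ = CL * X := by ring
  have h9 : 4 * K * (M : ℝ) = 4 * κ * X / Real.log X ^ A := by
    rw [hK, hX]
    ring
  have h10 : (2 * Ct * CL + 4 * κ) * X / Real.log X ^ A =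
      2 * Ct * (CL * X / Real.log X ^ A) + 4 * κ * X / Real.log X ^ A := by ring
  rw [h9, h10]
  have h11 := mul_le_mul_of_nonneg_left h8 (by positivity : 0 ≤ 2 * Ct)
  linarith

/-! ### the off-diagonal terms for moduli at most 18 -/

lemma S11_mn (hPH : P_PH) (hF1 : P_F1) {a : ℤ} (ha : a ≠ 0) {Y d1 d2 p1 p2 : ℕ} (hY : 1 ≤ Y)
    (hd1 : 1 ≤ d1) (hd2 : 1 ≤ d2) (hp1 : p1.Prime) (hp2 : p2.Prime) (hg : good d1 d2 p1 p2)
    (ha1 : Int.gcd a d1 = 1) (ha2 : Int.gcd a d2 = 1) :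
    |S11 a Y d1 d2 p1 p2 - mn Y d1 d2 p1 p2| ≤ 8 := by
  by_cases hdvd : ((Nat.gcd d1 d2 : ℕ) : ℤ) ∣ (p1 : ℤ) - p2
  · set g := Nat.gcd d1 d2 with hgdef
    have hg1 : 1 ≤ g := Nat.gcd_pos_of_pos_left _ hd1
    obtain ⟨e1, he1⟩ : g ∣ d1 := Nat.gcd_dvd_left _ _
    obtain ⟨e2, he2⟩ : g ∣ d2 := Nat.gcd_dvd_right _ _
    have he11 : 1 ≤ e1 := by
      rcases Nat.eq_zero_or_pos e1 with h | h
      · rw [h, mul_zero] at he1; omega
      · exact h
    have he21 : 1 ≤ e2 := by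
      rcases Nat.eq_zero_or_pos e2 with h | h
      · rw [h, mul_zero] at he2; omega
      · exact h
    have hcop : Nat.Coprime e1 e2 := by
      have h1 : g = g * Nat.gcd e1 e2 := by
        conv_lhs => rw [hgdef, he1, he2]
        rw [Nat.gcd_mul_left]
      have h2 : g * 1 = g * Nat.gcd e1 e2 := by rw [mul_one]; exact h1
      exact (Nat.eq_of_mul_eq_mul_left hg1 h2).symm
    obtain ⟨t, ht⟩ : ∃ t : ℤ, (p2 : ℤ) - p1 = g * t := by
      obtain ⟨s, hs⟩ := hdvd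
      exact ⟨-s, by rw [mul_neg, ← hs]; ring⟩
    obtain ⟨u, hu, -⟩ := hPH.1 a d1 d2 p1 p2 g e1 e2 t ha hg1 he11 he21 he1 he2 hcop hp1 hp2 hg
      ha1 ha2 ht
    have hlcm : Nat.lcm d1 d2 = g * e1 * e2 := by
      have h1 : g * Nat.lcm d1 d2 = d1 * d2 := Nat.gcd_mul_lcm d1 d2
      have h2 : g * Nat.lcm d1 d2 = g * (g * e1 * e2) := by
        rw [h1]
        conv_lhs => rw [he1, he2]
        ring
      exact Nat.eq_of_mul_eq_mul_left hg1 h2
    have h3 : S11 a Y d1 d2 p1 p2 =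
        ∑' m : ℤ, if ((g * e1 * e2 : ℕ) : ℤ) ∣ m - u then Wd Y m else 0 := by
      unfold S11
      apply tsum_congr
      intro m
      have h4 := hu m
      unfold Ii
      by_cases hm : ((g * e1 * e2 : ℕ) : ℤ) ∣ m - u
      · rw [if_pos hm, if_pos (h4.2 hm).1, if_pos (h4.2 hm).2]
        ring
      · rw [if_neg hm]
        by_cases hm1 : (d1 : ℤ) ∣ m * p1 - a
        · by_cases hm2 : (d2 : ℤ) ∣ m * p2 - a
          · exact absurd (h4.1 ⟨hm1, hm2⟩) hm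
          · rw [if_neg hm2]; ring
        · rw [if_neg hm1]; ring
    have h5 : mn Y d1 d2 p1 p2 = (Y : ℝ) / (g * e1 * e2 : ℕ) := by
      unfold mn
      rw [if_pos hdvd, hlcm]
    rw [h3, h5]
    exact hF1.2.2.2 Y (g * e1 * e2) u hY (Nat.mul_pos (Nat.mul_pos hg1 he11) he21)
  · have h1 := hPH.2 a Y d1 d2 p1 p2 hd1 hd2 ha1 hdvd
    have h2 : mn Y d1 d2 p1 p2 = 0 := by
      unfold mn
      rw [if_neg hdvd]
    rw [h1, h2]
    norm_num

lemma off_small (hPH : P_PH) (hF1 : P_F1) {a : ℤ} (ha : a ≠ 0) {lam : ℕ → ℝ} {S : Finset ℕ}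
    {Y P P' : ℕ} (hY : 1 ≤ Y) (hPP : P' ≤ 2 * P) (hl : ∀ d, |lam d| ≤ 1)
    (hS : ∀ d ∈ S, 1 ≤ d ∧ d ≤ 18 ∧ Int.gcd a d = 1) :
    |OFF a lam S (Pr P P') Y| ≤ 2592 * (P : ℝ) ^ 2 := by
  set T := Pr P P' with hT
  have hcT : (T.card : ℝ) ≤ P := card_Pr hPP
  have hcS : (S.card : ℝ) ≤ 18 := by
    have h1 : S.card ≤ (Icc 1 18).card := by
      apply Finset.card_le_card
      intro d hd
      rw [Finset.mem_Icc]
      exact ⟨(hS d hd).1, (hS d hd).2.1⟩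
    rw [Nat.card_Icc] at h1
    exact_mod_cast h1
  have hpr : ∀ p ∈ T, p.Prime := fun p hp => (Finset.mem_filter.1 hp).2
  have h1 : |OFF a lam S T Y| ≤ ∑ d1 ∈ S, ∑ d2 ∈ S, ∑ p1 ∈ T, ∑ p2 ∈ T, (8 : ℝ) := by
    unfold OFF
    refine (Finset.abs_sum_le_sum_abs _ _).trans (Finset.sum_le_sum fun d1 h1 => ?_)
    refine (Finset.abs_sum_le_sum_abs _ _).trans (Finset.sum_le_sum fun d2 h2 => ?_)
    refine (Finset.abs_sum_le_sum_abs _ _).trans (Finset.sum_le_sum fun p1 h3 => ?_)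
    refine (Finset.abs_sum_le_sum_abs _ _).trans (Finset.sum_le_sum fun p2 h4 => ?_)
    split_ifs with hg
    · rw [abs_mul, abs_mul]
      have h5 := S11_mn hPH hF1 ha hY (hS d1 h1).1 (hS d2 h2).1 (hpr p1 h3) (hpr p2 h4) hg
        (hS d1 h1).2.2 (hS d2 h2).2.2
      calc |lam d1| * |lam d2| * |S11 a Y d1 d2 p1 p2 - mn Y d1 d2 p1 p2|
          ≤ 1 * 1 * 8 := by
            apply mul_le_mul _ h5 (abs_nonneg _) (by norm_num)
            exact mul_le_mul (hl d1) (hl d2) (abs_nonneg _) (by norm_num)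
        _ = 8 := by norm_num
    · norm_num
  refine h1.trans ?_
  simp only [Finset.sum_const, nsmul_eq_mul]
  have hn0 : (0 : ℝ) ≤ T.card := Nat.cast_nonneg _
  have hs0 : (0 : ℝ) ≤ S.card := Nat.cast_nonneg _
  have h2 : (T.card : ℝ) * (T.card * 8) ≤ P * (P * 8) :=
    mul_le_mul hcT (mul_le_mul_of_nonneg_right hcT (by norm_num)) (by positivity)
      (hn0.trans hcT)
  have h3 : (0 : ℝ) ≤ P * (P * 8) := by positivity
  calc (S.card : ℝ) * (S.card * (T.card * (T.card * 8)))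
      ≤ 18 * (18 * (P * (P * 8))) := by
        apply mul_le_mul hcS _ (by positivity) (by norm_num)
        exact mul_le_mul hcS h2 (by positivity) (by norm_num)
    _ = _ := by ring

/-! ### signs -/

lemma sign_sum (a : ℤ) (α : ℕ → ℝ) (S T : Finset ℕ) (M : ℕ) : ∃ lam : ℕ → ℝ,
    (∀ d, |lam d| ≤ 1) ∧ ∑ d ∈ S, |∑ m ∈ Icc 1 M, α m * (∑ p ∈ T, Ii a d p m -
        Cc d m * (T.card : ℝ) / (Nat.totient d : ℝ))| =
      ∑ m ∈ Icc 1 M, α m * Dl a lam S T m := by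
  refine ⟨fun d => if 0 ≤ ∑ m ∈ Icc 1 M, α m * (∑ p ∈ T, Ii a d p m -
        Cc d m * (T.card : ℝ) / (Nat.totient d : ℝ)) then 1 else -1, ?_, ?_⟩
  · intro d
    dsimp only
    split_ifs <;> norm_num
  · unfold Dl
    simp only [Finset.mul_sum (s := S)]
    rw [Finset.sum_comm]
    apply Finset.sum_congr rfl
    intro d _
    have h1 : ∀ c : ℝ, ∑ m ∈ Icc 1 M, α m * (c * (∑ p ∈ T, Ii a d p m -
        Cc d m * (T.card : ℝ) / (Nat.totient d : ℝ))) = c * ∑ m ∈ Icc 1 M, α m *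
        (∑ p ∈ T, Ii a d p m - Cc d m * (T.card : ℝ) / (Nat.totient d : ℝ)) := by
      intro c
      rw [Finset.mul_sum]
      apply Finset.sum_congr rfl
      intro m _
      ring
    rw [h1]
    split_ifs with h
    · rw [abs_of_nonneg h, one_mul]
    · rw [abs_of_neg (not_le.1 h)]
      ring

lemma cover4 (f : ℕ → ℝ) (hf0 : ∀ d, 0 ≤ f d) (S0 : Finset ℕ) (D D1 D2 D3 : ℕ)
    (hmem : ∀ d ∈ S0, D < d ∧ d ≤ 2 * D) (h1 : D1 = 5 * D / 4) (h2 : D2 = 5 * D1 / 4)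
    (h3 : D3 = 5 * D2 / 4) (hcov : 2 * D ≤ 5 * D3 / 4) :
    ∑ d ∈ S0, f d ≤
      ∑ d ∈ S0.filter (fun d => D < d ∧ d ≤ 5 * D / 4), f d +
      ∑ d ∈ S0.filter (fun d => D1 < d ∧ d ≤ 5 * D1 / 4), f d +
      ∑ d ∈ S0.filter (fun d => D2 < d ∧ d ≤ 5 * D2 / 4), f d +
      ∑ d ∈ S0.filter (fun d => D3 < d ∧ d ≤ 5 * D3 / 4), f d := by
  simp only [Finset.sum_filter, ← Finset.sum_add_distrib]
  apply Finset.sum_le_sum
  intro d hd
  have hm := hmem d hd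
  have hfd := hf0 d
  have n : ∀ c : Prop, ∀ _ : Decidable c, 0 ≤ (if c then f d else 0) := by
    intro c _
    split_ifs
    · exact hfd
    · exact le_refl _
  have n1 := n (D < d ∧ d ≤ 5 * D / 4) inferInstance
  have n2 := n (D1 < d ∧ d ≤ 5 * D1 / 4) inferInstance
  have n3 := n (D2 < d ∧ d ≤ 5 * D2 / 4) inferInstance
  have n4 := n (D3 < d ∧ d ≤ 5 * D3 / 4) inferInstance
  by_cases c1 : D < d ∧ d ≤ 5 * D / 4
  · rw [if_pos c1]
    clear n n1
    linarith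
  · by_cases c2 : D1 < d ∧ d ≤ 5 * D1 / 4
    · rw [if_pos c2]
      clear n n2
      linarith
    · by_cases c3 : D2 < d ∧ d ≤ 5 * D2 / 4
      · rw [if_pos c3]
        clear n n3
        linarith
      · have c4 : D3 < d ∧ d ≤ 5 * D3 / 4 := by omega
        rw [if_pos c4]
        clear n n4
        linarith

end TDISP2

open TDISP2 in
theorem t_DISP2 (hFR : P_FR) (hTR : P_TR2) (hF1 : P_F1) (hPH : P_PH) : P_DISP2 := by
  intro θ hθ0 hθ A
  set θ' : ℝ := (θ + 14 / 27) / 2 with hθ'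
  obtain ⟨ρT, ηT, hρT0, hρT1, hηT0, hTR'⟩ := hTR θ' (by positivity) (by linarith)
  refine ⟨min (ρT / 2) (1 / 200), lt_min (by positivity) (by norm_num),
    (min_le_right _ _).trans (by norm_num), ?_⟩
  intro a ha ρ0 hρ0
  obtain ⟨CT, hCT0, hCT⟩ := hTR' a ha
  set ρ1 : ℝ := min (1 / 4) ((θ' - θ) / (2 * θ')) with hρ1
  have hθ'0 : 0 < θ' := by positivity
  have hρ10 : 0 < ρ1 := lt_min (by norm_num) (div_pos (by linarith) (by positivity))
  have hρ14 : ρ1 ≤ 1 / 4 := min_le_left _ _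
  set θ2 : ℝ := (θ + θ') / 2 with hθ2
  have hθ2' : θ2 ≤ (1 - ρ1) * θ' := by
    have h1 : ρ1 ≤ (θ' - θ) / (2 * θ') := min_le_right _ _
    rw [le_div_iff₀ (by positivity)] at h1
    nlinarith
  obtain ⟨Ca, hCa0, hCa⟩ := main_range hFR hF1 a ha A ρ0 ηT CT ρ1 hρ0 hηT0 hCT0.le hρ10 hρ14
  obtain ⟨Cb, hCb0, hCb⟩ := main_range hFR hF1 a ha A ρ0 (1 / 2) 2592 ρ1 hρ0 (by norm_num)
    (by norm_num) hρ10 hρ14
  obtain ⟨X0, hX0⟩ : ∃ X0 : ℝ, 81 ≤ X0 ∧ ∀ X : ℝ, X0 ≤ X → 8 ≤ X ^ (θ2 - θ) ∧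
      18 ≤ X ^ (29 / 100 : ℝ) := by
    have h1 := (tendsto_rpow_atTop (by linarith : 0 < θ2 - θ)).eventually_ge_atTop 8
    have h2 := (tendsto_rpow_atTop (by norm_num : (0 : ℝ) < 29 / 100)).eventually_ge_atTop 18
    obtain ⟨X0, h⟩ := Filter.eventually_atTop.1 (h1.and h2)
    exact ⟨max 81 X0, le_max_left _ _, fun X hX => h X ((le_max_right _ _).trans hX)⟩
  obtain ⟨hX081, hXl⟩ := hX0
  have hlX0 : 0 < Real.log X0 := Real.log_pos (by linarith)
  refine ⟨4 * Ca + Cb + 2 * X0 * Real.log X0 ^ A, by positivity, ?_⟩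
  intro M P P' D α hM hP hP0 hP1 hPP hPP2 hD hα
  set X : ℝ := (M : ℝ) * P with hX
  set T := Pr P P' with hT
  have hM3 : (3 : ℝ) ≤ M := by exact_mod_cast hM
  have hP3 : (3 : ℝ) ≤ P := by exact_mod_cast hP
  have hX9 : 9 ≤ X := by rw [hX]; nlinarith
  have hX1 : (1 : ℝ) ≤ X := by linarith
  have hXpos : (0 : ℝ) < X := by linarith
  have hlX : 0 < Real.log X := Real.log_pos (by linarith)
  have hPP' : P' ≤ 2 * P := by omega
  set S0 := (Ioc D (2 * D)).filter (fun d : ℕ => Int.gcd a d = 1) with hS0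
  set f : ℕ → ℝ := fun d => |∑ m ∈ Icc 1 M, α m * (∑ p ∈ T, Ii a d p m -
        Cc d m * (T.card : ℝ) / (Nat.totient d : ℝ))| with hf
  change ∑ d ∈ S0, f d ≤ _
  have hf0 : ∀ d, 0 ≤ f d := fun d => abs_nonneg _
  have hmain0 : 0 ≤ X / Real.log X ^ A := by positivity
  rcases lt_or_ge X X0 with hlt | hge
  · -- bounded `X`
    have h1 : ∀ d ∈ S0, f d ≤ 2 * X := by
      intro d hd
      rw [hS0, Finset.mem_filter, Finset.mem_Ioc] at hd
      have hd1 : 1 ≤ d := by omega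
      have h2 : f d ≤ ∑ m ∈ Icc 1 M, (2 * (T.card : ℝ)) := by
        refine (Finset.abs_sum_le_sum_abs _ _).trans (Finset.sum_le_sum fun m _ => ?_)
        rw [abs_mul]
        refine (mul_le_of_le_one_left (abs_nonneg _) (hα m)).trans ?_
        exact (br_abs a T d m).trans (br_crude a T hd1 m)
      rw [Finset.sum_const, Nat.card_Icc, nsmul_eq_mul, add_tsub_cancel_right] at h2
      have h3 : (T.card : ℝ) ≤ P := card_Pr hPP'
      calc f d ≤ M * (2 * (T.card : ℝ)) := h2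
        _ ≤ M * (2 * P) := mul_le_mul_of_nonneg_left (by linarith) (by linarith)
        _ = 2 * X := by rw [hX]; ring
    have h2 : ∑ d ∈ S0, f d ≤ S0.card * (2 * X) := by
      have := Finset.sum_le_card_nsmul S0 f (2 * X) h1
      simpa using this
    have h3 : (S0.card : ℝ) ≤ X := by
      have h4 : S0.card ≤ (Ioc D (2 * D)).card := Finset.card_filter_le _ _
      rw [Nat.card_Ioc] at h4
      have h5 : (S0.card : ℝ) ≤ D := Nat.cast_le.2 (by omega)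
      have h6 : X ^ θ ≤ X ^ (1 : ℝ) := Real.rpow_le_rpow_of_exponent_le hX1 (by linarith)
      rw [Real.rpow_one] at h6
      linarith
    have h4 : Real.log X ^ A ≤ Real.log X0 ^ A :=
      pow_le_pow_left₀ hlX.le (Real.log_le_log hXpos hlt.le) A
    have h5 : 2 * X0 * X ≤ 2 * X0 * Real.log X0 ^ A * X / Real.log X ^ A := by
      rw [le_div_iff₀ (by positivity)]
      have : 2 * X0 * X * Real.log X ^ A ≤ 2 * X0 * X * Real.log X0 ^ A :=
        mul_le_mul_of_nonneg_left h4 (by positivity)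
      linarith
    have h6 : (4 * Ca + Cb + 2 * X0 * Real.log X0 ^ A) * X / Real.log X ^ A =
        (4 * Ca + Cb) * (X / Real.log X ^ A) + 2 * X0 * Real.log X0 ^ A * X / Real.log X ^ A := by
      ring
    rw [h6]
    have h7 : 0 ≤ (4 * Ca + Cb) * (X / Real.log X ^ A) := by positivity
    have h8 : (S0.card : ℝ) * (2 * X) ≤ 2 * X0 * X := by nlinarith
    linarith
  · -- large `X`
    have hX81 : 81 ≤ X := hX081.trans hge
    obtain ⟨h8, h18⟩ := hXl X hge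
    have hbase : 1 ≤ X ^ (1 - ρ1) / 2 := by
      have h1 : X ^ (3 / 4 : ℝ) ≤ X ^ (1 - ρ1) :=
        Real.rpow_le_rpow_of_exponent_le hX1 (by linarith)
      have h2 : (81 : ℝ) ^ (3 / 4 : ℝ) ≤ X ^ (3 / 4 : ℝ) :=
        Real.rpow_le_rpow (by norm_num) hX81 (by norm_num)
      have h3 : (81 : ℝ) ^ (3 / 4 : ℝ) = 27 := by
        rw [show (81 : ℝ) = 3 ^ (4 : ℝ) by norm_num, ← Real.rpow_mul (by norm_num)]
        norm_num
      linarith
    have hkey : 4 * X ^ θ ≤ (X ^ (1 - ρ1) / 2) ^ θ' := by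
      have h1 : (X ^ (1 - ρ1) / 2) ^ θ' = X ^ ((1 - ρ1) * θ') / 2 ^ θ' := by
        rw [Real.div_rpow (by positivity) (by norm_num), ← Real.rpow_mul hXpos.le]
      have h2 : (2 : ℝ) ^ θ' ≤ 2 := by
        calc (2 : ℝ) ^ θ' ≤ 2 ^ (1 : ℝ) :=
              Real.rpow_le_rpow_of_exponent_le (by norm_num) (by linarith)
          _ = 2 := Real.rpow_one 2
      have h3 : X ^ θ2 ≤ X ^ ((1 - ρ1) * θ') := Real.rpow_le_rpow_of_exponent_le hX1 hθ2'
      have h4 : X ^ θ2 = X ^ (θ2 - θ) * X ^ θ := by rw [← Real.rpow_add hXpos]; congr 1; ring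
      have h5 : 0 < X ^ θ := by positivity
      rw [h1, le_div_iff₀ (by positivity)]
      have h6 : 8 * X ^ θ ≤ X ^ θ2 := by rw [h4]; exact mul_le_mul_of_nonneg_right h8 h5.le
      have h7 : 4 * X ^ θ * 2 ^ θ' ≤ 4 * X ^ θ * 2 := mul_le_mul_of_nonneg_left h2 (by positivity)
      linarith
    have hkey2 : (X ^ (1 - ρ1) / 2) ^ θ' ≤ (X ^ (1 - ρ1) / 2) ^ (29 / 50 : ℝ) :=
      Real.rpow_le_rpow_of_exponent_le hbase (by linarith)
    have hkey3 : (X ^ (1 - ρ1) / 2) ^ (29 / 50 : ℝ) ≤ X ^ (29 / 50 : ℝ) := by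
      apply Real.rpow_le_rpow (by positivity) _ (by norm_num)
      have h1 : X ^ (1 - ρ1) ≤ X ^ (1 : ℝ) := Real.rpow_le_rpow_of_exponent_le hX1 (by linarith)
      rw [Real.rpow_one] at h1
      have h2 : 0 < X ^ (1 - ρ1) := by positivity
      linarith
    have hP200 : (P : ℝ) ≤ X ^ (1 / 200 : ℝ) :=
      hP1.trans (Real.rpow_le_rpow_of_exponent_le hX1 (min_le_right _ _))
    have hPT : (P : ℝ) ≤ X ^ (ρT / 2) :=
      hP1.trans (Real.rpow_le_rpow_of_exponent_le hX1 (min_le_left _ _))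
    have hfin : ∀ c : ℝ, c ≤ 4 * Ca + Cb → c * X / Real.log X ^ A ≤
        (4 * Ca + Cb + 2 * X0 * Real.log X0 ^ A) * X / Real.log X ^ A := by
      intro c hc
      apply div_le_div_of_nonneg_right _ (by positivity)
      apply mul_le_mul_of_nonneg_right _ hXpos.le
      have : 0 ≤ 2 * X0 * Real.log X0 ^ A := by positivity
      linarith
    rcases lt_or_ge D 10 with hD10 | hD10
    · -- small moduli
      obtain ⟨lam, hl, hlam⟩ := sign_sum a α S0 T M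
      change ∑ d ∈ S0, f d = _ at hlam
      rw [hlam]
      have hSS : ∀ d ∈ S0, 1 ≤ d ∧ d ≤ 18 ∧ Int.gcd a d = 1 := by
        intro d hd
        rw [hS0, Finset.mem_filter, Finset.mem_Ioc] at hd
        exact ⟨by omega, by omega, hd.2⟩
      have h18' : ((18 : ℕ) : ℝ) ≤ X ^ (29 / 50 : ℝ) := by
        push_cast
        exact h18.trans (Real.rpow_le_rpow_of_exponent_le hX1 (by norm_num))
      have h1 := hCb M P P' 18 S0 lam α hM hP hX81 hP0 hP200 hPP hPP' h18' hSS hl hα (by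
        intro Y hY3 _ hYP hPY
        have hY0 : (0 : ℝ) < Y := by exact_mod_cast (by omega : 0 < Y)
        have hPp : (0 : ℝ) < P := by linarith
        constructor
        · push_cast
          calc (18 : ℝ) ≤ X ^ (29 / 100 : ℝ) := h18
            _ = (X ^ (1 / 2 : ℝ)) ^ (29 / 50 : ℝ) := by
                rw [← Real.rpow_mul hXpos.le]; norm_num
            _ ≤ _ := Real.rpow_le_rpow (by positivity) hYP (by norm_num)
        · refine (off_small hPH hF1 ha (by omega) hPP' hl hSS).trans ?_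
          have h2 : 1 ≤ (Y : ℝ) * ((Y : ℝ) * P) ^ (-(1 / 2) : ℝ) := by
            rw [Real.rpow_neg (by positivity), ← Real.sqrt_eq_rpow, ← div_eq_mul_inv,
              le_div_iff₀ (Real.sqrt_pos.2 (by positivity)), one_mul]
            apply Real.sqrt_le_iff.2
            constructor
            · exact hY0.le
            · nlinarith
          calc 2592 * (P : ℝ) ^ 2 = 2592 * (P : ℝ) ^ 2 * 1 := by ring
            _ ≤ 2592 * (P : ℝ) ^ 2 * ((Y : ℝ) * ((Y : ℝ) * P) ^ (-(1 / 2) : ℝ)) :=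
                mul_le_mul_of_nonneg_left h2 (by positivity)
            _ = _ := by ring)
      exact (le_abs_self _).trans (h1.trans (hfin Cb (by linarith)))
    · -- large moduli: four ranges
      have hrange : ∀ D1 : ℕ, D1 ≤ 2 * D →
          ∑ d ∈ S0.filter (fun d => D1 < d ∧ d ≤ 5 * D1 / 4), f d ≤
            Ca * X / Real.log X ^ A := by
        intro D1 hD1
        set S := S0.filter (fun d => D1 < d ∧ d ≤ 5 * D1 / 4) with hS
        obtain ⟨lam, hl, hlam⟩ := sign_sum a α S T M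
        change ∑ d ∈ S, f d = _ at hlam
        rw [hlam]
        have hSS : ∀ d ∈ S, D1 < d ∧ 4 * d ≤ 5 * D1 ∧ Int.gcd a d = 1 := by
          intro d hd
          rw [hS, Finset.mem_filter, hS0, Finset.mem_filter, Finset.mem_Ioc] at hd
          exact ⟨hd.2.1, by omega, hd.1.2⟩
        have hD1' : (D1 : ℝ) ≤ 2 * X ^ θ := by
          have : (D1 : ℝ) ≤ 2 * (D : ℝ) := by exact_mod_cast hD1
          linarith
        have hD2' : ((2 * D1 : ℕ) : ℝ) ≤ 4 * X ^ θ := by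
          push_cast
          linarith
        have h1 := hCa M P P' (2 * D1) S lam α hM hP hX81 hP0 hP200 hPP hPP'
          (hD2'.trans (hkey.trans (hkey2.trans hkey3)))
          (fun d hd => ⟨by have := hSS d hd; omega, by have := hSS d hd; omega,
            (hSS d hd).2.2⟩) hl hα (by
          intro Y hY3 hYX hYP hPY
          constructor
          · refine hD2'.trans (hkey.trans (hkey2.trans ?_))
            exact Real.rpow_le_rpow (by positivity) hYX (by norm_num)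
          · refine hCT Y P P' D1 S lam hY3 (by omega) ?_ hPP hPP2 ?_ hSS hl
            · calc (P : ℝ) ≤ X ^ (ρT / 2) := hPT
                _ = (X ^ (1 / 2 : ℝ)) ^ ρT := by
                    rw [← Real.rpow_mul hXpos.le]; congr 1; ring
                _ ≤ _ := Real.rpow_le_rpow (by positivity) hYP hρT0.le
            · have h5 : 0 < X ^ θ := by positivity
              calc (D1 : ℝ) ≤ 4 * X ^ θ := by linarith
                _ ≤ (X ^ (1 - ρ1) / 2) ^ θ' := hkey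
                _ ≤ _ := Real.rpow_le_rpow (by positivity) hYX hθ'0.le)
        exact (le_abs_self _).trans h1
      set D1 := 5 * D / 4 with hD1
      set D2 := 5 * D1 / 4 with hD2
      set D3 := 5 * D2 / 4 with hD3
      have hcov : 2 * D ≤ 5 * D3 / 4 := by omega
      have r0 := hrange D (by omega)
      have r1 := hrange D1 (by omega)
      have r2 := hrange D2 (by omega)
      have r3 := hrange D3 (by omega)
      have hsum := cover4 f hf0 S0 D D1 D2 D3 (by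
        intro d hd
        rw [hS0, Finset.mem_filter, Finset.mem_Ioc] at hd
        exact hd.1) hD1 hD2 hD3 hcov
      have hfin' := hfin (4 * Ca) (by linarith)
      have e : 4 * Ca * X / Real.log X ^ A = 4 * (Ca * X / Real.log X ^ A) := by ring
      rw [e] at hfin'
      refine le_trans (hsum.trans ?_) hfin'
      have h4 : ∀ s0 s1 s2 s3 B : ℝ, s0 ≤ B → s1 ≤ B → s2 ≤ B → s3 ≤ B →
          s0 + s1 + s2 + s3 ≤ 4 * B := by
        intro s0 s1 s2 s3 B b0 b1 b2 b3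
        linarith
      exact h4 _ _ _ _ _ r0 r1 r2 r3

end Pool.Agent.H262R4.FR
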