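import Pool.Agent.H442R2.KF.Defs

/-!
FR project (helper262): primes and the Moebius function in arithmetic progressions to moduli
beyond `x^(1/2)`, fixed residue class. Definitions.
-/

namespace Pool.Agent.H262R4.FR

open Finset
open Pool.Agent.H442R2.KF (e kf Wt)

/-- number of prime factors -/
def om (d : ℕ) : ℕ := d.primeFactors.card

/-- the weight `exp(-π(m/2Y)²) - exp(-π(m/Y)²)`; it vanishes at `m = 0` -/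
noncomputable def Wd (Y : ℕ) (m : ℤ) : ℝ := Wt (2 * Y) m - Wt Y m

/-- its Fourier side -/
noncomputable def gam (ξ : ℝ) : ℝ :=
  2 * Real.exp (-Real.pi * (2 * ξ) ^ 2) - Real.exp (-Real.pi * ξ ^ 2)

/-- primes in `(P, P']` -/
def Pr (P P' : ℕ) : Finset ℕ := (Ioc P P').filter Nat.Prime

/-- `1` if `d ∣ m p - a` -/
noncomputable def Ii (a : ℤ) (d p : ℕ) (m : ℤ) : ℝ := if (d : ℤ) ∣ m * p - a then 1 else 0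

/-- `1` if `gcd(m, d) = 1` -/
noncomputable def Cc (d : ℕ) (m : ℤ) : ℝ := if Int.gcd m d = 1 then 1 else 0

/-- `Δ(m) = ∑_{d ∈ S} λ_d (#{p ∈ T : d ∣ m p - a} - 1_{(m,d)=1} |T|/φ(d))` -/
noncomputable def Dl (a : ℤ) (lam : ℕ → ℝ) (S T : Finset ℕ) (m : ℤ) : ℝ :=
  ∑ d ∈ S, lam d * (∑ p ∈ T, Ii a d p m - Cc d m * (T.card : ℝ) / (Nat.totient d : ℝ))

/-- the variance -/
noncomputable def VV (a : ℤ) (lam : ℕ → ℝ) (S T : Finset ℕ) (Y : ℕ) : ℝ :=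
  ∑' m : ℤ, Wd Y m * Dl a lam S T m ^ 2

noncomputable def S11 (a : ℤ) (Y d1 d2 p1 p2 : ℕ) : ℝ :=
  ∑' m : ℤ, Wd Y m * (Ii a d1 p1 m * Ii a d2 p2 m)

noncomputable def S12 (a : ℤ) (Y d1 p1 d2 : ℕ) : ℝ :=
  ∑' m : ℤ, Wd Y m * (Ii a d1 p1 m * Cc d2 m)

noncomputable def S22 (Y d1 d2 : ℕ) : ℝ := ∑' m : ℤ, Wd Y m * (Cc d1 m * Cc d2 m)

/-- good quadruples -/
def good (d1 d2 p1 p2 : ℕ) : Prop := p1 ≠ p2 ∧ Nat.Coprime (p1 * p2) (d1 * d2)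

instance (d1 d2 p1 p2 : ℕ) : Decidable (good d1 d2 p1 p2) := by
  unfold good; infer_instance

/-- the main term of `S11` -/
noncomputable def mn (Y d1 d2 p1 p2 : ℕ) : ℝ :=
  if ((Nat.gcd d1 d2 : ℕ) : ℤ) ∣ (p1 : ℤ) - p2 then (Y : ℝ) / (Nat.lcm d1 d2 : ℝ) else 0

/-- the off-diagonal terms -/
noncomputable def OFF (a : ℤ) (lam : ℕ → ℝ) (S T : Finset ℕ) (Y : ℕ) : ℝ :=
  ∑ d1 ∈ S, ∑ d2 ∈ S, ∑ p1 ∈ T, ∑ p2 ∈ T,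
    if good d1 d2 p1 p2 then lam d1 * lam d2 * (S11 a Y d1 d2 p1 p2 - mn Y d1 d2 p1 p2) else 0

/-- number of `p ∈ T` not dividing `d` -/
noncomputable def nd (T : Finset ℕ) (d : ℕ) : ℝ := ((T.filter (fun p => ¬ p ∣ d)).card : ℝ)

/-- number of pairs of `T` congruent mod `g` -/
noncomputable def Rg (T : Finset ℕ) (g : ℕ) : ℝ :=
  (((T ×ˢ T).filter (fun p : ℕ × ℕ => (g : ℤ) ∣ (p.1 : ℤ) - p.2)).card : ℝ)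

/-- the common hypotheses; `X = Y P` -/
structure Set1 (a : ℤ) (ρ0 ρ1 θ : ℝ) (Y P P' D : ℕ) (S : Finset ℕ) (lam : ℕ → ℝ) : Prop where
  hY : 3 ≤ Y
  hP : 3 ≤ P
  hP0 : ((Y : ℝ) * P) ^ ρ0 ≤ P
  hP1 : (P : ℝ) ≤ ((Y : ℝ) * P) ^ ρ1
  hPP : P ≤ P'
  hPP2 : P' ≤ 2 * P
  hD : (D : ℝ) ≤ ((Y : ℝ) * P) ^ θ
  hS : ∀ d ∈ S, 1 ≤ d ∧ d ≤ D ∧ Int.gcd a d = 1
  hl : ∀ d, |lam d| ≤ 3 ^ om d

/-- `∑_{p ∈ T} 1/p` -/
noncomputable def mass (T : Finset ℕ) : ℝ := ∑ p ∈ T, 1 / (p : ℝ)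

/-- number of prime divisors of `n` in `T` -/
noncomputable def omW (T : Finset ℕ) (n : ℕ) : ℝ := ((T.filter (fun p => p ∣ n)).card : ℝ)

/-- number of primes `p ≤ x`, `p ≡ a mod q` -/
noncomputable def piq (x q : ℕ) (a : ℤ) : ℝ :=
  (((Icc 1 x).filter (fun p : ℕ => p.Prime ∧ (q : ℤ) ∣ (p : ℤ) - a)).card : ℝ)

/-- `(Z, s)`-Selberg weights -/
structure Sel (Z s : ℕ) (lam : ℕ → ℝ) : Prop where
  supp : ∀ d, lam d ≠ 0 → 1 ≤ d ∧ Squarefree d ∧ Nat.Coprime d s ∧ d ≤ Z ^ 2 ∧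
    ∃ k l : ℕ, k ≤ Z ∧ l ≤ Z ∧ d = k * l
  bd : ∀ d, |lam d| ≤ 3 ^ om d
  nonneg : ∀ n : ℤ, n ≠ 0 → 0 ≤ ∑ d ∈ Icc 1 (Z ^ 2), if (d : ℤ) ∣ n then lam d else 0
  prime : ∀ p : ℕ, p.Prime → Z < p →
    ∑ d ∈ Icc 1 (Z ^ 2), (if (d : ℤ) ∣ (p : ℤ) then lam d else 0) = 1
  main : ∀ h : ℕ, 1 ≤ h →
    ∑ d ∈ (Icc 1 (Z ^ 2)).filter (fun d => Nat.Coprime d h), lam d / d ≤
      ((s : ℝ) / Nat.totient s) / Real.log Z *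
        ∏ p ∈ h.primeFactors.filter (fun p => ¬ p ∣ s), (1 + 1 / ((p : ℝ) - 1)) ^ 2

end Pool.Agent.H262R4.FR
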