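import Pool.Agent.H442R2.KF.Defs2
import Pool.Agent.H262R4.FR.Defs

/-!
FR project (helper262): statements of the tasks, as `Prop`s. Task `XX` is to prove
`theorem t_XX : P_XX` (possibly from hypotheses `P_YY`, as said in the task) in the file
`Pool/Agent/H262R4/FR/XX.lean`.
-/

namespace Pool.Agent.H262R4.FR

open Finset
open Pool.Agent.H442R2.KF (e kf Wt tau)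

/-! ### FRAME -/

def P_F1 : Prop :=
  (∀ (Y : ℕ) (m : ℤ), 1 ≤ Y → 0 ≤ Wd Y m ∧ Wd Y m ≤ 1 ∧
    Wd Y m ≤ 4 * (m : ℝ) ^ 2 / (Y : ℝ) ^ 2) ∧
  (∀ (Y : ℕ) (m : ℤ), 1 ≤ Y → (Y : ℤ) < m → m ≤ 2 * Y → 1 / 30 ≤ Wd Y m) ∧
  (∀ (Y s : ℕ), 1 ≤ Y → Summable (fun m : ℤ => Wd Y m * |(m : ℝ)| ^ s)) ∧
  (∀ (Y k : ℕ) (u : ℤ), 1 ≤ Y → 1 ≤ k →
    |(∑' m : ℤ, if (k : ℤ) ∣ m - u then Wd Y m else 0) - (Y : ℝ) / k| ≤ 8)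

def P_F2 : Prop :=
  (∀ (Y d1 d2 : ℕ) (u : ℤ), 1 ≤ Y → 1 ≤ d1 → 1 ≤ d2 → Int.gcd u d1 = 1 →
    |(∑' m : ℤ, Wd Y m * ((if (d1 : ℤ) ∣ m - u then 1 else 0) * Cc d2 m)) -
      (Y : ℝ) * Nat.totient (Nat.lcm d1 d2) / ((Nat.lcm d1 d2 : ℝ) * Nat.totient d1)| ≤
      8 * (d2.divisors.card : ℝ)) ∧
  (∀ (Y d1 d2 : ℕ), 1 ≤ Y → 1 ≤ d1 → 1 ≤ d2 →
    |S22 Y d1 d2 - (Y : ℝ) * Nat.totient (Nat.lcm d1 d2) / (Nat.lcm d1 d2 : ℝ)| ≤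
      8 * (d1.divisors.card : ℝ) * (d2.divisors.card : ℝ))

def P_F3 : Prop :=
  ∀ (a : ℤ) (lam : ℕ → ℝ) (S T : Finset ℕ) (Y : ℕ), 1 ≤ Y →
    VV a lam S T Y = ∑ d1 ∈ S, ∑ d2 ∈ S, lam d1 * lam d2 *
      ((∑ p1 ∈ T, ∑ p2 ∈ T, S11 a Y d1 d2 p1 p2) -
        2 * ((T.card : ℝ) / Nat.totient d2) * (∑ p1 ∈ T, S12 a Y d1 p1 d2) +
        (T.card : ℝ) ^ 2 / (Nat.totient d1 * Nat.totient d2) * S22 Y d1 d2)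

def P_F4 : Prop :=
  ∀ a : ℤ, a ≠ 0 → ∀ ρ0 : ℝ, 0 < ρ0 → ∃ C : ℝ, 0 < C ∧
  ∀ (Y P P' D : ℕ) (S : Finset ℕ) (lam : ℕ → ℝ),
  Set1 a ρ0 (1 / 100) (29 / 50) Y P P' D S lam →
  |(∑ d1 ∈ S, ∑ d2 ∈ S, lam d1 * lam d2 *
      (-(2 * (((Pr P P').card : ℝ) / Nat.totient d2) * (∑ p1 ∈ Pr P P', S12 a Y d1 p1 d2)) +
        ((Pr P P').card : ℝ) ^ 2 / (Nat.totient d1 * Nat.totient d2) * S22 Y d1 d2)) -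
    (∑ d1 ∈ S, ∑ d2 ∈ S, lam d1 * lam d2 *
      ((Y : ℝ) * (((Pr P P').card : ℝ) ^ 2 - 2 * ((Pr P P').card : ℝ) * nd (Pr P P') d1) /
        ((Nat.lcm d1 d2 : ℝ) * Nat.totient (Nat.gcd d1 d2))))| ≤
    C * (P : ℝ) ^ 2 * ((Y : ℝ) * P) ^ (13 / 20 : ℝ)

def P_F5 : Prop :=
  ∀ a : ℤ, a ≠ 0 → ∀ ρ0 : ℝ, 0 < ρ0 → ∃ C : ℝ, 0 < C ∧
  ∀ (Y P P' D : ℕ) (S : Finset ℕ) (lam : ℕ → ℝ),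
  Set1 a ρ0 (1 / 100) (29 / 50) Y P P' D S lam →
  |∑ d1 ∈ S, ∑ d2 ∈ S, ∑ p1 ∈ Pr P P', ∑ p2 ∈ Pr P P',
      if good d1 d2 p1 p2 then 0 else lam d1 * lam d2 * S11 a Y d1 d2 p1 p2| ≤
    C * (Y : ℝ) * (P : ℝ) ^ 2 * ((Y : ℝ) * P) ^ (-(ρ0 / 2))

/-- one pair of moduli -/
def P_F6 : Prop :=
  ∀ a : ℤ, a ≠ 0 → ∀ ρ0 : ℝ, 0 < ρ0 → ∃ C : ℝ, 0 < C ∧
  ∀ (Y P P' D : ℕ) (S : Finset ℕ) (lam : ℕ → ℝ),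
  Set1 a ρ0 (1 / 100) (29 / 50) Y P P' D S lam → ∀ d1 ∈ S, ∀ d2 ∈ S,
  |(∑ p1 ∈ Pr P P', ∑ p2 ∈ Pr P P', if good d1 d2 p1 p2 then mn Y d1 d2 p1 p2 else 0) +
      (Y : ℝ) * (((Pr P P').card : ℝ) ^ 2 - 2 * ((Pr P P').card : ℝ) * nd (Pr P P') d1) /
        ((Nat.lcm d1 d2 : ℝ) * Nat.totient (Nat.gcd d1 d2))| ≤
    (Y : ℝ) / (Nat.lcm d1 d2 : ℝ) *
      (|Rg (Pr P P') (Nat.gcd d1 d2) -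
        ((Pr P P').card : ℝ) ^ 2 / Nat.totient (Nat.gcd d1 d2)| + C * P)

/-- sorting by the gcd, and divisor sums -/
def P_F7 : Prop :=
  (∃ C : ℝ, 0 < C ∧ ∀ (D : ℕ) (F : ℕ → ℝ), 1 ≤ D → (∀ g, 0 ≤ F g) →
    ∑ d1 ∈ Icc 1 D, ∑ d2 ∈ Icc 1 D,
      (3 : ℝ) ^ om d1 * 3 ^ om d2 / (Nat.lcm d1 d2 : ℝ) * F (Nat.gcd d1 d2) ≤
      C * (1 + Real.log D) ^ 6 * ∑ g ∈ Icc 1 D, (9 : ℝ) ^ om g / g * F g) ∧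
  (∃ C : ℝ, 0 < C ∧ ∀ D : ℕ, 1 ≤ D →
    ∑ g ∈ Icc 1 D, (9 : ℝ) ^ om g / g ≤ C * (1 + Real.log D) ^ 9)

/-- the primes of `(P, P']` in residue classes, on average (Siegel-Walfisz for small `g`) -/
def P_F8 : Prop :=
  ∀ A : ℕ, ∃ C : ℝ, 0 < C ∧ ∀ P P' D : ℕ, 3 ≤ P → P ≤ P' → P' ≤ 2 * P → 1 ≤ D →
    ∑ g ∈ Icc 1 D, (9 : ℝ) ^ om g / g *
      |Rg (Pr P P') g - ((Pr P P').card : ℝ) ^ 2 / Nat.totient g| ≤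
      C * ((P : ℝ) ^ 2 / Real.log P ^ A + (P : ℝ) * (1 + Real.log D) ^ 10)

/-- THE FRAME -/
def P_FR : Prop :=
  ∀ a : ℤ, a ≠ 0 → ∀ A : ℕ, ∀ ρ0 : ℝ, 0 < ρ0 → ∃ C : ℝ, 0 < C ∧
  ∀ (Y P P' D : ℕ) (S : Finset ℕ) (lam : ℕ → ℝ),
  Set1 a ρ0 (1 / 100) (29 / 50) Y P P' D S lam →
  VV a lam S (Pr P P') Y ≤ C * (Y : ℝ) * (P : ℝ) ^ 2 / Real.log ((Y : ℝ) * P) ^ A +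
    |OFF a lam S (Pr P P') Y|

/-! ### Phases -/

def P_PH : Prop :=
  (∀ (a : ℤ) (d1 d2 p1 p2 g e1 e2 : ℕ) (t : ℤ), a ≠ 0 → 1 ≤ g → 1 ≤ e1 → 1 ≤ e2 →
    d1 = g * e1 → d2 = g * e2 → Nat.Coprime e1 e2 → p1.Prime → p2.Prime →
    good d1 d2 p1 p2 → Int.gcd a d1 = 1 → Int.gcd a d2 = 1 → (p2 : ℤ) - p1 = g * t →
    ∃ u : ℤ, (∀ m : ℤ, ((d1 : ℤ) ∣ m * p1 - a ∧ (d2 : ℤ) ∣ m * p2 - a) ↔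
      ((g * e1 * e2 : ℕ) : ℤ) ∣ m - u) ∧
    ∀ j : ℤ, e ((j : ℝ) * u / (g * e1 * e2 : ℕ)) =
      e ((j : ℝ) * a / ((p1 : ℝ) * (g * e1 * e2 : ℕ))) *
        kf (-(j * a * t)) ((e1 * p2 : ℕ) : ℤ) (p1 * e2)) ∧
  (∀ (a : ℤ) (Y d1 d2 p1 p2 : ℕ), 1 ≤ d1 → 1 ≤ d2 → Int.gcd a d1 = 1 →
    ¬ ((Nat.gcd d1 d2 : ℕ) : ℤ) ∣ (p1 : ℤ) - p2 → S11 a Y d1 d2 p1 p2 = 0)

/-- `S11` for a good quadruple, after Poisson summation -/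
def P_PHX : Prop :=
  ∃ Y0 : ℕ, ∀ (a : ℤ) (Y d1 d2 p1 p2 g e1 e2 : ℕ) (t : ℤ) (J : ℕ), Y0 ≤ Y → a ≠ 0 →
    1 ≤ g → 1 ≤ e1 → 1 ≤ e2 → d1 = g * e1 → d2 = g * e2 → Nat.Coprime e1 e2 →
    p1.Prime → p2.Prime → good d1 d2 p1 p2 → Int.gcd a d1 = 1 → Int.gcd a d2 = 1 →
    (p2 : ℤ) - p1 = g * t → ((g * e1 * e2 : ℕ) : ℝ) ≤ (Y : ℝ) ^ 3 →
    ((g * e1 * e2 : ℕ) : ℝ) * Real.log (2 * Y) ≤ (J + 1) * Y →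
    |S11 a Y d1 d2 p1 p2 - (Y : ℝ) / (g * e1 * e2 : ℕ) -
      2 * ((Y : ℝ) / (g * e1 * e2 : ℕ)) *
        (∑ j ∈ Icc 1 J, ((gam ((j : ℝ) * Y / (g * e1 * e2 : ℕ)) : ℝ) : ℂ) *
          e ((j : ℝ) * a / ((p1 : ℝ) * (g * e1 * e2 : ℕ))) *
          kf (-((j : ℤ) * a * t)) ((e1 * p2 : ℕ) : ℤ) (p1 * e2)).re| ≤ 1 / (Y : ℝ) ^ 4

/-! ### Arbitrary moduli: level 14/27 -/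

/-- one pair of primes and one gcd, from `KF.tri` -/
def P_TR1 : Prop :=
  ∀ θ : ℝ, 0 < θ → θ < 14 / 27 → ∃ ρ η : ℝ, 0 < ρ ∧ ρ ≤ 1 / 100 ∧ 0 < η ∧
  ∀ a : ℤ, a ≠ 0 → ∃ C : ℝ, 0 < C ∧
  ∀ (Y P D p1 p2 g : ℕ) (t : ℤ) (S : Finset ℕ) (lam : ℕ → ℝ), 3 ≤ Y → 1 ≤ P →
    (P : ℝ) ≤ ((Y : ℝ) * P) ^ ρ → p1.Prime → p2.Prime → p1 ≠ p2 →
    P < p1 → 4 * p1 ≤ 5 * P → P < p2 → 4 * p2 ≤ 5 * P → 1 ≤ g → (p2 : ℤ) - p1 = g * t →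
    (D : ℝ) ≤ ((Y : ℝ) * P) ^ θ →
    (∀ d ∈ S, D < d ∧ 4 * d ≤ 5 * D ∧ Int.gcd a d = 1) → (∀ d, |lam d| ≤ 1) →
    ‖∑ e1 ∈ Icc 1 (2 * D), ∑ e2 ∈ Icc 1 (2 * D),
      if g * e1 ∈ S ∧ g * e2 ∈ S ∧ Nat.Coprime e1 e2 ∧ good (g * e1) (g * e2) p1 p2 then
        ((lam (g * e1) * lam (g * e2) * (1 / (g * e1 * e2 : ℕ)) : ℝ) : ℂ) *
        ∑ j ∈ Icc 1 ⌊25 * (D : ℝ) ^ 2 * Real.log (2 * Y) / (16 * g * Y)⌋₊,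
          ((gam ((j : ℝ) * Y / (g * e1 * e2 : ℕ)) : ℝ) : ℂ) *
          e ((j : ℝ) * a / ((p1 : ℝ) * (g * e1 * e2 : ℕ))) *
          kf (-((j : ℤ) * a * t)) ((e1 * p2 : ℕ) : ℤ) (p1 * e2)
      else 0‖ ≤ C * (P : ℝ) ^ 2 * ((Y : ℝ) * P) ^ (-η)

/-- the off-diagonal terms for arbitrary bounded weights -/
def P_TR2 : Prop :=
  ∀ θ : ℝ, 0 < θ → θ < 14 / 27 → ∃ ρ η : ℝ, 0 < ρ ∧ ρ ≤ 1 / 100 ∧ 0 < η ∧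
  ∀ a : ℤ, a ≠ 0 → ∃ C : ℝ, 0 < C ∧
  ∀ (Y P P' D : ℕ) (S : Finset ℕ) (lam : ℕ → ℝ), 3 ≤ Y → 1 ≤ P →
    (P : ℝ) ≤ ((Y : ℝ) * P) ^ ρ → P ≤ P' → 4 * P' ≤ 5 * P →
    (D : ℝ) ≤ ((Y : ℝ) * P) ^ θ →
    (∀ d ∈ S, D < d ∧ 4 * d ≤ 5 * D ∧ Int.gcd a d = 1) → (∀ d, |lam d| ≤ 1) →
    |OFF a lam S (Pr P P') Y| ≤ C * (Y : ℝ) * (P : ℝ) ^ 2 * ((Y : ℝ) * P) ^ (-η)

/-! ### Factorable moduli: level 8/15 -/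

/-- incomplete Kloosterman sums with a gcd and a Lipschitz weight -/
def P_W1 : Prop :=
  ∀ ε : ℝ, 0 < ε → ∃ C : ℝ, 0 < C ∧ ∀ (q A1 A2 : ℕ) (B : ℤ) (Ω : ℝ → ℂ) (Λ : ℝ),
    Squarefree q → B ≠ 0 → A1 ≤ A2 → 0 ≤ Λ →
    (∀ s ∈ Set.Icc (A1 : ℝ) A2, ‖Ω s‖ ≤ 1) →
    (∀ s ∈ Set.Icc (A1 : ℝ) A2, ∀ s' ∈ Set.Icc (A1 : ℝ) A2, ‖Ω s - Ω s'‖ ≤ Λ * |s - s'|) →
    ‖∑ n ∈ (Icc A1 A2).filter (fun n => Nat.Coprime n q), Ω n * kf B (n : ℤ) q‖ ≤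
      C * (q : ℝ) ^ ε * (1 + Λ * ((A2 : ℝ) - A1)) *
        (Real.sqrt q + ((A2 : ℝ) - A1 + 1) * Real.sqrt ((Int.gcd B q : ℝ) / q))

/-- three counting lemmas -/
def P_W3 : Prop :=
  (∀ ε : ℝ, 0 < ε → ∃ C : ℝ, 0 < C ∧ ∀ L J : ℕ, 1 ≤ L → 1 ≤ J →
    ((((Icc 1 L ×ˢ Icc 1 L) ×ˢ (Icc 1 J ×ˢ Icc 1 J)).filter
      (fun x : (ℕ × ℕ) × (ℕ × ℕ) => x.2.1 * x.1.2 = x.2.2 * x.1.1)).card : ℝ) ≤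
      C * ((L : ℝ) * J) ^ (1 + ε)) ∧
  (∀ (B : ℤ) (K : ℕ), B ≠ 0 →
    ∑ k ∈ Icc 1 K, Real.sqrt (Int.gcd B k) ≤ (K : ℝ) * (B.natAbs.divisors.card : ℝ)) ∧
  (∀ L : ℕ, 1 ≤ L → ∑ l1 ∈ Icc 1 L, ∑ l2 ∈ Icc 1 L, (Nat.gcd l1 l2 : ℝ) ≤
    (L : ℝ) ^ 2 * (1 + Real.log L))

/-- one block: Cauchy over `(e1, k)`, then `P_W1` -/
def P_W2 : Prop :=
  ∀ ε : ℝ, 0 < ε → ∃ C : ℝ, 0 < C ∧ ∀ (E K L J p1 p2 : ℕ) (b : ℤ) (V : ℝ)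
    (c1 : ℕ → ℝ) (c2 : ℕ → ℕ → ℝ) (Φ : ℕ → ℝ → ℂ), 1 ≤ E → 1 ≤ K → 1 ≤ L → 1 ≤ J →
    p1.Prime → p2.Prime → p1 ≠ p2 → b ≠ 0 → 1 ≤ V → (∀ n, |c1 n| ≤ 1) →
    (∀ k l, |c2 k l| ≤ 1) →
    (∀ k l, c2 k l ≠ 0 → Squarefree (k * l) ∧ Nat.Coprime (k * l) (p1 * p2)) →
    (∀ (j : ℕ) (s : ℝ), ((E * K * L : ℕ) : ℝ) ≤ s → ‖Φ j s‖ ≤ 1) →
    (∀ (j : ℕ) (s s' : ℝ), ((E * K * L : ℕ) : ℝ) ≤ s → ((E * K * L : ℕ) : ℝ) ≤ s' →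
      ‖Φ j s - Φ j s'‖ ≤ V * |s - s'| / (E * K * L : ℕ)) →
    ‖∑ e1 ∈ Ico E (2 * E), ∑ k ∈ Ico K (2 * K), ∑ l ∈ Ico L (2 * L),
      if Nat.Coprime (e1 * p2) (p1 * (k * l)) then
        ((c1 e1 * c2 k l : ℝ) : ℂ) * ∑ j ∈ Icc 1 J, Φ j ((e1 : ℝ) * k * l) *
          kf ((j : ℤ) * b) ((e1 * p2 : ℕ) : ℤ) (p1 * (k * l))
      else 0‖ ^ 2 ≤
      C * V * ((p1 : ℝ) * p2 * |(b : ℝ)| * E * K * L * J) ^ ε *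
        ((E : ℝ) ^ 2 * K ^ 2 * L * J + |(b : ℝ)| * p1 *
          ((E : ℝ) * (K : ℝ) ^ (5 / 2 : ℝ) * L ^ 3 * J ^ 2 +
            (E : ℝ) ^ 2 * (K : ℝ) ^ (3 / 2 : ℝ) * L * J ^ 3))

/-- the off-diagonal terms for factorable moduli -/
def P_W4 : Prop :=
  ∀ δ : ℝ, 0 < δ → ∃ ρ η : ℝ, 0 < ρ ∧ ρ ≤ 1 / 100 ∧ 0 < η ∧
  ∀ a : ℤ, a ≠ 0 → ∃ C : ℝ, 0 < C ∧
  ∀ (Y P P' Z : ℕ) (S : Finset ℕ) (lam : ℕ → ℝ), 3 ≤ Y → 1 ≤ P →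
    (P : ℝ) ≤ ((Y : ℝ) * P) ^ ρ → P ≤ P' → P' ≤ 2 * P →
    (Z : ℝ) ^ 2 ≤ ((Y : ℝ) * P) ^ (8 / 15 - δ) →
    (∀ d ∈ S, 1 ≤ d ∧ d ≤ Z ^ 2 ∧ Int.gcd a d = 1) → (∀ d, |lam d| ≤ 3 ^ om d) →
    (∀ d, lam d ≠ 0 → Squarefree d ∧ ∃ k l : ℕ, k ≤ Z ∧ l ≤ Z ∧ d = k * l) →
    |OFF a lam S (Pr P P') Y| ≤ C * (Y : ℝ) * (P : ℝ) ^ 2 * ((Y : ℝ) * P) ^ (-η)

/-! ### Dispersion -/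

/-- arbitrary moduli, level `14/27` -/
def P_DISP2 : Prop :=
  ∀ θ : ℝ, 0 < θ → θ < 14 / 27 → ∀ A : ℕ, ∃ ρ : ℝ, 0 < ρ ∧ ρ ≤ 1 / 100 ∧
  ∀ a : ℤ, a ≠ 0 → ∀ ρ0 : ℝ, 0 < ρ0 → ∃ C : ℝ, 0 < C ∧
  ∀ (M P P' D : ℕ) (α : ℕ → ℝ), 3 ≤ M → 3 ≤ P → ((M : ℝ) * P) ^ ρ0 ≤ P →
    (P : ℝ) ≤ ((M : ℝ) * P) ^ ρ → P ≤ P' → 4 * P' ≤ 5 * P →
    (D : ℝ) ≤ ((M : ℝ) * P) ^ θ → (∀ m, |α m| ≤ 1) →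
    ∑ d ∈ (Ioc D (2 * D)).filter (fun d : ℕ => Int.gcd a d = 1),
      |∑ m ∈ Icc 1 M, α m * (∑ p ∈ Pr P P', Ii a d p m -
        Cc d m * ((Pr P P').card : ℝ) / (Nat.totient d : ℝ))| ≤
      C * ((M : ℝ) * P) / Real.log ((M : ℝ) * P) ^ A

/-- factorable moduli, level `8/15` -/
def P_DISP1 : Prop :=
  ∀ δ : ℝ, 0 < δ → ∀ A : ℕ, ∃ ρ : ℝ, 0 < ρ ∧ ρ ≤ 1 / 100 ∧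
  ∀ a : ℤ, a ≠ 0 → ∀ ρ0 : ℝ, 0 < ρ0 → ∃ C : ℝ, 0 < C ∧
  ∀ (M P P' Z : ℕ) (lam α : ℕ → ℝ), 3 ≤ M → 3 ≤ P → ((M : ℝ) * P) ^ ρ0 ≤ P →
    (P : ℝ) ≤ ((M : ℝ) * P) ^ ρ → P ≤ P' → P' ≤ 2 * P →
    (Z : ℝ) ^ 2 ≤ ((M : ℝ) * P) ^ (8 / 15 - δ) → (∀ d, |lam d| ≤ 3 ^ om d) →
    (∀ d, lam d ≠ 0 → Squarefree d ∧ ∃ k l : ℕ, k ≤ Z ∧ l ≤ Z ∧ d = k * l) →
    (∀ m, |α m| ≤ (m.divisors.card : ℝ)) →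
    |∑ m ∈ Icc 1 M, α m *
      Dl a lam ((Icc 1 (Z ^ 2)).filter (fun d : ℕ => Int.gcd a d = 1)) (Pr P P') m| ≤
      C * ((M : ℝ) * P) / Real.log ((M : ℝ) * P) ^ A

/-! ### Sieve weights and auxiliary results -/

def P_S1 : Prop := ∀ Z s : ℕ, 2 ≤ Z → 1 ≤ s → ∃ lam : ℕ → ℝ, Sel Z s lam

/-- Turán–Kubilius -/
def P_TK : Prop :=
  (∀ (N P P' : ℕ), 1 ≤ P → P' ≤ N →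
    ∑ n ∈ Icc 1 N, (omW (Pr P P') n - mass (Pr P P')) ^ 2 ≤
      4 * (N : ℝ) * (mass (Pr P P') + 1)) ∧
  (∃ C : ℝ, 0 < C ∧ ∀ (N P P' d : ℕ) (a : ℤ), 1 ≤ P → 1 ≤ d → Int.gcd a d = 1 →
    (P' : ℝ) ^ 2 ≤ (N : ℝ) / d → (om d : ℝ) ≤ P →
    ∑ n ∈ (Icc 1 N).filter (fun n : ℕ => (d : ℤ) ∣ (n : ℤ) - a),
      (omW (Pr P P') n - mass (Pr P P')) ^ 2 ≤
      C * ((N : ℝ) / d) * (mass (Pr P P') + 1))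

/-- primes `a + q r` for fixed `r`, on average over `q` -/
def P_BTS : Prop :=
  ∃ C : ℝ, 0 < C ∧ ∀ (a : ℤ) (Q r : ℕ), a ≠ 0 → 3 ≤ Q → 1 ≤ r → a.natAbs ≤ Q →
    (((Ioc Q (2 * Q)).filter (fun q : ℕ => 0 < a + (q : ℤ) * r ∧
      (a + (q : ℤ) * r).toNat.Prime)).card : ℝ) ≤
      C * ((Q : ℝ) / Real.log Q) * ((r : ℝ) / Nat.totient r)

def P_PHIS : Prop :=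
  (∃ C : ℝ, 0 < C ∧ ∀ R : ℕ,
    ∑ r ∈ Icc 1 R, ((r : ℝ) / Nat.totient r) ^ 2 ≤ C * R) ∧
  (∀ ε : ℝ, 0 < ε → ∃ y0 : ℕ, ∀ y : ℕ, y0 ≤ y → ∀ Q : ℕ,
    (((Ioc Q (2 * Q)).filter (fun q : ℕ => 1 + ε <
      ∏ p ∈ q.primeFactors.filter (fun p => y < p), (1 + 1 / ((p : ℝ) - 1)) ^ 2)).card : ℝ) ≤
      ε * Q)

/-- the mass of the primes in `(x^ρ0, x^ρ]` -/
def P_LW : Prop :=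
  ∀ K ρ : ℝ, 0 < ρ → ∃ (ρ0 K' : ℝ) (x0 : ℕ), 0 < ρ0 ∧ ρ0 < ρ ∧ ∀ x : ℕ, x0 ≤ x →
    K ≤ mass (Pr ⌊(x : ℝ) ^ ρ0⌋₊ ⌊(x : ℝ) ^ ρ⌋₊) ∧
    mass (Pr ⌊(x : ℝ) ^ ρ0⌋₊ ⌊(x : ℝ) ^ ρ⌋₊) ≤ K'

/-- the Moebius function over integers prime to `d`, on average over `d` -/
def P_MU : Prop :=
  ∀ ε : ℝ, 0 < ε → ∃ M0 : ℕ, ∀ M : ℕ, M0 ≤ M → ∀ D : ℕ, 1 ≤ D →
    ∑ d ∈ Ioc D (2 * D), (1 / (Nat.totient d : ℝ)) *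
      |∑ m ∈ (Icc 1 M).filter (fun m => Nat.Coprime m d), (ArithmeticFunction.moebius m : ℝ)| ≤
      ε * M

/-- one block of primes: upper bound sieve on average over `q ∈ E` -/
def P_BT1 : Prop :=
  ∀ δ : ℝ, 0 < δ → ∃ ρ : ℝ, 0 < ρ ∧ ρ ≤ 1 / 100 ∧
  ∀ a : ℤ, a ≠ 0 → ∀ ρ0 : ℝ, 0 < ρ0 → ∃ C : ℝ, 0 < C ∧
  ∀ (M P P' Z Q s : ℕ) (lam : ℕ → ℝ) (E : Finset ℕ), 3 ≤ M → 3 ≤ P →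
    ((M : ℝ) * P) ^ ρ0 ≤ P → (P : ℝ) ≤ ((M : ℝ) * P) ^ ρ → P ≤ P' → P' ≤ 2 * P →
    (Z : ℝ) ^ 2 ≤ ((M : ℝ) * P) ^ (8 / 15 - δ) → Sel Z s lam → 1 ≤ Q →
    (Q : ℝ) ≤ (M : ℝ) * ((M : ℝ) * P) ^ (-ρ0) →
    (∀ q ∈ E, Q < q ∧ q ≤ 2 * Q ∧ Int.gcd a q = 1) →
    (∑ q ∈ E, ∑ b ∈ (Icc 1 (M / q)).filter (fun b : ℕ => Int.gcd a b = 1), ∑ p ∈ Pr P P',
      ∑ d ∈ Icc 1 (Z ^ 2), if (d : ℤ) ∣ a + q * b * p then lam d else 0) ≤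
      ((Pr P P').card : ℝ) * M * (∑ q ∈ E,
        ((Nat.totient a.natAbs : ℝ) / (a.natAbs : ℝ)) / (q : ℝ) *
        ∑ d ∈ (Icc 1 (Z ^ 2)).filter (fun d => Nat.Coprime d (q * a.natAbs)), lam d / d) +
      C * ((M : ℝ) * P) / Real.log ((M : ℝ) * P) ^ 3

/-- the weights `|ω_W(r) - L|` against primes `a + q r` -/
def P_BT2 : Prop :=
  ∀ a : ℤ, a ≠ 0 → ∀ δ : ℝ, 0 < δ → ∃ C : ℝ, 0 < C ∧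
  ∀ (x Q R P P' : ℕ), 3 ≤ x → 3 ≤ Q → (x : ℝ) ^ δ ≤ Q → a.natAbs ≤ Q → R * Q ≤ 3 * x →
    1 ≤ P → P' ≤ R →
    ∑ r ∈ Icc 1 R, |omW (Pr P P') r - mass (Pr P P')| *
      (((Ioc Q (2 * Q)).filter (fun q : ℕ => 0 < a + (q : ℤ) * r ∧
        (a + (q : ℤ) * r).toNat.Prime)).card : ℝ) ≤
      C * ((x : ℝ) / Real.log x) * Real.sqrt (mass (Pr P P') + 1)

/-! ### The final theorems -/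

/-- Brun–Titchmarsh on average with the constant `15/4` -/
def P_BT : Prop :=
  ∀ a : ℤ, a ≠ 0 → ∀ ε : ℝ, 0 < ε → ∀ δ : ℝ, 0 < δ → ∃ x0 : ℕ, ∀ x : ℕ, x0 ≤ x →
    ∀ Q : ℕ, (x : ℝ) ^ δ ≤ Q → (Q : ℝ) ≤ (x : ℝ) ^ (1 - δ) →
    (((Ioc Q (2 * Q)).filter (fun q : ℕ => Int.gcd a q = 1 ∧
      (15 / 4 + ε) * (x / (Nat.totient q * Real.log x)) < piq x q a)).card : ℝ) ≤ ε * Q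

/-- the Moebius function in progressions to moduli up to `x^(14/27 - δ)` -/
def P_MT : Prop :=
  ∀ a : ℤ, a ≠ 0 → ∀ θ : ℝ, θ < 14 / 27 → ∀ ε : ℝ, 0 < ε → ∃ x0 : ℕ, ∀ x : ℕ, x0 ≤ x →
    ∀ D : ℕ, 1 ≤ D → (D : ℝ) ≤ (x : ℝ) ^ θ →
    ∑ d ∈ (Ioc D (2 * D)).filter (fun d : ℕ => Int.gcd a d = 1),
      |∑ n ∈ (Icc 1 x).filter (fun n : ℕ => (d : ℤ) ∣ (n : ℤ) - a),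
        (ArithmeticFunction.moebius n : ℝ)| ≤ ε * x

end Pool.Agent.H262R4.FR
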