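import Mathlib
import Pool.Agent.H262R4.FR.Stubs

/-!
FR project, task F2: class sums with a coprimality condition.
-/

set_option autoImplicit false

namespace Pool.Agent.H262R4.FR.TF2

open Finset
open Pool.Agent.H262R4.FR

/-- expansion of the coprimality indicator -/
theorem Cc_expand (d : ℕ) (hd : 1 ≤ d) (m : ℤ) :
    Cc d m = ∑ f ∈ d.divisors, if (f : ℤ) ∣ m then (ArithmeticFunction.moebius f : ℝ) else 0 := by
  have hg : Int.gcd m d ≠ 0 := by
    intro h
    rw [Int.gcd_eq_zero_iff] at h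
    have : d = 0 := by exact_mod_cast h.2
    omega
  have h1 : ∑ f ∈ (Int.gcd m d).divisors, (ArithmeticFunction.moebius f) =
      if Int.gcd m d = 1 then 1 else 0 := by
    have h2 := ArithmeticFunction.coe_mul_zeta_apply (R := ℤ)
      (f := ArithmeticFunction.moebius) (x := Int.gcd m d)
    rw [ArithmeticFunction.moebius_mul_coe_zeta] at h2
    rw [← h2, ArithmeticFunction.one_apply]
  have h3 : d.divisors.filter (fun f : ℕ => (f : ℤ) ∣ m) = (Int.gcd m d).divisors := by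
    ext f
    simp only [Finset.mem_filter, Nat.mem_divisors]
    constructor
    · rintro ⟨⟨ha, _⟩, hb⟩
      refine ⟨?_, hg⟩
      have := Int.dvd_coe_gcd hb (Int.natCast_dvd_natCast.mpr ha)
      exact_mod_cast this
    · rintro ⟨ha, _⟩
      have h4 : (f : ℤ) ∣ (Int.gcd m d : ℤ) := Int.natCast_dvd_natCast.mpr ha
      refine ⟨⟨?_, by omega⟩, h4.trans (Int.gcd_dvd_left _ _)⟩
      exact Int.natCast_dvd_natCast.mp (h4.trans (Int.gcd_dvd_right _ _))
  rw [← Finset.sum_filter, h3]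
  unfold Cc
  have h5 : (∑ f ∈ (Int.gcd m d).divisors, (ArithmeticFunction.moebius f : ℝ)) =
      ((if Int.gcd m d = 1 then (1 : ℤ) else 0 : ℤ) : ℝ) := by
    rw [← h1]; push_cast; rfl
  rw [h5]
  split_ifs <;> simp

/-- `∑_{f ∣ n} μ(f)/f = φ(n)/n` -/
theorem moeb_tot (n : ℕ) (hn : 1 ≤ n) :
    ∑ f ∈ n.divisors, (ArithmeticFunction.moebius f : ℝ) / f = (Nat.totient n : ℝ) / n := by
  have h := (ArithmeticFunction.sum_eq_iff_sum_mul_moebius_eq (R := ℝ)
    (f := fun n => (Nat.totient n : ℝ)) (g := fun n => (n : ℝ))).mp (by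
      intro n _
      have := Nat.sum_totient n
      exact_mod_cast this) n hn
  have hn0 : (n : ℝ) ≠ 0 := by positivity
  rw [eq_div_iff hn0, ← h, Nat.sum_divisorsAntidiagonal
    (fun a b => (ArithmeticFunction.moebius a : ℝ) * (b : ℝ)), Finset.sum_mul]
  refine Finset.sum_congr rfl fun f hf => ?_
  have hf' := Nat.dvd_of_mem_divisors hf
  have hf0 : (f : ℝ) ≠ 0 := by
    have : f ≠ 0 := fun h0 => by
      rw [h0] at hf'; have := Nat.eq_zero_of_zero_dvd hf'; omega
    exact_mod_cast this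
  rw [Nat.cast_div hf' hf0]
  field_simp

theorem tot_prod (n : ℕ) (hn : 1 ≤ n) :
    (Nat.totient n : ℝ) / n = ∏ p ∈ n.primeFactors, (1 - (p : ℝ)⁻¹) := by
  have h := Nat.totient_eq_mul_prod_factors n
  have hn0 : (n : ℝ) ≠ 0 := by positivity
  have h2 : (Nat.totient n : ℝ) = (n : ℝ) * ∏ p ∈ n.primeFactors, (1 - (p : ℝ)⁻¹) := by
    have := congrArg (fun q : ℚ => (q : ℝ)) h
    push_cast at this
    exact this
  rw [h2]
  field_simp

theorem main_id (d1 d2 : ℕ) (h1 : 1 ≤ d1) (h2 : 1 ≤ d2) :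
    ∑ f ∈ d2.divisors.filter (fun f => Nat.Coprime f d1),
        (ArithmeticFunction.moebius f : ℝ) / f =
      (d1 : ℝ) * ((Nat.totient (Nat.lcm d1 d2) : ℝ) /
        ((Nat.lcm d1 d2 : ℝ) * Nat.totient d1)) := by
  set A : Finset ℕ := d2.primeFactors \ d1.primeFactors with hA
  have hAp : ∀ p ∈ A, p.Prime := fun p hp =>
    Nat.prime_of_mem_primeFactors (Finset.mem_sdiff.mp hp).1
  set n : ℕ := ∏ p ∈ A, p with hn
  have hnpos : 1 ≤ n := Finset.prod_pos fun p hp => (hAp p hp).pos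
  have hnA : n.primeFactors = A := by
    rw [hn]; exact Nat.primeFactors_prod hAp
  have hnd : n ∣ d2 := by
    rw [hn]
    refine Finset.prod_primes_dvd d2 (fun p hp => (hAp p hp).prime) (fun p hp => ?_)
    exact Nat.dvd_of_mem_primeFactors (Finset.mem_sdiff.mp hp).1
  have hsub : n.divisors ⊆ d2.divisors.filter (fun f => Nat.Coprime f d1) := by
    intro f hf
    have hf' := Nat.dvd_of_mem_divisors hf
    rw [Finset.mem_filter]
    refine ⟨Nat.mem_divisors.mpr ⟨hf'.trans hnd, by omega⟩, ?_⟩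
    refine Nat.Coprime.coprime_dvd_left hf' ?_
    rw [hn]
    refine Nat.Coprime.prod_left fun p hp => ?_
    rw [(Nat.Prime.coprime_iff_not_dvd (hAp p hp))]
    intro hd
    exact (Finset.mem_sdiff.mp hp).2 (Nat.mem_primeFactors.mpr ⟨hAp p hp, hd, by omega⟩)
  have hs : ∑ f ∈ d2.divisors.filter (fun f => Nat.Coprime f d1),
        (ArithmeticFunction.moebius f : ℝ) / f =
      ∑ f ∈ n.divisors, (ArithmeticFunction.moebius f : ℝ) / f := by
    symm
    refine Finset.sum_subset hsub fun f hf hf2 => ?_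
    have hsq : ¬ Squarefree f := by
      intro hsq
      apply hf2
      rw [Finset.mem_filter, Nat.mem_divisors] at hf
      refine Nat.mem_divisors.mpr ⟨?_, by omega⟩
      rw [← Nat.prod_primeFactors_of_squarefree hsq, hn]
      refine Finset.prod_dvd_prod_of_subset _ _ _ fun p hp => ?_
      have hpp := Nat.prime_of_mem_primeFactors hp
      have hpf := Nat.dvd_of_mem_primeFactors hp
      refine Finset.mem_sdiff.mpr ⟨Nat.mem_primeFactors.mpr
        ⟨hpp, hpf.trans hf.1.1, hf.1.2⟩, fun hc => ?_⟩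
      have h3 := Nat.dvd_gcd hpf (Nat.dvd_of_mem_primeFactors hc)
      rw [hf.2] at h3
      exact hpp.one_lt.ne' (Nat.dvd_one.mp h3)
    rw [ArithmeticFunction.moebius_eq_zero_of_not_squarefree hsq]
    simp
  have hL : 1 ≤ Nat.lcm d1 d2 := Nat.lcm_pos h1 h2
  have hLp : (Nat.lcm d1 d2).primeFactors = d1.primeFactors ∪ A := by
    ext p
    have hLne : Nat.lcm d1 d2 ≠ 0 := by omega
    have hd1ne : d1 ≠ 0 := by omega
    have hd2ne : d2 ≠ 0 := by omega
    simp only [Finset.mem_union, hA, Finset.mem_sdiff, Nat.mem_primeFactors]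
    constructor
    · rintro ⟨hp, hd, -⟩
      rcases hp.dvd_mul.mp (hd.trans (Nat.lcm_dvd_mul d1 d2)) with hh | hh
      · exact Or.inl ⟨hp, hh, hd1ne⟩
      · by_cases h6 : p ∣ d1
        · exact Or.inl ⟨hp, h6, hd1ne⟩
        · exact Or.inr ⟨⟨hp, hh, hd2ne⟩, fun hc => h6 hc.2.1⟩
    · rintro (⟨hp, hd, -⟩ | ⟨⟨hp, hd, -⟩, -⟩)
      · exact ⟨hp, hd.trans (Nat.dvd_lcm_left _ _), hLne⟩
      · exact ⟨hp, hd.trans (Nat.dvd_lcm_right _ _), hLne⟩
  have hdisj : Disjoint d1.primeFactors A := by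
    rw [hA]; exact Finset.disjoint_sdiff
  rw [hs, moeb_tot n hnpos, tot_prod n hnpos, hnA]
  have h5 := tot_prod (Nat.lcm d1 d2) hL
  rw [hLp, Finset.prod_union hdisj, ← tot_prod d1 h1] at h5
  have hd1 : (d1 : ℝ) ≠ 0 := by positivity
  have ht1 : (Nat.totient d1 : ℝ) ≠ 0 := by
    have := Nat.totient_pos.mpr h1
    positivity
  have hLr : (Nat.lcm d1 d2 : ℝ) ≠ 0 := by positivity
  rw [← div_div, h5]
  field_simp

theorem part1 (h : P_F1) (Y d1 d2 : ℕ) (u : ℤ) (hY : 1 ≤ Y) (h1 : 1 ≤ d1) (h2 : 1 ≤ d2)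
    (hu : Int.gcd u d1 = 1) :
    |(∑' m : ℤ, Wd Y m * ((if (d1 : ℤ) ∣ m - u then 1 else 0) * Cc d2 m)) -
      (Y : ℝ) * Nat.totient (Nat.lcm d1 d2) / ((Nat.lcm d1 d2 : ℝ) * Nat.totient d1)| ≤
      8 * (d2.divisors.card : ℝ) := by
  obtain ⟨hW, -, hsum, hcl⟩ := h
  have hS0 : Summable (fun m : ℤ => Wd Y m) := by
    have := hsum Y 0 hY
    simpa using this
  have hWn : ∀ m, 0 ≤ Wd Y m := fun m => (hW Y m hY).1
  set T : ℕ → ℝ := fun f => ∑' m : ℤ, if (d1 : ℤ) ∣ m - u ∧ (f : ℤ) ∣ m then Wd Y m else 0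
    with hT
  have hsumT : ∀ f : ℕ, Summable (fun m : ℤ =>
      if (d1 : ℤ) ∣ m - u ∧ (f : ℤ) ∣ m then Wd Y m else 0) := by
    intro f
    refine Summable.of_nonneg_of_le (fun m => ?_) (fun m => ?_) hS0
    · split_ifs
      · exact hWn m
      · exact le_refl _
    · split_ifs
      · exact le_refl _
      · exact hWn m
  have hexp : (∑' m : ℤ, Wd Y m * ((if (d1 : ℤ) ∣ m - u then 1 else 0) * Cc d2 m)) =
      ∑ f ∈ d2.divisors, (ArithmeticFunction.moebius f : ℝ) * T f := by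
    have e1 : ∀ m : ℤ, Wd Y m * ((if (d1 : ℤ) ∣ m - u then 1 else 0) * Cc d2 m) =
        ∑ f ∈ d2.divisors, (ArithmeticFunction.moebius f : ℝ) *
          (if (d1 : ℤ) ∣ m - u ∧ (f : ℤ) ∣ m then Wd Y m else 0) := by
      intro m
      rw [Cc_expand d2 h2 m, Finset.mul_sum, Finset.mul_sum]
      refine Finset.sum_congr rfl fun f _ => ?_
      by_cases ha : (d1 : ℤ) ∣ m - u <;> by_cases hb : (f : ℤ) ∣ m <;> simp [ha, hb, mul_comm]
    rw [tsum_congr e1, Summable.tsum_finsetSum (fun f _ => (hsumT f).mul_left _)]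
    refine Finset.sum_congr rfl fun f _ => ?_
    rw [tsum_mul_left]
  have hTf : ∀ f ∈ d2.divisors,
      |T f - (if Nat.Coprime f d1 then (Y : ℝ) / (d1 * f) else 0)| ≤ 8 := by
    intro f hf
    have hf' := Nat.dvd_of_mem_divisors hf
    have hfpos : 1 ≤ f := Nat.pos_of_mem_divisors hf
    by_cases hc : Nat.Coprime f d1
    · rw [if_pos hc]
      have hcop : IsCoprime (d1 : ℤ) (f : ℤ) := Nat.isCoprime_iff_coprime.mpr hc.symm
      obtain ⟨a, b, hab⟩ := hcop
      have hcop : IsCoprime (d1 : ℤ) (f : ℤ) := Nat.isCoprime_iff_coprime.mpr hc.symm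
      set v : ℤ := u * (b * f) with hv
      have hiff : ∀ m : ℤ, ((d1 : ℤ) ∣ m - u ∧ (f : ℤ) ∣ m) ↔
          ((d1 * f : ℕ) : ℤ) ∣ m - v := by
        intro m
        have e1 : m - v = (m - u) + (u * a) * d1 := by
          rw [hv]
          linear_combination (-u) * hab
        have e2 : m - v = m - (u * b) * f := by rw [hv]; ring
        push_cast
        constructor
        · rintro ⟨ha, hb⟩
          refine hcop.mul_dvd ?_ ?_
          · rw [e1]; exact dvd_add ha (Dvd.intro_left _ rfl)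
          · rw [e2]; exact dvd_sub hb (Dvd.intro_left _ rfl)
        · intro hd
          have hd1 : (d1 : ℤ) ∣ m - v := (Dvd.intro _ rfl).trans hd
          have hd2 : (f : ℤ) ∣ m - v := (Dvd.intro_left _ rfl).trans hd
          refine ⟨?_, ?_⟩
          · rw [e1] at hd1
            exact (dvd_add_left (Dvd.intro_left _ rfl)).mp hd1
          · rw [e2] at hd2
            have h6 := dvd_add hd2 (Dvd.intro_left (u * b) (rfl : (u * b) * (f : ℤ) = _))
            simpa using h6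
      have hk : 1 ≤ d1 * f := Nat.mul_pos h1 hfpos
      have h7 := hcl Y (d1 * f) v hY hk
      have h8 : T f = ∑' m : ℤ, if ((d1 * f : ℕ) : ℤ) ∣ m - v then Wd Y m else 0 := by
        rw [hT]
        refine tsum_congr fun m => ?_
        by_cases hm : (d1 : ℤ) ∣ m - u ∧ (f : ℤ) ∣ m
        · rw [if_pos hm, if_pos ((hiff m).mp hm)]
        · rw [if_neg hm, if_neg (fun hx => hm ((hiff m).mpr hx))]
      rw [h8]
      have h9 : ((d1 * f : ℕ) : ℝ) = (d1 : ℝ) * f := by push_cast; ring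
      rw [h9] at h7
      exact h7
    · rw [if_neg hc]
      have h8 : T f = 0 := by
        rw [hT]
        have : ∀ m : ℤ, (if (d1 : ℤ) ∣ m - u ∧ (f : ℤ) ∣ m then Wd Y m else 0) = 0 := by
          intro m
          rw [if_neg]
          rintro ⟨ha, hb⟩
          apply hc
          rw [Nat.coprime_iff_gcd_eq_one, ← Nat.dvd_one]
          have hgf : ((Nat.gcd f d1 : ℕ) : ℤ) ∣ m :=
            (Int.natCast_dvd_natCast.mpr (Nat.gcd_dvd_left _ _)).trans hb
          have hgd : ((Nat.gcd f d1 : ℕ) : ℤ) ∣ (d1 : ℤ) :=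
            Int.natCast_dvd_natCast.mpr (Nat.gcd_dvd_right _ _)
          have hgu : ((Nat.gcd f d1 : ℕ) : ℤ) ∣ u := by
            have := dvd_sub hgf (hgd.trans ha)
            simpa using this
          have := Int.dvd_coe_gcd hgu hgd
          rw [hu] at this
          exact_mod_cast this
        simp only [this, tsum_zero]
      rw [h8]; norm_num
  have hmain : (Y : ℝ) * Nat.totient (Nat.lcm d1 d2) / ((Nat.lcm d1 d2 : ℝ) * Nat.totient d1) =
      ∑ f ∈ d2.divisors, (ArithmeticFunction.moebius f : ℝ) *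
        (if Nat.Coprime f d1 then (Y : ℝ) / (d1 * f) else 0) := by
    have hd1 : (d1 : ℝ) ≠ 0 := by positivity
    have e1 : ∑ f ∈ d2.divisors, (ArithmeticFunction.moebius f : ℝ) *
        (if Nat.Coprime f d1 then (Y : ℝ) / (d1 * f) else 0) =
        ((Y : ℝ) / d1) * ∑ f ∈ d2.divisors.filter (fun f => Nat.Coprime f d1),
        (ArithmeticFunction.moebius f : ℝ) / f := by
      rw [Finset.sum_filter, Finset.mul_sum]
      refine Finset.sum_congr rfl fun f hf => ?_
      split_ifs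
      · rw [mul_div_assoc', div_mul_div_comm]
        ring
      · simp
    rw [e1, main_id d1 d2 h1 h2]
    field_simp
  rw [hexp, hmain, ← Finset.sum_sub_distrib]
  refine (Finset.abs_sum_le_sum_abs _ _).trans ?_
  rw [mul_comm (8 : ℝ), ← nsmul_eq_mul]
  refine Finset.sum_le_card_nsmul _ _ _ fun f hf => ?_
  rw [← mul_sub, abs_mul]
  have h10 : |(ArithmeticFunction.moebius f : ℝ)| ≤ 1 := by
    have := ArithmeticFunction.abs_moebius_le_one (n := f)
    exact_mod_cast this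
  calc |(ArithmeticFunction.moebius f : ℝ)| *
        |T f - (if Nat.Coprime f d1 then (Y : ℝ) / (d1 * f) else 0)|
      ≤ 1 * 8 := mul_le_mul h10 (hTf f hf) (abs_nonneg _) zero_le_one
    _ = 8 := by norm_num

theorem card_div_lcm (d1 d2 : ℕ) (h1 : 1 ≤ d1) (h2 : 1 ≤ d2) :
    ((Nat.lcm d1 d2).divisors.card : ℝ) ≤ (d1.divisors.card : ℝ) * (d2.divisors.card : ℝ) := by
  have e1 : (Nat.lcm d1 d2).divisors ⊆ (d1 * d2).divisors :=
    Nat.divisors_subset_of_dvd (by positivity) (Nat.lcm_dvd_mul d1 d2)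
  have e2 : ((d1 * d2).divisors).card ≤ d1.divisors.card * d2.divisors.card := by
    rw [Nat.divisors_mul]
    exact Finset.card_mul_le
  exact_mod_cast (Finset.card_le_card e1).trans e2

theorem part2 (h : P_F1) (Y d1 d2 : ℕ) (hY : 1 ≤ Y) (h1 : 1 ≤ d1) (h2 : 1 ≤ d2) :
    |S22 Y d1 d2 - (Y : ℝ) * Nat.totient (Nat.lcm d1 d2) / (Nat.lcm d1 d2 : ℝ)| ≤
      8 * (d1.divisors.card : ℝ) * (d2.divisors.card : ℝ) := by
  have hL : 1 ≤ Nat.lcm d1 d2 := Nat.lcm_pos h1 h2
  have h3 := part1 h Y 1 (Nat.lcm d1 d2) 0 hY le_rfl hL (by simp)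
  have e1 : (∑' m : ℤ, Wd Y m * ((if ((1 : ℕ) : ℤ) ∣ m - 0 then 1 else 0) *
      Cc (Nat.lcm d1 d2) m)) = S22 Y d1 d2 := by
    unfold S22
    refine tsum_congr fun m => ?_
    congr 1
    have : ((1 : ℕ) : ℤ) ∣ m - 0 := by simp
    rw [if_pos this, one_mul]
    unfold Cc
    have hiff : Int.gcd m (Nat.lcm d1 d2 : ℕ) = 1 ↔ (Int.gcd m d1 = 1 ∧ Int.gcd m d2 = 1) := by
      have key : ∀ d : ℕ, Int.gcd m (d : ℤ) = Nat.gcd m.natAbs d := fun d => by
        simp [Int.gcd]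
      rw [key, key, key]
      change Nat.Coprime _ _ ↔ Nat.Coprime _ _ ∧ Nat.Coprime _ _
      constructor
      · intro hc
        exact ⟨hc.coprime_dvd_right (Nat.dvd_lcm_left _ _),
          hc.coprime_dvd_right (Nat.dvd_lcm_right _ _)⟩
      · rintro ⟨ha, hb⟩
        exact (Nat.Coprime.mul_right ha hb).coprime_dvd_right (Nat.lcm_dvd_mul d1 d2)
    by_cases ha : Int.gcd m d1 = 1 <;> by_cases hb : Int.gcd m d2 = 1 <;>
      simp [hiff, ha, hb]
  rw [e1] at h3
  have e2 : Nat.lcm 1 (Nat.lcm d1 d2) = Nat.lcm d1 d2 := Nat.lcm_one_left _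
  rw [e2, Nat.totient_one] at h3
  have h4 := card_div_lcm d1 d2 h1 h2
  have h5 : (Y : ℝ) * Nat.totient (Nat.lcm d1 d2) / ((Nat.lcm d1 d2 : ℝ) * ((1 : ℕ) : ℝ)) =
      (Y : ℝ) * Nat.totient (Nat.lcm d1 d2) / (Nat.lcm d1 d2 : ℝ) := by
    rw [Nat.cast_one, mul_one]
  rw [h5] at h3
  refine h3.trans ?_
  nlinarith [h4]

end Pool.Agent.H262R4.FR.TF2

namespace Pool.Agent.H262R4.FR

/-- class sums with a coprimality condition -/
theorem t_F2 (h : P_F1) : P_F2 :=
  ⟨fun Y d1 d2 u hY h1 h2 hu => TF2.part1 h Y d1 d2 u hY h1 h2 hu,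
    fun Y d1 d2 hY h1 h2 => TF2.part2 h Y d1 d2 hY h1 h2⟩

end Pool.Agent.H262R4.FR
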