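import Pool.Agent.H262R4.FR.Stubs

/-!
# FR: F3, expansion of the variance
-/

set_option autoImplicit false

namespace Pool.Agent.H262R4.FR.TF3

open Finset
open Pool.Agent.H442R2.KF (Wt)

theorem summable_Wt (N : ℕ) (hN : 1 ≤ N) : Summable (fun m : ℤ => Wt N m) := by
  have hN0 : (0 : ℝ) < N := by exact_mod_cast hN
  obtain ⟨c, hc⟩ : ∃ c : ℝ, c = Real.pi / (N : ℝ) ^ 2 := ⟨_, rfl⟩
  have hc0 : 0 < c := by rw [hc]; exact div_pos Real.pi_pos (by positivity)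
  have hgeo : Summable (fun n : ℕ => (Real.exp (-c)) ^ n) :=
    summable_geometric_of_lt_one (Real.exp_pos _).le (by
      rw [Real.exp_lt_one_iff]
      linarith)
  have hb : ∀ m : ℤ, Wt N m ≤ Real.exp (-c) ^ m.natAbs := by
    intro m
    unfold Pool.Agent.H442R2.KF.Wt
    rw [← Real.exp_nat_mul, Real.exp_le_exp]
    have h1 : (m.natAbs : ℝ) ≤ (m : ℝ) ^ 2 := by
      have h2 : m.natAbs ≤ m.natAbs ^ 2 := Nat.le_self_pow (by norm_num) _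
      have h3 : (m.natAbs : ℝ) ≤ (m.natAbs : ℝ) ^ 2 := by exact_mod_cast h2
      rw [Nat.cast_natAbs] at h3 ⊢
      rw [Int.cast_abs, sq_abs] at h3
      rw [Int.cast_abs]
      exact h3
    have h3 : -Real.pi * ((m : ℝ) / N) ^ 2 = -(c * (m : ℝ) ^ 2) := by
      rw [hc]
      field_simp
    rw [h3]
    nlinarith
  have h0 : ∀ m : ℤ, 0 ≤ Wt N m := fun m => (Real.exp_pos _).le
  refine Summable.of_nat_of_neg ?_ ?_
  · refine Summable.of_nonneg_of_le (fun n => h0 _) (fun n => ?_) hgeo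
    have := hb (n : ℤ)
    rwa [Int.natAbs_natCast] at this
  · refine Summable.of_nonneg_of_le (fun n => h0 _) (fun n => ?_) hgeo
    have := hb (-(n : ℤ))
    rwa [Int.natAbs_neg, Int.natAbs_natCast] at this

theorem summable_Wd (Y : ℕ) (hY : 1 ≤ Y) (f : ℤ → ℝ) (hf : ∀ m, |f m| ≤ 1) :
    Summable (fun m : ℤ => Wd Y m * f m) := by
  have h1 : Summable (fun m : ℤ => Wt (2 * Y) m + Wt Y m) :=
    (summable_Wt (2 * Y) (by omega)).add (summable_Wt Y hY)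
  refine Summable.of_norm_bounded h1 fun m => ?_
  rw [Real.norm_eq_abs, abs_mul]
  have h2 : |Wd Y m| ≤ Wt (2 * Y) m + Wt Y m := by
    unfold Wd
    have a1 : 0 ≤ Wt (2 * Y) m := (Real.exp_pos _).le
    have a2 : 0 ≤ Wt Y m := (Real.exp_pos _).le
    rw [abs_le]
    constructor <;> linarith
  calc |Wd Y m| * |f m| ≤ |Wd Y m| * 1 := mul_le_mul_of_nonneg_left (hf m) (abs_nonneg _)
    _ ≤ _ := by rw [mul_one]; exact h2

theorem abs_Ii (a : ℤ) (d p : ℕ) (m : ℤ) : |Ii a d p m| ≤ 1 := by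
  unfold Ii
  split_ifs <;> simp

theorem abs_Cc (d : ℕ) (m : ℤ) : |Cc d m| ≤ 1 := by
  unfold Cc
  split_ifs <;> simp

theorem abs_mul_le (x y : ℝ) (hx : |x| ≤ 1) (hy : |y| ≤ 1) : |x * y| ≤ 1 := by
  rw [abs_mul]
  exact mul_le_one₀ hx (abs_nonneg _) hy

/-- the pointwise identity -/
theorem pointwise (S : Finset ℕ) (lam A B : ℕ → ℝ) :
    (∑ d ∈ S, lam d * (A d - B d)) ^ 2 = ∑ d1 ∈ S, ∑ d2 ∈ S, lam d1 * lam d2 *
      (A d1 * A d2 - 2 * (A d1 * B d2) + B d1 * B d2) := by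
  have h1 : ∑ d1 ∈ S, ∑ d2 ∈ S, lam d1 * lam d2 * (B d1 * A d2) =
      ∑ d1 ∈ S, ∑ d2 ∈ S, lam d1 * lam d2 * (A d1 * B d2) := by
    rw [sum_comm]
    refine sum_congr rfl fun d1 _ => sum_congr rfl fun d2 _ => ?_
    ring
  rw [sq, sum_mul_sum]
  have h2 : ∑ d1 ∈ S, ∑ d2 ∈ S, lam d1 * (A d1 - B d1) * (lam d2 * (A d2 - B d2)) =
      ∑ d1 ∈ S, ∑ d2 ∈ S, lam d1 * lam d2 * (A d1 * A d2) -
      ∑ d1 ∈ S, ∑ d2 ∈ S, lam d1 * lam d2 * (A d1 * B d2) -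
      ∑ d1 ∈ S, ∑ d2 ∈ S, lam d1 * lam d2 * (B d1 * A d2) +
      ∑ d1 ∈ S, ∑ d2 ∈ S, lam d1 * lam d2 * (B d1 * B d2) := by
    simp only [← sum_sub_distrib, ← sum_add_distrib]
    refine sum_congr rfl fun d1 _ => sum_congr rfl fun d2 _ => ?_
    ring
  rw [h2, h1]
  simp only [← sum_sub_distrib, ← sum_add_distrib]
  refine sum_congr rfl fun d1 _ => sum_congr rfl fun d2 _ => ?_
  ring

end Pool.Agent.H262R4.FR.TF3

namespace Pool.Agent.H262R4.FR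

open Finset TF3

theorem t_F3 : P_F3 := by
  intro a lam S T Y hY
  have h11 : ∀ d1 d2 p1 p2, HasSum (fun m : ℤ => Wd Y m * (Ii a d1 p1 m * Ii a d2 p2 m))
      (S11 a Y d1 d2 p1 p2) := fun d1 d2 p1 p2 =>
    (summable_Wd Y hY _ fun m => abs_mul_le _ _ (abs_Ii _ _ _ _) (abs_Ii _ _ _ _)).hasSum
  have h12 : ∀ d1 p1 d2, HasSum (fun m : ℤ => Wd Y m * (Ii a d1 p1 m * Cc d2 m))
      (S12 a Y d1 p1 d2) := fun d1 p1 d2 =>
    (summable_Wd Y hY _ fun m => abs_mul_le _ _ (abs_Ii _ _ _ _) (abs_Cc _ _)).hasSum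
  have h22 : ∀ d1 d2, HasSum (fun m : ℤ => Wd Y m * (Cc d1 m * Cc d2 m))
      (S22 Y d1 d2) := fun d1 d2 =>
    (summable_Wd Y hY _ fun m => abs_mul_le _ _ (abs_Cc _ _) (abs_Cc _ _)).hasSum
  have key := hasSum_sum (fun d1 (_ : d1 ∈ S) => hasSum_sum (fun d2 (_ : d2 ∈ S) =>
    (((hasSum_sum fun p1 (_ : p1 ∈ T) => hasSum_sum fun p2 (_ : p2 ∈ T) => h11 d1 d2 p1 p2).sub
      ((hasSum_sum fun p1 (_ : p1 ∈ T) => h12 d1 p1 d2).mul_left
        (2 * ((T.card : ℝ) / Nat.totient d2)))).add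
      ((h22 d1 d2).mul_left ((T.card : ℝ) ^ 2 / (Nat.totient d1 * Nat.totient d2)))).mul_left
      (lam d1 * lam d2)))
  rw [← key.tsum_eq]
  unfold VV
  congr 1
  funext m
  unfold Dl
  rw [pointwise S lam (fun d => ∑ p ∈ T, Ii a d p m)
    (fun d => Cc d m * (T.card : ℝ) / (Nat.totient d : ℝ)), mul_sum]
  refine sum_congr rfl fun d1 _ => ?_
  rw [mul_sum]
  refine sum_congr rfl fun d2 _ => ?_
  have e1 : ∑ p1 ∈ T, ∑ p2 ∈ T, Wd Y m * (Ii a d1 p1 m * Ii a d2 p2 m) =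
      Wd Y m * ((∑ p ∈ T, Ii a d1 p m) * ∑ p ∈ T, Ii a d2 p m) := by
    rw [sum_mul_sum, mul_sum]
    refine sum_congr rfl fun p1 _ => ?_
    rw [mul_sum]
  have e2 : ∑ p1 ∈ T, Wd Y m * (Ii a d1 p1 m * Cc d2 m) =
      Wd Y m * ((∑ p ∈ T, Ii a d1 p m) * Cc d2 m) := by
    rw [sum_mul, mul_sum]
  rw [e1, e2]
  ring

end Pool.Agent.H262R4.FR
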