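import Pool.Agent.H262R4.FR.Stubs
import Pool.Agent.H510R2.Div

/-!
FR project, task F4: evaluation of the second and third sums.
-/

set_option autoImplicit false

namespace Pool.Agent.H262R4.FR

open Finset

namespace TF4

/-- (from H343) -/
theorem phi_mul_card (n : ℕ) (hn : 1 ≤ n) : n ≤ n.totient * n.divisors.card := by
  have hn0 : n ≠ 0 := by omega
  have h1 := Nat.totient_mul_prod_primeFactors n
  have h2 : ∏ p ∈ n.primeFactors, p ≤ n.divisors.card * ∏ p ∈ n.primeFactors, (p - 1) := by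
    rw [Nat.card_divisors hn0, ← Finset.prod_mul_distrib]
    apply Finset.prod_le_prod'
    intro p hp
    have hpp := Nat.prime_of_mem_primeFactors hp
    have hv : 1 ≤ n.factorization p := by
      rw [Nat.one_le_iff_ne_zero, ← Finsupp.mem_support_iff, Nat.support_factorization]
      exact hp
    have := hpp.two_le
    calc p ≤ 2 * (p - 1) := by omega
      _ ≤ (n.factorization p + 1) * (p - 1) := Nat.mul_le_mul_right _ (by omega)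
  have h3 : 0 < ∏ p ∈ n.primeFactors, (p - 1) := by
    apply Finset.prod_pos
    intro p hp
    have := (Nat.prime_of_mem_primeFactors hp).two_le
    omega
  have h4 : n * ∏ p ∈ n.primeFactors, (p - 1) ≤
      (n.totient * n.divisors.card) * ∏ p ∈ n.primeFactors, (p - 1) := by
    rw [← h1, mul_assoc]
    exact Nat.mul_le_mul_left _ h2
  exact Nat.le_of_mul_le_mul_right h4 h3

theorem om_le (d : ℕ) (hd : 1 ≤ d) : (3 : ℝ) ^ om d ≤ (d.divisors.card : ℝ) ^ 2 := by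
  have hd0 : d ≠ 0 := by omega
  have h1 : 2 ^ om d ≤ d.divisors.card := by
    rw [Nat.card_divisors hd0, om, ← Finset.prod_const]
    apply Finset.prod_le_prod'
    intro p hp
    have hv : 1 ≤ d.factorization p := by
      rw [Nat.one_le_iff_ne_zero, ← Finsupp.mem_support_iff, Nat.support_factorization]
      exact hp
    omega
  have h2 : (2 : ℝ) ^ om d ≤ (d.divisors.card : ℝ) := by exact_mod_cast h1
  calc (3 : ℝ) ^ om d ≤ 4 ^ om d := pow_le_pow_left₀ (by norm_num) (by norm_num) _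
    _ = ((2 : ℝ) ^ om d) ^ 2 := by rw [← pow_mul, mul_comm, pow_mul]; norm_num
    _ ≤ _ := pow_le_pow_left₀ (by positivity) h2 2

theorem tot_lcm (a b : ℕ) (ha : 1 ≤ a) (hb : 1 ≤ b) :
    Nat.totient (Nat.gcd a b) * Nat.totient (Nat.lcm a b) = Nat.totient a * Nat.totient b := by
  have hg : 0 < Nat.gcd a b := Nat.gcd_pos_of_pos_left _ ha
  have h1 := Nat.totient_gcd_mul_totient_mul a b
  have h2 := Nat.totient_gcd_mul_totient_mul (Nat.gcd a b) (Nat.lcm a b)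
  have h3 : Nat.gcd (Nat.gcd a b) (Nat.lcm a b) = Nat.gcd a b :=
    Nat.gcd_eq_left ((Nat.gcd_dvd_left a b).trans (Nat.dvd_lcm_left a b))
  rw [h3, Nat.gcd_mul_lcm] at h2
  have hmul : Nat.totient (Nat.gcd a b) * Nat.totient (Nat.lcm a b) * Nat.gcd a b =
      Nat.totient a * Nat.totient b * Nat.gcd a b := by
    rw [← h1, h2]
  exact Nat.eq_of_mul_eq_mul_right hg hmul

theorem S12_zero {a : ℤ} {Y d1 p d2 : ℕ} (hp : p.Prime) (hpd : p ∣ d1)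
    (hg : Int.gcd a d1 = 1) : S12 a Y d1 p d2 = 0 := by
  unfold S12
  have h : ∀ m : ℤ, Wd Y m * (Ii a d1 p m * Cc d2 m) = 0 := by
    intro m
    have h1 : ¬ (d1 : ℤ) ∣ m * p - a := by
      intro h2
      have h3 : (p : ℤ) ∣ m * p - a := (Int.natCast_dvd_natCast.2 hpd).trans h2
      have h4 : (p : ℤ) ∣ a := by
        have h5 : (p : ℤ) ∣ m * p - (m * p - a) := dvd_sub (dvd_mul_left _ _) h3
        rwa [sub_sub_cancel] at h5
      have h6 : p ∣ Int.gcd a d1 := Int.dvd_gcd h4 (Int.natCast_dvd_natCast.2 hpd)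
      rw [hg] at h6
      exact hp.one_lt.ne' (Nat.dvd_one.1 h6)
    unfold Ii
    rw [if_neg h1]
    ring
  simp [h]

theorem S12_eq {a : ℤ} {Y d1 p d2 : ℕ} (hp : p.Prime) (hpd : ¬ p ∣ d1)
    (hg : Int.gcd a d1 = 1) : ∃ u : ℤ, Int.gcd u d1 = 1 ∧
      S12 a Y d1 p d2 = ∑' m : ℤ, Wd Y m * ((if (d1 : ℤ) ∣ m - u then 1 else 0) * Cc d2 m) := by
  have hc : IsCoprime (p : ℤ) (d1 : ℤ) := by
    rw [Int.isCoprime_iff_gcd_eq_one, Int.gcd_natCast_natCast]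
    exact (Nat.Prime.coprime_iff_not_dvd hp).2 hpd
  obtain ⟨x, y, hxy⟩ := hc
  refine ⟨a * x, ?_, ?_⟩
  · rw [← Int.isCoprime_iff_gcd_eq_one] at hg ⊢
    refine IsCoprime.mul_left hg ⟨p, y, ?_⟩
    rw [← hxy]; ring
  · unfold S12
    congr 1
    funext m
    congr 2
    unfold Ii
    have h1 : (d1 : ℤ) ∣ m * p - a ↔ (d1 : ℤ) ∣ m - a * x := by
      constructor
      · rintro ⟨c, hc⟩
        refine ⟨x * c + m * y, ?_⟩
        have h2 : m - a * x = x * (m * p - a) + m * y * d1 := by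
          have h3 : m * (x * p + y * d1) = m := by rw [hxy, mul_one]
          linear_combination (-1 : ℤ) * h3
        rw [h2, hc]; ring
      · rintro ⟨c, hc⟩
        refine ⟨p * c - a * y, ?_⟩
        have h2 : m * p - a = p * (m - a * x) - a * y * d1 := by
          have h3 : a * (x * p + y * d1) = a := by rw [hxy, mul_one]
          linear_combination (1 : ℤ) * h3
        rw [h2, hc]; ring
    by_cases h2 : (d1 : ℤ) ∣ m * p - a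
    · rw [if_pos h2, if_pos (h1.1 h2)]
    · rw [if_neg h2, if_neg (fun h3 => h2 (h1.2 h3))]

theorem pair_bound (h : P_F2) {a : ℤ} {Y d1 d2 : ℕ} (T : Finset ℕ) (hT : ∀ p ∈ T, p.Prime)
    (hY : 1 ≤ Y) (hd1 : 1 ≤ d1) (hd2 : 1 ≤ d2) (hg : Int.gcd a d1 = 1) :
    |(-(2 * ((T.card : ℝ) / Nat.totient d2) * (∑ p1 ∈ T, S12 a Y d1 p1 d2)) +
        (T.card : ℝ) ^ 2 / (Nat.totient d1 * Nat.totient d2) * S22 Y d1 d2) -
      ((Y : ℝ) * ((T.card : ℝ) ^ 2 - 2 * (T.card : ℝ) * nd T d1) /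
        ((Nat.lcm d1 d2 : ℝ) * Nat.totient (Nat.gcd d1 d2)))| ≤
    24 * (T.card : ℝ) ^ 2 * (d1.divisors.card : ℝ) *
      ((d2.divisors.card : ℝ) / Nat.totient d2) := by
  set n : ℝ := (T.card : ℝ) with hn
  have hn0 : 0 ≤ n := Nat.cast_nonneg _
  set f1 : ℝ := (Nat.totient d1 : ℝ) with hf1
  set f2 : ℝ := (Nat.totient d2 : ℝ) with hf2
  have hf1p : 1 ≤ f1 := by
    rw [hf1]; exact_mod_cast Nat.totient_pos.2 hd1
  have hf2p : 1 ≤ f2 := by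
    rw [hf2]; exact_mod_cast Nat.totient_pos.2 hd2
  set t1 : ℝ := (d1.divisors.card : ℝ) with ht1
  set t2 : ℝ := (d2.divisors.card : ℝ) with ht2
  have ht1p : 1 ≤ t1 := by
    rw [ht1]
    have : 0 < d1.divisors.card := Finset.card_pos.2 ⟨1, Nat.one_mem_divisors.2 (by omega)⟩
    exact_mod_cast this
  have ht2p : 1 ≤ t2 := by
    rw [ht2]
    have : 0 < d2.divisors.card := Finset.card_pos.2 ⟨1, Nat.one_mem_divisors.2 (by omega)⟩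
    exact_mod_cast this
  set l : ℝ := (Nat.lcm d1 d2 : ℝ) with hl
  have hlp : 0 < l := by
    rw [hl]; exact_mod_cast Nat.lcm_pos hd1 hd2
  set fl : ℝ := (Nat.totient (Nat.lcm d1 d2) : ℝ) with hfl
  set fg : ℝ := (Nat.totient (Nat.gcd d1 d2) : ℝ) with hfg
  have hfgp : 0 < fg := by
    rw [hfg]; exact_mod_cast Nat.totient_pos.2 (Nat.gcd_pos_of_pos_left _ hd1)
  have hprod : fg * fl = f1 * f2 := by
    rw [hfg, hfl, hf1, hf2]; exact_mod_cast tot_lcm d1 d2 hd1 hd2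
  set A : ℝ := (Y : ℝ) * fl / (l * f1) with hA
  set Bb : ℝ := (Y : ℝ) * fl / l with hB
  have hS22 : |S22 Y d1 d2 - Bb| ≤ 8 * t1 * t2 := h.2 Y d1 d2 hY hd1 hd2
  have hS12 : ∀ p ∈ T.filter (fun p => ¬ p ∣ d1), |S12 a Y d1 p d2 - A| ≤ 8 * t2 := by
    intro p hp
    rw [mem_filter] at hp
    obtain ⟨u, hu, he⟩ := S12_eq (a := a) (Y := Y) (d2 := d2) (hT p hp.1) hp.2 hg
    rw [he]
    exact h.1 Y d1 d2 u hY hd1 hd2 hu
  have hsum : ∑ p ∈ T, S12 a Y d1 p d2 = ∑ p ∈ T.filter (fun p => ¬ p ∣ d1), S12 a Y d1 p d2 := by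
    rw [Finset.sum_filter]
    refine Finset.sum_congr rfl (fun p hp => ?_)
    by_cases hpd : p ∣ d1
    · rw [if_neg (not_not.2 hpd), S12_zero (hT p hp) hpd hg]
    · rw [if_pos hpd]
  have hnd : nd T d1 ≤ n := by
    unfold nd
    rw [hn]
    exact_mod_cast Finset.card_le_card (Finset.filter_subset _ _)
  have hnd0 : 0 ≤ nd T d1 := by unfold nd; positivity
  have hsb : |∑ p ∈ T, S12 a Y d1 p d2 - nd T d1 * A| ≤ n * (8 * t2) := by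
    rw [hsum]
    have h1 : ∑ p ∈ T.filter (fun p => ¬ p ∣ d1), S12 a Y d1 p d2 - nd T d1 * A =
        ∑ p ∈ T.filter (fun p => ¬ p ∣ d1), (S12 a Y d1 p d2 - A) := by
      rw [Finset.sum_sub_distrib, Finset.sum_const, nsmul_eq_mul]
      rfl
    rw [h1]
    calc |∑ p ∈ T.filter (fun p => ¬ p ∣ d1), (S12 a Y d1 p d2 - A)|
        ≤ ∑ p ∈ T.filter (fun p => ¬ p ∣ d1), |S12 a Y d1 p d2 - A| :=
          Finset.abs_sum_le_sum_abs _ _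
      _ ≤ ∑ _p ∈ T.filter (fun p => ¬ p ∣ d1), 8 * t2 := Finset.sum_le_sum hS12
      _ = nd T d1 * (8 * t2) := by rw [Finset.sum_const, nsmul_eq_mul]; rfl
      _ ≤ n * (8 * t2) := by gcongr
  have hmain : (Y : ℝ) * (n ^ 2 - 2 * n * nd T d1) / (l * fg) =
      -(2 * (n / f2) * (nd T d1 * A)) + n ^ 2 / (f1 * f2) * Bb := by
    rw [hA, hB]
    have hfle : fl = f1 * f2 / fg := by
      rw [eq_div_iff hfgp.ne', ← hprod]; ring
    rw [hfle]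
    field_simp
    ring
  rw [hmain]
  have hdiff : (-(2 * (n / f2) * (∑ p1 ∈ T, S12 a Y d1 p1 d2)) + n ^ 2 / (f1 * f2) * S22 Y d1 d2) -
      (-(2 * (n / f2) * (nd T d1 * A)) + n ^ 2 / (f1 * f2) * Bb) =
      -(2 * (n / f2)) * (∑ p1 ∈ T, S12 a Y d1 p1 d2 - nd T d1 * A) +
        n ^ 2 / (f1 * f2) * (S22 Y d1 d2 - Bb) := by ring
  rw [hdiff]
  have e1 : |-(2 * (n / f2)) * (∑ p1 ∈ T, S12 a Y d1 p1 d2 - nd T d1 * A)| ≤
      16 * n ^ 2 * (t2 / f2) := by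
    rw [abs_mul, abs_neg, abs_of_nonneg (by positivity)]
    calc 2 * (n / f2) * |∑ p1 ∈ T, S12 a Y d1 p1 d2 - nd T d1 * A|
        ≤ 2 * (n / f2) * (n * (8 * t2)) := by gcongr
      _ = 16 * n ^ 2 * (t2 / f2) := by ring
  have e2 : |n ^ 2 / (f1 * f2) * (S22 Y d1 d2 - Bb)| ≤ 8 * n ^ 2 * t1 * (t2 / f2) := by
    rw [abs_mul, abs_of_nonneg (by positivity)]
    calc n ^ 2 / (f1 * f2) * |S22 Y d1 d2 - Bb| ≤ n ^ 2 / (1 * f2) * (8 * t1 * t2) := by gcongr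
      _ = 8 * n ^ 2 * t1 * (t2 / f2) := by ring
  have e3 : 16 * n ^ 2 * (t2 / f2) ≤ 16 * n ^ 2 * t1 * (t2 / f2) := by
    have : 0 ≤ 16 * n ^ 2 * (t2 / f2) := by positivity
    nlinarith
  calc _ ≤ |-(2 * (n / f2)) * (∑ p1 ∈ T, S12 a Y d1 p1 d2 - nd T d1 * A)| +
        |n ^ 2 / (f1 * f2) * (S22 Y d1 d2 - Bb)| := abs_add_le _ _
    _ ≤ 16 * n ^ 2 * t1 * (t2 / f2) + 8 * n ^ 2 * t1 * (t2 / f2) := by linarith
    _ = 24 * n ^ 2 * t1 * (t2 / f2) := by ring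

theorem sum1 {C : ℝ} (hC : 0 < C)
    (hdiv : ∀ n : ℕ, 1 ≤ n → (n.divisors.card : ℝ) ≤ C * (n : ℝ) ^ (1 / 100 : ℝ))
    (S : Finset ℕ) (D : ℕ) (hS : ∀ d ∈ S, 1 ≤ d ∧ d ≤ D) :
    ∑ d ∈ S, (3 : ℝ) ^ om d * (d.divisors.card : ℝ) ≤ C ^ 3 * (D : ℝ) * (D : ℝ) ^ (3 / 100 : ℝ) := by
  have h1 : ∀ d ∈ S, (3 : ℝ) ^ om d * (d.divisors.card : ℝ) ≤ C ^ 3 * (D : ℝ) ^ (3 / 100 : ℝ) := by
    intro d hd
    obtain ⟨h1, h2⟩ := hS d hd
    have hd0 : (0 : ℝ) ≤ d := Nat.cast_nonneg _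
    calc (3 : ℝ) ^ om d * (d.divisors.card : ℝ)
        ≤ (d.divisors.card : ℝ) ^ 2 * (d.divisors.card : ℝ) := by
          gcongr; exact om_le d h1
      _ = (d.divisors.card : ℝ) ^ 3 := by ring
      _ ≤ (C * (d : ℝ) ^ (1 / 100 : ℝ)) ^ 3 := by gcongr; exact hdiv d h1
      _ = C ^ 3 * (d : ℝ) ^ (3 / 100 : ℝ) := by
          rw [mul_pow, ← Real.rpow_natCast ((d : ℝ) ^ (1 / 100 : ℝ)), ← Real.rpow_mul hd0]
          norm_num
      _ ≤ C ^ 3 * (D : ℝ) ^ (3 / 100 : ℝ) := by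
          gcongr
  have hcard : (S.card : ℝ) ≤ D := by
    have : S ⊆ Icc 1 D := fun d hd => mem_Icc.2 (hS d hd)
    have h2 := Finset.card_le_card this
    rw [Nat.card_Icc] at h2
    exact_mod_cast (by omega : S.card ≤ D)
  calc _ ≤ ∑ _d ∈ S, C ^ 3 * (D : ℝ) ^ (3 / 100 : ℝ) := Finset.sum_le_sum h1
    _ = (S.card : ℝ) * (C ^ 3 * (D : ℝ) ^ (3 / 100 : ℝ)) := by
        rw [Finset.sum_const, nsmul_eq_mul]
    _ ≤ D * (C ^ 3 * (D : ℝ) ^ (3 / 100 : ℝ)) := by gcongr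
    _ = _ := by ring

theorem sum2 {C : ℝ} (hC : 0 < C)
    (hdiv : ∀ n : ℕ, 1 ≤ n → (n.divisors.card : ℝ) ≤ C * (n : ℝ) ^ (1 / 100 : ℝ))
    (S : Finset ℕ) (D : ℕ) (hD : 1 ≤ D) (hS : ∀ d ∈ S, 1 ≤ d ∧ d ≤ D) :
    ∑ d ∈ S, (3 : ℝ) ^ om d * ((d.divisors.card : ℝ) / Nat.totient d) ≤
      101 * C ^ 4 * (D : ℝ) ^ (5 / 100 : ℝ) := by
  have hDr : (1 : ℝ) ≤ D := by exact_mod_cast hD
  have h1 : ∀ d ∈ S, (3 : ℝ) ^ om d * ((d.divisors.card : ℝ) / Nat.totient d) ≤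
      C ^ 4 * (D : ℝ) ^ (4 / 100 : ℝ) * (1 / (d : ℝ)) := by
    intro d hd
    obtain ⟨h1, h2⟩ := hS d hd
    have hd0 : (0 : ℝ) ≤ d := Nat.cast_nonneg _
    have hd1 : (0 : ℝ) < d := by exact_mod_cast h1
    have hphi : (0 : ℝ) < Nat.totient d := by exact_mod_cast Nat.totient_pos.2 h1
    have h3 : (d : ℝ) ≤ (Nat.totient d : ℝ) * (d.divisors.card : ℝ) := by
      exact_mod_cast phi_mul_card d h1
    have h4 : 1 / (Nat.totient d : ℝ) ≤ (d.divisors.card : ℝ) * (1 / (d : ℝ)) := by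
      rw [mul_one_div, div_le_div_iff₀ hphi hd1]
      linarith
    calc (3 : ℝ) ^ om d * ((d.divisors.card : ℝ) / Nat.totient d)
        = (3 : ℝ) ^ om d * ((d.divisors.card : ℝ) * (1 / Nat.totient d)) := by
          rw [mul_one_div]
      _ ≤ (d.divisors.card : ℝ) ^ 2 * ((d.divisors.card : ℝ) *
            ((d.divisors.card : ℝ) * (1 / (d : ℝ)))) := by
          have := om_le d h1
          gcongr
      _ = (d.divisors.card : ℝ) ^ 4 * (1 / (d : ℝ)) := by ring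
      _ ≤ (C * (d : ℝ) ^ (1 / 100 : ℝ)) ^ 4 * (1 / (d : ℝ)) := by
          have := hdiv d h1
          gcongr
      _ = C ^ 4 * (d : ℝ) ^ (4 / 100 : ℝ) * (1 / (d : ℝ)) := by
          rw [mul_pow, ← Real.rpow_natCast ((d : ℝ) ^ (1 / 100 : ℝ)), ← Real.rpow_mul hd0]
          norm_num
      _ ≤ C ^ 4 * (D : ℝ) ^ (4 / 100 : ℝ) * (1 / (d : ℝ)) := by
          gcongr
  have hharm : ∑ d ∈ Icc 1 D, 1 / (d : ℝ) ≤ 1 + Real.log D := by
    have h2 := harmonic_le_one_add_log D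
    have h3 : ((harmonic D : ℚ) : ℝ) = ∑ d ∈ Icc 1 D, 1 / (d : ℝ) := by
      rw [harmonic_eq_sum_Icc]
      push_cast
      exact Finset.sum_congr rfl (fun d _ => (one_div _).symm)
    rw [← h3]; exact h2
  have hlog : 1 + Real.log D ≤ 101 * (D : ℝ) ^ (1 / 100 : ℝ) := by
    have h2 := Real.log_le_rpow_div (by linarith : (0 : ℝ) ≤ D) (by norm_num : (0 : ℝ) < 1 / 100)
    have h3 : (1 : ℝ) ≤ (D : ℝ) ^ (1 / 100 : ℝ) := Real.one_le_rpow hDr (by norm_num)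
    have h4 : (D : ℝ) ^ (1 / 100 : ℝ) / (1 / 100) = 100 * (D : ℝ) ^ (1 / 100 : ℝ) := by ring
    rw [h4] at h2
    linarith
  calc _ ≤ ∑ d ∈ S, C ^ 4 * (D : ℝ) ^ (4 / 100 : ℝ) * (1 / (d : ℝ)) := Finset.sum_le_sum h1
    _ ≤ ∑ d ∈ Icc 1 D, C ^ 4 * (D : ℝ) ^ (4 / 100 : ℝ) * (1 / (d : ℝ)) := by
        apply Finset.sum_le_sum_of_subset_of_nonneg
        · exact fun d hd => mem_Icc.2 (hS d hd)
        · intro d _ _; positivity
    _ = C ^ 4 * (D : ℝ) ^ (4 / 100 : ℝ) * ∑ d ∈ Icc 1 D, (1 / (d : ℝ)) := by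
        rw [Finset.mul_sum]
    _ ≤ C ^ 4 * (D : ℝ) ^ (4 / 100 : ℝ) * (101 * (D : ℝ) ^ (1 / 100 : ℝ)) := by
        gcongr
        exact hharm.trans hlog
    _ = 101 * C ^ 4 * (D : ℝ) ^ (5 / 100 : ℝ) := by
        have h5 : (D : ℝ) ^ (5 / 100 : ℝ) = (D : ℝ) ^ (4 / 100 : ℝ) * (D : ℝ) ^ (1 / 100 : ℝ) := by
          rw [← Real.rpow_add (by linarith)]; norm_num
        rw [h5]; ring

end TF4

namespace TF4

/-- the difference for one pair of moduli -/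
noncomputable def Er (a : ℤ) (Y : ℕ) (T : Finset ℕ) (d1 d2 : ℕ) : ℝ :=
  (-(2 * ((T.card : ℝ) / Nat.totient d2) * (∑ p1 ∈ T, S12 a Y d1 p1 d2)) +
        (T.card : ℝ) ^ 2 / (Nat.totient d1 * Nat.totient d2) * S22 Y d1 d2) -
      ((Y : ℝ) * ((T.card : ℝ) ^ 2 - 2 * (T.card : ℝ) * nd T d1) /
        ((Nat.lcm d1 d2 : ℝ) * Nat.totient (Nat.gcd d1 d2)))

theorem final_sum {C : ℝ} (hC : 0 < C)
    (hdiv : ∀ n : ℕ, 1 ≤ n → (n.divisors.card : ℝ) ≤ C * (n : ℝ) ^ (1 / 100 : ℝ))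
    (S : Finset ℕ) (D : ℕ) (hD : 1 ≤ D) (hS : ∀ d ∈ S, 1 ≤ d ∧ d ≤ D) (n P X : ℝ)
    (hn : 0 ≤ n) (hnP : n ≤ P) (hX : 1 ≤ X) (hDX : (D : ℝ) ≤ X ^ (29 / 50 : ℝ))
    (E : ℕ → ℕ → ℝ) (lam : ℕ → ℝ) (hl : ∀ d, |lam d| ≤ 3 ^ om d)
    (hE : ∀ d1 ∈ S, ∀ d2 ∈ S, |E d1 d2| ≤ 24 * n ^ 2 * (d1.divisors.card : ℝ) *
      ((d2.divisors.card : ℝ) / Nat.totient d2)) :
    |∑ d1 ∈ S, ∑ d2 ∈ S, lam d1 * lam d2 * E d1 d2| ≤
      24 * (101 * C ^ 7) * P ^ 2 * X ^ (13 / 20 : ℝ) := by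
  have hD1 : (1 : ℝ) ≤ D := by exact_mod_cast hD
  have hpair : ∀ d1 ∈ S, ∀ d2 ∈ S, |lam d1 * lam d2 * E d1 d2| ≤
      24 * n ^ 2 * ((3 : ℝ) ^ om d1 * (d1.divisors.card : ℝ)) *
        ((3 : ℝ) ^ om d2 * ((d2.divisors.card : ℝ) / Nat.totient d2)) := by
    intro d1 hd1 d2 hd2
    rw [abs_mul, abs_mul]
    have h1 := hE d1 hd1 d2 hd2
    have h2 := hl d1
    have h3 := hl d2
    have h4 : |lam d1| * |lam d2| ≤ (3 : ℝ) ^ om d1 * (3 : ℝ) ^ om d2 :=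
      mul_le_mul h2 h3 (abs_nonneg _) (by positivity)
    have h5 := mul_le_mul h4 h1 (abs_nonneg _) (by positivity)
    refine h5.trans (le_of_eq ?_)
    ring
  have hDp : (0 : ℝ) < D := by linarith
  have hD27 : (D : ℝ) * (D : ℝ) ^ (3 / 100 : ℝ) * (D : ℝ) ^ (5 / 100 : ℝ) ≤
      X ^ (13 / 20 : ℝ) := by
    have h1 : (D : ℝ) * (D : ℝ) ^ (3 / 100 : ℝ) * (D : ℝ) ^ (5 / 100 : ℝ) =
        (D : ℝ) ^ (27 / 25 : ℝ) := by
      have h2 : (D : ℝ) ^ (27 / 25 : ℝ) = (D : ℝ) ^ ((1 : ℝ) + 3 / 100 + 5 / 100) := by norm_num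
      rw [h2, Real.rpow_add hDp, Real.rpow_add hDp, Real.rpow_one]
    have h3 : (X ^ (29 / 50 : ℝ)) ^ (27 / 25 : ℝ) = X ^ (783 / 1250 : ℝ) := by
      rw [← Real.rpow_mul (by linarith)]; norm_num
    rw [h1]
    calc (D : ℝ) ^ (27 / 25 : ℝ) ≤ (X ^ (29 / 50 : ℝ)) ^ (27 / 25 : ℝ) :=
          Real.rpow_le_rpow hDp.le hDX (by norm_num)
      _ = X ^ (783 / 1250 : ℝ) := h3
      _ ≤ _ := Real.rpow_le_rpow_of_exponent_le hX (by norm_num)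
  have h1 := sum1 hC hdiv S D hS
  have h2 := sum2 hC hdiv S D hD hS
  set A1 := ∑ d1 ∈ S, (3 : ℝ) ^ om d1 * (d1.divisors.card : ℝ) with hA1
  set A2 := ∑ d2 ∈ S, (3 : ℝ) ^ om d2 * ((d2.divisors.card : ℝ) / Nat.totient d2) with hA2
  have h3 : 0 ≤ A2 := Finset.sum_nonneg (fun d _ => by positivity)
  have h4 : 0 ≤ A1 := Finset.sum_nonneg (fun d _ => by positivity)
  have hsum : |∑ d1 ∈ S, ∑ d2 ∈ S, lam d1 * lam d2 * E d1 d2| ≤ 24 * n ^ 2 * A1 * A2 := by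
    calc |∑ d1 ∈ S, ∑ d2 ∈ S, lam d1 * lam d2 * E d1 d2| ≤
        ∑ d1 ∈ S, ∑ d2 ∈ S, 24 * n ^ 2 * ((3 : ℝ) ^ om d1 * (d1.divisors.card : ℝ)) *
        ((3 : ℝ) ^ om d2 * ((d2.divisors.card : ℝ) / Nat.totient d2)) := by
          refine (Finset.abs_sum_le_sum_abs _ _).trans (Finset.sum_le_sum (fun d1 hd1 => ?_))
          exact (Finset.abs_sum_le_sum_abs _ _).trans
            (Finset.sum_le_sum (fun d2 hd2 => hpair d1 hd1 d2 hd2))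
      _ = 24 * n ^ 2 * A1 * A2 := by
          rw [mul_assoc, hA1, hA2, Finset.sum_mul_sum, Finset.mul_sum]
          refine Finset.sum_congr rfl (fun d1 _ => ?_)
          rw [Finset.mul_sum]
          refine Finset.sum_congr rfl (fun d2 _ => ?_)
          ring
  refine hsum.trans ?_
  have h5 : A1 * A2 ≤ (C ^ 3 * (D : ℝ) * (D : ℝ) ^ (3 / 100 : ℝ)) *
      (101 * C ^ 4 * (D : ℝ) ^ (5 / 100 : ℝ)) := mul_le_mul h1 h2 h3 (by positivity)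
  have h6 : (C ^ 3 * (D : ℝ) * (D : ℝ) ^ (3 / 100 : ℝ)) *
      (101 * C ^ 4 * (D : ℝ) ^ (5 / 100 : ℝ)) = 101 * C ^ 7 *
        ((D : ℝ) * (D : ℝ) ^ (3 / 100 : ℝ) * (D : ℝ) ^ (5 / 100 : ℝ)) := by ring
  have h7 : 101 * C ^ 7 *
        ((D : ℝ) * (D : ℝ) ^ (3 / 100 : ℝ) * (D : ℝ) ^ (5 / 100 : ℝ)) ≤
      101 * C ^ 7 * X ^ (13 / 20 : ℝ) := mul_le_mul_of_nonneg_left hD27 (by positivity)
  have h8 : A1 * A2 ≤ 101 * C ^ 7 * X ^ (13 / 20 : ℝ) := (h5.trans (le_of_eq h6)).trans h7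
  have h9 : n ^ 2 ≤ P ^ 2 := pow_le_pow_left₀ hn hnP 2
  have h10 : n ^ 2 * (A1 * A2) ≤ P ^ 2 * (101 * C ^ 7 * X ^ (13 / 20 : ℝ)) :=
    mul_le_mul h9 h8 (mul_nonneg h4 h3) (sq_nonneg _)
  calc 24 * n ^ 2 * A1 * A2 = 24 * (n ^ 2 * (A1 * A2)) := by ring
    _ ≤ 24 * (P ^ 2 * (101 * C ^ 7 * X ^ (13 / 20 : ℝ))) := by linarith
    _ = _ := by ring

end TF4

open TF4 in
theorem t_F4 (h : P_F2) : P_F4 := by
  intro a ha ρ0 hρ0
  obtain ⟨C, hC, hdiv⟩ := Pool.Agent.H510R2.divisor_bound (1 / 100) (by norm_num)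
  refine ⟨24 * (101 * C ^ 7), by positivity, ?_⟩
  intro Y P P' D S lam hset
  have hY : (3 : ℝ) ≤ Y := by exact_mod_cast hset.hY
  have hP : (3 : ℝ) ≤ P := by exact_mod_cast hset.hP
  have hX1 : (1 : ℝ) ≤ (Y : ℝ) * P := by nlinarith
  have hTp : ∀ p ∈ Pr P P', p.Prime := fun p hp => (mem_filter.1 hp).2
  have hn : ((Pr P P').card : ℝ) ≤ P := by
    have h1 : (Pr P P').card ≤ (Ioc P P').card := Finset.card_le_card (Finset.filter_subset _ _)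
    rw [Nat.card_Ioc] at h1
    have h2 := hset.hPP2
    exact_mod_cast (by omega : (Pr P P').card ≤ P)
  have hn0 : (0 : ℝ) ≤ (Pr P P').card := Nat.cast_nonneg _
  have hrew : (∑ d1 ∈ S, ∑ d2 ∈ S, lam d1 * lam d2 *
      (-(2 * (((Pr P P').card : ℝ) / Nat.totient d2) * (∑ p1 ∈ Pr P P', S12 a Y d1 p1 d2)) +
        ((Pr P P').card : ℝ) ^ 2 / (Nat.totient d1 * Nat.totient d2) * S22 Y d1 d2)) -
    (∑ d1 ∈ S, ∑ d2 ∈ S, lam d1 * lam d2 *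
      ((Y : ℝ) * (((Pr P P').card : ℝ) ^ 2 - 2 * ((Pr P P').card : ℝ) * nd (Pr P P') d1) /
        ((Nat.lcm d1 d2 : ℝ) * Nat.totient (Nat.gcd d1 d2)))) =
    ∑ d1 ∈ S, ∑ d2 ∈ S, lam d1 * lam d2 * Er a Y (Pr P P') d1 d2 := by
    rw [← Finset.sum_sub_distrib]
    refine Finset.sum_congr rfl (fun d1 _ => ?_)
    rw [← Finset.sum_sub_distrib]
    refine Finset.sum_congr rfl (fun d2 _ => ?_)
    rw [← mul_sub, Er]
  rw [hrew]
  rcases Nat.eq_zero_or_pos D with hD0 | hD0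
  · have hSe : S = ∅ := by
      rw [Finset.eq_empty_iff_forall_notMem]
      intro d hd
      have := hset.hS d hd
      omega
    rw [hSe, Finset.sum_empty, abs_zero]
    positivity
  have hSD : ∀ d ∈ S, 1 ≤ d ∧ d ≤ D := fun d hd => ⟨(hset.hS d hd).1, (hset.hS d hd).2.1⟩
  exact final_sum hC hdiv S D hD0 hSD _ P _ hn0 hn hX1 hset.hD (Er a Y (Pr P P')) lam hset.hl
    (fun d1 hd1 d2 hd2 => pair_bound h (Pr P P') hTp (by have := hset.hY; omega)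
      (hSD d1 hd1).1 (hSD d2 hd2).1 (hset.hS d1 hd1).2.2)

end Pool.Agent.H262R4.FR
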