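import Pool.Agent.H262R4.FR.Stubs
import Pool.Agent.H510R2.Div

/-!
FR project (helper262), task F5: the bad quadruples.
-/

set_option autoImplicit false

namespace Pool.Agent.H262R4.FR.TF5

open Finset
open Pool.Agent.H442R2.KF (e kf Wt)
open Pool.Agent.H510R2

lemma two_pow_om (d : ℕ) (hd : 1 ≤ d) : (2:ℝ) ^ om d ≤ (d.divisors.card : ℝ) := by
  have hd0 : d ≠ 0 := by omega
  rw [Nat.card_divisors hd0]
  push_cast
  unfold om
  rw [← Finset.prod_const]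
  apply Finset.prod_le_prod
  · intro i _; norm_num
  · intro p hp
    have h1 : 1 ≤ d.factorization p := by
      have := Nat.prime_of_mem_primeFactors hp
      have h2 := Nat.dvd_of_mem_primeFactors hp
      exact (this.dvd_iff_one_le_factorization hd0).mp h2
    have : (1:ℝ) ≤ d.factorization p := by exact_mod_cast h1
    linarith

lemma three_pow_om (d : ℕ) (hd : 1 ≤ d) : (3:ℝ) ^ om d ≤ (d.divisors.card : ℝ) ^ 2 := by
  calc (3:ℝ) ^ om d ≤ 4 ^ om d := pow_le_pow_left₀ (by norm_num) (by norm_num) _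
    _ = ((2:ℝ) ^ om d) ^ 2 := by
      rw [← pow_mul, mul_comm, pow_mul]; norm_num
    _ ≤ _ := pow_le_pow_left₀ (by positivity) (two_pow_om d hd) 2

/-- `∑_{d ∈ S, d | N} 3^om d` -/
noncomputable def tt (S : Finset ℕ) (N : ℤ) : ℝ :=
  ∑ d ∈ S, if (d : ℤ) ∣ N then (3:ℝ) ^ om d else 0

lemma tt_nonneg (S : Finset ℕ) (N : ℤ) : 0 ≤ tt S N := by
  unfold tt
  apply Finset.sum_nonneg
  intro d _
  split_ifs <;> positivity

lemma tt_le_zero (S : Finset ℕ) (N : ℤ) : tt S N ≤ tt S 0 := by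
  unfold tt
  apply Finset.sum_le_sum
  intro d _
  rw [if_pos (dvd_zero _)]
  split_ifs
  · exact le_refl _
  · positivity

lemma tt_bound (ε : ℝ) (hε : 0 < ε) : ∃ C : ℝ, 0 < C ∧ ∀ (S : Finset ℕ) (N : ℤ),
    (∀ d ∈ S, 1 ≤ d) → N ≠ 0 → tt S N ≤ C * |(N : ℝ)| ^ ε := by
  obtain ⟨C, hC, h⟩ := divisor_bound (ε / 3) (by positivity)
  refine ⟨C ^ 3, by positivity, ?_⟩
  intro S N hS hN
  have hn : 1 ≤ N.natAbs := by
    have := Int.natAbs_pos.mpr hN
    omega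
  have h1 : tt S N ≤ ∑ d ∈ N.natAbs.divisors, (N.natAbs.divisors.card : ℝ) ^ 2 := by
    unfold tt
    rw [← Finset.sum_filter]
    calc ∑ d ∈ S.filter (fun d : ℕ => (d : ℤ) ∣ N), (3:ℝ) ^ om d
        ≤ ∑ d ∈ S.filter (fun d : ℕ => (d : ℤ) ∣ N), (N.natAbs.divisors.card : ℝ) ^ 2 := by
          apply Finset.sum_le_sum
          intro d hd
          rw [Finset.mem_filter] at hd
          have hd1 := hS d hd.1
          refine (three_pow_om d hd1).trans ?_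
          apply pow_le_pow_left₀ (by positivity)
          have : d.divisors ⊆ N.natAbs.divisors := by
            apply Nat.divisors_subset_of_dvd (by omega)
            exact Int.natCast_dvd.mp hd.2
          exact_mod_cast Finset.card_le_card this
      _ ≤ _ := by
          apply Finset.sum_le_sum_of_subset_of_nonneg
          · intro d hd
            rw [Finset.mem_filter] at hd
            rw [Nat.mem_divisors]
            exact ⟨Int.natCast_dvd.mp hd.2, by omega⟩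
          · intro i _ _; positivity
  have h2 := h N.natAbs hn
  have h3 : ((N.natAbs : ℕ) : ℝ) = |(N : ℝ)| := by
    rw [Nat.cast_natAbs]; push_cast; rfl
  rw [h3] at h2
  rw [Finset.sum_const, nsmul_eq_mul] at h1
  calc tt S N ≤ (N.natAbs.divisors.card : ℝ) ^ 3 := by rw [pow_succ']; exact h1
    _ ≤ (C * |(N : ℝ)| ^ (ε / 3)) ^ 3 := pow_le_pow_left₀ (by positivity) h2 3
    _ = C ^ 3 * |(N : ℝ)| ^ ε := by
      rw [mul_pow, ← Real.rpow_natCast (|(N : ℝ)| ^ (ε / 3)), ← Real.rpow_mul (abs_nonneg _)]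
      congr 2
      push_cast; ring

lemma tt_zero_bound : ∃ C : ℝ, 0 < C ∧ ∀ (S : Finset ℕ) (D : ℕ),
    (∀ d ∈ S, 1 ≤ d ∧ d ≤ D) → tt S 0 ≤ C * (D : ℝ) ^ (3 / 2 : ℝ) := by
  obtain ⟨C, hC, h⟩ := divisor_bound (1 / 4) (by norm_num)
  refine ⟨C ^ 2, by positivity, ?_⟩
  intro S D hS
  have hcard : (S.card : ℝ) ≤ D := by
    have : S ⊆ Icc 1 D := by
      intro d hd
      rw [Finset.mem_Icc]
      exact hS d hd
    have := Finset.card_le_card this
    rw [Nat.card_Icc] at this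
    have : S.card ≤ D := by omega
    exact_mod_cast this
  unfold tt
  calc ∑ d ∈ S, (if (d : ℤ) ∣ 0 then (3:ℝ) ^ om d else 0)
      ≤ ∑ d ∈ S, C ^ 2 * (D : ℝ) ^ (1 / 2 : ℝ) := by
        apply Finset.sum_le_sum
        intro d hd
        rw [if_pos (dvd_zero _)]
        have hd1 := (hS d hd).1
        have hd2 : (d : ℝ) ≤ D := by exact_mod_cast (hS d hd).2
        refine (three_pow_om d hd1).trans ?_
        refine (pow_le_pow_left₀ (by positivity) (h d hd1) 2).trans ?_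
        rw [mul_pow, ← Real.rpow_natCast ((d : ℝ) ^ (1 / 4 : ℝ)),
          ← Real.rpow_mul (by positivity)]
        apply mul_le_mul_of_nonneg_left _ (by positivity)
        have : (1 / 4 : ℝ) * ((2 : ℕ) : ℝ) = 1 / 2 := by push_cast; norm_num
        rw [this]
        exact Real.rpow_le_rpow (by positivity) hd2 (by norm_num)
    _ = S.card * (C ^ 2 * (D : ℝ) ^ (1 / 2 : ℝ)) := by
        rw [Finset.sum_const, nsmul_eq_mul]
    _ ≤ D * (C ^ 2 * (D : ℝ) ^ (1 / 2 : ℝ)) := by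
        apply mul_le_mul_of_nonneg_right hcard (by positivity)
    _ = C ^ 2 * ((D : ℝ) * (D : ℝ) ^ (1 / 2 : ℝ)) := by ring
    _ = C ^ 2 * (D : ℝ) ^ (3 / 2 : ℝ) := by
        congr 1
        rcases Nat.eq_zero_or_pos D with h0 | h0
        · subst h0
          simp only [Nat.cast_zero, zero_mul]
          rw [Real.zero_rpow (by norm_num)]
        · have : (0:ℝ) < D := by exact_mod_cast h0
          rw [← Real.rpow_one_add' this.le (by norm_num)]
          norm_num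

/-- the weight far out -/
lemma Wd_tail (Y : ℕ) (m : ℤ) (hY : 1 ≤ Y) (hm : (Y : ℝ) ^ 2 < |(m : ℝ)|) :
    Wd Y m * (|(m : ℝ)| + 1) ≤ 96 * (1 / (m : ℝ) ^ 2) := by
  have hY' : (1:ℝ) ≤ Y := by exact_mod_cast hY
  have hm1 : 1 < |(m : ℝ)| := lt_of_le_of_lt (by nlinarith) hm
  have hm0 : 0 < |(m : ℝ)| := by linarith
  have h1 : Wd Y m ≤ Wt (2 * Y) m := by
    unfold Wd
    have : 0 ≤ Wt Y m := by unfold Wt; positivity
    linarith
  have h2 : Wt (2 * Y) m ≤ Real.exp (-(|(m : ℝ)| / 2)) := by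
    unfold Wt
    apply Real.exp_le_exp.mpr
    push_cast
    have h3 : ((m : ℝ) / (2 * Y)) ^ 2 = |(m : ℝ)| * (|(m : ℝ)| / (4 * (Y : ℝ) ^ 2)) := by
      rw [div_pow, ← sq_abs (m : ℝ)]
      field_simp
      ring
    rw [h3]
    have h4 : 1 / 4 ≤ |(m : ℝ)| / (4 * (Y : ℝ) ^ 2) := by
      rw [div_le_div_iff₀ (by norm_num) (by positivity)]
      nlinarith
    have h5 : |(m : ℝ)| * (1 / 4) ≤ |(m : ℝ)| * (|(m : ℝ)| / (4 * (Y : ℝ) ^ 2)) :=
      mul_le_mul_of_nonneg_left h4 hm0.le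
    have hpi := Real.pi_gt_three
    nlinarith
  have h3 : Real.exp (-(|(m : ℝ)| / 2)) ≤ 48 / |(m : ℝ)| ^ 3 := by
    have h4 := Real.pow_div_factorial_le_exp (|(m : ℝ)| / 2) (by positivity) 3
    rw [Real.exp_neg, ← one_div, div_le_div_iff₀ (Real.exp_pos _) (by positivity)]
    have h5 : ((3 : ℕ).factorial : ℝ) = 6 := by norm_num [Nat.factorial]
    rw [h5] at h4
    have h6 : (|(m : ℝ)| / 2) ^ 3 / 6 = |(m : ℝ)| ^ 3 / 48 := by ring
    rw [h6] at h4
    linarith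
  calc Wd Y m * (|(m : ℝ)| + 1) ≤ (48 / |(m : ℝ)| ^ 3) * (2 * |(m : ℝ)|) := by
        apply mul_le_mul (h1.trans (h2.trans h3)) (by linarith) (by positivity) (by positivity)
    _ = 96 * (1 / (m : ℝ) ^ 2) := by
        rw [← sq_abs (m : ℝ)]
        field_simp
        ring


lemma summ_Wd (h : P_F1) (Y : ℕ) (hY : 1 ≤ Y) : Summable (fun m : ℤ => Wd Y m) := by
  have := h.2.2.1 Y 0 hY
  simpa using this

lemma summ_of_bdd (h : P_F1) (Y : ℕ) (hY : 1 ≤ Y) (f : ℤ → ℝ) (B : ℝ)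
    (hf0 : ∀ m, 0 ≤ f m) (hf : ∀ m, f m ≤ B) : Summable (fun m : ℤ => Wd Y m * f m) := by
  apply Summable.of_nonneg_of_le (fun m => mul_nonneg ((h.1 Y m hY).1) (hf0 m)) (fun m => ?_)
    ((summ_Wd h Y hY).mul_right B)
  exact mul_le_mul_of_nonneg_left (hf m) (h.1 Y m hY).1

lemma core (h : P_F1) (a : ℤ) (ε : ℝ) (hε : 0 < ε) (hε2 : ε ≤ 1 / 2) :
    ∃ K : ℝ, 0 < K ∧ ∀ (Y P D k p1 p2 : ℕ) (u : ℤ) (S : Finset ℕ), 1 ≤ Y → 1 ≤ P → 1 ≤ p1 →
      1 ≤ p2 → p1 ≤ 2 * P → p2 ≤ 2 * P → 1 ≤ k → (∀ d ∈ S, 1 ≤ d ∧ d ≤ D) →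
      ∑' m : ℤ, Wd Y m * ((if (k : ℤ) ∣ m - u then (1:ℝ) else 0) *
        (tt S (m * p1 - a) * tt S (m * p2 - a))) ≤
      K * ((P : ℝ) ^ (2 * ε) * ((Y : ℝ) ^ 2 + 1) ^ (2 * ε) * ((Y : ℝ) / k + 9) +
        (D : ℝ) ^ 3 / (Y : ℝ) ^ 2) := by
  obtain ⟨C, hC, hCb⟩ := tt_bound ε hε
  obtain ⟨C0, hC0, hC0b⟩ := tt_zero_bound
  set Z2 : ℝ := ∑' m : ℤ, 1 / (m : ℝ) ^ 2 with hZ2
  have hZs : Summable (fun m : ℤ => 1 / (m : ℝ) ^ 2) :=
    Real.summable_one_div_int_pow.mpr (by norm_num)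
  have hZ0 : 0 ≤ Z2 := tsum_nonneg (fun m => by positivity)
  set F : Finset ℤ := Finset.Icc (-|a|) |a| with hF
  set K1 : ℝ := C ^ 2 * (2 + |(a : ℝ)|) ^ (2 * ε) with hK1
  have hK1p : 0 < K1 := by positivity
  set K2 : ℝ := (F.card : ℝ) * (4 * (a : ℝ) ^ 2 * C0 ^ 2) with hK2
  have hK2p : 0 ≤ K2 := by positivity
  refine ⟨K1 * (1 + 96 * Z2) + K2, by positivity, ?_⟩
  intro Y P D k p1 p2 u S hY hP hp1 hp2 hp1P hp2P hk hS
  have hY' : (1:ℝ) ≤ Y := by exact_mod_cast hY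
  have hP' : (1:ℝ) ≤ P := by exact_mod_cast hP
  have hk' : (1:ℝ) ≤ k := by exact_mod_cast hk
  -- the size of tt
  have hts : ∀ (m : ℤ) (p : ℕ), |a| < |m| → 1 ≤ p → p ≤ 2 * P →
      tt S (m * p - a) ≤ C * ((2 + |(a : ℝ)|) ^ ε * (P : ℝ) ^ ε * (|(m : ℝ)| + 1) ^ ε) := by
    intro m p hm hp hpP
    have hne : m * p - a ≠ 0 := by
      intro h0
      have h1 : m * p = a := by linarith
      have h2 : |a| = |m| * p := by
        rw [← h1, abs_mul, Nat.abs_cast]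
      have h3 : (1:ℤ) ≤ p := by exact_mod_cast hp
      have h4 : 0 ≤ |m| := abs_nonneg m
      nlinarith
    have h1 := hCb S (m * p - a) (fun d hd => (hS d hd).1) hne
    refine h1.trans ?_
    apply mul_le_mul_of_nonneg_left _ hC.le
    rw [← Real.mul_rpow (by positivity) (by positivity),
      ← Real.mul_rpow (by positivity) (by positivity)]
    apply Real.rpow_le_rpow (abs_nonneg _) _ hε.le
    push_cast
    have hpR : (p : ℝ) ≤ 2 * P := by exact_mod_cast hpP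
    have h2 : |(m : ℝ) * p - a| ≤ |(m : ℝ)| * p + |(a : ℝ)| := by
      refine (abs_sub _ _).trans ?_
      rw [abs_mul, abs_of_nonneg (by positivity : (0:ℝ) ≤ (p : ℝ))]
    refine h2.trans ?_
    have h3 : 0 ≤ |(m : ℝ)| := abs_nonneg _
    have h4 : 0 ≤ |(a : ℝ)| := abs_nonneg _
    have h5 : |(m : ℝ)| * p ≤ |(m : ℝ)| * (2 * P) := mul_le_mul_of_nonneg_left hpR h3
    have h6 : |(a : ℝ)| * 1 ≤ |(a : ℝ)| * ((P : ℝ) * (|(m : ℝ)| + 1)) := by
      apply mul_le_mul_of_nonneg_left _ h4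
      nlinarith
    have h7 : (0:ℝ) ≤ P := by positivity
    nlinarith [mul_nonneg h3 h7]
  -- the pointwise bound
  have hpt : ∀ m : ℤ, Wd Y m * ((if (k : ℤ) ∣ m - u then (1:ℝ) else 0) *
        (tt S (m * p1 - a) * tt S (m * p2 - a))) ≤
      K1 * (P : ℝ) ^ (2 * ε) * (((Y : ℝ) ^ 2 + 1) ^ (2 * ε) *
        (if (k : ℤ) ∣ m - u then Wd Y m else 0) + 96 * (1 / (m : ℝ) ^ 2)) +
      (if m ∈ F then 4 * (a : ℝ) ^ 2 * C0 ^ 2 * ((D : ℝ) ^ 3 / (Y : ℝ) ^ 2) else 0) := by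
    intro m
    have hW0 := (h.1 Y m hY).1
    by_cases hk1 : (k : ℤ) ∣ m - u
    · rw [if_pos hk1, if_pos hk1, one_mul]
      by_cases hm : m ∈ F
      · rw [if_pos hm]
        have hm' : |m| ≤ |a| := by
          rw [hF, Finset.mem_Icc] at hm
          exact abs_le.mpr hm
        have hmR : |(m : ℝ)| ≤ |(a : ℝ)| := by exact_mod_cast hm'
        have h1 : 0 ≤ K1 * (P : ℝ) ^ (2 * ε) * (((Y : ℝ) ^ 2 + 1) ^ (2 * ε) *
            Wd Y m + 96 * (1 / (m : ℝ) ^ 2)) := by positivity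
        have h2 : Wd Y m ≤ 4 * (a : ℝ) ^ 2 / (Y : ℝ) ^ 2 := by
          refine (h.1 Y m hY).2.2.trans ?_
          apply div_le_div_of_nonneg_right _ (by positivity)
          have : (m : ℝ) ^ 2 ≤ (a : ℝ) ^ 2 := sq_le_sq.mpr hmR
          linarith
        have h3 : ∀ N : ℤ, tt S N ≤ C0 * (D : ℝ) ^ (3 / 2 : ℝ) := fun N =>
          (tt_le_zero S N).trans (hC0b S D hS)
        have h4 : tt S (m * p1 - a) * tt S (m * p2 - a) ≤ C0 ^ 2 * (D : ℝ) ^ 3 := by
          calc _ ≤ (C0 * (D : ℝ) ^ (3 / 2 : ℝ)) * (C0 * (D : ℝ) ^ (3 / 2 : ℝ)) :=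
                mul_le_mul (h3 _) (h3 _) (tt_nonneg _ _) (by positivity)
            _ = C0 ^ 2 * ((D : ℝ) ^ (3 / 2 : ℝ)) ^ 2 := by ring
            _ = C0 ^ 2 * (D : ℝ) ^ 3 := by
              rw [← Real.rpow_natCast ((D : ℝ) ^ (3 / 2 : ℝ)), ← Real.rpow_mul (by positivity)]
              congr 1
              rw [← Real.rpow_natCast]
              congr 1
              push_cast; norm_num
        have h5 : Wd Y m * (tt S (m * p1 - a) * tt S (m * p2 - a)) ≤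
            4 * (a : ℝ) ^ 2 / (Y : ℝ) ^ 2 * (C0 ^ 2 * (D : ℝ) ^ 3) :=
          mul_le_mul h2 h4 (mul_nonneg (tt_nonneg _ _) (tt_nonneg _ _)) (by positivity)
        have h6 : 4 * (a : ℝ) ^ 2 / (Y : ℝ) ^ 2 * (C0 ^ 2 * (D : ℝ) ^ 3) =
            4 * (a : ℝ) ^ 2 * C0 ^ 2 * ((D : ℝ) ^ 3 / (Y : ℝ) ^ 2) := by
          field_simp
        rw [h6] at h5
        linarith
      · rw [if_neg hm, add_zero]
        have hm' : |a| < |m| := by
          by_contra hcon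
          push Not at hcon
          apply hm
          rw [hF, Finset.mem_Icc]
          exact abs_le.mp hcon
        have h3 := hts m p1 hm' hp1 hp1P
        have h4 := hts m p2 hm' hp2 hp2P
        have h5 : tt S (m * p1 - a) * tt S (m * p2 - a) ≤
            K1 * (P : ℝ) ^ (2 * ε) * (|(m : ℝ)| + 1) ^ (2 * ε) := by
          refine (mul_le_mul h3 h4 (tt_nonneg _ _) (by positivity)).trans ?_
          apply le_of_eq
          have e2 : ∀ x : ℝ, 0 ≤ x → x ^ (2 * ε) = (x ^ ε) ^ 2 := by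
            intro x hx
            rw [← Real.rpow_natCast (x ^ ε), ← Real.rpow_mul hx]
            congr 1
            push_cast; ring
          rw [hK1, e2 _ (by positivity), e2 _ (by positivity), e2 _ (by positivity)]
          ring
        have h6 : Wd Y m * (|(m : ℝ)| + 1) ^ (2 * ε) ≤
            ((Y : ℝ) ^ 2 + 1) ^ (2 * ε) * Wd Y m + 96 * (1 / (m : ℝ) ^ 2) := by
          by_cases hbig : (Y : ℝ) ^ 2 < |(m : ℝ)|
          · have h7 := Wd_tail Y m hY hbig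
            have h8 : (|(m : ℝ)| + 1) ^ (2 * ε) ≤ (|(m : ℝ)| + 1) := by
              conv_rhs => rw [← Real.rpow_one (|(m : ℝ)| + 1)]
              apply Real.rpow_le_rpow_of_exponent_le _ (by linarith)
              have := abs_nonneg (m : ℝ)
              linarith
            have h9 : Wd Y m * (|(m : ℝ)| + 1) ^ (2 * ε) ≤ Wd Y m * (|(m : ℝ)| + 1) :=
              mul_le_mul_of_nonneg_left h8 hW0
            have h10 : 0 ≤ ((Y : ℝ) ^ 2 + 1) ^ (2 * ε) * Wd Y m := by positivity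
            linarith
          · push Not at hbig
            have h8 : (|(m : ℝ)| + 1) ^ (2 * ε) ≤ ((Y : ℝ) ^ 2 + 1) ^ (2 * ε) := by
              apply Real.rpow_le_rpow (by positivity) (by linarith) (by linarith)
            have h9 : Wd Y m * (|(m : ℝ)| + 1) ^ (2 * ε) ≤
                Wd Y m * ((Y : ℝ) ^ 2 + 1) ^ (2 * ε) :=
              mul_le_mul_of_nonneg_left h8 hW0
            have h10 : 0 ≤ 96 * (1 / (m : ℝ) ^ 2) := by positivity
            linarith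
        calc Wd Y m * (tt S (m * p1 - a) * tt S (m * p2 - a))
            ≤ Wd Y m * (K1 * (P : ℝ) ^ (2 * ε) * (|(m : ℝ)| + 1) ^ (2 * ε)) :=
              mul_le_mul_of_nonneg_left h5 hW0
          _ = K1 * (P : ℝ) ^ (2 * ε) * (Wd Y m * (|(m : ℝ)| + 1) ^ (2 * ε)) := by ring
          _ ≤ _ := mul_le_mul_of_nonneg_left h6 (by positivity)
    · rw [if_neg hk1, if_neg hk1, zero_mul, mul_zero, mul_zero, zero_add]
      positivity
  -- sum it
  have hs1 : Summable (fun m : ℤ => if (k : ℤ) ∣ m - u then Wd Y m else 0) := by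
    apply Summable.of_nonneg_of_le (fun m => ?_) (fun m => ?_) (summ_Wd h Y hY)
    · split_ifs
      · exact (h.1 Y m hY).1
      · exact le_refl _
    · split_ifs
      · exact le_refl _
      · exact (h.1 Y m hY).1
  have hs1t : ∑' m : ℤ, (if (k : ℤ) ∣ m - u then Wd Y m else 0) ≤ (Y : ℝ) / k + 8 := by
    have := h.2.2.2 Y k u hY hk
    have := (abs_le.mp this).2
    linarith
  have hs3 : Summable (fun m : ℤ => if m ∈ F then
      4 * (a : ℝ) ^ 2 * C0 ^ 2 * ((D : ℝ) ^ 3 / (Y : ℝ) ^ 2) else 0) := by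
    apply summable_of_ne_finset_zero (s := F)
    intro m hm
    rw [if_neg hm]
  have hs3t : ∑' m : ℤ, (if m ∈ F then
      4 * (a : ℝ) ^ 2 * C0 ^ 2 * ((D : ℝ) ^ 3 / (Y : ℝ) ^ 2) else 0) =
      K2 * ((D : ℝ) ^ 3 / (Y : ℝ) ^ 2) := by
    rw [tsum_eq_sum (s := F) (fun m hm => if_neg hm), Finset.sum_ite_mem, Finset.inter_self,
      Finset.sum_const, nsmul_eq_mul, hK2]
    ring
  have hs2 : Summable (fun m : ℤ => K1 * (P : ℝ) ^ (2 * ε) * (((Y : ℝ) ^ 2 + 1) ^ (2 * ε) *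
        (if (k : ℤ) ∣ m - u then Wd Y m else 0) + 96 * (1 / (m : ℝ) ^ 2))) :=
    ((hs1.mul_left _).add (hZs.mul_left 96)).mul_left _
  have hsL : Summable (fun m : ℤ => Wd Y m * ((if (k : ℤ) ∣ m - u then (1:ℝ) else 0) *
        (tt S (m * p1 - a) * tt S (m * p2 - a)))) := by
    apply summ_of_bdd h Y hY _ (tt S 0 * tt S 0)
    · intro m
      apply mul_nonneg
      · split_ifs <;> norm_num
      · exact mul_nonneg (tt_nonneg _ _) (tt_nonneg _ _)
    · intro m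
      have h1 : tt S (m * p1 - a) * tt S (m * p2 - a) ≤ tt S 0 * tt S 0 :=
        mul_le_mul (tt_le_zero _ _) (tt_le_zero _ _) (tt_nonneg _ _) (tt_nonneg _ _)
      split_ifs
      · rw [one_mul]; exact h1
      · rw [zero_mul]; exact mul_nonneg (tt_nonneg _ _) (tt_nonneg _ _)
  have hfin := hsL.tsum_le_tsum hpt (hs2.add hs3)
  refine hfin.trans ?_
  rw [hs2.tsum_add hs3, hs3t, tsum_mul_left, (hs1.mul_left _).tsum_add (hZs.mul_left 96),
    tsum_mul_left, tsum_mul_left, ← hZ2]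
  have hA : (1:ℝ) ≤ ((Y : ℝ) ^ 2 + 1) ^ (2 * ε) := by
    apply Real.one_le_rpow _ (by linarith)
    nlinarith
  have hB : ((Y : ℝ) ^ 2 + 1) ^ (2 * ε) * (∑' m : ℤ, (if (k : ℤ) ∣ m - u then Wd Y m else 0)) +
      96 * Z2 ≤ (1 + 96 * Z2) * (((Y : ℝ) ^ 2 + 1) ^ (2 * ε) * ((Y : ℝ) / k + 9)) := by
    set A := ((Y : ℝ) ^ 2 + 1) ^ (2 * ε)
    have h1 : A * (∑' m : ℤ, (if (k : ℤ) ∣ m - u then Wd Y m else 0)) ≤
        A * ((Y : ℝ) / k + 8) := mul_le_mul_of_nonneg_left hs1t (by linarith)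
    have h2 : 0 ≤ (Y : ℝ) / k := by positivity
    have h3 : 96 * Z2 * 1 ≤ 96 * Z2 * (A * ((Y : ℝ) / k + 9)) := by
      apply mul_le_mul_of_nonneg_left _ (by positivity)
      nlinarith
    nlinarith
  have hPp : 0 < (P : ℝ) ^ (2 * ε) := by positivity
  have hfin2 := mul_le_mul_of_nonneg_left hB (by positivity : 0 ≤ K1 * (P : ℝ) ^ (2 * ε))
  have h4 : 0 ≤ K2 * ((P : ℝ) ^ (2 * ε) * ((Y : ℝ) ^ 2 + 1) ^ (2 * ε) * ((Y : ℝ) / k + 9)) := by
    positivity
  have h5 : 0 ≤ K1 * (1 + 96 * Z2) * ((D : ℝ) ^ 3 / (Y : ℝ) ^ 2) := by positivity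
  nlinarith [hfin2, h4, h5]


/-- the pair of primes `p1, p2` -/
noncomputable def AA (a : ℤ) (Y : ℕ) (S : Finset ℕ) (p1 p2 : ℕ) : ℝ :=
  ∑ d1 ∈ S, ∑ d2 ∈ S, if good d1 d2 p1 p2 then 0 else
    (3:ℝ) ^ om d1 * 3 ^ om d2 * S11 a Y d1 d2 p1 p2

lemma pair_bound (h : P_F1) (a : ℤ) (Y : ℕ) (hY : 1 ≤ Y) (S : Finset ℕ) (p1 p2 : ℕ)
    (J : ℤ → ℝ) (hJ0 : ∀ m, 0 ≤ J m) (hJ2 : ∀ m, J m ≤ 2)
    (hcov : ∀ d1 ∈ S, ∀ d2 ∈ S, ¬ good d1 d2 p1 p2 → ∀ m : ℤ, (d1 : ℤ) ∣ m * p1 - a →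
      (d2 : ℤ) ∣ m * p2 - a → 1 ≤ J m) :
    AA a Y S p1 p2 ≤ ∑' m : ℤ, Wd Y m * (J m *
      (tt S (m * p1 - a) * tt S (m * p2 - a))) := by
  set g : ℕ → ℕ → ℤ → ℝ := fun d p m => if (d : ℤ) ∣ m * p - a then (3:ℝ) ^ om d else 0 with hg
  have hg0 : ∀ d p m, 0 ≤ g d p m := by
    intro d p m
    simp only [hg]
    split_ifs <;> positivity
  have hg1 : ∀ d p m, g d p m ≤ (3:ℝ) ^ om d := by
    intro d p m
    simp only [hg]
    split_ifs
    · exact le_refl _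
    · positivity
  have hsm : ∀ d1 d2, Summable (fun m : ℤ => Wd Y m * (J m * (g d1 p1 m * g d2 p2 m))) := by
    intro d1 d2
    apply summ_of_bdd h Y hY _ (2 * ((3:ℝ) ^ om d1 * 3 ^ om d2))
    · intro m
      exact mul_nonneg (hJ0 m) (mul_nonneg (hg0 _ _ _) (hg0 _ _ _))
    · intro m
      apply mul_le_mul (hJ2 m) _ (mul_nonneg (hg0 _ _ _) (hg0 _ _ _)) (by norm_num)
      exact mul_le_mul (hg1 _ _ _) (hg1 _ _ _) (hg0 _ _ _) (by positivity)
  have hstep : AA a Y S p1 p2 ≤ ∑ d1 ∈ S, ∑ d2 ∈ S,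
      ∑' m : ℤ, Wd Y m * (J m * (g d1 p1 m * g d2 p2 m)) := by
    unfold AA
    apply Finset.sum_le_sum
    intro d1 hd1
    apply Finset.sum_le_sum
    intro d2 hd2
    split_ifs with hgood
    · apply tsum_nonneg
      intro m
      exact mul_nonneg (h.1 Y m hY).1 (mul_nonneg (hJ0 m) (mul_nonneg (hg0 _ _ _) (hg0 _ _ _)))
    · unfold S11
      rw [← tsum_mul_left]
      apply Summable.tsum_le_tsum _ _ (hsm d1 d2)
      · intro m
        have hW := (h.1 Y m hY).1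
        simp only [hg, Ii]
        by_cases h1 : (d1 : ℤ) ∣ m * p1 - a
        · by_cases h2 : (d2 : ℤ) ∣ m * p2 - a
          · rw [if_pos h1, if_pos h2, if_pos h1, if_pos h2]
            have h3 := hcov d1 hd1 d2 hd2 hgood m h1 h2
            have h4 : Wd Y m * ((3:ℝ) ^ om d1 * 3 ^ om d2) * 1 ≤
                Wd Y m * ((3:ℝ) ^ om d1 * 3 ^ om d2) * J m :=
              mul_le_mul_of_nonneg_left h3 (by positivity)
            nlinarith
          · rw [if_neg h2, if_neg h2]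
            simp
        · rw [if_neg h1, if_neg h1]
          simp
      · apply Summable.mul_left
        apply summ_of_bdd h Y hY _ 1
        · intro m
          unfold Ii
          split_ifs <;> norm_num
        · intro m
          unfold Ii
          split_ifs <;> norm_num
  refine hstep.trans (le_of_eq ?_)
  have h1 : ∀ d1 ∈ S, ∑ d2 ∈ S, ∑' m : ℤ, Wd Y m * (J m * (g d1 p1 m * g d2 p2 m)) =
      ∑' m : ℤ, ∑ d2 ∈ S, Wd Y m * (J m * (g d1 p1 m * g d2 p2 m)) := by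
    intro d1 _
    rw [Summable.tsum_finsetSum (fun d2 _ => hsm d1 d2)]
  rw [Finset.sum_congr rfl h1, ← Summable.tsum_finsetSum]
  · apply tsum_congr
    intro m
    unfold tt
    rw [Finset.sum_mul_sum, Finset.mul_sum, Finset.mul_sum]
    apply Finset.sum_congr rfl
    intro d1 _
    rw [Finset.mul_sum, Finset.mul_sum]
  · intro d1 _
    exact summable_sum (fun d2 _ => hsm d1 d2)

/-- `p1 | m p2 - a` is a residue class -/
lemma exists_class (a : ℤ) (p1 p2 : ℕ) (hp1 : p1.Prime) (hp2 : p2.Prime) (hne : p1 ≠ p2) :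
    ∃ u : ℤ, ∀ m : ℤ, (p1 : ℤ) ∣ m * p2 - a → (p1 : ℤ) ∣ m - u := by
  have hc : IsCoprime (p1 : ℤ) (p2 : ℤ) :=
    Nat.isCoprime_iff_coprime.mpr ((Nat.coprime_primes hp1 hp2).mpr hne)
  obtain ⟨x, y, hxy⟩ := hc
  refine ⟨a * y, ?_⟩
  intro m ⟨k, hk⟩
  refine ⟨x * m + y * k, ?_⟩
  have h1 : m = m * (x * p1 + y * p2) := by rw [hxy, mul_one]
  have h2 : m * p2 = a + p1 * k := by linarith
  calc m - a * y = m * (x * p1 + y * p2) - a * y := by rw [← h1]
    _ = x * m * p1 + y * (m * p2) - a * y := by ring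
    _ = x * m * p1 + y * (a + p1 * k) - a * y := by rw [h2]
    _ = _ := by ring

/-- a bad quadruple with a solution -/
lemma bad_cases (a : ℤ) (d1 d2 p1 p2 : ℕ) (m : ℤ) (hp1 : p1.Prime) (hp2 : p2.Prime)
    (hne : p1 ≠ p2) (hg : ¬ good d1 d2 p1 p2) (h1 : Int.gcd a d1 = 1) (h2 : Int.gcd a d2 = 1)
    (hm1 : (d1 : ℤ) ∣ m * p1 - a) (hm2 : (d2 : ℤ) ∣ m * p2 - a) :
    (p1 : ℤ) ∣ m * p2 - a ∨ (p2 : ℤ) ∣ m * p1 - a := by
  have key : ∀ (p d : ℕ), p.Prime → Int.gcd a d = 1 → (d : ℤ) ∣ m * p - a → ¬ p ∣ d := by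
    intro p d hp hgcd hdv hpd
    have h3 : (p : ℤ) ∣ m * p - a := (Int.natCast_dvd_natCast.mpr hpd).trans hdv
    have h4 : (p : ℤ) ∣ a := by
      have h5 : (p : ℤ) ∣ m * p := dvd_mul_left _ _
      have h6 := dvd_sub h5 h3
      rwa [sub_sub_cancel] at h6
    have h5 : (p : ℤ) ∣ (Int.gcd a d : ℤ) := Int.dvd_coe_gcd h4 (Int.natCast_dvd_natCast.mpr hpd)
    rw [hgcd] at h5
    have h6 : p ∣ 1 := by exact_mod_cast h5
    exact hp.one_lt.ne' (Nat.dvd_one.mp h6)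
  unfold good at hg
  rw [not_and] at hg
  have hg' := hg hne
  rw [Nat.coprime_mul_iff_left, Nat.coprime_mul_iff_right, Nat.coprime_mul_iff_right,
    hp1.coprime_iff_not_dvd, hp1.coprime_iff_not_dvd, hp2.coprime_iff_not_dvd,
    hp2.coprime_iff_not_dvd] at hg'
  have k1 := key p1 d1 hp1 h1 hm1
  have k2 := key p2 d2 hp2 h2 hm2
  have h3 : p1 ∣ d2 ∨ p2 ∣ d1 := by tauto
  rcases h3 with h3 | h3
  · left; exact (Int.natCast_dvd_natCast.mpr h3).trans hm2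
  · right; exact (Int.natCast_dvd_natCast.mpr h3).trans hm1

end Pool.Agent.H262R4.FR.TF5

namespace Pool.Agent.H262R4.FR

open Finset TF5

theorem t_F5 (h : P_F1) : P_F5 := by
  intro a ha ρ0 hρ0
  set ε : ℝ := min (ρ0 / 8) (1 / 2) with hεd
  have hε : 0 < ε := lt_min (by positivity) (by norm_num)
  have hε2 : ε ≤ 1 / 2 := min_le_right _ _
  have hε8 : ε ≤ ρ0 / 8 := min_le_left _ _
  obtain ⟨K, hK, hcore⟩ := core h a ε hε hε2
  refine ⟨63 * K, by positivity, ?_⟩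
  intro Y P P' D S lam hs
  have hY : 1 ≤ Y := by have := hs.hY; omega
  have hP : 1 ≤ P := by have := hs.hP; omega
  have hY' : (3:ℝ) ≤ Y := by exact_mod_cast hs.hY
  have hP' : (3:ℝ) ≤ P := by exact_mod_cast hs.hP
  set X : ℝ := (Y : ℝ) * P with hX
  have hX9 : (9:ℝ) ≤ X := by rw [hX]; nlinarith
  have hX0 : 0 < X := by linarith
  have hρ1 : ρ0 ≤ 1 / 100 := by
    by_contra hcon
    push Not at hcon
    have h1 := Real.rpow_lt_rpow_of_exponent_lt (by linarith : (1:ℝ) < X) hcon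
    have := hs.hP0.trans hs.hP1
    linarith
  -- Y ≥ X^(99/100)
  have hYX : X ^ (99 / 100 : ℝ) ≤ Y := by
    have h1 : X ^ (99 / 100 : ℝ) * X ^ (1 / 100 : ℝ) = X := by
      rw [← Real.rpow_add hX0]; norm_num
    have h2 := hs.hP1
    have h3 : X ^ (99 / 100 : ℝ) * P ≤ Y * P := by
      calc X ^ (99 / 100 : ℝ) * P ≤ X ^ (99 / 100 : ℝ) * X ^ (1 / 100 : ℝ) :=
            mul_le_mul_of_nonneg_left h2 (by positivity)
        _ = Y * P := by rw [h1]
    exact le_of_mul_le_mul_right h3 (by linarith)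
  have hPY : (P : ℝ) ≤ Y := by
    refine hs.hP1.trans (le_trans ?_ hYX)
    exact Real.rpow_le_rpow_of_exponent_le (by linarith) (by norm_num)
  -- D^3 ≤ Y^2
  have hDY : (D : ℝ) ^ 3 / (Y : ℝ) ^ 2 ≤ 1 := by
    rw [div_le_one (by positivity)]
    have h1 : (D : ℝ) ^ 3 ≤ (X ^ (29 / 50 : ℝ)) ^ 3 := pow_le_pow_left₀ (by positivity) hs.hD 3
    have h2 : (X ^ (99 / 100 : ℝ)) ^ 2 ≤ (Y : ℝ) ^ 2 := pow_le_pow_left₀ (by positivity) hYX 2
    refine h1.trans (le_trans ?_ h2)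
    rw [← Real.rpow_natCast, ← Real.rpow_natCast, ← Real.rpow_mul hX0.le, ← Real.rpow_mul hX0.le]
    apply Real.rpow_le_rpow_of_exponent_le (by linarith)
    push_cast; norm_num
  set U : ℝ := X ^ (4 * ε) with hU
  have hU1 : 1 ≤ U := Real.one_le_rpow (by linarith) (by positivity)
  -- the common factor
  have hfac : (P : ℝ) ^ (2 * ε) * ((Y : ℝ) ^ 2 + 1) ^ (2 * ε) ≤ 2 * U := by
    have h1 : ((Y : ℝ) ^ 2 + 1) ^ (2 * ε) ≤ (2 * (Y : ℝ) ^ 2) ^ (2 * ε) := by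
      apply Real.rpow_le_rpow (by positivity) (by nlinarith) (by positivity)
    have h2 : (2 * (Y : ℝ) ^ 2) ^ (2 * ε) = 2 ^ (2 * ε) * (Y : ℝ) ^ (4 * ε) := by
      rw [Real.mul_rpow (by norm_num) (by positivity), ← Real.rpow_natCast (Y : ℝ),
        ← Real.rpow_mul (by positivity)]
      congr 2
      push_cast; ring
    have h3 : (2:ℝ) ^ (2 * ε) ≤ 2 := by
      conv_rhs => rw [← Real.rpow_one (2:ℝ)]
      exact Real.rpow_le_rpow_of_exponent_le (by norm_num) (by linarith)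
    have h4 : (P : ℝ) ^ (2 * ε) ≤ (P : ℝ) ^ (4 * ε) :=
      Real.rpow_le_rpow_of_exponent_le (by linarith) (by linarith)
    have h5 : U = (Y : ℝ) ^ (4 * ε) * (P : ℝ) ^ (4 * ε) := by
      rw [hU, hX, Real.mul_rpow (by positivity) (by positivity)]
    calc (P : ℝ) ^ (2 * ε) * ((Y : ℝ) ^ 2 + 1) ^ (2 * ε)
        ≤ (P : ℝ) ^ (4 * ε) * (2 * (Y : ℝ) ^ (4 * ε)) := by
          apply mul_le_mul h4 _ (by positivity) (by positivity)
          refine h1.trans ?_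
          rw [h2]
          exact mul_le_mul_of_nonneg_right h3 (by positivity)
      _ = 2 * U := by rw [h5]; ring
  -- the core bounds
  have hS' : ∀ d ∈ S, 1 ≤ d ∧ d ≤ D := fun d hd => ⟨(hs.hS d hd).1, (hs.hS d hd).2.1⟩
  have hcore1 : ∀ (k p1 p2 : ℕ) (u : ℤ) (v : ℝ), 1 ≤ p1 → 1 ≤ p2 → p1 ≤ 2 * P → p2 ≤ 2 * P →
      1 ≤ k → 1 ≤ v → (Y : ℝ) / k ≤ v →
      ∑' m : ℤ, Wd Y m * ((if (k : ℤ) ∣ m - u then (1:ℝ) else 0) *
        (tt S (m * p1 - a) * tt S (m * p2 - a))) ≤ K * (U * (20 * v) + v) := by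
    intro k p1 p2 u v hp1 hp2 hp1P hp2P hk hv hYk
    refine (hcore Y P D k p1 p2 u S hY hP hp1 hp2 hp1P hp2P hk hS').trans ?_
    apply mul_le_mul_of_nonneg_left _ hK.le
    have h1 : (P : ℝ) ^ (2 * ε) * ((Y : ℝ) ^ 2 + 1) ^ (2 * ε) * ((Y : ℝ) / k + 9) ≤
        2 * U * (v + 9 * v) := by
      apply mul_le_mul hfac (by linarith) (by positivity) (by positivity)
    linarith
  have hPrm : ∀ p ∈ Pr P P', p.Prime ∧ P < p ∧ p ≤ 2 * P := by
    intro p hp
    unfold Pr at hp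
    rw [Finset.mem_filter, Finset.mem_Ioc] at hp
    exact ⟨hp.2, hp.1.1, hp.1.2.trans hs.hPP2⟩
  have hcard : ((Pr P P').card : ℝ) ≤ P := by
    have h1 : (Pr P P').card ≤ (Ioc P P').card := Finset.card_filter_le _ _
    rw [Nat.card_Ioc] at h1
    have := hs.hPP2
    have h2 : (Pr P P').card ≤ P := by omega
    exact_mod_cast h2
  have hYP1 : (1:ℝ) ≤ (Y : ℝ) / P := by
    rw [le_div_iff₀ (by linarith)]; linarith
  -- diagonal
  have hdiag : ∀ p ∈ Pr P P', AA a Y S p p ≤ K * (21 * U * Y) := by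
    intro p hp
    obtain ⟨hpp, hpl, hpu⟩ := hPrm p hp
    have h1 := pair_bound h a Y hY S p p (fun m => if ((1:ℕ) : ℤ) ∣ m - 0 then (1:ℝ) else 0)
      (fun m => by split_ifs <;> norm_num) (fun m => by split_ifs <;> norm_num)
      (fun d1 _ d2 _ _ m _ _ => by simp)
    refine h1.trans ((hcore1 1 p p 0 Y hpp.one_le hpp.one_le hpu hpu le_rfl (by linarith)
      (by simp)).trans ?_)
    apply mul_le_mul_of_nonneg_left _ hK.le
    nlinarith
  -- off-diagonal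
  have hoff : ∀ p1 ∈ Pr P P', ∀ p2 ∈ Pr P P', p1 ≠ p2 →
      AA a Y S p1 p2 ≤ K * (42 * U * (Y / P)) := by
    intro p1 hp1 p2 hp2 hne
    obtain ⟨hpp1, hpl1, hpu1⟩ := hPrm p1 hp1
    obtain ⟨hpp2, hpl2, hpu2⟩ := hPrm p2 hp2
    obtain ⟨u1, hu1⟩ := exists_class a p1 p2 hpp1 hpp2 hne
    obtain ⟨u2, hu2⟩ := exists_class a p2 p1 hpp2 hpp1 hne.symm
    have h1 := pair_bound h a Y hY S p1 p2
      (fun m => (if (p1 : ℤ) ∣ m - u1 then (1:ℝ) else 0) +
        (if (p2 : ℤ) ∣ m - u2 then (1:ℝ) else 0))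
      (fun m => by split_ifs <;> norm_num) (fun m => by split_ifs <;> norm_num)
      (fun d1 hd1 d2 hd2 hg m hm1 hm2 => by
        rcases bad_cases a d1 d2 p1 p2 m hpp1 hpp2 hne hg (hs.hS d1 hd1).2.2
          (hs.hS d2 hd2).2.2 hm1 hm2 with h3 | h3
        · rw [if_pos (hu1 m h3)]
          split_ifs <;> norm_num
        · rw [if_pos (hu2 m h3)]
          split_ifs <;> norm_num)
    have hsm : ∀ (k : ℕ) (u : ℤ), Summable (fun m : ℤ => Wd Y m *
        ((if (k : ℤ) ∣ m - u then (1:ℝ) else 0) *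
        (tt S (m * p1 - a) * tt S (m * p2 - a)))) := by
      intro k u
      apply summ_of_bdd h Y hY _ (tt S 0 * tt S 0)
      · intro m
        apply mul_nonneg
        · split_ifs <;> norm_num
        · exact mul_nonneg (tt_nonneg _ _) (tt_nonneg _ _)
      · intro m
        have h1 : tt S (m * p1 - a) * tt S (m * p2 - a) ≤ tt S 0 * tt S 0 :=
          mul_le_mul (tt_le_zero _ _) (tt_le_zero _ _) (tt_nonneg _ _) (tt_nonneg _ _)
        split_ifs
        · rw [one_mul]; exact h1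
        · rw [zero_mul]; exact mul_nonneg (tt_nonneg _ _) (tt_nonneg _ _)
    have h2 : ∑' m : ℤ, Wd Y m * (((if (p1 : ℤ) ∣ m - u1 then (1:ℝ) else 0) +
        (if (p2 : ℤ) ∣ m - u2 then (1:ℝ) else 0)) *
        (tt S (m * p1 - a) * tt S (m * p2 - a))) =
        (∑' m : ℤ, Wd Y m * ((if (p1 : ℤ) ∣ m - u1 then (1:ℝ) else 0) *
          (tt S (m * p1 - a) * tt S (m * p2 - a)))) +
        ∑' m : ℤ, Wd Y m * ((if (p2 : ℤ) ∣ m - u2 then (1:ℝ) else 0) *
          (tt S (m * p1 - a) * tt S (m * p2 - a))) := by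
      rw [← (hsm p1 u1).tsum_add (hsm p2 u2)]
      apply tsum_congr
      intro m
      ring
    rw [h2] at h1
    have hq : ∀ p : ℕ, P < p → (Y : ℝ) / p ≤ Y / P := by
      intro p hp
      apply div_le_div_of_nonneg_left (by linarith) (by linarith)
      exact_mod_cast hp.le
    have h3 := hcore1 p1 p1 p2 u1 (Y / P) hpp1.one_le hpp2.one_le hpu1 hpu2 hpp1.one_le hYP1
      (hq p1 hpl1)
    have h4 := hcore1 p2 p1 p2 u2 (Y / P) hpp1.one_le hpp2.one_le hpu1 hpu2 hpp2.one_le hYP1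
      (hq p2 hpl2)
    have h5 : (Y : ℝ) / P ≤ U * (Y / P) := by nlinarith
    have h6 : K * (U * (20 * ((Y : ℝ) / P)) + Y / P) + K * (U * (20 * ((Y : ℝ) / P)) + Y / P) ≤
        K * (42 * U * (Y / P)) := by
      rw [← mul_add]
      apply mul_le_mul_of_nonneg_left _ hK.le
      linarith
    linarith
  -- collect
  have hS11 : ∀ d1 d2 p1 p2 : ℕ, 0 ≤ S11 a Y d1 d2 p1 p2 := by
    intro d1 d2 p1 p2
    unfold S11
    apply tsum_nonneg
    intro m
    apply mul_nonneg (h.1 Y m hY).1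
    unfold Ii
    split_ifs <;> norm_num
  have habs : |∑ d1 ∈ S, ∑ d2 ∈ S, ∑ p1 ∈ Pr P P', ∑ p2 ∈ Pr P P',
      if good d1 d2 p1 p2 then 0 else lam d1 * lam d2 * S11 a Y d1 d2 p1 p2| ≤
      ∑ p1 ∈ Pr P P', ∑ p2 ∈ Pr P P', AA a Y S p1 p2 := by
    have h1 : ∑ p1 ∈ Pr P P', ∑ p2 ∈ Pr P P', AA a Y S p1 p2 =
        ∑ d1 ∈ S, ∑ d2 ∈ S, ∑ p1 ∈ Pr P P', ∑ p2 ∈ Pr P P',
        (if good d1 d2 p1 p2 then 0 else (3:ℝ) ^ om d1 * 3 ^ om d2 * S11 a Y d1 d2 p1 p2) := by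
      unfold AA
      rw [Finset.sum_comm' (s := S) (t := fun _ => S) (t' := S) (s' := fun _ => S) (by tauto)]
      have e1 : ∀ p1 ∈ Pr P P', ∑ p2 ∈ Pr P P', ∑ d1 ∈ S, ∑ d2 ∈ S,
          (if good d1 d2 p1 p2 then 0 else (3:ℝ) ^ om d1 * 3 ^ om d2 * S11 a Y d1 d2 p1 p2) =
          ∑ d1 ∈ S, ∑ d2 ∈ S, ∑ p2 ∈ Pr P P',
          (if good d1 d2 p1 p2 then 0 else (3:ℝ) ^ om d1 * 3 ^ om d2 *
            S11 a Y d1 d2 p1 p2) := by
        intro p1 _
        rw [Finset.sum_comm]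
        apply Finset.sum_congr rfl
        intro d1 _
        rw [Finset.sum_comm]
      rw [Finset.sum_congr rfl e1, Finset.sum_comm]
      rw [Finset.sum_comm' (s := S) (t := fun _ => S) (t' := S) (s' := fun _ => S) (by tauto)]
      apply Finset.sum_congr rfl
      intro d1 _
      rw [Finset.sum_comm]
    rw [h1]
    refine (Finset.abs_sum_le_sum_abs _ _).trans (Finset.sum_le_sum (fun d1 _ => ?_))
    refine (Finset.abs_sum_le_sum_abs _ _).trans (Finset.sum_le_sum (fun d2 _ => ?_))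
    refine (Finset.abs_sum_le_sum_abs _ _).trans (Finset.sum_le_sum (fun p1 _ => ?_))
    refine (Finset.abs_sum_le_sum_abs _ _).trans (Finset.sum_le_sum (fun p2 _ => ?_))
    split_ifs
    · simp
    · rw [abs_mul, abs_mul, abs_of_nonneg (hS11 d1 d2 p1 p2)]
      apply mul_le_mul_of_nonneg_right _ (hS11 d1 d2 p1 p2)
      exact mul_le_mul (hs.hl d1) (hs.hl d2) (abs_nonneg _) (by positivity)
  refine habs.trans ?_
  have hinner : ∀ p1 ∈ Pr P P', ∑ p2 ∈ Pr P P', AA a Y S p1 p2 ≤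
      K * (21 * U * Y) + P * (K * (42 * U * (Y / P))) := by
    intro p1 hp1
    rw [← Finset.add_sum_erase _ _ hp1]
    apply add_le_add (hdiag p1 hp1)
    calc ∑ p2 ∈ (Pr P P').erase p1, AA a Y S p1 p2
        ≤ ∑ p2 ∈ (Pr P P').erase p1, K * (42 * U * (Y / P)) := by
          apply Finset.sum_le_sum
          intro p2 hp2
          rw [Finset.mem_erase] at hp2
          exact hoff p1 hp1 p2 hp2.2 hp2.1.symm
      _ = (((Pr P P').erase p1).card : ℝ) * (K * (42 * U * (Y / P))) := by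
          rw [Finset.sum_const, nsmul_eq_mul]
      _ ≤ P * (K * (42 * U * (Y / P))) := by
          apply mul_le_mul_of_nonneg_right _ (by positivity)
          refine le_trans ?_ hcard
          exact_mod_cast Finset.card_erase_le
  have hPd : (P : ℝ) * (K * (42 * U * (Y / P))) = K * (42 * U * Y) := by
    have : (P : ℝ) ≠ 0 := by linarith
    field_simp
  rw [hPd] at hinner
  have htot : ∑ p1 ∈ Pr P P', ∑ p2 ∈ Pr P P', AA a Y S p1 p2 ≤ P * (K * (63 * U * Y)) := by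
    calc _ ≤ ∑ p1 ∈ Pr P P', K * (63 * U * Y) := by
          apply Finset.sum_le_sum
          intro p1 hp1
          refine (hinner p1 hp1).trans (le_of_eq (by ring))
      _ = ((Pr P P').card : ℝ) * (K * (63 * U * Y)) := by
          rw [Finset.sum_const, nsmul_eq_mul]
      _ ≤ _ := mul_le_mul_of_nonneg_right hcard (by positivity)
  refine htot.trans ?_
  have hUX : U ≤ P * X ^ (-(ρ0 / 2)) := by
    have h1 : U ≤ X ^ (ρ0 / 2) := by
      rw [hU]
      exact Real.rpow_le_rpow_of_exponent_le (by linarith) (by linarith)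
    have h2 : X ^ (ρ0 / 2) = X ^ ρ0 * X ^ (-(ρ0 / 2)) := by
      rw [← Real.rpow_add hX0]; congr 1; ring
    rw [h2] at h1
    refine h1.trans ?_
    exact mul_le_mul_of_nonneg_right hs.hP0 (by positivity)
  calc (P : ℝ) * (K * (63 * U * Y)) = (63 * K * Y * P) * U := by ring
    _ ≤ (63 * K * Y * P) * (P * X ^ (-(ρ0 / 2))) := by
        apply mul_le_mul_of_nonneg_left hUX
        positivity
    _ = 63 * K * Y * (P : ℝ) ^ 2 * X ^ (-(ρ0 / 2)) := by ring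

end Pool.Agent.H262R4.FR
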