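import Pool.Agent.H262R4.FR.Stubs

/-! Task F6 (helper666): main term of one pair of moduli. -/

set_option autoImplicit false

namespace Pool.Agent.H262R4.FR

open Finset

namespace TF6

/-- number of primes of `T` dividing `k` -/
theorem b_bound {a : ℤ} {ρ0 : ℝ} {Y P P' D : ℕ} {S : Finset ℕ} {lam : ℕ → ℝ} (hρ : 0 < ρ0)
    (h : Set1 a ρ0 (1 / 100) (29 / 50) Y P P' D S lam) {d1 d2 : ℕ} (h1 : d1 ∈ S) (h2 : d2 ∈ S) :
    (((Pr P P').filter (fun p => p ∣ d1 * d2)).card : ℝ) ≤ 2 / ρ0 := by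
  set B := (Pr P P').filter (fun p => p ∣ d1 * d2) with hB
  obtain ⟨h11, h12, -⟩ := h.hS d1 h1
  obtain ⟨h21, h22, -⟩ := h.hS d2 h2
  have hd0 : 0 < d1 * d2 := Nat.mul_pos h11 h21
  have hprime : ∀ p ∈ B, p.Prime ∧ P < p ∧ p ∣ d1 * d2 := by
    intro p hp
    rw [hB, mem_filter] at hp
    unfold Pr at hp
    rw [mem_filter, mem_Ioc] at hp
    exact ⟨hp.1.2, hp.1.1.1, hp.2⟩
  have hdvd : ∏ p ∈ B, p ∣ d1 * d2 :=
    Finset.prod_primes_dvd _ (fun p hp => (hprime p hp).1.prime) (fun p hp => (hprime p hp).2.2)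
  have hle : P ^ B.card ≤ d1 * d2 := by
    calc P ^ B.card = ∏ _p ∈ B, P := by rw [Finset.prod_const]
      _ ≤ ∏ p ∈ B, p := Finset.prod_le_prod' fun p hp => (hprime p hp).2.1.le
      _ ≤ d1 * d2 := Nat.le_of_dvd hd0 hdvd
  have hle2 : P ^ B.card ≤ D * D := hle.trans (Nat.mul_le_mul h12 h22)
  have hX : (1 : ℝ) < (Y : ℝ) * P := by
    have hY : (3 : ℝ) ≤ Y := by exact_mod_cast h.hY
    have hP : (3 : ℝ) ≤ P := by exact_mod_cast h.hP
    nlinarith
  set X : ℝ := (Y : ℝ) * P with hXd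
  have hX0 : 0 ≤ X := by linarith
  have e1 : X ^ (ρ0 * (B.card : ℝ)) ≤ X ^ ((29 / 25 : ℝ)) := by
    calc X ^ (ρ0 * (B.card : ℝ)) = (X ^ ρ0) ^ B.card := by
          rw [Real.rpow_mul hX0, Real.rpow_natCast]
      _ ≤ (P : ℝ) ^ B.card := pow_le_pow_left₀ (Real.rpow_nonneg hX0 _) h.hP0 _
      _ ≤ (D : ℝ) * D := by exact_mod_cast hle2
      _ ≤ X ^ (29 / 50 : ℝ) * X ^ (29 / 50 : ℝ) :=
          mul_le_mul h.hD h.hD (Nat.cast_nonneg _) (Real.rpow_nonneg hX0 _)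
      _ = X ^ ((29 / 25 : ℝ)) := by
          rw [← Real.rpow_add (by linarith)]; norm_num
  have e2 := (Real.rpow_le_rpow_left_iff hX).1 e1
  rw [le_div_iff₀ hρ]
  linarith

theorem cardT_le (P P' : ℕ) (h : P' ≤ 2 * P) : ((Pr P P').card : ℝ) ≤ P := by
  have h1 : (Pr P P').card ≤ P := by
    unfold Pr
    refine (card_filter_le _ _).trans ?_
    rw [Nat.card_Ioc]
    omega
  exact_mod_cast h1

/-- good pairs congruent mod `g` -/
theorem count (T : Finset ℕ) (hT : ∀ p ∈ T, p.Prime) (d1 d2 g : ℕ) :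
    |((((T ×ˢ T).filter (fun p : ℕ × ℕ => good d1 d2 p.1 p.2 ∧ (g : ℤ) ∣ (p.1 : ℤ) - p.2)).card : ℝ))
      - Rg T g| ≤ (T.card : ℝ) * (1 + 2 * ((T.filter (fun p => p ∣ d1 * d2)).card : ℝ)) := by
  classical
  set G := (T ×ˢ T).filter (fun p : ℕ × ℕ => good d1 d2 p.1 p.2 ∧ (g : ℤ) ∣ (p.1 : ℤ) - p.2) with hG
  set B := T.filter (fun p => p ∣ d1 * d2) with hB
  unfold Rg
  set R := (T ×ˢ T).filter (fun p : ℕ × ℕ => (g : ℤ) ∣ (p.1 : ℤ) - p.2) with hR
  have hGR : G ⊆ R := by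
    intro p hp
    rw [hG, mem_filter] at hp
    rw [hR, mem_filter]
    exact ⟨hp.1, hp.2.2⟩
  have hsub : R ⊆ G ∪ (T.diag ∪ (B ×ˢ T ∪ T ×ˢ B)) := by
    intro p hp
    rw [hR, mem_filter, mem_product] at hp
    by_cases hg : good d1 d2 p.1 p.2
    · exact mem_union_left _ (by rw [hG, mem_filter, mem_product]; exact ⟨hp.1, hg, hp.2⟩)
    · apply mem_union_right
      by_cases he : p.1 = p.2
      · exact mem_union_left _ (mem_diag.2 ⟨hp.1.1, he⟩)
      · apply mem_union_right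
        by_cases h1 : p.1 ∣ d1 * d2
        · exact mem_union_left _ (mem_product.2 ⟨mem_filter.2 ⟨hp.1.1, h1⟩, hp.1.2⟩)
        · by_cases h2 : p.2 ∣ d1 * d2
          · exact mem_union_right _ (mem_product.2 ⟨hp.1.1, mem_filter.2 ⟨hp.1.2, h2⟩⟩)
          · exfalso
            apply hg
            refine ⟨he, ?_⟩
            exact Nat.Coprime.mul_left (((hT _ hp.1.1).coprime_iff_not_dvd).2 h1)
              (((hT _ hp.1.2).coprime_iff_not_dvd).2 h2)
  have hc1 : G.card ≤ R.card := card_le_card hGR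
  have hc2 : R.card ≤ G.card + (T.card + (B.card * T.card + T.card * B.card)) := by
    refine (card_le_card hsub).trans ((card_union_le _ _).trans ?_)
    refine Nat.add_le_add_left ((card_union_le _ _).trans ?_) _
    rw [diag_card]
    refine Nat.add_le_add_left ((card_union_le _ _).trans ?_) _
    rw [card_product, card_product]
  have hc1' : (G.card : ℝ) ≤ R.card := by exact_mod_cast hc1
  have hc2' : (R.card : ℝ) ≤ G.card + (T.card + (B.card * T.card + T.card * B.card)) := by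
    exact_mod_cast hc2
  rw [abs_le]
  constructor <;> nlinarith

end TF6

open TF6 in
theorem t_F6 : P_F6 := by
  classical
  intro a _ ρ0 hρ
  refine ⟨1 + 8 / ρ0, by positivity, ?_⟩
  intro Y P P' D S lam h d1 h1 d2 h2
  have hb := b_bound hρ h h1 h2
  have hn := cardT_le P P' h.hPP2
  have hT : ∀ p ∈ Pr P P', p.Prime := fun p hp => (mem_filter.1 hp).2
  have hcount := count (Pr P P') hT d1 d2 (Nat.gcd d1 d2)
  obtain ⟨h11, h12, -⟩ := h.hS d1 h1
  obtain ⟨h21, h22, -⟩ := h.hS d2 h2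
  set T := Pr P P' with hTd
  set g := Nat.gcd d1 d2 with hg
  have hg0 : 0 < g := Nat.gcd_pos_of_pos_left _ h11
  have hφ : 1 ≤ Nat.totient g := Nat.totient_pos.2 hg0
  have hφ' : (1 : ℝ) ≤ (Nat.totient g : ℝ) := by exact_mod_cast hφ
  have hl0 : 0 < Nat.lcm d1 d2 := Nat.lcm_pos h11 h21
  have hl0' : (0 : ℝ) < (Nat.lcm d1 d2 : ℝ) := by exact_mod_cast hl0
  set ℓ : ℝ := (Nat.lcm d1 d2 : ℝ) with hℓ
  set n : ℝ := (T.card : ℝ) with hnd
  set b : ℝ := ((T.filter (fun p => p ∣ d1 * d2)).card : ℝ) with hbd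
  set G : ℝ := (((T ×ˢ T).filter (fun p : ℕ × ℕ => good d1 d2 p.1 p.2 ∧
    (g : ℤ) ∣ (p.1 : ℤ) - p.2)).card : ℝ) with hGd
  have hsum : (∑ p1 ∈ T, ∑ p2 ∈ T, if good d1 d2 p1 p2 then mn Y d1 d2 p1 p2 else 0) =
      (Y : ℝ) / ℓ * G := by
    rw [hGd, ← Finset.sum_product', Finset.card_filter]
    push_cast
    rw [Finset.mul_sum]
    refine Finset.sum_congr rfl fun p _ => ?_
    unfold mn
    by_cases c1 : good d1 d2 p.1 p.2 <;> by_cases c2 : ((Nat.gcd d1 d2 : ℕ) : ℤ) ∣ (p.1 : ℤ) - p.2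
    · rw [if_pos c1, if_pos c2, if_pos ⟨c1, c2⟩, mul_one]
    · rw [if_pos c1, if_neg c2, if_neg (fun h => c2 h.2), mul_zero]
    · rw [if_neg c1, if_neg (fun h => c1 h.1), mul_zero]
    · rw [if_neg c1, if_neg (fun h => c1 h.1), mul_zero]
  set b1 : ℝ := ((T.filter (fun p => p ∣ d1)).card : ℝ) with hb1d
  have hndv : nd T d1 = n - b1 := by
    have := Finset.card_filter_add_card_filter_not (s := T) (fun p => p ∣ d1)
    unfold nd
    rw [hnd, hb1d, ← this]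
    push_cast
    ring
  have hb1 : b1 ≤ b := by
    rw [hb1d, hbd]
    have : (T.filter (fun p => p ∣ d1)).card ≤ (T.filter (fun p => p ∣ d1 * d2)).card := by
      apply card_le_card
      intro p hp
      rw [mem_filter] at hp ⊢
      exact ⟨hp.1, hp.2.mul_right d2⟩
    exact_mod_cast this
  have hb10 : 0 ≤ b1 := Nat.cast_nonneg _
  have hn0 : 0 ≤ n := Nat.cast_nonneg _
  have hb0 : 0 ≤ b := Nat.cast_nonneg _
  have hY0 : (0 : ℝ) ≤ Y := Nat.cast_nonneg _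
  rw [hsum, hndv]
  have e1 : (Y : ℝ) / ℓ * G + (Y : ℝ) * (n ^ 2 - 2 * n * (n - b1)) / (ℓ * (Nat.totient g : ℝ)) =
      (Y : ℝ) / ℓ * ((Rg T g - n ^ 2 / (Nat.totient g : ℝ)) + (G - Rg T g) +
        2 * n * b1 / (Nat.totient g : ℝ)) := by
    have : (Nat.totient g : ℝ) ≠ 0 := by positivity
    field_simp
    ring
  rw [e1, abs_mul, abs_of_nonneg (by positivity : 0 ≤ (Y : ℝ) / ℓ)]
  apply mul_le_mul_of_nonneg_left _ (by positivity)
  have e2 : |2 * n * b1 / (Nat.totient g : ℝ)| ≤ 2 * n * b := by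
    rw [abs_of_nonneg (by positivity), div_le_iff₀ (by positivity)]
    have : 2 * n * b1 ≤ 2 * n * b := mul_le_mul_of_nonneg_left hb1 (by positivity)
    have h3 : 2 * n * b * 1 ≤ 2 * n * b * (Nat.totient g : ℝ) :=
      mul_le_mul_of_nonneg_left hφ' (by positivity)
    linarith
  have e3 : n * (1 + 2 * b) + 2 * n * b ≤ (1 + 8 / ρ0) * P := by
    have h4 : n * (1 + 4 * b) ≤ P * (1 + 4 * (2 / ρ0)) := by
      apply mul_le_mul hn _ (by positivity) (Nat.cast_nonneg _)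
      linarith
    have h5 : (P : ℝ) * (1 + 4 * (2 / ρ0)) = (1 + 8 / ρ0) * P := by ring
    linarith
  calc |(Rg T g - n ^ 2 / (Nat.totient g : ℝ)) + (G - Rg T g) + 2 * n * b1 / (Nat.totient g : ℝ)|
      ≤ |(Rg T g - n ^ 2 / (Nat.totient g : ℝ)) + (G - Rg T g)| +
        |2 * n * b1 / (Nat.totient g : ℝ)| := abs_add_le _ _
    _ ≤ |Rg T g - n ^ 2 / (Nat.totient g : ℝ)| + |G - Rg T g| +
        |2 * n * b1 / (Nat.totient g : ℝ)| := by
        have := abs_add_le (Rg T g - n ^ 2 / (Nat.totient g : ℝ)) (G - Rg T g)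
        linarith
    _ ≤ |Rg T g - n ^ 2 / (Nat.totient g : ℝ)| + (1 + 8 / ρ0) * P := by linarith

end Pool.Agent.H262R4.FR
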