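import Mathlib
import Pool.Agent.H262R4.FR.Stubs

/-!
FR project, task F7 (helper330): sorting by the gcd, and divisor sums.
-/

set_option autoImplicit false

namespace Pool.Agent.H262R4.FR

open Finset

namespace TF7

theorem harm (D : ℕ) : ∑ b ∈ Icc 1 D, 1 / (b : ℝ) ≤ 1 + Real.log D := by
  have h := harmonic_le_one_add_log D
  rw [harmonic_eq_sum_Icc] at h
  push_cast at h
  simpa only [one_div] using h

theorem om_pow (k e : ℕ) (he : e ≠ 0) : (k + 1) ^ om e ≤ ∑ a ∈ e.divisors, k ^ om a := by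
  have h1 := Finset.sum_pow_mul_eq_add_pow k 1 e.primeFactors
  simp only [one_pow, mul_one] at h1
  unfold om
  rw [← h1]
  have hinj : Set.InjOn (fun s : Finset ℕ => ∏ p ∈ s, p) (e.primeFactors.powerset : Set (Finset ℕ)) := by
    intro s hs t ht hst
    rw [mem_coe, mem_powerset] at hs ht
    have hs' : (∏ p ∈ s, p).primeFactors = s :=
      Nat.primeFactors_prod fun p hp => Nat.prime_of_mem_primeFactors (hs hp)
    have ht' : (∏ p ∈ t, p).primeFactors = t :=
      Nat.primeFactors_prod fun p hp => Nat.prime_of_mem_primeFactors (ht hp)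
    rw [← hs', ← ht']
    exact congrArg Nat.primeFactors hst
  calc ∑ t ∈ e.primeFactors.powerset, k ^ t.card
      = ∑ t ∈ e.primeFactors.powerset, k ^ (∏ p ∈ t, p).primeFactors.card := by
        apply sum_congr rfl
        intro t ht
        rw [mem_powerset] at ht
        rw [Nat.primeFactors_prod fun p hp => Nat.prime_of_mem_primeFactors (ht hp)]
    _ = ∑ a ∈ e.primeFactors.powerset.image (fun s : Finset ℕ => ∏ p ∈ s, p),
          k ^ a.primeFactors.card :=
        (sum_image (f := fun a : ℕ => k ^ a.primeFactors.card) hinj).symm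
    _ ≤ _ := by
        apply sum_le_sum_of_subset
        intro a ha
        rw [mem_image] at ha
        obtain ⟨s, hs, rfl⟩ := ha
        rw [mem_powerset] at hs
        rw [Nat.mem_divisors]
        exact ⟨(prod_dvd_prod_of_subset _ _ _ hs).trans (Nat.prod_primeFactors_dvd e), he⟩

/-- `∑ k^ω(e)/e` -/
noncomputable def LL (k D : ℕ) : ℝ := ∑ e ∈ Icc 1 D, (k : ℝ) ^ om e / e

theorem LL_nonneg (k D : ℕ) : 0 ≤ LL k D := sum_nonneg fun _ _ => by positivity

theorem mult_sum (a D : ℕ) (ha : 1 ≤ a) :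
    ∑ e ∈ (Icc 1 D).filter (fun e => a ∣ e), 1 / (e : ℝ) ≤ (1 / (a : ℝ)) * ∑ b ∈ Icc 1 D, 1 / (b : ℝ) := by
  have ha' : (a : ℝ) ≠ 0 := by positivity
  have hinj : Set.InjOn (fun e : ℕ => e / a) ((Icc 1 D).filter (fun e => a ∣ e) : Set ℕ) := by
    intro x hx y hy hxy
    rw [mem_coe, mem_filter] at hx hy
    have h1 := Nat.div_mul_cancel hx.2
    have h2 := Nat.div_mul_cancel hy.2
    rw [← h1, ← h2]
    exact congrArg (· * a) hxy
  rw [mul_sum]
  calc ∑ e ∈ (Icc 1 D).filter (fun e => a ∣ e), 1 / (e : ℝ)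
      = ∑ e ∈ (Icc 1 D).filter (fun e => a ∣ e), 1 / (a : ℝ) * (1 / ((e / a : ℕ) : ℝ)) := by
        apply sum_congr rfl
        intro e he
        rw [mem_filter] at he
        rw [Nat.cast_div he.2 ha']
        field_simp
    _ = ∑ b ∈ ((Icc 1 D).filter (fun e => a ∣ e)).image (fun e : ℕ => e / a),
          1 / (a : ℝ) * (1 / (b : ℝ)) := (sum_image (f := fun b : ℕ => 1 / (a : ℝ) * (1 / (b : ℝ))) hinj).symm
    _ ≤ _ := by
        apply sum_le_sum_of_subset_of_nonneg
        · intro b hb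
          rw [mem_image] at hb
          obtain ⟨e, he, rfl⟩ := hb
          rw [mem_filter, mem_Icc] at he
          rw [mem_Icc]
          refine ⟨?_, (Nat.div_le_self e a).trans he.1.2⟩
          exact Nat.div_pos (Nat.le_of_dvd he.1.1 he.2) ha
        · intro b _ _
          positivity

theorem LL_succ (k D : ℕ) : LL (k + 1) D ≤ LL k D * LL 1 D := by
  have e1 : LL 1 D = ∑ b ∈ Icc 1 D, 1 / (b : ℝ) := by
    unfold LL
    apply sum_congr rfl
    intro b _
    simp
  rw [e1]
  unfold LL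
  calc ∑ e ∈ Icc 1 D, ((k + 1 : ℕ) : ℝ) ^ om e / e
      ≤ ∑ e ∈ Icc 1 D, ∑ a ∈ Icc 1 D, (if a ∣ e then (k : ℝ) ^ om a * (1 / (e : ℝ)) else 0) := by
        apply sum_le_sum
        intro e he
        rw [mem_Icc] at he
        have h1 := om_pow k e (by omega)
        have h2 : ((k + 1 : ℕ) : ℝ) ^ om e ≤ ∑ a ∈ e.divisors, (k : ℝ) ^ om a := by
          exact_mod_cast h1
        have h3 : ∑ a ∈ e.divisors, (k : ℝ) ^ om a =
            ∑ a ∈ (Icc 1 D).filter (fun a => a ∣ e), (k : ℝ) ^ om a := by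
          apply sum_congr _ (fun _ _ => rfl)
          ext a
          rw [Nat.mem_divisors, mem_filter, mem_Icc]
          constructor
          · rintro ⟨h, _⟩
            exact ⟨⟨Nat.pos_of_dvd_of_pos h he.1, (Nat.le_of_dvd he.1 h).trans he.2⟩, h⟩
          · rintro ⟨_, h⟩
            exact ⟨h, by omega⟩
        rw [h3, sum_filter] at h2
        calc ((k + 1 : ℕ) : ℝ) ^ om e / e ≤
            (∑ a ∈ Icc 1 D, if a ∣ e then (k : ℝ) ^ om a else 0) / e :=
              div_le_div_of_nonneg_right h2 (Nat.cast_nonneg _)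
          _ = _ := by
              rw [sum_div]
              apply sum_congr rfl
              intro a _
              split_ifs <;> ring
    _ = ∑ a ∈ Icc 1 D, (k : ℝ) ^ om a * ∑ e ∈ (Icc 1 D).filter (fun e => a ∣ e), 1 / (e : ℝ) := by
        rw [sum_comm]
        apply sum_congr rfl
        intro a _
        rw [mul_sum, sum_filter]
    _ ≤ ∑ a ∈ Icc 1 D, (k : ℝ) ^ om a * ((1 / (a : ℝ)) * ∑ b ∈ Icc 1 D, 1 / (b : ℝ)) := by
        apply sum_le_sum
        intro a ha
        rw [mem_Icc] at ha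
        exact mul_le_mul_of_nonneg_left (mult_sum a D ha.1) (by positivity)
    _ = _ := by
        rw [sum_mul]
        apply sum_congr rfl
        intro a _
        ring

theorem LL_le (D : ℕ) (k : ℕ) : LL (k + 1) D ≤ (1 + Real.log D) ^ (k + 1) := by
  have h1 : LL 1 D ≤ 1 + Real.log D := by
    have e1 : LL 1 D = ∑ b ∈ Icc 1 D, 1 / (b : ℝ) := by
      unfold LL
      apply sum_congr rfl
      intro b _
      simp
    rw [e1]
    exact harm D
  have h0 : 0 ≤ 1 + Real.log D := (LL_nonneg 1 D).trans h1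
  induction k with
  | zero => simpa using h1
  | succ k ih =>
    calc LL (k + 1 + 1) D ≤ LL (k + 1) D * LL 1 D := LL_succ _ _
      _ ≤ (1 + Real.log D) ^ (k + 1) * (1 + Real.log D) :=
          mul_le_mul ih h1 (LL_nonneg _ _) (by positivity)
      _ = _ := by ring

theorem om_mul_le (a b : ℕ) : om (a * b) ≤ om a + om b := by
  unfold om
  rcases eq_or_ne a 0 with rfl | ha
  · simp
  rcases eq_or_ne b 0 with rfl | hb
  · simp
  rw [Nat.primeFactors_mul ha hb]
  exact card_union_le _ _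

theorem key (D : ℕ) (F : ℕ → ℝ) (hF : ∀ g, 0 ≤ F g) :
    ∑ d1 ∈ Icc 1 D, ∑ d2 ∈ Icc 1 D,
      (3 : ℝ) ^ om d1 * 3 ^ om d2 / (Nat.lcm d1 d2 : ℝ) * F (Nat.gcd d1 d2) ≤
    ∑ g ∈ Icc 1 D, (9 : ℝ) ^ om g / g * F g * (LL 3 D * LL 3 D) := by
  rw [← sum_product']
  let φ : ℕ × ℕ → ℕ × ℕ × ℕ := fun x => (Nat.gcd x.1 x.2, x.1 / Nat.gcd x.1 x.2, x.2 / Nat.gcd x.1 x.2)
  let H : ℕ × ℕ × ℕ → ℝ := fun y => (9 : ℝ) ^ om y.1 / y.1 * F y.1 *
    ((3 : ℝ) ^ om y.2.1 / y.2.1 * ((3 : ℝ) ^ om y.2.2 / y.2.2))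
  have hH : ∀ y, 0 ≤ H y := by
    intro y
    have := hF y.1
    simp only [H]
    positivity
  have hinj : Set.InjOn φ ((Icc 1 D ×ˢ Icc 1 D : Finset (ℕ × ℕ)) : Set (ℕ × ℕ)) := by
    intro x hx y hy hxy
    simp only [φ, Prod.mk.injEq] at hxy
    obtain ⟨h1, h2, h3⟩ := hxy
    have e1 := Nat.div_mul_cancel (Nat.gcd_dvd_left x.1 x.2)
    have e2 := Nat.div_mul_cancel (Nat.gcd_dvd_right x.1 x.2)
    have e3 := Nat.div_mul_cancel (Nat.gcd_dvd_left y.1 y.2)
    have e4 := Nat.div_mul_cancel (Nat.gcd_dvd_right y.1 y.2)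
    rw [h2, h1, e3] at e1
    rw [h3, h1, e4] at e2
    exact Prod.ext e1.symm e2.symm
  calc ∑ x ∈ Icc 1 D ×ˢ Icc 1 D,
      (3 : ℝ) ^ om x.1 * 3 ^ om x.2 / (Nat.lcm x.1 x.2 : ℝ) * F (Nat.gcd x.1 x.2)
      ≤ ∑ x ∈ Icc 1 D ×ˢ Icc 1 D, H (φ x) := by
        apply sum_le_sum
        intro x hx
        rw [mem_product, mem_Icc, mem_Icc] at hx
        have hg : 0 < Nat.gcd x.1 x.2 := Nat.gcd_pos_of_pos_left _ hx.1.1
        have e1 := Nat.mul_div_cancel' (Nat.gcd_dvd_left x.1 x.2)
        have e2 := Nat.mul_div_cancel' (Nat.gcd_dvd_right x.1 x.2)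
        have e3 := Nat.gcd_mul_lcm x.1 x.2
        set g := Nat.gcd x.1 x.2 with hgd
        set u := x.1 / g with hu
        set v := x.2 / g with hv
        have hu0 : 0 < u := Nat.pos_of_ne_zero (by rintro h; rw [h, mul_zero] at e1; omega)
        have hv0 : 0 < v := Nat.pos_of_ne_zero (by rintro h; rw [h, mul_zero] at e2; omega)
        have hl : Nat.lcm x.1 x.2 = g * u * v := by
          apply Nat.eq_of_mul_eq_mul_left hg
          rw [e3, ← e1, ← e2]
          ring
        have o1 : om x.1 ≤ om g + om u := by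
          rw [← e1]; exact om_mul_le _ _
        have o2 : om x.2 ≤ om g + om v := by
          rw [← e2]; exact om_mul_le _ _
        have p1 : (3 : ℝ) ^ om x.1 ≤ 3 ^ (om g + om u) := pow_le_pow_right₀ (by norm_num) o1
        have p2 : (3 : ℝ) ^ om x.2 ≤ 3 ^ (om g + om v) := pow_le_pow_right₀ (by norm_num) o2
        have hgR : (0 : ℝ) < g := by exact_mod_cast hg
        have huR : (0 : ℝ) < u := by exact_mod_cast hu0
        have hvR : (0 : ℝ) < v := by exact_mod_cast hv0
        rw [hl]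
        simp only [H, φ, ← hgd, ← hu, ← hv]
        push_cast
        calc (3 : ℝ) ^ om x.1 * 3 ^ om x.2 / ((g : ℝ) * u * v) * F g
            ≤ 3 ^ (om g + om u) * 3 ^ (om g + om v) / ((g : ℝ) * u * v) * F g := by
              have := hF g
              gcongr
          _ = _ := by
              rw [pow_add, pow_add, show (9 : ℝ) = 3 * 3 by norm_num, mul_pow]
              field_simp
    _ = ∑ y ∈ (Icc 1 D ×ˢ Icc 1 D).image φ, H y := (sum_image hinj).symm
    _ ≤ ∑ y ∈ Icc 1 D ×ˢ (Icc 1 D ×ˢ Icc 1 D), H y := by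
        apply sum_le_sum_of_subset_of_nonneg
        · intro y hy
          rw [mem_image] at hy
          obtain ⟨x, hx, rfl⟩ := hy
          rw [mem_product, mem_Icc, mem_Icc] at hx
          have hg : 0 < Nat.gcd x.1 x.2 := Nat.gcd_pos_of_pos_left _ hx.1.1
          simp only [φ, mem_product, mem_Icc]
          refine ⟨⟨hg, (Nat.gcd_le_left _ hx.1.1).trans hx.1.2⟩, ⟨?_, ?_⟩, ?_, ?_⟩
          · exact Nat.div_pos (Nat.gcd_le_left _ hx.1.1) hg
          · exact (Nat.div_le_self _ _).trans hx.1.2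
          · exact Nat.div_pos (Nat.gcd_le_right _ hx.2.1) hg
          · exact (Nat.div_le_self _ _).trans hx.2.2
        · intro y _ _
          exact hH y
    _ = _ := by
        rw [sum_product]
        apply sum_congr rfl
        intro g _
        rw [sum_product]
        simp only [H]
        unfold LL
        rw [sum_mul_sum, mul_sum]
        apply sum_congr rfl
        intro u _
        rw [mul_sum]
        apply sum_congr rfl
        intro v _
        push_cast
        rfl

end TF7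

theorem t_F7 : P_F7 := by
  refine ⟨⟨1, one_pos, ?_⟩, ⟨1, one_pos, ?_⟩⟩
  · intro D F hD hF
    refine (TF7.key D F hF).trans ?_
    rw [← sum_mul, one_mul, mul_comm]
    apply mul_le_mul_of_nonneg_right
    · have h1 := TF7.LL_le D 2
      have h2 := TF7.LL_nonneg 3 D
      have h3 : TF7.LL 3 D * TF7.LL 3 D ≤ (1 + Real.log D) ^ 3 * (1 + Real.log D) ^ 3 :=
        mul_le_mul h1 h1 h2 (h2.trans h1)
      refine h3.trans (le_of_eq ?_)
      ring
    · apply sum_nonneg
      intro g _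
      have := hF g
      positivity
  · intro D hD
    have h1 := TF7.LL_le D 8
    unfold TF7.LL at h1
    rw [one_mul]
    simpa using h1

end Pool.Agent.H262R4.FR
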