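import Pool.Agent.H262R4.FR.Stubs
import Pool.Agent.H442R2.KF.Bv
import Pool.Agent.H442R2.KF.Pri
import Pool.Agent.H510R2.Div

/-! FR project, task F8: the primes of `(P, P']` in residue classes, on average. -/

namespace Pool.Agent.H262R4.FR

namespace TF8

open Finset
open Pool.Agent.H442R2.KF (piAP piN Er)

/-- Siegel-Walfisz for one modulus -/
theorem sw (U : ℕ) : ∃ C : ℝ, 0 < C ∧ ∀ N : ℕ, 3 ≤ N → ∀ g b : ℕ, 1 ≤ g →
    (g : ℝ) ≤ (N : ℝ) ^ (2 / 5 : ℝ) → Nat.Coprime b g → |Er N g b| ≤ C * (N / Real.log N ^ U) := by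
  obtain ⟨C, hC, h⟩ := Pool.Agent.H442R2.KF.bv (2 / 5) (by norm_num) U
  refine ⟨C, hC, fun N hN g b hg hgN hb => ?_⟩
  have h1 := h N hN (fun d => if d = g then b else 1) (by
    intro d _
    split_ifs with hd
    · rw [hd]; exact hb
    · exact Nat.coprime_one_left d)
  have h2 : |Er N g b| ≤ ∑ d ∈ Icc 1 ⌊(N : ℝ) ^ (2 / 5 : ℝ)⌋₊,
      |Er N d (if d = g then b else 1)| := by
    have h3 := Finset.single_le_sum (f := fun d => |Er N d (if d = g then b else 1)|)
      (s := Icc 1 ⌊(N : ℝ) ^ (2 / 5 : ℝ)⌋₊) (fun d _ => abs_nonneg _)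
      (mem_Icc.2 ⟨hg, Nat.le_floor hgN⟩)
    simpa using h3
  exact h2.trans h1

/-- a class -/
def Tb (T : Finset ℕ) (g b : ℕ) : Finset ℕ := T.filter (fun p => p % g = b)

theorem card_eq (T : Finset ℕ) (g : ℕ) (hg : 1 ≤ g) :
    T.card = ∑ b ∈ range g, (Tb T g b).card := by
  unfold Tb
  exact card_eq_sum_card_fiberwise fun p _ => by
    simpa using Nat.mod_lt p hg

theorem dvd_iff (g p q : ℕ) : ((g : ℤ) ∣ (p : ℤ) - q) ↔ p % g = q % g := by
  rw [← Nat.modEq_iff_dvd]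
  exact ⟨fun h => h.symm, fun h => Nat.ModEq.symm h⟩

theorem Rg_eq (T : Finset ℕ) (g : ℕ) (hg : 1 ≤ g) :
    Rg T g = ∑ b ∈ range g, ((Tb T g b).card : ℝ) ^ 2 := by
  unfold Rg
  have h1 : ((T ×ˢ T).filter (fun p : ℕ × ℕ => (g : ℤ) ∣ (p.1 : ℤ) - p.2)).card =
      ∑ b ∈ range g, (Tb T g b).card * (Tb T g b).card := by
    rw [card_eq_sum_card_fiberwise (f := fun p : ℕ × ℕ => p.1 % g) (t := range g)
      (fun p _ => by simpa using Nat.mod_lt p.1 hg)]
    refine sum_congr rfl fun b _ => ?_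
    rw [← card_product]
    congr 1
    ext ⟨p, q⟩
    simp only [mem_filter, mem_product, Tb, dvd_iff]
    constructor
    · rintro ⟨⟨⟨h1, h2⟩, h3⟩, h4⟩
      exact ⟨⟨h1, h4⟩, h2, by rw [← h3]; exact h4⟩
    · rintro ⟨⟨h1, h4⟩, h2, h3⟩
      exact ⟨⟨⟨h1, h2⟩, by rw [h4, h3]⟩, h4⟩
  rw [h1]
  push_cast
  exact sum_congr rfl fun b _ => by ring

/-- the variance identity -/
theorem var_eq (T : Finset ℕ) (g : ℕ) (hg : 1 ≤ g) (hT : ∀ p ∈ T, Nat.Coprime g p) :
    Rg T g - (T.card : ℝ) ^ 2 / Nat.totient g =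
      ∑ b ∈ (range g).filter (fun b => Nat.Coprime g b),
        (((Tb T g b).card : ℝ) - (T.card : ℝ) / Nat.totient g) ^ 2 := by
  have hz : ∀ b ∈ range g, ¬ Nat.Coprime g b → (Tb T g b).card = 0 := by
    intro b _ hb
    rw [card_eq_zero]
    unfold Tb
    rw [filter_eq_empty_iff]
    intro p hp hpb
    apply hb
    rw [← hpb]
    have := hT p hp
    unfold Nat.Coprime at this ⊢
    rw [Nat.gcd_comm g (p % g), ← Nat.gcd_rec]
    exact this
  set Rs := (range g).filter (fun b => Nat.Coprime g b) with hRs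
  have h1 : Rg T g = ∑ b ∈ Rs, ((Tb T g b).card : ℝ) ^ 2 := by
    rw [Rg_eq T g hg, hRs, sum_filter_of_ne]
    intro b hb hne
    by_contra hc
    rw [hz b hb hc] at hne
    simp at hne
  have h2 : (T.card : ℝ) = ∑ b ∈ Rs, ((Tb T g b).card : ℝ) := by
    rw [hRs, sum_filter_of_ne]
    · exact_mod_cast card_eq T g hg
    · intro b hb hne
      by_contra hc
      rw [hz b hb hc] at hne
      simp at hne
  have h3 : (Rs.card : ℝ) = Nat.totient g := by
    rw [Nat.totient_eq_card_coprime]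
  have hphi : (0 : ℝ) < Nat.totient g := by exact_mod_cast Nat.totient_pos.2 hg
  have h4 : ∑ b ∈ Rs, (((Tb T g b).card : ℝ) - (T.card : ℝ) / Nat.totient g) ^ 2 =
      ∑ b ∈ Rs, ((Tb T g b).card : ℝ) ^ 2 -
        2 * ((T.card : ℝ) / Nat.totient g) * ∑ b ∈ Rs, ((Tb T g b).card : ℝ) +
        Rs.card * ((T.card : ℝ) / Nat.totient g) ^ 2 := by
    rw [mul_sum, ← nsmul_eq_mul, ← sum_const, ← sum_sub_distrib, ← sum_add_distrib]
    exact sum_congr rfl fun b _ => by ring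
  rw [h4, ← h2, ← h1, h3]
  field_simp
  ring

theorem var_le (T : Finset ℕ) (g : ℕ) (hg : 1 ≤ g) (hT : ∀ p ∈ T, Nat.Coprime g p) (E : ℝ)
    (hE : ∀ b ∈ range g, Nat.Coprime g b →
      |((Tb T g b).card : ℝ) - (T.card : ℝ) / Nat.totient g| ≤ E) :
    |Rg T g - (T.card : ℝ) ^ 2 / Nat.totient g| ≤ g * E ^ 2 := by
  rw [var_eq T g hg hT, abs_of_nonneg (sum_nonneg fun b _ => sq_nonneg _)]
  calc ∑ b ∈ (range g).filter (fun b => Nat.Coprime g b),
        (((Tb T g b).card : ℝ) - (T.card : ℝ) / Nat.totient g) ^ 2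
      ≤ ∑ b ∈ (range g).filter (fun b => Nat.Coprime g b), E ^ 2 := by
        refine sum_le_sum fun b hb => ?_
        rw [mem_filter] at hb
        rw [← sq_abs]
        exact pow_le_pow_left₀ (abs_nonneg _) (hE b hb.1 hb.2) 2
    _ = (((range g).filter (fun b => Nat.Coprime g b)).card : ℝ) * E ^ 2 := by
        rw [sum_const, nsmul_eq_mul]
    _ ≤ g * E ^ 2 := by
        apply mul_le_mul_of_nonneg_right _ (sq_nonneg _)
        have := card_filter_le (range g) (fun b => Nat.Coprime g b)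
        rw [card_range] at this
        exact_mod_cast this

theorem card_Pr (P P' : ℕ) (hPP : P ≤ P') : (piN P' : ℝ) = piN P + (Pr P P').card := by
  unfold piN Pr
  have h : (Icc 1 P').filter Nat.Prime = (Icc 1 P).filter Nat.Prime ∪ (Ioc P P').filter Nat.Prime := by
    ext p
    simp only [mem_filter, mem_Icc, mem_Ioc, mem_union]
    constructor
    · rintro ⟨⟨h1, h2⟩, h3⟩
      by_cases h4 : p ≤ P
      · exact Or.inl ⟨⟨h1, h4⟩, h3⟩
      · exact Or.inr ⟨⟨by omega, h2⟩, h3⟩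
    · rintro (⟨⟨h1, h2⟩, h3⟩ | ⟨⟨h1, h2⟩, h3⟩)
      · exact ⟨⟨h1, by omega⟩, h3⟩
      · exact ⟨⟨by omega, h2⟩, h3⟩
  have hd : Disjoint ((Icc 1 P).filter Nat.Prime) ((Ioc P P').filter Nat.Prime) := by
    rw [disjoint_left]
    intro p h1 h2
    simp only [mem_filter, mem_Icc, mem_Ioc] at h1 h2
    omega
  rw [h, card_union_of_disjoint hd]
  push_cast
  rfl

theorem card_Tb (P P' g b : ℕ) (hPP : P ≤ P') (hb : b < g) :
    (piAP P' g b : ℝ) = piAP P g b + (Tb (Pr P P') g b).card := by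
  unfold piAP Tb Pr
  have hmod : ∀ p : ℕ, p ≡ b [MOD g] ↔ p % g = b := by
    intro p
    unfold Nat.ModEq
    rw [Nat.mod_eq_of_lt hb]
  have h : (Icc 1 P').filter (fun p => p.Prime ∧ p ≡ b [MOD g]) =
      (Icc 1 P).filter (fun p => p.Prime ∧ p ≡ b [MOD g]) ∪
        ((Ioc P P').filter Nat.Prime).filter (fun p => p % g = b) := by
    ext p
    simp only [mem_filter, mem_Icc, mem_Ioc, mem_union, hmod]
    constructor
    · rintro ⟨⟨h1, h2⟩, h3, h5⟩
      by_cases h4 : p ≤ P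
      · exact Or.inl ⟨⟨h1, h4⟩, h3, h5⟩
      · exact Or.inr ⟨⟨⟨by omega, h2⟩, h3⟩, h5⟩
    · rintro (⟨⟨h1, h2⟩, h3, h5⟩ | ⟨⟨⟨h1, h2⟩, h3⟩, h5⟩)
      · exact ⟨⟨h1, by omega⟩, h3, h5⟩
      · exact ⟨⟨by omega, h2⟩, h3, h5⟩
  have hd : Disjoint ((Icc 1 P).filter (fun p => p.Prime ∧ p ≡ b [MOD g]))
      (((Ioc P P').filter Nat.Prime).filter (fun p => p % g = b)) := by
    rw [disjoint_left]
    intro p h1 h2
    simp only [mem_filter, mem_Icc, mem_Ioc] at h1 h2
    omega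
  rw [h, card_union_of_disjoint hd]
  push_cast
  rfl

theorem err_le {C : ℝ} {U : ℕ} (hsw : ∀ N : ℕ, 3 ≤ N → ∀ g b : ℕ, 1 ≤ g →
    (g : ℝ) ≤ (N : ℝ) ^ (2 / 5 : ℝ) → Nat.Coprime b g → |Er N g b| ≤ C * (N / Real.log N ^ U))
    (hC : 0 < C) (P P' g b : ℕ) (hP : 3 ≤ P) (hPP : P ≤ P') (hPP2 : P' ≤ 2 * P) (hg : 1 ≤ g)
    (hgP : (g : ℝ) ≤ (P : ℝ) ^ (2 / 5 : ℝ)) (hb : b < g) (hbg : Nat.Coprime b g) :
    |((Tb (Pr P P') g b).card : ℝ) - ((Pr P P').card : ℝ) / Nat.totient g| ≤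
      3 * C * (P / Real.log P ^ U) := by
  have hP0 : (0 : ℝ) < P := by exact_mod_cast (by omega : 0 < P)
  have hPr : (P : ℝ) ≤ P' := by exact_mod_cast hPP
  have hPr2 : (P' : ℝ) ≤ 2 * P := by exact_mod_cast hPP2
  have hl : 0 < Real.log P := Real.log_pos (by exact_mod_cast (by omega : 1 < P))
  have h1 := hsw P hP g b hg hgP hbg
  have h2 := hsw P' (by omega) g b hg
    (hgP.trans (Real.rpow_le_rpow hP0.le hPr (by norm_num))) hbg
  have e1 := card_Pr P P' hPP
  have e2 := card_Tb P P' g b hPP hb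
  have e3 : ((Tb (Pr P P') g b).card : ℝ) - ((Pr P P').card : ℝ) / Nat.totient g =
      Er P' g b - Er P g b := by
    unfold Er
    rw [e1, e2]
    ring
  rw [e3]
  have h3 : (P' : ℝ) / Real.log P' ^ U ≤ 2 * (P / Real.log P ^ U) := by
    rw [← mul_div_assoc]
    apply div_le_div₀ (by positivity) hPr2 (by positivity)
    exact pow_le_pow_left₀ hl.le (Real.log_le_log hP0 hPr) U
  calc |Er P' g b - Er P g b| ≤ |Er P' g b| + |Er P g b| := abs_sub _ _
    _ ≤ C * (P' / Real.log P' ^ U) + C * (P / Real.log P ^ U) := add_le_add h2 h1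
    _ ≤ C * (2 * (P / Real.log P ^ U)) + C * (P / Real.log P ^ U) := by gcongr
    _ = _ := by ring

/-- `9 ^ om g` is small -/
theorem om9 : ∃ C : ℝ, 0 < C ∧ ∀ g : ℕ, 1 ≤ g → (9 : ℝ) ^ om g ≤ C * (g : ℝ) ^ (1 / 4 : ℝ) := by
  obtain ⟨C, hC, h⟩ := Pool.Agent.H510R2.divisor_bound (1 / 16) (by norm_num)
  refine ⟨C ^ 4, by positivity, fun g hg => ?_⟩
  have h1 := h g hg
  have hg0 : (0 : ℝ) ≤ g := Nat.cast_nonneg _
  have h2 : 2 ^ om g ≤ g.divisors.card := by
    rw [Nat.card_divisors (by omega)]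
    unfold om
    rw [← prod_const]
    apply prod_le_prod' 
    intro p hp
    have hv : 1 ≤ g.factorization p := by
      rw [Nat.one_le_iff_ne_zero, ← Finsupp.mem_support_iff, Nat.support_factorization]
      exact hp
    omega
  have h3 : (2 : ℝ) ^ om g ≤ g.divisors.card := by exact_mod_cast h2
  calc (9 : ℝ) ^ om g ≤ (16 : ℝ) ^ om g := pow_le_pow_left₀ (by norm_num) (by norm_num) _
    _ = ((2 : ℝ) ^ om g) ^ 4 := by
        rw [← pow_mul, mul_comm, pow_mul]
        norm_num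
    _ ≤ (C * (g : ℝ) ^ (1 / 16 : ℝ)) ^ 4 := pow_le_pow_left₀ (by positivity) (h3.trans h1) 4
    _ = C ^ 4 * (g : ℝ) ^ (1 / 4 : ℝ) := by
        rw [mul_pow, ← Real.rpow_natCast ((g : ℝ) ^ (1 / 16 : ℝ)), ← Real.rpow_mul hg0]
        norm_num

theorem card_Pr_le (P P' : ℕ) (hPP2 : P' ≤ 2 * P) : ((Pr P P').card : ℝ) ≤ P := by
  have h : (Pr P P').card ≤ P := by
    unfold Pr
    refine (card_filter_le _ _).trans ?_
    rw [Nat.card_Ioc]
    omega
  exact_mod_cast h

/-- trivial bound -/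
theorem Rg_le (P P' g : ℕ) (hPP2 : P' ≤ 2 * P) (hPP : P ≤ P') (hg : 1 ≤ g) :
    Rg (Pr P P') g ≤ P * (P / g + 1) := by
  have hg0 : (0 : ℝ) < g := by exact_mod_cast hg
  have hclass : ∀ b : ℕ, ((Tb (Pr P P') g b).card : ℝ) ≤ P / g + 1 := by
    intro b
    by_cases hbg : b < g
    · have h1 : (Tb (Pr P P') g b).card ≤ ((Ioc P P').filter (fun x => x ≡ b [MOD g])).card := by
        apply card_le_card
        intro p hp
        unfold Tb Pr at hp
        simp only [mem_filter, mem_Ioc] at hp ⊢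
        refine ⟨hp.1.1, ?_⟩
        unfold Nat.ModEq
        rw [hp.2, Nat.mod_eq_of_lt hbg]
      have h2 := Nat.Ioc_filter_modEq_card P P' (r := g) (by omega) b
      have h3 : (((Ioc P P').filter (fun x => x ≡ b [MOD g])).card : ℝ) ≤ P / g + 1 := by
        have h4 : ((((Ioc P P').filter (fun x => x ≡ b [MOD g])).card : ℤ) : ℚ) ≤ P / g + 1 := by
          rw [h2]
          have hg0' : (0 : ℚ) < g := by exact_mod_cast hg
          have hPq : (P' : ℚ) ≤ 2 * P := by exact_mod_cast hPP2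
          rw [Int.cast_max]
          apply max_le
          · push_cast
            have e1 := Int.floor_le (((P' : ℚ) - b) / g)
            have e2 := Int.lt_floor_add_one (((P : ℚ) - b) / g)
            have e3 : ((P' : ℚ) - b) / g - ((P : ℚ) - b) / g ≤ P / g := by
              rw [← sub_div]
              apply div_le_div_of_nonneg_right _ hg0'.le
              linarith
            linarith
          · push_cast
            positivity
        have h5 : ((((Ioc P P').filter (fun x => x ≡ b [MOD g])).card : ℚ)) ≤ P / g + 1 := by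
          exact_mod_cast h4
        have h6 : (((((Ioc P P').filter (fun x => x ≡ b [MOD g])).card : ℚ)) : ℝ) ≤
            (((P / g + 1 : ℚ)) : ℝ) := by exact_mod_cast h5
        push_cast at h6
        exact h6
      have h1' : ((Tb (Pr P P') g b).card : ℝ) ≤
          (((Ioc P P').filter (fun x => x ≡ b [MOD g])).card : ℝ) := by exact_mod_cast h1
      exact h1'.trans h3
    · have : Tb (Pr P P') g b = ∅ := by
        unfold Tb
        rw [filter_eq_empty_iff]
        intro p _ hp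
        have := Nat.mod_lt p hg
        omega
      rw [this, card_empty]
      push_cast
      positivity
  rw [Rg_eq _ g hg]
  calc ∑ b ∈ range g, ((Tb (Pr P P') g b).card : ℝ) ^ 2
      ≤ ∑ b ∈ range g, ((Tb (Pr P P') g b).card : ℝ) * (P / g + 1) := by
        refine sum_le_sum fun b _ => ?_
        rw [sq]
        exact mul_le_mul_of_nonneg_left (hclass b) (Nat.cast_nonneg _)
    _ = ((Pr P P').card : ℝ) * (P / g + 1) := by
        rw [← sum_mul]
        congr 1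
        exact_mod_cast (card_eq (Pr P P') g hg).symm
    _ ≤ P * (P / g + 1) := by
        apply mul_le_mul_of_nonneg_right (card_Pr_le P P' hPP2)
        positivity

theorem diff_le (P P' g : ℕ) (hPP2 : P' ≤ 2 * P) (hPP : P ≤ P') (hg : 1 ≤ g) :
    |Rg (Pr P P') g - ((Pr P P').card : ℝ) ^ 2 / Nat.totient g| ≤
      P ^ 2 * (2 / Nat.totient g) + P := by
  have h1 := Rg_le P P' g hPP2 hPP hg
  have h0 : 0 ≤ Rg (Pr P P') g := Nat.cast_nonneg _
  have hphi : (0 : ℝ) < Nat.totient g := by exact_mod_cast Nat.totient_pos.2 hg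
  have hphig : (Nat.totient g : ℝ) ≤ g := by exact_mod_cast Nat.totient_le g
  have hn := card_Pr_le P P' hPP2
  have h2 : ((Pr P P').card : ℝ) ^ 2 / Nat.totient g ≤ P ^ 2 / Nat.totient g := by
    apply div_le_div_of_nonneg_right _ hphi.le
    exact pow_le_pow_left₀ (Nat.cast_nonneg _) hn 2
  have h3 : 0 ≤ ((Pr P P').card : ℝ) ^ 2 / Nat.totient g := by positivity
  have h4 : (P : ℝ) ^ 2 / g ≤ P ^ 2 / Nat.totient g :=
    div_le_div_of_nonneg_left (by positivity) hphi hphig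
  have h5 : (P : ℝ) * (P / g + 1) = P ^ 2 / g + P := by ring
  have h6 : (P : ℝ) ^ 2 * (2 / Nat.totient g) = P ^ 2 / Nat.totient g + P ^ 2 / Nat.totient g := by
    ring
  have h7 : 0 ≤ (P : ℝ) ^ 2 / Nat.totient g := by positivity
  have hP0 : (0 : ℝ) ≤ P := Nat.cast_nonneg _
  rw [abs_le]
  constructor <;> linarith

end TF8

open Finset in
theorem t_F8 (hF7 : P_F7) : P_F8 := by
  intro A
  obtain ⟨C7, hC7, hF7'⟩ := hF7.2
  obtain ⟨C9, hC9, h9⟩ := TF8.om9
  obtain ⟨Cφ, hCφ, hφ⟩ := Pool.Agent.H442R2.KF.TaskQ.inv_totient_le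
  obtain ⟨CU, hCU, hsw⟩ := TF8.sw (8 * A + A)
  -- the threshold
  have hev : ∀ᶠ x : ℝ in Filter.atTop, Real.log x ^ (4 * A) ≤ x ^ (2 / 5 : ℝ) := by
    have h := (isLittleO_log_rpow_rpow_atTop ((4 * A : ℕ) : ℝ)
      (show (0 : ℝ) < 2 / 5 by norm_num)).bound (show (0:ℝ) < 1 by norm_num)
    filter_upwards [h, Filter.eventually_ge_atTop (1:ℝ)] with x hx hx1
    rw [one_mul, Real.norm_eq_abs, Real.norm_eq_abs, Real.rpow_natCast,
      abs_of_nonneg (pow_nonneg (Real.log_nonneg hx1) _),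
      abs_of_nonneg (Real.rpow_nonneg (by linarith) _)] at hx
    exact hx
  obtain ⟨X0, hX0⟩ := Filter.eventually_atTop.1 hev
  set P0 : ℕ := max 3 ⌈X0⌉₊ with hP0
  have hsum : Summable (fun g : ℕ => ((g : ℝ) ^ (-(5 / 4) : ℝ))) :=
    Real.summable_nat_rpow.2 (by norm_num)
  set S : ℝ := ∑' g : ℕ, ((g : ℝ) ^ (-(5 / 4) : ℝ)) with hS
  have hS0 : 0 ≤ S := tsum_nonneg fun g => Real.rpow_nonneg (Nat.cast_nonneg _) _
  refine ⟨(9 * C9 * CU ^ 2 + 2 * C9 * Cφ) * S + (2 * P0 + 1) * C7 + 1, by positivity, ?_⟩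
  intro P P' D hP hPP hPP2 hD
  have hPr : (0 : ℝ) < P := by exact_mod_cast (by omega : 0 < P)
  have hP1 : (1 : ℝ) ≤ P := by exact_mod_cast (by omega : 1 ≤ P)
  have hlog : 1 ≤ Real.log P := Pool.Agent.H442R2.KF.TaskBV.log_ge_one hP
  have hlogD : 0 ≤ Real.log D := Real.log_natCast_nonneg D
  have hD9 := hF7' D hD
  have hD10 : (1 + Real.log D) ^ 9 ≤ (1 + Real.log D) ^ 10 :=
    pow_le_pow_right₀ (by linarith) (by norm_num)
  have hD9' : ∑ g ∈ Icc 1 D, (9 : ℝ) ^ om g / g ≤ C7 * (1 + Real.log D) ^ 10 :=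
    hD9.trans (mul_le_mul_of_nonneg_left hD10 hC7.le)
  have hLA : 0 < (P : ℝ) ^ 2 / Real.log P ^ A := by positivity
  have hPD : 0 < (P : ℝ) * (1 + Real.log D) ^ 10 := by positivity
  by_cases hbig : P0 ≤ P
  · -- large `P`
    have hXP : X0 ≤ P := by
      have h1 : (⌈X0⌉₊ : ℝ) ≤ P := by exact_mod_cast (le_max_right _ _).trans hbig
      exact (Nat.le_ceil X0).trans h1
    have hG := hX0 P hXP
    set L : ℝ := Real.log P with hL
    have hLpos : 0 < L := by linarith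
    have hLP : L ^ (4 * A) ≤ (P : ℝ) ^ (2 / 5 : ℝ) := hG
    have hPlt : (P : ℝ) ^ (2 / 5 : ℝ) ≤ P := by
      calc (P : ℝ) ^ (2 / 5 : ℝ) ≤ (P : ℝ) ^ (1 : ℝ) :=
            Real.rpow_le_rpow_of_exponent_le hP1 (by norm_num)
        _ = P := Real.rpow_one _
    -- each term
    have hterm : ∀ g ∈ Icc 1 D, (9 : ℝ) ^ om g / g *
        |Rg (Pr P P') g - ((Pr P P').card : ℝ) ^ 2 / Nat.totient g| ≤
        ((9 * C9 * CU ^ 2 + 2 * C9 * Cφ) * (P ^ 2 / L ^ A)) * (g : ℝ) ^ (-(5 / 4) : ℝ) +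
          P * ((9 : ℝ) ^ om g / g) := by
      intro g hg
      rw [mem_Icc] at hg
      have hg1 : (1 : ℝ) ≤ g := by exact_mod_cast hg.1
      have hg0 : (0 : ℝ) < g := by linarith
      have h9g := h9 g hg.1
      have hom0 : (0 : ℝ) < 9 ^ om g := by positivity
      have hr0 : 0 < (g : ℝ) ^ (-(5 / 4) : ℝ) := Real.rpow_pos_of_pos hg0 _
      have hpos2 : 0 ≤ P * ((9 : ℝ) ^ om g / g) := by positivity
      by_cases hgG : (g : ℝ) ≤ L ^ (4 * A)
      · -- small `g`
        have hgP : (g : ℝ) ≤ (P : ℝ) ^ (2 / 5 : ℝ) := hgG.trans hLP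
        have hgPn : g ≤ P := by exact_mod_cast hgP.trans hPlt
        have hcop : ∀ p ∈ Pr P P', Nat.Coprime g p := by
          intro p hp
          unfold Pr at hp
          simp only [mem_filter, mem_Ioc] at hp
          rw [Nat.coprime_comm, hp.2.coprime_iff_not_dvd]
          intro hdv
          have := Nat.le_of_dvd (by omega) hdv
          omega
        have hv := TF8.var_le (Pr P P') g hg.1 hcop (3 * CU * (P / L ^ (8 * A + A))) (by
          intro b hb hbc
          exact TF8.err_le hsw hCU P P' g b hP hPP hPP2 hg.1 hgP (mem_range.1 hb) hbc.symm)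
        have h1 : (9 : ℝ) ^ om g / g *
            |Rg (Pr P P') g - ((Pr P P').card : ℝ) ^ 2 / Nat.totient g| ≤
            (9 : ℝ) ^ om g * (3 * CU * (P / L ^ (8 * A + A))) ^ 2 := by
          calc (9 : ℝ) ^ om g / g *
              |Rg (Pr P P') g - ((Pr P P').card : ℝ) ^ 2 / Nat.totient g|
              ≤ (9 : ℝ) ^ om g / g * (g * (3 * CU * (P / L ^ (8 * A + A))) ^ 2) :=
                mul_le_mul_of_nonneg_left hv (by positivity)
            _ = _ := by field_simp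
        have h2 : (9 : ℝ) ^ om g ≤ C9 * (L ^ (4 * A)) ^ 3 * (g : ℝ) ^ (-(5 / 4) : ℝ) := by
          calc (9 : ℝ) ^ om g ≤ C9 * (g : ℝ) ^ (1 / 4 : ℝ) := h9g
            _ = C9 * ((g : ℝ) ^ (3 / 2 : ℝ) * (g : ℝ) ^ (-(5 / 4) : ℝ)) := by
                rw [← Real.rpow_add hg0]; norm_num
            _ ≤ C9 * ((L ^ (4 * A)) ^ 3 * (g : ℝ) ^ (-(5 / 4) : ℝ)) := by
                apply mul_le_mul_of_nonneg_left _ hC9.le
                apply mul_le_mul_of_nonneg_right _ hr0.le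
                calc (g : ℝ) ^ (3 / 2 : ℝ) ≤ (g : ℝ) ^ (3 : ℝ) :=
                      Real.rpow_le_rpow_of_exponent_le hg1 (by norm_num)
                  _ = (g : ℝ) ^ 3 := by norm_cast
                  _ ≤ (L ^ (4 * A)) ^ 3 := pow_le_pow_left₀ hg0.le hgG 3
            _ = _ := by ring
        have h3 : (L ^ (4 * A)) ^ 3 * (3 * CU * (P / L ^ (8 * A + A))) ^ 2 ≤
            9 * CU ^ 2 * (P ^ 2 / L ^ A) := by
          have e1 : (L ^ (4 * A)) ^ 3 * (3 * CU * (P / L ^ (8 * A + A))) ^ 2 =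
              9 * CU ^ 2 * (P ^ 2 / L ^ (6 * A)) := by
            have e2 : (L ^ (8 * A + A)) ^ 2 = L ^ (6 * A) * (L ^ (4 * A)) ^ 3 := by
              rw [← pow_mul, ← pow_mul, ← pow_add]
              congr 1
              ring
            rw [mul_pow, div_pow, e2]
            have hne : (L ^ (4 * A)) ^ 3 ≠ 0 := by positivity
            have hne2 : L ^ (6 * A) ≠ 0 := by positivity
            field_simp
            ring
          rw [e1]
          apply mul_le_mul_of_nonneg_left _ (by positivity)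
          apply div_le_div_of_nonneg_left (by positivity) (by positivity)
          exact pow_le_pow_right₀ hlog (by omega)
        calc (9 : ℝ) ^ om g / g *
              |Rg (Pr P P') g - ((Pr P P').card : ℝ) ^ 2 / Nat.totient g|
            ≤ (9 : ℝ) ^ om g * (3 * CU * (P / L ^ (8 * A + A))) ^ 2 := h1
          _ ≤ (C9 * (L ^ (4 * A)) ^ 3 * (g : ℝ) ^ (-(5 / 4) : ℝ)) *
                (3 * CU * (P / L ^ (8 * A + A))) ^ 2 :=
              mul_le_mul_of_nonneg_right h2 (sq_nonneg _)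
          _ = C9 * ((L ^ (4 * A)) ^ 3 * (3 * CU * (P / L ^ (8 * A + A))) ^ 2) *
                (g : ℝ) ^ (-(5 / 4) : ℝ) := by ring
          _ ≤ C9 * (9 * CU ^ 2 * (P ^ 2 / L ^ A)) * (g : ℝ) ^ (-(5 / 4) : ℝ) := by
              apply mul_le_mul_of_nonneg_right _ hr0.le
              exact mul_le_mul_of_nonneg_left h3 hC9.le
          _ ≤ _ := by
              have : 0 ≤ 2 * C9 * Cφ * (P ^ 2 / L ^ A) * (g : ℝ) ^ (-(5 / 4) : ℝ) := by
                positivity
              nlinarith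
      · -- large `g`
        push Not at hgG
        have hdiff := TF8.diff_le P P' g hPP2 hPP hg.1
        have hφg := hφ g hg.1
        have h1 : (9 : ℝ) ^ om g / g * (P ^ 2 * (2 / Nat.totient g)) ≤
            2 * C9 * Cφ * P ^ 2 * (g : ℝ) ^ (-(3 / 2) : ℝ) := by
          calc (9 : ℝ) ^ om g / g * (P ^ 2 * (2 / Nat.totient g))
              = 2 * P ^ 2 * ((9 : ℝ) ^ om g * (1 / Nat.totient g) / g) := by ring
            _ ≤ 2 * P ^ 2 * ((C9 * (g : ℝ) ^ (1 / 4 : ℝ)) * (Cφ * (g : ℝ) ^ (1 / 4 : ℝ) / g) / g) := by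
                apply mul_le_mul_of_nonneg_left _ (by positivity)
                apply div_le_div_of_nonneg_right _ hg0.le
                exact mul_le_mul h9g hφg (by positivity) (by positivity)
            _ = 2 * C9 * Cφ * P ^ 2 * (((g : ℝ) ^ (1 / 4 : ℝ) * (g : ℝ) ^ (1 / 4 : ℝ)) / (g * g)) := by
                ring
            _ = 2 * C9 * Cφ * P ^ 2 * (g : ℝ) ^ (-(3 / 2) : ℝ) := by
                congr 1
                rw [← Real.rpow_add hg0]
                have : (g : ℝ) * g = (g : ℝ) ^ (2 : ℝ) := by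
                  rw [← sq]; norm_cast
                rw [this, ← Real.rpow_sub hg0]
                norm_num
        have h2 : (g : ℝ) ^ (-(3 / 2) : ℝ) ≤ (1 / L ^ A) * (g : ℝ) ^ (-(5 / 4) : ℝ) := by
          have e1 : (g : ℝ) ^ (-(3 / 2) : ℝ) =
              (g : ℝ) ^ (-(1 / 4) : ℝ) * (g : ℝ) ^ (-(5 / 4) : ℝ) := by
            rw [← Real.rpow_add hg0]; norm_num
          rw [e1]
          apply mul_le_mul_of_nonneg_right _ hr0.le
          rw [Real.rpow_neg hg0.le, ← one_div]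
          apply one_div_le_one_div_of_le (by positivity)
          have e2 : L ^ A = (L ^ (4 * A)) ^ (1 / 4 : ℝ) := by
            rw [← Real.rpow_natCast, ← Real.rpow_natCast, ← Real.rpow_mul hLpos.le]
            congr 1
            push_cast
            ring
          rw [e2]
          exact Real.rpow_le_rpow (by positivity) hgG.le (by norm_num)
        calc (9 : ℝ) ^ om g / g *
              |Rg (Pr P P') g - ((Pr P P').card : ℝ) ^ 2 / Nat.totient g|
            ≤ (9 : ℝ) ^ om g / g * (P ^ 2 * (2 / Nat.totient g) + P) :=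
              mul_le_mul_of_nonneg_left hdiff (by positivity)
          _ = (9 : ℝ) ^ om g / g * (P ^ 2 * (2 / Nat.totient g)) + P * ((9 : ℝ) ^ om g / g) := by
              ring
          _ ≤ 2 * C9 * Cφ * P ^ 2 * ((1 / L ^ A) * (g : ℝ) ^ (-(5 / 4) : ℝ)) +
                P * ((9 : ℝ) ^ om g / g) := by
              have : 2 * C9 * Cφ * P ^ 2 * (g : ℝ) ^ (-(3 / 2) : ℝ) ≤
                  2 * C9 * Cφ * P ^ 2 * ((1 / L ^ A) * (g : ℝ) ^ (-(5 / 4) : ℝ)) :=
                mul_le_mul_of_nonneg_left h2 (by positivity)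
              linarith
          _ ≤ _ := by
              have e : 2 * C9 * Cφ * P ^ 2 * ((1 / L ^ A) * (g : ℝ) ^ (-(5 / 4) : ℝ)) =
                  (2 * C9 * Cφ * (P ^ 2 / L ^ A)) * (g : ℝ) ^ (-(5 / 4) : ℝ) := by ring
              have : 0 ≤ 9 * C9 * CU ^ 2 * (P ^ 2 / L ^ A) * (g : ℝ) ^ (-(5 / 4) : ℝ) := by
                positivity
              rw [e]
              nlinarith
    refine (sum_le_sum hterm).trans ?_
    rw [sum_add_distrib, ← mul_sum, ← mul_sum]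
    have hSle : ∑ g ∈ Icc 1 D, (g : ℝ) ^ (-(5 / 4) : ℝ) ≤ S :=
      hsum.sum_le_tsum _ (fun g _ => Real.rpow_nonneg (Nat.cast_nonneg _) _)
    have f1 : (9 * C9 * CU ^ 2 + 2 * C9 * Cφ) * (P ^ 2 / L ^ A) *
        ∑ g ∈ Icc 1 D, (g : ℝ) ^ (-(5 / 4) : ℝ) ≤
        (9 * C9 * CU ^ 2 + 2 * C9 * Cφ) * (P ^ 2 / L ^ A) * S :=
      mul_le_mul_of_nonneg_left hSle (by positivity)
    have f2 : (P : ℝ) * ∑ g ∈ Icc 1 D, (9 : ℝ) ^ om g / g ≤ P * (C7 * (1 + Real.log D) ^ 10) :=
      mul_le_mul_of_nonneg_left hD9' hPr.le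
    have f3 : 0 ≤ (9 * C9 * CU ^ 2 + 2 * C9 * Cφ) * S * (P * (1 + Real.log D) ^ 10) := by
      positivity
    have f4 : 0 ≤ ((2 * P0 + 1) * C7 + 1) * ((P : ℝ) ^ 2 / L ^ A) := by positivity
    have f5 : 0 ≤ ((2 * P0) * C7 + 1) * ((P : ℝ) * (1 + Real.log D) ^ 10) := by positivity
    nlinarith
  · -- small `P`
    push Not at hbig
    have hPP0 : (P : ℝ) ≤ P0 := by exact_mod_cast hbig.le
    have hterm : ∀ g ∈ Icc 1 D, (9 : ℝ) ^ om g / g *
        |Rg (Pr P P') g - ((Pr P P').card : ℝ) ^ 2 / Nat.totient g| ≤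
        ((2 * P0 + 1) * P) * ((9 : ℝ) ^ om g / g) := by
      intro g hg
      rw [mem_Icc] at hg
      have hdiff := TF8.diff_le P P' g hPP2 hPP hg.1
      have hphi : (1 : ℝ) ≤ Nat.totient g := by exact_mod_cast Nat.totient_pos.2 hg.1
      have h1 : (P : ℝ) ^ 2 * (2 / Nat.totient g) + P ≤ (2 * P0 + 1) * P := by
        have h2 : (2 : ℝ) / Nat.totient g ≤ 2 := by
          rw [div_le_iff₀ (by linarith)]
          linarith
        have h3 : (P : ℝ) ^ 2 * (2 / Nat.totient g) ≤ P ^ 2 * 2 :=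
          mul_le_mul_of_nonneg_left h2 (by positivity)
        nlinarith
      rw [mul_comm]
      exact mul_le_mul_of_nonneg_right (hdiff.trans h1) (by positivity)
    refine (sum_le_sum hterm).trans ?_
    rw [← mul_sum]
    have f2 : (2 * (P0 : ℝ) + 1) * P * ∑ g ∈ Icc 1 D, (9 : ℝ) ^ om g / g ≤
        (2 * (P0 : ℝ) + 1) * P * (C7 * (1 + Real.log D) ^ 10) :=
      mul_le_mul_of_nonneg_left hD9' (by positivity)
    have f3 : 0 ≤ ((9 * C9 * CU ^ 2 + 2 * C9 * Cφ) * S + 1) * (P * (1 + Real.log D) ^ 10) := by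
      positivity
    have f4 : 0 ≤ ((9 * C9 * CU ^ 2 + 2 * C9 * Cφ) * S + (2 * P0 + 1) * C7 + 1) *
        ((P : ℝ) ^ 2 / Real.log P ^ A) := by positivity
    nlinarith

end Pool.Agent.H262R4.FR
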