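import Mathlib
import Pool.Agent.H262R4.FR.Stubs

/-!
FR project, task FR (helper330): the frame (assembly).
-/

set_option autoImplicit false

namespace Pool.Agent.H262R4.FR

open Finset

namespace TFR

/-- powers of the logarithm against powers -/
theorem logpow (n : ℕ) (c : ℝ) (hc : 0 < c) :
    ∃ C : ℝ, 0 < C ∧ ∀ X : ℝ, 1 ≤ X → Real.log X ^ n ≤ C * X ^ c := by
  refine ⟨n.factorial / c ^ n, by positivity, fun X hX => ?_⟩
  have hL : 0 ≤ Real.log X := Real.log_nonneg hX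
  have h1 := Real.pow_div_factorial_le_exp (c * Real.log X) (by positivity) n
  have h2 : Real.exp (c * Real.log X) = X ^ c := by
    rw [Real.rpow_def_of_pos (by linarith), mul_comm]
  rw [h2, mul_pow, div_le_iff₀ (by positivity)] at h1
  rw [div_mul_eq_mul_div, le_div_iff₀ (by positivity)]
  linarith

/-- main term of the second and third sums for one pair -/
noncomputable def Mt (T : Finset ℕ) (Y d1 d2 : ℕ) : ℝ :=
  (Y : ℝ) * ((T.card : ℝ) ^ 2 - 2 * (T.card : ℝ) * nd T d1) /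
        ((Nat.lcm d1 d2 : ℝ) * Nat.totient (Nat.gcd d1 d2))

theorem split (h3 : P_F3) (a : ℤ) (lam : ℕ → ℝ) (S T : Finset ℕ) (Y : ℕ) (hY : 1 ≤ Y) :
    VV a lam S T Y = OFF a lam S T Y +
      (∑ d1 ∈ S, ∑ d2 ∈ S, ∑ p1 ∈ T, ∑ p2 ∈ T,
        if good d1 d2 p1 p2 then 0 else lam d1 * lam d2 * S11 a Y d1 d2 p1 p2) +
      ((∑ d1 ∈ S, ∑ d2 ∈ S, lam d1 * lam d2 *
        (-(2 * ((T.card : ℝ) / Nat.totient d2) * (∑ p1 ∈ T, S12 a Y d1 p1 d2)) +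
        (T.card : ℝ) ^ 2 / (Nat.totient d1 * Nat.totient d2) * S22 Y d1 d2)) -
      (∑ d1 ∈ S, ∑ d2 ∈ S, lam d1 * lam d2 * Mt T Y d1 d2)) +
      ∑ d1 ∈ S, ∑ d2 ∈ S, lam d1 * lam d2 *
        ((∑ p1 ∈ T, ∑ p2 ∈ T, if good d1 d2 p1 p2 then mn Y d1 d2 p1 p2 else 0) +
          Mt T Y d1 d2) := by
  rw [h3 a lam S T Y hY]
  unfold OFF
  simp only [← sum_add_distrib, ← sum_sub_distrib]
  apply sum_congr rfl
  intro d1 _
  apply sum_congr rfl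
  intro d2 _
  have e : lam d1 * lam d2 * (∑ p1 ∈ T, ∑ p2 ∈ T, S11 a Y d1 d2 p1 p2) =
      (∑ p1 ∈ T, ∑ p2 ∈ T, ((if good d1 d2 p1 p2 then
        lam d1 * lam d2 * (S11 a Y d1 d2 p1 p2 - mn Y d1 d2 p1 p2) else 0) +
        (if good d1 d2 p1 p2 then 0 else lam d1 * lam d2 * S11 a Y d1 d2 p1 p2))) +
      lam d1 * lam d2 *
        (∑ p1 ∈ T, ∑ p2 ∈ T, if good d1 d2 p1 p2 then mn Y d1 d2 p1 p2 else 0) := by
    rw [mul_sum, mul_sum, ← sum_add_distrib]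
    apply sum_congr rfl
    intro p1 _
    rw [mul_sum, mul_sum, ← sum_add_distrib]
    apply sum_congr rfl
    intro p2 _
    split_ifs <;> ring
  simp only [sum_add_distrib] at e ⊢
  linear_combination e

theorem abs_lam (lam : ℕ → ℝ) (hl : ∀ d, |lam d| ≤ 3 ^ om d) (d1 d2 : ℕ) (x y : ℝ)
    (hxy : |x| ≤ y) : |lam d1 * lam d2 * x| ≤ (3 : ℝ) ^ om d1 * 3 ^ om d2 * y := by
  rw [abs_mul, abs_mul]
  have h1 := hl d1
  have h2 := hl d2
  have h3 : 0 ≤ |lam d1| := abs_nonneg _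
  have h4 : 0 ≤ |lam d2| := abs_nonneg _
  have h5 : 0 ≤ |x| := abs_nonneg _
  gcongr

end TFR

theorem t_FR (h3 : P_F3) (h4 : P_F4) (h5 : P_F5) (h6 : P_F6) (h7 : P_F7) (h8 : P_F8) :
    P_FR := by
  intro a ha A ρ0 hρ0
  obtain ⟨C4, hC4, H4⟩ := h4 a ha ρ0 hρ0
  obtain ⟨C5, hC5, H5⟩ := h5 a ha ρ0 hρ0
  obtain ⟨C6, hC6, H6⟩ := h6 a ha ρ0 hρ0
  obtain ⟨⟨C7, hC7, H7⟩, ⟨C7', hC7', H7'⟩⟩ := h7
  obtain ⟨C8, hC8, H8⟩ := h8 (A + 6)
  obtain ⟨K1, hK1, G1⟩ := TFR.logpow (16 + A) ρ0 hρ0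
  obtain ⟨K2, hK2, G2⟩ := TFR.logpow A (ρ0 / 2) (by positivity)
  obtain ⟨K3, hK3, G3⟩ := TFR.logpow A (34 / 100) (by norm_num)
  refine ⟨C5 * K2 + C4 * K3 + C7 * (64 * C8 * (ρ0 ^ (A + 6))⁻¹ + 2 ^ 16 * C8 * K1 +
    2 ^ 15 * (C6 * C7') * K1), by positivity, ?_⟩
  intro Y P P' D S lam hs
  have hY : 3 ≤ Y := hs.hY
  have hP : 3 ≤ P := hs.hP
  have hYR : (3 : ℝ) ≤ Y := by exact_mod_cast hY
  have hPR : (3 : ℝ) ≤ P := by exact_mod_cast hP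
  set X : ℝ := (Y : ℝ) * P with hX
  have hX9 : 9 ≤ X := by rw [hX]; nlinarith
  have hX0 : 0 < X := by linarith
  have hX1 : 1 ≤ X := by linarith
  set L : ℝ := Real.log X with hL
  have hL1 : 1 ≤ L := by
    rw [hL, Real.le_log_iff_exp_le hX0]
    have := Real.exp_one_lt_d9
    linarith
  have hL0 : 0 < L := by linarith
  have hLA : 0 < L ^ A := by positivity
  -- the case of an empty set
  rcases Nat.eq_zero_or_pos D with hD0 | hD0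
  · have hS : S = ∅ := by
      rw [Finset.eq_empty_iff_forall_notMem]
      intro d hd
      have := hs.hS d hd
      omega
    subst hS
    have : VV a lam ∅ (Pr P P') Y = 0 := by simp [VV, Dl]
    rw [this]
    positivity
  have hD1 : (1 : ℝ) ≤ D := by exact_mod_cast hD0
  -- size of log D
  have hlD : 1 + Real.log D ≤ 2 * L := by
    have h1 : (D : ℝ) ≤ X := by
      refine hs.hD.trans ?_
      calc X ^ (29 / 50 : ℝ) ≤ X ^ (1 : ℝ) := Real.rpow_le_rpow_of_exponent_le hX1 (by norm_num)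
        _ = X := Real.rpow_one X
    have h2 : Real.log D ≤ L := Real.log_le_log (by linarith) h1
    linarith
  have hlD0 : 0 ≤ 1 + Real.log D := by
    have := Real.log_nonneg hD1
    linarith
  -- size of log P
  have hP0 : X ^ ρ0 ≤ P := hs.hP0
  have hlP : ρ0 * L ≤ Real.log P := by
    have h1 := Real.log_le_log (by positivity) hP0
    rwa [Real.log_rpow hX0] at h1
  set T := Pr P P' with hT
  set n : ℝ := (T.card : ℝ) with hn
  set Fg : ℕ → ℝ := fun g => |Rg T g - n ^ 2 / Nat.totient g| + C6 * P with hFg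
  have hFg0 : ∀ g, 0 ≤ Fg g := fun g => by
    simp only [hFg]
    positivity
  -- the four parts
  have hsplit := TFR.split h3 a lam S T Y (by omega)
  have B1 := H5 Y P P' D S lam hs
  have B2 := H4 Y P P' D S lam hs
  have B3 : |∑ d1 ∈ S, ∑ d2 ∈ S, lam d1 * lam d2 *
        ((∑ p1 ∈ T, ∑ p2 ∈ T, if good d1 d2 p1 p2 then mn Y d1 d2 p1 p2 else 0) +
          TFR.Mt T Y d1 d2)| ≤
      (Y : ℝ) * (C7 * (1 + Real.log D) ^ 6 * ∑ g ∈ Icc 1 D, (9 : ℝ) ^ om g / g * Fg g) := by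
    have hsub : S ⊆ Icc 1 D := by
      intro d hd
      have := hs.hS d hd
      rw [mem_Icc]
      omega
    have hnn : ∀ d1 d2 : ℕ, 0 ≤ (3 : ℝ) ^ om d1 * 3 ^ om d2 / (Nat.lcm d1 d2 : ℝ) *
        Fg (Nat.gcd d1 d2) := fun d1 d2 => by
      have := hFg0 (Nat.gcd d1 d2)
      positivity
    calc _ ≤ ∑ d1 ∈ S, ∑ d2 ∈ S, (Y : ℝ) * ((3 : ℝ) ^ om d1 * 3 ^ om d2 / (Nat.lcm d1 d2 : ℝ) *
          Fg (Nat.gcd d1 d2)) := by
          refine (abs_sum_le_sum_abs _ _).trans (sum_le_sum fun d1 hd1 => ?_)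
          refine (abs_sum_le_sum_abs _ _).trans (sum_le_sum fun d2 hd2 => ?_)
          have h9 := TFR.abs_lam lam hs.hl d1 d2 _ _ (H6 Y P P' D S lam hs d1 hd1 d2 hd2)
          refine h9.trans (le_of_eq ?_)
          simp only [hFg, hn, hT]
          ring
      _ ≤ ∑ d1 ∈ Icc 1 D, ∑ d2 ∈ Icc 1 D, (Y : ℝ) * ((3 : ℝ) ^ om d1 * 3 ^ om d2 /
          (Nat.lcm d1 d2 : ℝ) * Fg (Nat.gcd d1 d2)) := by
          refine (sum_le_sum_of_subset_of_nonneg hsub fun d1 _ _ => ?_).trans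
            (sum_le_sum fun d1 _ => ?_)
          · exact sum_nonneg fun d2 _ => mul_nonneg (Nat.cast_nonneg _) (hnn d1 d2)
          · exact sum_le_sum_of_subset_of_nonneg hsub fun d2 _ _ =>
              mul_nonneg (Nat.cast_nonneg _) (hnn d1 d2)
      _ = (Y : ℝ) * ∑ d1 ∈ Icc 1 D, ∑ d2 ∈ Icc 1 D, (3 : ℝ) ^ om d1 * 3 ^ om d2 /
          (Nat.lcm d1 d2 : ℝ) * Fg (Nat.gcd d1 d2) := by
          simp only [mul_sum]
      _ ≤ _ := mul_le_mul_of_nonneg_left (H7 D Fg hD0 hFg0) (Nat.cast_nonneg _)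
  -- the sum over g
  have B4 : ∑ g ∈ Icc 1 D, (9 : ℝ) ^ om g / g * Fg g ≤
      C8 * ((P : ℝ) ^ 2 / Real.log P ^ (A + 6) + (P : ℝ) * (1 + Real.log D) ^ 10) +
        C6 * P * (C7' * (1 + Real.log D) ^ 9) := by
    have e1 : ∑ g ∈ Icc 1 D, (9 : ℝ) ^ om g / g * Fg g =
        (∑ g ∈ Icc 1 D, (9 : ℝ) ^ om g / g * |Rg T g - n ^ 2 / Nat.totient g|) +
        C6 * P * ∑ g ∈ Icc 1 D, (9 : ℝ) ^ om g / g := by
      rw [mul_sum, ← sum_add_distrib]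
      apply sum_congr rfl
      intro g _
      simp only [hFg]
      ring
    rw [e1]
    have h9 := H8 P P' D hP hs.hPP hs.hPP2 hD0
    have h10 := mul_le_mul_of_nonneg_left (H7' D hD0) (show 0 ≤ C6 * (P : ℝ) by positivity)
    exact add_le_add h9 h10
  -- numerical estimates
  have E1 : X ^ (-(ρ0 / 2)) ≤ K2 / L ^ A := by
    rw [le_div_iff₀ hLA, Real.rpow_neg hX0.le, inv_mul_le_iff₀ (by positivity)]
    have := G2 X hX1
    linarith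
  have E2 : X ^ (13 / 20 : ℝ) ≤ K3 * Y / L ^ A := by
    rw [le_div_iff₀ hLA]
    have h9 : X ^ (99 / 100 : ℝ) ≤ Y := by
      have h10 : (P : ℝ) ≤ X ^ (1 / 100 : ℝ) := hs.hP1
      have h11 : X = X ^ (99 / 100 : ℝ) * X ^ (1 / 100 : ℝ) := by
        rw [← Real.rpow_add hX0]
        norm_num
      have h12 : X ^ (99 / 100 : ℝ) * P ≤ Y * P := by
        calc X ^ (99 / 100 : ℝ) * P ≤ X ^ (99 / 100 : ℝ) * X ^ (1 / 100 : ℝ) :=
              mul_le_mul_of_nonneg_left h10 (by positivity)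
          _ = Y * P := by rw [← h11]
      exact le_of_mul_le_mul_right h12 (by linarith)
    calc X ^ (13 / 20 : ℝ) * L ^ A ≤ X ^ (13 / 20 : ℝ) * (K3 * X ^ (34 / 100 : ℝ)) :=
          mul_le_mul_of_nonneg_left (G3 X hX1) (by positivity)
      _ = K3 * X ^ (99 / 100 : ℝ) := by
          have : X ^ (99 / 100 : ℝ) = X ^ (13 / 20 : ℝ) * X ^ (34 / 100 : ℝ) := by
            rw [← Real.rpow_add hX0]
            norm_num
          rw [this]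
          ring
      _ ≤ K3 * Y := mul_le_mul_of_nonneg_left h9 hK3.le
  have E3 : L ^ 16 ≤ K1 * P / L ^ A := by
    rw [le_div_iff₀ hLA, ← pow_add]
    exact (G1 X hX1).trans (mul_le_mul_of_nonneg_left hP0 hK1.le)
  have E4 : L ^ 15 ≤ K1 * P / L ^ A := (pow_le_pow_right₀ hL1 (by norm_num)).trans E3
  have E5 : L ^ 6 * ((P : ℝ) ^ 2 / Real.log P ^ (A + 6)) ≤
      (ρ0 ^ (A + 6))⁻¹ * ((P : ℝ) ^ 2 / L ^ A) := by
    have h9 : (ρ0 * L) ^ (A + 6) ≤ Real.log P ^ (A + 6) :=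
      pow_le_pow_left₀ (by positivity) hlP _
    calc L ^ 6 * ((P : ℝ) ^ 2 / Real.log P ^ (A + 6)) ≤
          L ^ 6 * ((P : ℝ) ^ 2 / (ρ0 * L) ^ (A + 6)) := by gcongr
      _ = _ := by
          rw [mul_pow, pow_add L A 6]
          field_simp
  have B5 : C7 * (1 + Real.log D) ^ 6 * ∑ g ∈ Icc 1 D, (9 : ℝ) ^ om g / g * Fg g ≤
      C7 * (64 * C8 * (ρ0 ^ (A + 6))⁻¹ + 2 ^ 16 * C8 * K1 + 2 ^ 15 * (C6 * C7') * K1) *
        ((P : ℝ) ^ 2 / L ^ A) := by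
    have hlP0 : 0 ≤ Real.log P := Real.log_nonneg (by linarith)
    calc _ ≤ C7 * (2 * L) ^ 6 * (C8 * ((P : ℝ) ^ 2 / Real.log P ^ (A + 6) +
          (P : ℝ) * (2 * L) ^ 10) + C6 * P * (C7' * (2 * L) ^ 9)) := by
          apply mul_le_mul
          · gcongr
          · refine B4.trans ?_
            gcongr
          · exact sum_nonneg fun g _ => mul_nonneg (by positivity) (hFg0 g)
          · positivity
      _ = C7 * (64 * C8 * (L ^ 6 * ((P : ℝ) ^ 2 / Real.log P ^ (A + 6))) +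
          2 ^ 16 * C8 * (P * L ^ 16) + 2 ^ 15 * (C6 * C7') * (P * L ^ 15)) := by ring
      _ ≤ C7 * (64 * C8 * ((ρ0 ^ (A + 6))⁻¹ * ((P : ℝ) ^ 2 / L ^ A)) +
          2 ^ 16 * C8 * (P * (K1 * P / L ^ A)) + 2 ^ 15 * (C6 * C7') * (P * (K1 * P / L ^ A))) := by
          gcongr
      _ = _ := by ring
  -- conclusion
  have B1' : C5 * (Y : ℝ) * (P : ℝ) ^ 2 * X ^ (-(ρ0 / 2)) ≤
      C5 * K2 * (Y * ((P : ℝ) ^ 2 / L ^ A)) := by
    calc _ ≤ C5 * (Y : ℝ) * (P : ℝ) ^ 2 * (K2 / L ^ A) := by gcongr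
      _ = _ := by ring
  have B2' : C4 * (P : ℝ) ^ 2 * X ^ (13 / 20 : ℝ) ≤
      C4 * K3 * (Y * ((P : ℝ) ^ 2 / L ^ A)) := by
    calc _ ≤ C4 * (P : ℝ) ^ 2 * (K3 * Y / L ^ A) := by gcongr
      _ = _ := by ring
  have B3' := B3.trans (mul_le_mul_of_nonneg_left B5 (Nat.cast_nonneg Y))
  have A0 := le_abs_self (OFF a lam S T Y)
  have A1 := (le_abs_self _).trans B1
  have A2 := (le_abs_self _).trans B2
  have A3 := (le_abs_self _).trans B3'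
  rw [hsplit]
  have fin : (C5 * K2 + C4 * K3 + C7 * (64 * C8 * (ρ0 ^ (A + 6))⁻¹ + 2 ^ 16 * C8 * K1 +
      2 ^ 15 * (C6 * C7') * K1)) * (Y : ℝ) * (P : ℝ) ^ 2 / L ^ A =
      C5 * K2 * (Y * ((P : ℝ) ^ 2 / L ^ A)) + C4 * K3 * (Y * ((P : ℝ) ^ 2 / L ^ A)) +
      (Y : ℝ) * (C7 * (64 * C8 * (ρ0 ^ (A + 6))⁻¹ + 2 ^ 16 * C8 * K1 + 2 ^ 15 * (C6 * C7') * K1) *
        ((P : ℝ) ^ 2 / L ^ A)) := by ring
  rw [fin]
  have A2' : (∑ d1 ∈ S, ∑ d2 ∈ S, lam d1 * lam d2 *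
        (-(2 * ((T.card : ℝ) / Nat.totient d2) * (∑ p1 ∈ T, S12 a Y d1 p1 d2)) +
        (T.card : ℝ) ^ 2 / (Nat.totient d1 * Nat.totient d2) * S22 Y d1 d2)) -
      (∑ d1 ∈ S, ∑ d2 ∈ S, lam d1 * lam d2 * TFR.Mt T Y d1 d2) ≤
      C4 * (P : ℝ) ^ 2 * X ^ (13 / 20 : ℝ) := A2
  linarith

end Pool.Agent.H262R4.FR
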