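import Pool.Agent.H262R4.FR.Stubs
import Pool.Agent.H305R2.MertensM

/-! Task LW: the mass of the primes in `(x^ρ0, x^ρ]`. -/

set_option autoImplicit false

namespace Pool.Agent.H262R4.FR

open Finset Filter Topology

namespace TLW

lemma mass_eq (P P' : ℕ) (h : P ≤ P') : mass (Pr P P') =
    (∑ p ∈ (Finset.Icc 1 P').filter Nat.Prime, (1 : ℝ) / p) -
    ∑ p ∈ (Finset.Icc 1 P).filter Nat.Prime, (1 : ℝ) / p := by
  have hd : (Finset.Icc 1 P').filter Nat.Prime =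
      (Finset.Icc 1 P).filter Nat.Prime ∪ Pr P P' := by
    ext p
    simp only [Pr, mem_union, mem_filter, mem_Icc, mem_Ioc]
    constructor
    · rintro ⟨⟨h1, h2⟩, h3⟩
      rcases le_or_gt p P with h4 | h4
      · exact Or.inl ⟨⟨h1, h4⟩, h3⟩
      · exact Or.inr ⟨⟨h4, h2⟩, h3⟩
    · rintro (⟨⟨h1, h2⟩, h3⟩ | ⟨⟨h1, h2⟩, h3⟩)
      · exact ⟨⟨h1, by omega⟩, h3⟩
      · exact ⟨⟨by omega, h2⟩, h3⟩
  have hdis : Disjoint ((Finset.Icc 1 P).filter Nat.Prime) (Pr P P') := by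
    rw [Finset.disjoint_left]
    intro p h1 h2
    simp only [Pr, mem_filter, mem_Icc, mem_Ioc] at h1 h2
    omega
  rw [hd, Finset.sum_union hdis]
  unfold mass
  ring

/-- bounds for `log ⌊x^r⌋` -/
lemma log_floor (L r : ℝ) (x : ℕ) (hx : 1 ≤ x) (hL : L = Real.log x)
    (h : 2 ≤ r * L) :
    r * L / 2 ≤ Real.log (⌊(x : ℝ) ^ r⌋₊ : ℝ) ∧ Real.log (⌊(x : ℝ) ^ r⌋₊ : ℝ) ≤ r * L := by
  have hx0 : (0 : ℝ) < x := by exact_mod_cast hx
  have hpos : (0 : ℝ) < (x : ℝ) ^ r := Real.rpow_pos_of_pos hx0 r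
  have hlog : Real.log ((x : ℝ) ^ r) = r * L := by rw [Real.log_rpow hx0, hL]
  have h2 : (2 : ℝ) ≤ (x : ℝ) ^ r := by
    have : (2 : ℝ) ≤ Real.exp (r * L) := by
      have := Real.add_one_le_exp (r * L)
      linarith
    rwa [← hlog, Real.exp_log hpos] at this
  have hfl : (x : ℝ) ^ r / 2 ≤ (⌊(x : ℝ) ^ r⌋₊ : ℝ) := by
    have := Nat.sub_one_lt_floor ((x : ℝ) ^ r)
    linarith
  have hfu : (⌊(x : ℝ) ^ r⌋₊ : ℝ) ≤ (x : ℝ) ^ r := Nat.floor_le hpos.le
  have hfpos : (0 : ℝ) < (⌊(x : ℝ) ^ r⌋₊ : ℝ) := lt_of_lt_of_le (by positivity) hfl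
  constructor
  · have h3 : Real.log ((x : ℝ) ^ r / 2) ≤ Real.log (⌊(x : ℝ) ^ r⌋₊ : ℝ) :=
      Real.log_le_log (by positivity) hfl
    rw [Real.log_div hpos.ne' (by norm_num), hlog] at h3
    have := Real.log_two_lt_d9
    linarith
  · have h3 := Real.log_le_log hfpos hfu
    rwa [hlog] at h3

end TLW

open TLW in
theorem t_LW : P_LW := by
  intro K ρ hρ
  obtain ⟨M, hM⟩ := Pool.Agent.H305R2.mertens_inv_tendsto
  -- eventually within 1
  have hev : ∀ᶠ N : ℕ in atTop, |(∑ p ∈ (Finset.Icc 1 N).filter Nat.Prime, (1 : ℝ) / p -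
      Real.log (Real.log N)) - M| < 1 := by
    have := (Metric.tendsto_nhds.1 hM) 1 one_pos
    filter_upwards [this] with N hN
    rwa [Real.dist_eq] at hN
  obtain ⟨N0, hN0⟩ := eventually_atTop.1 hev
  set E : ℝ := |K| + 3 with hE
  have hE3 : 3 ≤ E := by have := abs_nonneg K; linarith
  set ρ0 : ℝ := ρ * Real.exp (-E) with hρ0
  have hρ0pos : 0 < ρ0 := mul_pos hρ (Real.exp_pos _)
  have hρ0lt : ρ0 < ρ := by
    have : Real.exp (-E) < 1 := by
      rw [Real.exp_lt_one_iff]; linarith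
    calc ρ0 = ρ * Real.exp (-E) := rfl
      _ < ρ * 1 := mul_lt_mul_of_pos_left this hρ
      _ = ρ := mul_one ρ
  -- choose x0
  have ht : Tendsto (fun x : ℕ => ρ0 * Real.log (x : ℝ)) atTop atTop :=
    (Real.tendsto_log_atTop.comp tendsto_natCast_atTop_atTop).const_mul_atTop hρ0pos
  have hev2 : ∀ᶠ x : ℕ in atTop, 2 * Real.log (N0 + 1) + 2 ≤ ρ0 * Real.log (x : ℝ) :=
    ht.eventually_ge_atTop _
  obtain ⟨x1, hx1⟩ := eventually_atTop.1 hev2
  refine ⟨ρ0, E + 3, max x1 1, hρ0pos, hρ0lt, ?_⟩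
  intro x hx
  have hx1' : x1 ≤ x := le_trans (le_max_left _ _) hx
  have hxp : 1 ≤ x := le_trans (le_max_right _ _) hx
  have hb := hx1 x hx1'
  set L : ℝ := Real.log (x : ℝ) with hL
  have hlN : 0 ≤ Real.log ((N0 : ℝ) + 1) := Real.log_nonneg (by
    have : (0 : ℝ) ≤ N0 := Nat.cast_nonneg _
    linarith)
  have hL2 : 2 ≤ ρ0 * L := by linarith
  have hLpos : 0 < L := by
    by_contra hcon
    push Not at hcon
    nlinarith
  have hL3 : ρ0 * L ≤ ρ * L := mul_le_mul_of_nonneg_right hρ0lt.le hLpos.le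
  obtain ⟨a1, a2⟩ := log_floor L ρ0 x hxp hL hL2
  obtain ⟨b1, b2⟩ := log_floor L ρ x hxp hL (by linarith)
  set N1 := ⌊(x : ℝ) ^ ρ0⌋₊ with hN1
  set N2 := ⌊(x : ℝ) ^ ρ⌋₊ with hN2
  have hx1r : (1 : ℝ) ≤ x := by exact_mod_cast hxp
  have hN12 : N1 ≤ N2 := Nat.floor_le_floor (Real.rpow_le_rpow_of_exponent_le hx1r hρ0lt.le)
  -- N1 ≥ N0
  have hlogN1 : Real.log ((N0 : ℝ) + 1) < Real.log (N1 : ℝ) := by linarith
  have hN1pos : (0 : ℝ) < (N1 : ℝ) := by
    by_contra hcon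
    push Not at hcon
    have : (N1 : ℝ) = 0 := le_antisymm hcon (Nat.cast_nonneg _)
    rw [this, Real.log_zero] at hlogN1
    linarith
  have hN10 : N0 ≤ N1 := by
    have h1 : (N0 : ℝ) + 1 < N1 := by
      by_contra hcon
      push Not at hcon
      have := Real.log_le_log hN1pos hcon
      linarith
    have h2 : (N0 : ℝ) ≤ N1 := by linarith
    exact_mod_cast h2
  have c1 := abs_lt.1 (hN0 N1 hN10)
  have c2 := abs_lt.1 (hN0 N2 (hN10.trans hN12))
  rw [mass_eq N1 N2 hN12]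
  -- loglog
  have hpos1 : 0 < Real.log (N1 : ℝ) := by linarith
  have hpos2 : 0 < Real.log (N2 : ℝ) := by linarith
  have hlogρ0 : Real.log ρ0 = Real.log ρ - E := by
    rw [hρ0, Real.log_mul hρ.ne' (Real.exp_pos _).ne', Real.log_exp]; ring
  have hl2 : Real.log 2 < 1 := by have := Real.log_two_lt_d9; linarith
  have d1 : Real.log ρ0 + Real.log L - Real.log 2 ≤ Real.log (Real.log (N1 : ℝ)) := by
    have := Real.log_le_log (by positivity) a1
    rwa [Real.log_div (by positivity) (by norm_num), Real.log_mul hρ0pos.ne' hLpos.ne'] at this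
  have d2 : Real.log (Real.log (N1 : ℝ)) ≤ Real.log ρ0 + Real.log L := by
    have := Real.log_le_log hpos1 a2
    rwa [Real.log_mul hρ0pos.ne' hLpos.ne'] at this
  have e1 : Real.log ρ + Real.log L - Real.log 2 ≤ Real.log (Real.log (N2 : ℝ)) := by
    have := Real.log_le_log (by positivity) b1
    rwa [Real.log_div (by positivity) (by norm_num), Real.log_mul hρ.ne' hLpos.ne'] at this
  have e2 : Real.log (Real.log (N2 : ℝ)) ≤ Real.log ρ + Real.log L := by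
    have := Real.log_le_log hpos2 b2
    rwa [Real.log_mul hρ.ne' hLpos.ne'] at this
  have hK : K ≤ |K| := le_abs_self K
  constructor
  · linarith [c1.1, c1.2, c2.1, c2.2]
  · linarith [c1.1, c1.2, c2.1, c2.2]

end Pool.Agent.H262R4.FR
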