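import Pool.Agent.H262R4.FR.Stubs

/-! MT: the Moebius function in arithmetic progressions, assembly (helper493) -/

namespace Pool.Agent.H262R4.FR

open Finset

namespace TMT

/-- the moduli -/
noncomputable def SS (a : ℤ) (D : ℕ) : Finset ℕ :=
  (Ioc D (2 * D)).filter (fun d : ℕ => Int.gcd a d = 1)

theorem mem_SS {a : ℤ} {D d : ℕ} (h : d ∈ SS a D) : D < d ∧ d ≤ 2 * D ∧ Int.gcd a d = 1 := by
  rw [SS, Finset.mem_filter, Finset.mem_Ioc] at h
  exact ⟨h.1.1, h.1.2, h.2⟩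

/-- numbers in a class -/
theorem cnt_le (a : ℤ) (d p u v : ℕ) (hd : 1 ≤ d) (ha : Int.gcd a d = 1) (huv : u ≤ v) :
    (((Ioc u v).filter (fun m : ℕ => (d : ℤ) ∣ (m : ℤ) * p - a)).card : ℝ) ≤
      ((v : ℝ) - u) / d + 1 := by
  have huv' : (u : ℝ) ≤ v := by exact_mod_cast huv
  have hd' : (0 : ℝ) < d := by exact_mod_cast hd
  rcases Finset.eq_empty_or_nonempty ((Ioc u v).filter
    (fun m : ℕ => (d : ℤ) ∣ (m : ℤ) * p - a)) with h | ⟨m0, hm0⟩
  · rw [h, Finset.card_empty]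
    have : 0 ≤ ((v : ℝ) - u) / d := div_nonneg (by linarith) hd'.le
    push_cast
    linarith
  · rw [Finset.mem_filter] at hm0
    obtain ⟨k, hk⟩ := hm0.2
    have hco : IsCoprime (p : ℤ) (d : ℤ) := by
      have h1 : IsCoprime a (d : ℤ) := Int.isCoprime_iff_gcd_eq_one.2 ha
      obtain ⟨s, t, hst⟩ := h1
      refine ⟨s * m0, t - s * k, ?_⟩
      have h2 : a = (m0 : ℤ) * p - d * k := by linarith
      calc s * m0 * p + (t - s * k) * d = s * ((m0 : ℤ) * p - d * k) + t * d := by ring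
        _ = 1 := by rw [← h2]; exact hst
    have hsub : (Ioc u v).filter (fun m : ℕ => (d : ℤ) ∣ (m : ℤ) * p - a) ⊆
        (Ioc u v).filter (fun m : ℕ => m ≡ m0 [MOD d]) := by
      intro m hm
      rw [Finset.mem_filter] at hm ⊢
      refine ⟨hm.1, ?_⟩
      rw [← Int.natCast_modEq_iff, Int.modEq_iff_dvd]
      have h1 : (d : ℤ) ∣ ((m0 : ℤ) - m) * p := by
        have h2 := dvd_sub hm0.2 hm.2
        have h3 : (m0 : ℤ) * p - a - ((m : ℤ) * p - a) = ((m0 : ℤ) - m) * p := by ring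
        rwa [h3] at h2
      exact hco.symm.dvd_of_dvd_mul_right h1
    have hcard := Nat.Ioc_filter_modEq_card u v (r := d) hd m0
    have hle := Finset.card_le_card hsub
    have hq : (((Ioc u v).filter (fun m : ℕ => m ≡ m0 [MOD d])).card : ℚ) ≤
        ((v : ℚ) - u) / d + 1 := by
      have hdq : (0 : ℚ) < d := by exact_mod_cast hd
      have huq : (u : ℚ) ≤ v := by exact_mod_cast huv
      set A : ℚ := ((v : ℚ) - m0) / (d : ℚ) with hA
      set B : ℚ := ((u : ℚ) - m0) / (d : ℚ) with hB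
      have hAB : A - B = ((v : ℚ) - u) / d := by
        rw [hA, hB, ← sub_div]
        congr 1
        ring
      have f1 := Int.floor_le A
      have f4 := Int.lt_floor_add_one B
      have h0 : (0 : ℚ) ≤ ((v : ℚ) - u) / d := div_nonneg (by linarith) hdq.le
      have h5 : (((Ioc u v).filter (fun m : ℕ => m ≡ m0 [MOD d])).card : ℚ) =
          ((max (⌊A⌋ - ⌊B⌋) 0 : ℤ) : ℚ) := by exact_mod_cast hcard
      rw [h5, Int.cast_max]
      refine max_le ?_ (by push_cast; linarith)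
      push_cast
      rw [← hAB]
      linarith
    have h6 : (((Ioc u v).filter (fun m : ℕ => m ≡ m0 [MOD d])).card : ℝ) ≤
        ((v : ℝ) - u) / d + 1 := by
      have := (Rat.cast_le (K := ℝ)).2 hq
      push_cast at this
      exact this
    have h7 : (((Ioc u v).filter (fun m : ℕ => (d : ℤ) ∣ (m : ℤ) * p - a)).card : ℝ) ≤
        (((Ioc u v).filter (fun m : ℕ => m ≡ m0 [MOD d])).card : ℝ) := by exact_mod_cast hle
    linarith

theorem sum_Ii (a : ℤ) (d p : ℕ) (s : Finset ℕ) :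
    ∑ m ∈ s, Ii a d p m = ((s.filter (fun m : ℕ => (d : ℤ) ∣ (m : ℤ) * p - a)).card : ℝ) := by
  unfold Ii
  rw [← Finset.sum_filter, Finset.sum_const, nsmul_eq_mul, mul_one]

theorem Ii_nonneg (a : ℤ) (d p : ℕ) (m : ℤ) : 0 ≤ Ii a d p m := by
  unfold Ii; split_ifs <;> norm_num

theorem sum_div_le (a : ℤ) (D : ℕ) (hD : 1 ≤ D) (A B : ℝ) (hA : 0 ≤ A) (hB : 0 ≤ B) :
    ∑ d ∈ SS a D, (A / d + B) ≤ A + B * D := by
  have hD' : (0 : ℝ) < D := by exact_mod_cast hD
  have h1 : ∀ d ∈ SS a D, A / d + B ≤ A / D + B := by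
    intro d hd
    have h2 := (mem_SS hd).1
    have h3 : (D : ℝ) ≤ d := by exact_mod_cast h2.le
    have := div_le_div_of_nonneg_left hA hD' h3
    linarith
  refine (Finset.sum_le_sum h1).trans ?_
  rw [Finset.sum_const, nsmul_eq_mul]
  have h4 : ((SS a D).card : ℝ) ≤ D := by
    have : (SS a D).card ≤ (Ioc D (2 * D)).card := Finset.card_filter_le _ _
    rw [Nat.card_Ioc] at this
    have h5 : (SS a D).card ≤ D := by omega
    exact_mod_cast h5
  have h6 : 0 ≤ A / D + B := by positivity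
  calc ((SS a D).card : ℝ) * (A / D + B) ≤ D * (A / D + B) := mul_le_mul_of_nonneg_right h4 h6
    _ = A + B * D := by field_simp

theorem mu_abs (m : ℕ) : |((ArithmeticFunction.moebius m : ℤ) : ℝ)| ≤ 1 := by
  have := ArithmeticFunction.abs_moebius_le_one (n := m)
  exact_mod_cast this

/-- one block -/
theorem block (a : ℤ) (x D P P' : ℕ) (κ ε' E : ℝ) (hκ : 0 ≤ κ) (hε' : 0 ≤ ε') (hP : 1 ≤ P)
    (hD : 1 ≤ D) (hPP : P ≤ P') (hκP : (P' : ℝ) ≤ (1 + κ) * P)
    (hdisp : ∑ d ∈ (Ioc D (2 * D)).filter (fun d : ℕ => Int.gcd a d = 1),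
      |∑ m ∈ Icc 1 (x / P'), ((ArithmeticFunction.moebius m : ℤ) : ℝ) * (∑ p ∈ Pr P P', Ii a d p m -
        Cc d m * ((Pr P P').card : ℝ) / (Nat.totient d : ℝ))| ≤ E)
    (hmu : ∑ d ∈ Ioc D (2 * D), (1 / (Nat.totient d : ℝ)) *
      |∑ m ∈ (Icc 1 (x / P')).filter (fun m => Nat.Coprime m d),
        (ArithmeticFunction.moebius m : ℝ)| ≤ ε' * ((x / P' : ℕ) : ℝ)) :
    ∑ d ∈ SS a D,
      |∑ p ∈ Pr P P', ∑ m ∈ Icc 1 (x / p), ((ArithmeticFunction.moebius m : ℤ) : ℝ) *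
        Ii a d p m| ≤
    (κ + ε') * x * mass (Pr P P') + 2 * D * (Pr P P').card + E := by
  have hPmem : ∀ p ∈ Pr P P', P < p ∧ p ≤ P' := by
    intro p hp
    rw [Pr, Finset.mem_filter, Finset.mem_Ioc] at hp
    exact hp.1
  set M := x / P' with hM
  have hx0 : (0 : ℝ) ≤ x := Nat.cast_nonneg x
  have hMp : ∀ p ∈ Pr P P', M ≤ x / p := fun p hp =>
    Nat.div_le_div_left (hPmem p hp).2 (by have := (hPmem p hp).1; omega)
  -- splitting of the inner sum
  have hsplit : ∀ d ∈ SS a D, |∑ p ∈ Pr P P', ∑ m ∈ Icc 1 (x / p),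
      ((ArithmeticFunction.moebius m : ℤ) : ℝ) * Ii a d p m| ≤
      |∑ m ∈ Icc 1 M, ((ArithmeticFunction.moebius m : ℤ) : ℝ) * (∑ p ∈ Pr P P', Ii a d p m -
        Cc d m * ((Pr P P').card : ℝ) / (Nat.totient d : ℝ))| +
      ((Pr P P').card : ℝ) * ((1 / (Nat.totient d : ℝ)) *
        |∑ m ∈ (Icc 1 M).filter (fun m => Nat.Coprime m d),
          (ArithmeticFunction.moebius m : ℝ)|) +
      ∑ p ∈ Pr P P', (κ * x / p / d + 2) := by
    intro d hd
    obtain ⟨hd1, hd2, hd3⟩ := mem_SS hd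
    have hd0 : 1 ≤ d := by omega
    have hdr : (1 : ℝ) ≤ d := by exact_mod_cast hd0
    have e1 : ∀ p ∈ Pr P P', ∑ m ∈ Icc 1 (x / p),
        ((ArithmeticFunction.moebius m : ℤ) : ℝ) * Ii a d p m =
        ∑ m ∈ Icc 1 M, ((ArithmeticFunction.moebius m : ℤ) : ℝ) * Ii a d p m +
        ∑ m ∈ Ioc M (x / p), ((ArithmeticFunction.moebius m : ℤ) : ℝ) * Ii a d p m := by
      intro p hp
      have h1 : ∀ n, Icc 1 n = Ioc 0 n := fun n => by
        ext y; rw [Finset.mem_Icc, Finset.mem_Ioc]; omega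
      rw [h1, h1, Finset.sum_Ioc_consecutive _ (Nat.zero_le _) (hMp p hp)]
    rw [Finset.sum_congr rfl e1, Finset.sum_add_distrib]
    have e2 : ∑ p ∈ Pr P P', ∑ m ∈ Icc 1 M, ((ArithmeticFunction.moebius m : ℤ) : ℝ) *
        Ii a d p m = ∑ m ∈ Icc 1 M, ((ArithmeticFunction.moebius m : ℤ) : ℝ) *
        (∑ p ∈ Pr P P', Ii a d p m - Cc d m * ((Pr P P').card : ℝ) / (Nat.totient d : ℝ)) +
        ((Pr P P').card : ℝ) * ((1 / (Nat.totient d : ℝ)) *
        ∑ m ∈ (Icc 1 M).filter (fun m => Nat.Coprime m d),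
          (ArithmeticFunction.moebius m : ℝ)) := by
      rw [Finset.sum_comm, Finset.sum_filter, Finset.mul_sum, Finset.mul_sum,
        ← Finset.sum_add_distrib]
      refine Finset.sum_congr rfl fun m _ => ?_
      rw [← Finset.mul_sum]
      have h3 : Cc d (m : ℤ) = if Nat.Coprime m d then 1 else 0 := by
        unfold Cc
        rw [Int.gcd_natCast_natCast]
      rw [h3]
      split_ifs <;> ring
    rw [e2]
    have e3 : |∑ p ∈ Pr P P', ∑ m ∈ Ioc M (x / p), ((ArithmeticFunction.moebius m : ℤ) : ℝ) *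
        Ii a d p m| ≤ ∑ p ∈ Pr P P', (κ * x / p / d + 2) := by
      refine (Finset.abs_sum_le_sum_abs _ _).trans (Finset.sum_le_sum fun p hp => ?_)
      have hp1 : (0 : ℝ) < p := by
        have := (hPmem p hp).1
        exact_mod_cast (by omega : 0 < p)
      calc |∑ m ∈ Ioc M (x / p), ((ArithmeticFunction.moebius m : ℤ) : ℝ) * Ii a d p m|
          ≤ ∑ m ∈ Ioc M (x / p), Ii a d p m := by
            refine (Finset.abs_sum_le_sum_abs _ _).trans (Finset.sum_le_sum fun m _ => ?_)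
            rw [abs_mul, abs_of_nonneg (Ii_nonneg a d p m)]
            exact mul_le_of_le_one_left (Ii_nonneg a d p m) (mu_abs m)
        _ ≤ (((x / p : ℕ) : ℝ) - M) / d + 1 := by
            rw [sum_Ii]
            exact cnt_le a d p M (x / p) hd0 hd3 (hMp p hp)
        _ ≤ (κ * x / p + 1) / d + 1 := by
            have h1 : ((x / p : ℕ) : ℝ) ≤ (x : ℝ) / p := Nat.cast_div_le
            have hP'0 : (0 : ℝ) < P' := by exact_mod_cast (by omega : 0 < P')
            have h2 : (x : ℝ) / P' ≤ (M : ℝ) + 1 := by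
              have h8 := Nat.lt_mul_div_succ x (show 0 < P' by omega)
              rw [div_le_iff₀ hP'0]
              have h9 : (x : ℝ) ≤ P' * ((x / P' : ℕ) + 1) := by exact_mod_cast h8.le
              rw [hM]
              linarith
            have h3 : (P' : ℝ) ≤ (1 + κ) * p := by
              have : (P : ℝ) ≤ p := by exact_mod_cast (hPmem p hp).1.le
              nlinarith
            have h4 : (x : ℝ) / p ≤ (1 + κ) * (x / P') := by
              rw [← mul_div_assoc, div_le_div_iff₀ hp1 hP'0]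
              nlinarith
            have h5 : (x : ℝ) / P' ≤ x / p := by
              apply div_le_div_of_nonneg_left hx0 hp1
              exact_mod_cast (hPmem p hp).2
            have h6 : (x : ℝ) / p - M ≤ κ * x / p + 1 := by
              have : (x : ℝ) / p ≤ x / P' + κ * (x / p) := by nlinarith
              have h7 : κ * (x / p) = κ * (x : ℝ) / p := by ring
              linarith
            gcongr
            linarith
        _ ≤ κ * x / p / d + 2 := by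
            rw [add_div]
            have : (1 : ℝ) / d ≤ 1 := by
              rw [div_le_one (by linarith)]
              exact hdr
            linarith
    refine (abs_add_le _ _).trans (add_le_add ((abs_add_le _ _).trans (add_le_add le_rfl ?_)) e3)
    rw [abs_mul, abs_mul, abs_of_nonneg (Nat.cast_nonneg _), abs_of_nonneg (by positivity)]
  refine (Finset.sum_le_sum hsplit).trans ?_
  rw [Finset.sum_add_distrib, Finset.sum_add_distrib, ← Finset.mul_sum]
  have f1 : ∑ d ∈ SS a D, |∑ m ∈ Icc 1 M, ((ArithmeticFunction.moebius m : ℤ) : ℝ) *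
      (∑ p ∈ Pr P P', Ii a d p m -
        Cc d m * ((Pr P P').card : ℝ) / (Nat.totient d : ℝ))| ≤ E := hdisp
  have f2 : ((Pr P P').card : ℝ) * ∑ d ∈ SS a D, ((1 / (Nat.totient d : ℝ)) *
        |∑ m ∈ (Icc 1 M).filter (fun m => Nat.Coprime m d),
          (ArithmeticFunction.moebius m : ℝ)|) ≤ ε' * x * mass (Pr P P') := by
    have h1 : ∑ d ∈ SS a D, ((1 / (Nat.totient d : ℝ)) *
        |∑ m ∈ (Icc 1 M).filter (fun m => Nat.Coprime m d),
          (ArithmeticFunction.moebius m : ℝ)|) ≤ ε' * M := by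
      refine le_trans (Finset.sum_le_sum_of_subset_of_nonneg (Finset.filter_subset _ _) ?_) hmu
      intro d _ _
      positivity
    have h2 : ((Pr P P').card : ℝ) * M ≤ x * mass (Pr P P') := by
      rw [mass, Finset.mul_sum, Finset.card_eq_sum_ones]
      push_cast
      rw [Finset.sum_mul]
      refine Finset.sum_le_sum fun p hp => ?_
      have hp1 : (0 : ℝ) < p := by
        have := (hPmem p hp).1
        exact_mod_cast (by omega : 0 < p)
      have h3 : (M : ℝ) ≤ ((x / p : ℕ) : ℝ) := by exact_mod_cast hMp p hp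
      have h4 : ((x / p : ℕ) : ℝ) ≤ (x : ℝ) / p := Nat.cast_div_le
      rw [one_mul, mul_one_div]
      linarith
    calc ((Pr P P').card : ℝ) * ∑ d ∈ SS a D, ((1 / (Nat.totient d : ℝ)) *
        |∑ m ∈ (Icc 1 M).filter (fun m => Nat.Coprime m d),
          (ArithmeticFunction.moebius m : ℝ)|) ≤ ((Pr P P').card : ℝ) * (ε' * M) :=
          mul_le_mul_of_nonneg_left h1 (Nat.cast_nonneg _)
      _ = ε' * (((Pr P P').card : ℝ) * M) := by ring
      _ ≤ ε' * (x * mass (Pr P P')) := mul_le_mul_of_nonneg_left h2 hε'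
      _ = ε' * x * mass (Pr P P') := by ring
  have f3 : ∑ d ∈ SS a D, ∑ p ∈ Pr P P', (κ * x / p / d + 2) ≤
      κ * x * mass (Pr P P') + 2 * D * (Pr P P').card := by
    rw [Finset.sum_comm, mass, Finset.mul_sum, Finset.card_eq_sum_ones]
    push_cast
    rw [Finset.mul_sum, ← Finset.sum_add_distrib]
    refine Finset.sum_le_sum fun p hp => ?_
    have := sum_div_le a D hD (κ * x / p) 2 (by positivity) (by norm_num)
    rw [mul_one_div, mul_one]
    exact this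
  linarith

theorem mu_mul (m p : ℕ) (hp : p.Prime) : ((ArithmeticFunction.moebius (m * p) : ℤ) : ℝ) =
    -((ArithmeticFunction.moebius m : ℤ) : ℝ) +
      (if p ∣ m then ((ArithmeticFunction.moebius m : ℤ) : ℝ) else 0) := by
  split_ifs with h
  · have h1 : ¬ Squarefree (m * p) := by
      intro hs
      have h2 := hs p (Nat.mul_dvd_mul h (dvd_refl p))
      exact hp.one_lt.ne' (Nat.isUnit_iff.1 h2)
    rw [ArithmeticFunction.moebius_eq_zero_of_not_squarefree h1]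
    simp
  · have h1 : Nat.Coprime m p := ((Nat.Prime.coprime_iff_not_dvd hp).2 h).symm
    rw [ArithmeticFunction.isMultiplicative_moebius.map_mul_of_coprime h1,
      ArithmeticFunction.moebius_apply_prime hp]
    simp

theorem fub (a : ℤ) (x d : ℕ) (T : Finset ℕ) (hT : ∀ p ∈ T, p.Prime) :
    ∑ n ∈ (Icc 1 x).filter (fun n : ℕ => (d : ℤ) ∣ (n : ℤ) - a),
      ((ArithmeticFunction.moebius n : ℤ) : ℝ) * omW T n =
    ∑ p ∈ T, ∑ m ∈ Icc 1 (x / p), ((ArithmeticFunction.moebius (m * p) : ℤ) : ℝ) *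
      Ii a d p m := by
  have h1 : ∀ n, omW T n = ∑ p ∈ T, if p ∣ n then (1 : ℝ) else 0 := by
    intro n
    unfold omW
    rw [Finset.card_filter]
    push_cast
    rfl
  simp_rw [h1, Finset.mul_sum]
  rw [Finset.sum_comm]
  refine Finset.sum_congr rfl fun p hp => ?_
  have hp0 : 0 < p := (hT p hp).pos
  unfold Ii
  simp_rw [mul_ite, mul_one, mul_zero]
  rw [← Finset.sum_filter, ← Finset.sum_filter]
  symm
  refine Finset.sum_nbij (fun m => m * p) ?_ ?_ ?_ ?_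
  · intro m hm
    rw [Finset.mem_filter, Finset.mem_Icc] at hm
    rw [Finset.mem_filter, Finset.mem_filter, Finset.mem_Icc]
    refine ⟨⟨⟨Nat.mul_pos hm.1.1 hp0, ?_⟩, ?_⟩, Dvd.intro_left _ rfl⟩
    · exact (Nat.le_div_iff_mul_le hp0).1 hm.1.2
    · push_cast
      exact hm.2
  · intro m _ m' _ h
    exact Nat.eq_of_mul_eq_mul_right hp0 h
  · intro n hn
    rw [Finset.mem_coe, Finset.mem_filter, Finset.mem_filter, Finset.mem_Icc] at hn
    obtain ⟨⟨⟨hn1, hn2⟩, hn3⟩, k, hk⟩ := hn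
    refine ⟨k, ?_, ?_⟩
    · rw [Finset.mem_coe, Finset.mem_filter, Finset.mem_Icc]
      refine ⟨⟨?_, ?_⟩, ?_⟩
      · rcases Nat.eq_zero_or_pos k with h | h
        · rw [h] at hk; omega
        · exact h
      · rw [Nat.le_div_iff_mul_le hp0]
        rw [hk] at hn2
        linarith [Nat.mul_comm p k]
      · rw [hk] at hn3
        push_cast at hn3
        rwa [mul_comm] at hn3
    · simp only
      rw [hk, mul_comm]
  · intro m _
    rfl

theorem sq_term (a : ℤ) (d p x : ℕ) (hd : 1 ≤ d) (ha : Int.gcd a d = 1) (hp : 1 ≤ p) :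
    ∑ m ∈ Icc 1 (x / p), (if p ∣ m then Ii a d p m else 0) ≤ (x : ℝ) / p / p / d + 1 := by
  unfold Ii
  rw [← Finset.sum_filter, ← Finset.sum_filter, Finset.filter_filter, Finset.sum_const,
    nsmul_eq_mul, mul_one]
  have h1 : ((Icc 1 (x / p)).filter (fun m : ℕ => p ∣ m ∧ (d : ℤ) ∣ (m : ℤ) * p - a)).card ≤
      ((Ioc 0 (x / p / p)).filter
        (fun m : ℕ => (d : ℤ) ∣ (m : ℤ) * (p * p : ℕ) - a)).card := by
    refine Finset.card_le_card_of_injOn (fun m => m / p) ?_ ?_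
    · intro m hm
      rw [Finset.mem_coe, Finset.mem_filter, Finset.mem_Icc] at hm
      rw [Finset.mem_coe, Finset.mem_filter, Finset.mem_Ioc]
      obtain ⟨⟨hm1, hm2⟩, ⟨k, hk⟩, hm4⟩ := hm
      have hk2 : m / p = k := by rw [hk]; exact Nat.mul_div_cancel_left k hp
      simp only
      rw [hk2]
      refine ⟨⟨?_, ?_⟩, ?_⟩
      · rcases Nat.eq_zero_or_pos k with h | h
        · rw [h] at hk; omega
        · exact h
      · rw [Nat.le_div_iff_mul_le hp]
        calc k * p = m := by rw [hk]; ring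
          _ ≤ x / p := hm2
      · rw [hk] at hm4
        push_cast at hm4 ⊢
        have : (k : ℤ) * (p * p) = p * k * p := by ring
        rw [this]
        exact hm4
    · intro m hm m' hm' h
      rw [Finset.mem_coe, Finset.mem_filter] at hm hm'
      simp only at h
      rw [← Nat.div_mul_cancel hm.2.1, h, Nat.div_mul_cancel hm'.2.1]
  have h2 := cnt_le a d (p * p) 0 (x / p / p) hd ha (Nat.zero_le _)
  have h3 : ((x / p / p : ℕ) : ℝ) ≤ (x : ℝ) / p / p := by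
    refine (Nat.cast_div_le (α := ℝ)).trans ?_
    have : ((x / p : ℕ) : ℝ) ≤ (x : ℝ) / p := Nat.cast_div_le
    exact div_le_div_of_nonneg_right this (Nat.cast_nonneg _)
  have h4 : (((x / p / p : ℕ) : ℝ) - (0 : ℕ)) / d ≤ (x : ℝ) / p / p / d := by
    rw [Nat.cast_zero, sub_zero]
    exact div_le_div_of_nonneg_right h3 (Nat.cast_nonneg _)
  have h5 : (((Icc 1 (x / p)).filter
      (fun m : ℕ => p ∣ m ∧ (d : ℤ) ∣ (m : ℤ) * p - a)).card : ℝ) ≤
      (((Ioc 0 (x / p / p)).filter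
        (fun m : ℕ => (d : ℤ) ∣ (m : ℤ) * (p * p : ℕ) - a)).card : ℝ) := by exact_mod_cast h1
  linarith

theorem perd (a : ℤ) (x d : ℕ) (T : Finset ℕ) (hT : ∀ p ∈ T, p.Prime) (hd : 1 ≤ d)
    (ha : Int.gcd a d = 1) (hm : 0 ≤ mass T) :
    mass T * |∑ n ∈ (Icc 1 x).filter (fun n : ℕ => (d : ℤ) ∣ (n : ℤ) - a),
      ((ArithmeticFunction.moebius n : ℤ) : ℝ)| ≤
    |∑ p ∈ T, ∑ m ∈ Icc 1 (x / p), ((ArithmeticFunction.moebius m : ℤ) : ℝ) * Ii a d p m| +
      ∑ p ∈ T, ((x : ℝ) / p / p / d + 1) +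
      ∑ n ∈ (Icc 1 x).filter (fun n : ℕ => (d : ℤ) ∣ (n : ℤ) - a), |omW T n - mass T| := by
  have h1 : mass T * ∑ n ∈ (Icc 1 x).filter (fun n : ℕ => (d : ℤ) ∣ (n : ℤ) - a),
      ((ArithmeticFunction.moebius n : ℤ) : ℝ) =
      -(∑ p ∈ T, ∑ m ∈ Icc 1 (x / p), ((ArithmeticFunction.moebius m : ℤ) : ℝ) * Ii a d p m) +
      ∑ p ∈ T, ∑ m ∈ Icc 1 (x / p), ((ArithmeticFunction.moebius m : ℤ) : ℝ) *
        (if p ∣ m then Ii a d p m else 0) -
      ∑ n ∈ (Icc 1 x).filter (fun n : ℕ => (d : ℤ) ∣ (n : ℤ) - a),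
        ((ArithmeticFunction.moebius n : ℤ) : ℝ) * (omW T n - mass T) := by
    have h2 : ∑ n ∈ (Icc 1 x).filter (fun n : ℕ => (d : ℤ) ∣ (n : ℤ) - a),
        ((ArithmeticFunction.moebius n : ℤ) : ℝ) * (omW T n - mass T) =
        ∑ n ∈ (Icc 1 x).filter (fun n : ℕ => (d : ℤ) ∣ (n : ℤ) - a),
        ((ArithmeticFunction.moebius n : ℤ) : ℝ) * omW T n -
        mass T * ∑ n ∈ (Icc 1 x).filter (fun n : ℕ => (d : ℤ) ∣ (n : ℤ) - a),
        ((ArithmeticFunction.moebius n : ℤ) : ℝ) := by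
      rw [Finset.mul_sum, ← Finset.sum_sub_distrib]
      exact Finset.sum_congr rfl fun n _ => by ring
    have h3 : ∑ p ∈ T, ∑ m ∈ Icc 1 (x / p), ((ArithmeticFunction.moebius (m * p) : ℤ) : ℝ) *
        Ii a d p m = -(∑ p ∈ T, ∑ m ∈ Icc 1 (x / p),
          ((ArithmeticFunction.moebius m : ℤ) : ℝ) * Ii a d p m) +
        ∑ p ∈ T, ∑ m ∈ Icc 1 (x / p), ((ArithmeticFunction.moebius m : ℤ) : ℝ) *
        (if p ∣ m then Ii a d p m else 0) := by
      rw [← Finset.sum_neg_distrib, ← Finset.sum_add_distrib]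
      refine Finset.sum_congr rfl fun p hp => ?_
      rw [← Finset.sum_neg_distrib, ← Finset.sum_add_distrib]
      refine Finset.sum_congr rfl fun m _ => ?_
      rw [mu_mul m p (hT p hp)]
      split_ifs <;> ring
    rw [h2, fub a x d T hT, h3]
    ring
  have h4 : mass T * |∑ n ∈ (Icc 1 x).filter (fun n : ℕ => (d : ℤ) ∣ (n : ℤ) - a),
      ((ArithmeticFunction.moebius n : ℤ) : ℝ)| =
      |mass T * ∑ n ∈ (Icc 1 x).filter (fun n : ℕ => (d : ℤ) ∣ (n : ℤ) - a),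
      ((ArithmeticFunction.moebius n : ℤ) : ℝ)| := by
    rw [abs_mul, abs_of_nonneg hm]
  rw [h4, h1]
  refine (abs_sub _ _).trans (add_le_add ((abs_add_le _ _).trans (add_le_add ?_ ?_)) ?_)
  · rw [abs_neg]
  · refine (Finset.abs_sum_le_sum_abs _ _).trans (Finset.sum_le_sum fun p hp => ?_)
    refine le_trans ?_ (sq_term a d p x hd ha (hT p hp).pos)
    refine (Finset.abs_sum_le_sum_abs _ _).trans (Finset.sum_le_sum fun m _ => ?_)
    have h5 : 0 ≤ (if p ∣ m then Ii a d p m else 0) := by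
      split_ifs
      · exact Ii_nonneg a d p m
      · exact le_refl _
    rw [abs_mul, abs_of_nonneg h5]
    exact mul_le_of_le_one_left h5 (mu_abs m)
  · refine (Finset.abs_sum_le_sum_abs _ _).trans (Finset.sum_le_sum fun n _ => ?_)
    rw [abs_mul]
    exact mul_le_of_le_one_left (abs_nonneg _) (mu_abs n)

theorem tk_term (a : ℤ) (x d : ℕ) (T : Finset ℕ) (CT : ℝ) (hCT : 0 ≤ CT) (hd : 1 ≤ d)
    (hdx : d ≤ x) (ha : Int.gcd a d = 1) (hm : 0 ≤ mass T)
    (h : ∑ n ∈ (Icc 1 x).filter (fun n : ℕ => (d : ℤ) ∣ (n : ℤ) - a),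
      (omW T n - mass T) ^ 2 ≤ CT * ((x : ℝ) / d) * (mass T + 1)) :
    ∑ n ∈ (Icc 1 x).filter (fun n : ℕ => (d : ℤ) ∣ (n : ℤ) - a), |omW T n - mass T| ≤
      (x * Real.sqrt (2 * CT * (mass T + 1))) / d := by
  have hd' : (0 : ℝ) < d := by exact_mod_cast hd
  have hcard : (((Icc 1 x).filter (fun n : ℕ => (d : ℤ) ∣ (n : ℤ) - a)).card : ℝ) ≤
      2 * ((x : ℝ) / d) := by
    have h1 := cnt_le a d 1 0 x hd ha (Nat.zero_le _)
    have h2 : (Ioc 0 x).filter (fun m : ℕ => (d : ℤ) ∣ (m : ℤ) * (1 : ℕ) - a) =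
        (Icc 1 x).filter (fun n : ℕ => (d : ℤ) ∣ (n : ℤ) - a) := by
      ext m
      rw [Finset.mem_filter, Finset.mem_filter, Finset.mem_Icc, Finset.mem_Ioc]
      simp only [Nat.cast_one, mul_one]
      constructor
      · rintro ⟨h, h'⟩; exact ⟨⟨by omega, h.2⟩, h'⟩
      · rintro ⟨h, h'⟩; exact ⟨⟨by omega, h.2⟩, h'⟩
    rw [h2, Nat.cast_zero, sub_zero] at h1
    have h3 : 1 ≤ (x : ℝ) / d := by
      rw [le_div_iff₀ hd', one_mul]
      exact_mod_cast hdx
    linarith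
  have h1 := Real.sum_mul_le_sqrt_mul_sqrt ((Icc 1 x).filter
    (fun n : ℕ => (d : ℤ) ∣ (n : ℤ) - a)) (fun n => |omW T n - mass T|) (fun _ => 1)
  simp only [mul_one, sq_abs, one_pow, Finset.sum_const, nsmul_eq_mul] at h1
  refine h1.trans ?_
  have h2 : Real.sqrt (∑ n ∈ (Icc 1 x).filter (fun n : ℕ => (d : ℤ) ∣ (n : ℤ) - a),
      (omW T n - mass T) ^ 2) ≤ Real.sqrt (CT * ((x : ℝ) / d) * (mass T + 1)) :=
    Real.sqrt_le_sqrt h
  have h3 : Real.sqrt (((Icc 1 x).filter (fun n : ℕ => (d : ℤ) ∣ (n : ℤ) - a)).card : ℝ) ≤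
      Real.sqrt (2 * ((x : ℝ) / d)) := Real.sqrt_le_sqrt hcard
  calc Real.sqrt (∑ n ∈ (Icc 1 x).filter (fun n : ℕ => (d : ℤ) ∣ (n : ℤ) - a),
      (omW T n - mass T) ^ 2) *
        Real.sqrt (((Icc 1 x).filter (fun n : ℕ => (d : ℤ) ∣ (n : ℤ) - a)).card : ℝ)
      ≤ Real.sqrt (CT * ((x : ℝ) / d) * (mass T + 1)) * Real.sqrt (2 * ((x : ℝ) / d)) :=
        mul_le_mul h2 h3 (Real.sqrt_nonneg _) (Real.sqrt_nonneg _)
    _ = (x * Real.sqrt (2 * CT * (mass T + 1))) / d := by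
        rw [← Real.sqrt_mul (by positivity)]
        have : CT * ((x : ℝ) / d) * (mass T + 1) * (2 * ((x : ℝ) / d)) =
            ((x : ℝ) / d) ^ 2 * (2 * CT * (mass T + 1)) := by ring
        rw [this, Real.sqrt_mul (by positivity), Real.sqrt_sq (by positivity)]
        ring

theorem mass_nonneg (T : Finset ℕ) : 0 ≤ mass T :=
  Finset.sum_nonneg fun p _ => by positivity

theorem Pr_sum (f : ℕ → ℝ) (A B : ℕ) : ∑ p ∈ Pr A B, f p =
    ∑ p ∈ Ioc A B, if p.Prime then f p else 0 := by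
  unfold Pr
  rw [Finset.sum_filter]

theorem Pr_blocks (f : ℕ → ℝ) (P : ℕ → ℕ) (J : ℕ) (hmono : ∀ i < J, P i ≤ P (i + 1)) :
    P 0 ≤ P J ∧ ∑ p ∈ Pr (P 0) (P J), f p =
      ∑ i ∈ range J, ∑ p ∈ Pr (P i) (P (i + 1)), f p := by
  induction J with
  | zero => simp [Pr]
  | succ J ih =>
    obtain ⟨h1, h2⟩ := ih fun i hi => hmono i (by omega)
    have h3 := hmono J (by omega)
    refine ⟨h1.trans h3, ?_⟩
    rw [Finset.sum_range_succ, ← h2, Pr_sum, Pr_sum, Pr_sum,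
      Finset.sum_Ioc_consecutive _ h1 h3]

theorem assembled (a : ℤ) (x D J : ℕ) (P : ℕ → ℕ) (κ ε' E CT : ℝ) (hκ : 0 ≤ κ) (hε' : 0 ≤ ε')
    (hCT : 0 ≤ CT) (hD : 1 ≤ D) (hmono : ∀ i < J, P i ≤ P (i + 1)) (hP0 : 1 ≤ P 0)
    (hκP : ∀ i < J, (P (i + 1) : ℝ) ≤ (1 + κ) * P i)
    (hdisp : ∀ i < J, ∑ d ∈ (Ioc D (2 * D)).filter (fun d : ℕ => Int.gcd a d = 1),
      |∑ m ∈ Icc 1 (x / P (i + 1)), ((ArithmeticFunction.moebius m : ℤ) : ℝ) *
        (∑ p ∈ Pr (P i) (P (i + 1)), Ii a d p m -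
        Cc d m * ((Pr (P i) (P (i + 1))).card : ℝ) / (Nat.totient d : ℝ))| ≤ E)
    (hmu : ∀ i < J, ∑ d ∈ Ioc D (2 * D), (1 / (Nat.totient d : ℝ)) *
      |∑ m ∈ (Icc 1 (x / P (i + 1))).filter (fun m => Nat.Coprime m d),
        (ArithmeticFunction.moebius m : ℝ)| ≤ ε' * ((x / P (i + 1) : ℕ) : ℝ))
    (htk : ∀ d ∈ SS a D, ∑ n ∈ (Icc 1 x).filter (fun n : ℕ => (d : ℤ) ∣ (n : ℤ) - a),
      (omW (Pr (P 0) (P J)) n - mass (Pr (P 0) (P J))) ^ 2 ≤
        CT * ((x : ℝ) / d) * (mass (Pr (P 0) (P J)) + 1))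
    (hdx : ∀ d ∈ SS a D, d ≤ x) :
    mass (Pr (P 0) (P J)) * ∑ d ∈ SS a D,
      |∑ n ∈ (Icc 1 x).filter (fun n : ℕ => (d : ℤ) ∣ (n : ℤ) - a),
        ((ArithmeticFunction.moebius n : ℤ) : ℝ)| ≤
      (κ + ε') * x * mass (Pr (P 0) (P J)) + 3 * D * P J + J * E +
      x * mass (Pr (P 0) (P J)) / P 0 + x * Real.sqrt (2 * CT * (mass (Pr (P 0) (P J)) + 1)) := by
  set T := Pr (P 0) (P J) with hT
  set L := mass T with hL
  have hL0 : 0 ≤ L := mass_nonneg T
  have hTp : ∀ p ∈ T, p.Prime := by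
    intro p hp
    rw [hT, Pr, Finset.mem_filter] at hp
    exact hp.2
  have hTm : ∀ p ∈ T, P 0 < p := by
    intro p hp
    rw [hT, Pr, Finset.mem_filter, Finset.mem_Ioc] at hp
    exact hp.1.1
  have hcardT : (T.card : ℝ) ≤ P J := by
    have h1 : T.card ≤ (Ioc (P 0) (P J)).card := Finset.card_filter_le _ _
    rw [Nat.card_Ioc] at h1
    have h2 : T.card ≤ P J := by omega
    exact_mod_cast h2
  have hx0 : (0 : ℝ) ≤ x := Nat.cast_nonneg x
  have hD0 : (0 : ℝ) ≤ D := Nat.cast_nonneg D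
  -- per modulus
  have h1 : L * ∑ d ∈ SS a D, |∑ n ∈ (Icc 1 x).filter (fun n : ℕ => (d : ℤ) ∣ (n : ℤ) - a),
        ((ArithmeticFunction.moebius n : ℤ) : ℝ)| ≤
      ∑ d ∈ SS a D, (|∑ p ∈ T, ∑ m ∈ Icc 1 (x / p),
        ((ArithmeticFunction.moebius m : ℤ) : ℝ) * Ii a d p m| +
      ∑ p ∈ T, ((x : ℝ) / p / p / d + 1) + ((x * Real.sqrt (2 * CT * (L + 1))) / d + 0)) := by
    rw [Finset.mul_sum]
    refine Finset.sum_le_sum fun d hd => ?_
    obtain ⟨hd1, hd2, hd3⟩ := mem_SS hd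
    refine (perd a x d T hTp (by omega) hd3 hL0).trans ?_
    rw [add_zero]
    exact add_le_add le_rfl (tk_term a x d T CT hCT (by omega) (hdx d hd) hd3 hL0 (htk d hd))
  refine h1.trans ?_
  rw [Finset.sum_add_distrib, Finset.sum_add_distrib]
  have h2 : ∑ d ∈ SS a D, ((x * Real.sqrt (2 * CT * (L + 1))) / d + 0) ≤
      x * Real.sqrt (2 * CT * (L + 1)) := by
    have := sum_div_le a D hD (x * Real.sqrt (2 * CT * (L + 1))) 0 (by positivity) le_rfl
    rwa [zero_mul, add_zero] at this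
  have h3 : ∑ d ∈ SS a D, ∑ p ∈ T, ((x : ℝ) / p / p / d + 1) ≤ x * L / P 0 + D * P J := by
    rw [Finset.sum_comm]
    have h4 : ∀ p ∈ T, ∑ d ∈ SS a D, ((x : ℝ) / p / p / d + 1) ≤
        x / P 0 * (1 / p) + D := by
      intro p hp
      have hp0 : (0 : ℝ) < p := by exact_mod_cast (hTp p hp).pos
      have hP00 : (0 : ℝ) < P 0 := by exact_mod_cast hP0
      have h5 := sum_div_le a D hD ((x : ℝ) / p / p) 1 (by positivity) (by norm_num)
      have h6 : (x : ℝ) / p / p ≤ x / P 0 * (1 / p) := by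
        rw [mul_one_div]
        apply div_le_div_of_nonneg_right _ hp0.le
        apply div_le_div_of_nonneg_left hx0 hP00
        exact_mod_cast (hTm p hp).le
      linarith
    refine (Finset.sum_le_sum h4).trans ?_
    rw [Finset.sum_add_distrib, ← Finset.mul_sum, Finset.sum_const, nsmul_eq_mul]
    have h7 : (x : ℝ) / P 0 * ∑ p ∈ T, 1 / (p : ℝ) = x * L / P 0 := by
      rw [hL, mass]; ring
    rw [h7]
    have h8 : (T.card : ℝ) * D ≤ D * P J := by
      rw [mul_comm]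
      exact mul_le_mul_of_nonneg_left hcardT hD0
    linarith
  have h5 : ∑ d ∈ SS a D, |∑ p ∈ T, ∑ m ∈ Icc 1 (x / p),
        ((ArithmeticFunction.moebius m : ℤ) : ℝ) * Ii a d p m| ≤
      (κ + ε') * x * L + 2 * D * P J + J * E := by
    have h6 : ∀ d ∈ SS a D, |∑ p ∈ T, ∑ m ∈ Icc 1 (x / p),
        ((ArithmeticFunction.moebius m : ℤ) : ℝ) * Ii a d p m| ≤
        ∑ i ∈ range J, |∑ p ∈ Pr (P i) (P (i + 1)), ∑ m ∈ Icc 1 (x / p),
        ((ArithmeticFunction.moebius m : ℤ) : ℝ) * Ii a d p m| := by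
      intro d _
      rw [hT, (Pr_blocks _ P J hmono).2]
      exact Finset.abs_sum_le_sum_abs _ _
    refine (Finset.sum_le_sum h6).trans ?_
    rw [Finset.sum_comm]
    have h7 : ∀ i ∈ range J, ∑ d ∈ SS a D, |∑ p ∈ Pr (P i) (P (i + 1)), ∑ m ∈ Icc 1 (x / p),
        ((ArithmeticFunction.moebius m : ℤ) : ℝ) * Ii a d p m| ≤
        (κ + ε') * x * (∑ p ∈ Pr (P i) (P (i + 1)), 1 / (p : ℝ)) +
          2 * D * (∑ p ∈ Pr (P i) (P (i + 1)), (1 : ℝ)) + E := by
      intro i hi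
      rw [Finset.mem_range] at hi
      have hPi : 1 ≤ P i := by
        have : P 0 ≤ P i := (Pr_blocks (fun _ => 0) P i fun j hj => hmono j (by omega)).1
        omega
      have := block a x D (P i) (P (i + 1)) κ ε' E hκ hε' hPi hD (hmono i hi) (hκP i hi)
        (hdisp i hi) (hmu i hi)
      rw [Finset.sum_const, nsmul_eq_mul, mul_one]
      exact this
    refine (Finset.sum_le_sum h7).trans ?_
    rw [Finset.sum_add_distrib, Finset.sum_add_distrib, ← Finset.mul_sum, ← Finset.mul_sum,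
      ← (Pr_blocks _ P J hmono).2, ← (Pr_blocks _ P J hmono).2, Finset.sum_const,
      Finset.sum_const, Finset.card_range, nsmul_eq_mul, nsmul_eq_mul, mul_one]
    have h8 : 2 * (D : ℝ) * (T.card : ℝ) ≤ 2 * D * P J :=
      mul_le_mul_of_nonneg_left hcardT (by positivity)
    have h9 : ∑ p ∈ Pr (P 0) (P J), 1 / (p : ℝ) = L := rfl
    rw [h9]
    linarith
  linarith

theorem aux1 (y A : ℝ) (h : y * y < A + 1) (hy : 3 ≤ y) : y ≤ A := by nlinarith

theorem aux4 (y x : ℝ) (h : y * y = x) (hx : 100 ≤ x) (hy : 0 < y) : 10 ≤ y := by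
  by_contra hc
  push Not at hc
  nlinarith

theorem aux2 (y x : ℝ) (h : y * y = x) (hx : 100 ≤ x) (hy : 0 < y) : y ≤ x / 10 := by
  have := aux4 y x h hx hy
  nlinarith

theorem aux3 (u v x : ℝ) (h : u * v = x) (hv : 2 ≤ v) (hu : 0 < u) : 2 * u ≤ x := by nlinarith

theorem aux5 (M P P' x κ : ℝ) (g2 : x ≤ P' * (M + 1)) (hκ : P' ≤ (1 + κ) * P) (hκ1 : κ ≤ 1 / 4)
    (hP : 1 ≤ P) (hPx : P ≤ x / 10) (hM : 0 ≤ M) : x / 2 ≤ M * P := by
  have g3 : P' ≤ 5 / 4 * P := by nlinarith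
  have g4 : P' * (M + 1) ≤ 5 / 4 * P * (M + 1) := mul_le_mul_of_nonneg_right g3 (by linarith)
  have g5 : 5 / 4 * P * (M + 1) = 5 / 4 * (M * P) + 5 / 4 * P := by ring
  linarith

theorem aux6 (P P' κ : ℝ) (hκ : P' ≤ (1 + κ) * P) (hκ1 : κ ≤ 1 / 4) (hP : 1 ≤ P) :
    4 * P' ≤ 5 * P := by nlinarith

theorem aux7 (κ ε x L : ℝ) (h : κ ≤ ε / 8) (hx : 0 ≤ x) (hL : 0 ≤ L) :
    (κ + ε / 8) * x * L ≤ ε / 4 * x * L := by
  have : 0 ≤ x * L := by positivity
  nlinarith

theorem aux8 (CD x l2 l : ℝ) (h : l ^ 2 / 4 ≤ l2) (hl : 0 < l ^ 2) (hl2 : 0 < l2) (h0 : 0 ≤ CD * x) :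
    CD * x / l2 ≤ 4 * CD * x / l ^ 2 := by
  rw [div_le_div_iff₀ hl2 hl]
  nlinarith

theorem aux9 (ε A x L : ℝ) (h : 8 ≤ ε * A) (hx : 0 ≤ x) (hL : 0 ≤ L) :
    x * L ≤ ε / 8 * x * L * A := by
  have : 0 ≤ x * L := by positivity
  nlinarith

theorem aux10 (CT L ε : ℝ) (h : 256 * CT ≤ ε ^ 2 * L) (hL : 1 ≤ L) (hCT : 0 ≤ CT) :
    2 * CT * (L + 1) ≤ (ε / 8 * L) ^ 2 := by
  have h1 : 2 * CT * (L + 1) ≤ 4 * CT * L := by nlinarith
  have h2 : 4 * CT * L ≤ (ε / 8 * L) ^ 2 := by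
    have : 256 * CT * L ≤ ε ^ 2 * L * L := mul_le_mul_of_nonneg_right h (by linarith)
    have e : (ε / 8 * L) ^ 2 = ε ^ 2 * L * L / 64 := by ring
    rw [e]
    linarith
  linarith

theorem aux11 (S L ε x t1 t2 t3 t4 t5 : ℝ) (h : S ≤ t1 + t2 + t3 + t4 + t5)
    (h1 : t1 ≤ ε / 4 * x * L) (h2 : t2 ≤ ε / 8 * x * L) (h3 : t3 ≤ ε / 8 * x * L)
    (h4 : t4 ≤ ε / 8 * x * L) (h5 : t5 ≤ ε / 8 * x * L) (h0 : 0 ≤ ε * x * L) :
    S ≤ L * (ε * x) := by
  have e : L * (ε * x) = ε * x * L := by ring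
  rw [e]
  have e1 : ε / 4 * x * L = ε * x * L / 4 := by ring
  have e2 : ε / 8 * x * L = ε * x * L / 8 := by ring
  rw [e1] at h1
  rw [e2] at h2 h3 h4 h5
  linarith

/-- the block decomposition -/
theorem part (A B : ℕ) (κ : ℝ) (hκ : 0 < κ) (hA : (2 + κ) / κ ≤ A) (hA1 : 1 ≤ A) (hAB : A ≤ B) :
    ∃ (J : ℕ) (P : ℕ → ℕ), P 0 = A ∧ P J = B ∧ (∀ i, P i ≤ P (i + 1)) ∧ (∀ i, A ≤ P i) ∧
      (∀ i, P i ≤ B) ∧ (∀ i, (P (i + 1) : ℝ) ≤ (1 + κ) * P i) ∧
      (J : ℝ) ≤ Real.log B / Real.log (1 + κ / 2) + 1 := by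
  set r : ℝ := 1 + κ / 2 with hr
  have hr1 : 1 < r := by rw [hr]; linarith
  have hlr : 0 < Real.log r := Real.log_pos hr1
  have hAr : (1 : ℝ) ≤ A := by exact_mod_cast hA1
  have hBr : (1 : ℝ) ≤ B := by exact_mod_cast (hA1.trans hAB)
  have hlB : 0 ≤ Real.log B := Real.log_nonneg hBr
  have hpow : ∀ i : ℕ, 1 ≤ r ^ i := fun i => one_le_pow₀ hr1.le
  refine ⟨⌈Real.log B / Real.log r⌉₊, fun i => min B ⌊(A : ℝ) * r ^ i⌋₊, ?_, ?_, ?_, ?_, ?_, ?_, ?_⟩
  · simp only [pow_zero, mul_one, Nat.floor_natCast]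
    exact min_eq_right hAB
  · apply min_eq_left
    apply Nat.le_floor
    have h1 : Real.log B ≤ (⌈Real.log B / Real.log r⌉₊ : ℝ) * Real.log r := by
      have := Nat.le_ceil (Real.log B / Real.log r)
      rwa [div_le_iff₀ hlr] at this
    have h2 : (B : ℝ) ≤ r ^ ⌈Real.log B / Real.log r⌉₊ := by
      rw [← Real.log_le_log_iff (by linarith) (by positivity), Real.log_pow]
      exact h1
    have h3 := hpow ⌈Real.log B / Real.log r⌉₊
    nlinarith
  · intro i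
    apply min_le_min le_rfl
    apply Nat.floor_le_floor
    rw [pow_succ]
    have := hpow i
    have h5 : (0 : ℝ) ≤ A * r ^ i := by positivity
    nlinarith
  · intro i
    apply le_min hAB
    apply Nat.le_floor
    have := hpow i
    nlinarith
  · intro i
    exact min_le_left _ _
  · intro i
    simp only
    rcases le_total B ⌊(A : ℝ) * r ^ i⌋₊ with h | h
    · rw [min_eq_left h]
      have h1 : ((min B ⌊(A : ℝ) * r ^ (i + 1)⌋₊ : ℕ) : ℝ) ≤ B := by
        exact_mod_cast min_le_left _ _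
      nlinarith
    · rw [min_eq_right h]
      set n := ⌊(A : ℝ) * r ^ i⌋₊ with hn
      have h1 : ((min B ⌊(A : ℝ) * r ^ (i + 1)⌋₊ : ℕ) : ℝ) ≤ (A : ℝ) * r ^ (i + 1) := by
        have h2 : ((min B ⌊(A : ℝ) * r ^ (i + 1)⌋₊ : ℕ) : ℝ) ≤
            (⌊(A : ℝ) * r ^ (i + 1)⌋₊ : ℝ) := by
          exact_mod_cast min_le_right _ _
        exact h2.trans (Nat.floor_le (by positivity))
      have h3 : (A : ℝ) * r ^ i < n + 1 := Nat.lt_floor_add_one _
      have h4 : (A : ℝ) ≤ n := by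
        have : A ≤ n := by
          apply Nat.le_floor
          have := hpow i
          nlinarith
        exact_mod_cast this
      have h5 : 2 + κ ≤ κ * n := by
        rw [div_le_iff₀ hκ] at hA
        nlinarith
      have h6 : (A : ℝ) * r ^ (i + 1) = r * ((A : ℝ) * r ^ i) := by ring
      have h7 : r * ((A : ℝ) * r ^ i) ≤ r * (n + 1) :=
        mul_le_mul_of_nonneg_left h3.le (by linarith)
      have h8 : r * ((n : ℝ) + 1) ≤ (1 + κ) * n := by
        rw [hr]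
        nlinarith
      have h9 := h6.le
      linarith
  · exact (Nat.ceil_lt_add_one (by positivity)).le

theorem om_le (d : ℕ) (hd : 1 ≤ d) : (om d : ℝ) ≤ 2 * Real.log d := by
  have h1 : (2 : ℕ) ^ om d ≤ d := by
    calc (2 : ℕ) ^ om d = ∏ _p ∈ d.primeFactors, 2 := by rw [Finset.prod_const]; rfl
      _ ≤ ∏ p ∈ d.primeFactors, p :=
          Finset.prod_le_prod' fun p hp => (Nat.prime_of_mem_primeFactors hp).two_le
      _ ≤ d := Nat.le_of_dvd hd (Nat.prod_primeFactors_dvd d)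
  have h2 : (2 : ℝ) ^ om d ≤ d := by exact_mod_cast h1
  have h3 := Real.log_le_log (by positivity) h2
  rw [Real.log_pow] at h3
  have h4 := Real.log_two_gt_d9
  have h5 : (0 : ℝ) ≤ om d := Nat.cast_nonneg _
  nlinarith

theorem ev_rpow (s c : ℝ) (hs : 0 < s) : ∀ᶠ x : ℕ in Filter.atTop, c ≤ (x : ℝ) ^ s :=
  ((tendsto_rpow_atTop hs).comp tendsto_natCast_atTop_atTop).eventually_ge_atTop c

theorem ev_log (c : ℝ) : ∀ᶠ x : ℕ in Filter.atTop, c ≤ Real.log (x : ℝ) :=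
  (Real.tendsto_log_atTop.comp tendsto_natCast_atTop_atTop).eventually_ge_atTop c

end TMT

open TMT

theorem t_MT (h1 : P_DISP2) (h2 : P_TK) (h3 : P_LW) (h4 : P_MU) : P_MT := by
  intro a ha θ hθ ε hε
  set θ' := max θ (1 / 10) with hθ'
  have hθ'1 : θ ≤ θ' := le_max_left _ _
  have hθ'2 : (1 : ℝ) / 10 ≤ θ' := le_max_right _ _
  have hθ'3 : θ' < 14 / 27 := max_lt hθ (by norm_num)
  set θ1 := (θ' + 14 / 27) / 2 with hθ1
  have hθ1a : θ' < θ1 := by rw [hθ1]; linarith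
  have hθ1b : θ1 < 14 / 27 := by rw [hθ1]; linarith
  have hθ1c : 0 < θ1 := by linarith
  obtain ⟨ρ, hρ0, hρ1, hdisp⟩ := h1 θ1 hθ1c hθ1b 2
  obtain ⟨CT, hCT, htk⟩ := h2.2
  set K : ℝ := 1 + 256 * CT / ε ^ 2 with hK
  have hK1 : 1 ≤ K := by rw [hK]; have : 0 ≤ 256 * CT / ε ^ 2 := by positivity
                         linarith
  obtain ⟨ρ0, K', x1, hρ00, hρ0ρ, hlw⟩ := h3 K (ρ / 2) (by linarith)
  obtain ⟨CD, hCD, hdisp⟩ := hdisp a ha (ρ0 / 2) (by linarith)
  set κ : ℝ := min (1 / 4) (ε / 8) with hκ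
  have hκ0 : 0 < κ := lt_min (by norm_num) (by linarith)
  have hκ1 : κ ≤ 1 / 4 := min_le_left _ _
  have hκ2 : κ ≤ ε / 8 := min_le_right _ _
  obtain ⟨M0, hmu⟩ := h4 (ε / 8) (by linarith)
  have hlr : 0 < Real.log (1 + κ / 2) := Real.log_pos (by linarith)
  have hr1 : 0 < 1 - θ' / θ1 := by
    rw [sub_pos, div_lt_one hθ1c]
    exact hθ1a
  have hev : ∀ᶠ x : ℕ in Filter.atTop, ∀ D : ℕ, 1 ≤ D → (D : ℝ) ≤ (x : ℝ) ^ θ →
      ∑ d ∈ (Ioc D (2 * D)).filter (fun d : ℕ => Int.gcd a d = 1),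
        |∑ n ∈ (Icc 1 x).filter (fun n : ℕ => (d : ℤ) ∣ (n : ℤ) - a),
          (ArithmeticFunction.moebius n : ℝ)| ≤ ε * x := by
    filter_upwards [Filter.eventually_ge_atTop x1, Filter.eventually_ge_atTop 100,
      ev_rpow (ρ0 / 2) 3 (by linarith), ev_rpow (ρ0 / 2) ((2 + κ) / κ) (by linarith),
      ev_rpow (ρ0 / 2) (8 / ε) (by linarith), ev_rpow (ρ0 / 4) (8 / ρ0) (by linarith),
      ev_rpow (1 / 2) M0 (by norm_num), ev_rpow (1 - θ' / θ1) 2 hr1,
      ev_rpow (47 / 100) (24 / ε) (by norm_num), ev_rpow (47 / 100) 2 (by norm_num),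
      ev_log (32 * (CD * (1 / Real.log (1 + κ / 2) + 1)) / ε), ev_log 1]
      with x hx1 hx100 f1 f2 f3 f4 f5 f6 f7 f8 f9 f10
    intro D hD hDx
    have hX : (100 : ℝ) ≤ x := by exact_mod_cast hx100
    have hX1 : (1 : ℝ) ≤ x := by linarith
    have hX0 : (0 : ℝ) < x := by linarith
    obtain ⟨hl1, hl2⟩ := hlw x hx1
    set A := ⌊(x : ℝ) ^ ρ0⌋₊ with hA
    set B := ⌊(x : ℝ) ^ (ρ / 2)⌋₊ with hB
    set L := mass (Pr A B) with hL
    -- sizes
    have hAge : (x : ℝ) ^ (ρ0 / 2) ≤ A := by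
      have g1 : (x : ℝ) ^ ρ0 < A + 1 := Nat.lt_floor_add_one _
      have g2 : (x : ℝ) ^ ρ0 = (x : ℝ) ^ (ρ0 / 2) * (x : ℝ) ^ (ρ0 / 2) := by
        rw [← Real.rpow_add hX0]
        congr 1
        ring
      rw [g2] at g1
      exact aux1 _ _ g1 f1
    have hBle : (B : ℝ) ≤ (x : ℝ) ^ (ρ / 2) := Nat.floor_le (by positivity)
    have hB2 : (B : ℝ) ≤ (x : ℝ) ^ (1 / 200 : ℝ) :=
      hBle.trans (Real.rpow_le_rpow_of_exponent_le hX1 (by linarith))
    have hB3 : (B : ℝ) ≤ (x : ℝ) ^ (1 / 2 : ℝ) :=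
      hBle.trans (Real.rpow_le_rpow_of_exponent_le hX1 (by linarith))
    have hAB : A ≤ B := Nat.floor_le_floor (Real.rpow_le_rpow_of_exponent_le hX1 hρ0ρ.le)
    have hA3 : (3 : ℝ) ≤ A := f1.trans hAge
    have hA3' : 3 ≤ A := by exact_mod_cast hA3
    have hDx' : (D : ℝ) ≤ (x : ℝ) ^ θ' :=
      hDx.trans (Real.rpow_le_rpow_of_exponent_le hX1 hθ'1)
    have hhalf : (x : ℝ) ^ (1 / 2 : ℝ) ≤ x / 10 := by
      have g1 : (x : ℝ) ^ (1 / 2 : ℝ) * (x : ℝ) ^ (1 / 2 : ℝ) = x := by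
        rw [← Real.rpow_add hX0]
        norm_num
      have g2 : 0 < (x : ℝ) ^ (1 / 2 : ℝ) := by positivity
      exact aux2 _ _ g1 hX g2
    have hx53 : (x : ℝ) ^ (53 / 100 : ℝ) * (x : ℝ) ^ (47 / 100 : ℝ) = x := by
      rw [← Real.rpow_add hX0]
      norm_num
    have hx53p : 0 < (x : ℝ) ^ (53 / 100 : ℝ) := by positivity
    have hDB : (D : ℝ) * B ≤ (x : ℝ) ^ (53 / 100 : ℝ) := by
      calc (D : ℝ) * B ≤ (x : ℝ) ^ θ' * (x : ℝ) ^ (1 / 200 : ℝ) :=
            mul_le_mul hDx' hB2 (Nat.cast_nonneg _) (by positivity)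
        _ = (x : ℝ) ^ (θ' + 1 / 200) := by rw [Real.rpow_add hX0]
        _ ≤ (x : ℝ) ^ (53 / 100 : ℝ) :=
            Real.rpow_le_rpow_of_exponent_le hX1 (by linarith)
    have hDBB : (D : ℝ) * (B * B) ≤ (x : ℝ) ^ (53 / 100 : ℝ) := by
      calc (D : ℝ) * (B * B) ≤ (x : ℝ) ^ θ' * ((x : ℝ) ^ (1 / 200 : ℝ) * (x : ℝ) ^ (1 / 200 : ℝ)) :=
            mul_le_mul hDx' (mul_le_mul hB2 hB2 (Nat.cast_nonneg _) (by positivity))
              (by positivity) (by positivity)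
        _ = (x : ℝ) ^ (θ' + (1 / 200 + 1 / 200)) := by rw [Real.rpow_add hX0, Real.rpow_add hX0]
        _ ≤ (x : ℝ) ^ (53 / 100 : ℝ) :=
            Real.rpow_le_rpow_of_exponent_le hX1 (by linarith)
    have h2x53 : 2 * (x : ℝ) ^ (53 / 100 : ℝ) ≤ x := aux3 _ _ _ hx53 f8 hx53p
    have hBr : (1 : ℝ) ≤ B := by
      have : 1 ≤ B := by omega
      exact_mod_cast this
    have h2D : 2 * (D : ℝ) ≤ x := by
      have : (D : ℝ) ≤ (x : ℝ) ^ (53 / 100 : ℝ) :=
        hDx'.trans (Real.rpow_le_rpow_of_exponent_le hX1 (by linarith))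
      linarith
    have h3DB : 3 * (D : ℝ) * B ≤ ε / 8 * x := by
      have g1 : 24 ≤ ε * (x : ℝ) ^ (47 / 100 : ℝ) := by
        rw [div_le_iff₀ hε] at f7
        linarith
      calc 3 * (D : ℝ) * B = 3 * (D * B) := by ring
        _ ≤ 3 * (x : ℝ) ^ (53 / 100 : ℝ) := by linarith
        _ = 24 / 8 * (x : ℝ) ^ (53 / 100 : ℝ) := by norm_num
        _ ≤ (ε * (x : ℝ) ^ (47 / 100 : ℝ)) / 8 * (x : ℝ) ^ (53 / 100 : ℝ) := by gcongr
        _ = ε / 8 * ((x : ℝ) ^ (53 / 100 : ℝ) * (x : ℝ) ^ (47 / 100 : ℝ)) := by ring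
        _ = ε / 8 * x := by rw [hx53]
    obtain ⟨J, P, hPA, hPJ, hmono, hPge, hPle, hPκ, hJ⟩ :=
      part A B κ hκ0 (f2.trans hAge) (by omega) hAB
    -- the size of the blocks
    have hPr : ∀ i, (1 : ℝ) ≤ P i := fun i => by
      have := hPge i
      exact_mod_cast (by omega : 1 ≤ P i)
    have hPBr : ∀ i, (P i : ℝ) ≤ B := fun i => by exact_mod_cast hPle i
    have hMge : ∀ i, max M0 3 ≤ x / P i := by
      intro i
      have hPi : 0 < P i := by have := hPge i; omega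
      rw [Nat.le_div_iff_mul_le hPi]
      have g1 : ((max M0 3 : ℕ) : ℝ) ≤ (x : ℝ) ^ (1 / 2 : ℝ) := by
        rw [Nat.cast_max]
        refine max_le f5 ?_
        have g2 : (x : ℝ) ^ (1 / 2 : ℝ) * (x : ℝ) ^ (1 / 2 : ℝ) = x := by
          rw [← Real.rpow_add hX0]
          norm_num
        have g3 : 0 < (x : ℝ) ^ (1 / 2 : ℝ) := by positivity
        have g4 := aux4 _ _ g2 hX g3
        push_cast
        linarith
      have g4 : ((max M0 3 * P i : ℕ) : ℝ) ≤ x := by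
        push_cast
        push_cast at g1
        calc (max (M0 : ℝ) 3) * P i ≤ (x : ℝ) ^ (1 / 2 : ℝ) * (x : ℝ) ^ (1 / 2 : ℝ) :=
              mul_le_mul g1 ((hPBr i).trans hB3) (Nat.cast_nonneg _) (by positivity)
          _ = x := by
              rw [← Real.rpow_add hX0]
              norm_num
      exact_mod_cast g4
    have hMPle : ∀ i, ((x / P (i + 1) : ℕ) : ℝ) * P i ≤ x := by
      intro i
      have g1 : x / P (i + 1) * P i ≤ x := by
        calc x / P (i + 1) * P i ≤ x / P (i + 1) * P (i + 1) :=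
              Nat.mul_le_mul_left _ (hmono i)
          _ ≤ x := Nat.div_mul_le_self _ _
      exact_mod_cast g1
    have hMPge : ∀ i, (x : ℝ) / 2 ≤ ((x / P (i + 1) : ℕ) : ℝ) * P i := by
      intro i
      have hPi : 0 < P (i + 1) := by have := hPge (i + 1); omega
      have g1 := Nat.lt_mul_div_succ x hPi
      have g2 : (x : ℝ) ≤ P (i + 1) * (((x / P (i + 1) : ℕ) : ℝ) + 1) := by exact_mod_cast g1.le
      exact aux5 _ _ _ _ κ g2 (hPκ i) hκ1 (hPr i) (((hPBr i).trans hB3).trans hhalf)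
        (Nat.cast_nonneg _)
    have hlog2 : Real.log x / 2 ≤ Real.log (x / 2) := by
      have g1 : (x : ℝ) ^ (1 / 2 : ℝ) ≤ x / 2 := by linarith
      have g2 := Real.log_le_log (by positivity) g1
      rw [Real.log_rpow hX0] at g2
      linarith
    have hlogx2 : 0 < Real.log (x / 2) := by linarith
    set E : ℝ := CD * x / Real.log (x / 2) ^ 2 with hE
    have hdisp' : ∀ i < J, ∑ d ∈ (Ioc D (2 * D)).filter (fun d : ℕ => Int.gcd a d = 1),
      |∑ m ∈ Icc 1 (x / P (i + 1)), ((ArithmeticFunction.moebius m : ℤ) : ℝ) *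
        (∑ p ∈ Pr (P i) (P (i + 1)), Ii a d p m -
        Cc d m * ((Pr (P i) (P (i + 1))).card : ℝ) / (Nat.totient d : ℝ))| ≤ E := by
      intro i _
      have c1 : 3 ≤ x / P (i + 1) := (le_max_right _ _).trans (hMge (i + 1))
      have c2 : 3 ≤ P i := hA3'.trans (hPge i)
      have hMP0 : (0 : ℝ) ≤ ((x / P (i + 1) : ℕ) : ℝ) * P i := by positivity
      have c3 : (((x / P (i + 1) : ℕ) : ℝ) * P i) ^ (ρ0 / 2) ≤ P i := by
        calc (((x / P (i + 1) : ℕ) : ℝ) * P i) ^ (ρ0 / 2) ≤ (x : ℝ) ^ (ρ0 / 2) :=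
              Real.rpow_le_rpow hMP0 (hMPle i) (by linarith)
          _ ≤ A := hAge
          _ ≤ P i := by exact_mod_cast hPge i
      have c4 : (P i : ℝ) ≤ (((x / P (i + 1) : ℕ) : ℝ) * P i) ^ ρ := by
        calc (P i : ℝ) ≤ B := hPBr i
          _ ≤ (x : ℝ) ^ (ρ / 2) := hBle
          _ = ((x : ℝ) ^ (1 / 2 : ℝ)) ^ ρ := by
              rw [← Real.rpow_mul hX0.le]
              congr 1
              ring
          _ ≤ (((x / P (i + 1) : ℕ) : ℝ) * P i) ^ ρ := by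
              apply Real.rpow_le_rpow (by positivity) _ hρ0.le
              have := hMPge i
              linarith
      have c5 : 4 * P (i + 1) ≤ 5 * P i := by
        have g1 : 4 * (P (i + 1) : ℝ) ≤ 5 * P i := aux6 _ _ κ (hPκ i) hκ1 (hPr i)
        exact_mod_cast g1
      have c6 : (D : ℝ) ≤ (((x / P (i + 1) : ℕ) : ℝ) * P i) ^ θ1 := by
        calc (D : ℝ) ≤ (x : ℝ) ^ θ' := hDx'
          _ = ((x : ℝ) ^ (θ' / θ1)) ^ θ1 := by
              rw [← Real.rpow_mul hX0.le]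
              congr 1
              field_simp
          _ ≤ (((x / P (i + 1) : ℕ) : ℝ) * P i) ^ θ1 := by
              apply Real.rpow_le_rpow (by positivity) _ hθ1c.le
              have g1 : (x : ℝ) ^ (θ' / θ1) * (x : ℝ) ^ (1 - θ' / θ1) = x := by
                rw [← Real.rpow_add hX0]
                have : θ' / θ1 + (1 - θ' / θ1) = 1 := by ring
                rw [this, Real.rpow_one]
              have g2 : 0 < (x : ℝ) ^ (θ' / θ1) := by positivity
              have g3 := hMPge i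
              have g4 := aux3 _ _ _ g1 f6 g2
              linarith
      refine (hdisp (x / P (i + 1)) (P i) (P (i + 1)) D
        (fun m => ((ArithmeticFunction.moebius m : ℤ) : ℝ)) c1 c2 c3 c4 (hmono i) c5 c6
        mu_abs).trans ?_
      rw [hE]
      have g1 : Real.log (x / 2) ≤ Real.log (((x / P (i + 1) : ℕ) : ℝ) * P i) :=
        Real.log_le_log (by linarith) (hMPge i)
      have g2 := hMPle i
      gcongr
    have hmu' : ∀ i < J, ∑ d ∈ Ioc D (2 * D), (1 / (Nat.totient d : ℝ)) *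
        |∑ m ∈ (Icc 1 (x / P (i + 1))).filter (fun m => Nat.Coprime m d),
        (ArithmeticFunction.moebius m : ℝ)| ≤ ε / 8 * ((x / P (i + 1) : ℕ) : ℝ) := fun i _ =>
      hmu _ ((le_max_left _ _).trans (hMge (i + 1))) D hD
    have hlogA : 2 * Real.log x ≤ A := by
      have g1 : Real.log x ≤ (x : ℝ) ^ (ρ0 / 4) / (ρ0 / 4) :=
        Real.log_le_rpow_div hX0.le (by linarith)
      have g2 : (x : ℝ) ^ (ρ0 / 2) = (x : ℝ) ^ (ρ0 / 4) * (x : ℝ) ^ (ρ0 / 4) := by
        rw [← Real.rpow_add hX0]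
        congr 1
        ring
      have g3 : 0 < (x : ℝ) ^ (ρ0 / 4) := by positivity
      calc 2 * Real.log x ≤ 2 * ((x : ℝ) ^ (ρ0 / 4) / (ρ0 / 4)) := by linarith
        _ = (8 / ρ0) * (x : ℝ) ^ (ρ0 / 4) := by field_simp; ring
        _ ≤ (x : ℝ) ^ (ρ0 / 4) * (x : ℝ) ^ (ρ0 / 4) := by gcongr
        _ = (x : ℝ) ^ (ρ0 / 2) := g2.symm
        _ ≤ A := hAge
    have hdx : ∀ d ∈ SS a D, d ≤ x := by
      intro d hd
      have g1 := (mem_SS hd).2.1
      have g2 : (d : ℝ) ≤ x := by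
        have : (d : ℝ) ≤ 2 * D := by exact_mod_cast g1
        linarith
      exact_mod_cast g2
    have htk' : ∀ d ∈ SS a D, ∑ n ∈ (Icc 1 x).filter (fun n : ℕ => (d : ℤ) ∣ (n : ℤ) - a),
      (omW (Pr (P 0) (P J)) n - mass (Pr (P 0) (P J))) ^ 2 ≤
        CT * ((x : ℝ) / d) * (mass (Pr (P 0) (P J)) + 1) := by
      intro d hd
      rw [hPA, hPJ]
      obtain ⟨hd1, hd2, hd3⟩ := mem_SS hd
      have hd0 : (1 : ℝ) ≤ d := by exact_mod_cast (by omega : 1 ≤ d)
      refine htk x A B d a (by omega) (by omega) hd3 ?_ ?_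
      · rw [le_div_iff₀ (by linarith)]
        have g1 : (d : ℝ) ≤ 2 * D := by exact_mod_cast hd2
        calc (B : ℝ) ^ 2 * d ≤ (B : ℝ) ^ 2 * (2 * (D : ℝ)) := by gcongr
          _ = 2 * ((D : ℝ) * (B * B)) := by ring
          _ ≤ 2 * (x : ℝ) ^ (53 / 100 : ℝ) := by linarith
          _ ≤ x := h2x53
      · refine (om_le d (by omega)).trans (le_trans ?_ hlogA)
        have g1 : (d : ℝ) ≤ x := by exact_mod_cast hdx d hd
        have := Real.log_le_log (by linarith) g1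
        linarith
    have hfin := assembled a x D J P κ (ε / 8) E CT hκ0.le (by linarith) hCT.le hD
      (fun i _ => hmono i) (by rw [hPA]; omega) (fun i _ => hPκ i) hdisp' hmu' htk' hdx
    rw [hPA, hPJ] at hfin
    have hL1 : 1 ≤ L := hK1.trans hl1
    have hL0 : 0 < L := by linarith
    -- the five terms
    have t1 : (κ + ε / 8) * x * L ≤ ε / 4 * x * L := aux7 κ ε x L hκ2 hX0.le hL0.le
    have t2 : 3 * (D : ℝ) * B ≤ ε / 8 * x * L :=
      h3DB.trans (le_mul_of_one_le_right (by positivity) hL1)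
    have t3 : (J : ℝ) * E ≤ ε / 8 * x * L := by
      have hlogB : Real.log B ≤ Real.log x := by
        apply Real.log_le_log (by linarith)
        linarith
      have g1 : (J : ℝ) ≤ Real.log x * (1 / Real.log (1 + κ / 2) + 1) := by
        have : Real.log B / Real.log (1 + κ / 2) ≤ Real.log x / Real.log (1 + κ / 2) :=
          div_le_div_of_nonneg_right hlogB hlr.le
        calc (J : ℝ) ≤ Real.log B / Real.log (1 + κ / 2) + 1 := hJ
          _ ≤ Real.log x / Real.log (1 + κ / 2) + Real.log x := by linarith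
          _ = _ := by ring
      have g2 : CD * (1 / Real.log (1 + κ / 2) + 1) ≤ ε / 32 * Real.log x := by
        rw [div_le_iff₀ hε] at f9
        linarith
      have g3 : E ≤ 4 * CD * x / Real.log x ^ 2 := by
        rw [hE]
        have g4 : Real.log x ^ 2 / 4 ≤ Real.log (x / 2) ^ 2 := by
          have : (Real.log x / 2) ^ 2 ≤ Real.log (x / 2) ^ 2 :=
            pow_le_pow_left₀ (by linarith) hlog2 2
          linarith
        have g5 : 0 < Real.log x ^ 2 := by positivity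
        exact aux8 CD x _ _ g4 g5 (by positivity) (by positivity)
      have g7 : (0 : ℝ) ≤ J := Nat.cast_nonneg _
      have g8 : 0 < Real.log x := by linarith
      have g9 : 0 ≤ E := by rw [hE]; positivity
      calc (J : ℝ) * E ≤ (Real.log x * (1 / Real.log (1 + κ / 2) + 1)) *
            (4 * CD * x / Real.log x ^ 2) := mul_le_mul g1 g3 g9 (by positivity)
        _ = 4 * (CD * (1 / Real.log (1 + κ / 2) + 1)) * x / Real.log x := by
            field_simp
        _ ≤ 4 * (ε / 32 * Real.log x) * x / Real.log x := by gcongr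
        _ = ε / 8 * x := by field_simp; ring
        _ ≤ ε / 8 * x * L := le_mul_of_one_le_right (by positivity) hL1
    have t4 : x * L / A ≤ ε / 8 * x * L := by
      have hA0 : (0 : ℝ) < A := by linarith
      rw [div_le_iff₀ hA0]
      have g1 : 8 ≤ ε * A := by
        have := f3.trans hAge
        rw [div_le_iff₀ hε] at this
        linarith
      exact aux9 ε A x L g1 hX0.le hL0.le
    have t5 : x * Real.sqrt (2 * CT * (L + 1)) ≤ ε / 8 * x * L := by
      have g1 : Real.sqrt (2 * CT * (L + 1)) ≤ ε / 8 * L := by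
        apply Real.sqrt_le_iff.2
        refine ⟨by positivity, ?_⟩
        have g2 : 256 * CT ≤ ε ^ 2 * L := by
          have : 256 * CT / ε ^ 2 ≤ L := by
            have := hl1
            rw [hK] at this
            linarith
          rw [div_le_iff₀ (by positivity)] at this
          linarith
        exact aux10 CT L ε g2 hL1 hCT.le
      calc x * Real.sqrt (2 * CT * (L + 1)) ≤ x * (ε / 8 * L) :=
            mul_le_mul_of_nonneg_left g1 hX0.le
        _ = ε / 8 * x * L := by ring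
    have hres : L * ∑ d ∈ SS a D, |∑ n ∈ (Icc 1 x).filter (fun n : ℕ => (d : ℤ) ∣ (n : ℤ) - a),
        ((ArithmeticFunction.moebius n : ℤ) : ℝ)| ≤ L * (ε * x) :=
      aux11 _ L ε x _ _ _ _ _ hfin t1 t2 t3 t4 t5 (by positivity)
    exact le_of_mul_le_mul_left hres hL0
  rw [Filter.eventually_atTop] at hev
  obtain ⟨x0, hx0⟩ := hev
  exact ⟨x0, fun x hx D hD hDx => hx0 x hx D hD hDx⟩

end Pool.Agent.H262R4.FR
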