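import Pool.Agent.H262R4.FR.Stubs
import Pool.Agent.H705R2.MLogF
import Pool.Agent.Helper112.Arith

/-! FR project, task MU (helper355): the Moebius function over integers prime to `d`, on average
over `d`. -/

set_option autoImplicit false

namespace Pool.Agent.H262R4.FR

open Finset

namespace TMU

/-! ### lower bounds of the totient (copied from the library) -/

theorem phi_mul_card (n : ℕ) (hn : 1 ≤ n) : n ≤ n.totient * n.divisors.card := by
  have hn0 : n ≠ 0 := by omega
  have h1 := Nat.totient_mul_prod_primeFactors n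
  have h2 : ∏ p ∈ n.primeFactors, p ≤ n.divisors.card * ∏ p ∈ n.primeFactors, (p - 1) := by
    rw [Nat.card_divisors hn0, ← Finset.prod_mul_distrib]
    apply Finset.prod_le_prod'
    intro p hp
    have hpp := Nat.prime_of_mem_primeFactors hp
    have hv : 1 ≤ n.factorization p := by
      rw [Nat.one_le_iff_ne_zero, ← Finsupp.mem_support_iff, Nat.support_factorization]
      exact hp
    have := hpp.two_le
    calc p ≤ 2 * (p - 1) := by omega
      _ ≤ (n.factorization p + 1) * (p - 1) := Nat.mul_le_mul_right _ (by omega)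
  have h3 : 0 < ∏ p ∈ n.primeFactors, (p - 1) := by
    apply Finset.prod_pos
    intro p hp
    have := (Nat.prime_of_mem_primeFactors hp).two_le
    omega
  have h4 : n * ∏ p ∈ n.primeFactors, (p - 1) ≤
      (n.totient * n.divisors.card) * ∏ p ∈ n.primeFactors, (p - 1) := by
    rw [← h1, mul_assoc]
    exact Nat.mul_le_mul_left _ h2
  exact Nat.le_of_mul_le_mul_right h4 h3

lemma totient_prod (s : Finset ℕ) (hs : ∀ p ∈ s, p.Prime) :
    Nat.totient (∏ p ∈ s, p) = ∏ p ∈ s, (p - 1) := by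
  classical
  induction s using Finset.induction_on with
  | empty => simp
  | insert a s ha ih =>
    rw [prod_insert ha, prod_insert ha, Nat.totient_mul, ih (fun p hp => hs p (mem_insert_of_mem hp)),
      Nat.totient_prime (hs a (mem_insert_self _ _))]
    apply Nat.Coprime.prod_right
    intro p hp
    rw [Nat.coprime_primes (hs a (mem_insert_self _ _)) (hs p (mem_insert_of_mem hp))]
    rintro rfl
    exact ha hp

/-- `k / φ(k) = ∑_{d ∣ k} μ²(d)/φ(d)` -/
theorem div_totient (k : ℕ) (hk : 1 ≤ k) :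
    (k : ℝ) / Nat.totient k = ∑ d ∈ k.divisors.filter Squarefree, (1 : ℝ) / Nat.totient d := by
  have hk0 : k ≠ 0 := by omega
  have htot : (0 : ℝ) < Nat.totient k := by exact_mod_cast Nat.totient_pos.2 hk
  have h1 : (k : ℝ) / Nat.totient k = ∏ p ∈ k.primeFactors, (1 + 1 / ((p : ℝ) - 1)) := by
    have h2 := Nat.totient_mul_prod_primeFactors k
    have h3 : (Nat.totient k : ℝ) * ∏ p ∈ k.primeFactors, (p : ℝ) =
        k * ∏ p ∈ k.primeFactors, ((p : ℝ) - 1) := by
      have : ((Nat.totient k * ∏ p ∈ k.primeFactors, p : ℕ) : ℝ) =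
          ((k * ∏ p ∈ k.primeFactors, (p - 1) : ℕ) : ℝ) := by rw [h2]
      push_cast at this
      rw [this]
      congr 1
      apply prod_congr rfl
      intro p hp
      have := (Nat.prime_of_mem_primeFactors hp).one_le
      push_cast [Nat.cast_sub this]
      ring
    have h4 : ∏ p ∈ k.primeFactors, ((p : ℝ) - 1) ≠ 0 := by
      rw [prod_ne_zero_iff]
      intro p hp
      have : (1 : ℝ) < p := by exact_mod_cast (Nat.prime_of_mem_primeFactors hp).one_lt
      linarith
    have h5 : ∏ p ∈ k.primeFactors, (1 + 1 / ((p : ℝ) - 1)) =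
        (∏ p ∈ k.primeFactors, (p : ℝ)) / ∏ p ∈ k.primeFactors, ((p : ℝ) - 1) := by
      rw [← prod_div_distrib]
      apply prod_congr rfl
      intro p hp
      have : (1 : ℝ) < p := by exact_mod_cast (Nat.prime_of_mem_primeFactors hp).one_lt
      have h6 : (p : ℝ) - 1 ≠ 0 := by linarith
      field_simp
      ring
    rw [h5, div_eq_div_iff htot.ne' h4]
    linarith
  rw [h1, prod_one_add]
  rw [Nat.sum_divisors_filter_squarefree hk0]
  have hpf : (UniqueFactorizationMonoid.normalizedFactors k).toFinset = k.primeFactors := by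
    rw [Nat.factors_eq]
    ext p
    simp [Nat.mem_primeFactors]
  rw [hpf]
  apply sum_congr rfl
  · intro s hs
    rw [mem_powerset] at hs
    have hp : ∀ p ∈ s, p.Prime := fun p hp => Nat.prime_of_mem_primeFactors (hs hp)
    rw [Finset.prod_val]
    rw [show (s.prod id) = ∏ p ∈ s, p from rfl, totient_prod s hp]
    push_cast
    rw [one_div, ← prod_inv_distrib]
    apply prod_congr rfl
    intro p hpp
    have := (hp p hpp).one_le
    rw [Nat.cast_sub this]
    simp

/-- a lower bound of `φ` -/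
theorem inv_totient_le : ∃ C : ℝ, 0 < C ∧ ∀ q : ℕ, 1 ≤ q →
    (1 : ℝ) / Nat.totient q ≤ C * (q : ℝ) ^ (1 / 4 : ℝ) / q := by
  obtain ⟨C, hC, h⟩ := Pool.Agent.Helper112.divisor_bound (1 / 4) (by norm_num)
  refine ⟨C, hC, fun q hq => ?_⟩
  have h1 := h q hq
  have h2 : (q : ℝ) ≤ (Nat.totient q : ℝ) * (q.divisors.card : ℝ) := by
    exact_mod_cast phi_mul_card q hq
  have hq0 : (0 : ℝ) < q := by exact_mod_cast hq
  have ht0 : (0 : ℝ) < Nat.totient q := by exact_mod_cast Nat.totient_pos.2 hq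
  rw [div_le_div_iff₀ ht0 hq0]
  calc (1 : ℝ) * q ≤ (Nat.totient q : ℝ) * (q.divisors.card : ℝ) := by linarith
    _ ≤ (Nat.totient q : ℝ) * (C * (q : ℝ) ^ (1 / 4 : ℝ)) := mul_le_mul_of_nonneg_left h1 ht0.le
    _ = _ := by ring

/-- `1 / (q φ(q)) ≤ C q^{-7/4}` -/
theorem inv_mul_totient_le : ∃ C : ℝ, 0 < C ∧ ∀ q : ℕ, 1 ≤ q →
    1 / ((q : ℝ) * Nat.totient q) ≤ C * (1 / (q : ℝ) ^ (7 / 4 : ℝ)) := by
  obtain ⟨C, hC, h⟩ := inv_totient_le
  refine ⟨C, hC, fun q hq => ?_⟩
  have hq0 : (0 : ℝ) < q := by exact_mod_cast hq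
  have h1 := h q hq
  calc 1 / ((q : ℝ) * Nat.totient q) = (1 / q) * (1 / Nat.totient q) := by rw [one_div_mul_one_div]
    _ ≤ (1 / q) * (C * (q : ℝ) ^ (1 / 4 : ℝ) / q) := by gcongr
    _ = C * (1 / (q : ℝ) ^ (7 / 4 : ℝ)) := by
      have h2 : (q : ℝ) ^ (7 / 4 : ℝ) * (q : ℝ) ^ (1 / 4 : ℝ) = q * q := by
        rw [← Real.rpow_add hq0, show (7 / 4 + 1 / 4 : ℝ) = ((2 : ℕ) : ℝ) by norm_num,
          Real.rpow_natCast]
        ring
      have h3 : (q : ℝ) ^ (7 / 4 : ℝ) ≠ 0 := (Real.rpow_pos_of_pos hq0 _).ne'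
      field_simp
      linarith

theorem summable_74 : Summable (fun n : ℕ => 1 / (n : ℝ) ^ (7 / 4 : ℝ)) :=
  Real.summable_one_div_nat_rpow.2 (by norm_num)

/-! ### sums of `1/φ(d)` -/

theorem sum_inv_totient : ∃ C : ℝ, 0 < C ∧ ∀ A : ℕ,
    ∑ e ∈ Ioc A (2 * A + 1), 1 / (Nat.totient e : ℝ) ≤ C := by
  obtain ⟨C, hC, h⟩ := inv_mul_totient_le
  have hT : 0 ≤ ∑' n : ℕ, 1 / (n : ℝ) ^ (7 / 4 : ℝ) := tsum_nonneg fun n => by positivity
  refine ⟨2 * (C * (∑' n : ℕ, 1 / (n : ℝ) ^ (7 / 4 : ℝ))) + 1, by positivity, fun A => ?_⟩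
  set B := 2 * A + 1 with hB
  have hA1 : (0 : ℝ) < A + 1 := by positivity
  have h1 : ∀ e ∈ Ioc A B, 1 / (Nat.totient e : ℝ) ≤
      (1 / ((A : ℝ) + 1)) * ∑ g ∈ (Icc 1 B).filter (fun g => g ∣ e), 1 / (Nat.totient g : ℝ) := by
    intro e he
    rw [mem_Ioc] at he
    have he0 : (0 : ℝ) < e := by exact_mod_cast (by omega : 0 < e)
    have h2 := div_totient e (by omega)
    have h3 : 1 / (Nat.totient e : ℝ) = (1 / (e : ℝ)) * ((e : ℝ) / Nat.totient e) := by
      field_simp
    rw [h3, h2]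
    have h4 : (1 / (e : ℝ)) ≤ 1 / ((A : ℝ) + 1) := by
      apply one_div_le_one_div_of_le hA1
      exact_mod_cast he.1
    have h5 : ∑ d ∈ e.divisors.filter Squarefree, (1 : ℝ) / Nat.totient d ≤
        ∑ g ∈ (Icc 1 B).filter (fun g => g ∣ e), 1 / (Nat.totient g : ℝ) := by
      apply sum_le_sum_of_subset_of_nonneg
      · intro g hg
        rw [mem_filter, Nat.mem_divisors] at hg
        rw [mem_filter, mem_Icc]
        have := Nat.le_of_dvd (by omega) hg.1.1
        have := Nat.pos_of_dvd_of_pos hg.1.1 (by omega)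
        exact ⟨⟨by omega, by omega⟩, hg.1.1⟩
      · intro _ _ _
        positivity
    have h6 : 0 ≤ ∑ d ∈ e.divisors.filter Squarefree, (1 : ℝ) / Nat.totient d :=
      sum_nonneg fun _ _ => by positivity
    exact mul_le_mul h4 h5 h6 (by positivity)
  have h7 : ∑ e ∈ Ioc A B, ∑ g ∈ (Icc 1 B).filter (fun g => g ∣ e), 1 / (Nat.totient g : ℝ) ≤
      ∑ g ∈ Icc 1 B, (B : ℝ) * (1 / ((g : ℝ) * Nat.totient g)) := by
    simp only [sum_filter]
    rw [sum_comm]
    refine sum_le_sum fun g hg => ?_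
    rw [mem_Icc] at hg
    rw [← sum_filter, sum_const, nsmul_eq_mul]
    have h8 : (((Ioc A B).filter (fun e => g ∣ e)).card : ℝ) ≤ (B : ℝ) / g := by
      have h9 : ((Ioc A B).filter (fun e => g ∣ e)).card ≤ B / g := by
        rw [← Nat.Ioc_filter_dvd_card_eq_div]
        apply card_le_card
        intro e he
        rw [mem_filter, mem_Ioc] at he ⊢
        exact ⟨⟨by omega, he.1.2⟩, he.2⟩
      calc (((Ioc A B).filter (fun e => g ∣ e)).card : ℝ) ≤ ((B / g : ℕ) : ℝ) := by exact_mod_cast h9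
        _ ≤ (B : ℝ) / g := Nat.cast_div_le
    calc (((Ioc A B).filter (fun e => g ∣ e)).card : ℝ) * (1 / (Nat.totient g : ℝ)) ≤
        ((B : ℝ) / g) * (1 / (Nat.totient g : ℝ)) := by gcongr
      _ = _ := by rw [div_mul_div_comm, mul_one, mul_one_div]
  have h10 : ∑ g ∈ Icc 1 B, 1 / ((g : ℝ) * Nat.totient g) ≤
      C * ∑' n : ℕ, 1 / (n : ℝ) ^ (7 / 4 : ℝ) := by
    calc ∑ g ∈ Icc 1 B, 1 / ((g : ℝ) * Nat.totient g) ≤
        ∑ g ∈ Icc 1 B, C * (1 / (g : ℝ) ^ (7 / 4 : ℝ)) :=
          sum_le_sum fun g hg => h g (mem_Icc.1 hg).1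
      _ = C * ∑ g ∈ Icc 1 B, (1 / (g : ℝ) ^ (7 / 4 : ℝ)) := by rw [mul_sum]
      _ ≤ _ := by
        apply mul_le_mul_of_nonneg_left _ hC.le
        exact summable_74.sum_le_tsum _ fun _ _ => by positivity
  calc ∑ e ∈ Ioc A B, 1 / (Nat.totient e : ℝ) ≤
      ∑ e ∈ Ioc A B, (1 / ((A : ℝ) + 1)) *
        ∑ g ∈ (Icc 1 B).filter (fun g => g ∣ e), 1 / (Nat.totient g : ℝ) := sum_le_sum h1
    _ = (1 / ((A : ℝ) + 1)) * ∑ e ∈ Ioc A B,
        ∑ g ∈ (Icc 1 B).filter (fun g => g ∣ e), 1 / (Nat.totient g : ℝ) := by rw [mul_sum]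
    _ ≤ (1 / ((A : ℝ) + 1)) * ∑ g ∈ Icc 1 B, (B : ℝ) * (1 / ((g : ℝ) * Nat.totient g)) := by gcongr
    _ = ((B : ℝ) / (A + 1)) * ∑ g ∈ Icc 1 B, 1 / ((g : ℝ) * Nat.totient g) := by
        rw [← mul_sum]; ring
    _ ≤ 2 * (C * (∑' n : ℕ, 1 / (n : ℝ) ^ (7 / 4 : ℝ))) := by
        have h11 : (B : ℝ) / (A + 1) ≤ 2 := by
          rw [div_le_iff₀ hA1, hB]
          push_cast
          linarith
        gcongr
    _ ≤ _ := by linarith

theorem sum_inv_totient_dvd : ∃ C : ℝ, 0 < C ∧ ∀ D r : ℕ, 1 ≤ r →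
    ∑ d ∈ (Ioc D (2 * D)).filter (fun d => r ∣ d), 1 / (Nat.totient d : ℝ) ≤
      C * (1 / (Nat.totient r : ℝ)) := by
  obtain ⟨C, hC, h⟩ := sum_inv_totient
  refine ⟨C, hC, fun D r hr => ?_⟩
  have hr0 : (0 : ℝ) < Nat.totient r := by exact_mod_cast Nat.totient_pos.2 hr
  have h1 : (Ioc D (2 * D)).filter (fun d => r ∣ d) ⊆
      (Ioc (D / r) (2 * (D / r) + 1)).image (fun e => r * e) := by
    intro d hd
    rw [mem_filter, mem_Ioc] at hd
    obtain ⟨⟨h2, h3⟩, e, rfl⟩ := hd
    rw [mem_image]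
    refine ⟨e, ?_, rfl⟩
    rw [mem_Ioc]
    constructor
    · rw [Nat.div_lt_iff_lt_mul (by omega), mul_comm]
      exact h2
    · have h4 : D < r * (D / r + 1) := by
        have := Nat.lt_mul_div_succ D (show 0 < r by omega)
        exact this
      have h5 : r * e < r * (2 * (D / r + 1)) := by
        calc r * e ≤ 2 * D := h3
          _ < 2 * (r * (D / r + 1)) := by omega
          _ = _ := by ring
      have h6 := Nat.lt_of_mul_lt_mul_left h5
      omega
  calc ∑ d ∈ (Ioc D (2 * D)).filter (fun d => r ∣ d), 1 / (Nat.totient d : ℝ) ≤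
      ∑ d ∈ (Ioc (D / r) (2 * (D / r) + 1)).image (fun e => r * e), 1 / (Nat.totient d : ℝ) :=
        sum_le_sum_of_subset_of_nonneg h1 fun _ _ _ => by positivity
    _ = ∑ e ∈ Ioc (D / r) (2 * (D / r) + 1), 1 / (Nat.totient (r * e) : ℝ) := by
        rw [sum_image]
        intro a _ b _ hab
        exact Nat.eq_of_mul_eq_mul_left (by omega) hab
    _ ≤ ∑ e ∈ Ioc (D / r) (2 * (D / r) + 1), (1 / (Nat.totient r : ℝ)) * (1 / (Nat.totient e : ℝ)) := by
        refine sum_le_sum fun e he => ?_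
        rw [mem_Ioc] at he
        have he0 : (0 : ℝ) < Nat.totient e := by exact_mod_cast Nat.totient_pos.2 (by omega)
        rw [one_div_mul_one_div]
        apply one_div_le_one_div_of_le (by positivity)
        exact_mod_cast Nat.totient_super_multiplicative r e
    _ = (1 / (Nat.totient r : ℝ)) * ∑ e ∈ Ioc (D / r) (2 * (D / r) + 1), 1 / (Nat.totient e : ℝ) := by
        rw [mul_sum]
    _ ≤ (1 / (Nat.totient r : ℝ)) * C := by
        apply mul_le_mul_of_nonneg_left (h _)
        positivity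
    _ = _ := by ring

/-! ### the convergent series -/

/-- the radical -/
def rd (f : ℕ) : ℕ := ∏ p ∈ f.primeFactors, p

theorem rd_pos (f : ℕ) : 1 ≤ rd f := by
  unfold rd
  exact Finset.prod_pos fun p hp => (Nat.prime_of_mem_primeFactors hp).pos

/-- `1/(f φ(rad f))` -/
noncomputable def hh (f : ℕ) : ℝ := 1 / ((f : ℝ) * Nat.totient (rd f))

theorem hh_nonneg (f : ℕ) : 0 ≤ hh f := by unfold hh; positivity

theorem summable_hh : Summable hh := by
  obtain ⟨C, hC, h⟩ := inv_mul_totient_le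
  choose a b hab using fun n : ℕ => Nat.sq_mul_squarefree n
  have hinj : Function.Injective (fun n => (a n, b n)) := by
    intro n m hnm
    simp only [Prod.mk.injEq] at hnm
    rw [← (hab n).1, ← (hab m).1, hnm.1, hnm.2]
  have h2 : Summable (fun n : ℕ => 1 / (n : ℝ) ^ (2 : ℝ)) :=
    Real.summable_one_div_nat_rpow.2 (by norm_num)
  have hs : Summable (fun x : ℕ × ℕ => (C * (1 / (x.1 : ℝ) ^ (7 / 4 : ℝ))) * (1 / (x.2 : ℝ) ^ (2 : ℝ))) :=
    (summable_74.mul_left C).mul_of_nonneg h2 (fun n => by positivity) (fun n => by positivity)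
  refine Summable.of_nonneg_of_le hh_nonneg (fun n => ?_) (hs.comp_injective hinj)
  simp only [Function.comp_apply]
  rcases Nat.eq_zero_or_pos n with h0 | h0
  · subst h0
    unfold hh
    simp only [Nat.cast_zero, zero_mul, div_zero]
    positivity
  obtain ⟨e1, e2⟩ := hab n
  have ha0 : 0 < a n := by
    rcases Nat.eq_zero_or_pos (a n) with h | h
    · rw [h, mul_zero] at e1; omega
    · exact h
  have hb0 : 0 < b n := by
    rcases Nat.eq_zero_or_pos (b n) with h | h
    · rw [h] at e1; simp at e1; omega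
    · exact h
  have hdvd : a n ∣ rd n := by
    unfold rd
    rw [← Nat.prod_primeFactors_of_squarefree e2]
    apply Finset.prod_dvd_prod_of_subset
    exact Nat.primeFactors_mono ⟨b n ^ 2, by rw [mul_comm]; exact e1.symm⟩ (by omega)
  have htot : Nat.totient (a n) ≤ Nat.totient (rd n) :=
    Nat.le_of_dvd (Nat.totient_pos.2 (rd_pos n)) (Nat.totient_dvd_of_dvd hdvd)
  have hta : (0 : ℝ) < Nat.totient (a n) := by exact_mod_cast Nat.totient_pos.2 ha0
  have ha0' : (0 : ℝ) < a n := by exact_mod_cast ha0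
  have hb0' : (0 : ℝ) < b n := by exact_mod_cast hb0
  have en : (n : ℝ) = (b n : ℝ) ^ 2 * a n := by exact_mod_cast e1.symm
  unfold hh
  have h3 := h (a n) ha0
  calc 1 / ((n : ℝ) * Nat.totient (rd n)) ≤ 1 / (((b n : ℝ) ^ 2 * a n) * Nat.totient (a n)) := by
        rw [en]
        apply one_div_le_one_div_of_le (by positivity)
        have : (Nat.totient (a n) : ℝ) ≤ Nat.totient (rd n) := by exact_mod_cast htot
        gcongr
    _ = (1 / ((a n : ℝ) * Nat.totient (a n))) * (1 / (b n : ℝ) ^ (2 : ℝ)) := by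
        rw [one_div_mul_one_div, show (2 : ℝ) = ((2 : ℕ) : ℝ) by norm_num, Real.rpow_natCast]
        congr 1
        ring
    _ ≤ _ := by gcongr

/-! ### the identity -/

theorem inner_id (M n d : ℕ) (hn : 1 ≤ n) (hnM : n ≤ M) (hd : 1 ≤ d) :
    ∑ f ∈ n.divisors, (if f ∣ d ^ M then (ArithmeticFunction.moebius (n / f) : ℤ) else 0) =
      if n.Coprime d then ArithmeticFunction.moebius n else 0 := by
  set a := Nat.gcd n (d ^ M) with ha
  have hapos : 0 < a := Nat.gcd_pos_of_pos_left _ (by omega)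
  obtain ⟨b, hb⟩ : a ∣ n := Nat.gcd_dvd_left _ _
  have had : a ∣ d ^ M := Nat.gcd_dvd_right _ _
  have hbpos : 0 < b := by
    rcases Nat.eq_zero_or_pos b with h | h
    · rw [h, mul_zero] at hb; omega
    · exact h
  have hbd : Nat.Coprime b d := by
    rw [Nat.coprime_iff_gcd_eq_one] 
    by_contra hne
    obtain ⟨p, hp, hpd⟩ := Nat.exists_prime_and_dvd hne
    have hpb : p ∣ b := hpd.trans (Nat.gcd_dvd_left _ _)
    have hpd' : p ∣ d := hpd.trans (Nat.gcd_dvd_right _ _)
    have h1 : a.factorization p = min (n.factorization p) ((d ^ M).factorization p) := by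
      rw [ha, Nat.factorization_gcd (by omega) (by positivity)]
      rfl
    have h2 : n.factorization p < n := Nat.factorization_lt p (by omega)
    have h3 : 1 ≤ d.factorization p := (hp.dvd_iff_one_le_factorization (by omega)).1 hpd'
    have h4 : n.factorization p ≤ (d ^ M).factorization p := by
      rw [Nat.factorization_pow, Finsupp.smul_apply, smul_eq_mul]
      nlinarith
    rw [min_eq_left h4] at h1
    have h5 : n.factorization p = a.factorization p + b.factorization p := by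
      conv_lhs => rw [hb]
      rw [Nat.factorization_mul (by omega) (by omega)]
      rfl
    have h6 : 1 ≤ b.factorization p := (hp.dvd_iff_one_le_factorization (by omega)).1 hpb
    omega
  have hab : Nat.Coprime a b := (Nat.Coprime.coprime_dvd_left had (hbd.symm.pow_left M))
  have hfil : n.divisors.filter (fun f => f ∣ d ^ M) = a.divisors := by
    ext f
    rw [mem_filter, Nat.mem_divisors, Nat.mem_divisors, ha, Nat.dvd_gcd_iff]
    constructor
    · rintro ⟨⟨h1, _⟩, h2⟩
      exact ⟨⟨h1, h2⟩, by rw [← ha]; omega⟩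
    · rintro ⟨⟨h1, h2⟩, _⟩
      exact ⟨⟨h1, by omega⟩, h2⟩
  rw [← sum_filter, hfil]
  have h7 : ∀ f ∈ a.divisors, ArithmeticFunction.moebius (n / f) =
      ArithmeticFunction.moebius b * ArithmeticFunction.moebius (a / f) := by
    intro f hf
    obtain ⟨c, hc⟩ := Nat.dvd_of_mem_divisors hf
    have hf0 : 0 < f := Nat.pos_of_mem_divisors hf
    have e1 : n / f = c * b := by
      rw [hb, hc, mul_assoc]
      exact Nat.mul_div_cancel_left _ hf0
    have e2 : a / f = c := by
      rw [hc]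
      exact Nat.mul_div_cancel_left _ hf0
    rw [e1, e2, ArithmeticFunction.isMultiplicative_moebius.map_mul_of_coprime
      (Nat.Coprime.coprime_dvd_left ⟨f, by rw [mul_comm]; exact hc⟩ hab)]
    ring
  rw [sum_congr rfl h7, ← mul_sum]
  have h8 : ∑ f ∈ a.divisors, ArithmeticFunction.moebius (a / f) = if a = 1 then 1 else 0 := by
    rw [Nat.sum_div_divisors a (fun x => (ArithmeticFunction.moebius x : ℤ))]
    have h9 : (ArithmeticFunction.moebius * (ArithmeticFunction.zeta : ArithmeticFunction ℤ)) a =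
        (1 : ArithmeticFunction ℤ) a := by
      rw [ArithmeticFunction.moebius_mul_coe_zeta]
    rw [ArithmeticFunction.coe_mul_zeta_apply, ArithmeticFunction.one_apply] at h9
    exact h9
  rw [h8]
  by_cases hc : n.Coprime d
  · have ha1 : a = 1 := by
      rw [ha]
      exact (Nat.Coprime.pow_right M hc)
    rw [if_pos hc, if_pos ha1, mul_one]
    rw [ha1, one_mul] at hb
    rw [hb]
  · have ha1 : a ≠ 1 := by
      intro h
      rw [h, one_mul] at hb
      exact hc (by rw [hb]; exact hbd)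
    rw [if_neg hc, if_neg ha1, mul_zero]

/-- `∑_{m ≤ y} μ(m)` -/
noncomputable def Mo (y : ℕ) : ℝ := ∑ m ∈ Icc 1 y, (ArithmeticFunction.moebius m : ℝ)

theorem Mo_le (y : ℕ) : |Mo y| ≤ y := by
  unfold Mo
  refine (abs_sum_le_sum_abs _ _).trans ?_
  have h1 : ∀ m ∈ Icc 1 y, |(ArithmeticFunction.moebius m : ℝ)| ≤ 1 := by
    intro m _
    have := ArithmeticFunction.abs_moebius_le_one (n := m)
    exact_mod_cast this
  refine (sum_le_sum h1).trans ?_
  simp

theorem identity (M d : ℕ) (hd : 1 ≤ d) :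
    ∑ m ∈ (Icc 1 M).filter (fun m => Nat.Coprime m d), (ArithmeticFunction.moebius m : ℝ) =
      ∑ f ∈ Icc 1 M, if f ∣ d ^ M then Mo (M / f) else 0 := by
  -- reorganise
  have h1 : ∑ f ∈ Icc 1 M, (if f ∣ d ^ M then Mo (M / f) else 0) =
      ∑ n ∈ Icc 1 M, ((∑ f ∈ n.divisors,
        (if f ∣ d ^ M then (ArithmeticFunction.moebius (n / f) : ℤ) else 0) : ℤ) : ℝ) := by
    push_cast
    have h2 : ∀ f ∈ Icc 1 M, (if f ∣ d ^ M then Mo (M / f) else 0) =
        ∑ n ∈ (Icc 1 M).filter (fun n => f ∣ n),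
          (if f ∣ d ^ M then (ArithmeticFunction.moebius (n / f) : ℝ) else 0) := by
      intro f hf
      rw [mem_Icc] at hf
      have h3 : (Icc 1 M).filter (fun n => f ∣ n) = (Icc 1 (M / f)).image (fun m => f * m) := by
        ext n
        rw [mem_filter, mem_Icc, mem_image]
        constructor
        · rintro ⟨⟨h4, h5⟩, m, rfl⟩
          refine ⟨m, ?_, rfl⟩
          rw [mem_Icc]
          constructor
          · rcases Nat.eq_zero_or_pos m with h | h
            · rw [h, mul_zero] at h4; omega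
            · exact h
          · rw [Nat.le_div_iff_mul_le (by omega), mul_comm]
            exact h5
        · rintro ⟨m, hm, rfl⟩
          rw [mem_Icc, Nat.le_div_iff_mul_le (by omega)] at hm
          refine ⟨⟨?_, by rw [mul_comm]; exact hm.2⟩, m, rfl⟩
          exact Nat.mul_pos (by omega) (by omega)
      rw [h3, sum_image (by
        intro x _ y _ hxy
        exact Nat.eq_of_mul_eq_mul_left (by omega) hxy)]
      split_ifs
      · unfold Mo
        refine sum_congr rfl fun m _ => ?_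
        rw [Nat.mul_div_cancel_left _ (by omega)]
      · simp
    rw [sum_congr rfl h2]
    simp only [sum_filter]
    rw [sum_comm]
    refine sum_congr rfl fun n hn => ?_
    rw [mem_Icc] at hn
    rw [← sum_filter]
    apply sum_congr
    · ext f
      rw [mem_filter, mem_Icc, Nat.mem_divisors]
      constructor
      · rintro ⟨_, h⟩
        exact ⟨h, by omega⟩
      · rintro ⟨h, _⟩
        have := Nat.le_of_dvd (by omega) h
        have := Nat.pos_of_dvd_of_pos h (by omega)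
        exact ⟨⟨by omega, by omega⟩, h⟩
    · intro _ _
      rfl
  rw [h1, sum_filter]
  refine sum_congr rfl fun n hn => ?_
  rw [mem_Icc] at hn
  rw [inner_id M n d hn.1 hn.2 hd]
  push_cast
  rfl

theorem rd_dvd {f d M : ℕ} (hd : 1 ≤ d) (h : f ∣ d ^ M) : rd f ∣ d := by
  unfold rd
  have h1 : f.primeFactors ⊆ d.primeFactors := by
    intro p hp
    rw [Nat.mem_primeFactors] at hp ⊢
    exact ⟨hp.1, hp.1.dvd_of_dvd_pow (hp.2.1.trans h), by omega⟩
  exact (Finset.prod_dvd_prod_of_subset _ _ _ h1).trans (Nat.prod_primeFactors_dvd d)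

/-- the prime number theorem for `μ` -/
theorem Mo_small (η : ℝ) (hη : 0 < η) : ∃ y0 : ℕ, ∀ y : ℕ, y0 ≤ y → |Mo y| ≤ η * y := by
  obtain ⟨N0, hN0⟩ := Pool.Agent.H705R2.MSW.swMu 1 0
  obtain ⟨N1, hN1⟩ := exists_nat_ge (Real.exp (2 / η))
  refine ⟨N0 + N1 + 2, fun y hy => ?_⟩
  have h1 := hN0 (y + 1) (by omega) 1 0 le_rfl (by simp)
  have e1 : ∑ n ∈ (Finset.range (y + 1)).filter (fun n => n % 1 = 0),
      ((ArithmeticFunction.moebius n : ℤ) : ℝ) = Mo y := by
    unfold Mo
    have h2 : (Finset.range (y + 1)).filter (fun n => n % 1 = 0) = insert 0 (Icc 1 y) := by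
      ext n
      rw [mem_filter, mem_range, mem_insert, mem_Icc]
      constructor
      · rintro ⟨h3, _⟩
        omega
      · intro h3
        exact ⟨by omega, Nat.mod_one n⟩
    rw [h2, sum_insert (by simp)]
    simp
  rw [e1] at h1
  have hy1 : (2 : ℝ) ≤ y := by exact_mod_cast (by omega : 2 ≤ y)
  have hlog : 2 / η ≤ Real.log ((y + 1 : ℕ) : ℝ) := by
    rw [Real.le_log_iff_exp_le (by positivity)]
    refine hN1.trans ?_
    exact_mod_cast (by omega : N1 ≤ y + 1)
  have hlog0 : 0 < Real.log ((y + 1 : ℕ) : ℝ) := lt_of_lt_of_le (by positivity) hlog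
  refine h1.trans ?_
  rw [pow_one, div_le_iff₀ hlog0]
  have h3 : 2 ≤ η * Real.log ((y + 1 : ℕ) : ℝ) := by
    rw [div_le_iff₀ hη] at hlog
    linarith
  push_cast at h3 ⊢
  nlinarith

end TMU

open TMU

theorem t_MU : P_MU := by
  intro ε hε
  obtain ⟨C1, hC1, hC⟩ := sum_inv_totient_dvd
  have hH : 0 ≤ ∑' f, hh f := tsum_nonneg hh_nonneg
  -- the tail
  obtain ⟨F0, hF0⟩ : ∃ F0 : ℕ, ∀ s : Finset ℕ, (∀ f ∈ s, F0 < f) →
      ∑ f ∈ s, hh f ≤ ε / (2 * C1) := by
    have h1 := summable_hh.vanishing (e := Set.Iic (ε / (2 * C1)))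
      (Iic_mem_nhds (by positivity))
    obtain ⟨t, ht⟩ := h1
    refine ⟨t.sup id, fun s hs => ht s ?_⟩
    rw [disjoint_left]
    intro f hf hft
    exact absurd (hs f hf) (not_lt.2 (le_sup (f := id) hft))
  obtain ⟨y0, hy0⟩ := Mo_small (ε / (2 * C1 * (∑' f, hh f + 1))) (by positivity)
  refine ⟨y0 * (F0 + 1), fun M hM D hD => ?_⟩
  -- exchange
  have h1 : ∀ d ∈ Ioc D (2 * D), (1 / (Nat.totient d : ℝ)) *
      |∑ m ∈ (Icc 1 M).filter (fun m => Nat.Coprime m d), (ArithmeticFunction.moebius m : ℝ)| ≤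
      ∑ f ∈ Icc 1 M, if rd f ∣ d then |Mo (M / f)| * (1 / (Nat.totient d : ℝ)) else 0 := by
    intro d hd
    rw [mem_Ioc] at hd
    rw [identity M d (by omega)]
    calc (1 / (Nat.totient d : ℝ)) * |∑ f ∈ Icc 1 M, if f ∣ d ^ M then Mo (M / f) else 0| ≤
        (1 / (Nat.totient d : ℝ)) * ∑ f ∈ Icc 1 M, |if f ∣ d ^ M then Mo (M / f) else 0| := by
          gcongr
          exact abs_sum_le_sum_abs _ _
      _ = ∑ f ∈ Icc 1 M, (1 / (Nat.totient d : ℝ)) * |if f ∣ d ^ M then Mo (M / f) else 0| := by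
          rw [mul_sum]
      _ ≤ _ := by
          refine sum_le_sum fun f _ => ?_
          by_cases h : f ∣ d ^ M
          · rw [if_pos h, if_pos (rd_dvd (by omega) h)]
            linarith [mul_comm (1 / (Nat.totient d : ℝ)) |Mo (M / f)|]
          · rw [if_neg h, abs_zero, mul_zero]
            split_ifs <;> positivity
  refine (sum_le_sum h1).trans ?_
  rw [sum_comm]
  have h2 : ∀ f ∈ Icc 1 M, ∑ d ∈ Ioc D (2 * D),
      (if rd f ∣ d then |Mo (M / f)| * (1 / (Nat.totient d : ℝ)) else 0) ≤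
      |Mo (M / f)| * (C1 * (1 / (Nat.totient (rd f) : ℝ))) := by
    intro f _
    rw [← sum_filter, ← mul_sum]
    exact mul_le_mul_of_nonneg_left (hC D (rd f) (rd_pos f)) (abs_nonneg _)
  refine (sum_le_sum h2).trans ?_
  -- split
  have h3 : ∀ f ∈ Icc 1 M, |Mo (M / f)| * (C1 * (1 / (Nat.totient (rd f) : ℝ))) ≤
      (if F0 < f then C1 * M * hh f else 0) +
        ε / (2 * C1 * (∑' f, hh f + 1)) * (C1 * M * hh f) := by
    intro f hf
    rw [mem_Icc] at hf
    have hf0 : (0 : ℝ) < f := by exact_mod_cast hf.1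
    have ht0 : (0 : ℝ) < Nat.totient (rd f) := by exact_mod_cast Nat.totient_pos.2 (rd_pos f)
    have hdiv : ((M / f : ℕ) : ℝ) ≤ M / f := Nat.cast_div_le
    have e1 : (M : ℝ) / f * (C1 * (1 / (Nat.totient (rd f) : ℝ))) = C1 * M * hh f := by
      unfold hh
      field_simp
    have hnn : 0 ≤ ε / (2 * C1 * (∑' f, hh f + 1)) * (C1 * M * hh f) := by
      have := hh_nonneg f
      positivity
    by_cases h : F0 < f
    · rw [if_pos h]
      calc |Mo (M / f)| * (C1 * (1 / (Nat.totient (rd f) : ℝ))) ≤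
          (M : ℝ) / f * (C1 * (1 / (Nat.totient (rd f) : ℝ))) := by
            apply mul_le_mul_of_nonneg_right _ (by positivity)
            exact (Mo_le _).trans hdiv
        _ = C1 * M * hh f := e1
        _ ≤ _ := by linarith
    · rw [if_neg h, zero_add]
      have hyf : y0 ≤ M / f := by
        rw [Nat.le_div_iff_mul_le (by omega)]
        refine le_trans ?_ hM
        exact Nat.mul_le_mul_left _ (by omega)
      calc |Mo (M / f)| * (C1 * (1 / (Nat.totient (rd f) : ℝ))) ≤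
          (ε / (2 * C1 * (∑' f, hh f + 1)) * ((M : ℝ) / f)) *
            (C1 * (1 / (Nat.totient (rd f) : ℝ))) := by
            apply mul_le_mul_of_nonneg_right _ (by positivity)
            refine (hy0 _ hyf).trans ?_
            gcongr
        _ = ε / (2 * C1 * (∑' f, hh f + 1)) *
            ((M : ℝ) / f * (C1 * (1 / (Nat.totient (rd f) : ℝ)))) := by ring
        _ = _ := by rw [e1]
  refine (sum_le_sum h3).trans ?_
  rw [sum_add_distrib, ← sum_filter, ← mul_sum, ← mul_sum, ← mul_sum]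
  have h4 : ∑ f ∈ (Icc 1 M).filter (fun f => F0 < f), hh f ≤ ε / (2 * C1) :=
    hF0 _ fun f hf => (mem_filter.1 hf).2
  have h5 : ∑ f ∈ Icc 1 M, hh f ≤ ∑' f, hh f :=
    summable_hh.sum_le_tsum _ fun f _ => hh_nonneg f
  have h6 : C1 * M * ∑ f ∈ (Icc 1 M).filter (fun f => F0 < f), hh f ≤ ε / 2 * M := by
    calc C1 * M * ∑ f ∈ (Icc 1 M).filter (fun f => F0 < f), hh f ≤ C1 * M * (ε / (2 * C1)) := by
          gcongr
      _ = ε / 2 * M := by field_simp
  have h7 : ε / (2 * C1 * (∑' f, hh f + 1)) * (C1 * M * ∑ f ∈ Icc 1 M, hh f) ≤ ε / 2 * M := by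
    calc ε / (2 * C1 * (∑' f, hh f + 1)) * (C1 * M * ∑ f ∈ Icc 1 M, hh f) ≤
        ε / (2 * C1 * (∑' f, hh f + 1)) * (C1 * M * (∑' f, hh f + 1)) := by
          gcongr
          linarith
      _ = ε / 2 * M := by
          have : (∑' f, hh f + 1) ≠ 0 := by positivity
          field_simp
  linarith

end Pool.Agent.H262R4.FR
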