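import Pool.Agent.H262R4.FR.Stubs
import Pool.Agent.H442R2.KF.Kfb

/-! FR project, task PH: phases. -/

set_option autoImplicit false

namespace Pool.Agent.H262R4.FR

open Finset
open Pool.Agent.H442R2.KF (e kf Wt tau)

namespace TPH

/-- the common solution of the two congruences -/
theorem exists_u (a p1 p2 g e1 e2 t : ℤ) (h1 : IsCoprime p1 (g * e1)) (h2 : IsCoprime p2 (g * e2))
    (he : IsCoprime e1 e2) (ht : p2 - p1 = g * t) :
    ∃ u : ℤ, g * e1 ∣ u * p1 - a ∧ g * e2 ∣ u * p2 - a := by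
  obtain ⟨x1, y1, hx1⟩ := h1
  obtain ⟨x2, y2, hx2⟩ := h2
  obtain ⟨x, y, hxy⟩ := he
  -- `u1 = a x1`, `u2 = a x2`
  have hg : g ∣ a * x2 - a * x1 := by
    -- p1 (u2 - u1) = ... multiple of g
    have h3 : g ∣ p1 * (a * x2 - a * x1) := by
      refine ⟨a * (e1 * y1 - e2 * y2 - t * x2), ?_⟩
      linear_combination (a * x2) * (-ht) - a * hx1 + a * hx2
    have h4 : IsCoprime g p1 := ⟨e1 * y1, x1, by linear_combination hx1⟩
    exact h4.dvd_of_dvd_mul_left h3
  obtain ⟨w, hw⟩ := hg
  refine ⟨a * x1 + g * e1 * (x * w), ?_, ?_⟩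
  · refine ⟨-(a * y1) + x * w * p1, ?_⟩
    linear_combination a * hx1
  · -- u = u2 + g (e1 x w - w) = u2 - g e2 y w
    refine ⟨-(a * y2) - y * w * p2, ?_⟩
    linear_combination a * hx2 + p2 * (g * w) * hxy - p2 * hw

end TPH

theorem t_PH : P_PH := by
  constructor
  · intro a d1 d2 p1 p2 g e1 e2 t ha hg he1 he2 hd1 hd2 he hp1 hp2 hgood hga1 hga2 ht
    obtain ⟨hne, hcop⟩ := hgood
    have hc1 : Nat.Coprime p1 (d1 * d2) := hcop.coprime_dvd_left (Dvd.intro _ rfl)
    have hc2 : Nat.Coprime p2 (d1 * d2) := hcop.coprime_dvd_left (Dvd.intro_left _ rfl)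
    have hc11 : Nat.Coprime p1 (g * e1) := by
      rw [← hd1]; exact hc1.coprime_dvd_right (Dvd.intro _ rfl)
    have hc12 : Nat.Coprime p1 (g * e2) := by
      rw [← hd2]; exact hc1.coprime_dvd_right (Dvd.intro_left _ rfl)
    have hc21 : Nat.Coprime p2 (g * e1) := by
      rw [← hd1]; exact hc2.coprime_dvd_right (Dvd.intro _ rfl)
    have hc22 : Nat.Coprime p2 (g * e2) := by
      rw [← hd2]; exact hc2.coprime_dvd_right (Dvd.intro_left _ rfl)
    have i11 : IsCoprime (p1 : ℤ) ((g : ℤ) * e1) := by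
      have := Nat.isCoprime_iff_coprime.2 hc11
      push_cast at this
      exact this
    have i22 : IsCoprime (p2 : ℤ) ((g : ℤ) * e2) := by
      have := Nat.isCoprime_iff_coprime.2 hc22
      push_cast at this
      exact this
    have ie : IsCoprime (e1 : ℤ) (e2 : ℤ) := Nat.isCoprime_iff_coprime.2 he
    obtain ⟨u, hu1, hu2⟩ := TPH.exists_u a p1 p2 g e1 e2 t i11 i22 ie ht
    have hg0 : (g : ℤ) ≠ 0 := by exact_mod_cast (by omega : g ≠ 0)
    refine ⟨u, ?_, ?_⟩
    · intro m
      subst hd1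
      subst hd2
      constructor
      · rintro ⟨h1, h2⟩
        have k1 : (g : ℤ) * e1 ∣ m - u := by
          have h3 : (g : ℤ) * e1 ∣ (p1 : ℤ) * (m - u) := by
            have h4 := dvd_sub h1 (by push_cast; exact hu1)
            push_cast at h4
            have e : (p1 : ℤ) * (m - u) = m * p1 - a - (u * p1 - a) := by ring
            rw [e]; exact h4
          exact i11.symm.dvd_of_dvd_mul_left h3
        have k2 : (g : ℤ) * e2 ∣ m - u := by
          have h3 : (g : ℤ) * e2 ∣ (p2 : ℤ) * (m - u) := by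
            have h4 := dvd_sub h2 (by push_cast; exact hu2)
            push_cast at h4
            have e : (p2 : ℤ) * (m - u) = m * p2 - a - (u * p2 - a) := by ring
            rw [e]; exact h4
          exact i22.symm.dvd_of_dvd_mul_left h3
        obtain ⟨α, hα⟩ := k1
        obtain ⟨β, hβ⟩ := k2
        have h5 : (e1 : ℤ) * α = e2 * β := by
          apply mul_left_cancel₀ hg0
          rw [← mul_assoc, ← mul_assoc, ← hα, ← hβ]
        have h6 : (e2 : ℤ) ∣ α := ie.symm.dvd_of_dvd_mul_left ⟨β, h5⟩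
        obtain ⟨α', hα'⟩ := h6
        refine ⟨α', ?_⟩
        rw [hα, hα']
        push_cast
        ring
      · rintro ⟨r, hr⟩
        have hm : m = u + g * e1 * e2 * r := by
          push_cast at hr
          linarith
        constructor
        · push_cast
          have e : m * p1 - a = (u * p1 - a) + (g * e1) * (e2 * r * p1) := by rw [hm]; ring
          rw [e]
          exact dvd_add hu1 (Dvd.intro _ rfl)
        · push_cast
          have e : m * p2 - a = (u * p2 - a) + (g * e2) * (e1 * r * p2) := by rw [hm]; ring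
          rw [e]
          exact dvd_add hu2 (Dvd.intro _ rfl)
    · intro j
      obtain ⟨s, hs⟩ := hu1
      obtain ⟨r, hr⟩ := hu2
      have hp1pos : 0 < p1 := hp1.pos
      have hn : 0 < p1 * e2 := Nat.mul_pos hp1pos he2
      -- divisibility
      have k1 : (e2 : ℤ) ∣ (e1 * p2) * s + a * t := by
        have h3 : (e2 : ℤ) * r = e1 * s + u * t := by
          apply mul_left_cancel₀ hg0
          linear_combination hs - hr + u * ht
        refine ⟨r * p1, ?_⟩
        linear_combination (-(p1 : ℤ)) * h3 - t * hs + (e1 : ℤ) * s * ht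
      have k2 : (p1 : ℤ) ∣ (e1 * p2) * s + a * t := by
        have h3 : (p1 : ℤ) ∣ g * ((e1 * p2) * s + a * t) := by
          refine ⟨u * p2 - a, ?_⟩
          linear_combination (-(p2 : ℤ)) * hs - a * ht
        have h4 : IsCoprime (p1 : ℤ) (g : ℤ) := i11.of_isCoprime_of_dvd_right (Dvd.intro _ rfl)
        exact h4.dvd_of_dvd_mul_left h3
      have h5 : IsCoprime (p1 : ℤ) (e2 : ℤ) := by
        have h6 : Nat.Coprime p1 e2 := hc12.coprime_dvd_right (Dvd.intro_left _ rfl)
        exact Nat.isCoprime_iff_coprime.2 h6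
      have k3 : (p1 : ℤ) * e2 ∣ (e1 * p2) * s + a * t := h5.mul_dvd k2 k1
      -- the unit
      have hun : IsCoprime (((e1 * p2 : ℕ) : ℤ)) ((p1 * e2 : ℕ) : ℤ) := by
        rw [Nat.isCoprime_iff_coprime]
        apply Nat.Coprime.mul_left
        · apply Nat.Coprime.mul_right
          · exact (hc11.coprime_dvd_right (Dvd.intro_left _ rfl)).symm
          · exact he
        · apply Nat.Coprime.mul_right
          · exact (Nat.coprime_primes hp2 hp1).2 (fun h => hne h.symm)
          · exact hc22.coprime_dvd_right (Dvd.intro_left _ rfl)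
      have hunit : IsUnit (((e1 * p2 : ℕ) : ℤ) : ZMod (p1 * e2)) :=
        (ZMod.coe_int_isUnit_iff_isCoprime _ _).2 hun.symm
      have hchar : ((j * s : ℤ) : ZMod (p1 * e2)) =
          ((-(j * a * t) : ℤ) : ZMod (p1 * e2)) *
            ((((e1 * p2 : ℕ) : ℤ) : ZMod (p1 * e2)))⁻¹ := by
        have h7 : ((((e1 * p2 : ℕ) : ℤ) * (j * s) + j * a * t : ℤ) : ZMod (p1 * e2)) = 0 := by
          rw [ZMod.intCast_zmod_eq_zero_iff_dvd]
          push_cast
          have h8 := dvd_mul_of_dvd_right k3 j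
          have e : (e1 : ℤ) * p2 * (j * s) + j * a * t = j * ((e1 * p2) * s + a * t) := by ring
          rw [e]
          exact h8
        have h8 : ((((e1 * p2 : ℕ) : ℤ)) : ZMod (p1 * e2)) * ((j * s : ℤ) : ZMod (p1 * e2)) =
            ((-(j * a * t) : ℤ) : ZMod (p1 * e2)) := by
          rw [Int.cast_add, Int.cast_mul] at h7
          rw [Int.cast_neg]
          exact eq_neg_of_add_eq_zero_left h7
        rw [← h8, mul_comm ((((e1 * p2 : ℕ) : ℤ)) : ZMod (p1 * e2)) _, mul_assoc,
          ZMod.mul_inv_of_unit _ hunit, mul_one]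
      rw [Pool.Agent.H442R2.KF.TaskA.kf_char (p1 * e2) hn (-(j * a * t)) ((e1 * p2 : ℕ) : ℤ)
        (j * s) hchar, ← Pool.Agent.H442R2.KF.e_add]
      congr 1
      have hp1r : (p1 : ℝ) ≠ 0 := by exact_mod_cast hp1pos.ne'
      have hgr : (g : ℝ) ≠ 0 := by exact_mod_cast (by omega : g ≠ 0)
      have he1r : (e1 : ℝ) ≠ 0 := by exact_mod_cast (by omega : e1 ≠ 0)
      have he2r : (e2 : ℝ) ≠ 0 := by exact_mod_cast (by omega : e2 ≠ 0)
      have hsr : (u : ℝ) * p1 - a = g * e1 * s := by exact_mod_cast hs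
      push_cast
      field_simp
      linear_combination (j : ℝ) * hsr
  · intro a Y d1 d2 p1 p2 hd1 hd2 hga hndvd
    unfold S11
    have hz : ∀ m : ℤ, Wd Y m * (Ii a d1 p1 m * Ii a d2 p2 m) = 0 := by
      intro m
      unfold Ii
      by_cases h1 : (d1 : ℤ) ∣ m * p1 - a
      · by_cases h2 : (d2 : ℤ) ∣ m * p2 - a
        · exfalso
          apply hndvd
          have hg1 : ((Nat.gcd d1 d2 : ℕ) : ℤ) ∣ (d1 : ℤ) := by
            exact_mod_cast Nat.gcd_dvd_left d1 d2
          have hg2 : ((Nat.gcd d1 d2 : ℕ) : ℤ) ∣ (d2 : ℤ) := by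
            exact_mod_cast Nat.gcd_dvd_right d1 d2
          have h3 : ((Nat.gcd d1 d2 : ℕ) : ℤ) ∣ m * ((p1 : ℤ) - p2) := by
            have h4 := dvd_sub (hg1.trans h1) (hg2.trans h2)
            have e : m * ((p1 : ℤ) - p2) = m * p1 - a - (m * p2 - a) := by ring
            rw [e]; exact h4
          have h5 : IsCoprime m (d1 : ℤ) := by
            obtain ⟨x, y, hxy⟩ := Int.isCoprime_iff_gcd_eq_one.2 hga
            obtain ⟨z, hz⟩ := h1
            refine ⟨x * p1, y - x * z, ?_⟩
            linear_combination hxy + x * hz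
          have h6 : IsCoprime ((Nat.gcd d1 d2 : ℕ) : ℤ) m :=
            (h5.of_isCoprime_of_dvd_right hg1).symm
          exact h6.dvd_of_dvd_mul_left h3
        · rw [if_neg h2, mul_zero, mul_zero]
      · rw [if_neg h1, zero_mul, mul_zero]
    rw [tsum_congr hz, tsum_zero]

end Pool.Agent.H262R4.FR
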