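import Pool.Agent.H262R4.FR.Stubs
import Pool.Agent.H442R2.KF.Poi
import Pool.Agent.H442R2.KF.Summ

/-!
FR project: task PHX, Poisson summation for a good quadruple.
-/

namespace Pool.Agent.H262R4.FR

open Finset
open Pool.Agent.H442R2.KF (e kf Wt e_zero conj_e poisson_trunc)

namespace TPHX

lemma sum_symm (f : ℤ → ℂ) (J : ℕ) :
    ∑ j ∈ Icc (-(J : ℤ)) J, f j = f 0 + ∑ j ∈ Icc 1 J, (f (j : ℤ) + f (-(j : ℤ))) := by
  induction J with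
  | zero => simp
  | succ J ih =>
    have h : Icc (-((J + 1 : ℕ) : ℤ)) ((J + 1 : ℕ) : ℤ) =
        insert ((J + 1 : ℕ) : ℤ) (insert (-((J + 1 : ℕ) : ℤ)) (Icc (-(J : ℤ)) J)) := by
      ext x
      simp only [mem_Icc, mem_insert]
      push_cast
      omega
    rw [h, sum_insert, sum_insert, ih, Finset.sum_Icc_succ_top (by omega)]
    · ring
    · simp only [mem_Icc, not_and, not_le]
      push_cast
      omega
    · simp only [mem_insert, mem_Icc, not_or, not_and, not_le]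
      push_cast
      omega

lemma gam_neg (ξ : ℝ) : gam (-ξ) = gam ξ := by
  unfold gam
  rw [show (2 * -ξ) ^ 2 = (2 * ξ) ^ 2 by ring, show (-ξ) ^ 2 = ξ ^ 2 by ring]

lemma gam_zero : gam 0 = 1 := by
  unfold gam
  norm_num

/-- the difference of the two Poisson sums -/
lemma diff (Y k J : ℕ) (u : ℤ) :
    (((2 * Y : ℕ) : ℝ) / k : ℝ) * ∑ j ∈ Icc (-(J : ℤ)) J,
        ((Real.exp (-Real.pi * ((j : ℝ) * ((2 * Y : ℕ) : ℝ) / k) ^ 2) : ℝ) : ℂ) *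
          e ((j : ℝ) * u / k) -
      ((Y : ℝ) / k : ℝ) * ∑ j ∈ Icc (-(J : ℤ)) J,
        ((Real.exp (-Real.pi * ((j : ℝ) * (Y : ℝ) / k) ^ 2) : ℝ) : ℂ) * e ((j : ℝ) * u / k) =
    (((Y : ℝ) / k + 2 * ((Y : ℝ) / k) * (∑ j ∈ Icc 1 J,
      ((gam ((j : ℝ) * Y / k) : ℝ) : ℂ) * e ((j : ℝ) * u / k)).re : ℝ) : ℂ) := by
  have h1 : (((2 * Y : ℕ) : ℝ) / k : ℝ) * ∑ j ∈ Icc (-(J : ℤ)) J,
        ((Real.exp (-Real.pi * ((j : ℝ) * ((2 * Y : ℕ) : ℝ) / k) ^ 2) : ℝ) : ℂ) *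
          e ((j : ℝ) * u / k) -
      ((Y : ℝ) / k : ℝ) * ∑ j ∈ Icc (-(J : ℤ)) J,
        ((Real.exp (-Real.pi * ((j : ℝ) * (Y : ℝ) / k) ^ 2) : ℝ) : ℂ) * e ((j : ℝ) * u / k) =
      ((Y : ℝ) / k : ℝ) * ∑ j ∈ Icc (-(J : ℤ)) J,
        ((gam ((j : ℝ) * Y / k) : ℝ) : ℂ) * e ((j : ℝ) * u / k) := by
    rw [Finset.mul_sum, Finset.mul_sum, Finset.mul_sum, ← Finset.sum_sub_distrib]
    refine Finset.sum_congr rfl fun j _ => ?_
    unfold gam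
    have e1 : (j : ℝ) * ((2 * Y : ℕ) : ℝ) / k = 2 * ((j : ℝ) * Y / k) := by
      push_cast
      ring
    rw [e1]
    push_cast
    ring
  rw [h1, sum_symm (fun j : ℤ => ((gam ((j : ℝ) * Y / k) : ℝ) : ℂ) * e ((j : ℝ) * u / k))]
  have h2 : ((gam (((0 : ℤ) : ℝ) * Y / k) : ℝ) : ℂ) * e (((0 : ℤ) : ℝ) * u / k) = 1 := by
    simp [gam_zero, e_zero]
  rw [h2]
  have h3 : ∀ j ∈ Icc 1 J, ((gam (((j : ℤ) : ℝ) * Y / k) : ℝ) : ℂ) * e (((j : ℤ) : ℝ) * u / k) +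
      ((gam (((-(j : ℤ) : ℤ) : ℝ) * Y / k) : ℝ) : ℂ) * e (((-(j : ℤ) : ℤ) : ℝ) * u / k) =
      ((2 * (((gam ((j : ℝ) * Y / k) : ℝ) : ℂ) * e ((j : ℝ) * u / k)).re : ℝ) : ℂ) := by
    intro j _
    have e1 : (((-(j : ℤ) : ℤ) : ℝ)) * Y / k = -((j : ℝ) * Y / k) := by push_cast; ring
    have e2 : (((-(j : ℤ) : ℤ) : ℝ)) * u / k = -((j : ℝ) * u / k) := by push_cast; ring
    rw [e1, e2, gam_neg, ← conj_e, Int.cast_natCast]
    have e3 : ((gam ((j : ℝ) * Y / k) : ℝ) : ℂ) * (starRingEnd ℂ) (e ((j : ℝ) * u / k)) =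
        (starRingEnd ℂ) (((gam ((j : ℝ) * Y / k) : ℝ) : ℂ) * e ((j : ℝ) * u / k)) := by
      rw [map_mul, Complex.conj_ofReal]
    rw [e3, Complex.add_conj]
  rw [Finset.sum_congr rfl h3, ← Complex.ofReal_sum, ← Finset.mul_sum, ← Complex.re_sum]
  push_cast
  ring

end TPHX

theorem t_PHX (h : P_PH) : P_PHX := by
  obtain ⟨N₀, hN₀⟩ := poisson_trunc
  refine ⟨max N₀ 2, ?_⟩
  intro a Y d1 d2 p1 p2 g e1 e2 t J hY ha hg he1 he2 hd1 hd2 hco hp1 hp2 hgood ha1 ha2 ht hk3 hkJ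
  have hYN : N₀ ≤ Y := le_trans (le_max_left _ _) hY
  have hY2 : 2 ≤ Y := le_trans (le_max_right _ _) hY
  have hY2R : (2 : ℝ) ≤ Y := by exact_mod_cast hY2
  obtain ⟨u, hu1, hu2⟩ := h.1 a d1 d2 p1 p2 g e1 e2 t ha hg he1 he2 hd1 hd2 hco hp1 hp2 hgood
    ha1 ha2 ht
  set k : ℕ := g * e1 * e2 with hk
  have hk1 : 1 ≤ k := Nat.one_le_iff_ne_zero.2 (by positivity)
  have hk0 : (0 : ℝ) < k := by exact_mod_cast hk1
  have hs2 : Summable (fun m : ℤ => if (k : ℤ) ∣ m - u then Wt (2 * Y) m else 0) := by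
    refine Summable.of_nonneg_of_le (fun m => ?_) (fun m => ?_)
      (Pool.Agent.H442R2.KF.TaskS.summable_Wt (2 * Y) (by omega))
    · split_ifs
      · exact (Real.exp_pos _).le
      · exact le_rfl
    · split_ifs
      · exact le_rfl
      · exact (Real.exp_pos _).le
  have hs1 : Summable (fun m : ℤ => if (k : ℤ) ∣ m - u then Wt Y m else 0) := by
    refine Summable.of_nonneg_of_le (fun m => ?_) (fun m => ?_)
      (Pool.Agent.H442R2.KF.TaskS.summable_Wt Y (by omega))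
    · split_ifs
      · exact (Real.exp_pos _).le
      · exact le_rfl
    · split_ifs
      · exact le_rfl
      · exact (Real.exp_pos _).le
  have hS : S11 a Y d1 d2 p1 p2 = (∑' m : ℤ, if (k : ℤ) ∣ m - u then Wt (2 * Y) m else 0) -
      ∑' m : ℤ, if (k : ℤ) ∣ m - u then Wt Y m else 0 := by
    rw [← hs2.tsum_sub hs1]
    unfold S11
    refine tsum_congr fun m => ?_
    unfold Wd Ii
    by_cases hm : (k : ℤ) ∣ m - u
    · obtain ⟨c1, c2⟩ := (hu1 m).2 hm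
      rw [if_pos hm, if_pos hm, if_pos c1, if_pos c2]
      ring
    · rw [if_neg hm, if_neg hm]
      by_cases c1 : (d1 : ℤ) ∣ m * p1 - a
      · have c2 : ¬ (d2 : ℤ) ∣ m * p2 - a := fun c2 => hm ((hu1 m).1 ⟨c1, c2⟩)
        rw [if_neg c2]
        ring
      · rw [if_neg c1]
        ring
  have hlogY : Real.log Y ≤ Real.log (2 * Y) := Real.log_le_log (by linarith) (by linarith)
  have hJ0 : (0 : ℝ) ≤ (J : ℝ) + 1 := by positivity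
  have b2 := hN₀ (2 * Y) (by omega) k hk1 (by
    refine hk3.trans ?_
    apply pow_le_pow_left₀ (by positivity)
    push_cast
    linarith) u J (by
    push_cast
    nlinarith)
  have b1 := hN₀ Y hYN k hk1 hk3 u J (by
    refine le_trans ?_ hkJ
    exact mul_le_mul_of_nonneg_left hlogY hk0.le)
  have hd := TPHX.diff Y k J u
  have hphase : ∑ j ∈ Icc 1 J, ((gam ((j : ℝ) * Y / k) : ℝ) : ℂ) * e ((j : ℝ) * u / k) =
      ∑ j ∈ Icc 1 J, ((gam ((j : ℝ) * Y / k) : ℝ) : ℂ) *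
          e ((j : ℝ) * a / ((p1 : ℝ) * k)) *
          kf (-((j : ℤ) * a * t)) ((e1 * p2 : ℕ) : ℤ) (p1 * e2) := by
    refine Finset.sum_congr rfl fun j _ => ?_
    have h4 := hu2 (j : ℤ)
    rw [Int.cast_natCast] at h4
    rw [h4]
    ring
  rw [← hphase]
  set A2 : ℝ := ∑' m : ℤ, if (k : ℤ) ∣ m - u then Wt (2 * Y) m else 0 with hA2
  set A1 : ℝ := ∑' m : ℤ, if (k : ℤ) ∣ m - u then Wt Y m else 0 with hA1
  set M2 : ℂ := (((2 * Y : ℕ) : ℝ) / k : ℝ) * ∑ j ∈ Icc (-(J : ℤ)) J,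
        ((Real.exp (-Real.pi * ((j : ℝ) * ((2 * Y : ℕ) : ℝ) / k) ^ 2) : ℝ) : ℂ) *
          e ((j : ℝ) * u / k) with hM2
  set M1 : ℂ := ((Y : ℝ) / k : ℝ) * ∑ j ∈ Icc (-(J : ℤ)) J,
        ((Real.exp (-Real.pi * ((j : ℝ) * (Y : ℝ) / k) ^ 2) : ℝ) : ℂ) *
          e ((j : ℝ) * u / k) with hM1
  set SS : ℂ := ∑ j ∈ Icc 1 J, ((gam ((j : ℝ) * Y / k) : ℝ) : ℂ) * e ((j : ℝ) * u / k) with hSS
  have hfin : ‖((S11 a Y d1 d2 p1 p2 - (Y : ℝ) / k - 2 * ((Y : ℝ) / k) * SS.re : ℝ) : ℂ)‖ ≤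
      1 / (((2 * Y : ℕ) : ℝ)) ^ 5 + 1 / (Y : ℝ) ^ 5 := by
    have e5 : ((S11 a Y d1 d2 p1 p2 - (Y : ℝ) / k - 2 * ((Y : ℝ) / k) * SS.re : ℝ) : ℂ) =
        ((A2 : ℂ) - M2) - ((A1 : ℂ) - M1) := by
      have e6 : ((S11 a Y d1 d2 p1 p2 - (Y : ℝ) / k - 2 * ((Y : ℝ) / k) * SS.re : ℝ) : ℂ) =
          ((A2 - A1 : ℝ) : ℂ) -
            (((Y : ℝ) / k + 2 * ((Y : ℝ) / k) * SS.re : ℝ) : ℂ) := by
        rw [hS, ← Complex.ofReal_sub]
        congr 1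
        ring
      rw [e6, ← hd]
      push_cast
      ring
    rw [e5]
    exact (norm_sub_le _ _).trans (add_le_add b2 b1)
  rw [Complex.norm_real, Real.norm_eq_abs] at hfin
  refine hfin.trans ?_
  have hY5 : (0 : ℝ) < (Y : ℝ) ^ 5 := by positivity
  have h6 : 1 / (((2 * Y : ℕ) : ℝ)) ^ 5 ≤ 1 / (Y : ℝ) ^ 5 := by
    apply one_div_le_one_div_of_le hY5
    apply pow_le_pow_left₀ (by positivity)
    push_cast
    linarith
  have h7 : 1 / (Y : ℝ) ^ 5 + 1 / (Y : ℝ) ^ 5 ≤ 1 / (Y : ℝ) ^ 4 := by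
    rw [← add_div, div_le_div_iff₀ hY5 (by positivity)]
    have h8 : (0 : ℝ) < (Y : ℝ) ^ 4 := by positivity
    nlinarith
  linarith

end Pool.Agent.H262R4.FR
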