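import Pool.Agent.H262R4.FR.Stubs
import Pool.Agent.H442R2.KF.Tri

/-!
FR project (helper262), task TR1: trilinear forms, one pair of primes (by helper804).
-/

namespace Pool.Agent.H262R4.FR

open Finset
open Pool.Agent.H442R2.KF (e kf Wt norm_e norm_kf norm_e_sub_le Wei FF)

namespace TTR1

lemma exp_lip1 {u s s' : ℝ} (hu : 0 ≤ u) (hs : 0 < s) (hss : s ≤ s') :
    |Real.exp (-(u / s ^ 2)) - Real.exp (-(u / s' ^ 2))| ≤ 3 * ((s' - s) / s) := by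
  have hs' : 0 < s' := lt_of_lt_of_le hs hss
  have hx : u / s' ^ 2 ≤ u / s ^ 2 :=
    div_le_div_of_nonneg_left hu (by positivity) (pow_le_pow_left₀ hs.le hss 2)
  have hx0 : 0 ≤ u / s' ^ 2 := by positivity
  have h1 : Real.exp (-(u / s ^ 2)) ≤ Real.exp (-(u / s' ^ 2)) := Real.exp_le_exp.2 (by linarith)
  rw [abs_sub_comm, abs_of_nonneg (by linarith)]
  have hd : 0 ≤ (s' - s) / s := div_nonneg (by linarith) hs.le
  rcases le_or_gt s' (2 * s) with h | h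
  · have hxx : u / s ^ 2 = u / s' ^ 2 * (s' / s) ^ 2 := by field_simp
    generalize u / s ^ 2 = x at *
    generalize u / s' ^ 2 = x' at *
    have h2 : Real.exp (-x) = Real.exp (-x') * Real.exp (-(x - x')) := by
      rw [← Real.exp_add]; congr 1; ring
    have h3 : 1 - (x - x') ≤ Real.exp (-(x - x')) := by
      have := Real.add_one_le_exp (-(x - x')); linarith
    have h4 : x - x' ≤ x' * (3 * ((s' - s) / s)) := by
      have h5 : (s' / s) ^ 2 - 1 ≤ 3 * ((s' - s) / s) := by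
        have h6 : s' / s = 1 + (s' - s) / s := by field_simp; ring
        have h7 : (s' - s) / s ≤ 1 := by rw [div_le_one hs]; linarith
        rw [h6]; nlinarith
      calc x - x' = x' * ((s' / s) ^ 2 - 1) := by rw [hxx]; ring
        _ ≤ _ := mul_le_mul_of_nonneg_left h5 hx0
    have h8 : x' * Real.exp (-x') ≤ 1 := by
      have := Real.add_one_le_exp x'
      rw [Real.exp_neg, ← div_eq_mul_inv, div_le_one (Real.exp_pos _)]; linarith
    have h9 := Real.exp_pos (-x')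
    calc Real.exp (-x') - Real.exp (-x) = Real.exp (-x') * (1 - Real.exp (-(x - x'))) := by
          rw [h2]; ring
      _ ≤ Real.exp (-x') * (x' * (3 * ((s' - s) / s))) :=
          mul_le_mul_of_nonneg_left (by linarith) h9.le
      _ = (x' * Real.exp (-x')) * (3 * ((s' - s) / s)) := by ring
      _ ≤ 1 * (3 * ((s' - s) / s)) := mul_le_mul_of_nonneg_right h8 (by positivity)
      _ = _ := one_mul _
  · have h2 : 1 ≤ (s' - s) / s := by rw [le_div_iff₀ hs]; linarith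
    have h3 : Real.exp (-(u / s' ^ 2)) ≤ 1 := Real.exp_le_one_iff.2 (by linarith)
    have h4 := Real.exp_pos (-(u / s ^ 2))
    linarith

lemma exp_lip {u s s' N : ℝ} (hu : 0 ≤ u) (hN : 0 < N) (hs : N ≤ s) (hs' : N ≤ s') :
    |Real.exp (-(u / s ^ 2)) - Real.exp (-(u / s' ^ 2))| ≤ 3 * (|s - s'| / N) := by
  rcases le_total s s' with h | h
  · refine (exp_lip1 hu (by linarith) h).trans ?_
    rw [abs_sub_comm, abs_of_nonneg (by linarith : 0 ≤ s' - s)]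
    gcongr
  · rw [abs_sub_comm]
    refine (exp_lip1 hu (by linarith) h).trans ?_
    rw [abs_of_nonneg (by linarith : 0 ≤ s - s')]
    gcongr

lemma gam_div (c s : ℝ) : gam (c / s) =
    2 * Real.exp (-(4 * Real.pi * c ^ 2 / s ^ 2)) - Real.exp (-(Real.pi * c ^ 2 / s ^ 2)) := by
  unfold gam
  congr 3 <;> ring_nf

lemma gam_lip {c s s' N : ℝ} (hN : 0 < N) (hs : N ≤ s) (hs' : N ≤ s') :
    |gam (c / s) - gam (c / s')| ≤ 9 * (|s - s'| / N) := by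
  have h1 := exp_lip (u := 4 * Real.pi * c ^ 2) (by positivity) hN hs hs'
  have h2 := exp_lip (u := Real.pi * c ^ 2) (by positivity) hN hs hs'
  rw [gam_div, gam_div]
  rw [abs_le] at h1 h2 ⊢
  constructor <;> linarith [h1.1, h1.2, h2.1, h2.2]

lemma gam_abs (ξ : ℝ) : |gam ξ| ≤ 2 := by
  unfold gam
  have h1 : Real.exp (-Real.pi * (2 * ξ) ^ 2) ≤ 1 :=
    Real.exp_le_one_iff.2 (by nlinarith [Real.pi_pos, sq_nonneg (2 * ξ)])
  have h2 : Real.exp (-Real.pi * ξ ^ 2) ≤ 1 :=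
    Real.exp_le_one_iff.2 (by nlinarith [Real.pi_pos, sq_nonneg ξ])
  have h3 := Real.exp_pos (-Real.pi * (2 * ξ) ^ 2)
  have h4 := Real.exp_pos (-Real.pi * ξ ^ 2)
  rw [abs_le]
  constructor <;> linarith

/-- the weights -/
noncomputable def psi (a : ℤ) (Y p1 p2 g M J : ℕ) (j : ℕ) (s : ℝ) : ℂ :=
  if j ≤ J then
    (((M : ℝ) ^ 2 / s : ℝ) : ℂ) * ((gam ((j : ℝ) * Y * p1 * p2 / g / s) / 2 : ℝ) : ℂ) *
      e ((j : ℝ) * a * p2 / g / s)
  else 0

lemma three {x y z x' y' z' : ℂ} (hy : ‖y‖ ≤ 1) (hz : ‖z‖ ≤ 1)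
    (hx' : ‖x'‖ ≤ 1) (hy' : ‖y'‖ ≤ 1) :
    ‖x * y * z - x' * y' * z'‖ ≤ ‖x - x'‖ + ‖y - y'‖ + ‖z - z'‖ := by
  have h : x * y * z - x' * y' * z' = (x - x') * y * z + x' * (y - y') * z + x' * y' * (z - z') := by
    ring
  rw [h]
  refine (norm_add₃_le).trans ?_
  rw [norm_mul, norm_mul, norm_mul, norm_mul, norm_mul, norm_mul]
  have e1 : ‖x - x'‖ * ‖y‖ * ‖z‖ ≤ ‖x - x'‖ := by
    calc ‖x - x'‖ * ‖y‖ * ‖z‖ ≤ ‖x - x'‖ * 1 * 1 := by gcongr
      _ = _ := by ring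
  have e2 : ‖x'‖ * ‖y - y'‖ * ‖z‖ ≤ ‖y - y'‖ := by
    calc ‖x'‖ * ‖y - y'‖ * ‖z‖ ≤ 1 * ‖y - y'‖ * 1 := by gcongr
      _ = _ := by ring
  have e3 : ‖x'‖ * ‖y'‖ * ‖z - z'‖ ≤ ‖z - z'‖ := by
    calc ‖x'‖ * ‖y'‖ * ‖z - z'‖ ≤ 1 * 1 * ‖z - z'‖ := by gcongr
      _ = _ := by ring
  linarith

lemma wei (a : ℤ) (Y p1 p2 g M J : ℕ) (hM : 1 ≤ M) (W : ℝ) (hW : 0 ≤ W)
    (h : ∀ j : ℕ, j ≤ J → |(j : ℝ) * a * p2 / g| ≤ W * (M : ℝ) ^ 2) (j : ℕ) :
    Wei M (6 + 7 * W) (psi a Y p1 p2 g M J j) := by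
  have hM1 : (1 : ℝ) ≤ M := by exact_mod_cast hM
  have hN : (0 : ℝ) < (M : ℝ) ^ 2 := by positivity
  have b1 : ∀ s : ℝ, (M : ℝ) ^ 2 ≤ s → ‖(((M : ℝ) ^ 2 / s : ℝ) : ℂ)‖ ≤ 1 := by
    intro s hs
    rw [Complex.norm_real, Real.norm_eq_abs, abs_of_nonneg (div_nonneg hN.le (by linarith)),
      div_le_one (by linarith)]
    exact hs
  have b2 : ∀ ξ : ℝ, ‖((gam ξ / 2 : ℝ) : ℂ)‖ ≤ 1 := by
    intro ξ
    rw [Complex.norm_real, Real.norm_eq_abs, abs_div, abs_of_pos (by norm_num : (0 : ℝ) < 2)]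
    linarith [gam_abs ξ]
  refine ⟨fun s hs => ?_, fun s s' hs hs' => ?_⟩
  · unfold psi
    split_ifs with hj
    · rw [norm_mul, norm_mul, norm_e, mul_one]
      exact mul_le_one₀ (b1 s hs) (norm_nonneg _) (b2 _)
    · simp
  · have hs0 : 0 < s := by linarith
    have hs0' : 0 < s' := by linarith
    have hR : 0 ≤ |s - s'| / (M : ℝ) ^ 2 := by positivity
    unfold psi
    split_ifs with hj
    · refine (three (b2 _) (norm_e _).le (b1 s' hs') (b2 _)).trans ?_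
      have c1 : ‖(((M : ℝ) ^ 2 / s : ℝ) : ℂ) - (((M : ℝ) ^ 2 / s' : ℝ) : ℂ)‖ ≤
          |s - s'| / (M : ℝ) ^ 2 := by
        rw [← Complex.ofReal_sub, Complex.norm_real, Real.norm_eq_abs]
        have : (M : ℝ) ^ 2 / s - (M : ℝ) ^ 2 / s' = -((M : ℝ) ^ 2 * (s - s') / (s * s')) := by
          field_simp; ring
        rw [this, abs_neg, abs_div, abs_mul, abs_of_pos hN, abs_of_pos (mul_pos hs0 hs0'),
          div_le_div_iff₀ (mul_pos hs0 hs0') hN]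
        have : (M : ℝ) ^ 2 * (M : ℝ) ^ 2 ≤ s * s' := mul_le_mul hs hs' hN.le hs0.le
        nlinarith [abs_nonneg (s - s')]
      have c2 : ‖((gam ((j : ℝ) * Y * p1 * p2 / g / s) / 2 : ℝ) : ℂ) -
          ((gam ((j : ℝ) * Y * p1 * p2 / g / s') / 2 : ℝ) : ℂ)‖ ≤
          5 * (|s - s'| / (M : ℝ) ^ 2) := by
        rw [← Complex.ofReal_sub, Complex.norm_real, Real.norm_eq_abs, ← sub_div, abs_div,
          abs_of_pos (by norm_num : (0 : ℝ) < 2)]
        have := gam_lip (c := (j : ℝ) * Y * p1 * p2 / g) hN hs hs'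
        linarith
      have c3 : ‖e ((j : ℝ) * a * p2 / g / s) - e ((j : ℝ) * a * p2 / g / s')‖ ≤
          7 * W * (|s - s'| / (M : ℝ) ^ 2) := by
        refine (norm_e_sub_le _ _).trans ?_
        have h1 := h j hj
        set c' : ℝ := (j : ℝ) * a * p2 / g with hc'
        have : c' / s - c' / s' = -(c' * (s - s') / (s * s')) := by
          field_simp; ring
        rw [this, abs_neg, abs_div, abs_mul, abs_of_pos (mul_pos hs0 hs0')]
        have h2 : (M : ℝ) ^ 2 * (M : ℝ) ^ 2 ≤ s * s' := mul_le_mul hs hs' hN.le hs0.le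
        have h3 : |c'| * |s - s'| / (s * s') ≤ W * (|s - s'| / (M : ℝ) ^ 2) := by
          rw [div_le_iff₀ (mul_pos hs0 hs0')]
          calc |c'| * |s - s'| ≤ (W * (M : ℝ) ^ 2) * |s - s'| := by gcongr
            _ = W * (|s - s'| / (M : ℝ) ^ 2) * ((M : ℝ) ^ 2 * (M : ℝ) ^ 2) := by field_simp
            _ ≤ W * (|s - s'| / (M : ℝ) ^ 2) * (s * s') := by gcongr
        have hpi : 2 * Real.pi ≤ 7 := by linarith [Real.pi_lt_d2]
        have h4 : 0 ≤ W * (|s - s'| / (M : ℝ) ^ 2) := by positivity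
        calc 2 * Real.pi * (|c'| * |s - s'| / (s * s'))
            ≤ 2 * Real.pi * (W * (|s - s'| / (M : ℝ) ^ 2)) :=
              mul_le_mul_of_nonneg_left h3 (by positivity)
          _ ≤ 7 * (W * (|s - s'| / (M : ℝ) ^ 2)) := mul_le_mul_of_nonneg_right hpi h4
          _ = _ := by ring
      calc _ ≤ |s - s'| / (M : ℝ) ^ 2 + 5 * (|s - s'| / (M : ℝ) ^ 2) +
          7 * W * (|s - s'| / (M : ℝ) ^ 2) := by linarith
        _ = _ := by ring
    · simp only [sub_self, norm_zero]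
      positivity

/-- the coefficients -/
noncomputable def al (lam : ℕ → ℝ) (S : Finset ℕ) (g p m : ℕ) : ℂ :=
  if p ∣ m ∧ g * (m / p) ∈ S ∧ Nat.Coprime (m / p) p then ((lam (g * (m / p)) : ℝ) : ℂ) else 0

lemma norm_al {lam : ℕ → ℝ} (hl : ∀ d, |lam d| ≤ 1) (S : Finset ℕ) (g p m : ℕ) :
    ‖al lam S g p m‖ ≤ 1 := by
  unfold al
  split_ifs
  · rw [Complex.norm_real]; exact hl _
  · simp

lemma cop {e1 e2 p1 p2 g : ℕ} (hp1 : p1.Prime) (hp2 : p2.Prime) (h12 : p1 ≠ p2)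
    (hg : 1 ≤ g) (hg1 : g < p1) (hg2 : g < p2) :
    (Nat.Coprime e1 e2 ∧ good (g * e1) (g * e2) p1 p2) ↔
      (Nat.Coprime (e1 * p2) (p1 * e2) ∧ Nat.Coprime e1 p2 ∧ Nat.Coprime e2 p1) := by
  have h1 : Nat.Coprime p1 p2 := (Nat.coprime_primes hp1 hp2).2 h12
  have h2 : Nat.Coprime p1 g := (Nat.Prime.coprime_iff_not_dvd hp1).2
    fun h => absurd (Nat.le_of_dvd (by omega) h) (by omega)
  have h3 : Nat.Coprime p2 g := (Nat.Prime.coprime_iff_not_dvd hp2).2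
    fun h => absurd (Nat.le_of_dvd (by omega) h) (by omega)
  unfold good
  simp only [Nat.coprime_mul_iff_left, Nat.coprime_mul_iff_right]
  constructor
  · rintro ⟨h, -, ⟨-, a1, a2⟩, -, b1, b2⟩
    exact ⟨⟨⟨a1.symm, h1.symm⟩, h, b2⟩, a2.symm, b1.symm⟩
  · rintro ⟨⟨⟨a1, a2⟩, a3, a4⟩, b1, b2⟩
    exact ⟨a3, h12, ⟨⟨h2, h3⟩, a1.symm, b1.symm⟩, ⟨h2, h3⟩, b2.symm, a4⟩

lemma range_m {D P g M e p : ℕ} (hM : M = D * P / g) (hg : 1 ≤ g) (hp : P < p)
    (hp' : 4 * p ≤ 5 * P) (hd : D < g * e) (hd' : 4 * (g * e) ≤ 5 * D) :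
    e * p ∈ Ioc M (2 * M + 1) := by
  rw [mem_Ioc]
  have h1 : g * M ≤ D * P := by rw [hM]; exact Nat.mul_div_le _ _
  have h2 : D * P < g * (M + 1) := by rw [hM]; exact Nat.lt_mul_div_succ _ (by omega)
  constructor
  · have h3 : D * P < g * (e * p) := by nlinarith
    exact lt_of_mul_lt_mul_left (lt_of_le_of_lt h1 h3) (Nat.zero_le g)
  · have h3 : 16 * (g * (e * p)) ≤ 25 * (D * P) := by nlinarith
    have h4 : g * (16 * (e * p)) < g * (25 * (M + 1)) := by nlinarith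
    have h5 := lt_of_mul_lt_mul_left h4 (Nat.zero_le g)
    omega

lemma transform (a : ℤ) (Y P D p1 p2 g : ℕ) (t : ℤ) (S : Finset ℕ) (lam : ℕ → ℝ) (J M : ℕ)
    (hM : M = D * P / g) (hM1 : 1 ≤ M) (hp1 : p1.Prime) (hp2 : p2.Prime) (h12 : p1 ≠ p2)
    (hP1 : P < p1) (h1P : 4 * p1 ≤ 5 * P) (hP2 : P < p2) (h2P : 4 * p2 ≤ 5 * P) (hg : 1 ≤ g)
    (hgP : g < P) (hS : ∀ d ∈ S, D < d ∧ 4 * d ≤ 5 * D) :
    ∑ e1 ∈ Icc 1 (2 * D), ∑ e2 ∈ Icc 1 (2 * D),
      (if g * e1 ∈ S ∧ g * e2 ∈ S ∧ Nat.Coprime e1 e2 ∧ good (g * e1) (g * e2) p1 p2 then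
        ((lam (g * e1) * lam (g * e2) * (1 / (g * e1 * e2 : ℕ)) : ℝ) : ℂ) *
        ∑ j ∈ Icc 1 J,
          ((gam ((j : ℝ) * Y / (g * e1 * e2 : ℕ)) : ℝ) : ℂ) *
          e ((j : ℝ) * a / ((p1 : ℝ) * (g * e1 * e2 : ℕ))) *
          kf (-((j : ℤ) * a * t)) ((e1 * p2 : ℕ) : ℤ) (p1 * e2)
      else 0) = ((2 * (p1 * p2) / (g * M ^ 2) : ℝ) : ℂ) *
      ∑ m ∈ Ioc M (2 * M + 1), ∑ n ∈ (Ioc M (2 * M + 1)).filter (fun n => Nat.Coprime m n),
        al lam S g p2 m * al lam S g p1 n * FF (psi a Y p1 p2 g M J) (-(a * t)) J n m := by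
  classical
  have hp1' := hp1.pos
  have hp2' := hp2.pos
  rw [← Finset.sum_product', ← Finset.sum_filter, Finset.mul_sum]
  have e1 : ∀ m ∈ Ioc M (2 * M + 1),
      ((2 * (p1 * p2) / (g * M ^ 2) : ℝ) : ℂ) *
      ∑ n ∈ (Ioc M (2 * M + 1)).filter (fun n => Nat.Coprime m n),
        al lam S g p2 m * al lam S g p1 n * FF (psi a Y p1 p2 g M J) (-(a * t)) J n m =
      ∑ n ∈ Ioc M (2 * M + 1), if Nat.Coprime m n then
        ((2 * (p1 * p2) / (g * M ^ 2) : ℝ) : ℂ) *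
        (al lam S g p2 m * al lam S g p1 n * FF (psi a Y p1 p2 g M J) (-(a * t)) J n m) else 0 := by
    intro m _
    rw [← Finset.sum_filter, Finset.mul_sum]
  rw [Finset.sum_congr rfl e1, ← Finset.sum_product'
    (f := fun m n => if Nat.Coprime m n then
        ((2 * (p1 * p2) / (g * M ^ 2) : ℝ) : ℂ) *
        (al lam S g p2 m * al lam S g p1 n * FF (psi a Y p1 p2 g M J) (-(a * t)) J n m) else 0)]
  refine Finset.sum_of_injOn (fun x : ℕ × ℕ => (x.1 * p2, p1 * x.2)) ?_ ?_ ?_ ?_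
  · intro x _ y _ hxy
    simp only [Prod.mk.injEq] at hxy
    exact Prod.ext (Nat.eq_of_mul_eq_mul_right hp2' hxy.1) (Nat.eq_of_mul_eq_mul_left hp1' hxy.2)
  · intro x hx
    simp only [coe_filter, mem_product, Set.mem_ofPred_eq] at hx
    obtain ⟨-, h1, h2, -⟩ := hx
    simp only [coe_product, Set.mem_prod, mem_coe]
    refine ⟨range_m hM hg hP2 h2P (hS _ h1).1 (hS _ h1).2, ?_⟩
    rw [mul_comm p1]
    exact range_m hM hg hP1 h1P (hS _ h2).1 (hS _ h2).2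
  · intro y hy hyn
    by_contra hne
    apply hyn
    simp only [ite_eq_right_iff, Classical.not_imp] at hne
    obtain ⟨hco, hne⟩ := hne
    have ha : al lam S g p2 y.1 ≠ 0 := fun h => hne (by rw [h]; ring)
    have hb : al lam S g p1 y.2 ≠ 0 := fun h => hne (by rw [h]; ring)
    have ha' : p2 ∣ y.1 ∧ g * (y.1 / p2) ∈ S ∧ Nat.Coprime (y.1 / p2) p2 := by
      by_contra h
      exact ha (by unfold al; rw [if_neg h])
    have hb' : p1 ∣ y.2 ∧ g * (y.2 / p1) ∈ S ∧ Nat.Coprime (y.2 / p1) p1 := by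
      by_contra h
      exact hb (by unfold al; rw [if_neg h])
    obtain ⟨a1, a2, a3⟩ := ha'
    obtain ⟨b1, b2, b3⟩ := hb'
    have c1 : y.1 / p2 * p2 = y.1 := Nat.div_mul_cancel a1
    have c2 : p1 * (y.2 / p1) = y.2 := Nat.mul_div_cancel' b1
    have hr : ∀ e, g * e ∈ S → e ∈ Icc 1 (2 * D) := by
      intro e he
      have h := hS _ he
      rw [mem_Icc]
      constructor
      · rcases Nat.eq_zero_or_pos e with h0 | h0
        · rw [h0] at h; omega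
        · exact h0
      · have : e ≤ g * e := Nat.le_mul_of_pos_left _ hg
        omega
    refine ⟨(y.1 / p2, y.2 / p1), ?_, Prod.ext c1 c2⟩
    simp only [coe_filter, mem_product, Set.mem_ofPred_eq]
    refine ⟨⟨hr _ a2, hr _ b2⟩, a2, b2, ?_⟩
    rw [cop hp1 hp2 h12 hg (by omega) (by omega), c1, c2]
    exact ⟨hco, a3, b3⟩
  · intro x hx
    simp only [mem_filter, mem_product, mem_Icc] at hx
    obtain ⟨⟨⟨x1, -⟩, x2, -⟩, h1, h2, h3⟩ := hx
    rw [cop hp1 hp2 h12 hg (by omega) (by omega)] at h3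
    obtain ⟨h3, h4, h5⟩ := h3
    simp only
    rw [if_pos h3]
    have d1 : x.1 * p2 / p2 = x.1 := Nat.mul_div_cancel _ hp2'
    have d2 : p1 * x.2 / p1 = x.2 := Nat.mul_div_cancel_left _ hp1'
    have f1 : al lam S g p2 (x.1 * p2) = ((lam (g * x.1) : ℝ) : ℂ) := by
      unfold al
      rw [d1, if_pos ⟨Dvd.intro_left _ rfl, h1, h4⟩]
    have f2 : al lam S g p1 (p1 * x.2) = ((lam (g * x.2) : ℝ) : ℂ) := by
      unfold al
      rw [d2, if_pos ⟨Dvd.intro _ rfl, h2, h5⟩]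
    rw [f1, f2]
    unfold FF
    rw [Finset.mul_sum, Finset.mul_sum, Finset.mul_sum]
    refine Finset.sum_congr rfl fun j hj => ?_
    have hjJ : j ≤ J := (mem_Icc.1 hj).2
    have hx1 : (0 : ℝ) < x.1 := by exact_mod_cast x1
    have hx2 : (0 : ℝ) < x.2 := by exact_mod_cast x2
    have hq1 : (0 : ℝ) < p1 := by exact_mod_cast hp1'
    have hq2 : (0 : ℝ) < p2 := by exact_mod_cast hp2'
    have hgg : (0 : ℝ) < g := by exact_mod_cast hg
    have hMM : (0 : ℝ) < M := by exact_mod_cast hM1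
    unfold psi
    rw [if_pos hjJ]
    have g1 : (j : ℝ) * Y * p1 * p2 / g / (((x.1 * p2 : ℕ) : ℝ) * ((p1 * x.2 : ℕ) : ℝ)) =
        (j : ℝ) * Y / ((g * x.1 * x.2 : ℕ) : ℝ) := by
      push_cast; field_simp
    have g2 : (j : ℝ) * a * p2 / g / (((x.1 * p2 : ℕ) : ℝ) * ((p1 * x.2 : ℕ) : ℝ)) =
        (j : ℝ) * a / ((p1 : ℝ) * ((g * x.1 * x.2 : ℕ) : ℝ)) := by
      push_cast; field_simp
    have g3 : ((j : ℤ) * -(a * t)) = -((j : ℤ) * a * t) := by ring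
    have g4 : 1 / ((g * x.1 * x.2 : ℕ) : ℝ) = 2 * (p1 * p2) / (g * M ^ 2) *
        ((M : ℝ) ^ 2 / (((x.1 * p2 : ℕ) : ℝ) * ((p1 * x.2 : ℕ) : ℝ))) / 2 := by
      push_cast; field_simp
    rw [g1, g2, g3, g4]
    push_cast
    ring

/-- the trivial bound -/
lemma trivial_bound (a : ℤ) (Y D p1 p2 g : ℕ) (t : ℤ) (S : Finset ℕ) (lam : ℕ → ℝ) (J : ℕ)
    (hl : ∀ d, |lam d| ≤ 1) :
    ‖∑ e1 ∈ Icc 1 (2 * D), ∑ e2 ∈ Icc 1 (2 * D),
      (if g * e1 ∈ S ∧ g * e2 ∈ S ∧ Nat.Coprime e1 e2 ∧ good (g * e1) (g * e2) p1 p2 then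
        ((lam (g * e1) * lam (g * e2) * (1 / (g * e1 * e2 : ℕ)) : ℝ) : ℂ) *
        ∑ j ∈ Icc 1 J,
          ((gam ((j : ℝ) * Y / (g * e1 * e2 : ℕ)) : ℝ) : ℂ) *
          e ((j : ℝ) * a / ((p1 : ℝ) * (g * e1 * e2 : ℕ))) *
          kf (-((j : ℤ) * a * t)) ((e1 * p2 : ℕ) : ℤ) (p1 * e2)
      else 0)‖ ≤ 8 * (D : ℝ) ^ 2 * J := by
  have h1 : ∀ e1 e2 : ℕ, ‖(if g * e1 ∈ S ∧ g * e2 ∈ S ∧ Nat.Coprime e1 e2 ∧
      good (g * e1) (g * e2) p1 p2 then
        ((lam (g * e1) * lam (g * e2) * (1 / (g * e1 * e2 : ℕ)) : ℝ) : ℂ) *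
        ∑ j ∈ Icc 1 J,
          ((gam ((j : ℝ) * Y / (g * e1 * e2 : ℕ)) : ℝ) : ℂ) *
          e ((j : ℝ) * a / ((p1 : ℝ) * (g * e1 * e2 : ℕ))) *
          kf (-((j : ℤ) * a * t)) ((e1 * p2 : ℕ) : ℤ) (p1 * e2)
      else 0)‖ ≤ 2 * J := by
    intro e1 e2
    split_ifs
    · rw [norm_mul]
      have a1 : ‖((lam (g * e1) * lam (g * e2) * (1 / (g * e1 * e2 : ℕ)) : ℝ) : ℂ)‖ ≤ 1 := by
        rw [Complex.norm_real, Real.norm_eq_abs, abs_mul, abs_mul]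
        have b1 : |(1 / ((g * e1 * e2 : ℕ) : ℝ))| ≤ 1 := by
          rw [abs_of_nonneg (by positivity)]
          rcases Nat.eq_zero_or_pos (g * e1 * e2) with h0 | h0
          · rw [h0]; simp
          · have : (1 : ℝ) ≤ ((g * e1 * e2 : ℕ) : ℝ) := by exact_mod_cast h0
            rw [div_le_one (by linarith)]; exact this
        exact mul_le_one₀ (mul_le_one₀ (hl _) (abs_nonneg _) (hl _)) (abs_nonneg _) b1
      have a2 : ‖∑ j ∈ Icc 1 J,
          ((gam ((j : ℝ) * Y / (g * e1 * e2 : ℕ)) : ℝ) : ℂ) *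
          e ((j : ℝ) * a / ((p1 : ℝ) * (g * e1 * e2 : ℕ))) *
          kf (-((j : ℤ) * a * t)) ((e1 * p2 : ℕ) : ℤ) (p1 * e2)‖ ≤ 2 * J := by
        refine (norm_sum_le _ _).trans ?_
        calc _ ≤ ∑ _j ∈ Icc 1 J, (2 : ℝ) := by
              refine Finset.sum_le_sum fun j _ => ?_
              rw [norm_mul, norm_mul, norm_e, norm_kf, mul_one, mul_one, Complex.norm_real]
              exact gam_abs _
          _ = 2 * J := by
              rw [Finset.sum_const, Nat.card_Icc, nsmul_eq_mul]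
              push_cast
              simp [mul_comm]
      calc _ ≤ 1 * (2 * (J : ℝ)) := mul_le_mul a1 a2 (norm_nonneg _) zero_le_one
        _ = _ := one_mul _
    · simp
  calc _ ≤ ∑ _e1 ∈ Icc 1 (2 * D), ∑ _e2 ∈ Icc 1 (2 * D), (2 * (J : ℝ)) := by
        refine (norm_sum_le _ _).trans (Finset.sum_le_sum fun e1 _ => ?_)
        exact (norm_sum_le _ _).trans (Finset.sum_le_sum fun e2 _ => h1 e1 e2)
    _ = _ := by
        simp only [Finset.sum_const, Nat.card_Icc, nsmul_eq_mul]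
        simp
        ring

lemma threshold {ε : ℝ} (hε : 0 < ε) :
    ∃ X0 : ℝ, 1 ≤ X0 ∧ ∀ X, X0 ≤ X → 25 / 16 * Real.log (2 * X) ≤ X ^ ε := by
  have h1 := (isLittleO_log_rpow_atTop hε).def (show (0 : ℝ) < 1 / 4 by norm_num)
  have h2 : Filter.Tendsto (fun x : ℝ => x ^ ε) Filter.atTop Filter.atTop := tendsto_rpow_atTop hε
  obtain ⟨X0, hX0⟩ := Filter.eventually_atTop.1 (h1.and ((h2.eventually_ge_atTop 4).and
    (Filter.eventually_ge_atTop 1)))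
  refine ⟨max X0 1, le_max_right _ _, fun X hX => ?_⟩
  obtain ⟨h3, h4, h5⟩ := hX0 X (le_trans (le_max_left _ _) hX)
  rw [Real.norm_eq_abs, Real.norm_eq_abs, abs_of_nonneg (Real.log_nonneg h5),
    abs_of_nonneg (by linarith)] at h3
  rw [Real.log_mul (by norm_num) (by linarith)]
  have h6 := Real.log_two_lt_d9
  linarith

end TTR1

open TTR1

set_option maxHeartbeats 1000000 in
theorem t_TR1 : P_TR1 := by
  intro θ hθ0 hθ
  obtain ⟨κ, hκdef⟩ : ∃ κ : ℝ, κ = 1 - 27 * θ / 14 := ⟨_, rfl⟩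
  have hκ : 0 < κ := by rw [hκdef]; linarith
  obtain ⟨δ, hδdef⟩ : ∃ δ : ℝ, δ = min (κ / 4) (1 / 28) := ⟨_, rfl⟩
  have hδ : 0 < δ := by rw [hδdef]; exact lt_min (by linarith) (by norm_num)
  have hδ1 : δ ≤ κ / 4 := by rw [hδdef]; exact min_le_left _ _
  have hδ2 : δ ≤ 1 / 28 := by rw [hδdef]; exact min_le_right _ _
  obtain ⟨η0, C1, hη0, hC1, H⟩ := Pool.Agent.H442R2.KF.tri δ hδ
  obtain ⟨ρ, hρdef⟩ : ∃ ρ : ℝ, ρ = min (κ / 4) (1 / 100) := ⟨_, rfl⟩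
  have hρ : 0 < ρ := by rw [hρdef]; exact lt_min (by linarith) (by norm_num)
  have hρ1 : ρ ≤ κ / 4 := by rw [hρdef]; exact min_le_left _ _
  have hρ2 : ρ ≤ 1 / 100 := by rw [hρdef]; exact min_le_right _ _
  obtain ⟨η, hηdef⟩ : ∃ η : ℝ, η = min (2 * η0 / 5) 1 := ⟨_, rfl⟩
  have hη : 0 < η := by rw [hηdef]; exact lt_min (by linarith) (by norm_num)
  have hη1 : η ≤ 2 * η0 / 5 := by rw [hηdef]; exact min_le_left _ _
  have hη2 : η ≤ 1 := by rw [hηdef]; exact min_le_right _ _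
  obtain ⟨ε, hεdef⟩ : ∃ ε : ℝ, ε = min (κ / 2) (1 / 10) := ⟨_, rfl⟩
  have hε : 0 < ε := by rw [hεdef]; exact lt_min (by linarith) (by norm_num)
  have hε1 : ε ≤ κ / 2 := by rw [hεdef]; exact min_le_left _ _
  have hε2 : ε ≤ 1 / 10 := by rw [hεdef]; exact min_le_right _ _
  obtain ⟨X0, hX01, hX0⟩ := threshold hε
  refine ⟨ρ, η, hρ, hρ2, hη, fun a ha => ?_⟩
  obtain ⟨W, hWdef⟩ : ∃ W : ℝ, W = 5 / 4 * |(a : ℝ)| := ⟨_, rfl⟩
  have hW : 0 ≤ W := by rw [hWdef]; positivity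
  refine ⟨max (32 * X0 ^ 5) (4 * C1 * (6 + 7 * W) ^ 2), lt_max_of_lt_left (by positivity), ?_⟩
  intro Y P D p1 p2 g t S lam hY hP hPρ hp1 hp2 h12 hP1 h1P hP2 h2P hg ht hD hS hl
  have hYr : (3 : ℝ) ≤ Y := by exact_mod_cast hY
  have hPr : (1 : ℝ) ≤ P := by exact_mod_cast hP
  have hgr : (1 : ℝ) ≤ g := by exact_mod_cast hg
  have hYX : (Y : ℝ) ≤ (Y : ℝ) * P := by nlinarith
  generalize hXdef : (Y : ℝ) * P = X at *
  have hX1 : 1 ≤ X := by linarith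
  have hXpos : 0 < X := by linarith
  have hlog0 : 0 ≤ Real.log (2 * Y) := Real.log_nonneg (by linarith)
  have hJle0 : 0 ≤ 25 * (D : ℝ) ^ 2 * Real.log (2 * Y) / (16 * g * Y) := by positivity
  have hJle := Nat.floor_le hJle0
  have hJ00 : D = 0 → ⌊25 * (D : ℝ) ^ 2 * Real.log (2 * Y) / (16 * g * Y)⌋₊ = 0 := by
    intro h; rw [h]; simp
  generalize ⌊25 * (D : ℝ) ^ 2 * Real.log (2 * Y) / (16 * g * Y)⌋₊ = J at *
  have hCpos : 0 ≤ max (32 * X0 ^ 5) (4 * C1 * (6 + 7 * W) ^ 2) :=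
    le_max_of_le_left (by positivity)
  have htriv := trivial_bound a Y D p1 p2 g t S lam J hl
  rcases Nat.eq_zero_or_pos J with hJ | hJ
  · rw [hJ] at htriv ⊢
    refine htriv.trans ?_
    simp only [CharP.cast_eq_zero, mul_zero]
    positivity
  have hD1 : 1 ≤ D := by
    rcases Nat.eq_zero_or_pos D with h | h
    · exact absurd (hJ00 h) (by omega)
    · exact h
  have hDr : (1 : ℝ) ≤ D := by exact_mod_cast hD1
  have hJr : (1 : ℝ) ≤ J := by exact_mod_cast hJ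
  -- `4 g ≤ P`
  have habs : 4 * |(p2 : ℤ) - p1| ≤ P := by
    rcases abs_cases ((p2 : ℤ) - p1) with h | h <;> omega
  have hne : (p2 : ℤ) - p1 ≠ 0 := by
    intro h
    apply h12
    have : (p2 : ℤ) = p1 := by linarith
    exact_mod_cast this.symm
  have htne : t ≠ 0 := by
    rintro rfl
    exact hne (by rw [ht]; ring)
  have h4g : 4 * g ≤ P := by
    have h1 : (g : ℤ) ≤ |(p2 : ℤ) - p1| :=
      Int.le_of_dvd (abs_pos.2 hne) ((dvd_abs _ _).2 ⟨t, ht⟩)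
    have h2 : 4 * (g : ℤ) ≤ P := by linarith
    exact_mod_cast h2
  have hDX : (D : ℝ) ≤ X := hD.trans (by
    calc X ^ θ ≤ X ^ (1 : ℝ) := Real.rpow_le_rpow_of_exponent_le hX1 (by linarith)
      _ = X := Real.rpow_one X)
  rcases lt_or_ge X X0 with hsmall | hlarge
  · -- small `X`
    refine htriv.trans ?_
    have h1 : (J : ℝ) ≤ 4 * (D : ℝ) ^ 2 := by
      refine hJle.trans ?_
      rw [div_le_iff₀ (by positivity)]
      have h2 : Real.log (2 * Y) ≤ 2 * Y := (Real.log_le_sub_one_of_pos (by linarith)).trans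
        (by linarith)
      have h3 : (0 : ℝ) ≤ (D : ℝ) ^ 2 := by positivity
      calc 25 * (D : ℝ) ^ 2 * Real.log (2 * Y) ≤ 25 * (D : ℝ) ^ 2 * (2 * Y) := by gcongr
        _ = 50 * ((D : ℝ) ^ 2 * Y) * 1 := by ring
        _ ≤ 64 * ((D : ℝ) ^ 2 * Y) * g := by gcongr; norm_num
        _ = _ := by ring
    have h2 : 8 * (D : ℝ) ^ 2 * J ≤ 32 * X0 ^ 4 := by
      calc 8 * (D : ℝ) ^ 2 * J ≤ 8 * (D : ℝ) ^ 2 * (4 * (D : ℝ) ^ 2) := by gcongr
        _ = 32 * (D : ℝ) ^ 4 := by ring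
        _ ≤ 32 * X0 ^ 4 := by gcongr; linarith
    have h3 : X0⁻¹ ≤ X ^ (-η) := by
      calc X0⁻¹ ≤ X⁻¹ := inv_anti₀ hXpos hsmall.le
        _ = X ^ (-1 : ℝ) := (Real.rpow_neg_one X).symm
        _ ≤ X ^ (-η) := Real.rpow_le_rpow_of_exponent_le hX1 (by linarith)
    have hX0pos : 0 < X0 := by linarith
    calc 8 * (D : ℝ) ^ 2 * J ≤ 32 * X0 ^ 4 := h2
      _ = 32 * X0 ^ 5 * 1 * X0⁻¹ := by field_simp
      _ ≤ max (32 * X0 ^ 5) (4 * C1 * (6 + 7 * W) ^ 2) * (P : ℝ) ^ 2 * X ^ (-η) := by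
          gcongr
          · exact le_max_left _ _
          · exact one_le_pow₀ hPr
  · -- large `X`
    have hlogX := hX0 X hlarge
    have hYpos : (0 : ℝ) < Y := by linarith
    have hJ1 : (J : ℝ) ≤ (D : ℝ) ^ 2 * X ^ ε / Y := by
      refine hJle.trans ?_
      rw [div_le_div_iff₀ (by positivity) hYpos]
      have h1 : Real.log (2 * Y) ≤ Real.log (2 * X) :=
        Real.log_le_log (by linarith) (by linarith)
      have h2 : 25 * Real.log (2 * Y) ≤ 16 * X ^ ε := by linarith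
      calc 25 * (D : ℝ) ^ 2 * Real.log (2 * Y) * Y
          = (D : ℝ) ^ 2 * Y * (25 * Real.log (2 * Y)) := by ring
        _ ≤ (D : ℝ) ^ 2 * Y * (16 * X ^ ε) := by gcongr
        _ = (D : ℝ) ^ 2 * X ^ ε * (16 * 1 * Y) := by ring
        _ ≤ (D : ℝ) ^ 2 * X ^ ε * (16 * g * Y) := by gcongr
    have hYX2 : X ^ (1 - ρ) ≤ Y := by
      rw [Real.rpow_sub hXpos, Real.rpow_one, div_le_iff₀ (by positivity)]
      calc X = (Y : ℝ) * P := hXdef.symm
        _ ≤ Y * X ^ ρ := by gcongr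
    have hA : (D : ℝ) ^ 2 * X ^ ε / Y ≤ (D : ℝ) ^ (1 / 14 - δ) := by
      rw [div_le_iff₀ hYpos]
      have h1 : (D : ℝ) ^ 2 = (D : ℝ) ^ (27 / 14 + δ) * (D : ℝ) ^ (1 / 14 - δ) := by
        rw [← Real.rpow_add (by linarith), ← Real.rpow_natCast]
        congr 1
        push_cast
        ring
      have h2 : (D : ℝ) ^ (27 / 14 + δ) ≤ X ^ (θ * (27 / 14 + δ)) := by
        rw [Real.rpow_mul hXpos.le]
        exact Real.rpow_le_rpow (by linarith) hD (by linarith)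
      have h3 : X ^ (θ * (27 / 14 + δ)) * X ^ ε ≤ Y := by
        rw [← Real.rpow_add hXpos]
        refine le_trans (Real.rpow_le_rpow_of_exponent_le hX1 ?_) hYX2
        have : θ * δ ≤ δ := by nlinarith
        have h4 : θ * (27 / 14 + δ) = (1 - κ) + θ * δ := by rw [hκdef]; ring
        rw [h4]
        linarith
      have h5 : (0 : ℝ) ≤ (D : ℝ) ^ (1 / 14 - δ) := by positivity
      calc (D : ℝ) ^ 2 * X ^ ε
          = (D : ℝ) ^ (1 / 14 - δ) * ((D : ℝ) ^ (27 / 14 + δ) * X ^ ε) := by rw [h1]; ring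
        _ ≤ (D : ℝ) ^ (1 / 14 - δ) * (X ^ (θ * (27 / 14 + δ)) * X ^ ε) := by gcongr
        _ ≤ (D : ℝ) ^ (1 / 14 - δ) * Y := by gcongr
    have hB : X ^ (2 / 5 : ℝ) ≤ D := by
      have h1 : (Y : ℝ) ≤ (D : ℝ) ^ 2 * X ^ ε := by
        have := hJr.trans hJ1
        rwa [le_div_iff₀ hYpos, one_mul] at this
      have h2 : X ^ (4 / 5 : ℝ) * X ^ ε ≤ (D : ℝ) ^ 2 * X ^ ε := by
        refine le_trans ?_ (hYX2.trans h1)
        rw [← Real.rpow_add hXpos]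
        exact Real.rpow_le_rpow_of_exponent_le hX1 (by linarith)
      have h3 : X ^ (4 / 5 : ℝ) ≤ (D : ℝ) ^ 2 := le_of_mul_le_mul_right h2 (by positivity)
      have h4 : (X ^ (2 / 5 : ℝ)) ^ 2 = X ^ (4 / 5 : ℝ) := by
        rw [← Real.rpow_natCast, ← Real.rpow_mul hXpos.le]
        congr 1
        norm_num
      rw [← h4] at h3
      exact (pow_le_pow_iff_left₀ (by positivity) (by positivity) two_ne_zero).1 h3
    obtain ⟨M, hM⟩ : ∃ M : ℕ, M = D * P / g := ⟨_, rfl⟩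
    have hDM : 4 * D ≤ M := by
      rw [hM, Nat.le_div_iff_mul_le (by omega)]
      nlinarith
    have hM1 : 1 ≤ M := by omega
    have hM1r : (1 : ℝ) ≤ M := by exact_mod_cast hM1
    have hDMr : (D : ℝ) ≤ M := by
      have : D ≤ M := by omega
      exact_mod_cast this
    have hPD : (P : ℝ) ≤ M := by
      refine hPρ.trans (le_trans ?_ (hB.trans hDMr))
      exact Real.rpow_le_rpow_of_exponent_le hX1 (by linarith)
    have hJM : (J : ℝ) ≤ (M : ℝ) ^ (1 / 14 - δ) :=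
      (hJ1.trans hA).trans (Real.rpow_le_rpow (by linarith) hDMr (by linarith))
    have hJM' : (J : ℝ) ≤ M := hJM.trans (by
      calc (M : ℝ) ^ (1 / 14 - δ) ≤ (M : ℝ) ^ (1 : ℝ) :=
            Real.rpow_le_rpow_of_exponent_le hM1r (by linarith)
        _ = M := Real.rpow_one _)
    have hp1r : 4 * (p1 : ℝ) ≤ 5 * P := by exact_mod_cast h1P
    have hp2r : 4 * (p2 : ℝ) ≤ 5 * P := by exact_mod_cast h2P
    have hwei := wei a Y p1 p2 g M J hM1 W hW (fun j hj => by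
      have hj' : (j : ℝ) ≤ M := le_trans (by exact_mod_cast hj) hJM'
      rw [abs_div, abs_mul, abs_mul, Nat.abs_cast, Nat.abs_cast, Nat.abs_cast,
        div_le_iff₀ (by linarith)]
      calc (j : ℝ) * |(a : ℝ)| * p2 ≤ (M : ℝ) * |(a : ℝ)| * (5 / 4 * M) := by
            gcongr
            linarith
        _ = W * (M : ℝ) ^ 2 * 1 := by rw [hWdef]; ring
        _ ≤ W * (M : ℝ) ^ 2 * g := by gcongr)
    have hV1 : 1 ≤ 6 + 7 * W := by linarith
    have hk : -(a * t) ≠ 0 := neg_ne_zero.2 (mul_ne_zero ha htne)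
    have htr : |(t : ℝ)| ≤ M := by
      have h1 : |t| ≤ P := by
        have h2 : |t| ≤ |(p2 : ℤ) - p1| := by
          rw [ht, abs_mul, Nat.abs_cast]
          have : (1 : ℤ) ≤ g := by exact_mod_cast hg
          nlinarith [abs_nonneg t]
        linarith [abs_nonneg ((p2 : ℤ) - p1)]
      have h3 : ((|t| : ℤ) : ℝ) ≤ (P : ℝ) := by exact_mod_cast h1
      rw [Int.cast_abs] at h3
      linarith
    have hkJ : |((-(a * t) : ℤ) : ℝ)| * J ≤ (6 + 7 * W) * (M : ℝ) ^ 2 := by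
      push_cast
      rw [abs_neg, abs_mul]
      have haW : |(a : ℝ)| ≤ 6 + 7 * W := by
        rw [hWdef]; nlinarith [abs_nonneg (a : ℝ)]
      calc |(a : ℝ)| * |(t : ℝ)| * J ≤ (6 + 7 * W) * M * M := by gcongr
        _ = _ := by ring
    have hmain := H M J hM1 hJ hJM (6 + 7 * W) hV1 (psi a Y p1 p2 g M J) hwei (-(a * t)) hk hkJ
      (al lam S g p2) (al lam S g p1) (norm_al hl S g p2) (norm_al hl S g p1)
    rw [transform a Y P D p1 p2 g t S lam J M hM hM1 hp1 hp2 h12 hP1 h1P hP2 h2P hg (by omega)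
      (fun d hd => ⟨(hS d hd).1, (hS d hd).2.1⟩), norm_mul]
    have hMpos : (0 : ℝ) < M := by linarith
    have hgpos : (0 : ℝ) < g := by linarith
    have n1 : ‖((2 * (p1 * p2) / (g * M ^ 2) : ℝ) : ℂ)‖ ≤ 4 * (P : ℝ) ^ 2 / (M : ℝ) ^ 2 := by
      rw [Complex.norm_real, Real.norm_eq_abs, abs_of_nonneg (by positivity)]
      rw [div_le_div_iff₀ (by positivity) (by positivity)]
      have h1 : (p1 : ℝ) * p2 ≤ (5 / 4 * P) * (5 / 4 * P) :=
        mul_le_mul (by linarith only [hp1r]) (by linarith only [hp2r]) (by positivity)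
          (by positivity)
      calc 2 * ((p1 : ℝ) * p2) * (M : ℝ) ^ 2 ≤ 2 * ((5 / 4 * P) * (5 / 4 * P)) * (M : ℝ) ^ 2 := by
            gcongr
        _ = 25 / 8 * (P : ℝ) ^ 2 * (1 * (M : ℝ) ^ 2) := by ring
        _ ≤ 4 * (P : ℝ) ^ 2 * (g * (M : ℝ) ^ 2) := by gcongr; norm_num
    have n2 : (M : ℝ) ^ (2 - η0) = (M : ℝ) ^ 2 * (M : ℝ) ^ (-η0) := by
      rw [← Real.rpow_natCast, ← Real.rpow_add hMpos]
      congr 1
    have n3 : (M : ℝ) ^ (-η0) ≤ X ^ (-η) := by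
      calc (M : ℝ) ^ (-η0) ≤ (X ^ (2 / 5 : ℝ)) ^ (-η0) :=
            Real.rpow_le_rpow_of_nonpos (by positivity) (hB.trans hDMr) (by linarith only [hη0])
        _ = X ^ (2 / 5 * -η0) := by rw [← Real.rpow_mul hXpos.le]
        _ ≤ X ^ (-η) := Real.rpow_le_rpow_of_exponent_le hX1 (by linarith only [hη1])
    calc _ ≤ 4 * (P : ℝ) ^ 2 / (M : ℝ) ^ 2 * (C1 * (6 + 7 * W) ^ 2 * (M : ℝ) ^ (2 - η0)) :=
          mul_le_mul n1 hmain (norm_nonneg _) (by positivity)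
      _ = 4 * C1 * (6 + 7 * W) ^ 2 * (P : ℝ) ^ 2 * (M : ℝ) ^ (-η0) := by
          rw [n2]; field_simp
      _ ≤ max (32 * X0 ^ 5) (4 * C1 * (6 + 7 * W) ^ 2) * (P : ℝ) ^ 2 * X ^ (-η) := by
          gcongr
          exact le_max_right _ _

end Pool.Agent.H262R4.FR
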