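import Pool.Agent.H262R4.FR.Stubs

/-!
FR project (helper262), task TR2: the off-diagonal terms for arbitrary bounded weights.
Formalised by helper784.
-/

namespace Pool.Agent.H262R4.FR

open Finset
open Pool.Agent.H442R2.KF (e kf Wt tau)

namespace TTR2

/-- sorting pairs of moduli by their gcd -/
theorem reindex (S : Finset ℕ) (P D : ℕ) (hS : ∀ d ∈ S, 1 ≤ d ∧ d ≤ 2 * D) (F : ℕ → ℕ → ℝ)
    (hF : ∀ d1 ∈ S, ∀ d2 ∈ S, P < Nat.gcd d1 d2 → F d1 d2 = 0) :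
    ∑ d1 ∈ S, ∑ d2 ∈ S, F d1 d2 = ∑ g ∈ Icc 1 P, ∑ e1 ∈ Icc 1 (2 * D), ∑ e2 ∈ Icc 1 (2 * D),
      if g * e1 ∈ S ∧ g * e2 ∈ S ∧ Nat.Coprime e1 e2 then F (g * e1) (g * e2) else 0 := by
  have h1 : ∑ d1 ∈ S, ∑ d2 ∈ S, F d1 d2 =
      ∑ x ∈ (S ×ˢ S).filter (fun x : ℕ × ℕ => Nat.gcd x.1 x.2 ≤ P), F x.1 x.2 := by
    rw [← Finset.sum_product' S S F]
    symm
    apply Finset.sum_subset (Finset.filter_subset _ _)
    intro x hx hx'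
    rw [Finset.mem_product] at hx
    apply hF _ hx.1 _ hx.2
    by_contra hcon
    exact hx' (Finset.mem_filter.2 ⟨Finset.mem_product.2 hx, by omega⟩)
  have h2 : (∑ g ∈ Icc 1 P, ∑ e1 ∈ Icc 1 (2 * D), ∑ e2 ∈ Icc 1 (2 * D),
      if g * e1 ∈ S ∧ g * e2 ∈ S ∧ Nat.Coprime e1 e2 then F (g * e1) (g * e2) else 0) =
      ∑ y ∈ ((Icc 1 P) ×ˢ ((Icc 1 (2 * D)) ×ˢ (Icc 1 (2 * D)))).filter
        (fun y : ℕ × (ℕ × ℕ) => y.1 * y.2.1 ∈ S ∧ y.1 * y.2.2 ∈ S ∧ Nat.Coprime y.2.1 y.2.2),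
        F (y.1 * y.2.1) (y.1 * y.2.2) := by
    rw [Finset.sum_filter, Finset.sum_product]
    refine Finset.sum_congr rfl (fun g _ => ?_)
    rw [Finset.sum_product]
  rw [h1, h2]
  refine Finset.sum_nbij' (fun x => (Nat.gcd x.1 x.2, (x.1 / Nat.gcd x.1 x.2,
    x.2 / Nat.gcd x.1 x.2))) (fun y => (y.1 * y.2.1, y.1 * y.2.2)) ?_ ?_ ?_ ?_ ?_
  · rintro ⟨d1, d2⟩ hx
    rw [Finset.mem_filter, Finset.mem_product] at hx
    obtain ⟨⟨hd1, hd2⟩, hg⟩ := hx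
    simp only at hd1 hd2 hg ⊢
    have hd1' := hS d1 hd1
    have hd2' := hS d2 hd2
    have hgpos : 0 < Nat.gcd d1 d2 := Nat.gcd_pos_of_pos_left _ (by omega)
    have hdv1 : Nat.gcd d1 d2 ∣ d1 := Nat.gcd_dvd_left _ _
    have hdv2 : Nat.gcd d1 d2 ∣ d2 := Nat.gcd_dvd_right _ _
    have hm1 : Nat.gcd d1 d2 * (d1 / Nat.gcd d1 d2) = d1 := Nat.mul_div_cancel' hdv1
    have hm2 : Nat.gcd d1 d2 * (d2 / Nat.gcd d1 d2) = d2 := Nat.mul_div_cancel' hdv2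
    rw [Finset.mem_filter, Finset.mem_product, Finset.mem_product, Finset.mem_Icc,
      Finset.mem_Icc, Finset.mem_Icc]
    refine ⟨⟨⟨hgpos, hg⟩, ⟨?_, ?_⟩, ⟨?_, ?_⟩⟩, ?_, ?_, ?_⟩
    · exact Nat.div_pos (Nat.le_of_dvd (by omega) hdv1) hgpos
    · exact le_trans (Nat.div_le_self _ _) hd1'.2
    · exact Nat.div_pos (Nat.le_of_dvd (by omega) hdv2) hgpos
    · exact le_trans (Nat.div_le_self _ _) hd2'.2
    · simp only [hm1]; exact hd1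
    · simp only [hm2]; exact hd2
    · exact Nat.coprime_div_gcd_div_gcd hgpos
  · rintro ⟨g, e1, e2⟩ hy
    rw [Finset.mem_filter, Finset.mem_product, Finset.mem_product, Finset.mem_Icc,
      Finset.mem_Icc, Finset.mem_Icc] at hy
    obtain ⟨⟨⟨hg1, hgP⟩, _, _⟩, h1, h2, h3⟩ := hy
    simp only at hg1 hgP h1 h2 h3 ⊢
    rw [Finset.mem_filter, Finset.mem_product]
    refine ⟨⟨h1, h2⟩, ?_⟩
    simp only
    rw [Nat.gcd_mul_left, h3.gcd_eq_one, mul_one]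
    exact hgP
  · rintro ⟨d1, d2⟩ hx
    simp only
    rw [Nat.mul_div_cancel' (Nat.gcd_dvd_left _ _), Nat.mul_div_cancel' (Nat.gcd_dvd_right _ _)]
  · rintro ⟨g, e1, e2⟩ hy
    rw [Finset.mem_filter, Finset.mem_product, Finset.mem_product, Finset.mem_Icc,
      Finset.mem_Icc, Finset.mem_Icc] at hy
    obtain ⟨⟨⟨hg1, hgP⟩, _, _⟩, h1, h2, h3⟩ := hy
    simp only at hg1 hgP h1 h2 h3 ⊢
    have : Nat.gcd (g * e1) (g * e2) = g := by rw [Nat.gcd_mul_left, h3.gcd_eq_one, mul_one]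
    rw [this, Nat.mul_div_cancel_left _ (by omega), Nat.mul_div_cancel_left _ (by omega)]
  · rintro ⟨d1, d2⟩ hx
    simp only
    rw [Nat.mul_div_cancel' (Nat.gcd_dvd_left _ _), Nat.mul_div_cancel' (Nat.gcd_dvd_right _ _)]

/-- from the complex bilinear sum to the real one -/
theorem passage (N : ℕ) (c : ℕ → ℕ → Prop) [∀ i j, Decidable (c i j)] (L V k : ℕ → ℕ → ℝ)
    (G : ℕ → ℕ → ℂ) (Y B ε : ℝ) (hY : 0 ≤ Y) (hε : 0 ≤ ε)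
    (hL : ∀ i j, |L i j| ≤ 1)
    (hV : ∀ i ∈ Icc 1 N, ∀ j ∈ Icc 1 N, c i j → |V i j - 2 * (Y / k i j) * (G i j).re| ≤ ε)
    (hB : ‖∑ i ∈ Icc 1 N, ∑ j ∈ Icc 1 N, if c i j then
      ((L i j * (1 / k i j) : ℝ) : ℂ) * G i j else 0‖ ≤ B) :
    |∑ i ∈ Icc 1 N, ∑ j ∈ Icc 1 N, if c i j then L i j * V i j else 0| ≤
      2 * Y * B + (N : ℝ) ^ 2 * ε := by
  have h1 : (∑ i ∈ Icc 1 N, ∑ j ∈ Icc 1 N, if c i j then L i j * V i j else 0) =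
      2 * Y * (∑ i ∈ Icc 1 N, ∑ j ∈ Icc 1 N, if c i j then
        ((L i j * (1 / k i j) : ℝ) : ℂ) * G i j else 0).re +
      ∑ i ∈ Icc 1 N, ∑ j ∈ Icc 1 N,
        if c i j then L i j * (V i j - 2 * (Y / k i j) * (G i j).re) else 0 := by
    rw [Complex.re_sum, Finset.mul_sum, ← Finset.sum_add_distrib]
    refine Finset.sum_congr rfl (fun i _ => ?_)
    rw [Complex.re_sum, Finset.mul_sum, ← Finset.sum_add_distrib]
    refine Finset.sum_congr rfl (fun j _ => ?_)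
    split_ifs with h
    · rw [Complex.re_ofReal_mul]
      ring
    · simp
  rw [h1]
  refine le_trans (abs_add_le _ _) (add_le_add ?_ ?_)
  · rw [abs_mul, abs_of_nonneg (by positivity)]
    exact mul_le_mul_of_nonneg_left (le_trans (Complex.abs_re_le_norm _) hB) (by positivity)
  · refine le_trans (Finset.abs_sum_le_sum_abs _ _) ?_
    have h2 : ∀ i ∈ Icc 1 N, |∑ j ∈ Icc 1 N,
        if c i j then L i j * (V i j - 2 * (Y / k i j) * (G i j).re) else 0| ≤ (N : ℝ) * ε := by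
      intro i hi
      refine le_trans (Finset.abs_sum_le_sum_abs _ _) ?_
      have h3 : ∀ j ∈ Icc 1 N,
          |if c i j then L i j * (V i j - 2 * (Y / k i j) * (G i j).re) else 0| ≤ ε := by
        intro j hj
        split_ifs with h
        · rw [abs_mul]
          calc |L i j| * |V i j - 2 * (Y / k i j) * (G i j).re| ≤ 1 * ε :=
                mul_le_mul (hL i j) (hV i hi j hj h) (abs_nonneg _) zero_le_one
            _ = ε := one_mul _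
        · simpa using hε
      refine le_trans (Finset.sum_le_sum h3) ?_
      rw [Finset.sum_const, Nat.card_Icc]
      simp
    refine le_trans (Finset.sum_le_sum h2) ?_
    rw [Finset.sum_const, Nat.card_Icc]
    simp only [Nat.add_sub_cancel, nsmul_eq_mul]
    apply le_of_eq
    ring

/-- the conclusion of `P_TR1` -/
def TR1c (θ ρ η : ℝ) (a : ℤ) (C : ℝ) : Prop :=
  ∀ (Y P D p1 p2 g : ℕ) (t : ℤ) (S : Finset ℕ) (lam : ℕ → ℝ), 3 ≤ Y → 1 ≤ P →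
    (P : ℝ) ≤ ((Y : ℝ) * P) ^ ρ → p1.Prime → p2.Prime → p1 ≠ p2 →
    P < p1 → 4 * p1 ≤ 5 * P → P < p2 → 4 * p2 ≤ 5 * P → 1 ≤ g → (p2 : ℤ) - p1 = g * t →
    (D : ℝ) ≤ ((Y : ℝ) * P) ^ θ →
    (∀ d ∈ S, D < d ∧ 4 * d ≤ 5 * D ∧ Int.gcd a d = 1) → (∀ d, |lam d| ≤ 1) →
    ‖∑ e1 ∈ Icc 1 (2 * D), ∑ e2 ∈ Icc 1 (2 * D),
      if g * e1 ∈ S ∧ g * e2 ∈ S ∧ Nat.Coprime e1 e2 ∧ good (g * e1) (g * e2) p1 p2 then
        ((lam (g * e1) * lam (g * e2) * (1 / (g * e1 * e2 : ℕ)) : ℝ) : ℂ) *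
        ∑ j ∈ Icc 1 ⌊25 * (D : ℝ) ^ 2 * Real.log (2 * Y) / (16 * g * Y)⌋₊,
          ((gam ((j : ℝ) * Y / (g * e1 * e2 : ℕ)) : ℝ) : ℂ) *
          e ((j : ℝ) * a / ((p1 : ℝ) * (g * e1 * e2 : ℕ))) *
          kf (-((j : ℤ) * a * t)) ((e1 * p2 : ℕ) : ℤ) (p1 * e2)
      else 0‖ ≤ C * (P : ℝ) ^ 2 * ((Y : ℝ) * P) ^ (-η)

/-- the conclusion of `P_PHX` -/
def PHXc (Y0 : ℕ) : Prop :=
  ∀ (a : ℤ) (Y d1 d2 p1 p2 g e1 e2 : ℕ) (t : ℤ) (J : ℕ), Y0 ≤ Y → a ≠ 0 →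
    1 ≤ g → 1 ≤ e1 → 1 ≤ e2 → d1 = g * e1 → d2 = g * e2 → Nat.Coprime e1 e2 →
    p1.Prime → p2.Prime → good d1 d2 p1 p2 → Int.gcd a d1 = 1 → Int.gcd a d2 = 1 →
    (p2 : ℤ) - p1 = g * t → ((g * e1 * e2 : ℕ) : ℝ) ≤ (Y : ℝ) ^ 3 →
    ((g * e1 * e2 : ℕ) : ℝ) * Real.log (2 * Y) ≤ (J + 1) * Y →
    |S11 a Y d1 d2 p1 p2 - (Y : ℝ) / (g * e1 * e2 : ℕ) -
      2 * ((Y : ℝ) / (g * e1 * e2 : ℕ)) *
        (∑ j ∈ Icc 1 J, ((gam ((j : ℝ) * Y / (g * e1 * e2 : ℕ)) : ℝ) : ℂ) *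
          e ((j : ℝ) * a / ((p1 : ℝ) * (g * e1 * e2 : ℕ))) *
          kf (-((j : ℤ) * a * t)) ((e1 * p2 : ℕ) : ℤ) (p1 * e2)).re| ≤ 1 / (Y : ℝ) ^ 4

/-- one pair of primes and one gcd -/
theorem oneg (θ ρ η : ℝ) (a : ℤ) (C : ℝ) (Y0 : ℕ) (hTR : TR1c θ ρ η a C) (hPHX : PHXc Y0)
    (ha : a ≠ 0) (Y P D p1 p2 g : ℕ) (S : Finset ℕ) (lam : ℕ → ℝ) (hY0 : Y0 ≤ Y)
    (hC : 0 ≤ C) (hY : 3 ≤ Y) (hP : 1 ≤ P)
    (hPX : (P : ℝ) ≤ ((Y : ℝ) * P) ^ ρ) (hp1 : p1.Prime) (hp2 : p2.Prime) (hne : p1 ≠ p2)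
    (h1 : P < p1) (h1' : 4 * p1 ≤ 5 * P) (h2 : P < p2) (h2' : 4 * p2 ≤ 5 * P) (hg : 1 ≤ g)
    (hD : (D : ℝ) ≤ ((Y : ℝ) * P) ^ θ)
    (hS : ∀ d ∈ S, D < d ∧ 4 * d ≤ 5 * D ∧ Int.gcd a d = 1) (hl : ∀ d, |lam d| ≤ 1)
    (hPH : ∀ (a : ℤ) (Y d1 d2 p1 p2 : ℕ), 1 ≤ d1 → 1 ≤ d2 → Int.gcd a d1 = 1 →
      ¬ ((Nat.gcd d1 d2 : ℕ) : ℤ) ∣ (p1 : ℤ) - p2 → S11 a Y d1 d2 p1 p2 = 0)
    (hDY : 25 * (D : ℝ) ^ 2 ≤ 16 * (Y : ℝ) ^ 3) :
    |∑ e1 ∈ Icc 1 (2 * D), ∑ e2 ∈ Icc 1 (2 * D),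
      if g * e1 ∈ S ∧ g * e2 ∈ S ∧ Nat.Coprime e1 e2 then
        (if good (g * e1) (g * e2) p1 p2 then lam (g * e1) * lam (g * e2) *
          (S11 a Y (g * e1) (g * e2) p1 p2 - mn Y (g * e1) (g * e2) p1 p2) else 0) else 0| ≤
      2 * Y * (C * (P : ℝ) ^ 2 * ((Y : ℝ) * P) ^ (-η)) +
        ((2 * D : ℕ) : ℝ) ^ 2 * (1 / (Y : ℝ) ^ 4) := by
  have hYr : (3 : ℝ) ≤ Y := by exact_mod_cast hY
  have hPr : (1 : ℝ) ≤ P := by exact_mod_cast hP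
  have hnn : 0 ≤ C * (P : ℝ) ^ 2 * ((Y : ℝ) * P) ^ (-η) := by positivity
  by_cases hdiv : (g : ℤ) ∣ (p2 : ℤ) - p1
  · obtain ⟨t, ht⟩ := hdiv
    have key := passage (2 * D) (fun e1 e2 => g * e1 ∈ S ∧ g * e2 ∈ S ∧ Nat.Coprime e1 e2 ∧
      good (g * e1) (g * e2) p1 p2) (fun e1 e2 => lam (g * e1) * lam (g * e2))
      (fun e1 e2 => S11 a Y (g * e1) (g * e2) p1 p2 - (Y : ℝ) / (g * e1 * e2 : ℕ))
      (fun e1 e2 => ((g * e1 * e2 : ℕ) : ℝ))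
      (fun e1 e2 => ∑ j ∈ Icc 1 ⌊25 * (D : ℝ) ^ 2 * Real.log (2 * Y) / (16 * g * Y)⌋₊,
          ((gam ((j : ℝ) * Y / (g * e1 * e2 : ℕ)) : ℝ) : ℂ) *
          e ((j : ℝ) * a / ((p1 : ℝ) * (g * e1 * e2 : ℕ))) *
          kf (-((j : ℤ) * a * t)) ((e1 * p2 : ℕ) : ℤ) (p1 * e2)) (Y : ℝ)
      (C * (P : ℝ) ^ 2 * ((Y : ℝ) * P) ^ (-η)) (1 / (Y : ℝ) ^ 4) (by positivity)
      (by positivity) ?_ ?_ ?_
    · refine le_trans (le_of_eq ?_) key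
      congr 1
      refine Finset.sum_congr rfl (fun e1 he1 => Finset.sum_congr rfl (fun e2 he2 => ?_))
      rw [Finset.mem_Icc] at he1 he2
      by_cases hc : g * e1 ∈ S ∧ g * e2 ∈ S ∧ Nat.Coprime e1 e2
      · by_cases hgd : good (g * e1) (g * e2) p1 p2
        · rw [if_pos hc, if_pos hgd, if_pos ⟨hc.1, hc.2.1, hc.2.2, hgd⟩]
          congr 2
          unfold mn
          rw [Nat.gcd_mul_left, hc.2.2.gcd_eq_one, mul_one, Nat.lcm_mul_left,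
            hc.2.2.lcm_eq_mul, if_pos (by
              rw [← Int.dvd_neg, neg_sub]; exact ⟨t, ht⟩), ← mul_assoc]
        · rw [if_pos hc, if_neg hgd, if_neg (fun h => hgd h.2.2.2)]
      · rw [if_neg hc, if_neg (fun h => hc ⟨h.1, h.2.1, h.2.2.1⟩)]
    · intro i j
      rw [abs_mul]
      exact mul_le_one₀ (hl _) (abs_nonneg _) (hl _)
    · intro e1 he1 e2 he2 hc
      obtain ⟨hs1, hs2, hcop, hgd⟩ := hc
      rw [Finset.mem_Icc] at he1 he2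
      have hk : 16 * ((g : ℝ) * ((g * e1 * e2 : ℕ) : ℝ)) ≤ 25 * (D : ℝ) ^ 2 := by
        have hh1 := (hS _ hs1).2.1
        have hh2 := (hS _ hs2).2.1
        have : (4 * (g * e1)) * (4 * (g * e2)) ≤ (5 * D) * (5 * D) := Nat.mul_le_mul hh1 hh2
        have h' : 16 * (g * (g * e1 * e2)) ≤ 25 * D ^ 2 := by nlinarith
        exact_mod_cast h'
      have hgr : (1 : ℝ) ≤ g := by exact_mod_cast hg
      have hk0 : (0 : ℝ) ≤ ((g * e1 * e2 : ℕ) : ℝ) := by positivity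
      refine hPHX a Y (g * e1) (g * e2) p1 p2 g e1 e2 t _ hY0 ha hg he1.1 he2.1 rfl rfl hcop
        hp1 hp2 hgd (hS _ hs1).2.2 (hS _ hs2).2.2 ht ?_ ?_
      · nlinarith
      · have hfl := Nat.lt_floor_add_one
          (25 * (D : ℝ) ^ 2 * Real.log (2 * Y) / (16 * g * Y))
        have hlog : 0 ≤ Real.log (2 * Y) := Real.log_nonneg (by linarith)
        have hle : ((g * e1 * e2 : ℕ) : ℝ) * Real.log (2 * Y) ≤
            25 * (D : ℝ) ^ 2 * Real.log (2 * Y) / (16 * g * Y) * Y := by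
          rw [div_mul_eq_mul_div, le_div_iff₀ (by positivity)]
          have := mul_le_mul_of_nonneg_right hk
            (mul_nonneg hlog (by positivity : (0 : ℝ) ≤ Y))
          nlinarith
        refine le_trans hle ?_
        exact mul_le_mul_of_nonneg_right hfl.le (by positivity)
    · exact hTR Y P D p1 p2 g t S lam hY hP hPX hp1 hp2 hne h1 h1' h2 h2' hg ht hD hS hl
  · have hz : (∑ e1 ∈ Icc 1 (2 * D), ∑ e2 ∈ Icc 1 (2 * D),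
      if g * e1 ∈ S ∧ g * e2 ∈ S ∧ Nat.Coprime e1 e2 then
        (if good (g * e1) (g * e2) p1 p2 then lam (g * e1) * lam (g * e2) *
          (S11 a Y (g * e1) (g * e2) p1 p2 - mn Y (g * e1) (g * e2) p1 p2) else 0) else 0) = 0 := by
      refine Finset.sum_eq_zero (fun e1 he1 => Finset.sum_eq_zero (fun e2 he2 => ?_))
      rw [Finset.mem_Icc] at he1 he2
      by_cases hc : g * e1 ∈ S ∧ g * e2 ∈ S ∧ Nat.Coprime e1 e2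
      · rw [if_pos hc]
        have hgcd : Nat.gcd (g * e1) (g * e2) = g := by
          rw [Nat.gcd_mul_left, hc.2.2.gcd_eq_one, mul_one]
        have hnd : ¬ ((Nat.gcd (g * e1) (g * e2) : ℕ) : ℤ) ∣ (p1 : ℤ) - p2 := by
          rw [hgcd, ← Int.dvd_neg, neg_sub]
          exact hdiv
        rw [hPH a Y (g * e1) (g * e2) p1 p2 (Nat.mul_pos hg he1.1) (Nat.mul_pos hg he2.1)
          (hS _ hc.1).2.2 hnd]
        unfold mn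
        rw [if_neg hnd]
        simp
      · rw [if_neg hc]
    rw [hz, abs_zero]
    positivity

/-- one pair of primes -/
theorem pair (θ ρ η : ℝ) (a : ℤ) (C : ℝ) (Y0 : ℕ) (hTR : TR1c θ ρ η a C) (hPHX : PHXc Y0)
    (ha : a ≠ 0) (Y P D p1 p2 : ℕ) (S : Finset ℕ) (lam : ℕ → ℝ) (hY0 : Y0 ≤ Y)
    (hC : 0 ≤ C) (hY : 3 ≤ Y) (hP : 1 ≤ P)
    (hPX : (P : ℝ) ≤ ((Y : ℝ) * P) ^ ρ) (hp1 : p1.Prime) (hp2 : p2.Prime) (hne : p1 ≠ p2)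
    (h1 : P < p1) (h1' : 4 * p1 ≤ 5 * P) (h2 : P < p2) (h2' : 4 * p2 ≤ 5 * P)
    (hD : (D : ℝ) ≤ ((Y : ℝ) * P) ^ θ)
    (hS : ∀ d ∈ S, D < d ∧ 4 * d ≤ 5 * D ∧ Int.gcd a d = 1) (hl : ∀ d, |lam d| ≤ 1)
    (hPH : ∀ (a : ℤ) (Y d1 d2 p1 p2 : ℕ), 1 ≤ d1 → 1 ≤ d2 → Int.gcd a d1 = 1 →
      ¬ ((Nat.gcd d1 d2 : ℕ) : ℤ) ∣ (p1 : ℤ) - p2 → S11 a Y d1 d2 p1 p2 = 0)
    (hDY : 25 * (D : ℝ) ^ 2 ≤ 16 * (Y : ℝ) ^ 3) :
    |∑ d1 ∈ S, ∑ d2 ∈ S, if good d1 d2 p1 p2 then lam d1 * lam d2 *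
          (S11 a Y d1 d2 p1 p2 - mn Y d1 d2 p1 p2) else 0| ≤
      P * (2 * Y * (C * (P : ℝ) ^ 2 * ((Y : ℝ) * P) ^ (-η)) +
        ((2 * D : ℕ) : ℝ) ^ 2 * (1 / (Y : ℝ) ^ 4)) := by
  rw [reindex S P D (fun d hd => ⟨by have := (hS d hd).1; omega,
    by have := (hS d hd).2.1; omega⟩)]
  · refine le_trans (Finset.abs_sum_le_sum_abs _ _) ?_
    refine le_trans (Finset.sum_le_sum (fun g hg => oneg θ ρ η a C Y0 hTR hPHX ha Y P D p1 p2 g S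
      lam hY0 hC hY hP hPX hp1 hp2 hne h1 h1' h2 h2' (Finset.mem_Icc.1 hg).1 hD hS hl hPH
      hDY)) ?_
    rw [Finset.sum_const, Nat.card_Icc, Nat.add_sub_cancel, nsmul_eq_mul]
  · intro d1 hd1 d2 hd2 hgt
    have hnd : ¬ ((Nat.gcd d1 d2 : ℕ) : ℤ) ∣ (p1 : ℤ) - p2 := by
      intro hdv
      have hne' : (p1 : ℤ) - p2 ≠ 0 := by
        intro h
        apply hne
        omega
      have := Int.natAbs_dvd_natAbs.2 hdv
      rw [Int.natAbs_natCast] at this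
      have hle := Nat.le_of_dvd (Int.natAbs_pos.2 hne') this
      omega
    rw [hPH a Y d1 d2 p1 p2 (by have := (hS d1 hd1).1; omega)
      (by have := (hS d2 hd2).1; omega) (hS d1 hd1).2.2 hnd]
    unfold mn
    rw [if_neg hnd]
    simp

/-- the two primes first -/
theorem swap (S T : Finset ℕ) (f : ℕ → ℕ → ℕ → ℕ → ℝ) :
    ∑ d1 ∈ S, ∑ d2 ∈ S, ∑ p1 ∈ T, ∑ p2 ∈ T, f d1 d2 p1 p2 =
      ∑ p1 ∈ T, ∑ p2 ∈ T, ∑ d1 ∈ S, ∑ d2 ∈ S, f d1 d2 p1 p2 := by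
  calc ∑ d1 ∈ S, ∑ d2 ∈ S, ∑ p1 ∈ T, ∑ p2 ∈ T, f d1 d2 p1 p2
      = ∑ d1 ∈ S, ∑ p1 ∈ T, ∑ d2 ∈ S, ∑ p2 ∈ T, f d1 d2 p1 p2 :=
        Finset.sum_congr rfl (fun d1 _ => Finset.sum_comm)
    _ = ∑ p1 ∈ T, ∑ d1 ∈ S, ∑ d2 ∈ S, ∑ p2 ∈ T, f d1 d2 p1 p2 := Finset.sum_comm
    _ = ∑ p1 ∈ T, ∑ d1 ∈ S, ∑ p2 ∈ T, ∑ d2 ∈ S, f d1 d2 p1 p2 :=
        Finset.sum_congr rfl (fun p1 _ => Finset.sum_congr rfl (fun d1 _ => Finset.sum_comm))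
    _ = ∑ p1 ∈ T, ∑ p2 ∈ T, ∑ d1 ∈ S, ∑ d2 ∈ S, f d1 d2 p1 p2 :=
        Finset.sum_congr rfl (fun p1 _ => Finset.sum_comm)

/-- quadruple sums of nonnegative terms are monotone in the sets -/
theorem mono4 (S S' T T' : Finset ℕ) (hS : S ⊆ S') (hT : T ⊆ T') (f : ℕ → ℕ → ℕ → ℕ → ℝ)
    (hf : ∀ d1 d2 p1 p2, 0 ≤ f d1 d2 p1 p2) :
    ∑ d1 ∈ S, ∑ d2 ∈ S, ∑ p1 ∈ T, ∑ p2 ∈ T, f d1 d2 p1 p2 ≤
      ∑ d1 ∈ S', ∑ d2 ∈ S', ∑ p1 ∈ T', ∑ p2 ∈ T', f d1 d2 p1 p2 := by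
  have a1 : ∀ d1 d2 p1, ∑ p2 ∈ T, f d1 d2 p1 p2 ≤ ∑ p2 ∈ T', f d1 d2 p1 p2 := fun d1 d2 p1 =>
    Finset.sum_le_sum_of_subset_of_nonneg hT (fun _ _ _ => hf _ _ _ _)
  have a2 : ∀ d1 d2, ∑ p1 ∈ T, ∑ p2 ∈ T, f d1 d2 p1 p2 ≤
      ∑ p1 ∈ T', ∑ p2 ∈ T', f d1 d2 p1 p2 := fun d1 d2 =>
    le_trans (Finset.sum_le_sum (fun p1 _ => a1 d1 d2 p1))
      (Finset.sum_le_sum_of_subset_of_nonneg hT
        (fun _ _ _ => Finset.sum_nonneg (fun _ _ => hf _ _ _ _)))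
  have a3 : ∀ d1, ∑ d2 ∈ S, ∑ p1 ∈ T, ∑ p2 ∈ T, f d1 d2 p1 p2 ≤
      ∑ d2 ∈ S', ∑ p1 ∈ T', ∑ p2 ∈ T', f d1 d2 p1 p2 := fun d1 =>
    le_trans (Finset.sum_le_sum (fun d2 _ => a2 d1 d2))
      (Finset.sum_le_sum_of_subset_of_nonneg hS
        (fun _ _ _ => Finset.sum_nonneg (fun _ _ => Finset.sum_nonneg (fun _ _ => hf _ _ _ _))))
  exact le_trans (Finset.sum_le_sum (fun d1 _ => a3 d1))
      (Finset.sum_le_sum_of_subset_of_nonneg hS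
        (fun _ _ _ => Finset.sum_nonneg (fun _ _ => Finset.sum_nonneg
          (fun _ _ => Finset.sum_nonneg (fun _ _ => hf _ _ _ _)))))

/-- elementary size relations -/
theorem sizes (Y P D : ℕ) (ρ θ : ℝ) (hY : 3 ≤ Y) (hP : 1 ≤ P) (hρ : ρ ≤ 1 / 100)
    (hθ : θ < 14 / 27) (hPX : (P : ℝ) ≤ ((Y : ℝ) * P) ^ ρ) (hD : (D : ℝ) ≤ ((Y : ℝ) * P) ^ θ) :
    P ≤ Y ∧ (D : ℝ) ≤ (Y : ℝ) ^ 2 ∧ 25 * (D : ℝ) ^ 2 ≤ 16 * (Y : ℝ) ^ 3 := by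
  have hYr : (3 : ℝ) ≤ Y := by exact_mod_cast hY
  have hPr : (1 : ℝ) ≤ P := by exact_mod_cast hP
  have hX1 : (1 : ℝ) ≤ (Y : ℝ) * P := by nlinarith
  have hX0 : (0 : ℝ) < (Y : ℝ) * P := by linarith
  have hPY : (P : ℝ) ≤ Y := by
    have h1 : (P : ℝ) ≤ ((Y : ℝ) * P) ^ (1 / 2 : ℝ) :=
      le_trans hPX (Real.rpow_le_rpow_of_exponent_le hX1 (by linarith))
    rw [← Real.sqrt_eq_rpow] at h1
    have h2 : (P : ℝ) ^ 2 ≤ (Y : ℝ) * P := by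
      have := Real.sq_sqrt hX0.le
      nlinarith [Real.sqrt_nonneg ((Y : ℝ) * P)]
    nlinarith
  have hXY : (Y : ℝ) * P ≤ (Y : ℝ) ^ 2 := by nlinarith
  have hDX : (D : ℝ) ≤ (Y : ℝ) ^ (5 / 4 : ℝ) := by
    calc (D : ℝ) ≤ ((Y : ℝ) * P) ^ θ := hD
      _ ≤ ((Y : ℝ) * P) ^ (5 / 8 : ℝ) :=
          Real.rpow_le_rpow_of_exponent_le hX1 (by linarith)
      _ ≤ ((Y : ℝ) ^ 2) ^ (5 / 8 : ℝ) := Real.rpow_le_rpow hX0.le hXY (by norm_num)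
      _ = (Y : ℝ) ^ (5 / 4 : ℝ) := by
          rw [← Real.rpow_natCast, ← Real.rpow_mul (by positivity)]
          norm_num
  refine ⟨by exact_mod_cast hPY, ?_, ?_⟩
  · refine le_trans hDX ?_
    rw [← Real.rpow_natCast]
    exact Real.rpow_le_rpow_of_exponent_le (by linarith) (by norm_num)
  · have h1 : (D : ℝ) ^ 2 ≤ (Y : ℝ) ^ (5 / 2 : ℝ) := by
      calc (D : ℝ) ^ 2 ≤ ((Y : ℝ) ^ (5 / 4 : ℝ)) ^ 2 :=
            pow_le_pow_left₀ (by positivity) hDX 2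
        _ = (Y : ℝ) ^ (5 / 2 : ℝ) := by
            rw [← Real.rpow_natCast, ← Real.rpow_mul (by positivity)]
            norm_num
    have h2 : (Y : ℝ) ^ 3 = (Y : ℝ) ^ (5 / 2 : ℝ) * (Y : ℝ) ^ (1 / 2 : ℝ) := by
      rw [← Real.rpow_add (by linarith), ← Real.rpow_natCast]
      norm_num
    have h3 : (25 / 16 : ℝ) ≤ (Y : ℝ) ^ (1 / 2 : ℝ) := by
      rw [← Real.sqrt_eq_rpow]
      apply Real.le_sqrt_of_sq_le
      norm_num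
      linarith
    have h4 : 0 ≤ (Y : ℝ) ^ (5 / 2 : ℝ) := by positivity
    rw [h2]
    nlinarith

theorem card_Pr (P P' : ℕ) (h : 4 * P' ≤ 5 * P) : (Pr P P').card ≤ P := by
  unfold Pr
  refine le_trans (Finset.card_filter_le _ _) ?_
  rw [Nat.card_Ioc]
  omega

theorem mem_Pr {P P' p : ℕ} (h : p ∈ Pr P P') : P < p ∧ p ≤ P' ∧ p.Prime := by
  unfold Pr at h
  rw [Finset.mem_filter, Finset.mem_Ioc] at h
  exact ⟨h.1.1, h.1.2, h.2⟩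

end TTR2

open TTR2 in
theorem t_TR2 (hTR : P_TR1) (hPHX : P_PHX) (hPH : P_PH) : P_TR2 := by
  intro θ hθ0 hθ
  obtain ⟨ρ1, η1, hρ1, hρ1', hη1, H⟩ := hTR θ hθ0 hθ
  refine ⟨min ρ1 (η1 / 6), min (η1 / 2) (1 / 2), lt_min hρ1 (by linarith),
    le_trans (min_le_left _ _) hρ1', lt_min (by linarith) (by norm_num), ?_⟩
  intro a ha
  obtain ⟨C1, hC1, H1⟩ := H a ha
  obtain ⟨Y0, hY0⟩ := hPHX
  obtain ⟨B, hB⟩ : ∃ B : ℝ, B = ∑ Y ∈ range Y0, ∑ d1 ∈ range (2 * Y0 ^ 2 + 1),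
    ∑ d2 ∈ range (2 * Y0 ^ 2 + 1), ∑ p1 ∈ range (2 * Y0 + 1), ∑ p2 ∈ range (2 * Y0 + 1),
      |S11 a Y d1 d2 p1 p2 - mn Y d1 d2 p1 p2| := ⟨_, rfl⟩
  have hB0 : 0 ≤ B := by
    rw [hB]
    exact Finset.sum_nonneg (fun _ _ => Finset.sum_nonneg (fun _ _ =>
      Finset.sum_nonneg (fun _ _ => Finset.sum_nonneg (fun _ _ => Finset.sum_nonneg
        (fun _ _ => abs_nonneg _)))))
  refine ⟨2 * C1 + 4 + B, by linarith, ?_⟩
  intro Y P P' D S lam hY hP hPX hPP hPP2 hD hS hl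
  have hYr : (3 : ℝ) ≤ Y := by exact_mod_cast hY
  have hPr : (1 : ℝ) ≤ P := by exact_mod_cast hP
  have hX1 : (1 : ℝ) ≤ (Y : ℝ) * P := by nlinarith
  have hX0 : (0 : ℝ) < (Y : ℝ) * P := by linarith
  obtain ⟨hPY, hDY2, hDY⟩ := sizes Y P D _ θ hY hP (le_trans (min_le_left _ _) hρ1') hθ hPX hD
  have hPYr : (P : ℝ) ≤ Y := by exact_mod_cast hPY
  have hη12 : min (η1 / 2) (1 / 2 : ℝ) ≤ 1 / 2 := min_le_right _ _
  have hηη : min (η1 / 2) (1 / 2 : ℝ) ≤ η1 / 2 := min_le_left _ _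
  have hη0 : 0 < min (η1 / 2) (1 / 2 : ℝ) := lt_min (by linarith) (by norm_num)
  generalize min (η1 / 2) (1 / 2 : ℝ) = η at hη12 hηη hη0 ⊢
  -- `Y X^{-η} ≥ 1`
  have hYX : 1 ≤ (Y : ℝ) * ((Y : ℝ) * P) ^ (-η) := by
    have h1 : ((Y : ℝ) * P) ^ η ≤ Y := by
      calc ((Y : ℝ) * P) ^ η ≤ ((Y : ℝ) * P) ^ (1 / 2 : ℝ) :=
            Real.rpow_le_rpow_of_exponent_le hX1 hη12
        _ ≤ ((Y : ℝ) ^ 2) ^ (1 / 2 : ℝ) :=
            Real.rpow_le_rpow hX0.le (by nlinarith) (by norm_num)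
        _ = Y := by
            rw [← Real.sqrt_eq_rpow, Real.sqrt_sq (by linarith)]
    rw [Real.rpow_neg hX0.le, ← div_eq_mul_inv, one_le_div (by positivity)]
    exact h1
  have hP2 : (1 : ℝ) ≤ (P : ℝ) ^ 2 := one_le_pow₀ hPr
  have hgoal : 1 ≤ (Y : ℝ) * (P : ℝ) ^ 2 * ((Y : ℝ) * P) ^ (-η) := by
    calc (1 : ℝ) = 1 * 1 := by norm_num
      _ ≤ (P : ℝ) ^ 2 * ((Y : ℝ) * ((Y : ℝ) * P) ^ (-η)) :=
          mul_le_mul hP2 hYX zero_le_one (by positivity)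
      _ = (Y : ℝ) * (P : ℝ) ^ 2 * ((Y : ℝ) * P) ^ (-η) := by ring
  by_cases hYY : Y0 ≤ Y
  · -- the main case
    have hcard : ((Pr P P').card : ℝ) ≤ P := by exact_mod_cast card_Pr P P' hPP2
    have hpair : ∀ p1 ∈ Pr P P', ∀ p2 ∈ Pr P P',
        |∑ d1 ∈ S, ∑ d2 ∈ S, if good d1 d2 p1 p2 then lam d1 * lam d2 *
          (S11 a Y d1 d2 p1 p2 - mn Y d1 d2 p1 p2) else 0| ≤
        P * (2 * Y * (C1 * (P : ℝ) ^ 2 * ((Y : ℝ) * P) ^ (-η1)) +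
          ((2 * D : ℕ) : ℝ) ^ 2 * (1 / (Y : ℝ) ^ 4)) := by
      intro p1 hp1 p2 hp2
      obtain ⟨a1, a2, a3⟩ := mem_Pr hp1
      obtain ⟨b1, b2, b3⟩ := mem_Pr hp2
      by_cases hne : p1 = p2
      · have hz : (∑ d1 ∈ S, ∑ d2 ∈ S, if good d1 d2 p1 p2 then lam d1 * lam d2 *
          (S11 a Y d1 d2 p1 p2 - mn Y d1 d2 p1 p2) else 0) = 0 := by
          refine Finset.sum_eq_zero (fun d1 _ => Finset.sum_eq_zero (fun d2 _ => ?_))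
          rw [if_neg (fun h => h.1 hne)]
        rw [hz, abs_zero]
        positivity
      · exact pair θ ρ1 η1 a C1 Y0 H1 hY0 ha Y P D p1 p2 S lam hYY hC1.le hY hP
          (le_trans hPX (Real.rpow_le_rpow_of_exponent_le hX1 (min_le_left _ _))) a3 b3 hne
          a1 (by omega) b1 (by omega) hD hS hl hPH.2 hDY
    unfold OFF
    rw [swap]
    have hQ : (P : ℝ) * (2 * Y * (C1 * (P : ℝ) ^ 2 * ((Y : ℝ) * P) ^ (-η1)) +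
          ((2 * D : ℕ) : ℝ) ^ 2 * (1 / (Y : ℝ) ^ 4)) ≤
        (2 * C1 + 4) * ((Y : ℝ) * ((Y : ℝ) * P) ^ (-η)) := by
      have h1 : (P : ℝ) ^ 3 * ((Y : ℝ) * P) ^ (-η1) ≤ ((Y : ℝ) * P) ^ (-η) := by
        have h2 : (P : ℝ) ^ 3 ≤ ((Y : ℝ) * P) ^ (η1 / 2) := by
          calc (P : ℝ) ^ 3 ≤ (((Y : ℝ) * P) ^ (η1 / 6)) ^ 3 :=
                pow_le_pow_left₀ (by positivity)
                  (le_trans hPX (Real.rpow_le_rpow_of_exponent_le hX1 (min_le_right _ _))) 3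
            _ = ((Y : ℝ) * P) ^ (η1 / 2) := by
                rw [← Real.rpow_natCast, ← Real.rpow_mul hX0.le]
                congr 1
                push_cast
                ring
        calc (P : ℝ) ^ 3 * ((Y : ℝ) * P) ^ (-η1)
            ≤ ((Y : ℝ) * P) ^ (η1 / 2) * ((Y : ℝ) * P) ^ (-η1) :=
              mul_le_mul_of_nonneg_right h2 (by positivity)
          _ = ((Y : ℝ) * P) ^ (-(η1 / 2)) := by
              rw [← Real.rpow_add hX0]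
              congr 1
              ring
          _ ≤ ((Y : ℝ) * P) ^ (-η) :=
              Real.rpow_le_rpow_of_exponent_le hX1 (by linarith)
      have h3 : (P : ℝ) * (((2 * D : ℕ) : ℝ) ^ 2 * (1 / (Y : ℝ) ^ 4)) ≤ 4 := by
        have hY4 : (0 : ℝ) < (Y : ℝ) ^ 4 := by positivity
        have : (P : ℝ) * (((2 * D : ℕ) : ℝ) ^ 2 * (1 / (Y : ℝ) ^ 4)) =
            (P * (4 * (D : ℝ) ^ 2)) / (Y : ℝ) ^ 4 := by
          push_cast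
          ring
        rw [this, div_le_iff₀ hY4]
        have h5 : (D : ℝ) ^ 2 ≤ (Y : ℝ) ^ 3 := by
          have : (0 : ℝ) ≤ (Y : ℝ) ^ 3 := by positivity
          linarith
        calc (P : ℝ) * (4 * (D : ℝ) ^ 2) ≤ Y * (4 * (Y : ℝ) ^ 3) :=
              mul_le_mul hPYr (by linarith) (by positivity) (by positivity)
          _ = 4 * (Y : ℝ) ^ 4 := by ring
      calc (P : ℝ) * (2 * Y * (C1 * (P : ℝ) ^ 2 * ((Y : ℝ) * P) ^ (-η1)) +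
          ((2 * D : ℕ) : ℝ) ^ 2 * (1 / (Y : ℝ) ^ 4))
          = 2 * C1 * Y * ((P : ℝ) ^ 3 * ((Y : ℝ) * P) ^ (-η1)) +
            (P : ℝ) * (((2 * D : ℕ) : ℝ) ^ 2 * (1 / (Y : ℝ) ^ 4)) := by ring
        _ ≤ 2 * C1 * Y * ((Y : ℝ) * P) ^ (-η) + 4 * ((Y : ℝ) * ((Y : ℝ) * P) ^ (-η)) := by
            refine add_le_add ?_ ?_
            · exact mul_le_mul_of_nonneg_left h1 (by positivity)
            · linarith
        _ = (2 * C1 + 4) * ((Y : ℝ) * ((Y : ℝ) * P) ^ (-η)) := by ring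
    have hR0 : 0 ≤ (2 * C1 + 4) * ((Y : ℝ) * ((Y : ℝ) * P) ^ (-η)) := by positivity
    have hstep : ∀ p1 ∈ Pr P P', |∑ p2 ∈ Pr P P', ∑ d1 ∈ S, ∑ d2 ∈ S,
        if good d1 d2 p1 p2 then lam d1 * lam d2 *
          (S11 a Y d1 d2 p1 p2 - mn Y d1 d2 p1 p2) else 0| ≤
        P * ((2 * C1 + 4) * ((Y : ℝ) * ((Y : ℝ) * P) ^ (-η))) := by
      intro p1 hp1
      refine le_trans (Finset.abs_sum_le_sum_abs _ _) ?_
      refine le_trans (Finset.sum_le_sum (fun p2 hp2 => le_trans (hpair p1 hp1 p2 hp2) hQ)) ?_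
      rw [Finset.sum_const, nsmul_eq_mul]
      exact mul_le_mul_of_nonneg_right hcard hR0
    refine le_trans (Finset.abs_sum_le_sum_abs _ _) ?_
    refine le_trans (Finset.sum_le_sum hstep) ?_
    rw [Finset.sum_const, nsmul_eq_mul]
    calc ((Pr P P').card : ℝ) * (P * ((2 * C1 + 4) * ((Y : ℝ) * ((Y : ℝ) * P) ^ (-η))))
        ≤ P * (P * ((2 * C1 + 4) * ((Y : ℝ) * ((Y : ℝ) * P) ^ (-η)))) :=
          mul_le_mul_of_nonneg_right hcard (by positivity)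
      _ = (2 * C1 + 4) * ((Y : ℝ) * (P : ℝ) ^ 2 * ((Y : ℝ) * P) ^ (-η)) := by ring
      _ ≤ (2 * C1 + 4 + B) * ((Y : ℝ) * (P : ℝ) ^ 2 * ((Y : ℝ) * P) ^ (-η)) :=
          mul_le_mul_of_nonneg_right (by linarith) (by positivity)
      _ = (2 * C1 + 4 + B) * (Y : ℝ) * (P : ℝ) ^ 2 * ((Y : ℝ) * P) ^ (-η) := by ring
  · -- bounded `Y`
    have hYlt : Y < Y0 := by omega
    have hDn : D ≤ Y ^ 2 := by exact_mod_cast hDY2
    have hYsq : Y ^ 2 ≤ Y0 ^ 2 := Nat.pow_le_pow_left hYlt.le 2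
    have hSsub : S ⊆ range (2 * Y0 ^ 2 + 1) := by
      intro d hd
      rw [Finset.mem_range]
      have := (hS d hd).2.1
      omega
    have hTsub : Pr P P' ⊆ range (2 * Y0 + 1) := by
      intro p hp
      rw [Finset.mem_range]
      have := mem_Pr hp
      omega
    have h1 : |OFF a lam S (Pr P P') Y| ≤ ∑ d1 ∈ S, ∑ d2 ∈ S, ∑ p1 ∈ Pr P P', ∑ p2 ∈ Pr P P',
        |S11 a Y d1 d2 p1 p2 - mn Y d1 d2 p1 p2| := by
      unfold OFF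
      refine le_trans (Finset.abs_sum_le_sum_abs _ _) (Finset.sum_le_sum (fun d1 _ => ?_))
      refine le_trans (Finset.abs_sum_le_sum_abs _ _) (Finset.sum_le_sum (fun d2 _ => ?_))
      refine le_trans (Finset.abs_sum_le_sum_abs _ _) (Finset.sum_le_sum (fun p1 _ => ?_))
      refine le_trans (Finset.abs_sum_le_sum_abs _ _) (Finset.sum_le_sum (fun p2 _ => ?_))
      split_ifs
      · rw [abs_mul, abs_mul]
        calc |lam d1| * |lam d2| * |S11 a Y d1 d2 p1 p2 - mn Y d1 d2 p1 p2|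
            ≤ 1 * |S11 a Y d1 d2 p1 p2 - mn Y d1 d2 p1 p2| :=
              mul_le_mul_of_nonneg_right
                (mul_le_one₀ (hl _) (abs_nonneg _) (hl _)) (abs_nonneg _)
          _ = _ := one_mul _
      · rw [abs_zero]
        exact abs_nonneg _
    have h2 : |OFF a lam S (Pr P P') Y| ≤ B := by
      refine le_trans h1 (le_trans (mono4 S _ (Pr P P') _ hSsub hTsub _
        (fun _ _ _ _ => abs_nonneg _)) ?_)
      rw [hB]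
      exact Finset.single_le_sum (f := fun Y : ℕ => ∑ d1 ∈ range (2 * Y0 ^ 2 + 1),
        ∑ d2 ∈ range (2 * Y0 ^ 2 + 1), ∑ p1 ∈ range (2 * Y0 + 1), ∑ p2 ∈ range (2 * Y0 + 1),
          |S11 a Y d1 d2 p1 p2 - mn Y d1 d2 p1 p2|)
        (fun _ _ => Finset.sum_nonneg (fun _ _ => Finset.sum_nonneg (fun _ _ =>
          Finset.sum_nonneg (fun _ _ => Finset.sum_nonneg (fun _ _ => abs_nonneg _)))))
        (Finset.mem_range.2 hYlt)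
    calc |OFF a lam S (Pr P P') Y| ≤ B * 1 := by linarith
      _ ≤ B * ((Y : ℝ) * (P : ℝ) ^ 2 * ((Y : ℝ) * P) ^ (-η)) :=
          mul_le_mul_of_nonneg_left hgoal hB0
      _ ≤ (2 * C1 + 4 + B) * ((Y : ℝ) * (P : ℝ) ^ 2 * ((Y : ℝ) * P) ^ (-η)) :=
          mul_le_mul_of_nonneg_right (by linarith) (by positivity)
      _ = (2 * C1 + 4 + B) * (Y : ℝ) * (P : ℝ) ^ 2 * ((Y : ℝ) * P) ^ (-η) := by ring

end Pool.Agent.H262R4.FR
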