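import Pool.Agent.H262R4.FR.F1
import Pool.Agent.H262R4.FR.F2
import Pool.Agent.H262R4.FR.F3
import Pool.Agent.H262R4.FR.F4
import Pool.Agent.H262R4.FR.F5
import Pool.Agent.H262R4.FR.F6
import Pool.Agent.H262R4.FR.F7
import Pool.Agent.H262R4.FR.F8
import Pool.Agent.H262R4.FR.FR
import Pool.Agent.H262R4.FR.PH
import Pool.Agent.H262R4.FR.PHX
import Pool.Agent.H262R4.FR.TR1
import Pool.Agent.H262R4.FR.TR2
import Pool.Agent.H262R4.FR.DISP2
import Pool.Agent.H262R4.FR.TK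
import Pool.Agent.H262R4.FR.LW
import Pool.Agent.H262R4.FR.MU
import Pool.Agent.H262R4.FR.MT

/-!
FR project: assembly of the results for arbitrary moduli (level 14/27).
-/

namespace Pool.Agent.H262R4.FR

theorem f_FR : P_FR :=
  t_FR t_F3 (t_F4 (t_F2 t_F1)) (t_F5 t_F1) t_F6 t_F7 (t_F8 t_F7)

theorem f_PHX : P_PHX := t_PHX t_PH

theorem f_TR2 : P_TR2 := t_TR2 t_TR1 f_PHX t_PH

theorem f_DISP2 : P_DISP2 := t_DISP2 f_FR f_TR2 t_F1 t_PH

theorem f_MT : P_MT := t_MT f_DISP2 t_TK t_LW t_MU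

end Pool.Agent.H262R4.FR
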