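import Pool.Agent.H262R4.FR.Stubs

/-!
FR project (helper262): the general theorem on convolutions of an arbitrary sequence with a tiny prime.
Statements.
-/

namespace Pool.Agent.H262R4.FR

open Finset

/-- `P_DISP2` with the admissible size of the primes independent of the saving -/
def P_DISP2b : Prop :=
  ∀ θ : ℝ, 0 < θ → θ < 14 / 27 → ∃ ρ : ℝ, 0 < ρ ∧ ρ ≤ 1 / 100 ∧
  ∀ a : ℤ, a ≠ 0 → ∀ ρ0 : ℝ, 0 < ρ0 → ∀ A : ℕ, ∃ C : ℝ, 0 < C ∧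
  ∀ (M P P' D : ℕ) (α : ℕ → ℝ), 3 ≤ M → 3 ≤ P → ((M : ℝ) * P) ^ ρ0 ≤ P →
    (P : ℝ) ≤ ((M : ℝ) * P) ^ ρ → P ≤ P' → 4 * P' ≤ 5 * P →
    (D : ℝ) ≤ ((M : ℝ) * P) ^ θ → (∀ m, |α m| ≤ 1) →
    ∑ d ∈ (Ioc D (2 * D)).filter (fun d : ℕ => Int.gcd a d = 1),
      |∑ m ∈ Icc 1 M, α m * (∑ p ∈ Pr P P', Ii a d p m -
        Cc d m * ((Pr P P').card : ℝ) / (Nat.totient d : ℝ))| ≤
      C * ((M : ℝ) * P) / Real.log ((M : ℝ) * P) ^ A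

/-- the natural form, bounded real coefficients -/
def P_UC1 : Prop :=
  ∀ θ : ℝ, 0 < θ → θ < 14 / 27 → ∃ ρ : ℝ, 0 < ρ ∧
  ∀ a : ℤ, a ≠ 0 → ∀ ρ0 : ℝ, 0 < ρ0 → ∀ A : ℕ, ∃ C : ℝ, 0 < C ∧
  ∀ (x P P' : ℕ) (α : ℕ → ℝ), 3 ≤ x → (x : ℝ) ^ ρ0 ≤ P → (P' : ℝ) ≤ (x : ℝ) ^ ρ →
    (∀ m, |α m| ≤ 1) →
    ∑ d ∈ (Icc 1 ⌊(x : ℝ) ^ θ⌋₊).filter (fun d : ℕ => Int.gcd a d = 1),
      |∑ p ∈ Pr P P', ∑ m ∈ Icc 1 (x / p), α m *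
        (Ii a d p m - if Nat.Coprime (m * p) d then 1 / (Nat.totient d : ℝ) else 0)| ≤
      C * x / Real.log x ^ A

/-- the natural form, divisor-bounded complex coefficients -/
def P_UC2 : Prop :=
  ∀ θ : ℝ, 0 < θ → θ < 14 / 27 → ∃ ρ : ℝ, 0 < ρ ∧
  ∀ a : ℤ, a ≠ 0 → ∀ ρ0 : ℝ, 0 < ρ0 → ∀ A B : ℕ, ∃ C : ℝ, 0 < C ∧
  ∀ (x P P' : ℕ) (α : ℕ → ℂ), 3 ≤ x → (x : ℝ) ^ ρ0 ≤ P → (P' : ℝ) ≤ (x : ℝ) ^ ρ →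
    (∀ m, ‖α m‖ ≤ (m.divisors.card : ℝ) ^ B) →
    ∑ d ∈ (Icc 1 ⌊(x : ℝ) ^ θ⌋₊).filter (fun d : ℕ => Int.gcd a d = 1),
      ‖∑ p ∈ Pr P P', ∑ m ∈ Icc 1 (x / p), α m *
        ((Ii a d p m - if Nat.Coprime (m * p) d then 1 / (Nat.totient d : ℝ) else 0 : ℝ) : ℂ)‖ ≤
      C * x / Real.log x ^ A

end Pool.Agent.H262R4.FR
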