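import Pool.Agent.H262R4.FR.DISP2
import Pool.Agent.H262R4.FR.UC

/-!
FR project: `P_DISP2b` (helper16's proof of `P_DISP2`, quantifiers reordered).
-/

namespace Pool.Agent.H262R4.FR

open Finset
open Pool.Agent.H442R2.KF (e kf Wt)

open TDISP2 in
theorem t_DISP2b (hFR : P_FR) (hTR : P_TR2) (hF1 : P_F1) (hPH : P_PH) : P_DISP2b := by
  intro θ hθ0 hθ
  set θ' : ℝ := (θ + 14 / 27) / 2 with hθ'
  obtain ⟨ρT, ηT, hρT0, hρT1, hηT0, hTR'⟩ := hTR θ' (by positivity) (by linarith)
  refine ⟨min (ρT / 2) (1 / 200), lt_min (by positivity) (by norm_num),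
    (min_le_right _ _).trans (by norm_num), ?_⟩
  intro a ha ρ0 hρ0 A
  obtain ⟨CT, hCT0, hCT⟩ := hTR' a ha
  set ρ1 : ℝ := min (1 / 4) ((θ' - θ) / (2 * θ')) with hρ1
  have hθ'0 : 0 < θ' := by positivity
  have hρ10 : 0 < ρ1 := lt_min (by norm_num) (div_pos (by linarith) (by positivity))
  have hρ14 : ρ1 ≤ 1 / 4 := min_le_left _ _
  set θ2 : ℝ := (θ + θ') / 2 with hθ2
  have hθ2' : θ2 ≤ (1 - ρ1) * θ' := by
    have h1 : ρ1 ≤ (θ' - θ) / (2 * θ') := min_le_right _ _
    rw [le_div_iff₀ (by positivity)] at h1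
    nlinarith
  obtain ⟨Ca, hCa0, hCa⟩ := main_range hFR hF1 a ha A ρ0 ηT CT ρ1 hρ0 hηT0 hCT0.le hρ10 hρ14
  obtain ⟨Cb, hCb0, hCb⟩ := main_range hFR hF1 a ha A ρ0 (1 / 2) 2592 ρ1 hρ0 (by norm_num)
    (by norm_num) hρ10 hρ14
  obtain ⟨X0, hX0⟩ : ∃ X0 : ℝ, 81 ≤ X0 ∧ ∀ X : ℝ, X0 ≤ X → 8 ≤ X ^ (θ2 - θ) ∧
      18 ≤ X ^ (29 / 100 : ℝ) := by
    have h1 := (tendsto_rpow_atTop (by linarith : 0 < θ2 - θ)).eventually_ge_atTop 8
    have h2 := (tendsto_rpow_atTop (by norm_num : (0 : ℝ) < 29 / 100)).eventually_ge_atTop 18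
    obtain ⟨X0, h⟩ := Filter.eventually_atTop.1 (h1.and h2)
    exact ⟨max 81 X0, le_max_left _ _, fun X hX => h X ((le_max_right _ _).trans hX)⟩
  obtain ⟨hX081, hXl⟩ := hX0
  have hlX0 : 0 < Real.log X0 := Real.log_pos (by linarith)
  refine ⟨4 * Ca + Cb + 2 * X0 * Real.log X0 ^ A, by positivity, ?_⟩
  intro M P P' D α hM hP hP0 hP1 hPP hPP2 hD hα
  set X : ℝ := (M : ℝ) * P with hX
  set T := Pr P P' with hT
  have hM3 : (3 : ℝ) ≤ M := by exact_mod_cast hM
  have hP3 : (3 : ℝ) ≤ P := by exact_mod_cast hP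
  have hX9 : 9 ≤ X := by rw [hX]; nlinarith
  have hX1 : (1 : ℝ) ≤ X := by linarith
  have hXpos : (0 : ℝ) < X := by linarith
  have hlX : 0 < Real.log X := Real.log_pos (by linarith)
  have hPP' : P' ≤ 2 * P := by omega
  set S0 := (Ioc D (2 * D)).filter (fun d : ℕ => Int.gcd a d = 1) with hS0
  set f : ℕ → ℝ := fun d => |∑ m ∈ Icc 1 M, α m * (∑ p ∈ T, Ii a d p m -
        Cc d m * (T.card : ℝ) / (Nat.totient d : ℝ))| with hf
  change ∑ d ∈ S0, f d ≤ _
  have hf0 : ∀ d, 0 ≤ f d := fun d => abs_nonneg _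
  have hmain0 : 0 ≤ X / Real.log X ^ A := by positivity
  rcases lt_or_ge X X0 with hlt | hge
  · -- bounded `X`
    have h1 : ∀ d ∈ S0, f d ≤ 2 * X := by
      intro d hd
      rw [hS0, Finset.mem_filter, Finset.mem_Ioc] at hd
      have hd1 : 1 ≤ d := by omega
      have h2 : f d ≤ ∑ m ∈ Icc 1 M, (2 * (T.card : ℝ)) := by
        refine (Finset.abs_sum_le_sum_abs _ _).trans (Finset.sum_le_sum fun m _ => ?_)
        rw [abs_mul]
        refine (mul_le_of_le_one_left (abs_nonneg _) (hα m)).trans ?_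
        exact (br_abs a T d m).trans (br_crude a T hd1 m)
      rw [Finset.sum_const, Nat.card_Icc, nsmul_eq_mul, add_tsub_cancel_right] at h2
      have h3 : (T.card : ℝ) ≤ P := card_Pr hPP'
      calc f d ≤ M * (2 * (T.card : ℝ)) := h2
        _ ≤ M * (2 * P) := mul_le_mul_of_nonneg_left (by linarith) (by linarith)
        _ = 2 * X := by rw [hX]; ring
    have h2 : ∑ d ∈ S0, f d ≤ S0.card * (2 * X) := by
      have := Finset.sum_le_card_nsmul S0 f (2 * X) h1
      simpa using this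
    have h3 : (S0.card : ℝ) ≤ X := by
      have h4 : S0.card ≤ (Ioc D (2 * D)).card := Finset.card_filter_le _ _
      rw [Nat.card_Ioc] at h4
      have h5 : (S0.card : ℝ) ≤ D := Nat.cast_le.2 (by omega)
      have h6 : X ^ θ ≤ X ^ (1 : ℝ) := Real.rpow_le_rpow_of_exponent_le hX1 (by linarith)
      rw [Real.rpow_one] at h6
      linarith
    have h4 : Real.log X ^ A ≤ Real.log X0 ^ A :=
      pow_le_pow_left₀ hlX.le (Real.log_le_log hXpos hlt.le) A
    have h5 : 2 * X0 * X ≤ 2 * X0 * Real.log X0 ^ A * X / Real.log X ^ A := by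
      rw [le_div_iff₀ (by positivity)]
      have : 2 * X0 * X * Real.log X ^ A ≤ 2 * X0 * X * Real.log X0 ^ A :=
        mul_le_mul_of_nonneg_left h4 (by positivity)
      linarith
    have h6 : (4 * Ca + Cb + 2 * X0 * Real.log X0 ^ A) * X / Real.log X ^ A =
        (4 * Ca + Cb) * (X / Real.log X ^ A) + 2 * X0 * Real.log X0 ^ A * X / Real.log X ^ A := by
      ring
    rw [h6]
    have h7 : 0 ≤ (4 * Ca + Cb) * (X / Real.log X ^ A) := by positivity
    have h8 : (S0.card : ℝ) * (2 * X) ≤ 2 * X0 * X := by nlinarith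
    linarith
  · -- large `X`
    have hX81 : 81 ≤ X := hX081.trans hge
    obtain ⟨h8, h18⟩ := hXl X hge
    have hbase : 1 ≤ X ^ (1 - ρ1) / 2 := by
      have h1 : X ^ (3 / 4 : ℝ) ≤ X ^ (1 - ρ1) :=
        Real.rpow_le_rpow_of_exponent_le hX1 (by linarith)
      have h2 : (81 : ℝ) ^ (3 / 4 : ℝ) ≤ X ^ (3 / 4 : ℝ) :=
        Real.rpow_le_rpow (by norm_num) hX81 (by norm_num)
      have h3 : (81 : ℝ) ^ (3 / 4 : ℝ) = 27 := by
        rw [show (81 : ℝ) = 3 ^ (4 : ℝ) by norm_num, ← Real.rpow_mul (by norm_num)]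
        norm_num
      linarith
    have hkey : 4 * X ^ θ ≤ (X ^ (1 - ρ1) / 2) ^ θ' := by
      have h1 : (X ^ (1 - ρ1) / 2) ^ θ' = X ^ ((1 - ρ1) * θ') / 2 ^ θ' := by
        rw [Real.div_rpow (by positivity) (by norm_num), ← Real.rpow_mul hXpos.le]
      have h2 : (2 : ℝ) ^ θ' ≤ 2 := by
        calc (2 : ℝ) ^ θ' ≤ 2 ^ (1 : ℝ) :=
              Real.rpow_le_rpow_of_exponent_le (by norm_num) (by linarith)
          _ = 2 := Real.rpow_one 2
      have h3 : X ^ θ2 ≤ X ^ ((1 - ρ1) * θ') := Real.rpow_le_rpow_of_exponent_le hX1 hθ2'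
      have h4 : X ^ θ2 = X ^ (θ2 - θ) * X ^ θ := by rw [← Real.rpow_add hXpos]; congr 1; ring
      have h5 : 0 < X ^ θ := by positivity
      rw [h1, le_div_iff₀ (by positivity)]
      have h6 : 8 * X ^ θ ≤ X ^ θ2 := by rw [h4]; exact mul_le_mul_of_nonneg_right h8 h5.le
      have h7 : 4 * X ^ θ * 2 ^ θ' ≤ 4 * X ^ θ * 2 := mul_le_mul_of_nonneg_left h2 (by positivity)
      linarith
    have hkey2 : (X ^ (1 - ρ1) / 2) ^ θ' ≤ (X ^ (1 - ρ1) / 2) ^ (29 / 50 : ℝ) :=
      Real.rpow_le_rpow_of_exponent_le hbase (by linarith)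
    have hkey3 : (X ^ (1 - ρ1) / 2) ^ (29 / 50 : ℝ) ≤ X ^ (29 / 50 : ℝ) := by
      apply Real.rpow_le_rpow (by positivity) _ (by norm_num)
      have h1 : X ^ (1 - ρ1) ≤ X ^ (1 : ℝ) := Real.rpow_le_rpow_of_exponent_le hX1 (by linarith)
      rw [Real.rpow_one] at h1
      have h2 : 0 < X ^ (1 - ρ1) := by positivity
      linarith
    have hP200 : (P : ℝ) ≤ X ^ (1 / 200 : ℝ) :=
      hP1.trans (Real.rpow_le_rpow_of_exponent_le hX1 (min_le_right _ _))
    have hPT : (P : ℝ) ≤ X ^ (ρT / 2) :=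
      hP1.trans (Real.rpow_le_rpow_of_exponent_le hX1 (min_le_left _ _))
    have hfin : ∀ c : ℝ, c ≤ 4 * Ca + Cb → c * X / Real.log X ^ A ≤
        (4 * Ca + Cb + 2 * X0 * Real.log X0 ^ A) * X / Real.log X ^ A := by
      intro c hc
      apply div_le_div_of_nonneg_right _ (by positivity)
      apply mul_le_mul_of_nonneg_right _ hXpos.le
      have : 0 ≤ 2 * X0 * Real.log X0 ^ A := by positivity
      linarith
    rcases lt_or_ge D 10 with hD10 | hD10
    · -- small moduli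
      obtain ⟨lam, hl, hlam⟩ := sign_sum a α S0 T M
      change ∑ d ∈ S0, f d = _ at hlam
      rw [hlam]
      have hSS : ∀ d ∈ S0, 1 ≤ d ∧ d ≤ 18 ∧ Int.gcd a d = 1 := by
        intro d hd
        rw [hS0, Finset.mem_filter, Finset.mem_Ioc] at hd
        exact ⟨by omega, by omega, hd.2⟩
      have h18' : ((18 : ℕ) : ℝ) ≤ X ^ (29 / 50 : ℝ) := by
        push_cast
        exact h18.trans (Real.rpow_le_rpow_of_exponent_le hX1 (by norm_num))
      have h1 := hCb M P P' 18 S0 lam α hM hP hX81 hP0 hP200 hPP hPP' h18' hSS hl hα (by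
        intro Y hY3 _ hYP hPY
        have hY0 : (0 : ℝ) < Y := by exact_mod_cast (by omega : 0 < Y)
        have hPp : (0 : ℝ) < P := by linarith
        constructor
        · push_cast
          calc (18 : ℝ) ≤ X ^ (29 / 100 : ℝ) := h18
            _ = (X ^ (1 / 2 : ℝ)) ^ (29 / 50 : ℝ) := by
                rw [← Real.rpow_mul hXpos.le]; norm_num
            _ ≤ _ := Real.rpow_le_rpow (by positivity) hYP (by norm_num)
        · refine (off_small hPH hF1 ha (by omega) hPP' hl hSS).trans ?_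
          have h2 : 1 ≤ (Y : ℝ) * ((Y : ℝ) * P) ^ (-(1 / 2) : ℝ) := by
            rw [Real.rpow_neg (by positivity), ← Real.sqrt_eq_rpow, ← div_eq_mul_inv,
              le_div_iff₀ (Real.sqrt_pos.2 (by positivity)), one_mul]
            apply Real.sqrt_le_iff.2
            constructor
            · exact hY0.le
            · nlinarith
          calc 2592 * (P : ℝ) ^ 2 = 2592 * (P : ℝ) ^ 2 * 1 := by ring
            _ ≤ 2592 * (P : ℝ) ^ 2 * ((Y : ℝ) * ((Y : ℝ) * P) ^ (-(1 / 2) : ℝ)) :=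
                mul_le_mul_of_nonneg_left h2 (by positivity)
            _ = _ := by ring)
      exact (le_abs_self _).trans (h1.trans (hfin Cb (by linarith)))
    · -- large moduli: four ranges
      have hrange : ∀ D1 : ℕ, D1 ≤ 2 * D →
          ∑ d ∈ S0.filter (fun d => D1 < d ∧ d ≤ 5 * D1 / 4), f d ≤
            Ca * X / Real.log X ^ A := by
        intro D1 hD1
        set S := S0.filter (fun d => D1 < d ∧ d ≤ 5 * D1 / 4) with hS
        obtain ⟨lam, hl, hlam⟩ := sign_sum a α S T M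
        change ∑ d ∈ S, f d = _ at hlam
        rw [hlam]
        have hSS : ∀ d ∈ S, D1 < d ∧ 4 * d ≤ 5 * D1 ∧ Int.gcd a d = 1 := by
          intro d hd
          rw [hS, Finset.mem_filter, hS0, Finset.mem_filter, Finset.mem_Ioc] at hd
          exact ⟨hd.2.1, by omega, hd.1.2⟩
        have hD1' : (D1 : ℝ) ≤ 2 * X ^ θ := by
          have : (D1 : ℝ) ≤ 2 * (D : ℝ) := by exact_mod_cast hD1
          linarith
        have hD2' : ((2 * D1 : ℕ) : ℝ) ≤ 4 * X ^ θ := by
          push_cast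
          linarith
        have h1 := hCa M P P' (2 * D1) S lam α hM hP hX81 hP0 hP200 hPP hPP'
          (hD2'.trans (hkey.trans (hkey2.trans hkey3)))
          (fun d hd => ⟨by have := hSS d hd; omega, by have := hSS d hd; omega,
            (hSS d hd).2.2⟩) hl hα (by
          intro Y hY3 hYX hYP hPY
          constructor
          · refine hD2'.trans (hkey.trans (hkey2.trans ?_))
            exact Real.rpow_le_rpow (by positivity) hYX (by norm_num)
          · refine hCT Y P P' D1 S lam hY3 (by omega) ?_ hPP hPP2 ?_ hSS hl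
            · calc (P : ℝ) ≤ X ^ (ρT / 2) := hPT
                _ = (X ^ (1 / 2 : ℝ)) ^ ρT := by
                    rw [← Real.rpow_mul hXpos.le]; congr 1; ring
                _ ≤ _ := Real.rpow_le_rpow (by positivity) hYP hρT0.le
            · have h5 : 0 < X ^ θ := by positivity
              calc (D1 : ℝ) ≤ 4 * X ^ θ := by linarith
                _ ≤ (X ^ (1 - ρ1) / 2) ^ θ' := hkey
                _ ≤ _ := Real.rpow_le_rpow (by positivity) hYX hθ'0.le)
        exact (le_abs_self _).trans h1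
      set D1 := 5 * D / 4 with hD1
      set D2 := 5 * D1 / 4 with hD2
      set D3 := 5 * D2 / 4 with hD3
      have hcov : 2 * D ≤ 5 * D3 / 4 := by omega
      have r0 := hrange D (by omega)
      have r1 := hrange D1 (by omega)
      have r2 := hrange D2 (by omega)
      have r3 := hrange D3 (by omega)
      have hsum := cover4 f hf0 S0 D D1 D2 D3 (by
        intro d hd
        rw [hS0, Finset.mem_filter, Finset.mem_Ioc] at hd
        exact hd.1) hD1 hD2 hD3 hcov
      have hfin' := hfin (4 * Ca) (by linarith)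
      have e : 4 * Ca * X / Real.log X ^ A = 4 * (Ca * X / Real.log X ^ A) := by ring
      rw [e] at hfin'
      refine le_trans (hsum.trans ?_) hfin'
      have h4 : ∀ s0 s1 s2 s3 B : ℝ, s0 ≤ B → s1 ≤ B → s2 ≤ B → s3 ≤ B →
          s0 + s1 + s2 + s3 ≤ 4 * B := by
        intro s0 s1 s2 s3 B b0 b1 b2 b3
        linarith
      exact h4 _ _ _ _ _ r0 r1 r2 r3

end Pool.Agent.H262R4.FR
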