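import Pool.Agent.H262R4.FR.UC
import Pool.Agent.H442R2.EHI.Bounds

/-! FR project, task UC1 (helper201): the general convolution theorem, bounded coefficients. -/

set_option autoImplicit false

namespace Pool.Agent.H262R4.FR

open Finset

namespace TUC1

/-- the difference of the indicator and the main term -/
noncomputable def G (a : ℤ) (d p m : ℕ) : ℝ :=
  Ii a d p m - if Nat.Coprime (m * p) d then 1 / (Nat.totient d : ℝ) else 0

/-- the sum over the primes and `m ≤ x / p` -/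
noncomputable def F (a : ℤ) (α : ℕ → ℝ) (x P P' d : ℕ) : ℝ :=
  ∑ p ∈ Pr P P', ∑ m ∈ Icc 1 (x / p), α m * G a d p m

/-- the sum of `P_DISP2b` -/
noncomputable def H (a : ℤ) (α : ℕ → ℝ) (M P P' d : ℕ) : ℝ :=
  ∑ m ∈ Icc 1 M, α m * (∑ p ∈ Pr P P', Ii a d p m -
        Cc d m * ((Pr P P').card : ℝ) / (Nat.totient d : ℝ))

theorem Ii_nonneg (a : ℤ) (d p : ℕ) (m : ℤ) : 0 ≤ Ii a d p m := by
  unfold Ii; split_ifs <;> norm_num

theorem tot_nonneg (d : ℕ) : 0 ≤ 1 / (Nat.totient d : ℝ) := by positivity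

theorem G_abs (a : ℤ) (d p m : ℕ) : |G a d p m| ≤ Ii a d p m + 1 / (Nat.totient d : ℝ) := by
  unfold G
  have h1 := Ii_nonneg a d p m
  have h2 := tot_nonneg d
  split_ifs
  · rw [abs_le]; constructor <;> linarith
  · rw [sub_zero, abs_of_nonneg h1]; linarith

theorem cnt_res (M M' d p : ℕ) (a : ℤ) (hd : 1 ≤ d) (hg : Int.gcd a d = 1) (hM : M ≤ M') :
    ∑ m ∈ Ioc M M', Ii a d p m ≤ ((M' : ℝ) - M) / d + 1 := by
  have hd0 : (0 : ℝ) < d := by exact_mod_cast hd
  have hMM : (M : ℝ) ≤ M' := by exact_mod_cast hM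
  have hsum : ∑ m ∈ Ioc M M', Ii a d p m =
      (((Ioc M M').filter (fun m : ℕ => (d : ℤ) ∣ (m : ℤ) * p - a)).card : ℝ) := by
    rw [Finset.card_filter]
    push_cast
    rfl
  rw [hsum]
  rcases ((Ioc M M').filter (fun m : ℕ => (d : ℤ) ∣ (m : ℤ) * p - a)).eq_empty_or_nonempty with
    h | ⟨m0, hm0⟩
  · rw [h, Finset.card_empty, Nat.cast_zero]
    have : 0 ≤ ((M' : ℝ) - M) / d := div_nonneg (by linarith) hd0.le
    linarith
  · rw [mem_filter] at hm0
    have hsub : (Ioc M M').filter (fun m : ℕ => (d : ℤ) ∣ (m : ℤ) * p - a) ⊆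
        (Ioc M M').filter (fun m : ℕ => m ≡ m0 [MOD d]) := by
      intro m hm
      rw [mem_filter] at hm ⊢
      refine ⟨hm.1, ?_⟩
      have h1 : (d : ℤ) ∣ ((m0 : ℤ) - m) * p := by
        have := dvd_sub hm0.2 hm.2
        have e : (m0 : ℤ) * p - a - ((m : ℤ) * p - a) = ((m0 : ℤ) - m) * p := by ring
        rwa [e] at this
      have h2 : IsCoprime (d : ℤ) (p : ℤ) := by
        have hga : IsCoprime a (d : ℤ) := Int.isCoprime_iff_gcd_eq_one.2 hg
        obtain ⟨u, v, huv⟩ := hga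
        obtain ⟨k, hk⟩ := hm0.2
        refine ⟨v - u * k, u * m0, ?_⟩
        have : a = (m0 : ℤ) * p - d * k := by linarith
        rw [this] at huv
        linarith
      have h3 : (d : ℤ) ∣ (m0 : ℤ) - m := h2.dvd_of_dvd_mul_right h1
      rw [← Int.natCast_modEq_iff]
      exact (Int.modEq_iff_dvd.2 h3)
    have hcard := Finset.card_le_card hsub
    have hmod := Nat.Ioc_filter_modEq_card M M' (r := d) (by omega) m0
    have hreal : ((((Ioc M M').filter (fun m : ℕ => m ≡ m0 [MOD d])).card : ℤ) : ℚ) ≤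
        ((M' : ℚ) - M) / d + 1 := by
      rw [hmod]
      have hd0' : (0 : ℚ) < d := by exact_mod_cast hd
      have hMM' : (M : ℚ) ≤ M' := by exact_mod_cast hM
      push_cast
      apply max_le
      · have f1 := Int.floor_le (((M' : ℚ) - m0) / d)
        have f2 := Int.lt_floor_add_one (((M : ℚ) - m0) / d)
        have f3 : ((M' : ℚ) - m0) / d - ((M : ℚ) - m0) / d = ((M' : ℚ) - M) / d := by ring
        linarith
      · have : 0 ≤ ((M' : ℚ) - M) / d := div_nonneg (by linarith) hd0'.le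
        linarith
    have hreal2 : (((Ioc M M').filter (fun m : ℕ => m ≡ m0 [MOD d])).card : ℝ) ≤
        ((M' : ℝ) - M) / d + 1 := by
      have h5 : ((((Ioc M M').filter (fun m : ℕ => m ≡ m0 [MOD d])).card : ℚ) : ℝ) ≤
        (((((M' : ℚ) - M) / d + 1 : ℚ)) : ℝ) := by
        exact_mod_cast hreal
      push_cast at h5
      exact h5
    refine le_trans ?_ hreal2
    exact_mod_cast hcard

theorem card_pf (q : ℕ) (hq : 1 ≤ q) : (q.primeFactors.card : ℝ) ≤ 2 * Real.log q := by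
  have hq' : (1 : ℝ) ≤ q := by exact_mod_cast hq
  have hlog : 0 ≤ Real.log q := Real.log_nonneg hq'
  have h4 : 2 ^ q.primeFactors.card ≤ q := by
    calc 2 ^ q.primeFactors.card ≤ ∏ p ∈ q.primeFactors, p := by
          apply Finset.pow_card_le_prod
          intro p hp
          exact (Nat.prime_of_mem_primeFactors hp).two_le
      _ ≤ q := Nat.le_of_dvd (by omega) (Nat.prod_primeFactors_dvd q)
  have h5 : ((2 : ℝ) ^ q.primeFactors.card) ≤ q := by exact_mod_cast h4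
  have h6 := Real.log_le_log (by positivity) h5
  rw [Real.log_pow] at h6
  have h7 := Real.log_two_gt_d9
  have h8 : (0 : ℝ) ≤ q.primeFactors.card := Nat.cast_nonneg _
  nlinarith

theorem Icc_split {M K : ℕ} (h : M ≤ K) : Icc 1 K = Icc 1 M ∪ Ioc M K := by
  ext m
  simp only [mem_Icc, mem_union, mem_Ioc]
  omega

/-- one block -/
theorem block (a : ℤ) (α : ℕ → ℝ) (x P P1 L d : ℕ) (hα : ∀ m, |α m| ≤ 1) (hL : 1 ≤ L) (hP : 1 ≤ P)
    (hPP : P ≤ P1) (hP1 : P1 ≤ P + P / L) (hd : 1 ≤ d) (hg : Int.gcd a d = 1) :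
    |F a α x P P1 d| ≤ |H a α (x / P1) P P1 d| +
      2 * ((x : ℝ) / (L : ℝ) ^ 2 + P) * (1 / (Nat.totient d : ℝ)) + P +
      2 * Real.log d * ((x : ℝ) / P) * (1 / (Nat.totient d : ℝ)) := by
  set M := x / P1 with hM
  have hL0 : (0 : ℝ) < L := by exact_mod_cast hL
  have hL1 : (1 : ℝ) ≤ L := by exact_mod_cast hL
  have hP0 : (0 : ℝ) < P := by exact_mod_cast hP
  have hd0 : (0 : ℝ) < d := by exact_mod_cast hd
  have hd1 : (1 : ℝ) ≤ d := by exact_mod_cast hd
  have htot0 : (0 : ℝ) < Nat.totient d := by exact_mod_cast Nat.totient_pos.2 hd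
  have htotd : (Nat.totient d : ℝ) ≤ d := by exact_mod_cast Nat.totient_le d
  have hinv : 1 / (d : ℝ) ≤ 1 / (Nat.totient d : ℝ) := one_div_le_one_div_of_le htot0 htotd
  have hPL : ((P1 : ℝ) - P) ≤ P / L := by
    have h1 : (P1 : ℝ) ≤ P + ((P / L : ℕ) : ℝ) := by exact_mod_cast hP1
    have h2 : ((P / L : ℕ) : ℝ) ≤ (P : ℝ) / L := Nat.cast_div_le
    linarith
  have hcard : ((Pr P P1).card : ℝ) ≤ P / L := by
    have h1 : (Pr P P1).card ≤ P1 - P := by
      unfold Pr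
      refine (card_filter_le _ _).trans ?_
      rw [Nat.card_Ioc]
    have h2 : ((Pr P P1).card : ℝ) ≤ ((P1 - P : ℕ) : ℝ) := by exact_mod_cast h1
    rw [Nat.cast_sub hPP] at h2
    linarith
  have hmem : ∀ p ∈ Pr P P1, P < p ∧ p ≤ P1 ∧ p.Prime := by
    intro p hp
    unfold Pr at hp
    rw [mem_filter, mem_Ioc] at hp
    exact ⟨hp.1.1, hp.1.2, hp.2⟩
  have hMle : ∀ p ∈ Pr P P1, M ≤ x / p := by
    intro p hp
    obtain ⟨h1, h2, h3⟩ := hmem p hp
    exact Nat.div_le_div_left h2 h3.pos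
  -- lengths of the tails
  have hlen : ∀ p ∈ Pr P P1, (((x / p : ℕ) : ℝ) - M) ≤ x / (L * P) + 1 := by
    intro p hp
    obtain ⟨h1, h2, h3⟩ := hmem p hp
    have hp0 : (0 : ℝ) < p := by exact_mod_cast h3.pos
    have hPp : (P : ℝ) < p := by exact_mod_cast h1
    have hpP1 : (p : ℝ) ≤ P1 := by exact_mod_cast h2
    have hP10 : (0 : ℝ) < P1 := by linarith
    have h4 : ((x / p : ℕ) : ℝ) ≤ (x : ℝ) / p := Nat.cast_div_le
    have h5 : (x : ℝ) / P1 < (M : ℝ) + 1 := by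
      rw [div_lt_iff₀ hP10, hM]
      have : x < (x / P1 + 1) * P1 := by
        rw [mul_comm]; exact Nat.lt_mul_div_succ x (by omega)
      exact_mod_cast this
    have h6 : (x : ℝ) / p - x / P1 ≤ x / (L * P) := by
      have h7 : (x : ℝ) / p - x / P1 = x * (P1 - p) / (p * P1) := by
        field_simp
      rw [h7, div_le_div_iff₀ (by positivity) (by positivity)]
      have h8 : ((P1 : ℝ) - p) * L ≤ P1 := by
        have h9 : ((P1 : ℝ) - p) ≤ P / L := by linarith
        calc ((P1 : ℝ) - p) * L ≤ P / L * L := by gcongr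
          _ = P := by field_simp
          _ ≤ P1 := by linarith
      have h10 : ((P1 : ℝ) - p) * L * P ≤ P1 * p := by
        calc ((P1 : ℝ) - p) * L * P ≤ P1 * P := by gcongr
          _ ≤ P1 * p := by gcongr
      have hx0 : (0 : ℝ) ≤ x := Nat.cast_nonneg x
      nlinarith [mul_le_mul_of_nonneg_left h10 hx0]
    linarith
  -- splitting
  have hsplit : F a α x P P1 d = H a α M P P1 d +
      ∑ p ∈ Pr P P1, ∑ m ∈ Icc 1 M, α m * (Cc d m / (Nat.totient d : ℝ) -
        if Nat.Coprime (m * p) d then 1 / (Nat.totient d : ℝ) else 0) +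
      ∑ p ∈ Pr P P1, ∑ m ∈ Ioc M (x / p), α m * G a d p m := by
    have e1 : F a α x P P1 d = ∑ p ∈ Pr P P1, ∑ m ∈ Icc 1 M, α m * G a d p m +
        ∑ p ∈ Pr P P1, ∑ m ∈ Ioc M (x / p), α m * G a d p m := by
      unfold F
      rw [← sum_add_distrib]
      apply sum_congr rfl
      intro p hp
      have h1 := hMle p hp
      have e2 : Icc 1 (x / p) = Icc 1 M ∪ Ioc M (x / p) := Icc_split h1
      rw [e2, sum_union]
      rw [disjoint_left]
      intro m hm hm2
      rw [mem_Icc] at hm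
      rw [mem_Ioc] at hm2
      omega
    have e3 : H a α M P P1 d = ∑ p ∈ Pr P P1, ∑ m ∈ Icc 1 M, α m *
        (Ii a d p m - Cc d m / (Nat.totient d : ℝ)) := by
      unfold H
      rw [sum_comm]
      apply sum_congr rfl
      intro m _
      rw [← mul_sum, sum_sub_distrib, sum_const, nsmul_eq_mul]
      ring
    rw [e1, e3]
    congr 1
    rw [← sum_add_distrib]
    apply sum_congr rfl
    intro p _
    rw [← sum_add_distrib]
    apply sum_congr rfl
    intro m _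
    unfold G
    ring
  -- second part
  have hsec : |∑ p ∈ Pr P P1, ∑ m ∈ Icc 1 M, α m * (Cc d m / (Nat.totient d : ℝ) -
        if Nat.Coprime (m * p) d then 1 / (Nat.totient d : ℝ) else 0)| ≤
      2 * Real.log d * ((x : ℝ) / P) * (1 / (Nat.totient d : ℝ)) := by
    have hMP : (M : ℝ) ≤ x / P := by
      have h4 : ((x / P1 : ℕ) : ℝ) ≤ (x : ℝ) / P1 := Nat.cast_div_le
      have h5 : (x : ℝ) / P1 ≤ x / P := by
        have : (P : ℝ) ≤ P1 := by exact_mod_cast hPP
        gcongr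
      rw [hM]; linarith
    have h1 : ∀ p ∈ Pr P P1, |∑ m ∈ Icc 1 M, α m * (Cc d m / (Nat.totient d : ℝ) -
        if Nat.Coprime (m * p) d then 1 / (Nat.totient d : ℝ) else 0)| ≤
        if p ∈ d.primeFactors then ((x : ℝ) / P) * (1 / (Nat.totient d : ℝ)) else 0 := by
      intro p hp
      obtain ⟨hp1, hp2, hp3⟩ := hmem p hp
      split_ifs with hpd
      · refine (abs_sum_le_sum_abs _ _).trans ?_
        have h2 : ∀ m ∈ Icc 1 M, |α m * (Cc d m / (Nat.totient d : ℝ) -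
            if Nat.Coprime (m * p) d then 1 / (Nat.totient d : ℝ) else 0)| ≤
            1 / (Nat.totient d : ℝ) := by
          intro m _
          rw [abs_mul]
          have h3 : |Cc d m / (Nat.totient d : ℝ) -
            if Nat.Coprime (m * p) d then 1 / (Nat.totient d : ℝ) else 0| ≤
            1 / (Nat.totient d : ℝ) := by
            have h0 := tot_nonneg d
            unfold Cc
            split_ifs <;> simp
          calc |α m| * |Cc d m / (Nat.totient d : ℝ) -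
            if Nat.Coprime (m * p) d then 1 / (Nat.totient d : ℝ) else 0| ≤
              1 * (1 / (Nat.totient d : ℝ)) := by
                apply mul_le_mul (hα m) h3 (abs_nonneg _) zero_le_one
            _ = _ := one_mul _
        refine (sum_le_card_nsmul _ _ _ h2).trans ?_
        rw [nsmul_eq_mul, Nat.card_Icc, Nat.add_sub_cancel]
        have := tot_nonneg d
        gcongr
      · apply le_of_eq
        rw [abs_eq_zero]
        apply sum_eq_zero
        intro m _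
        have hcop : Nat.Coprime p d := by
          rw [hp3.coprime_iff_not_dvd]
          intro h5
          exact hpd (Nat.mem_primeFactors.2 ⟨hp3, h5, by omega⟩)
        have h6 : Nat.Coprime (m * p) d ↔ Int.gcd (m : ℤ) d = 1 := by
          rw [Int.gcd_natCast_natCast, Nat.coprime_mul_iff_left]
          constructor
          · intro h; exact h.1
          · intro h; exact ⟨h, hcop⟩
        unfold Cc
        by_cases h7 : Int.gcd (m : ℤ) d = 1
        · rw [if_pos h7, if_pos (h6.2 h7), sub_self, mul_zero]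
        · rw [if_neg h7, if_neg (fun h => h7 (h6.1 h)), zero_div, sub_self, mul_zero]
    refine (abs_sum_le_sum_abs _ _).trans ((sum_le_sum h1).trans ?_)
    rw [← sum_filter, sum_const, nsmul_eq_mul]
    have h8 : (((Pr P P1).filter (fun p => p ∈ d.primeFactors)).card : ℝ) ≤ 2 * Real.log d := by
      refine le_trans ?_ (card_pf d hd)
      have : (Pr P P1).filter (fun p => p ∈ d.primeFactors) ⊆ d.primeFactors := by
        intro p hp
        exact (mem_filter.1 hp).2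
      exact_mod_cast card_le_card this
    have h9 : 0 ≤ ((x : ℝ) / P) * (1 / (Nat.totient d : ℝ)) := by positivity
    calc (((Pr P P1).filter (fun p => p ∈ d.primeFactors)).card : ℝ) *
          (((x : ℝ) / P) * (1 / (Nat.totient d : ℝ)))
        ≤ 2 * Real.log d * (((x : ℝ) / P) * (1 / (Nat.totient d : ℝ))) := by gcongr
      _ = _ := by ring
  -- third part
  have hthird : |∑ p ∈ Pr P P1, ∑ m ∈ Ioc M (x / p), α m * G a d p m| ≤
      2 * ((x : ℝ) / (L : ℝ) ^ 2 + P) * (1 / (Nat.totient d : ℝ)) + P := by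
    have h1 : ∀ p ∈ Pr P P1, |∑ m ∈ Ioc M (x / p), α m * G a d p m| ≤
        2 * ((x : ℝ) / (L * P) + 1) * (1 / (Nat.totient d : ℝ)) + 1 := by
      intro p hp
      have hl := hlen p hp
      have hm := hMle p hp
      refine (abs_sum_le_sum_abs _ _).trans ?_
      have h2 : ∀ m ∈ Ioc M (x / p), |α m * G a d p m| ≤
          Ii a d p m + 1 / (Nat.totient d : ℝ) := by
        intro m _
        rw [abs_mul]
        calc |α m| * |G a d p m| ≤ 1 * (Ii a d p m + 1 / (Nat.totient d : ℝ)) :=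
              mul_le_mul (hα m) (G_abs a d p m) (abs_nonneg _) zero_le_one
          _ = _ := one_mul _
      refine (sum_le_sum h2).trans ?_
      rw [sum_add_distrib, sum_const, nsmul_eq_mul, Nat.card_Ioc, Nat.cast_sub hm]
      have h3 := cnt_res M (x / p) d p a hd hg hm
      have h4 : (((x / p : ℕ) : ℝ) - M) / d ≤ ((x : ℝ) / (L * P) + 1) * (1 / (Nat.totient d : ℝ)) := by
        rw [div_eq_mul_one_div]
        have h0 : 0 ≤ ((x / p : ℕ) : ℝ) - M := by
          have : (M : ℝ) ≤ ((x / p : ℕ) : ℝ) := by exact_mod_cast hm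
          linarith
        calc (((x / p : ℕ) : ℝ) - M) * (1 / (d : ℝ))
            ≤ (((x / p : ℕ) : ℝ) - M) * (1 / (Nat.totient d : ℝ)) := by gcongr
          _ ≤ _ := by
            have := tot_nonneg d
            gcongr
      have h5 : (((x / p : ℕ) : ℝ) - M) * (1 / (Nat.totient d : ℝ)) ≤
          ((x : ℝ) / (L * P) + 1) * (1 / (Nat.totient d : ℝ)) := by
        have := tot_nonneg d
        gcongr
      linarith
    refine (abs_sum_le_sum_abs _ _).trans ((sum_le_card_nsmul _ _ _ h1).trans ?_)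
    rw [nsmul_eq_mul]
    have h6 : 0 ≤ 2 * ((x : ℝ) / (L * P) + 1) * (1 / (Nat.totient d : ℝ)) + 1 := by positivity
    have hPLP : (P : ℝ) / L ≤ P := div_le_self hP0.le hL1
    calc ((Pr P P1).card : ℝ) * (2 * ((x : ℝ) / (L * P) + 1) * (1 / (Nat.totient d : ℝ)) + 1)
        ≤ (P / L) * (2 * ((x : ℝ) / (L * P) + 1) * (1 / (Nat.totient d : ℝ)) + 1) := by gcongr
      _ = 2 * ((x : ℝ) / (L : ℝ) ^ 2 + P / L) * (1 / (Nat.totient d : ℝ)) + P / L := by
          field_simp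
      _ ≤ _ := by
          have := tot_nonneg d
          gcongr
  rw [hsplit]
  refine (abs_add_le _ _).trans ?_
  have := abs_add_le (H a α M P P1 d) (∑ p ∈ Pr P P1, ∑ m ∈ Icc 1 M, α m * (Cc d m / (Nat.totient d : ℝ) -
        if Nat.Coprime (m * p) d then 1 / (Nat.totient d : ℝ) else 0))
  linarith

theorem H_one (a : ℤ) (α : ℕ → ℝ) (M P P1 : ℕ) : H a α M P P1 1 = 0 := by
  unfold H
  apply sum_eq_zero
  intro m _
  have h1 : ∀ p : ℕ, Ii a 1 p (m : ℤ) = 1 := by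
    intro p
    unfold Ii
    rw [if_pos]
    simp
  have h2 : Cc 1 (m : ℤ) = 1 := by
    unfold Cc
    rw [if_pos]
    simp
  simp [h1, h2]

theorem dyad (f : ℕ → ℝ) (Q : ℕ → Prop) [DecidablePred Q] (h1 : f 1 = 0)
    (J : ℕ) : ∑ d ∈ (Icc 1 (2 ^ J)).filter Q, f d ≤
      ∑ j ∈ range J, ∑ d ∈ (Ioc (2 ^ j) (2 * 2 ^ j)).filter Q, f d := by
  induction J with
  | zero =>
    rw [range_zero, sum_empty, pow_zero]
    apply le_of_eq
    apply sum_eq_zero
    intro d hd
    rw [mem_filter, mem_Icc] at hd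
    have : d = 1 := by omega
    rw [this, h1]
  | succ J ih =>
    rw [sum_range_succ]
    have h2 : (Icc 1 (2 ^ (J + 1))).filter Q =
        (Icc 1 (2 ^ J)).filter Q ∪ (Ioc (2 ^ J) (2 * 2 ^ J)).filter Q := by
      rw [← filter_union]
      congr 1
      rw [pow_succ, mul_comm]
      apply Icc_split
      omega
    rw [h2, sum_union]
    · linarith
    · rw [disjoint_left]
      intro m hm hm2
      rw [mem_filter, mem_Icc] at hm
      rw [mem_filter, mem_Ioc] at hm2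
      omega

/-- one block, sum over the moduli -/
theorem blockSum (a : ℤ) (α : ℕ → ℝ) (x P P1 L N J : ℕ) (B : ℝ) (hα : ∀ m, |α m| ≤ 1)
    (hL : 1 ≤ L) (hP : 1 ≤ P) (hPP : P ≤ P1) (hP1 : P1 ≤ P + P / L) (hx : 1 ≤ x)
    (hN : N ≤ 2 ^ J) (hNx : N ≤ x)
    (hH : ∀ j < J, ∑ d ∈ (Ioc (2 ^ j) (2 * 2 ^ j)).filter (fun d : ℕ => Int.gcd a d = 1),
      |H a α (x / P1) P P1 d| ≤ B) :
    ∑ d ∈ (Icc 1 N).filter (fun d : ℕ => Int.gcd a d = 1), |F a α x P P1 d| ≤
      J * B + 2 * ((x : ℝ) / (L : ℝ) ^ 2 + P) * (2 * (1 + Real.log x) ^ 2) + N * P +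
      2 * Real.log x * ((x : ℝ) / P) * (2 * (1 + Real.log x) ^ 2) := by
  have hx1 : (1 : ℝ) ≤ x := by exact_mod_cast hx
  have hlx : 0 ≤ Real.log x := Real.log_nonneg hx1
  have hP0 : (0 : ℝ) < P := by exact_mod_cast hP
  have hL0 : (0 : ℝ) < L := by exact_mod_cast hL
  have hS : ∑ d ∈ (Icc 1 N).filter (fun d : ℕ => Int.gcd a d = 1), 1 / (Nat.totient d : ℝ) ≤
      2 * (1 + Real.log x) ^ 2 := by
    have h1 : ∑ d ∈ (Icc 1 N).filter (fun d : ℕ => Int.gcd a d = 1), 1 / (Nat.totient d : ℝ) ≤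
        ∑ d ∈ Icc 1 x, 1 / (Nat.totient d : ℝ) := by
      apply sum_le_sum_of_subset_of_nonneg
      · intro d hd
        rw [mem_filter, mem_Icc] at hd
        rw [mem_Icc]
        omega
      · intro d _ _
        positivity
    exact h1.trans (Pool.Agent.H442R2.EHI.Bd.sum_inv_tot x hx)
  have hHs : ∑ d ∈ (Icc 1 N).filter (fun d : ℕ => Int.gcd a d = 1), |H a α (x / P1) P P1 d| ≤
      J * B := by
    have h1 : ∑ d ∈ (Icc 1 N).filter (fun d : ℕ => Int.gcd a d = 1), |H a α (x / P1) P P1 d| ≤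
        ∑ d ∈ (Icc 1 (2 ^ J)).filter (fun d : ℕ => Int.gcd a d = 1), |H a α (x / P1) P P1 d| := by
      apply sum_le_sum_of_subset_of_nonneg
      · intro d hd
        rw [mem_filter, mem_Icc] at hd ⊢
        exact ⟨⟨hd.1.1, hd.1.2.trans hN⟩, hd.2⟩
      · intro d _ _
        positivity
    refine h1.trans ((dyad (fun d => |H a α (x / P1) P P1 d|) _
      (by show |H a α (x / P1) P P1 1| = 0; rw [H_one, abs_zero]) J).trans ?_)
    refine (sum_le_card_nsmul _ _ B ?_).trans ?_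
    · intro j hj
      exact hH j (mem_range.1 hj)
    · rw [card_range, nsmul_eq_mul]
  have hpt : ∀ d ∈ (Icc 1 N).filter (fun d : ℕ => Int.gcd a d = 1), |F a α x P P1 d| ≤
      |H a α (x / P1) P P1 d| + (2 * ((x : ℝ) / (L : ℝ) ^ 2 + P) +
        2 * Real.log x * ((x : ℝ) / P)) * (1 / (Nat.totient d : ℝ)) + P := by
    intro d hd
    rw [mem_filter, mem_Icc] at hd
    have h1 := block a α x P P1 L d hα hL hP hPP hP1 hd.1.1 hd.2
    have hdx : (d : ℝ) ≤ x := by exact_mod_cast hd.1.2.trans hNx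
    have hd0 : (0 : ℝ) < d := by exact_mod_cast hd.1.1
    have h2 : Real.log d ≤ Real.log x := Real.log_le_log hd0 hdx
    have h3 : 2 * Real.log d * ((x : ℝ) / P) * (1 / (Nat.totient d : ℝ)) ≤
        2 * Real.log x * ((x : ℝ) / P) * (1 / (Nat.totient d : ℝ)) := by
      have := tot_nonneg d
      gcongr
    have h4 : (2 * ((x : ℝ) / (L : ℝ) ^ 2 + P) +
        2 * Real.log x * ((x : ℝ) / P)) * (1 / (Nat.totient d : ℝ)) =
        2 * ((x : ℝ) / (L : ℝ) ^ 2 + P) * (1 / (Nat.totient d : ℝ)) +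
        2 * Real.log x * ((x : ℝ) / P) * (1 / (Nat.totient d : ℝ)) := by ring
    rw [h4]
    linarith
  refine (sum_le_sum hpt).trans ?_
  rw [sum_add_distrib, sum_add_distrib, ← mul_sum, sum_const, nsmul_eq_mul]
  have hc : ((((Icc 1 N).filter (fun d : ℕ => Int.gcd a d = 1)).card : ℕ) : ℝ) ≤ N := by
    have := card_filter_le (Icc 1 N) (fun d : ℕ => Int.gcd a d = 1)
    rw [Nat.card_Icc, Nat.add_sub_cancel] at this
    exact_mod_cast this
  have h5 : (2 * ((x : ℝ) / (L : ℝ) ^ 2 + P) + 2 * Real.log x * ((x : ℝ) / P)) *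
      ∑ d ∈ (Icc 1 N).filter (fun d : ℕ => Int.gcd a d = 1), 1 / (Nat.totient d : ℝ) ≤
      (2 * ((x : ℝ) / (L : ℝ) ^ 2 + P) + 2 * Real.log x * ((x : ℝ) / P)) *
        (2 * (1 + Real.log x) ^ 2) := by
    apply mul_le_mul_of_nonneg_left hS
    positivity
  have h6 : ((((Icc 1 N).filter (fun d : ℕ => Int.gcd a d = 1)).card : ℕ) : ℝ) * P ≤ N * P := by
    gcongr
  linarith

theorem F_add (a : ℤ) (α : ℕ → ℝ) (x P P1 P' d : ℕ) (h1 : P ≤ P1) (h2 : P1 ≤ P') :
    F a α x P P' d = F a α x P P1 d + F a α x P1 P' d := by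
  unfold F
  have h3 : Pr P P' = Pr P P1 ∪ Pr P1 P' := by
    unfold Pr
    rw [← filter_union, Ioc_union_Ioc_eq_Ioc h1 h2]
  rw [h3, sum_union]
  rw [disjoint_left]
  intro m hm hm2
  unfold Pr at hm hm2
  rw [mem_filter, mem_Ioc] at hm hm2
  omega

theorem F_empty (a : ℤ) (α : ℕ → ℝ) (x P P' d : ℕ) (h : P' ≤ P) : F a α x P P' d = 0 := by
  unfold F Pr
  rw [Ioc_eq_empty (by omega)]
  simp

theorem chain (a : ℤ) (α : ℕ → ℝ) (x L : ℕ) (U V B : ℝ) (Ds : Finset ℕ) (hL : 1 ≤ L) (hB : 0 ≤ B)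
    (hLU : (L : ℝ) ≤ U)
    (hb : ∀ P P1 : ℕ, U ≤ P → P ≤ P1 → P1 ≤ P + P / L → (P1 : ℝ) ≤ V →
      ∑ d ∈ Ds, |F a α x P P1 d| ≤ B) :
    ∀ (n P P' : ℕ), U ≤ P → (P' : ℝ) ≤ V → (P' : ℝ) ≤ P * (1 + 1 / (2 * L : ℝ)) ^ n →
      ∑ d ∈ Ds, |F a α x P P' d| ≤ n * B := by
  intro n
  have hL0 : (0 : ℝ) < L := by exact_mod_cast hL
  induction n with
  | zero =>
    intro P P' _ _ h
    rw [pow_zero, mul_one] at h
    have h1 : P' ≤ P := by exact_mod_cast h
    apply le_of_eq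
    rw [Nat.cast_zero, zero_mul]
    apply sum_eq_zero
    intro d _
    rw [F_empty a α x P P' d h1, abs_zero]
  | succ n ih =>
    intro P P' hU hV h
    rcases le_or_gt P' P with h1 | h1
    · have : ∑ d ∈ Ds, |F a α x P P' d| = 0 := by
        apply sum_eq_zero
        intro d _
        rw [F_empty a α x P P' d h1, abs_zero]
      rw [this]
      positivity
    · set P1 := min P' (P + P / L) with hP1
      have a1 : P ≤ P1 := le_min h1.le (Nat.le_add_right _ _)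
      have a2 : P1 ≤ P' := min_le_left _ _
      have a3 : P1 ≤ P + P / L := min_le_right _ _
      have a4 : (P1 : ℝ) ≤ V := by
        have : (P1 : ℝ) ≤ P' := by exact_mod_cast a2
        linarith
      have a5 : U ≤ P1 := by
        have : (P : ℝ) ≤ P1 := by exact_mod_cast a1
        linarith
      have hLP : L ≤ P := by exact_mod_cast hLU.trans hU
      have hpos : (1 : ℝ) ≤ (1 + 1 / (2 * L : ℝ)) ^ n := by
        apply one_le_pow₀
        have : 0 ≤ 1 / (2 * L : ℝ) := by positivity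
        linarith
      have a6 : (P' : ℝ) ≤ P1 * (1 + 1 / (2 * L : ℝ)) ^ n := by
        rcases le_total P' (P + P / L) with h2 | h2
        · have : P1 = P' := by rw [hP1]; exact min_eq_left h2
          rw [this]
          exact le_mul_of_one_le_right (Nat.cast_nonneg _) hpos
        · have e1 : P1 = P + P / L := by rw [hP1]; exact min_eq_right h2
          have e2 : (P : ℝ) * (1 + 1 / (2 * L : ℝ)) ≤ P1 := by
            rw [e1]
            push_cast
            have e3 : (P : ℝ) < ((P / L : ℕ) + 1 : ℝ) * L := by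
              have : P < (P / L + 1) * L := by
                rw [mul_comm]; exact Nat.lt_mul_div_succ P (by omega)
              exact_mod_cast this
            have e4 : (1 : ℝ) ≤ ((P / L : ℕ) : ℝ) := by
              have : 1 ≤ P / L := Nat.div_pos hLP (by omega)
              exact_mod_cast this
            have e5 : (P : ℝ) * (1 / (2 * L)) ≤ ((P / L : ℕ) : ℝ) := by
              rw [mul_one_div, div_le_iff₀ (by positivity)]
              nlinarith
            linarith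
          calc (P' : ℝ) ≤ P * (1 + 1 / (2 * L : ℝ)) ^ (n + 1) := h
            _ = (P * (1 + 1 / (2 * L : ℝ))) * (1 + 1 / (2 * L : ℝ)) ^ n := by ring
            _ ≤ P1 * (1 + 1 / (2 * L : ℝ)) ^ n := by gcongr
      have b1 := hb P P1 hU a1 a3 a4
      have b2 := ih P1 P' a5 hV a6
      have b3 : ∑ d ∈ Ds, |F a α x P P' d| ≤
          ∑ d ∈ Ds, |F a α x P P1 d| + ∑ d ∈ Ds, |F a α x P1 P' d| := by
        rw [← sum_add_distrib]
        apply sum_le_sum
        intro d _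
        rw [F_add a α x P P1 P' d a1 a2]
        exact abs_add_le _ _
      push_cast
      linarith

theorem ev_pow (n : ℕ) (c κ : ℝ) (hκ : 0 < κ) (hc : 0 < c) :
    ∀ᶠ x : ℝ in Filter.atTop, c * Real.log x ^ n ≤ x ^ κ := by
  have h := isLittleO_log_rpow_rpow_atTop (n : ℝ) hκ
  have h1 := h.bound (show 0 < 1 / c by positivity)
  filter_upwards [h1, Filter.eventually_ge_atTop 1] with x hx hx1
  rw [Real.rpow_natCast, Real.norm_of_nonneg (pow_nonneg (Real.log_nonneg hx1) n),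
    Real.norm_of_nonneg (Real.rpow_nonneg (by linarith) κ)] at hx
  calc c * Real.log x ^ n ≤ c * (1 / c * x ^ κ) := by gcongr
    _ = x ^ κ := by field_simp

theorem exp_le_pow (L : ℕ) (hL : 1 ≤ L) (n : ℕ) :
    Real.exp (n / (4 * L)) ≤ (1 + 1 / (2 * L : ℝ)) ^ n := by
  have hL0 : (1 : ℝ) ≤ L := by exact_mod_cast hL
  have h1 : Real.exp (1 / (4 * L)) ≤ 1 + 1 / (2 * L : ℝ) := by
    set y : ℝ := 1 / (4 * L) with hy
    have hy0 : 0 < y := by positivity
    have hy1 : y ≤ 1 / 4 := by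
      rw [hy]
      apply one_div_le_one_div_of_le (by norm_num)
      linarith
    have e1 : 1 / (2 * L : ℝ) = 2 * y := by rw [hy]; field_simp; norm_num
    rw [e1]
    have h2 : 1 - y ≤ Real.exp (-y) := Real.one_sub_le_exp_neg y
    rw [Real.exp_neg] at h2
    have h3 : 0 < Real.exp y := Real.exp_pos y
    have h4 : (1 - y) * Real.exp y ≤ 1 := by
      calc (1 - y) * Real.exp y ≤ (Real.exp y)⁻¹ * Real.exp y := by gcongr
        _ = 1 := inv_mul_cancel₀ h3.ne'
    nlinarith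
  have h2 : Real.exp (n / (4 * L)) = (Real.exp (1 / (4 * L))) ^ n := by
    rw [← Real.exp_nat_mul]
    congr 1
    ring
  rw [h2]
  gcongr

/-- the trivial bound -/
theorem trivial_bound (a : ℤ) (α : ℕ → ℝ) (x P P' N : ℕ) (hα : ∀ m, |α m| ≤ 1)
    (hP' : P' ≤ x) (hN : N ≤ x) :
    ∑ d ∈ (Icc 1 N).filter (fun d : ℕ => Int.gcd a d = 1), |F a α x P P' d| ≤
      2 * (x : ℝ) ^ 3 := by
  have hx0 : (0 : ℝ) ≤ x := Nat.cast_nonneg x
  have hpt : ∀ d ∈ (Icc 1 N).filter (fun d : ℕ => Int.gcd a d = 1),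
      |F a α x P P' d| ≤ 2 * (x : ℝ) ^ 2 := by
    intro d hd
    rw [mem_filter, mem_Icc] at hd
    have htot : (1 : ℝ) ≤ Nat.totient d := by exact_mod_cast Nat.totient_pos.2 hd.1.1
    have h1 : 1 / (Nat.totient d : ℝ) ≤ 1 := by
      rw [div_le_one (by linarith)]; exact htot
    unfold F
    refine (abs_sum_le_sum_abs _ _).trans ?_
    have h2 : ∀ p ∈ Pr P P', |∑ m ∈ Icc 1 (x / p), α m * G a d p m| ≤ 2 * (x : ℝ) := by
      intro p hp
      refine (abs_sum_le_sum_abs _ _).trans ?_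
      have h3 : ∀ m ∈ Icc 1 (x / p), |α m * G a d p m| ≤ 2 := by
        intro m _
        rw [abs_mul]
        have h4 : Ii a d p m ≤ 1 := by unfold Ii; split_ifs <;> norm_num
        have h5 := G_abs a d p m
        calc |α m| * |G a d p m| ≤ 1 * 2 :=
              mul_le_mul (hα m) (by linarith) (abs_nonneg _) zero_le_one
          _ = 2 := by norm_num
      refine (sum_le_card_nsmul _ _ _ h3).trans ?_
      rw [nsmul_eq_mul, Nat.card_Icc, Nat.add_sub_cancel]
      have : ((x / p : ℕ) : ℝ) ≤ x := by exact_mod_cast Nat.div_le_self x p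
      linarith
    refine (sum_le_card_nsmul _ _ _ h2).trans ?_
    rw [nsmul_eq_mul]
    have h6 : ((Pr P P').card : ℝ) ≤ x := by
      have : (Pr P P').card ≤ P' - P := by
        unfold Pr
        refine (card_filter_le _ _).trans ?_
        rw [Nat.card_Ioc]
      exact_mod_cast this.trans ((Nat.sub_le _ _).trans hP')
    nlinarith
  refine (sum_le_card_nsmul _ _ _ hpt).trans ?_
  rw [nsmul_eq_mul]
  have hc : ((((Icc 1 N).filter (fun d : ℕ => Int.gcd a d = 1)).card : ℕ) : ℝ) ≤ x := by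
    have := card_filter_le (Icc 1 N) (fun d : ℕ => Int.gcd a d = 1)
    rw [Nat.card_Icc, Nat.add_sub_cancel] at this
    exact_mod_cast this.trans hN
  calc ((((Icc 1 N).filter (fun d : ℕ => Int.gcd a d = 1)).card : ℕ) : ℝ) * (2 * (x : ℝ) ^ 2)
      ≤ x * (2 * (x : ℝ) ^ 2) := by gcongr
    _ = 2 * (x : ℝ) ^ 3 := by ring

end TUC1

open TUC1

theorem t_UC1 (h : P_DISP2b) : P_UC1 := by
  intro θ hθ hθ2
  obtain ⟨ρ', hρ', hρ'2, hD⟩ := h ((θ + 14 / 27) / 2) (by linarith) (by linarith)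
  set θ' : ℝ := (θ + 14 / 27) / 2 with hθ'
  refine ⟨ρ' / 2, by positivity, ?_⟩
  intro a ha ρ0 hρ0 A
  obtain ⟨C, hC, hmain⟩ := hD a ha ρ0 hρ0 (A + 3 + 2 + A)
  set κ : ℝ := min (1 - θ - ρ' / 2) ρ0 with hκ
  have hκ0 : 0 < κ := lt_min (by linarith) hρ0
  have hκ1 : κ ≤ 1 - θ - ρ' / 2 := min_le_left _ _
  have hκ2 : κ ≤ ρ0 := min_le_right _ _
  -- the conditions for large x
  have ev5 : ∀ᶠ x : ℝ in Filter.atTop, x ^ θ ≤ (x / 2) ^ θ' := by
    have h1 : 0 < θ' - θ := by rw [hθ']; linarith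
    have h2 := (tendsto_rpow_atTop h1).eventually_ge_atTop ((2 : ℝ) ^ θ')
    filter_upwards [h2, Filter.eventually_gt_atTop 0] with x hx hx0
    rw [Real.div_rpow hx0.le (by norm_num), le_div_iff₀ (by positivity)]
    calc x ^ θ * 2 ^ θ' ≤ x ^ θ * x ^ (θ' - θ) := by gcongr
      _ = x ^ θ' := by rw [← Real.rpow_add hx0]; congr 1; ring
  have ev := ((((Filter.eventually_ge_atTop (100 : ℝ)).and
    (Real.tendsto_log_atTop.eventually_ge_atTop 4)).and (ev_pow (A + 3) 2 ρ0 hρ0 (by norm_num))).and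
    ((tendsto_rpow_atTop hρ0).eventually_ge_atTop 3)).and (ev5.and
    (ev_pow (A + 3 + 4 + A) 330 κ hκ0 (by norm_num)))
  obtain ⟨x0, hx0⟩ := Filter.eventually_atTop.1 ev
  set x1 : ℝ := max x0 3 with hx1
  have hx13 : 3 ≤ x1 := le_max_right _ _
  have hlx1 : 0 < Real.log x1 := Real.log_pos (by linarith)
  refine ⟨(30 * C * 2 ^ (A + 3 + 2 + A) + 81) + 2 * x1 ^ 2 * Real.log x1 ^ A, by positivity, ?_⟩
  intro x P P' α hx hxP hxP' hα
  have hxR : (3 : ℝ) ≤ x := by exact_mod_cast hx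
  have hx00 : (0 : ℝ) < x := by linarith
  have hℓ0 : 0 < Real.log x := Real.log_pos (by linarith)
  set N : ℕ := ⌊(x : ℝ) ^ θ⌋₊ with hN
  have hxθ : (x : ℝ) ^ θ ≤ x := by
    calc (x : ℝ) ^ θ ≤ (x : ℝ) ^ (1 : ℝ) :=
          Real.rpow_le_rpow_of_exponent_le (by linarith) (by linarith)
      _ = x := Real.rpow_one _
  have hNR : (N : ℝ) ≤ (x : ℝ) ^ θ := Nat.floor_le (Real.rpow_nonneg hx00.le _)
  have hNx : N ≤ x := by exact_mod_cast hNR.trans hxθ
  have hP'x : P' ≤ x := by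
    have : (x : ℝ) ^ (ρ' / 2) ≤ x := by
      calc (x : ℝ) ^ (ρ' / 2) ≤ (x : ℝ) ^ (1 : ℝ) :=
            Real.rpow_le_rpow_of_exponent_le (by linarith) (by linarith)
        _ = x := Real.rpow_one _
    exact_mod_cast hxP'.trans this
  have hgoal : ∑ d ∈ (Icc 1 N).filter (fun d : ℕ => Int.gcd a d = 1),
      |∑ p ∈ Pr P P', ∑ m ∈ Icc 1 (x / p), α m *
        (Ii a d p m - if Nat.Coprime (m * p) d then 1 / (Nat.totient d : ℝ) else 0)| =
      ∑ d ∈ (Icc 1 N).filter (fun d : ℕ => Int.gcd a d = 1), |F a α x P P' d| := rfl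
  rw [hgoal]
  rcases lt_or_ge (x : ℝ) x0 with hsmall | hbig
  · -- bounded x
    refine (trivial_bound a α x P P' N hα hP'x hNx).trans ?_
    have hxx1 : (x : ℝ) ≤ x1 := hsmall.le.trans (le_max_left _ _)
    have hll : Real.log x ≤ Real.log x1 := Real.log_le_log hx00 hxx1
    rw [le_div_iff₀ (by positivity)]
    have h1 : 2 * (x : ℝ) ^ 3 * Real.log x ^ A ≤ 2 * x1 ^ 2 * Real.log x1 ^ A * x := by
      calc 2 * (x : ℝ) ^ 3 * Real.log x ^ A = 2 * (x : ℝ) ^ 2 * Real.log x ^ A * x := by ring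
        _ ≤ 2 * x1 ^ 2 * Real.log x1 ^ A * x := by gcongr
    have h2 : 0 ≤ (30 * C * 2 ^ (A + 3 + 2 + A) + 81) * (x : ℝ) := by positivity
    linarith
  · -- large x
    obtain ⟨⟨⟨⟨c1, c2⟩, c3⟩, c4⟩, c5, c6⟩ := hx0 x hbig
    set ℓ := Real.log x with hℓ
    set L : ℕ := ⌈ℓ ^ (A + 3)⌉₊ with hLdef
    have hℓK : ℓ ≤ ℓ ^ (A + 3) := by
      calc ℓ = ℓ ^ 1 := (pow_one _).symm
        _ ≤ ℓ ^ (A + 3) := pow_le_pow_right₀ (by linarith) (by omega)
    have hL1 : ℓ ^ (A + 3) ≤ L := Nat.le_ceil _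
    have hL2 : (L : ℝ) ≤ 2 * ℓ ^ (A + 3) := by
      have := Nat.ceil_lt_add_one (show 0 ≤ ℓ ^ (A + 3) by positivity)
      rw [← hLdef] at this
      linarith
    have hL4 : 4 ≤ L := by
      have : (4 : ℝ) ≤ L := by linarith
      exact_mod_cast this
    have hL0 : (0 : ℝ) < L := by exact_mod_cast (by omega : 0 < L)
    set U : ℝ := (x : ℝ) ^ ρ0 with hU
    set V : ℝ := (x : ℝ) ^ (ρ' / 2) with hV
    have hU0 : 0 < U := Real.rpow_pos_of_pos hx00 _
    have hV0 : 0 < V := Real.rpow_pos_of_pos hx00 _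
    have hLU : (L : ℝ) ≤ U := hL2.trans c3
    have hsq : (x : ℝ) ^ (1 / 2 : ℝ) ≤ x / 10 := by
      have h1 : (x : ℝ) ^ (1 / 2 : ℝ) * (x : ℝ) ^ (1 / 2 : ℝ) = x := by
        rw [← Real.rpow_add hx00]; norm_num
      have h2 : (10 : ℝ) ≤ (x : ℝ) ^ (1 / 2 : ℝ) := by
        have h3 : (0 : ℝ) ≤ (x : ℝ) ^ (1 / 2 : ℝ) := Real.rpow_nonneg hx00.le _
        nlinarith
      nlinarith
    have hVsq : V ≤ (x : ℝ) ^ (1 / 2 : ℝ) :=
      Real.rpow_le_rpow_of_exponent_le (by linarith) (by linarith)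
    set J : ℕ := Nat.clog 2 N with hJ
    have hNJ : N ≤ 2 ^ J := Nat.le_pow_clog (by norm_num) N
    have hjJ : ∀ j < J, 2 ^ j < N := fun j hj => (Nat.lt_clog_iff_pow_lt (by norm_num)).1 hj
    have hJℓ : (J : ℝ) ≤ 3 * ℓ := by
      rcases Nat.eq_zero_or_pos J with h0 | h0
      · rw [h0]; push_cast; linarith
      · have h1 := hjJ (J - 1) (by omega)
        have h2 : ((2 : ℝ) ^ (J - 1)) ≤ x := by
          have : 2 ^ (J - 1) ≤ x := h1.le.trans hNx
          exact_mod_cast this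
        have h3 := Real.log_le_log (by positivity) h2
        rw [Real.log_pow, Nat.cast_sub h0] at h3
        have h4 := Real.log_two_gt_d9
        have h5 : (0 : ℝ) ≤ (J : ℝ) - 1 := by
          have : (1 : ℝ) ≤ J := by exact_mod_cast h0
          linarith
        push_cast at h3
        nlinarith
    set B0 : ℝ := C * 2 ^ (A + 3 + 2 + A) * x / ℓ ^ (A + 3 + 2 + A) with hB0
    set S : ℝ := 2 * (1 + ℓ) ^ 2 with hS
    set BB : ℝ := J * B0 + 2 * ((x : ℝ) / (L : ℝ) ^ 2 + V) * S + N * V + 2 * ℓ * ((x : ℝ) / U) * S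
      with hBB
    have hBB0 : 0 ≤ BB := by positivity
    -- one block
    have hb : ∀ Q P1 : ℕ, U ≤ Q → Q ≤ P1 → P1 ≤ Q + Q / L → (P1 : ℝ) ≤ V →
        ∑ d ∈ (Icc 1 N).filter (fun d : ℕ => Int.gcd a d = 1), |F a α x Q P1 d| ≤ BB := by
      intro Q P1 q1 q2 q3 q4
      have hQ3R : (3 : ℝ) ≤ Q := c4.trans q1
      have hQ3 : 3 ≤ Q := by exact_mod_cast hQ3R
      have hQP1 : (Q : ℝ) ≤ P1 := by exact_mod_cast q2
      have hQV : (Q : ℝ) ≤ V := hQP1.trans q4
      have hP10 : (0 : ℝ) < P1 := by linarith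
      have h45 : 4 * P1 ≤ 5 * Q := by
        have h1 : Q / L ≤ Q / 4 := Nat.div_le_div_left hL4 (by norm_num)
        omega
      have h45R : 4 * (P1 : ℝ) ≤ 5 * Q := by exact_mod_cast h45
      have hM3 : 3 ≤ x / P1 := by
        rw [Nat.le_div_iff_mul_le (by omega)]
        have : (3 : ℝ) * P1 ≤ x := by linarith
        exact_mod_cast this
      have hMle : ((x / P1 : ℕ) : ℝ) * Q ≤ x := by
        have h1 : ((x / P1 : ℕ) : ℝ) ≤ (x : ℝ) / P1 := Nat.cast_div_le
        calc ((x / P1 : ℕ) : ℝ) * Q ≤ (x : ℝ) / P1 * P1 := by gcongr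
          _ = x := by field_simp
      have hMge : (x : ℝ) / 2 ≤ ((x / P1 : ℕ) : ℝ) * Q := by
        have h1 : (x : ℝ) < (((x / P1 : ℕ) : ℝ) + 1) * P1 := by
          have : x < (x / P1 + 1) * P1 := by
            rw [mul_comm]; exact Nat.lt_mul_div_succ x (by omega)
          exact_mod_cast this
        have h2 : (0 : ℝ) ≤ ((x / P1 : ℕ) : ℝ) := Nat.cast_nonneg _
        nlinarith
      have hMpos : (0 : ℝ) < ((x / P1 : ℕ) : ℝ) * Q := by linarith
      have hBS := blockSum a α x Q P1 L N J B0 hα (by omega) (by omega) q2 q3 (by omega) hNJ hNx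
        (by
          intro j hj
          have hm := hmain (x / P1) Q P1 (2 ^ j) α hM3 hQ3
            ((Real.rpow_le_rpow hMpos.le hMle hρ0.le).trans q1)
            (by
              refine hQV.trans ?_
              have h1 : V = ((x : ℝ) ^ (1 / 2 : ℝ)) ^ ρ' := by
                rw [hV, ← Real.rpow_mul hx00.le]; congr 1; ring
              rw [h1]
              apply Real.rpow_le_rpow (Real.rpow_nonneg hx00.le _) _ hρ'.le
              linarith)
            q2 h45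
            (by
              have h1 : ((2 ^ j : ℕ) : ℝ) ≤ N := by exact_mod_cast (hjJ j hj).le
              refine h1.trans (hNR.trans (c5.trans ?_))
              apply Real.rpow_le_rpow (by positivity) hMge
              rw [hθ']; linarith)
            hα
          refine le_trans (le_of_eq rfl) (hm.trans ?_)
          have hlog : ℓ / 2 ≤ Real.log (((x / P1 : ℕ) : ℝ) * Q) := by
            have h1 : Real.log (x / 2) ≤ Real.log (((x / P1 : ℕ) : ℝ) * Q) :=
              Real.log_le_log (by positivity) hMge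
            rw [Real.log_div hx00.ne' (by norm_num)] at h1
            have h2 := Real.log_two_lt_d9
            linarith
          have hl2 : 0 < ℓ / 2 := by positivity
          calc C * (((x / P1 : ℕ) : ℝ) * Q) /
                Real.log (((x / P1 : ℕ) : ℝ) * Q) ^ (A + 3 + 2 + A)
              ≤ C * x / (ℓ / 2) ^ (A + 3 + 2 + A) := by gcongr
            _ = B0 := by rw [hB0, div_pow]; field_simp)
      refine hBS.trans ?_
      rw [hBB]
      have h7 : (x : ℝ) / Q ≤ x / U := by gcongr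
      have hS0 : 0 ≤ S := by positivity
      have h8 : 2 * ((x : ℝ) / (L : ℝ) ^ 2 + Q) * S ≤ 2 * ((x : ℝ) / (L : ℝ) ^ 2 + V) * S := by
        gcongr
      have h9 : (N : ℝ) * Q ≤ N * V := by gcongr
      have h10 : 2 * ℓ * ((x : ℝ) / Q) * S ≤ 2 * ℓ * ((x : ℝ) / U) * S := by gcongr
      linarith
    -- all blocks
    set n : ℕ := ⌈4 * L * ℓ⌉₊ with hn
    have hn1 : 4 * L * ℓ ≤ n := Nat.le_ceil _
    have hn2 : (n : ℝ) ≤ 5 * L * ℓ := by
      have h1 := Nat.ceil_lt_add_one (show 0 ≤ 4 * (L : ℝ) * ℓ by positivity)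
      rw [← hn] at h1
      have h2 : (1 : ℝ) ≤ L * ℓ := by
        have : (4 : ℝ) ≤ L := by exact_mod_cast hL4
        nlinarith
      linarith
    have hchain := chain a α x L U V BB ((Icc 1 N).filter (fun d : ℕ => Int.gcd a d = 1))
      (by omega) hBB0 hLU hb n P P' hxP hxP' (by
        have h1 := exp_le_pow L (by omega) n
        have h2 : Real.exp ℓ ≤ Real.exp (n / (4 * L)) := by
          apply Real.exp_le_exp.2
          rw [le_div_iff₀ (by positivity)]
          linarith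
        rw [hℓ, Real.exp_log hx00] at h2
        have h3 : (P' : ℝ) ≤ x := by exact_mod_cast hP'x
        have h4 : (1 : ℝ) ≤ P := by linarith
        have h5 : (x : ℝ) ≤ (1 + 1 / (2 * L : ℝ)) ^ n := h2.trans h1
        calc (P' : ℝ) ≤ (1 + 1 / (2 * L : ℝ)) ^ n := h3.trans h5
          _ ≤ P * (1 + 1 / (2 * L : ℝ)) ^ n := le_mul_of_one_le_left (by positivity) h4)
    refine hchain.trans ?_
    -- numerics
    have hℓ1 : (1 : ℝ) ≤ ℓ := by linarith
    have hSle : S ≤ 8 * ℓ ^ 2 := by rw [hS]; nlinarith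
    have hx1κ : (x : ℝ) ^ (1 - κ) = x / (x : ℝ) ^ κ := by
      rw [Real.rpow_sub hx00, Real.rpow_one]
    have hxκ : 0 < (x : ℝ) ^ κ := Real.rpow_pos_of_pos hx00 _
    have hVκ : V ≤ (x : ℝ) ^ (1 - κ) :=
      Real.rpow_le_rpow_of_exponent_le (by linarith) (by linarith)
    have hNVκ : (N : ℝ) * V ≤ (x : ℝ) ^ (1 - κ) := by
      calc (N : ℝ) * V ≤ (x : ℝ) ^ θ * V := by gcongr
        _ = (x : ℝ) ^ (θ + ρ' / 2) := by rw [hV, ← Real.rpow_add hx00]
        _ ≤ (x : ℝ) ^ (1 - κ) :=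
            Real.rpow_le_rpow_of_exponent_le (by linarith) (by linarith)
    have hUκ : (x : ℝ) / U ≤ (x : ℝ) ^ (1 - κ) := by
      have : (x : ℝ) / U = (x : ℝ) ^ (1 - ρ0) := by
        rw [hU, Real.rpow_sub hx00, Real.rpow_one]
      rw [this]
      exact Real.rpow_le_rpow_of_exponent_le (by linarith) (by linarith)
    have hLℓ : 5 * (L : ℝ) * ℓ ≤ 10 * ℓ ^ (A + 4) := by
      calc 5 * (L : ℝ) * ℓ ≤ 5 * (2 * ℓ ^ (A + 3)) * ℓ := by gcongr
        _ = 10 * ℓ ^ (A + 4) := by ring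
    have T1 : 5 * (L : ℝ) * ℓ * (J * B0) ≤ 30 * C * 2 ^ (A + 3 + 2 + A) * x / ℓ ^ A := by
      have hB00 : 0 ≤ B0 := by positivity
      calc 5 * (L : ℝ) * ℓ * (J * B0) ≤ 10 * ℓ ^ (A + 4) * (3 * ℓ * B0) := by gcongr
        _ = 30 * C * 2 ^ (A + 3 + 2 + A) * x / ℓ ^ A := by
          rw [hB0]
          have e1 : ℓ ^ (A + 3 + 2 + A) = ℓ ^ (A + 4) * ℓ * ℓ ^ A := by ring
          rw [e1]
          field_simp
          ring
    have T2 : 5 * (L : ℝ) * ℓ * (2 * ((x : ℝ) / (L : ℝ) ^ 2) * S) ≤ 80 * x / ℓ ^ A := by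
      calc 5 * (L : ℝ) * ℓ * (2 * ((x : ℝ) / (L : ℝ) ^ 2) * S)
          ≤ 5 * (L : ℝ) * ℓ * (2 * ((x : ℝ) / (L : ℝ) ^ 2) * (8 * ℓ ^ 2)) := by gcongr
        _ = 80 * x * ℓ ^ 3 / L := by field_simp; ring
        _ ≤ 80 * x * ℓ ^ 3 / ℓ ^ (A + 3) := by gcongr
        _ = 80 * x / ℓ ^ A := by
          rw [pow_add]
          field_simp
    have T3 : 5 * (L : ℝ) * ℓ * (2 * V * S + N * V + 2 * ℓ * ((x : ℝ) / U) * S) ≤ x / ℓ ^ A := by
      have h1 : 2 * V * S + N * V + 2 * ℓ * ((x : ℝ) / U) * S ≤ 33 * ℓ ^ 3 * (x : ℝ) ^ (1 - κ) := by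
        have hW0 : 0 < (x : ℝ) ^ (1 - κ) := Real.rpow_pos_of_pos hx00 _
        have h2 : 2 * V * S ≤ 2 * (x : ℝ) ^ (1 - κ) * (8 * ℓ ^ 2) := by gcongr
        have h3 : 2 * ℓ * ((x : ℝ) / U) * S ≤ 2 * ℓ * (x : ℝ) ^ (1 - κ) * (8 * ℓ ^ 2) := by gcongr
        have h4 : (1 : ℝ) ≤ ℓ ^ 3 := one_le_pow₀ hℓ1
        have h5 : 2 * (x : ℝ) ^ (1 - κ) * (8 * ℓ ^ 2) + (x : ℝ) ^ (1 - κ) +
            2 * ℓ * (x : ℝ) ^ (1 - κ) * (8 * ℓ ^ 2) =
            (16 * ℓ ^ 2 + 1 + 16 * ℓ ^ 3) * (x : ℝ) ^ (1 - κ) := by ring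
        have h6 : 16 * ℓ ^ 2 + 1 + 16 * ℓ ^ 3 ≤ 33 * ℓ ^ 3 := by nlinarith [sq_nonneg ℓ]
        calc 2 * V * S + N * V + 2 * ℓ * ((x : ℝ) / U) * S
            ≤ 2 * (x : ℝ) ^ (1 - κ) * (8 * ℓ ^ 2) + (x : ℝ) ^ (1 - κ) +
              2 * ℓ * (x : ℝ) ^ (1 - κ) * (8 * ℓ ^ 2) := by linarith
          _ = (16 * ℓ ^ 2 + 1 + 16 * ℓ ^ 3) * (x : ℝ) ^ (1 - κ) := h5
          _ ≤ 33 * ℓ ^ 3 * (x : ℝ) ^ (1 - κ) := by gcongr
      calc 5 * (L : ℝ) * ℓ * (2 * V * S + N * V + 2 * ℓ * ((x : ℝ) / U) * S)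
          ≤ 10 * ℓ ^ (A + 4) * (33 * ℓ ^ 3 * (x : ℝ) ^ (1 - κ)) := by gcongr
        _ = (330 * ℓ ^ (A + 3 + 4 + A)) * x / ((x : ℝ) ^ κ * ℓ ^ A) := by
          rw [hx1κ]
          have e1 : ℓ ^ (A + 3 + 4 + A) = ℓ ^ (A + 4) * ℓ ^ 3 * ℓ ^ A := by ring
          rw [e1]
          field_simp
          ring
        _ ≤ (x : ℝ) ^ κ * x / ((x : ℝ) ^ κ * ℓ ^ A) := by gcongr
        _ = x / ℓ ^ A := by field_simp
    have hlast : 0 ≤ 2 * x1 ^ 2 * Real.log x1 ^ A * x / ℓ ^ A := by positivity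
    calc (n : ℝ) * BB ≤ 5 * L * ℓ * BB := by gcongr
      _ = 5 * (L : ℝ) * ℓ * (J * B0) + 5 * (L : ℝ) * ℓ * (2 * ((x : ℝ) / (L : ℝ) ^ 2) * S) +
          5 * (L : ℝ) * ℓ * (2 * V * S + N * V + 2 * ℓ * ((x : ℝ) / U) * S) := by rw [hBB]; ring
      _ ≤ 30 * C * 2 ^ (A + 3 + 2 + A) * x / ℓ ^ A + 80 * x / ℓ ^ A + x / ℓ ^ A +
          2 * x1 ^ 2 * Real.log x1 ^ A * x / ℓ ^ A := by linarith
      _ = _ := by ring

end Pool.Agent.H262R4.FR
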