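import Pool.Agent.H262R4.FR.UC

/-!
FR project: the general convolution theorem with divisor-bounded coefficients.
-/

namespace Pool.Agent.H262R4.FR

open Finset

namespace TUC2

theorem hyperC {M : Type*} [AddCommMonoid M] (x : ℕ) (g : ℕ → ℕ → M) :
    ∑ n ∈ Icc 1 x, ∑ i ∈ n.divisorsAntidiagonal, g i.1 i.2 =
      ∑ c ∈ Icc 1 x, ∑ b ∈ Icc 1 (x / c), g b c := by
  rw [sum_sigma', sum_sigma']
  apply sum_nbij' (fun p => (⟨p.2.2, p.2.1⟩ : (_ : ℕ) × ℕ))
    (fun q => (⟨q.2 * q.1, (q.2, q.1)⟩ : (_ : ℕ) × (ℕ × ℕ)))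
  · rintro ⟨n, b, c⟩ hp
    simp only [mem_sigma, mem_Icc, Nat.mem_divisorsAntidiagonal] at hp ⊢
    obtain ⟨⟨h1, h2⟩, h3, h4⟩ := hp
    have hb : 0 < b := Nat.pos_of_ne_zero (by rintro rfl; simp at h3; omega)
    have hc : 0 < c := Nat.pos_of_ne_zero (by rintro rfl; simp at h3; omega)
    refine ⟨⟨hc, ?_⟩, hb, ?_⟩
    · have : c ≤ b * c := Nat.le_mul_of_pos_left c hb
      omega
    · rw [Nat.le_div_iff_mul_le hc]; omega
  · rintro ⟨c, b⟩ hp
    simp only [mem_sigma, mem_Icc, Nat.mem_divisorsAntidiagonal] at hp ⊢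
    obtain ⟨⟨h1, h2⟩, h3, h4⟩ := hp
    rw [Nat.le_div_iff_mul_le h1] at h4
    have : 0 < b * c := Nat.mul_pos h3 h1
    exact ⟨⟨this, h4⟩, trivial, this.ne'⟩
  · rintro ⟨n, b, c⟩ hp
    simp only [mem_sigma, mem_Icc, Nat.mem_divisorsAntidiagonal] at hp ⊢
    obtain ⟨⟨h1, h2⟩, h3, h4⟩ := hp
    subst h3
    rfl
  · rintro ⟨c, b⟩ hp
    rfl
  · rintro ⟨n, b, c⟩ hp
    rfl

theorem card_div_mul_le (a b : ℕ) : (a * b).divisors.card ≤ a.divisors.card * b.divisors.card := by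
  rw [Nat.divisors_mul]
  exact card_mul_le

theorem harm (Y : ℕ) : ∑ k ∈ Icc 1 Y, (1 / (k:ℝ)) ≤ 1 + Real.log Y := by
  have h := harmonic_le_one_add_log Y
  rw [harmonic_eq_sum_Icc] at h
  push_cast at h
  simpa [one_div] using h

/-- sums of powers of the divisor function over `n` -/
theorem sum_card_pow_div (k Y : ℕ) :
    ∑ n ∈ Icc 1 Y, (n.divisors.card : ℝ) ^ k / n ≤ (1 + Real.log Y) ^ (2 ^ k) := by
  induction k with
  | zero =>
    simp only [pow_zero, pow_one]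
    exact harm Y
  | succ k ih =>
    have h0 : 0 ≤ ∑ n ∈ Icc 1 Y, (n.divisors.card : ℝ) ^ k / n :=
      sum_nonneg fun _ _ => by positivity
    have h1 : ∑ n ∈ Icc 1 Y, (n.divisors.card : ℝ) ^ (k + 1) / n ≤
        ∑ c ∈ Icc 1 Y, ∑ b ∈ Icc 1 (Y / c),
          ((b.divisors.card : ℝ) ^ k / b) * ((c.divisors.card : ℝ) ^ k / c) := by
      rw [← hyperC Y (fun b c => ((b.divisors.card : ℝ) ^ k / b) * ((c.divisors.card : ℝ) ^ k / c))]
      apply sum_le_sum
      intro n hn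
      rw [mem_Icc] at hn
      have : ∀ i ∈ n.divisorsAntidiagonal, (n.divisors.card : ℝ) ^ k / n ≤
          ((i.1.divisors.card : ℝ) ^ k / i.1) * ((i.2.divisors.card : ℝ) ^ k / i.2) := by
        intro i hi
        rw [Nat.mem_divisorsAntidiagonal] at hi
        rw [← hi.1, div_mul_div_comm, ← mul_pow]
        push_cast
        apply div_le_div_of_nonneg_right _ (by positivity)
        apply pow_le_pow_left₀ (by positivity)
        exact_mod_cast card_div_mul_le i.1 i.2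
      calc (n.divisors.card : ℝ) ^ (k + 1) / n =
          ∑ i ∈ n.divisorsAntidiagonal, (n.divisors.card : ℝ) ^ k / n := by
            rw [sum_const, nsmul_eq_mul, ← Nat.map_div_right_divisors, card_map]
            ring
        _ ≤ _ := sum_le_sum this
    refine h1.trans ?_
    calc ∑ c ∈ Icc 1 Y, ∑ b ∈ Icc 1 (Y / c),
          ((b.divisors.card : ℝ) ^ k / b) * ((c.divisors.card : ℝ) ^ k / c)
        ≤ ∑ c ∈ Icc 1 Y, (∑ b ∈ Icc 1 Y, (b.divisors.card : ℝ) ^ k / b) *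
          ((c.divisors.card : ℝ) ^ k / c) := by
          apply sum_le_sum
          intro c _
          rw [← sum_mul]
          apply mul_le_mul_of_nonneg_right _ (by positivity)
          apply sum_le_sum_of_subset_of_nonneg
          · exact Icc_subset_Icc_right (Nat.div_le_self _ _)
          · intro i _ _; positivity
      _ = (∑ b ∈ Icc 1 Y, (b.divisors.card : ℝ) ^ k / b) *
          (∑ b ∈ Icc 1 Y, (b.divisors.card : ℝ) ^ k / b) := by rw [mul_sum]
      _ ≤ (1 + Real.log Y) ^ (2 ^ k) * (1 + Real.log Y) ^ (2 ^ k) :=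
          mul_le_mul ih ih h0 (h0.trans ih)
      _ = _ := by rw [← pow_add, ← two_mul, pow_succ, mul_comm 2]

theorem mom (k Y : ℕ) :
    ∑ n ∈ Icc 1 Y, (n.divisors.card : ℝ) ^ k ≤ Y * (1 + Real.log Y) ^ (2 ^ k) := by
  calc ∑ n ∈ Icc 1 Y, (n.divisors.card : ℝ) ^ k
      ≤ ∑ n ∈ Icc 1 Y, (Y : ℝ) * ((n.divisors.card : ℝ) ^ k / n) := by
        apply sum_le_sum
        intro n hn
        rw [mem_Icc] at hn
        have hn0 : (0 : ℝ) < n := by exact_mod_cast hn.1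
        have hnY : (n : ℝ) ≤ Y := by exact_mod_cast hn.2
        rw [← mul_div_assoc, le_div_iff₀ hn0, mul_comm]
        exact mul_le_mul_of_nonneg_right hnY (by positivity)
    _ = Y * ∑ n ∈ Icc 1 Y, ((n.divisors.card : ℝ) ^ k / n) := by rw [mul_sum]
    _ ≤ _ := mul_le_mul_of_nonneg_left (sum_card_pow_div k Y) (by positivity)

theorem phi_mul_card (n : ℕ) (hn : 1 ≤ n) : n ≤ n.totient * n.divisors.card := by
  have hn0 : n ≠ 0 := by omega
  have h1 := Nat.totient_mul_prod_primeFactors n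
  have h2 : ∏ p ∈ n.primeFactors, p ≤ n.divisors.card * ∏ p ∈ n.primeFactors, (p - 1) := by
    rw [Nat.card_divisors hn0, ← Finset.prod_mul_distrib]
    apply Finset.prod_le_prod'
    intro p hp
    have hpp := Nat.prime_of_mem_primeFactors hp
    have hv : 1 ≤ n.factorization p := by
      rw [Nat.one_le_iff_ne_zero, ← Finsupp.mem_support_iff, Nat.support_factorization]
      exact hp
    have := hpp.two_le
    calc p ≤ 2 * (p - 1) := by omega
      _ ≤ (n.factorization p + 1) * (p - 1) := Nat.mul_le_mul_right _ (by omega)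
  have h3 : 0 < ∏ p ∈ n.primeFactors, (p - 1) := by
    apply Finset.prod_pos
    intro p hp
    have := (Nat.prime_of_mem_primeFactors hp).two_le
    omega
  have h4 : n * ∏ p ∈ n.primeFactors, (p - 1) ≤
      (n.totient * n.divisors.card) * ∏ p ∈ n.primeFactors, (p - 1) := by
    rw [← h1, mul_assoc]
    exact Nat.mul_le_mul_left _ h2
  exact Nat.le_of_mul_le_mul_right h4 h3

theorem inv_phi_le (d : ℕ) (hd : 1 ≤ d) : 1 / (Nat.totient d : ℝ) ≤ (d.divisors.card : ℝ) ^ 1 / d := by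
  have h0 : (0 : ℝ) < Nat.totient d := by exact_mod_cast Nat.totient_pos.2 hd
  have h1 : (0 : ℝ) < d := by exact_mod_cast hd
  rw [div_le_div_iff₀ h0 h1, pow_one, one_mul, mul_comm]
  exact_mod_cast phi_mul_card d hd

theorem conv (x : ℕ) (T : Finset ℕ) (hT : ∀ p ∈ T, 1 ≤ p) (G : ℕ → ℝ) (hG : ∀ n, 0 ≤ G n) :
    ∑ p ∈ T, ∑ m ∈ Icc 1 (x / p), G (m * p) ≤ ∑ n ∈ Icc 1 x, (n.divisors.card : ℝ) * G n := by
  have h1 := hyperC x (fun b c => if c ∈ T then G (b * c) else 0)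
  have h2 : ∑ p ∈ T, ∑ m ∈ Icc 1 (x / p), G (m * p) =
      ∑ c ∈ Icc 1 x, ∑ b ∈ Icc 1 (x / c), if c ∈ T then G (b * c) else 0 := by
    have h3 : ∀ c ∈ Icc 1 x, (∑ b ∈ Icc 1 (x / c), if c ∈ T then G (b * c) else 0) =
        if c ∈ T then ∑ b ∈ Icc 1 (x / c), G (b * c) else 0 := by
      intro c _
      split_ifs <;> simp
    rw [sum_congr rfl h3, ← sum_filter]
    symm
    apply sum_subset
    · intro c hc
      exact (mem_filter.1 hc).2
    · intro c hc hc2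
      have h4 : x < c := by
        by_contra h5
        push Not at h5
        exact hc2 (mem_filter.2 ⟨mem_Icc.2 ⟨hT c hc, h5⟩, hc⟩)
      rw [Nat.div_eq_of_lt h4]
      simp
  rw [h2, ← h1]
  apply sum_le_sum
  intro n _
  calc ∑ i ∈ n.divisorsAntidiagonal, (if i.2 ∈ T then G (i.1 * i.2) else 0)
      ≤ ∑ i ∈ n.divisorsAntidiagonal, G n := by
        apply sum_le_sum
        intro i hi
        rw [Nat.mem_divisorsAntidiagonal] at hi
        rw [hi.1]
        split_ifs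
        · exact le_rfl
        · exact hG n
    _ = (n.divisors.card : ℝ) * G n := by
        rw [sum_const, nsmul_eq_mul, ← Nat.map_div_right_divisors, card_map]

/-- number of possible `d` for the product `n` -/
noncomputable def tp (a : ℤ) (x n : ℕ) : ℝ :=
  if (n : ℤ) = a then (x : ℝ) else (((n : ℤ) - a).natAbs.divisors.card : ℝ)

theorem tp_nonneg (a : ℤ) (x n : ℕ) : 0 ≤ tp a x n := by
  unfold tp
  split_ifs <;> positivity

theorem IiSum (a : ℤ) (x : ℕ) (D : Finset ℕ) (hD : D ⊆ Icc 1 x) (p m : ℕ) :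
    ∑ d ∈ D, Ii a d p (m : ℤ) ≤ tp a x (m * p) := by
  unfold Ii tp
  split_ifs with h
  · calc ∑ d ∈ D, (if (d : ℤ) ∣ (m : ℤ) * p - a then (1 : ℝ) else 0) ≤ ∑ d ∈ D, (1 : ℝ) :=
        sum_le_sum fun d _ => by split_ifs <;> norm_num
      _ = (D.card : ℝ) := by simp
      _ ≤ x := by
        have h1 := card_le_card hD
        rw [Nat.card_Icc] at h1
        exact_mod_cast (by omega : D.card ≤ x)
  · rw [← sum_filter, sum_const, nsmul_eq_mul, mul_one]
    have h1 : D.filter (fun d : ℕ => (d : ℤ) ∣ (m : ℤ) * p - a) ⊆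
        (((m * p : ℕ) : ℤ) - a).natAbs.divisors := by
      intro d hd
      rw [mem_filter] at hd
      rw [Nat.mem_divisors]
      constructor
      · rw [← Int.natCast_dvd]
        push_cast
        exact hd.2
      · rw [Int.natAbs_ne_zero]
        exact sub_ne_zero.2 h
    exact_mod_cast card_le_card h1

theorem tau_le (m p : ℕ) (h : m * p ≠ 0) : m.divisors.card ≤ (m * p).divisors.card :=
  card_le_card (Nat.divisors_subset_of_dvd h (Dvd.intro p rfl))

theorem partA (a : ℤ) (x B : ℕ) (D T : Finset ℕ) (hD : D ⊆ Icc 1 x) (hT : ∀ p ∈ T, 1 ≤ p) :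
    ∑ d ∈ D, ∑ p ∈ T, ∑ m ∈ Icc 1 (x / p), (m.divisors.card : ℝ) ^ (2 * B) * Ii a d p (m : ℤ) ≤
      ∑ n ∈ Icc 1 x, (n.divisors.card : ℝ) * ((n.divisors.card : ℝ) ^ (2 * B) * tp a x n) := by
  refine le_trans ?_ (conv x T hT (fun n => (n.divisors.card : ℝ) ^ (2 * B) * tp a x n)
    fun n => mul_nonneg (by positivity) (tp_nonneg a x n))
  rw [sum_comm]
  apply sum_le_sum
  intro p hp
  rw [sum_comm]
  apply sum_le_sum
  intro m hm
  rw [mem_Icc] at hm
  rw [← mul_sum]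
  have h1 : m * p ≠ 0 := by
    have := hT p hp
    have : 0 < m * p := Nat.mul_pos hm.1 this
    omega
  have h2 : (m.divisors.card : ℝ) ^ (2 * B) ≤ ((m * p).divisors.card : ℝ) ^ (2 * B) :=
    pow_le_pow_left₀ (by positivity) (by exact_mod_cast tau_le m p h1) _
  calc (m.divisors.card : ℝ) ^ (2 * B) * ∑ d ∈ D, Ii a d p (m : ℤ)
      ≤ (m.divisors.card : ℝ) ^ (2 * B) * tp a x (m * p) :=
        mul_le_mul_of_nonneg_left (IiSum a x D hD p m) (by positivity)
    _ ≤ _ := mul_le_mul_of_nonneg_right h2 (tp_nonneg _ _ _)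

theorem fiber (a : ℤ) (x : ℕ) (F : ℕ → ℝ) (hF : ∀ n, 0 ≤ F n) :
    ∑ n ∈ (Icc 1 x).filter (fun n : ℕ => (n : ℤ) ≠ a), F (((n : ℤ) - a).natAbs) ≤
      2 * ∑ m ∈ Icc 1 (x + a.natAbs), F m := by
  have hmaps : ∀ n ∈ (Icc 1 x).filter (fun n : ℕ => (n : ℤ) ≠ a),
      ((n : ℤ) - a).natAbs ∈ Icc 1 (x + a.natAbs) := by
    intro n hn
    rw [mem_filter, mem_Icc] at hn
    rw [mem_Icc]
    omega
  rw [← sum_fiberwise_of_maps_to hmaps (fun n => F (((n : ℤ) - a).natAbs)), mul_sum]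
  apply sum_le_sum
  intro m _
  have h1 : ∑ n ∈ ((Icc 1 x).filter (fun n : ℕ => (n : ℤ) ≠ a)).filter
      (fun n : ℕ => ((n : ℤ) - a).natAbs = m), F (((n : ℤ) - a).natAbs) =
      ∑ n ∈ ((Icc 1 x).filter (fun n : ℕ => (n : ℤ) ≠ a)).filter
      (fun n : ℕ => ((n : ℤ) - a).natAbs = m), F m := by
    apply sum_congr rfl
    intro n hn
    rw [(mem_filter.1 hn).2]
  rw [h1, sum_const, nsmul_eq_mul]
  apply mul_le_mul_of_nonneg_right _ (hF m)
  have h2 : ((Icc 1 x).filter (fun n : ℕ => (n : ℤ) ≠ a)).filter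
      (fun n : ℕ => ((n : ℤ) - a).natAbs = m) ⊆ {(a + m).toNat, (a - m).toNat} := by
    intro n hn
    rw [mem_filter] at hn
    rw [mem_insert, mem_singleton]
    have := hn.2
    omega
  have h3 := (card_le_card h2).trans card_le_two
  exact_mod_cast h3

theorem partB (a : ℤ) (x B : ℕ) :
    ∑ n ∈ Icc 1 x, (n.divisors.card : ℝ) * ((n.divisors.card : ℝ) ^ (2 * B) * tp a x n) ≤
      (a.natAbs.divisors.card : ℝ) ^ (2 * B + 1) * x +
        (∑ n ∈ Icc 1 x, (n.divisors.card : ℝ) ^ (4 * B + 2) +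
          ∑ m ∈ Icc 1 (x + a.natAbs), (m.divisors.card : ℝ) ^ 2) := by
  have hpt : ∀ n ∈ Icc 1 x, (n.divisors.card : ℝ) * ((n.divisors.card : ℝ) ^ (2 * B) * tp a x n) ≤
      (if (n : ℤ) = a then (a.natAbs.divisors.card : ℝ) ^ (2 * B + 1) * x else 0) +
      ((n.divisors.card : ℝ) ^ (4 * B + 2) +
        1 / 2 * (if (n : ℤ) ≠ a then (((n : ℤ) - a).natAbs.divisors.card : ℝ) ^ 2 else 0)) := by
    intro n _
    unfold tp
    by_cases h : (n : ℤ) = a
    · have h1 : a.natAbs = n := by omega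
      rw [if_pos h, if_pos h, if_neg (by simpa using h), h1]
      have h2 : (n.divisors.card : ℝ) * ((n.divisors.card : ℝ) ^ (2 * B) * x) =
          (n.divisors.card : ℝ) ^ (2 * B + 1) * x := by ring
      rw [h2]
      have : (0 : ℝ) ≤ (n.divisors.card : ℝ) ^ (4 * B + 2) := by positivity
      linarith
    · rw [if_neg h, if_neg h, if_pos h]
      set u := (n.divisors.card : ℝ) ^ (2 * B + 1) with hu
      set v := ((((n : ℤ) - a).natAbs.divisors.card : ℕ) : ℝ) with hv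
      have h2 : (n.divisors.card : ℝ) * ((n.divisors.card : ℝ) ^ (2 * B) * v) = u * v := by
        rw [hu]; ring
      have h3 : (n.divisors.card : ℝ) ^ (4 * B + 2) = u ^ 2 := by
        rw [hu, ← pow_mul]; ring
      rw [h2, h3]
      nlinarith [sq_nonneg (u - v), sq_nonneg u]
  refine (sum_le_sum hpt).trans ?_
  rw [sum_add_distrib, sum_add_distrib, ← mul_sum, ← sum_filter, ← sum_filter]
  have h4 : ∑ n ∈ (Icc 1 x).filter (fun n : ℕ => (n : ℤ) = a),
      (a.natAbs.divisors.card : ℝ) ^ (2 * B + 1) * x ≤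
      (a.natAbs.divisors.card : ℝ) ^ (2 * B + 1) * x := by
    rw [sum_const, nsmul_eq_mul]
    have h5 : ((Icc 1 x).filter (fun n : ℕ => (n : ℤ) = a)).card ≤ 1 := by
      rw [card_le_one]
      intro b hb c hc
      have h6 := (mem_filter.1 hb).2
      have h7 := (mem_filter.1 hc).2
      omega
    have h6 : (((Icc 1 x).filter (fun n : ℕ => (n : ℤ) = a)).card : ℝ) ≤ 1 := by exact_mod_cast h5
    have h7 : (0 : ℝ) ≤ (a.natAbs.divisors.card : ℝ) ^ (2 * B + 1) * x := by positivity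
    nlinarith
  have h5 := fiber a x (fun m => (m.divisors.card : ℝ) ^ 2) fun n => by positivity
  linarith

theorem partC (x B : ℕ) (D T : Finset ℕ) (hD : D ⊆ Icc 1 x) (hT : ∀ p ∈ T, 1 ≤ p) :
    ∑ d ∈ D, ∑ p ∈ T, ∑ m ∈ Icc 1 (x / p), (m.divisors.card : ℝ) ^ (2 * B) *
      (1 / (Nat.totient d : ℝ)) ≤
      (1 + Real.log x) ^ 2 * (x * (1 + Real.log x) ^ (2 ^ (2 * B + 1))) := by
  have h1 : ∑ p ∈ T, ∑ m ∈ Icc 1 (x / p), (m.divisors.card : ℝ) ^ (2 * B) ≤
      x * (1 + Real.log x) ^ (2 ^ (2 * B + 1)) := by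
    calc ∑ p ∈ T, ∑ m ∈ Icc 1 (x / p), (m.divisors.card : ℝ) ^ (2 * B)
        ≤ ∑ p ∈ T, ∑ m ∈ Icc 1 (x / p), ((m * p).divisors.card : ℝ) ^ (2 * B) := by
          apply sum_le_sum
          intro p hp
          apply sum_le_sum
          intro m hm
          rw [mem_Icc] at hm
          have h1 : m * p ≠ 0 := by
            have := hT p hp
            have : 0 < m * p := Nat.mul_pos hm.1 this
            omega
          exact pow_le_pow_left₀ (by positivity) (by exact_mod_cast tau_le m p h1) _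
      _ ≤ ∑ n ∈ Icc 1 x, (n.divisors.card : ℝ) * (n.divisors.card : ℝ) ^ (2 * B) :=
          conv x T hT (fun n => (n.divisors.card : ℝ) ^ (2 * B)) fun n => by positivity
      _ = ∑ n ∈ Icc 1 x, (n.divisors.card : ℝ) ^ (2 * B + 1) := by
          apply sum_congr rfl
          intro n _
          ring
      _ ≤ _ := mom _ _
  have h2 : ∑ d ∈ D, 1 / (Nat.totient d : ℝ) ≤ (1 + Real.log x) ^ 2 := by
    calc ∑ d ∈ D, 1 / (Nat.totient d : ℝ) ≤ ∑ d ∈ Icc 1 x, 1 / (Nat.totient d : ℝ) :=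
        sum_le_sum_of_subset_of_nonneg hD fun _ _ _ => by positivity
      _ ≤ ∑ d ∈ Icc 1 x, (d.divisors.card : ℝ) ^ 1 / d := by
        apply sum_le_sum
        intro d hd
        exact inv_phi_le d (mem_Icc.1 hd).1
      _ ≤ (1 + Real.log x) ^ (2 ^ 1) := sum_card_pow_div 1 x
      _ = _ := by norm_num
  have h3 : ∑ d ∈ D, ∑ p ∈ T, ∑ m ∈ Icc 1 (x / p), (m.divisors.card : ℝ) ^ (2 * B) *
      (1 / (Nat.totient d : ℝ)) = (∑ d ∈ D, 1 / (Nat.totient d : ℝ)) *
        ∑ p ∈ T, ∑ m ∈ Icc 1 (x / p), (m.divisors.card : ℝ) ^ (2 * B) := by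
    rw [sum_mul]
    apply sum_congr rfl
    intro d _
    rw [mul_sum]
    apply sum_congr rfl
    intro p _
    rw [mul_sum]
    apply sum_congr rfl
    intro m _
    ring
  rw [h3]
  have h4 : 0 ≤ ∑ p ∈ T, ∑ m ∈ Icc 1 (x / p), (m.divisors.card : ℝ) ^ (2 * B) :=
    sum_nonneg fun _ _ => sum_nonneg fun _ _ => by positivity
  exact mul_le_mul h2 h1 h4 (by positivity)

/-- the exponent -/
def cB (B : ℕ) : ℕ := 2 + 2 ^ (4 * B + 2)

theorem total (a : ℤ) (B : ℕ) : ∃ C : ℝ, 0 < C ∧ ∀ (x : ℕ) (D T : Finset ℕ), 3 ≤ x →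
    D ⊆ Icc 1 x → (∀ p ∈ T, 1 ≤ p) →
    ∑ d ∈ D, ∑ p ∈ T, ∑ m ∈ Icc 1 (x / p), (m.divisors.card : ℝ) ^ (2 * B) *
      (Ii a d p (m : ℤ) + 1 / (Nat.totient d : ℝ)) ≤ C * x * Real.log x ^ cB B := by
  set s : ℝ := (a.natAbs : ℝ) with hs
  have hs0 : 0 ≤ s := by positivity
  set l : ℝ := Real.log (1 + s) with hl
  have hl0 : 0 ≤ l := Real.log_nonneg (by linarith)
  refine ⟨(a.natAbs.divisors.card : ℝ) ^ (2 * B + 1) + 2 ^ cB B + (1 + s) * (2 + l) ^ 4 + 2 ^ cB B,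
    by positivity, ?_⟩
  intro x D T hx hD hT
  have hxR : (3 : ℝ) ≤ x := by exact_mod_cast hx
  have hL : 1 ≤ Real.log x := by
    rw [Real.le_log_iff_exp_le (by linarith)]
    have := Real.exp_one_lt_d9
    linarith
  set L := Real.log x with hLdef
  have h1 : ∑ d ∈ D, ∑ p ∈ T, ∑ m ∈ Icc 1 (x / p), (m.divisors.card : ℝ) ^ (2 * B) *
      (Ii a d p (m : ℤ) + 1 / (Nat.totient d : ℝ)) =
      ∑ d ∈ D, ∑ p ∈ T, ∑ m ∈ Icc 1 (x / p), (m.divisors.card : ℝ) ^ (2 * B) * Ii a d p (m : ℤ) +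
      ∑ d ∈ D, ∑ p ∈ T, ∑ m ∈ Icc 1 (x / p), (m.divisors.card : ℝ) ^ (2 * B) *
      (1 / (Nat.totient d : ℝ)) := by
    rw [← sum_add_distrib]
    apply sum_congr rfl
    intro d _
    rw [← sum_add_distrib]
    apply sum_congr rfl
    intro p _
    rw [← sum_add_distrib]
    apply sum_congr rfl
    intro m _
    ring
  rw [h1]
  have h2 := (partA a x B D T hD hT).trans (partB a x B)
  have h3 := partC x B D T hD hT
  have h4 := mom (4 * B + 2) x
  have h5 := mom 2 (x + a.natAbs)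
  have hx0 : (0 : ℝ) < x := by linarith
  have hLc : ∀ i, i ≤ cB B → (1 + L) ^ i ≤ 2 ^ cB B * L ^ cB B := by
    intro i hi
    calc (1 + L) ^ i ≤ (2 * L) ^ i := pow_le_pow_left₀ (by linarith) (by linarith) _
      _ ≤ (2 * L) ^ cB B := pow_le_pow_right₀ (by linarith) hi
      _ = _ := by rw [mul_pow]
  have hL1 : 1 ≤ L ^ cB B := one_le_pow₀ hL
  have b1 : (a.natAbs.divisors.card : ℝ) ^ (2 * B + 1) * x ≤
      (a.natAbs.divisors.card : ℝ) ^ (2 * B + 1) * x * L ^ cB B :=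
    le_mul_of_one_le_right (by positivity) hL1
  have b2 : (x : ℝ) * (1 + L) ^ (2 ^ (4 * B + 2)) ≤ 2 ^ cB B * x * L ^ cB B := by
    have := mul_le_mul_of_nonneg_left (hLc (2 ^ (4 * B + 2)) (by unfold cB; omega)) hx0.le
    calc _ ≤ _ := this
      _ = _ := by ring
  have b3 : (((x + a.natAbs : ℕ) : ℝ)) * (1 + Real.log ((x + a.natAbs : ℕ) : ℝ)) ^ (2 ^ 2) ≤
      (1 + s) * (2 + l) ^ 4 * x * L ^ cB B := by
    have e1 : ((x + a.natAbs : ℕ) : ℝ) ≤ (1 + s) * x := by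
      push_cast
      nlinarith
    have e0 : (0 : ℝ) < ((x + a.natAbs : ℕ) : ℝ) := by
      push_cast
      linarith
    have e0' : (1 : ℝ) ≤ ((x + a.natAbs : ℕ) : ℝ) := by
      push_cast
      linarith
    have e2 : 1 + Real.log ((x + a.natAbs : ℕ) : ℝ) ≤ (2 + l) * L := by
      have : Real.log ((x + a.natAbs : ℕ) : ℝ) ≤ l + L := by
        rw [hl, hLdef, ← Real.log_mul (by linarith) hx0.ne']
        exact Real.log_le_log e0 e1
      nlinarith
    have e3 : 0 ≤ 1 + Real.log ((x + a.natAbs : ℕ) : ℝ) := by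
      have := Real.log_nonneg e0'
      linarith
    have e4 : L ^ 4 ≤ L ^ cB B := by
      apply pow_le_pow_right₀ hL
      unfold cB
      have : 2 ^ 2 ≤ 2 ^ (4 * B + 2) := Nat.pow_le_pow_right (by norm_num) (by omega)
      omega
    calc _ ≤ ((1 + s) * x) * ((2 + l) * L) ^ (2 ^ 2) := by gcongr
      _ = ((1 + s) * (2 + l) ^ 4 * x) * L ^ 4 := by norm_num; ring
      _ ≤ ((1 + s) * (2 + l) ^ 4 * x) * L ^ cB B := by gcongr
      _ = _ := by ring
  have b4 : (1 + L) ^ 2 * (x * (1 + L) ^ (2 ^ (2 * B + 1))) ≤ 2 ^ cB B * x * L ^ cB B := by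
    have e1 : 2 + 2 ^ (2 * B + 1) ≤ cB B := by
      unfold cB
      have : 2 ^ (2 * B + 1) ≤ 2 ^ (4 * B + 2) := Nat.pow_le_pow_right (by norm_num) (by omega)
      omega
    have := mul_le_mul_of_nonneg_left (hLc _ e1) hx0.le
    calc (1 + L) ^ 2 * (x * (1 + L) ^ (2 ^ (2 * B + 1))) = x * (1 + L) ^ (2 + 2 ^ (2 * B + 1)) := by
          rw [pow_add]; ring
      _ ≤ _ := this
      _ = _ := by ring
  have hfin : ((a.natAbs.divisors.card : ℝ) ^ (2 * B + 1) + 2 ^ cB B + (1 + s) * (2 + l) ^ 4 +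
      2 ^ cB B) * x * L ^ cB B = (a.natAbs.divisors.card : ℝ) ^ (2 * B + 1) * x * L ^ cB B +
      (2 ^ cB B * x * L ^ cB B + (1 + s) * (2 + l) ^ 4 * x * L ^ cB B) +
      2 ^ cB B * x * L ^ cB B := by ring
  rw [hfin]
  linarith

end TUC2

open TUC2 in
theorem t_UC2 (h : P_UC1) : P_UC2 := by
  intro θ hθ0 hθ
  obtain ⟨ρ, hρ, h⟩ := h θ hθ0 hθ
  refine ⟨ρ, hρ, ?_⟩
  intro a ha ρ0 hρ0 A B
  obtain ⟨k, hk⟩ : ∃ k : ℕ, k = A + cB B := ⟨_, rfl⟩
  obtain ⟨C1, hC1, h1⟩ := h a ha ρ0 hρ0 (A + k)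
  obtain ⟨C2, hC2, h2⟩ := total a B
  refine ⟨2 * C1 + C2, by positivity, ?_⟩
  intro x P P' α hx hP hP' hα
  have hxR : (3 : ℝ) ≤ x := by exact_mod_cast hx
  have hL : 1 ≤ Real.log x := by
    rw [Real.le_log_iff_exp_le (by linarith)]
    have := Real.exp_one_lt_d9
    linarith
  set L := Real.log x with hLdef
  obtain ⟨K, hK⟩ : ∃ K : ℝ, K = L ^ k := ⟨_, rfl⟩
  have hK1 : 1 ≤ K := by rw [hK]; exact one_le_pow₀ hL
  have hK0 : 0 < K := by linarith
  set E : ℕ → ℕ → ℕ → ℝ := fun d p m => Ii a d p (m : ℤ) -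
    if Nat.Coprime (m * p) d then 1 / (Nat.totient d : ℝ) else 0 with hE
  set D : Finset ℕ := (Icc 1 ⌊(x : ℝ) ^ θ⌋₊).filter (fun d : ℕ => Int.gcd a d = 1) with hDdef
  have hDsub : D ⊆ Icc 1 x := by
    intro d hd
    rw [hDdef, mem_filter, mem_Icc] at hd
    rw [mem_Icc]
    refine ⟨hd.1.1, hd.1.2.trans ?_⟩
    apply Nat.floor_le_of_le
    calc (x : ℝ) ^ θ ≤ (x : ℝ) ^ (1 : ℝ) :=
        Real.rpow_le_rpow_of_exponent_le (by linarith) (by linarith)
      _ = x := Real.rpow_one _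
  have hT : ∀ p ∈ Pr P P', 1 ≤ p := by
    intro p hp
    unfold Pr at hp
    rw [mem_filter] at hp
    exact hp.2.one_le
  set α1 : ℕ → ℂ := fun m => if ‖α m‖ ≤ K then α m else 0 with hα1
  set α2 : ℕ → ℂ := fun m => if ‖α m‖ ≤ K then 0 else α m with hα2
  have hsplit : ∀ m, α m = α1 m + α2 m := by
    intro m
    simp only [hα1, hα2]
    split_ifs <;> simp
  have hα1b : ∀ m, ‖α1 m‖ ≤ K := by
    intro m
    simp only [hα1]
    split_ifs with h3
    · exact h3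
    · rw [norm_zero]; exact hK0.le
  have hα2b : ∀ m, ‖α2 m‖ ≤ (m.divisors.card : ℝ) ^ (2 * B) / K := by
    intro m
    simp only [hα2]
    split_ifs with h3
    · rw [norm_zero]; exact div_nonneg (pow_nonneg (Nat.cast_nonneg _) _) hK0.le
    · push Not at h3
      rw [le_div_iff₀ hK0]
      calc ‖α m‖ * K ≤ ‖α m‖ * ‖α m‖ := mul_le_mul_of_nonneg_left h3.le (norm_nonneg _)
        _ ≤ (m.divisors.card : ℝ) ^ B * (m.divisors.card : ℝ) ^ B :=
          mul_le_mul (hα m) (hα m) (norm_nonneg _) (pow_nonneg (Nat.cast_nonneg _) _)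
        _ = _ := by rw [← pow_add]; ring
  have hEb : ∀ d p m, |E d p m| ≤ Ii a d p (m : ℤ) + 1 / (Nat.totient d : ℝ) := by
    intro d p m
    simp only [hE]
    have e1 : 0 ≤ Ii a d p (m : ℤ) := by unfold Ii; split_ifs <;> norm_num
    have e2 : (0 : ℝ) ≤ 1 / (Nat.totient d : ℝ) := by positivity
    rw [abs_le]
    split_ifs
    · constructor <;> linarith
    · constructor <;> linarith
  -- the pieces
  have hRe : ∀ β : ℕ → ℝ, (∀ m, |β m| ≤ K) → ∑ d ∈ D, |∑ p ∈ Pr P P', ∑ m ∈ Icc 1 (x / p),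
      β m * E d p m| ≤ C1 * x / L ^ A := by
    intro β hβ
    have h3 := h1 x P P' (fun m => β m / K) hx hP hP' (by
      intro m
      rw [abs_div, abs_of_pos hK0, div_le_one hK0]
      exact hβ m)
    have h4 : ∀ d ∈ D, |∑ p ∈ Pr P P', ∑ m ∈ Icc 1 (x / p), β m * E d p m| =
        K * |∑ p ∈ Pr P P', ∑ m ∈ Icc 1 (x / p), β m / K * E d p m| := by
      intro d _
      have h5 : ∑ p ∈ Pr P P', ∑ m ∈ Icc 1 (x / p), β m * E d p m =
          K * ∑ p ∈ Pr P P', ∑ m ∈ Icc 1 (x / p), β m / K * E d p m := by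
        rw [mul_sum]
        apply sum_congr rfl
        intro p _
        rw [mul_sum]
        apply sum_congr rfl
        intro m _
        field_simp
      rw [h5, abs_mul, abs_of_pos hK0]
    rw [sum_congr rfl h4, ← mul_sum]
    refine (mul_le_mul_of_nonneg_left h3 hK0.le).trans (le_of_eq ?_)
    rw [← hLdef, pow_add, ← hK]
    have : L ^ A ≠ 0 := (pow_pos (by linarith) A).ne'
    have : K ≠ 0 := hK0.ne'
    field_simp
  have hP1 : ∑ d ∈ D, ‖∑ p ∈ Pr P P', ∑ m ∈ Icc 1 (x / p), α1 m * ((E d p m : ℝ) : ℂ)‖ ≤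
      2 * C1 * x / L ^ A := by
    have h3 := hRe (fun m => (α1 m).re) (fun m => (Complex.abs_re_le_norm _).trans (hα1b m))
    have h4 := hRe (fun m => (α1 m).im) (fun m => (Complex.abs_im_le_norm _).trans (hα1b m))
    have h5 : ∑ d ∈ D, ‖∑ p ∈ Pr P P', ∑ m ∈ Icc 1 (x / p), α1 m * ((E d p m : ℝ) : ℂ)‖ ≤
        ∑ d ∈ D, (|∑ p ∈ Pr P P', ∑ m ∈ Icc 1 (x / p), (α1 m).re * E d p m| +
          |∑ p ∈ Pr P P', ∑ m ∈ Icc 1 (x / p), (α1 m).im * E d p m|) := by
      apply sum_le_sum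
      intro d _
      refine (Complex.norm_le_abs_re_add_abs_im _).trans (le_of_eq ?_)
      congr 1
      · congr 1
        rw [Complex.re_sum]
        apply sum_congr rfl
        intro p _
        rw [Complex.re_sum]
        apply sum_congr rfl
        intro m _
        simp
      · congr 1
        rw [Complex.im_sum]
        apply sum_congr rfl
        intro p _
        rw [Complex.im_sum]
        apply sum_congr rfl
        intro m _
        simp
    rw [sum_add_distrib] at h5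
    have h6 : 2 * C1 * x / L ^ A = C1 * x / L ^ A + C1 * x / L ^ A := by ring
    rw [h6]
    exact h5.trans (add_le_add h3 h4)
  have hP2 : ∑ d ∈ D, ‖∑ p ∈ Pr P P', ∑ m ∈ Icc 1 (x / p), α2 m * ((E d p m : ℝ) : ℂ)‖ ≤
      C2 * x / L ^ A := by
    have h3 := h2 x D (Pr P P') hx hDsub hT
    calc ∑ d ∈ D, ‖∑ p ∈ Pr P P', ∑ m ∈ Icc 1 (x / p), α2 m * ((E d p m : ℝ) : ℂ)‖
        ≤ ∑ d ∈ D, ∑ p ∈ Pr P P', ∑ m ∈ Icc 1 (x / p), (1 / K) *
          ((m.divisors.card : ℝ) ^ (2 * B) * (Ii a d p (m : ℤ) + 1 / (Nat.totient d : ℝ))) := by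
          apply sum_le_sum
          intro d _
          refine (norm_sum_le _ _).trans (sum_le_sum fun p _ => ?_)
          refine (norm_sum_le _ _).trans (sum_le_sum fun m _ => ?_)
          rw [norm_mul, Complex.norm_real, Real.norm_eq_abs]
          calc ‖α2 m‖ * |E d p m| ≤ ((m.divisors.card : ℝ) ^ (2 * B) / K) *
                (Ii a d p (m : ℤ) + 1 / (Nat.totient d : ℝ)) :=
                mul_le_mul (hα2b m) (hEb d p m) (abs_nonneg _)
                  (div_nonneg (pow_nonneg (Nat.cast_nonneg _) _) hK0.le)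
            _ = _ := by ring
      _ = (1 / K) * ∑ d ∈ D, ∑ p ∈ Pr P P', ∑ m ∈ Icc 1 (x / p),
          (m.divisors.card : ℝ) ^ (2 * B) * (Ii a d p (m : ℤ) + 1 / (Nat.totient d : ℝ)) := by
          simp only [mul_sum]
      _ ≤ (1 / K) * (C2 * x * L ^ cB B) := mul_le_mul_of_nonneg_left h3 (one_div_nonneg.2 hK0.le)
      _ = _ := by
          rw [hK, hk, pow_add]
          have e1 : L ^ A ≠ 0 := (pow_pos (by linarith) A).ne'
          have e2 : L ^ cB B ≠ 0 := (pow_pos (by linarith) _).ne'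
          field_simp
  calc ∑ d ∈ D, ‖∑ p ∈ Pr P P', ∑ m ∈ Icc 1 (x / p), α m * ((E d p m : ℝ) : ℂ)‖
      ≤ ∑ d ∈ D, (‖∑ p ∈ Pr P P', ∑ m ∈ Icc 1 (x / p), α1 m * ((E d p m : ℝ) : ℂ)‖ +
        ‖∑ p ∈ Pr P P', ∑ m ∈ Icc 1 (x / p), α2 m * ((E d p m : ℝ) : ℂ)‖) := by
        apply sum_le_sum
        intro d _
        refine le_trans (le_of_eq ?_) (norm_add_le _ _)
        congr 1
        rw [← sum_add_distrib]
        apply sum_congr rfl
        intro p _
        rw [← sum_add_distrib]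
        apply sum_congr rfl
        intro m _
        rw [hsplit m, add_mul]
    _ = _ + _ := sum_add_distrib
    _ ≤ 2 * C1 * x / L ^ A + C2 * x / L ^ A := add_le_add hP1 hP2
    _ = (2 * C1 + C2) * x / L ^ A := by ring

end Pool.Agent.H262R4.FR
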