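import Pool.Agent.H262R4.FR.AllM
import Pool.Agent.H262R4.FR.DISP2b
import Pool.Agent.H262R4.FR.UC1
import Pool.Agent.H262R4.FR.UC2

/-!
FR project: assembly of the general theorem.
-/

namespace Pool.Agent.H262R4.FR

theorem f_UC2 : P_UC2 := t_UC2 (t_UC1 (t_DISP2b f_FR f_TR2 t_F1 t_PH))

end Pool.Agent.H262R4.FR
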