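import Pool.Agent.H262R4.FR.Stubs
import Pool.Agent.H442R2.KF.Pri
import Pool.Agent.H510R2.Div
import Pool.Agent.H109R2.ADD

/-!
FR project (helper262), task BT1 (helper48): upper bound sieve on average over the moduli, one
block of primes, from `P_DISP1`.
-/

namespace Pool.Agent.H262R4.FR.TBT1

open Finset
open Pool.Agent.H262R4.FR

theorem two_pow_om (d : ℕ) (hd : 1 ≤ d) : 2 ^ om d ≤ d.divisors.card := by
  rw [Nat.card_divisors (by omega)]
  unfold om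
  rw [← Finset.prod_const]
  apply Finset.prod_le_prod'
  intro p hp
  have h1 := Nat.mem_primeFactors.1 hp
  have h2 := h1.1.factorization_pos_of_dvd h1.2.2 h1.2.1
  omega

theorem three_pow_om (d : ℕ) (hd : 1 ≤ d) : (3 : ℝ) ^ om d ≤ (d.divisors.card : ℝ) ^ 2 := by
  have h1 : (2 : ℝ) ^ om d ≤ (d.divisors.card : ℝ) := by exact_mod_cast two_pow_om d hd
  calc (3 : ℝ) ^ om d ≤ 4 ^ om d := by gcongr; norm_num
    _ = (2 ^ om d) ^ 2 := by rw [← pow_mul, mul_comm, pow_mul]; norm_num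
    _ ≤ _ := by gcongr

theorem three_pow_om' (d : ℕ) (hd : 1 ≤ d) : (3 : ℝ) ^ om d ≤ (d : ℝ) ^ 2 := by
  refine (three_pow_om d hd).trans ?_
  have : (d.divisors.card : ℝ) ≤ d := by exact_mod_cast Nat.card_divisors_le_self d
  gcongr

theorem harm (D : ℕ) : ∑ d ∈ Icc 1 D, (1 : ℝ) / d ≤ 1 + Real.log D := by
  have h := harmonic_le_one_add_log D
  rw [harmonic_eq_sum_Icc] at h
  push_cast at h
  simpa [one_div] using h

theorem err (ρ0 : ℝ) (hρ0 : 0 < ρ0) : ∃ C : ℝ, 0 < C ∧ ∀ (X : ℝ) (D : ℕ), 1 ≤ X → (D : ℝ) ≤ X →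
    ∑ d ∈ Icc 1 D, (3 : ℝ) ^ om d * d.divisors.card / Nat.totient d ≤
      C * (X ^ (ρ0 / 4) * (1 + Real.log X)) := by
  obtain ⟨C, hC, hdiv⟩ := Pool.Agent.H510R2.divisor_bound (ρ0 / 16) (by positivity)
  refine ⟨C ^ 4, by positivity, ?_⟩
  intro X D hX hD
  rcases Nat.eq_zero_or_pos D with rfl | hD0
  · simp
    have := Real.log_nonneg hX
    positivity
  have hlog : Real.log D ≤ Real.log X :=
    Real.log_le_log (by exact_mod_cast hD0) hD
  have hterm : ∀ d ∈ Icc 1 D, (3 : ℝ) ^ om d * d.divisors.card / Nat.totient d ≤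
      C ^ 4 * X ^ (ρ0 / 4) * (1 / d) := by
    intro d hd
    rw [mem_Icc] at hd
    have hdr : (0 : ℝ) < d := by exact_mod_cast (by omega : 0 < d)
    have htot : (0 : ℝ) < Nat.totient d := by exact_mod_cast Nat.totient_pos.2 (by omega)
    have h1 := three_pow_om d hd.1
    have h2 : (d : ℝ) ≤ (Nat.totient d : ℝ) * (d.divisors.card : ℝ) := by
      exact_mod_cast Pool.Agent.H442R2.KF.TaskQ.phi_mul_card d hd.1
    have h3 := hdiv d hd.1
    have h4 : (d.divisors.card : ℝ) ^ 4 ≤ C ^ 4 * X ^ (ρ0 / 4) := by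
      calc (d.divisors.card : ℝ) ^ 4 ≤ (C * (d : ℝ) ^ (ρ0 / 16)) ^ 4 := by gcongr
        _ = C ^ 4 * (d : ℝ) ^ (ρ0 / 4) := by
          rw [mul_pow, ← Real.rpow_natCast ((d : ℝ) ^ (ρ0 / 16)) 4, ← Real.rpow_mul hdr.le]
          congr 2
          push_cast
          ring
        _ ≤ C ^ 4 * X ^ (ρ0 / 4) := by
          have : (d : ℝ) ≤ X := le_trans (by exact_mod_cast hd.2) hD
          gcongr
    rw [div_le_iff₀ htot]
    have hτ : (0 : ℝ) ≤ d.divisors.card := by positivity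
    calc (3 : ℝ) ^ om d * d.divisors.card ≤ (d.divisors.card : ℝ) ^ 2 * d.divisors.card := by gcongr
      _ = (d.divisors.card : ℝ) ^ 3 * (1 / d) * d := by field_simp
      _ ≤ (d.divisors.card : ℝ) ^ 3 * (1 / d) * ((Nat.totient d : ℝ) * (d.divisors.card : ℝ)) := by
        gcongr
      _ = (d.divisors.card : ℝ) ^ 4 * ((1 / d) * Nat.totient d) := by ring
      _ ≤ (C ^ 4 * X ^ (ρ0 / 4)) * ((1 / d) * Nat.totient d) := by gcongr
      _ = _ := by ring
  calc ∑ d ∈ Icc 1 D, (3 : ℝ) ^ om d * d.divisors.card / Nat.totient d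
      ≤ ∑ d ∈ Icc 1 D, C ^ 4 * X ^ (ρ0 / 4) * (1 / (d : ℝ)) := sum_le_sum hterm
    _ = C ^ 4 * X ^ (ρ0 / 4) * ∑ d ∈ Icc 1 D, (1 / (d : ℝ)) := by rw [mul_sum]
    _ ≤ C ^ 4 * X ^ (ρ0 / 4) * (1 + Real.log X) := by
      have := harm D
      gcongr
      linarith
    _ = _ := by ring

theorem comb (a : ℤ) (E : Finset ℕ) (M : ℕ) (hE : ∀ q ∈ E, 1 ≤ q) (G : ℕ → ℝ) :
    ∑ m ∈ Icc 1 M,
      ((E.filter (fun q => q ∣ m ∧ Int.gcd a ((m / q : ℕ) : ℤ) = 1)).card : ℝ) * G m =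
    ∑ q ∈ E, ∑ b ∈ (Icc 1 (M / q)).filter (fun b : ℕ => Int.gcd a b = 1), G (q * b) := by
  have h1 : ∀ m ∈ Icc 1 M,
      ((E.filter (fun q => q ∣ m ∧ Int.gcd a ((m / q : ℕ) : ℤ) = 1)).card : ℝ) * G m =
      ∑ q ∈ E, if (q ∣ m ∧ Int.gcd a ((m / q : ℕ) : ℤ) = 1) then G m else 0 := by
    intro m _
    rw [← Finset.sum_filter, Finset.sum_const, nsmul_eq_mul]
  rw [Finset.sum_congr rfl h1, Finset.sum_comm]
  apply Finset.sum_congr rfl
  intro q hq
  have hq1 := hE q hq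
  rw [← Finset.sum_filter]
  refine Finset.sum_nbij' (fun m => m / q) (fun b => q * b) ?_ ?_ ?_ ?_ ?_
  · intro m hm
    rw [mem_filter, mem_Icc] at hm
    obtain ⟨⟨hm1, hm2⟩, ⟨c, rfl⟩, hm4⟩ := hm
    rw [Nat.mul_div_cancel_left c (by omega)] at hm4
    simp only [Nat.mul_div_cancel_left c (by omega : 0 < q)]
    rw [mem_filter, mem_Icc, Nat.le_div_iff_mul_le (by omega)]
    refine ⟨⟨?_, by rwa [mul_comm]⟩, hm4⟩
    exact Nat.pos_of_ne_zero (by rintro rfl; simp at hm1)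
  · intro b hb
    rw [mem_filter, mem_Icc, Nat.le_div_iff_mul_le (by omega)] at hb
    rw [mem_filter, mem_Icc, Nat.mul_div_cancel_left b (by omega)]
    refine ⟨⟨Nat.mul_pos (by omega) (by omega), by rw [mul_comm]; exact hb.1.2⟩,
      dvd_mul_right _ _, hb.2⟩
  · intro m hm
    rw [mem_filter] at hm
    exact Nat.mul_div_cancel' hm.2.1
  · intro b _
    exact Nat.mul_div_cancel_left b (by omega)
  · intro m hm
    rw [mem_filter] at hm
    rw [Nat.mul_div_cancel' hm.2.1]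

theorem pull (a : ℤ) (ha : a ≠ 0) (lam : ℕ → ℝ) (Z q b : ℕ) (T : Finset ℕ)
    (hT : ∀ p ∈ T, p.Prime ∧ a.natAbs < p) (hq : Int.gcd a q = 1) (hb : Int.gcd a b = 1) :
    ∑ p ∈ T, ∑ d ∈ Icc 1 (Z ^ 2), (if (d : ℤ) ∣ a + q * b * p then lam d else 0) =
    ∑ d ∈ (Icc 1 (Z ^ 2)).filter (fun d : ℕ => Int.gcd a d = 1),
      lam d * ∑ p ∈ T, Ii (-a) d p ((q * b : ℕ) : ℤ) := by
  rw [Finset.sum_comm, Finset.sum_filter]
  apply Finset.sum_congr rfl
  intro d hd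
  split_ifs with hg
  · rw [Finset.mul_sum]
    apply Finset.sum_congr rfl
    intro p _
    unfold Ii
    have : ((q * b : ℕ) : ℤ) * p - -a = a + q * b * p := by push_cast; ring
    rw [this]
    split_ifs <;> simp
  · apply Finset.sum_eq_zero
    intro p hp
    rw [if_neg]
    intro hdvd
    obtain ⟨r, hr, hrg⟩ := Nat.exists_prime_and_dvd hg
    have hra : (r : ℤ) ∣ a := (Int.natCast_dvd_natCast.2 hrg).trans (Int.gcd_dvd_left ..)
    have hrd : (r : ℤ) ∣ (d : ℤ) := (Int.natCast_dvd_natCast.2 hrg).trans (Int.gcd_dvd_right ..)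
    have h1 : (r : ℤ) ∣ (q : ℤ) * b * p := (dvd_add_right hra).1 (hrd.trans hdvd)
    have hrp := Nat.prime_iff_prime_int.1 hr
    have hno : ∀ c : ℕ, Int.gcd a c = 1 → ¬ (r : ℤ) ∣ (c : ℤ) := by
      intro c hc hrc
      have h2 : (r : ℤ) ∣ ((Int.gcd a c : ℕ) : ℤ) := Int.dvd_coe_gcd hra hrc
      rw [hc] at h2
      have h3 : r ∣ 1 := by exact_mod_cast h2
      exact hr.one_lt.ne' (Nat.dvd_one.1 h3)
    rcases hrp.dvd_or_dvd h1 with h2 | h2
    · rcases hrp.dvd_or_dvd h2 with h3 | h3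
      · exact hno q hq h3
      · exact hno b hb h3
    · have h3 : r ∣ p := by exact_mod_cast h2
      have h4 : r = p := (Nat.prime_dvd_prime_iff_eq hr (hT p hp).1).1 h3
      have h5 : r ≤ a.natAbs := Nat.le_of_dvd (Int.natAbs_pos.2 ha) (Int.natCast_dvd.1 hra)
      have h6 := (hT p hp).2
      omega

theorem igcd (a : ℤ) (b : ℕ) : Int.gcd a (b : ℤ) = Nat.gcd a.natAbs b := rfl

theorem cnt (a : ℤ) (ha : a ≠ 0) (M q d : ℕ) (hq : 1 ≤ q) (hd : 1 ≤ d) (had : Int.gcd a d = 1) :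
    |(((Icc 1 (M/q)).filter (fun b : ℕ => Nat.Coprime b (a.natAbs * d))).card : ℝ) -
      (M : ℝ) / q * ((Nat.totient a.natAbs : ℝ) / (a.natAbs : ℝ) * ((Nat.totient d : ℝ) / d))| ≤
      2 * ((a.natAbs.divisors.card : ℝ) * d.divisors.card) := by
  have ha1 : 1 ≤ a.natAbs := Int.natAbs_pos.2 ha
  have hco : Nat.Coprime a.natAbs d := had
  have hg : 1 ≤ a.natAbs * d := Nat.mul_pos ha1 hd
  have h1 := Pool.Agent.H109R2.ADD.card_coprime (a.natAbs * d) (M / q) hg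
  rw [Nat.totient_mul hco, hco.card_divisors_mul] at h1
  push_cast at h1
  have hqr : (0 : ℝ) < q := by exact_mod_cast hq
  have har : (0 : ℝ) < (a.natAbs : ℝ) := by exact_mod_cast ha1
  have hdr : (0 : ℝ) < (d : ℝ) := by exact_mod_cast hd
  set κ : ℝ := (Nat.totient a.natAbs : ℝ) / (a.natAbs : ℝ) * ((Nat.totient d : ℝ) / d) with hκ
  have e1 : ((M / q : ℕ) : ℝ) * ((Nat.totient a.natAbs : ℝ) * (Nat.totient d : ℝ)) /
      ((a.natAbs : ℝ) * d) = ((M / q : ℕ) : ℝ) * κ := by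
    rw [hκ]; field_simp
  rw [e1] at h1
  have hκ0 : 0 ≤ κ := by positivity
  have hκ1 : κ ≤ 1 := by
    have h2 : (Nat.totient a.natAbs : ℝ) / (a.natAbs : ℝ) ≤ 1 := by
      rw [div_le_one har]; exact_mod_cast Nat.totient_le _
    have h3 : (Nat.totient d : ℝ) / d ≤ 1 := by
      rw [div_le_one hdr]; exact_mod_cast Nat.totient_le _
    rw [hκ]
    exact mul_le_one₀ h2 (by positivity) h3
  have h4 : ((M / q : ℕ) : ℝ) ≤ (M : ℝ) / q := Nat.cast_div_le
  have h5 : (M : ℝ) / q ≤ ((M / q : ℕ) : ℝ) + 1 := by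
    rw [div_le_iff₀ hqr]
    have := Nat.lt_div_mul_add (a := M) (b := q) hq
    have h6 : M ≤ (M / q + 1) * q := by
      rw [add_mul, one_mul]; omega
    exact_mod_cast h6
  have h6 : (1 : ℝ) ≤ (a.natAbs.divisors.card : ℝ) * d.divisors.card := by
    have h7 : 1 ≤ a.natAbs.divisors.card := Finset.card_pos.2 ⟨1, by simp; omega⟩
    have h8 : 1 ≤ d.divisors.card := Finset.card_pos.2 ⟨1, by simp; omega⟩
    exact_mod_cast Nat.mul_pos h7 h8
  rw [abs_le] at h1 ⊢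
  constructor <;> nlinarith

theorem sumCc (a : ℤ) (M q d : ℕ) :
    ∑ b ∈ (Icc 1 (M / q)).filter (fun b : ℕ => Int.gcd a b = 1), Cc d ((q * b : ℕ) : ℤ) =
    if Nat.Coprime d q then
      (((Icc 1 (M/q)).filter (fun b : ℕ => Nat.Coprime b (a.natAbs * d))).card : ℝ) else 0 := by
  split_ifs with h
  · unfold Cc
    rw [← Finset.sum_filter, filter_filter, sum_const, nsmul_one]
    congr 2
    apply filter_congr
    intro b _
    rw [igcd]
    have e1 : Int.gcd ((q * b : ℕ) : ℤ) (d : ℤ) = Nat.gcd (q * b) d := rfl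
    rw [e1]
    constructor
    · rintro ⟨h1, h2⟩
      exact Nat.Coprime.mul_right (Nat.Coprime.symm h1) (Nat.Coprime.coprime_mul_left h2)
    · intro h1
      refine ⟨(Nat.Coprime.coprime_mul_right_right h1).symm, ?_⟩
      exact Nat.Coprime.mul_left h.symm (Nat.Coprime.coprime_mul_left_right h1)
  · apply sum_eq_zero
    intro b _
    unfold Cc
    rw [if_neg]
    intro h2
    have e1 : Int.gcd ((q * b : ℕ) : ℤ) (d : ℤ) = Nat.gcd (q * b) d := rfl
    rw [e1] at h2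
    exact h (Nat.Coprime.coprime_mul_right h2).symm

theorem main_term (a : ℤ) (ha : a ≠ 0) (lam : ℕ → ℝ) (hl : ∀ d, |lam d| ≤ 3 ^ om d) (M Z n : ℕ)
    (E : Finset ℕ) (hE : ∀ q ∈ E, 1 ≤ q) :
    ∑ q ∈ E, ∑ b ∈ (Icc 1 (M / q)).filter (fun b : ℕ => Int.gcd a b = 1),
      ∑ d ∈ (Icc 1 (Z ^ 2)).filter (fun d : ℕ => Int.gcd a d = 1),
        lam d * (Cc d ((q * b : ℕ) : ℤ) * (n : ℝ) / (Nat.totient d : ℝ)) ≤
    (n : ℝ) * M * (∑ q ∈ E, ((Nat.totient a.natAbs : ℝ) / (a.natAbs : ℝ)) / (q : ℝ) *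
        ∑ d ∈ (Icc 1 (Z ^ 2)).filter (fun d => Nat.Coprime d (q * a.natAbs)), lam d / d) +
    (E.card : ℝ) * ((n : ℝ) * (2 * (a.natAbs.divisors.card : ℝ) *
      ∑ d ∈ Icc 1 (Z ^ 2), (3 : ℝ) ^ om d * d.divisors.card / Nat.totient d)) := by
  have hq : ∀ q ∈ E, ∑ b ∈ (Icc 1 (M / q)).filter (fun b : ℕ => Int.gcd a b = 1),
      ∑ d ∈ (Icc 1 (Z ^ 2)).filter (fun d : ℕ => Int.gcd a d = 1),
        lam d * (Cc d ((q * b : ℕ) : ℤ) * (n : ℝ) / (Nat.totient d : ℝ)) ≤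
      (n : ℝ) * M * (((Nat.totient a.natAbs : ℝ) / (a.natAbs : ℝ)) / (q : ℝ) *
        ∑ d ∈ (Icc 1 (Z ^ 2)).filter (fun d => Nat.Coprime d (q * a.natAbs)), lam d / d) +
      ((n : ℝ) * (2 * (a.natAbs.divisors.card : ℝ) *
      ∑ d ∈ Icc 1 (Z ^ 2), (3 : ℝ) ^ om d * d.divisors.card / Nat.totient d)) := by
    intro q hqE
    have hq1 := hE q hqE
    have hqr : (0 : ℝ) < q := by exact_mod_cast hq1
    have hfil : (Icc 1 (Z ^ 2)).filter (fun d => Nat.Coprime d (q * a.natAbs)) =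
        ((Icc 1 (Z ^ 2)).filter (fun d : ℕ => Int.gcd a d = 1)).filter
          (fun d => Nat.Coprime d q) := by
      rw [filter_filter]
      apply filter_congr
      intro d _
      rw [igcd]
      constructor
      · intro h1
        exact ⟨(Nat.Coprime.coprime_mul_left_right h1).symm, Nat.Coprime.coprime_mul_right_right h1⟩
      · rintro ⟨h1, h2⟩
        exact Nat.Coprime.mul_right h2 (Nat.Coprime.symm h1)
    rw [Finset.sum_comm]
    have e1 : ∀ d ∈ (Icc 1 (Z ^ 2)).filter (fun d : ℕ => Int.gcd a d = 1),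
        ∑ b ∈ (Icc 1 (M / q)).filter (fun b : ℕ => Int.gcd a b = 1),
          lam d * (Cc d ((q * b : ℕ) : ℤ) * (n : ℝ) / (Nat.totient d : ℝ)) =
        lam d * ((n : ℝ) / (Nat.totient d : ℝ)) * (if Nat.Coprime d q then
          (((Icc 1 (M/q)).filter (fun b : ℕ => Nat.Coprime b (a.natAbs * d))).card : ℝ) else 0) := by
      intro d _
      rw [← sumCc, mul_sum]
      apply sum_congr rfl
      intro b _
      ring
    rw [sum_congr rfl e1, hfil, sum_filter (fun d => Nat.Coprime d q), mul_sum, mul_sum, mul_sum,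
      mul_sum]
    have e2 : ∀ d ∈ (Icc 1 (Z ^ 2)).filter (fun d : ℕ => Int.gcd a d = 1),
        lam d * ((n : ℝ) / (Nat.totient d : ℝ)) * (if Nat.Coprime d q then
          (((Icc 1 (M/q)).filter (fun b : ℕ => Nat.Coprime b (a.natAbs * d))).card : ℝ) else 0) ≤
        (n : ℝ) * M * (((Nat.totient a.natAbs : ℝ) / (a.natAbs : ℝ)) / (q : ℝ) *
          (if Nat.Coprime d q then lam d / d else 0)) +
        (n : ℝ) * (2 * (a.natAbs.divisors.card : ℝ) *
          ((3 : ℝ) ^ om d * d.divisors.card / Nat.totient d)) := by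
      intro d hd
      rw [mem_filter, mem_Icc] at hd
      have hdr : (0 : ℝ) < d := by exact_mod_cast (by omega : 0 < d)
      have htot : (0 : ℝ) < Nat.totient d := by exact_mod_cast Nat.totient_pos.2 (by omega)
      split_ifs with hc
      · have h1 := cnt a ha M q d hq1 hd.1.1 hd.2
        set N : ℝ := (((Icc 1 (M/q)).filter (fun b : ℕ => Nat.Coprime b (a.natAbs * d))).card : ℝ)
        set κ : ℝ := (Nat.totient a.natAbs : ℝ) / (a.natAbs : ℝ) with hκ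
        have h2 : lam d * ((n : ℝ) / (Nat.totient d : ℝ)) * N -
            (n : ℝ) * M * (κ / (q : ℝ) * (lam d / d)) =
            lam d * ((n : ℝ) / (Nat.totient d : ℝ)) *
              (N - (M : ℝ) / q * (κ * ((Nat.totient d : ℝ) / d))) := by
          field_simp
        have h3 : lam d * ((n : ℝ) / (Nat.totient d : ℝ)) *
              (N - (M : ℝ) / q * (κ * ((Nat.totient d : ℝ) / d))) ≤
            3 ^ om d * ((n : ℝ) / (Nat.totient d : ℝ)) *
              (2 * ((a.natAbs.divisors.card : ℝ) * d.divisors.card)) := by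
          refine (le_abs_self _).trans ?_
          rw [abs_mul, abs_mul, abs_of_nonneg (by positivity : 0 ≤ (n : ℝ) / (Nat.totient d : ℝ))]
          have := hl d
          gcongr
        have h4 : 3 ^ om d * ((n : ℝ) / (Nat.totient d : ℝ)) *
              (2 * ((a.natAbs.divisors.card : ℝ) * d.divisors.card)) =
            (n : ℝ) * (2 * (a.natAbs.divisors.card : ℝ) *
              ((3 : ℝ) ^ om d * d.divisors.card / Nat.totient d)) := by ring
        linarith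
      · simp only [mul_zero, zero_add]
        positivity
    refine (sum_le_sum e2).trans ?_
    rw [sum_add_distrib]
    refine add_le_add (le_of_eq rfl) ?_
    apply sum_le_sum_of_subset_of_nonneg (filter_subset _ _)
    intro d _ _
    positivity
  refine (sum_le_sum hq).trans ?_
  rw [sum_add_distrib, sum_const, nsmul_eq_mul, ← mul_sum]

theorem logb (ρ0 : ℝ) (hρ0 : 0 < ρ0) : ∃ C : ℝ, 0 < C ∧ ∀ X : ℝ, 3 ≤ X →
    X ^ (-ρ0) * (X ^ (ρ0 / 4) * (1 + Real.log X)) ≤ C / Real.log X ^ 3 := by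
  set ε : ℝ := ρ0 / 8 with hε
  have hε0 : 0 < ε := by positivity
  refine ⟨(1 + 1 / ε) * (1 / ε) ^ 3, by positivity, ?_⟩
  intro X hX
  have hX0 : 0 < X := by linarith
  have hl : 0 < Real.log X := Real.log_pos (by linarith)
  have h1 : Real.log X ≤ X ^ ε * (1 / ε) := by
    have := Real.log_le_rpow_div hX0.le hε0
    rw [mul_one_div]; exact this
  have h2 : 1 ≤ X ^ ε := Real.one_le_rpow (by linarith) hε0.le
  rw [le_div_iff₀ (by positivity)]
  have e1 : X ^ (-ρ0) * X ^ (ρ0 / 4) * (X ^ ε) ^ 4 = X ^ (-(ρ0 / 4)) := by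
    rw [← Real.rpow_natCast (X ^ ε) 4, ← Real.rpow_mul hX0.le, ← Real.rpow_add hX0,
      ← Real.rpow_add hX0]
    congr 1
    rw [hε]; push_cast; ring
  have e2 : X ^ (-(ρ0 / 4)) ≤ 1 := Real.rpow_le_one_of_one_le_of_nonpos (by linarith) (by linarith)
  calc X ^ (-ρ0) * (X ^ (ρ0 / 4) * (1 + Real.log X)) * Real.log X ^ 3
      ≤ X ^ (-ρ0) * (X ^ (ρ0 / 4) * (X ^ ε + X ^ ε * (1 / ε))) * (X ^ ε * (1 / ε)) ^ 3 := by
        gcongr
    _ = (X ^ (-ρ0) * X ^ (ρ0 / 4) * (X ^ ε) ^ 4) * ((1 + 1 / ε) * (1 / ε) ^ 3) := by ring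
    _ ≤ 1 * ((1 + 1 / ε) * (1 / ε) ^ 3) := by rw [e1]; gcongr
    _ = _ := one_mul _

theorem arith (Ec n P M u τ Sg C2 v C3 w : ℝ) (h0 : 0 ≤ Ec) (hEc : Ec ≤ M * u) (hn0 : 0 ≤ n)
    (hn : n ≤ P) (hτ : 0 ≤ τ) (hS : Sg ≤ C2 * v) (hS0 : 0 ≤ Sg) (huv : u * v ≤ C3 / w)
    (hC2 : 0 ≤ C2) (hM : 0 ≤ M) (hP : 0 ≤ P) (hv : 0 ≤ v) (hu : 0 ≤ u) :
    Ec * (n * (2 * τ * Sg)) ≤ 2 * τ * C2 * C3 * (M * P / w) := by
  calc Ec * (n * (2 * τ * Sg)) ≤ (M * u) * (P * (2 * τ * (C2 * v))) := by gcongr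
    _ = 2 * τ * C2 * (M * P) * (u * v) := by ring
    _ ≤ 2 * τ * C2 * (M * P) * (C3 / w) := by gcongr
    _ = _ := by ring

end Pool.Agent.H262R4.FR.TBT1
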