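import Pool.Agent.H262R4.FR.Stubs

/-!
FR project (helper262), final assembly BT, part a: elementary inequalities (helper488).
-/

namespace Pool.Agent.H262R4.FR.TBT

open Finset

/-- the condition on `r`: `a + q r` is a prime in `(Z, x]` -/
def Gc (a : ℤ) (x Z q r : ℕ) : Prop :=
  Int.gcd a r = 1 ∧ (Z : ℤ) < a + (q : ℤ) * r ∧ a + (q : ℤ) * r ≤ x ∧
    (a + (q : ℤ) * r).toNat.Prime

open Classical in
noncomputable def G (a : ℤ) (x Z q r : ℕ) : ℝ := if Gc a x Z q r then 1 else 0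

noncomputable def pn (a : ℤ) (q r : ℕ) : ℝ :=
  if 0 < a + (q : ℤ) * r ∧ (a + (q : ℤ) * r).toNat.Prime then 1 else 0

theorem G_nonneg (a : ℤ) (x Z q r : ℕ) : 0 ≤ G a x Z q r := by
  unfold G
  split_ifs <;> norm_num

theorem pn_nonneg (a : ℤ) (q r : ℕ) : 0 ≤ pn a q r := by
  unfold pn
  split_ifs <;> norm_num

theorem G_le_pn (a : ℤ) (x Z q r : ℕ) : G a x Z q r ≤ pn a q r := by
  unfold G
  split_ifs with h
  · unfold pn
    rw [if_pos ⟨lt_of_le_of_lt (Int.natCast_nonneg Z) h.2.1, h.2.2.2⟩]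
  · exact pn_nonneg _ _ _

theorem omW_nonneg (T : Finset ℕ) (n : ℕ) : 0 ≤ omW T n := by
  unfold omW
  positivity

/-- the number of primes is at most the number of `r` -/
theorem piq_le (a : ℤ) (ha0 : a ≠ 0) (x q Z R : ℕ) (hq : a.natAbs < q) (hZ : a.natAbs ≤ Z)
    (hR : x + a.natAbs < (R + 1) * q) :
    piq x q a ≤ 2 * (Z : ℝ) / q + 1 + ∑ r ∈ Icc 1 R, G a x Z q r := by
  classical
  have hq0 : 0 < q := by omega
  have hqz : (0 : ℤ) < q := by exact_mod_cast hq0
  have ha1 : a ≤ a.natAbs := Int.le_natAbs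
  have ha2 : -(a.natAbs : ℤ) ≤ a := by
    have := Int.le_natAbs (a := -a)
    rw [Int.natAbs_neg] at this
    omega
  have hqa : (a.natAbs : ℤ) < q := by exact_mod_cast hq
  have hsub : ((Icc 1 x).filter (fun p : ℕ => p.Prime ∧ (q : ℤ) ∣ (p : ℤ) - a)) ⊆
      (range ((Z + a.natAbs) / q + 1)).image (fun r : ℕ => (a + (q : ℤ) * r).toNat) ∪
      ((Icc 1 R).filter (fun r => Gc a x Z q r)).image (fun r : ℕ => (a + (q : ℤ) * r).toNat) := by
    intro p hp
    rw [mem_filter, mem_Icc] at hp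
    obtain ⟨⟨hp1, hpx⟩, hpp, t, ht⟩ := hp
    have hpt : (p : ℤ) = a + q * t := by omega
    have hp1' : (1 : ℤ) ≤ p := by exact_mod_cast hp1
    have ht0 : 0 ≤ t := by
      by_contra hneg
      have h1 : t ≤ -1 := by omega
      have h2 : (q : ℤ) * t ≤ q * (-1) := mul_le_mul_of_nonneg_left h1 hqz.le
      omega
    obtain ⟨r, rfl⟩ := Int.eq_ofNat_of_zero_le ht0
    have hpr : p = (a + (q : ℤ) * r).toNat := by
      have : (a + (q : ℤ) * r) = (p : ℤ) := hpt.symm
      rw [this, Int.toNat_natCast]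
    rw [mem_union]
    by_cases hpZ : p ≤ Z
    · left
      rw [mem_image]
      refine ⟨r, ?_, hpr.symm⟩
      rw [mem_range, Nat.lt_succ_iff, Nat.le_div_iff_mul_le hq0]
      have h3 : (q : ℤ) * r ≤ Z + a.natAbs := by
        have : (p : ℤ) ≤ Z := by exact_mod_cast hpZ
        omega
      have h4 : q * r ≤ Z + a.natAbs := by exact_mod_cast h3
      rw [mul_comm]
      exact h4
    · right
      rw [mem_image]
      refine ⟨r, ?_, hpr.symm⟩
      rw [mem_filter, mem_Icc]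
      have hpZ' : (Z : ℤ) < p := by exact_mod_cast not_le.mp hpZ
      have hpx' : (p : ℤ) ≤ x := by exact_mod_cast hpx
      have hr1 : 1 ≤ r := by
        rcases Nat.eq_zero_or_pos r with h | h
        · subst h
          have hZa : (a.natAbs : ℤ) ≤ Z := by exact_mod_cast hZ
          simp only [Nat.cast_zero, mul_zero, add_zero] at hpt
          omega
        · exact h
      have hrR : r ≤ R := by
        by_contra hlt
        have h5 : R + 1 ≤ r := by omega
        have h6 : (R + 1) * q ≤ r * q := Nat.mul_le_mul_right q h5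
        have h7 : (q : ℤ) * r ≤ x + a.natAbs := by
          have : (p : ℤ) = a + (q : ℤ) * r := hpt
          omega
        have h8 : q * r ≤ x + a.natAbs := by exact_mod_cast h7
        rw [mul_comm] at h8
        omega
      refine ⟨⟨hr1, hrR⟩, ?_, ?_, ?_, ?_⟩
      · -- gcd
        by_contra hg
        have hg0 : Int.gcd a r ≠ 1 := hg
        obtain ⟨ℓ, hℓ, hℓd⟩ := Nat.exists_prime_and_dvd hg0
        have h9 : (ℓ : ℤ) ∣ a := (Int.natCast_dvd_natCast.mpr hℓd).trans (Int.gcd_dvd_left _ _)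
        have h10 : (ℓ : ℤ) ∣ r := (Int.natCast_dvd_natCast.mpr hℓd).trans (Int.gcd_dvd_right _ _)
        have h11 : (ℓ : ℤ) ∣ p := by
          rw [hpt]
          exact dvd_add h9 (Dvd.dvd.mul_left h10 _)
        have h12 : ℓ ∣ p := Int.natCast_dvd_natCast.mp h11
        have h13 : ℓ = p := (Nat.prime_dvd_prime_iff_eq hℓ hpp).mp h12
        have h14 : ℓ ∣ a.natAbs := Int.natCast_dvd.mp h9
        have h15 : ℓ ≤ a.natAbs := Nat.le_of_dvd (Int.natAbs_pos.mpr ha0) h14
        omega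
      · show (Z : ℤ) < a + (q : ℤ) * r
        have : (p : ℤ) = a + (q : ℤ) * r := hpt
        omega
      · have : (p : ℤ) = a + (q : ℤ) * r := hpt
        omega
      · rw [← hpr]
        exact hpp
  have h1 := card_le_card hsub
  have h2 := card_union_le ((range ((Z + a.natAbs) / q + 1)).image
    (fun r : ℕ => (a + (q : ℤ) * r).toNat)) (((Icc 1 R).filter (fun r => Gc a x Z q r)).image
      (fun r : ℕ => (a + (q : ℤ) * r).toNat))
  have h3 : ((range ((Z + a.natAbs) / q + 1)).image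
    (fun r : ℕ => (a + (q : ℤ) * r).toNat)).card ≤ (Z + a.natAbs) / q + 1 := by
    refine card_image_le.trans ?_
    rw [card_range]
  have h4 : (((Icc 1 R).filter (fun r => Gc a x Z q r)).image
      (fun r : ℕ => (a + (q : ℤ) * r).toNat)).card ≤ ((Icc 1 R).filter (fun r => Gc a x Z q r)).card :=
    card_image_le
  have h5 : ((Icc 1 x).filter (fun p : ℕ => p.Prime ∧ (q : ℤ) ∣ (p : ℤ) - a)).card ≤
      ((Z + a.natAbs) / q + 1) + ((Icc 1 R).filter (fun r => Gc a x Z q r)).card := by omega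
  have h6 : (((Icc 1 R).filter (fun r => Gc a x Z q r)).card : ℝ) = ∑ r ∈ Icc 1 R, G a x Z q r := by
    unfold G
    rw [← sum_filter, sum_const, nsmul_eq_mul, mul_one]
  have hqr : (0 : ℝ) < q := by exact_mod_cast hq0
  have h7 : (((Z + a.natAbs) / q : ℕ) : ℝ) ≤ 2 * (Z : ℝ) / q := by
    refine Nat.cast_div_le.trans ?_
    have : (a.natAbs : ℝ) ≤ Z := by exact_mod_cast hZ
    push_cast
    apply div_le_div_of_nonneg_right _ hqr.le
    linarith
  unfold piq
  have h8 : (((Icc 1 x).filter (fun p : ℕ => p.Prime ∧ (q : ℤ) ∣ (p : ℤ) - a)).card : ℝ) ≤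
      (((Z + a.natAbs) / q : ℕ) : ℝ) + 1 +
        (((Icc 1 R).filter (fun r => Gc a x Z q r)).card : ℝ) := by
    exact_mod_cast h5
  rw [h6] at h8
  linarith

/-- splitting with `ω_T(r) / L` -/
theorem piq_le2 (a : ℤ) (ha0 : a ≠ 0) (x q Z R : ℕ) (T : Finset ℕ) (L : ℝ) (hL : 0 < L)
    (hq : a.natAbs < q) (hZ : a.natAbs ≤ Z) (hR : x + a.natAbs < (R + 1) * q) :
    piq x q a ≤ 2 * (Z : ℝ) / q + 1 + (1 / L) * ∑ r ∈ Icc 1 R, |omW T r - L| * pn a q r +
      (1 / L) * ∑ r ∈ Icc 1 R, omW T r * G a x Z q r := by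
  refine (piq_le a ha0 x q Z R hq hZ hR).trans ?_
  rw [add_assoc (2 * (Z : ℝ) / q + 1), mul_sum, mul_sum, ← sum_add_distrib]
  refine add_le_add le_rfl (sum_le_sum fun r _ => ?_)
  have h1 : 1 ≤ (1 / L) * |omW T r - L| + (1 / L) * omW T r := by
    rw [← mul_add, one_div, ← div_eq_inv_mul, le_div_iff₀ hL, one_mul]
    have := neg_abs_le (omW T r - L)
    linarith
  have h2 := G_nonneg a x Z q r
  have h3 := G_le_pn a x Z q r
  have h4 : 0 ≤ (1 / L) * |omW T r - L| := by positivity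
  calc G a x Z q r = 1 * G a x Z q r := (one_mul _).symm
    _ ≤ ((1 / L) * |omW T r - L| + (1 / L) * omW T r) * G a x Z q r :=
        mul_le_mul_of_nonneg_right h1 h2
    _ = (1 / L) * |omW T r - L| * G a x Z q r + 1 / L * (omW T r * G a x Z q r) := by ring
    _ ≤ (1 / L) * |omW T r - L| * pn a q r + 1 / L * (omW T r * G a x Z q r) := by
        refine add_le_add (mul_le_mul_of_nonneg_left h3 h4) le_rfl
    _ = _ := by ring

/-- one block of primes and the sieve -/
theorem block_le (a : ℤ) (x q Z s R P P' M : ℕ) (lam : ℕ → ℝ) (hq : a.natAbs < q)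
    (hP : 1 ≤ P) (hM : x + a.natAbs < (M + 1) * P) (hlam : Sel Z s lam) :
    ∑ r ∈ Icc 1 R, omW (Pr P P') r * G a x Z q r ≤
      ∑ b ∈ (Icc 1 (M / q)).filter (fun b : ℕ => Int.gcd a b = 1), ∑ p ∈ Pr P P',
        ∑ d ∈ Icc 1 (Z ^ 2), if (d : ℤ) ∣ a + q * b * p then lam d else 0 := by
  classical
  have hq0 : 0 < q := by omega
  have hqz : (0 : ℤ) < q := by exact_mod_cast hq0
  have ha1 : a ≤ a.natAbs := Int.le_natAbs
  have ha2 : -(a.natAbs : ℤ) ≤ a := by
    have := Int.le_natAbs (a := -a)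
    rw [Int.natAbs_neg] at this
    omega
  have hqa : (a.natAbs : ℤ) < q := by exact_mod_cast hq
  have homW : ∀ r, omW (Pr P P') r = ∑ p ∈ Pr P P', if p ∣ r then (1 : ℝ) else 0 := by
    intro r
    unfold omW
    rw [← sum_filter, sum_const, nsmul_eq_mul, mul_one]
  rw [sum_comm (s := (Icc 1 (M / q)).filter (fun b : ℕ => Int.gcd a b = 1))]
  have hL : ∑ r ∈ Icc 1 R, omW (Pr P P') r * G a x Z q r =
      ∑ p ∈ Pr P P', ∑ r ∈ Icc 1 R, (if p ∣ r then (1 : ℝ) else 0) * G a x Z q r := by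
    rw [sum_comm]
    refine sum_congr rfl fun r _ => ?_
    rw [homW, sum_mul]
  rw [hL]
  refine sum_le_sum fun p hp => ?_
  have hp' : (P < p ∧ p ≤ P') ∧ p.Prime := by
    unfold Pr at hp
    rw [mem_filter, mem_Ioc] at hp
    exact hp
  set B := (Icc 1 (M / q)).filter (fun b : ℕ => Int.gcd a b = 1) with hB
  have h1 : ∑ r ∈ Icc 1 R, (if p ∣ r then (1 : ℝ) else 0) * G a x Z q r =
      (((Icc 1 R).filter (fun r => p ∣ r ∧ Gc a x Z q r)).card : ℝ) := by
    have : ∀ r ∈ Icc 1 R, (if p ∣ r then (1 : ℝ) else 0) * G a x Z q r =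
        if (p ∣ r ∧ Gc a x Z q r) then (1 : ℝ) else 0 := by
      intro r _
      unfold G
      by_cases h1 : p ∣ r
      · by_cases h2 : Gc a x Z q r
        · rw [if_pos h1, if_pos h2, if_pos ⟨h1, h2⟩, mul_one]
        · rw [if_pos h1, if_neg h2, if_neg (fun h => h2 h.2), mul_zero]
      · rw [if_neg h1, zero_mul, if_neg (fun h => h1 h.1)]
    rw [sum_congr rfl this, ← sum_filter, sum_const, nsmul_eq_mul, mul_one]
  rw [h1]
  have hsub : ((Icc 1 R).filter (fun r => p ∣ r ∧ Gc a x Z q r)) ⊆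
      (B.filter (fun b : ℕ => (Z : ℤ) < a + (q : ℤ) * b * p ∧
        (a + (q : ℤ) * b * p).toNat.Prime)).image (fun b => p * b) := by
    intro r hr
    rw [mem_filter, mem_Icc] at hr
    obtain ⟨⟨hr1, _⟩, ⟨b, hb⟩, hg, hZr, hxr, hpr⟩ := hr
    subst hb
    rw [mem_image]
    refine ⟨b, ?_, rfl⟩
    have hb1 : 1 ≤ b := by
      rcases Nat.eq_zero_or_pos b with h | h
      · subst h
        simp at hr1
      · exact h
    have hcast : a + (q : ℤ) * ((p * b : ℕ) : ℤ) = a + (q : ℤ) * b * p := by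
      push_cast
      ring
    rw [hcast] at hZr hxr hpr
    rw [mem_filter, hB, mem_filter, mem_Icc]
    refine ⟨⟨⟨hb1, ?_⟩, ?_⟩, hZr, hpr⟩
    · rw [Nat.le_div_iff_mul_le hq0]
      by_contra hlt
      have h5 : M + 1 ≤ b * q := by omega
      have h6 : (M + 1) * P ≤ (b * q) * p := Nat.mul_le_mul h5 hp'.1.1.le
      have h7 : (q : ℤ) * b * p ≤ x + a.natAbs := by omega
      have h8 : q * b * p ≤ x + a.natAbs := by exact_mod_cast h7
      have h9 : b * q * p = q * b * p := by ring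
      omega
    · have hgd : Int.gcd a b ∣ Int.gcd a ((p * b : ℕ) : ℤ) := by
        rw [Nat.cast_mul]
        exact Int.gcd_dvd_gcd_mul_left_right _ _ _
      rw [hg] at hgd
      exact Nat.dvd_one.mp hgd
  have h2 : (((Icc 1 R).filter (fun r => p ∣ r ∧ Gc a x Z q r)).card : ℝ) ≤
      ((B.filter (fun b : ℕ => (Z : ℤ) < a + (q : ℤ) * b * p ∧
        (a + (q : ℤ) * b * p).toNat.Prime)).card : ℝ) := by
    exact_mod_cast (card_le_card hsub).trans card_image_le
  refine h2.trans ?_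
  have h3 : ((B.filter (fun b : ℕ => (Z : ℤ) < a + (q : ℤ) * b * p ∧
        (a + (q : ℤ) * b * p).toNat.Prime)).card : ℝ) =
      ∑ b ∈ B, if ((Z : ℤ) < a + (q : ℤ) * b * p ∧
        (a + (q : ℤ) * b * p).toNat.Prime) then (1 : ℝ) else 0 := by
    rw [← sum_filter, sum_const, nsmul_eq_mul, mul_one]
  rw [h3]
  refine sum_le_sum fun b hb => ?_
  rw [hB, mem_filter, mem_Icc] at hb
  split_ifs with h
  · have h4 := hlam.prime (a + (q : ℤ) * b * p).toNat h.2 (by
      have : (Z : ℤ) < ((a + (q : ℤ) * b * p).toNat : ℤ) := by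
        rw [Int.toNat_of_nonneg (by omega)]
        exact h.1
      exact_mod_cast this)
    rw [Int.toNat_of_nonneg (by omega)] at h4
    exact h4.ge
  · refine hlam.nonneg _ ?_
    have h5 : (1 : ℤ) ≤ b := by exact_mod_cast hb.1.1
    have h6 : (1 : ℤ) ≤ p := by exact_mod_cast hp'.2.one_lt.le
    have h7 : (q : ℤ) ≤ q * b * p := by
      have h8 : (q : ℤ) * 1 ≤ q * (b * p) := mul_le_mul_of_nonneg_left (by nlinarith) hqz.le
      rw [mul_one, ← mul_assoc] at h8
      exact h8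
    omega

end Pool.Agent.H262R4.FR.TBT
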