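import Pool.Agent.H262R4.FR.BTa

/-!
FR project (helper262), final assembly BT, part b: blocks of primes, classes of moduli (helper488).
-/

namespace Pool.Agent.H262R4.FR.TBT

open Finset

/-- the ends of the blocks -/
noncomputable def Bk (κ : ℝ) (P0 P' k : ℕ) : ℕ := min (max ⌊(1 + κ) ^ k⌋₊ P0) P'

theorem Bk_mono {κ : ℝ} (hκ : 0 ≤ κ) (P0 P' : ℕ) : Monotone (Bk κ P0 P') := by
  intro i j hij
  unfold Bk
  have h1 : (1 + κ) ^ i ≤ (1 + κ) ^ j := pow_le_pow_right₀ (by linarith) hij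
  exact min_le_min (max_le_max (Nat.floor_mono h1) le_rfl) le_rfl

theorem Bk_zero {κ : ℝ} {P0 P' : ℕ} (h1 : 1 ≤ P0) (h : P0 ≤ P') : Bk κ P0 P' 0 = P0 := by
  unfold Bk
  rw [pow_zero, Nat.floor_one, max_eq_right h1, min_eq_left h]

theorem Bk_last {κ : ℝ} {P0 P' N : ℕ} (h : (P' : ℝ) ≤ (1 + κ) ^ N) : Bk κ P0 P' N = P' := by
  unfold Bk
  apply min_eq_right
  exact le_max_of_le_left (Nat.le_floor h)

theorem Bk_ge (κ : ℝ) {P0 P' : ℕ} (h : P0 ≤ P') (k : ℕ) : P0 ≤ Bk κ P0 P' k := by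
  unfold Bk
  exact le_min (le_max_right _ _) h

theorem Bk_le (κ : ℝ) (P0 P' k : ℕ) : Bk κ P0 P' k ≤ P' := min_le_right _ _

theorem Bk_succ_le {κ : ℝ} (hκ : 0 ≤ κ) (P0 P' k : ℕ) :
    (Bk κ P0 P' (k + 1) : ℝ) ≤ (1 + κ) * ((Bk κ P0 P' k : ℝ) + 1) := by
  have hstep : ∀ B : ℝ, 0 ≤ B → B ≤ (1 + κ) * (B + 1) := by
    intro B hB
    nlinarith
  rcases le_total P' (max ⌊(1 + κ) ^ k⌋₊ P0) with h | h
  · have h1 : Bk κ P0 P' k = P' := min_eq_right h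
    have h2 : (Bk κ P0 P' (k + 1) : ℝ) ≤ P' := by exact_mod_cast Bk_le κ P0 P' (k + 1)
    rw [h1]
    exact h2.trans (hstep _ (Nat.cast_nonneg _))
  · have h1 : Bk κ P0 P' k = max ⌊(1 + κ) ^ k⌋₊ P0 := min_eq_left h
    have h2 : Bk κ P0 P' (k + 1) ≤ max ⌊(1 + κ) ^ (k + 1)⌋₊ P0 := min_le_left _ _
    have h3 : (Bk κ P0 P' (k + 1) : ℝ) ≤ ((max ⌊(1 + κ) ^ (k + 1)⌋₊ P0 : ℕ) : ℝ) := by
      exact_mod_cast h2
    refine h3.trans ?_
    rw [h1, Nat.cast_max]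
    have h4 : (⌊(1 + κ) ^ k⌋₊ : ℝ) ≤ ((max ⌊(1 + κ) ^ k⌋₊ P0 : ℕ) : ℝ) := by
      exact_mod_cast le_max_left _ _
    have h5 : (P0 : ℝ) ≤ ((max ⌊(1 + κ) ^ k⌋₊ P0 : ℕ) : ℝ) := by
      exact_mod_cast le_max_right _ _
    apply max_le
    · have h6 : (⌊(1 + κ) ^ (k + 1)⌋₊ : ℝ) ≤ (1 + κ) ^ (k + 1) :=
        Nat.floor_le (by positivity)
      have h7 : (1 + κ) ^ k < (⌊(1 + κ) ^ k⌋₊ : ℝ) + 1 := Nat.lt_floor_add_one _
      have h8 : (1 + κ) ^ (k + 1) = (1 + κ) * (1 + κ) ^ k := by ring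
      refine (h6.trans_eq h8).trans ?_
      apply mul_le_mul_of_nonneg_left _ (by linarith)
      linarith
    · exact h5.trans (hstep _ (Nat.cast_nonneg _))

theorem sum_blocks (B : ℕ → ℕ) (hB : Monotone B) (f : ℕ → ℝ) (N : ℕ) :
    ∑ k ∈ range N, ∑ p ∈ Pr (B k) (B (k + 1)), f p = ∑ p ∈ Pr (B 0) (B N), f p := by
  induction N with
  | zero => simp [Pr]
  | succ N ih =>
    rw [sum_range_succ, ih]
    unfold Pr
    rw [sum_filter, sum_filter, sum_filter]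
    rw [Finset.sum_Ioc_consecutive _ (hB (Nat.zero_le N)) (hB (Nat.le_succ N))]

theorem omW_eq (T : Finset ℕ) (r : ℕ) : omW T r = ∑ p ∈ T, if p ∣ r then (1 : ℝ) else 0 := by
  unfold omW
  rw [← sum_filter, sum_const, nsmul_eq_mul, mul_one]

theorem omW_blocks (B : ℕ → ℕ) (hB : Monotone B) (N r : ℕ) :
    omW (Pr (B 0) (B N)) r = ∑ k ∈ range N, omW (Pr (B k) (B (k + 1))) r := by
  rw [omW_eq, ← sum_blocks B hB _ N]
  exact sum_congr rfl fun k _ => (omW_eq _ _).symm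

theorem mass_nonneg (T : Finset ℕ) : 0 ≤ mass T := by
  unfold mass
  exact sum_nonneg fun p _ => by positivity

theorem mass_blocks {κ : ℝ} (hκ : 0 ≤ κ) {P0 P' : ℕ} (h1 : 1 ≤ P0) (hκP : 1 ≤ κ * P0)
    (h : P0 ≤ P') {N : ℕ} (hN : (P' : ℝ) ≤ (1 + κ) ^ N) (X : ℕ) :
    ∑ k ∈ range N, ((Pr (Bk κ P0 P' k) (Bk κ P0 P' (k + 1))).card : ℝ) *
      ((X / Bk κ P0 P' k : ℕ) : ℝ) ≤ (X : ℝ) * (1 + κ) ^ 2 * mass (Pr P0 P') := by
  have hB := Bk_mono hκ P0 P'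
  have h0 : mass (Pr P0 P') =
      ∑ k ∈ range N, ∑ p ∈ Pr (Bk κ P0 P' k) (Bk κ P0 P' (k + 1)), 1 / (p : ℝ) := by
    rw [sum_blocks _ hB, Bk_zero h1 h, Bk_last hN]
    rfl
  rw [h0, mul_sum]
  refine sum_le_sum fun k _ => ?_
  rw [mul_sum]
  have hB0 : P0 ≤ Bk κ P0 P' k := Bk_ge κ h k
  have hBpos : (0 : ℝ) < Bk κ P0 P' k := by
    have : 1 ≤ Bk κ P0 P' k := h1.trans hB0
    exact_mod_cast this
  rw [← nsmul_eq_mul, ← sum_const]
  refine sum_le_sum fun p hp => ?_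
  unfold Pr at hp
  rw [mem_filter, mem_Ioc] at hp
  have hp0 : (0 : ℝ) < p := by exact_mod_cast hp.2.pos
  have h2 : (p : ℝ) ≤ Bk κ P0 P' (k + 1) := by exact_mod_cast hp.1.2
  have h3 := Bk_succ_le hκ P0 P' k
  have h4 : (1 : ℝ) ≤ κ * Bk κ P0 P' k := by
    refine hκP.trans ?_
    apply mul_le_mul_of_nonneg_left _ hκ
    exact_mod_cast hB0
  have h5 : (p : ℝ) ≤ (1 + κ) ^ 2 * Bk κ P0 P' k := by
    refine h2.trans (h3.trans ?_)
    have h6 : (Bk κ P0 P' k : ℝ) + 1 ≤ (1 + κ) * Bk κ P0 P' k := by linarith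
    calc (1 + κ) * ((Bk κ P0 P' k : ℝ) + 1) ≤ (1 + κ) * ((1 + κ) * Bk κ P0 P' k) :=
          mul_le_mul_of_nonneg_left h6 (by linarith)
      _ = (1 + κ) ^ 2 * Bk κ P0 P' k := by ring
  have h7 : ((X / Bk κ P0 P' k : ℕ) : ℝ) ≤ (X : ℝ) / Bk κ P0 P' k := Nat.cast_div_le
  refine h7.trans ?_
  rw [mul_one_div, div_le_div_iff₀ hBpos hp0, mul_assoc]
  exact mul_le_mul_of_nonneg_left h5 (Nat.cast_nonneg _)

/-- the smooth part of the radical -/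
noncomputable def sc (y h : ℕ) : ℕ := ∏ p ∈ h.primeFactors.filter (fun p => p ≤ y), p

theorem sc_pos (y h : ℕ) : 1 ≤ sc y h := by
  unfold sc
  exact Nat.one_le_iff_ne_zero.mpr (prod_ne_zero_iff.mpr fun p hp =>
    (Nat.prime_of_mem_primeFactors (mem_of_mem_filter p hp)).ne_zero)

theorem sc_dvd (y h : ℕ) : sc y h ∣ h := by
  unfold sc
  exact (prod_dvd_prod_of_subset _ _ _ (filter_subset _ _)).trans (Nat.prod_primeFactors_dvd h)

theorem sc_mem (y h : ℕ) : sc y h ∈ (powerset (range (y + 1))).image (fun A => ∏ p ∈ A, p) := by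
  rw [mem_image]
  refine ⟨h.primeFactors.filter (fun p => p ≤ y), ?_, rfl⟩
  rw [mem_powerset]
  intro p hp
  rw [mem_filter] at hp
  rw [mem_range]
  omega

theorem prime_dvd_sc {y h p : ℕ} (hp : p ∈ h.primeFactors) : p ∣ sc y h ↔ p ≤ y := by
  constructor
  · intro hd
    have hpp := Nat.prime_of_mem_primeFactors hp
    unfold sc at hd
    obtain ⟨p', hp', hd'⟩ := (Prime.dvd_finsetProd_iff hpp.prime _).mp hd
    rw [mem_filter] at hp'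
    have := (Nat.prime_dvd_prime_iff_eq hpp (Nat.prime_of_mem_primeFactors hp'.1)).mp hd'
    rw [this]
    exact hp'.2
  · intro hy
    unfold sc
    exact dvd_prod_of_mem _ (mem_filter.mpr ⟨hp, hy⟩)

theorem filter_eq (A y q : ℕ) (hA0 : A ≠ 0) (hq0 : q ≠ 0) (hA : A ≤ y) :
    (q * A).primeFactors.filter (fun p => ¬ p ∣ sc y (q * A)) =
      q.primeFactors.filter (fun p => y < p) := by
  ext p
  rw [mem_filter, mem_filter]
  constructor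
  · rintro ⟨h1, h2⟩
    rw [prime_dvd_sc h1] at h2
    refine ⟨?_, not_le.mp h2⟩
    rw [Nat.mem_primeFactors] at h1 ⊢
    refine ⟨h1.1, ?_, hq0⟩
    rcases (Nat.Prime.dvd_mul h1.1).mp h1.2.1 with h | h
    · exact h
    · have := Nat.le_of_dvd (Nat.pos_of_ne_zero hA0) h
      omega
  · rintro ⟨h1, h2⟩
    have h3 : p ∈ (q * A).primeFactors := by
      rw [Nat.mem_primeFactors] at h1 ⊢
      exact ⟨h1.1, h1.2.1.mul_right A, mul_ne_zero hq0 hA0⟩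
    refine ⟨h3, ?_⟩
    rw [prime_dvd_sc h3]
    omega

theorem ratio_mono {s h : ℕ} (hd : s ∣ h) (hh : h ≠ 0) :
    (s : ℝ) / Nat.totient s ≤ (h : ℝ) / Nat.totient h := by
  have hs : s ≠ 0 := by
    intro h0
    rw [h0] at hd
    exact hh (zero_dvd_iff.mp hd)
  have key : ∀ n : ℕ, n ≠ 0 → (n : ℝ) / Nat.totient n =
      ∏ p ∈ n.primeFactors, (1 - (p : ℝ)⁻¹)⁻¹ := by
    intro n hn
    have h1 := Nat.totient_eq_mul_prod_factors n
    have h2 : (Nat.totient n : ℝ) = n * ∏ p ∈ n.primeFactors, (1 - (p : ℝ)⁻¹) := by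
      have := congrArg (fun t : ℚ => (t : ℝ)) h1
      push_cast at this
      exact this
    have hn' : (n : ℝ) ≠ 0 := by exact_mod_cast hn
    rw [h2, prod_inv_distrib, div_mul_eq_div_div, div_self hn', one_div]
  rw [key s hs, key h hh]
  have hsub : s.primeFactors ⊆ h.primeFactors := Nat.primeFactors_mono hd hh
  have hge : ∀ p ∈ h.primeFactors, 1 ≤ (1 - (p : ℝ)⁻¹)⁻¹ := by
    intro p hp
    have hp2 : (2 : ℝ) ≤ p := by exact_mod_cast (Nat.prime_of_mem_primeFactors hp).two_le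
    have h3 : (p : ℝ)⁻¹ ≤ 1 / 2 := by
      rw [← one_div]
      exact one_div_le_one_div_of_le (by norm_num) hp2
    have h4 : 0 < (p : ℝ)⁻¹ := by positivity
    rw [one_le_inv₀ (by linarith)]
    linarith
  rw [← prod_sdiff hsub]
  have h5 : 1 ≤ ∏ p ∈ h.primeFactors \ s.primeFactors, (1 - (p : ℝ)⁻¹)⁻¹ := by
    have : ∀ p ∈ h.primeFactors \ s.primeFactors, 1 ≤ (1 - (p : ℝ)⁻¹)⁻¹ :=
      fun p hp => hge p (mem_sdiff.mp hp).1
    calc (1 : ℝ) = ∏ p ∈ h.primeFactors \ s.primeFactors, (1 : ℝ) := by simp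
      _ ≤ _ := prod_le_prod (fun _ _ => zero_le_one) this
  have h6 : 0 ≤ ∏ p ∈ s.primeFactors, (1 - (p : ℝ)⁻¹)⁻¹ :=
    prod_nonneg fun p hp => zero_le_one.trans (hge p (hsub hp))
  exact le_mul_of_one_le_left h6 h5

theorem tot_le (A y q : ℕ) (hA0 : A ≠ 0) (hq0 : q ≠ 0) (hc : Nat.Coprime A q) :
    ((Nat.totient A : ℝ) / (A : ℝ)) / (q : ℝ) *
      ((sc y (q * A) : ℝ) / Nat.totient (sc y (q * A))) ≤ 1 / Nat.totient q := by
  have h1 := ratio_mono (sc_dvd y (q * A)) (mul_ne_zero hq0 hA0)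
  have hA' : (0 : ℝ) < A := by exact_mod_cast Nat.pos_of_ne_zero hA0
  have hq' : (0 : ℝ) < q := by exact_mod_cast Nat.pos_of_ne_zero hq0
  have hA1 : (0 : ℝ) < Nat.totient A := by
    exact_mod_cast Nat.totient_pos.mpr (Nat.pos_of_ne_zero hA0)
  have hq1 : (0 : ℝ) < Nat.totient q := by
    exact_mod_cast Nat.totient_pos.mpr (Nat.pos_of_ne_zero hq0)
  have h2 : ((Nat.totient A : ℝ) / (A : ℝ)) / (q : ℝ) *
      (((q * A : ℕ) : ℝ) / Nat.totient (q * A)) = 1 / Nat.totient q := by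
    rw [Nat.totient_mul hc.symm]
    push_cast
    field_simp
  rw [← h2]
  exact mul_le_mul_of_nonneg_left h1 (by positivity)

end Pool.Agent.H262R4.FR.TBT
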