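import Pool.Agent.H262R4.FR.BTb

/-!
FR project (helper262), final assembly BT, part c: the core inequality (helper488).
-/

namespace Pool.Agent.H262R4.FR.TBT

open Finset

/-- the main term for one modulus -/
theorem one_mod (a : ℤ) (ha0 : a ≠ 0) (y Z q : ℕ) (ε1 : ℝ) (lam : ℕ → ℝ) (hZ : 2 ≤ Z)
    (hya : a.natAbs ≤ y) (hq0 : q ≠ 0) (hg : Int.gcd a q = 1)
    (hpr : ∏ p ∈ q.primeFactors.filter (fun p => y < p), (1 + 1 / ((p : ℝ) - 1)) ^ 2 ≤ 1 + ε1)
    (hlam : Sel Z (sc y (q * a.natAbs)) lam) :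
    ((Nat.totient a.natAbs : ℝ) / (a.natAbs : ℝ)) / (q : ℝ) *
        ∑ d ∈ (Icc 1 (Z ^ 2)).filter (fun d => Nat.Coprime d (q * a.natAbs)), lam d / d ≤
      ((1 + ε1) / Real.log Z) * (1 / (Nat.totient q : ℝ)) := by
  have hA0 : a.natAbs ≠ 0 := Int.natAbs_ne_zero.mpr ha0
  have h1 := hlam.main (q * a.natAbs) (Nat.one_le_iff_ne_zero.mpr (mul_ne_zero hq0 hA0))
  rw [filter_eq a.natAbs y q hA0 hq0 hya] at h1
  have hlog : 0 < Real.log Z := Real.log_pos (by exact_mod_cast hZ)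
  have h2 : 0 ≤ ((Nat.totient a.natAbs : ℝ) / (a.natAbs : ℝ)) / (q : ℝ) := by positivity
  have hc : Nat.Coprime a.natAbs q := by
    have : Int.gcd a q = Nat.gcd a.natAbs q := by
      unfold Int.gcd
      rw [Int.natAbs_natCast]
    rw [this] at hg
    exact hg
  have h3 := tot_le a.natAbs y q hA0 hq0 hc
  set w : ℝ := (sc y (q * a.natAbs) : ℝ) / Nat.totient (sc y (q * a.natAbs)) with hw
  have hw0 : 0 ≤ w := by positivity
  calc ((Nat.totient a.natAbs : ℝ) / (a.natAbs : ℝ)) / (q : ℝ) *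
        ∑ d ∈ (Icc 1 (Z ^ 2)).filter (fun d => Nat.Coprime d (q * a.natAbs)), lam d / d
      ≤ ((Nat.totient a.natAbs : ℝ) / (a.natAbs : ℝ)) / (q : ℝ) *
        (w / Real.log Z *
          ∏ p ∈ q.primeFactors.filter (fun p => y < p), (1 + 1 / ((p : ℝ) - 1)) ^ 2) :=
        mul_le_mul_of_nonneg_left h1 h2
    _ ≤ ((Nat.totient a.natAbs : ℝ) / (a.natAbs : ℝ)) / (q : ℝ) *
        (w / Real.log Z * (1 + ε1)) := by
        refine mul_le_mul_of_nonneg_left (mul_le_mul_of_nonneg_left hpr ?_) h2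
        positivity
    _ = (((Nat.totient a.natAbs : ℝ) / (a.natAbs : ℝ)) / (q : ℝ) * w) * ((1 + ε1) / Real.log Z) := by
        ring
    _ ≤ (1 / (Nat.totient q : ℝ)) * ((1 + ε1) / Real.log Z) := by
        refine mul_le_mul_of_nonneg_right h3 ?_
        refine div_nonneg ?_ hlog.le
        refine le_trans ?_ hpr
        exact prod_nonneg fun p _ => sq_nonneg _
    _ = _ := mul_comm _ _

theorem card_classes (y : ℕ) :
    (((powerset (range (y + 1))).image (fun A => ∏ p ∈ A, p)).card : ℝ) ≤ 2 ^ (y + 1) := by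
  have h1 : ((powerset (range (y + 1))).image (fun A => ∏ p ∈ A, p)).card ≤ 2 ^ (y + 1) := by
    refine card_image_le.trans ?_
    rw [card_powerset, card_range]
  exact_mod_cast h1

theorem core (a : ℤ) (ha0 : a ≠ 0) (x Z R y P0 P' N : ℕ) (κ ε1 Er : ℝ) (E1 : Finset ℕ)
    (lam : ℕ → ℕ → ℝ) (hκ : 0 ≤ κ) (hZ : 2 ≤ Z) (hEr : 0 ≤ Er)
    (hP0 : 1 ≤ P0) (hκP : 1 ≤ κ * P0) (hPP : P0 ≤ P') (hN : (P' : ℝ) ≤ (1 + κ) ^ N)
    (hya : a.natAbs ≤ y) (hε1 : 0 ≤ ε1)
    (hE : ∀ q ∈ E1, a.natAbs < q ∧ Int.gcd a q = 1 ∧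
      ∏ p ∈ q.primeFactors.filter (fun p => y < p), (1 + 1 / ((p : ℝ) - 1)) ^ 2 ≤ 1 + ε1)
    (hlam : ∀ s, 1 ≤ s → Sel Z s (lam s))
    (hBT : ∀ k s, k < N → 1 ≤ s → ∀ E : Finset ℕ, E ⊆ E1 →
      ∑ q ∈ E, ∑ b ∈ (Icc 1 (((x + a.natAbs) / Bk κ P0 P' k) / q)).filter
        (fun b : ℕ => Int.gcd a b = 1), ∑ p ∈ Pr (Bk κ P0 P' k) (Bk κ P0 P' (k + 1)),
        ∑ d ∈ Icc 1 (Z ^ 2), (if (d : ℤ) ∣ a + q * b * p then lam s d else 0) ≤
      ((Pr (Bk κ P0 P' k) (Bk κ P0 P' (k + 1))).card : ℝ) *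
        (((x + a.natAbs) / Bk κ P0 P' k : ℕ) : ℝ) * (∑ q ∈ E,
        ((Nat.totient a.natAbs : ℝ) / (a.natAbs : ℝ)) / (q : ℝ) *
        ∑ d ∈ (Icc 1 (Z ^ 2)).filter (fun d => Nat.Coprime d (q * a.natAbs)), lam s d / d) + Er) :
    ∑ q ∈ E1, ∑ r ∈ Icc 1 R, omW (Pr P0 P') r * G a x Z q r ≤
      ((1 + ε1) / Real.log Z) * (∑ q ∈ E1, 1 / (Nat.totient q : ℝ)) *
        (((x + a.natAbs : ℕ) : ℝ) * (1 + κ) ^ 2 * mass (Pr P0 P')) + N * (2 ^ (y + 1) * Er) := by
  classical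
  have hB := Bk_mono hκ P0 P'
  have hlog : 0 < Real.log Z := Real.log_pos (by exact_mod_cast hZ)
  set Φ : ℝ := ∑ q ∈ E1, 1 / (Nat.totient q : ℝ) with hΦ
  have hΦ0 : 0 ≤ Φ := sum_nonneg fun q _ => by positivity
  have hc0 : 0 ≤ (1 + ε1) / Real.log Z := by positivity
  have hsplit : ∑ q ∈ E1, ∑ r ∈ Icc 1 R, omW (Pr P0 P') r * G a x Z q r =
      ∑ k ∈ range N, ∑ q ∈ E1, ∑ r ∈ Icc 1 R,
        omW (Pr (Bk κ P0 P' k) (Bk κ P0 P' (k + 1))) r * G a x Z q r := by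
    rw [sum_comm (s := range N)]
    refine sum_congr rfl fun q _ => ?_
    rw [sum_comm (s := range N)]
    refine sum_congr rfl fun r _ => ?_
    rw [← sum_mul, ← omW_blocks _ hB N r, Bk_zero hP0 hPP, Bk_last hN]
  rw [hsplit]
  set Sset := (powerset (range (y + 1))).image (fun A => ∏ p ∈ A, p) with hSset
  have hblock : ∀ k ∈ range N, ∑ q ∈ E1, ∑ r ∈ Icc 1 R,
        omW (Pr (Bk κ P0 P' k) (Bk κ P0 P' (k + 1))) r * G a x Z q r ≤
      ((Pr (Bk κ P0 P' k) (Bk κ P0 P' (k + 1))).card : ℝ) *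
        (((x + a.natAbs) / Bk κ P0 P' k : ℕ) : ℝ) * (((1 + ε1) / Real.log Z) * Φ) +
        2 ^ (y + 1) * Er := by
    intro k hk
    rw [mem_range] at hk
    set nM : ℝ := ((Pr (Bk κ P0 P' k) (Bk κ P0 P' (k + 1))).card : ℝ) *
        (((x + a.natAbs) / Bk κ P0 P' k : ℕ) : ℝ) with hnM
    have hnM0 : 0 ≤ nM := by positivity
    have hBk1 : 1 ≤ Bk κ P0 P' k := hP0.trans (Bk_ge κ hPP k)
    rw [← sum_fiberwise_of_maps_to (s := E1) (t := Sset) (g := fun q => sc y (q * a.natAbs))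
      (fun q _ => sc_mem y _)]
    have hs : ∀ s ∈ Sset, ∑ q ∈ E1.filter (fun q => sc y (q * a.natAbs) = s), ∑ r ∈ Icc 1 R,
        omW (Pr (Bk κ P0 P' k) (Bk κ P0 P' (k + 1))) r * G a x Z q r ≤
        nM * (((1 + ε1) / Real.log Z) * ∑ q ∈ E1.filter (fun q => sc y (q * a.natAbs) = s),
          1 / (Nat.totient q : ℝ)) + Er := by
      intro s _
      rcases Nat.eq_zero_or_pos s with h0 | hspos
      · have hempty : E1.filter (fun q => sc y (q * a.natAbs) = s) = ∅ := by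
          rw [filter_eq_empty_iff]
          intro q _ hq
          have := sc_pos y (q * a.natAbs)
          omega
        rw [hempty]
        simp only [sum_empty, mul_zero, zero_add]
        exact hEr
      · refine le_trans (sum_le_sum fun q hq => ?_) ((hBT k s hk hspos
          (E1.filter (fun q => sc y (q * a.natAbs) = s)) (filter_subset _ _)).trans ?_)
        · rw [mem_filter] at hq
          refine block_le a x q Z s R _ _ _ (lam s) (hE q hq.1).1 hBk1 ?_ (hlam s hspos)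
          have := Nat.lt_div_mul_add (a := x + a.natAbs) (b := Bk κ P0 P' k) (by omega)
          rw [add_mul, one_mul]
          exact this
        · refine add_le_add (mul_le_mul_of_nonneg_left ?_ hnM0) le_rfl
          rw [mul_sum]
          refine sum_le_sum fun q hq => ?_
          rw [mem_filter] at hq
          obtain ⟨hq1, hq2⟩ := hq
          obtain ⟨g1, g2, g3⟩ := hE q hq1
          refine one_mod a ha0 y Z q ε1 (lam s) hZ hya (by omega) g2 g3 ?_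
          rw [hq2]
          exact hlam s hspos
    refine (sum_le_sum hs).trans ?_
    rw [sum_add_distrib, ← mul_sum, ← mul_sum, sum_fiberwise_of_maps_to (s := E1) (t := Sset)
      (g := fun q => sc y (q * a.natAbs)) (fun q _ => sc_mem y _), sum_const, nsmul_eq_mul]
    refine add_le_add le_rfl (mul_le_mul_of_nonneg_right (card_classes y) hEr)
  refine (sum_le_sum hblock).trans ?_
  rw [sum_add_distrib, ← sum_mul, sum_const, card_range, nsmul_eq_mul]
  refine add_le_add ?_ le_rfl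
  have hm := mass_blocks hκ hP0 hκP hPP hN (x + a.natAbs)
  calc _ ≤ (((x + a.natAbs : ℕ) : ℝ) * (1 + κ) ^ 2 * mass (Pr P0 P')) *
        (((1 + ε1) / Real.log Z) * Φ) := mul_le_mul_of_nonneg_right hm (by positivity)
    _ = _ := by ring

end Pool.Agent.H262R4.FR.TBT
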