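import Pool.Agent.H262R4.FR.BTc

/-!
FR project (helper262), final assembly BT, part d: asymptotics (helper488).
-/

namespace Pool.Agent.H262R4.FR.TBT

open Finset Filter

theorem evA (c α β : ℝ) (h : α < β) : ∀ᶠ x : ℕ in atTop, c * (x : ℝ) ^ α ≤ (x : ℝ) ^ β := by
  have h1 : Tendsto (fun x : ℕ => (x : ℝ) ^ (β - α)) atTop atTop :=
    (tendsto_rpow_atTop (sub_pos.mpr h)).comp tendsto_natCast_atTop_atTop
  filter_upwards [h1.eventually_ge_atTop c, eventually_ge_atTop 1] with x hx hx1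
  have hx0 : (0 : ℝ) < x := by exact_mod_cast hx1
  have h2 : (x : ℝ) ^ β = (x : ℝ) ^ (β - α) * (x : ℝ) ^ α := by
    rw [← Real.rpow_add hx0]
    ring_nf
  rw [h2]
  exact mul_le_mul_of_nonneg_right hx (Real.rpow_nonneg hx0.le _)

theorem evC (c : ℝ) : ∀ᶠ x : ℕ in atTop, c ≤ Real.log x :=
  (Real.tendsto_log_atTop.comp tendsto_natCast_atTop_atTop).eventually_ge_atTop c

theorem evB (c α : ℝ) (hc : 0 ≤ c) (h : α < 1) :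
    ∀ᶠ x : ℕ in atTop, c * (x : ℝ) ^ α ≤ (x : ℝ) / Real.log x := by
  have h0 : (0 : ℝ) < (1 - α) / 2 := by linarith
  have h1 : ∀ᶠ x : ℝ in atTop, ‖Real.log x‖ ≤ 1 * ‖x ^ ((1 - α) / 2)‖ :=
    (isLittleO_log_rpow_atTop h0).bound one_pos
  have h2 := tendsto_natCast_atTop_atTop (R := ℝ) |>.eventually h1
  filter_upwards [h2, evA c ((1 + α) / 2) 1 (by linarith), evC 1, eventually_ge_atTop 1] with
    x h3 h4 h5 h6
  have hx0 : (0 : ℝ) < x := by exact_mod_cast h6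
  rw [le_div_iff₀ (by linarith)]
  rw [one_mul, Real.norm_of_nonneg (by linarith), Real.norm_of_nonneg (Real.rpow_nonneg hx0.le _)]
    at h3
  calc c * (x : ℝ) ^ α * Real.log x ≤ c * (x : ℝ) ^ α * (x : ℝ) ^ ((1 - α) / 2) :=
        mul_le_mul_of_nonneg_left h3 (mul_nonneg hc (Real.rpow_nonneg hx0.le _))
    _ = c * (x : ℝ) ^ ((1 + α) / 2) := by
        rw [mul_assoc, ← Real.rpow_add hx0]
        ring_nf
    _ ≤ (x : ℝ) ^ (1 : ℝ) := h4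
    _ = x := Real.rpow_one _

/-- all the size conditions -/
structure Big (a : ℤ) (e δ κ ρ ρ0 ρ1 Cn : ℝ) (ε : ℝ) (x : ℕ) : Prop where
  x3 : 3 ≤ x
  ax : (a.natAbs : ℝ) ≤ e * x
  aδ : (a.natAbs : ℝ) + 3 ≤ (x : ℝ) ^ δ
  logx : 1 ≤ Real.log x
  logx2 : 2 * Real.log 2 ≤ Real.log x
  log2 : Real.log 2 ≤ (2 * e / 15) * Real.log x
  Zbig : (a.natAbs : ℝ) + 3 ≤ (x : ℝ) ^ (4 / 15 - 2 * e / 15)
  P0big : 1 / κ + 4 ≤ (x : ℝ) ^ ρ0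
  P0' : (2 * (x : ℝ)) ^ (ρ0 / 2) + 1 ≤ (x : ℝ) ^ ρ0
  P1 : (x : ℝ) ^ ρ ≤ ((x : ℝ) / 2) ^ ρ1
  ZZ : (x : ℝ) ^ (2 * (4 / 15 - 2 * e / 15)) ≤ ((x : ℝ) / 2) ^ (8 / 15 - 2 * e / 15)
  QM : (x : ℝ) ^ (1 - δ) * (2 * (x : ℝ)) ^ (ρ0 / 2) * (x : ℝ) ^ ρ ≤ x / 2
  M3 : 6 * (x : ℝ) ^ ρ ≤ x
  PR : (x : ℝ) ^ ρ * (x : ℝ) ^ (1 - δ) ≤ x
  small : 2 * (x : ℝ) ^ (4 / 15 - 2 * e / 15) + (x : ℝ) ^ (1 - δ) ≤ (ε ^ 2 / 64) * (x / Real.log x)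
  err : Cn ≤ Real.log x

theorem big_ev (a : ℤ) (e δ κ ρ ρ0 ρ1 Cn ε : ℝ) (he : 0 < e) (he1 : e ≤ 1 / 100) (hδ : 0 < δ)
    (hδ1 : δ ≤ 1 / 2) (_hρ : 0 < ρ) (hρδ : ρ ≤ δ / 4) (hρ1 : 2 * ρ ≤ ρ1) (hρ0 : 0 < ρ0)
    (hρ0' : ρ0 < ρ) (hε : 0 < ε) :
    ∀ᶠ x : ℕ in atTop, Big a e δ κ ρ ρ0 ρ1 Cn ε x := by
  have e1 := evA ((a.natAbs : ℝ) / e) 0 1 one_pos
  have e2 := evA ((a.natAbs : ℝ) + 3) 0 δ hδ
  have e3 := evC 1
  have e4 := evC (2 * Real.log 2)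
  have e5 := evC (Real.log 2 / (2 * e / 15))
  have e6 := evA ((a.natAbs : ℝ) + 3) 0 (4 / 15 - 2 * e / 15) (by linarith)
  have e7 := evA (1 / κ + 4) 0 ρ0 hρ0
  have e8 := evA ((2 : ℝ) ^ (ρ0 / 2) + 1) (ρ0 / 2) ρ0 (by linarith)
  have e9 := evA ((2 : ℝ) ^ ρ1) ρ ρ1 (by linarith)
  have e10 := evA ((2 : ℝ) ^ (8 / 15 - 2 * e / 15)) (2 * (4 / 15 - 2 * e / 15))
    (8 / 15 - 2 * e / 15) (by linarith)
  have e11 := evA (2 * (2 : ℝ) ^ (ρ0 / 2)) (1 - δ + ρ0 / 2 + ρ) 1 (by linarith)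
  have e12 := evA 6 ρ 1 (by linarith)
  have e13 := evA 1 (ρ + (1 - δ)) 1 (by linarith)
  have e14 := evB (2 / (ε ^ 2 / 128)) (4 / 15 - 2 * e / 15) (by positivity) (by linarith)
  have e15 := evB (1 / (ε ^ 2 / 128)) (1 - δ) (by positivity) (by linarith)
  have e16 := evC Cn
  filter_upwards [e1, e2, e3, e4, e5, e6, e7, e8, e9, e10, e11, e12, e13, e14, e15, e16,
    eventually_ge_atTop 3] with x h1 h2 h3 h4 h5 h6 h7 h8 h9 h10 h11 h12 h13 h14 h15 h16 h17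
  have hx0 : (0 : ℝ) < x := by
    have : 0 < x := by omega
    exact_mod_cast this
  have hx1 : (1 : ℝ) ≤ x := by
    have : 1 ≤ x := by omega
    exact_mod_cast this
  rw [Real.rpow_zero, mul_one] at h1 h2 h6 h7
  rw [Real.rpow_one] at h1 h11 h12 h13
  have hε2 : 0 < ε ^ 2 / 128 := by positivity
  refine ⟨h17, ?_, h2, h3, h4, ?_, h6, h7, ?_, ?_, ?_, ?_, h12, ?_, ?_, h16⟩
  · rw [div_le_iff₀ he] at h1
    linarith
  · rw [div_le_iff₀ (by positivity)] at h5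
    linarith
  · rw [Real.mul_rpow (by norm_num) hx0.le]
    have : (1 : ℝ) ≤ (x : ℝ) ^ (ρ0 / 2) := Real.one_le_rpow hx1 (by linarith)
    nlinarith
  · rw [Real.div_rpow hx0.le (by norm_num), le_div_iff₀ (by positivity)]
    linarith
  · rw [Real.div_rpow hx0.le (by norm_num), le_div_iff₀ (by positivity)]
    linarith
  · rw [Real.mul_rpow (by norm_num) hx0.le]
    have h18 : (x : ℝ) ^ (1 - δ + ρ0 / 2 + ρ) =
        (x : ℝ) ^ (1 - δ) * (x : ℝ) ^ (ρ0 / 2) * (x : ℝ) ^ ρ := by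
      rw [Real.rpow_add hx0, Real.rpow_add hx0]
    rw [h18] at h11
    linarith
  · rw [one_mul, Real.rpow_add hx0] at h13
    exact h13
  · rw [div_mul_eq_mul_div, div_le_iff₀ hε2] at h14 h15
    linarith

end Pool.Agent.H262R4.FR.TBT
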