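import Pool.Agent.H262R4.FR.BTd

/-!
FR project (helper262), final assembly BT, part e: the size conditions for one block (helper488).
-/

namespace Pool.Agent.H262R4.FR.TBT

open Finset Filter

theorem blk {a : ℤ} {e δ κ ρ ρ0 ρ1 Cn ε : ℝ} {x : ℕ} (hb : Big a e δ κ ρ ρ0 ρ1 Cn ε x)
    (he : 0 < e) (he1 : e ≤ 1 / 100) (hκ : 0 < κ)
    (hρ0 : 0 < ρ0) (hρ1 : 0 < ρ1) {B Q : ℕ} (hB0 : ⌊(x : ℝ) ^ ρ0⌋₊ ≤ B)
    (hB1 : B ≤ ⌊(x : ℝ) ^ ρ⌋₊) (hQ : (Q : ℝ) ≤ (x : ℝ) ^ (1 - δ)) :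
    3 ≤ B ∧ 1 ≤ κ * B ∧
    ((((x + a.natAbs) / B : ℕ) : ℝ) * B ≤ 2 * x) ∧ ((x : ℝ) / 2 ≤ (((x + a.natAbs) / B : ℕ) : ℝ) * B) ∧
    3 ≤ (x + a.natAbs) / B ∧
    ((((x + a.natAbs) / B : ℕ) : ℝ) * B) ^ (ρ0 / 2) ≤ B ∧
    (B : ℝ) ≤ ((((x + a.natAbs) / B : ℕ) : ℝ) * B) ^ ρ1 ∧
    ((⌊(x : ℝ) ^ (4 / 15 - 2 * e / 15)⌋₊ : ℝ) ^ 2 ≤
      ((((x + a.natAbs) / B : ℕ) : ℝ) * B) ^ (8 / 15 - 2 * e / 15)) ∧
    (Q : ℝ) ≤ (((x + a.natAbs) / B : ℕ) : ℝ) *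
      ((((x + a.natAbs) / B : ℕ) : ℝ) * B) ^ (-(ρ0 / 2)) := by
  have hx3 := hb.x3
  have hx0 : (0 : ℝ) < x := by
    have : 0 < x := by omega
    exact_mod_cast this
  have hP0f : (x : ℝ) ^ ρ0 < (⌊(x : ℝ) ^ ρ0⌋₊ : ℝ) + 1 := Nat.lt_floor_add_one _
  have hB0' : (⌊(x : ℝ) ^ ρ0⌋₊ : ℝ) ≤ B := by exact_mod_cast hB0
  have hPf : (⌊(x : ℝ) ^ ρ⌋₊ : ℝ) ≤ (x : ℝ) ^ ρ := Nat.floor_le (Real.rpow_nonneg hx0.le _)
  have hB1' : (B : ℝ) ≤ (x : ℝ) ^ ρ := by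
    have : (B : ℝ) ≤ (⌊(x : ℝ) ^ ρ⌋₊ : ℝ) := by exact_mod_cast hB1
    exact this.trans hPf
  have hκinv : 0 < 1 / κ := by positivity
  have hbig := hb.P0big
  have hBr3 : (3 : ℝ) < B := by linarith
  have hB3 : 3 ≤ B := by exact_mod_cast hBr3.le
  have hBκ : 1 / κ ≤ B := by linarith
  have hκB : 1 ≤ κ * B := by
    rw [div_le_iff₀ hκ] at hBκ
    linarith
  have hBpos : (0 : ℝ) < B := by linarith
  have hBn : 0 < B := by omega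
  set M : ℕ := (x + a.natAbs) / B with hM
  have hMB1 : M * B ≤ x + a.natAbs := Nat.div_mul_le_self _ _
  have hMB2 : x + a.natAbs < M * B + B := Nat.lt_div_mul_add hBn
  have hMB1' : (M : ℝ) * B ≤ x + a.natAbs := by exact_mod_cast hMB1
  have hMB2' : (x : ℝ) + a.natAbs < M * B + B := by exact_mod_cast hMB2
  have ha0 : (0 : ℝ) ≤ a.natAbs := Nat.cast_nonneg _
  have hax := hb.ax
  have hM3 := hb.M3
  have hxρ : 0 < (x : ℝ) ^ ρ := Real.rpow_pos_of_pos hx0 _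
  have h2x : (M : ℝ) * B ≤ 2 * x := by
    have : e * x ≤ 1 * x := mul_le_mul_of_nonneg_right (by linarith) hx0.le
    linarith
  have hx2 : (x : ℝ) / 2 ≤ M * B := by linarith
  have hMpos : (0 : ℝ) ≤ M := Nat.cast_nonneg _
  have hMBpos : 0 < (M : ℝ) * B := by linarith
  have hMge : (x : ℝ) / 2 ≤ M * (x : ℝ) ^ ρ :=
    hx2.trans (mul_le_mul_of_nonneg_left hB1' hMpos)
  have hM3r : (3 : ℝ) ≤ M := by
    by_contra hlt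
    have hlt' : (M : ℝ) < 3 := not_le.mp hlt
    have : (M : ℝ) * (x : ℝ) ^ ρ < 3 * (x : ℝ) ^ ρ := mul_lt_mul_of_pos_right hlt' hxρ
    linarith
  have hM3n : 3 ≤ M := by exact_mod_cast hM3r
  have hpow : ((M : ℝ) * B) ^ (ρ0 / 2) ≤ (2 * (x : ℝ)) ^ (ρ0 / 2) :=
    Real.rpow_le_rpow hMBpos.le h2x (by linarith)
  have h6 : ((M : ℝ) * B) ^ (ρ0 / 2) ≤ B := by
    have := hb.P0'
    linarith
  have h7 : (B : ℝ) ≤ ((M : ℝ) * B) ^ ρ1 := by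
    refine hB1'.trans (hb.P1.trans ?_)
    exact Real.rpow_le_rpow (by linarith) hx2 hρ1.le
  have h8 : ((⌊(x : ℝ) ^ (4 / 15 - 2 * e / 15)⌋₊ : ℝ) ^ 2 ≤
      ((M : ℝ) * B) ^ (8 / 15 - 2 * e / 15)) := by
    have hf : (⌊(x : ℝ) ^ (4 / 15 - 2 * e / 15)⌋₊ : ℝ) ≤ (x : ℝ) ^ (4 / 15 - 2 * e / 15) :=
      Nat.floor_le (Real.rpow_nonneg hx0.le _)
    have h9 : (⌊(x : ℝ) ^ (4 / 15 - 2 * e / 15)⌋₊ : ℝ) ^ 2 ≤
        (x : ℝ) ^ (2 * (4 / 15 - 2 * e / 15)) := by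
      have h10 : (x : ℝ) ^ (2 * (4 / 15 - 2 * e / 15)) = ((x : ℝ) ^ (4 / 15 - 2 * e / 15)) ^ 2 := by
        rw [mul_comm, Real.rpow_mul hx0.le]
        norm_num
      rw [h10]
      exact pow_le_pow_left₀ (Nat.cast_nonneg _) hf 2
    refine h9.trans (hb.ZZ.trans ?_)
    exact Real.rpow_le_rpow (by linarith) hx2 (by linarith)
  have h11 : (Q : ℝ) ≤ (M : ℝ) * ((M : ℝ) * B) ^ (-(ρ0 / 2)) := by
    rw [Real.rpow_neg hMBpos.le, ← div_eq_mul_inv, le_div_iff₀ (Real.rpow_pos_of_pos hMBpos _)]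
    have h12 : (Q : ℝ) * ((M : ℝ) * B) ^ (ρ0 / 2) ≤ (x : ℝ) ^ (1 - δ) * (2 * (x : ℝ)) ^ (ρ0 / 2) :=
      mul_le_mul hQ hpow (Real.rpow_nonneg hMBpos.le _) (Real.rpow_nonneg hx0.le _)
    have h13 := hb.QM
    have h14 : (x : ℝ) ^ (1 - δ) * (2 * (x : ℝ)) ^ (ρ0 / 2) * (x : ℝ) ^ ρ ≤ M * (x : ℝ) ^ ρ :=
      h13.trans hMge
    exact h12.trans (le_of_mul_le_mul_right h14 hxρ)
  exact ⟨hB3, hκB, h2x, hx2, hM3n, h6, h7, h8, h11⟩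

/-- `log Z ≥ (4/15)(1-e) log x` -/
theorem logZ {a : ℤ} {e δ κ ρ ρ0 ρ1 Cn ε : ℝ} {x : ℕ} (hb : Big a e δ κ ρ ρ0 ρ1 Cn ε x) :
    (4 / 15) * (1 - e) * Real.log x ≤ Real.log (⌊(x : ℝ) ^ (4 / 15 - 2 * e / 15)⌋₊ : ℝ) ∧
    a.natAbs + 2 ≤ ⌊(x : ℝ) ^ (4 / 15 - 2 * e / 15)⌋₊ := by
  have hx3 := hb.x3
  have hx0 : (0 : ℝ) < x := by
    have : 0 < x := by omega
    exact_mod_cast this
  set w : ℝ := (x : ℝ) ^ (4 / 15 - 2 * e / 15) with hw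
  have hZb := hb.Zbig
  rw [← hw] at hZb
  have ha0 : (0 : ℝ) ≤ a.natAbs := Nat.cast_nonneg _
  have hf : w < (⌊w⌋₊ : ℝ) + 1 := Nat.lt_floor_add_one _
  have hhalf : w / 2 ≤ (⌊w⌋₊ : ℝ) := by linarith
  have hw0 : 0 < w := by linarith
  constructor
  · have h1 : Real.log (w / 2) ≤ Real.log (⌊w⌋₊ : ℝ) := Real.log_le_log (by linarith) hhalf
    rw [Real.log_div hw0.ne' (by norm_num)] at h1
    have h2 : Real.log w = (4 / 15 - 2 * e / 15) * Real.log x := by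
      rw [hw, Real.log_rpow hx0]
    rw [h2] at h1
    have h3 := hb.log2
    linarith
  · apply Nat.le_floor
    push_cast
    linarith

end Pool.Agent.H262R4.FR.TBT
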