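import Pool.Agent.H262R4.FR.Stubs
import Pool.Agent.H442R2.KF.Poi

/-!
FR project (helper262), task F1: weights and class sums.
-/

namespace Pool.Agent.H262R4.FR.TF1

open Finset Filter Topology
open Pool.Agent.H442R2.KF

lemma wt_pos (N : ℕ) (m : ℤ) : 0 ≤ Wt N m := (Real.exp_pos _).le

lemma wt_le_one (N : ℕ) (m : ℤ) : Wt N m ≤ 1 := by
  unfold Wt
  apply Real.exp_le_one_iff.2
  have := Real.pi_pos
  have h : 0 ≤ Real.pi * ((m : ℝ) / N) ^ 2 := by positivity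
  linarith

lemma part1 (Y : ℕ) (m : ℤ) (hY : 1 ≤ Y) : 0 ≤ Wd Y m ∧ Wd Y m ≤ 1 ∧
    Wd Y m ≤ 4 * (m : ℝ) ^ 2 / (Y : ℝ) ^ 2 := by
  have hY0 : (0 : ℝ) < Y := by exact_mod_cast hY
  have hpi := Real.pi_pos
  have h1 : Wt Y m ≤ Wt (2 * Y) m := by
    unfold Wt
    apply Real.exp_le_exp.2
    have h2 : ((m : ℝ) / ((2 * Y : ℕ) : ℝ)) ^ 2 = ((m : ℝ) / Y) ^ 2 / 4 := by
      push_cast
      field_simp
      norm_num
    rw [h2]
    have h3 : 0 ≤ Real.pi * ((m : ℝ) / Y) ^ 2 := by positivity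
    nlinarith
  have h2 := wt_le_one (2 * Y) m
  have h3 := wt_pos Y m
  refine ⟨by unfold Wd; linarith, by unfold Wd; linarith, ?_⟩
  have h4 : 1 - Real.pi * ((m : ℝ) / Y) ^ 2 ≤ Wt Y m := by
    unfold Wt
    have := Real.add_one_le_exp (-Real.pi * ((m : ℝ) / Y) ^ 2)
    linarith
  have h5 : Real.pi * ((m : ℝ) / Y) ^ 2 ≤ 4 * (m : ℝ) ^ 2 / (Y : ℝ) ^ 2 := by
    rw [div_pow, mul_div_assoc]
    exact mul_le_mul_of_nonneg_right Real.pi_le_four (by positivity)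
  unfold Wd
  linarith

lemma exp_pi_low : (1 : ℝ) / 24 ≤ Real.exp (-Real.pi) := by
  rw [Real.exp_neg, one_div]
  apply inv_anti₀ (Real.exp_pos _)
  have h1 : Real.exp Real.pi ≤ Real.exp (3 + 3 / 20) := by
    apply Real.exp_le_exp.2
    have := Real.pi_lt_d2
    linarith
  refine h1.trans ?_
  rw [Real.exp_add]
  have h2 : Real.exp 3 = Real.exp 1 ^ 3 := by
    rw [← Real.exp_nat_mul]
    norm_num
  have h3 : Real.exp 1 ^ 3 ≤ 2.7182818286 ^ 3 :=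
    pow_le_pow_left₀ (Real.exp_pos _).le Real.exp_one_lt_d9.le 3
  have h4 : Real.exp (3 / 20) ≤ 20 / 17 := by
    have h5 := Real.add_one_le_exp (-(3 / 20 : ℝ))
    rw [Real.exp_neg] at h5
    have h6 : 0 < Real.exp (3 / 20) := Real.exp_pos _
    have h7 : (17 : ℝ) / 20 ≤ (Real.exp (3 / 20))⁻¹ := by linarith
    rw [le_inv_comm₀ (by norm_num) h6] at h7
    refine h7.trans (le_of_eq ?_)
    norm_num
  rw [h2]
  calc Real.exp 1 ^ 3 * Real.exp (3 / 20) ≤ 2.7182818286 ^ 3 * (20 / 17) :=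
        mul_le_mul h3 h4 (Real.exp_pos _).le (by norm_num)
    _ ≤ 24 := by norm_num

lemma exp_low2 : Real.exp (-(9 / 4 : ℝ)) ≤ 1 / 9 := by
  rw [Real.exp_neg, one_div]
  apply inv_anti₀ (by norm_num)
  rw [show (9 / 4 : ℝ) = 1 + 1 + 1 / 4 by norm_num, Real.exp_add, Real.exp_add]
  have h1 := Real.exp_one_gt_d9
  have h2 := Real.add_one_le_exp (1 / 4 : ℝ)
  have h3 : (2.7182818283 : ℝ) * 2.7182818283 ≤ Real.exp 1 * Real.exp 1 :=
    mul_le_mul h1.le h1.le (by norm_num) (Real.exp_pos _).le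
  calc (9 : ℝ) ≤ 2.7182818283 * 2.7182818283 * (1 / 4 + 1) := by norm_num
    _ ≤ Real.exp 1 * Real.exp 1 * Real.exp (1 / 4) :=
        mul_le_mul h3 h2 (by norm_num) (by positivity)

lemma part2 (Y : ℕ) (m : ℤ) (hY : 1 ≤ Y) (h1 : (Y : ℤ) < m) (h2 : m ≤ 2 * Y) :
    1 / 30 ≤ Wd Y m := by
  have hY0 : (0 : ℝ) < Y := by exact_mod_cast hY
  have hpi := Real.pi_gt_d2
  have h1' : (Y : ℝ) < m := by exact_mod_cast h1
  have h2' : (m : ℝ) ≤ 2 * Y := by exact_mod_cast h2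
  obtain ⟨y, hy⟩ : ∃ y, y = (m : ℝ) / Y := ⟨_, rfl⟩
  have hy1 : 1 < y := by rw [hy, lt_div_iff₀ hY0]; linarith
  have hy2 : y ≤ 2 := by rw [hy, div_le_iff₀ hY0]; linarith
  have h3 : Wd Y m = Real.exp (-Real.pi * (y ^ 2 / 4)) *
      (1 - Real.exp (-(3 * Real.pi / 4 * y ^ 2))) := by
    unfold Wd Wt
    have h4 : ((m : ℝ) / ((2 * Y : ℕ) : ℝ)) ^ 2 = y ^ 2 / 4 := by
      rw [hy]
      push_cast
      field_simp
      norm_num
    rw [h4, ← hy, mul_sub, mul_one, ← Real.exp_add]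
    congr 2
    ring
  rw [h3]
  have h5 : (1 : ℝ) / 24 ≤ Real.exp (-Real.pi * (y ^ 2 / 4)) := by
    refine exp_pi_low.trans (Real.exp_le_exp.2 ?_)
    have : y ^ 2 / 4 ≤ 1 := by nlinarith
    nlinarith
  have h6 : Real.exp (-(3 * Real.pi / 4 * y ^ 2)) ≤ 1 / 9 := by
    refine le_trans (Real.exp_le_exp.2 ?_) exp_low2
    have : 1 ≤ y ^ 2 := by nlinarith
    nlinarith
  calc (1 : ℝ) / 30 ≤ 1 / 24 * (1 - 1 / 9) := by norm_num
    _ ≤ _ := mul_le_mul h5 (by linarith) (by norm_num) (Real.exp_pos _).le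

lemma summ (N s : ℕ) (hN : 1 ≤ N) : Summable (fun m : ℤ => Wt N m * |(m : ℝ)| ^ s) := by
  have hN0 : (0 : ℝ) < N := by exact_mod_cast hN
  have h := summable_pow_mul_jacobiTheta₂_term_bound 0 (T := 1 / (N : ℝ) ^ 2) (by positivity) s
  refine h.congr fun m => ?_
  unfold Wt
  rw [mul_comm]
  congr 1
  · congr 1
    rw [div_pow]
    ring
  · push_cast
    rfl

lemma summ0 (N : ℕ) (hN : 1 ≤ N) : Summable (fun m : ℤ => Wt N m) := by
  have h := summ N 0 hN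
  simpa using h

lemma part3 (Y s : ℕ) (hY : 1 ≤ Y) : Summable (fun m : ℤ => Wd Y m * |(m : ℝ)| ^ s) := by
  have h1 := summ (2 * Y) s (by omega)
  have h2 := summ Y s hY
  refine (h1.sub h2).congr fun m => ?_
  unfold Wd
  ring

/-- telescoping bound -/
noncomputable def g (x : ℝ) (n : ℕ) : ℝ :=
  2 / x * (((n + 1 : ℕ) : ℝ) * x / (1 + ((n + 1 : ℕ) : ℝ) * x) - (n : ℝ) * x / (1 + (n : ℝ) * x))

lemma g_bound (x : ℝ) (hx : 0 < x) (n : ℕ) :
    Real.exp (-Real.pi * ((((n : ℝ) + 1) * x)) ^ 2) ≤ g x n := by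
  have hpi := Real.pi_gt_three
  obtain ⟨t, ht⟩ : ∃ t, t = ((n : ℝ) + 1) * x := ⟨_, rfl⟩
  have hn0 : (0 : ℝ) ≤ n := by positivity
  have ht0 : 0 < t := by rw [ht]; positivity
  have h1 : g x n = 2 / ((1 + t) * (1 + (n : ℝ) * x)) := by
    unfold g
    push_cast
    rw [← ht]
    have e1 : (n : ℝ) * x = t - x := by rw [ht]; ring
    have h2 : (0 : ℝ) < 1 + (t - x) := by rw [← e1]; positivity
    rw [e1]
    field_simp
    ring
  rw [h1, ← ht]
  have h2 : (1 + t) * (1 + (n : ℝ) * x) ≤ (1 + t) ^ 2 := by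
    rw [pow_two]
    apply mul_le_mul_of_nonneg_left _ (by positivity)
    have : (n : ℝ) * x ≤ t := by rw [ht]; nlinarith
    linarith
  have h3 : 2 / (1 + t) ^ 2 ≤ 2 / ((1 + t) * (1 + (n : ℝ) * x)) :=
    div_le_div_of_nonneg_left (by norm_num) (by positivity) h2
  refine le_trans ?_ h3
  rw [neg_mul, Real.exp_neg, le_div_iff₀ (by positivity), ← div_eq_inv_mul,
    div_le_iff₀ (Real.exp_pos _)]
  have h4 := Real.add_one_le_exp (Real.pi * t ^ 2)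
  nlinarith [sq_nonneg (t - 1), sq_nonneg t]

lemma g_hasSum (x : ℝ) (hx : 0 < x) : HasSum (g x) (2 / x) := by
  have h0 : ∀ n, 0 ≤ g x n := fun n => (Real.exp_pos _).le.trans (g_bound x hx n)
  rw [hasSum_iff_tendsto_nat_of_nonneg h0]
  have h1 : ∀ M : ℕ, ∑ i ∈ range M, g x i = 2 / x * ((M : ℝ) * x / (1 + (M : ℝ) * x)) := by
    intro M
    unfold g
    rw [← Finset.mul_sum, Finset.sum_range_sub (fun n : ℕ => (n : ℝ) * x / (1 + (n : ℝ) * x))]
    simp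
  simp only [h1]
  have h2 : Tendsto (fun M : ℕ => (M : ℝ) * x / (1 + (M : ℝ) * x)) atTop (𝓝 1) := by
    have h3 : ∀ M : ℕ, (M : ℝ) * x / (1 + (M : ℝ) * x) = 1 - (1 + (M : ℝ) * x)⁻¹ := by
      intro M
      have : (0 : ℝ) < 1 + (M : ℝ) * x := by positivity
      field_simp
      ring
    simp only [h3]
    have h4 : Tendsto (fun M : ℕ => 1 + (M : ℝ) * x) atTop atTop :=
      tendsto_atTop_add_const_left _ _ (tendsto_natCast_atTop_atTop.atTop_mul_const hx)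
    have h5 := h4.inv_tendsto_atTop
    have h6 := (tendsto_const_nhds (x := (1 : ℝ))).sub h5
    simpa using h6
  have h3 := h2.const_mul (2 / x)
  rwa [mul_one] at h3

lemma class_sum (N k : ℕ) (hN : 1 ≤ N) (hk : 1 ≤ k) (u : ℤ) :
    |(∑' m : ℤ, if (k : ℤ) ∣ m - u then Wt N m else 0) - (N : ℝ) / k| ≤ 4 := by
  have hN0 : (0 : ℝ) < N := by exact_mod_cast hN
  have hk0 : (0 : ℝ) < k := by exact_mod_cast hk
  obtain ⟨x, hx⟩ : ∃ x, x = (N : ℝ) / k := ⟨_, rfl⟩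
  have hx0 : 0 < x := by rw [hx]; positivity
  rw [TaskL.reindex N k hk u]
  have hP := TaskL.poisson N k hN hk u
  obtain ⟨F, hF⟩ : ∃ F : ℤ → ℂ, F = fun j : ℤ =>
    ((Real.exp (-Real.pi * ((j : ℝ) * N / k) ^ 2) : ℝ) : ℂ) * e ((j : ℝ) * u / k) := ⟨_, rfl⟩
  have hP' : ((∑' j : ℤ, Wt N (u + k * j) : ℝ) : ℂ) = (x : ℂ) * ∑' j : ℤ, F j := by
    rw [hP, hF, hx]
  have hn : ∀ j : ℤ, ‖F j‖ = Real.exp (-Real.pi * ((j : ℝ) * x) ^ 2) := by
    intro j
    rw [hF, TaskL.norm_term, hx]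
    congr 2
    ring
  have hp1 : ∀ n : ℕ, ‖F (n + 1)‖ ≤ g x n := by
    intro n
    rw [hn]
    refine le_trans (le_of_eq ?_) (g_bound x hx0 n)
    push_cast
    rfl
  have hp2 : ∀ n : ℕ, ‖F (-(n + 1))‖ ≤ g x n := by
    intro n
    rw [hn]
    refine le_trans (le_of_eq ?_) (g_bound x hx0 n)
    congr 2
    push_cast
    ring
  have hg := g_hasSum x hx0
  have hs1 : Summable fun n : ℕ => F (n + 1) := Summable.of_norm_bounded hg.summable hp1
  have hs2 : Summable fun n : ℕ => F (-(n + 1)) := Summable.of_norm_bounded hg.summable hp2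
  have hF0 : F 0 = 1 := by
    rw [hF]
    simp [e_zero]
  have hT := tsum_of_add_one_of_neg_add_one hs1 hs2
  rw [hF0] at hT
  have hb1 := tsum_of_norm_bounded hg hp1
  have hb2 := tsum_of_norm_bounded hg hp2
  have h1 : ((∑' j : ℤ, Wt N (u + k * j) - x : ℝ) : ℂ) =
      (x : ℂ) * ((∑' n : ℕ, F (n + 1)) + ∑' n : ℕ, F (-(n + 1))) := by
    rw [Complex.ofReal_sub, hP', hT]
    ring
  have h2 : |∑' j : ℤ, Wt N (u + k * j) - x| =
      ‖((∑' j : ℤ, Wt N (u + k * j) - x : ℝ) : ℂ)‖ := by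
    rw [Complex.norm_real, Real.norm_eq_abs]
  rw [← hx, h2, h1, norm_mul, Complex.norm_real, Real.norm_eq_abs, abs_of_pos hx0]
  calc x * ‖(∑' n : ℕ, F (n + 1)) + ∑' n : ℕ, F (-(n + 1))‖ ≤ x * (2 / x + 2 / x) := by
        apply mul_le_mul_of_nonneg_left _ hx0.le
        exact (norm_add_le _ _).trans (add_le_add hb1 hb2)
    _ = 4 := by
        field_simp
        norm_num

lemma summ_if (N k : ℕ) (hN : 1 ≤ N) (u : ℤ) :
    Summable (fun m : ℤ => if (k : ℤ) ∣ m - u then Wt N m else 0) := by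
  refine Summable.of_norm_bounded (summ0 N hN) fun m => ?_
  split_ifs
  · rw [Real.norm_eq_abs, abs_of_nonneg (wt_pos N m)]
  · rw [norm_zero]
    exact wt_pos N m

lemma part4 (Y k : ℕ) (u : ℤ) (hY : 1 ≤ Y) (hk : 1 ≤ k) :
    |(∑' m : ℤ, if (k : ℤ) ∣ m - u then Wd Y m else 0) - (Y : ℝ) / k| ≤ 8 := by
  have h1 := class_sum (2 * Y) k (by omega) hk u
  have h2 := class_sum Y k hY hk u
  have h3 : (∑' m : ℤ, if (k : ℤ) ∣ m - u then Wd Y m else 0) =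
      (∑' m : ℤ, if (k : ℤ) ∣ m - u then Wt (2 * Y) m else 0) -
        (∑' m : ℤ, if (k : ℤ) ∣ m - u then Wt Y m else 0) := by
    rw [← (summ_if (2 * Y) k (by omega) u).tsum_sub (summ_if Y k hY u)]
    refine tsum_congr fun m => ?_
    split_ifs
    · rfl
    · simp
  rw [h3]
  push_cast at h1
  rw [mul_div_assoc] at h1
  rw [abs_le] at h1 h2 ⊢
  constructor <;> linarith [h1.1, h1.2, h2.1, h2.2]

end Pool.Agent.H262R4.FR.TF1

namespace Pool.Agent.H262R4.FR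

theorem t_F1 : P_F1 :=
  ⟨fun Y m hY => TF1.part1 Y m hY, fun Y m hY h1 h2 => TF1.part2 Y m hY h1 h2,
    fun Y s hY => TF1.part3 Y s hY, fun Y k u hY hk => TF1.part4 Y k u hY hk⟩

end Pool.Agent.H262R4.FR
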