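import Pool.Agent.H262R4.FR.Stubs

/-!
Task TK: the inequality of Turán and Kubilius, also in one residue class.
-/

namespace Pool.Agent.H262R4.FR.TTK

open Finset

theorem cntQ (N r : ℕ) (v : ℤ) (hr : 1 ≤ r) :
    |(((Icc 1 N).filter (fun n : ℕ => (r : ℤ) ∣ (n : ℤ) - v)).card : ℚ) - (N : ℚ) / r| ≤ 1 := by
  have h1 : ((Icc 1 N).filter (fun n : ℕ => (r : ℤ) ∣ (n : ℤ) - v)).card =
      ((Ioc (0 : ℤ) N).filter (fun x => x ≡ v [ZMOD r])).card := by
    apply Finset.card_bij (fun (n : ℕ) _ => (n : ℤ))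
    · intro n hn
      rw [mem_filter, mem_Icc] at hn
      rw [mem_filter, mem_Ioc]
      refine ⟨⟨by omega, by omega⟩, ?_⟩
      rw [Int.modEq_iff_dvd, dvd_sub_comm]
      exact hn.2
    · intro n _ m _ h
      exact_mod_cast h
    · intro x hx
      rw [mem_filter, mem_Ioc] at hx
      refine ⟨x.toNat, ?_, Int.toNat_of_nonneg hx.1.1.le⟩
      rw [mem_filter, mem_Icc]
      refine ⟨by omega, ?_⟩
      rw [Int.toNat_of_nonneg hx.1.1.le, dvd_sub_comm, ← Int.modEq_iff_dvd]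
      exact hx.2
  have hrz : (0 : ℤ) < r := by exact_mod_cast hr
  have hrq : (0 : ℚ) < r := by exact_mod_cast hr
  have h2 := Int.Ioc_filter_modEq_card (0 : ℤ) N hrz v
  obtain ⟨x, hx⟩ : ∃ x : ℚ, x = (((N : ℤ) : ℚ) - v) / ((r : ℤ) : ℚ) := ⟨_, rfl⟩
  obtain ⟨y, hy⟩ : ∃ y : ℚ, y = (((0 : ℤ) : ℚ) - v) / ((r : ℤ) : ℚ) := ⟨_, rfl⟩
  rw [← hx, ← hy, ← h1] at h2
  have hxy : x - y = (N : ℚ) / r := by
    rw [hx, hy]
    push_cast
    rw [← sub_div]
    congr 1
    ring
  have hxy0 : y ≤ x := by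
    have : (0 : ℚ) ≤ (N : ℚ) / r := by positivity
    linarith
  have hfl : ⌊y⌋ ≤ ⌊x⌋ := Int.floor_le_floor hxy0
  rw [max_eq_left (by omega)] at h2
  have h3 : (((Icc 1 N).filter (fun n : ℕ => (r : ℤ) ∣ (n : ℤ) - v)).card : ℚ) =
      (⌊x⌋ : ℚ) - (⌊y⌋ : ℚ) := by exact_mod_cast congrArg (fun z : ℤ => (z : ℚ)) h2
  rw [h3, ← hxy, abs_le]
  have a1 := Int.floor_le x
  have a2 := Int.lt_floor_add_one x
  have a3 := Int.floor_le y
  have a4 := Int.lt_floor_add_one y
  constructor <;> linarith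

theorem cnt (N r : ℕ) (v : ℤ) (hr : 1 ≤ r) :
    |(((Icc 1 N).filter (fun n : ℕ => (r : ℤ) ∣ (n : ℤ) - v)).card : ℝ) - (N : ℝ) / r| ≤ 1 := by
  have h := cntQ N r v hr
  have h2 : ((|(((Icc 1 N).filter (fun n : ℕ => (r : ℤ) ∣ (n : ℤ) - v)).card : ℚ) -
      (N : ℚ) / r| : ℚ) : ℝ) ≤ ((1 : ℚ) : ℝ) := by exact_mod_cast h
  push_cast at h2
  exact h2

theorem crt (d m : ℕ) (a : ℤ) (h : Nat.Coprime d m) : ∃ v : ℤ, ∀ n : ℤ,
    ((d : ℤ) ∣ n - a ∧ (m : ℤ) ∣ n) ↔ ((d * m : ℕ) : ℤ) ∣ n - v := by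
  have hc : IsCoprime (d : ℤ) (m : ℤ) := Nat.isCoprime_iff_coprime.2 h
  obtain ⟨u, w, huw⟩ := hc
  refine ⟨a * (w * m), fun n => ?_⟩
  have hd : (d : ℤ) ∣ a * (w * m) - a := ⟨-(a * u), by linear_combination a * huw⟩
  have hm : (m : ℤ) ∣ a * (w * m) := ⟨a * w, by ring⟩
  constructor
  · rintro ⟨h1, h2⟩
    push_cast
    apply IsCoprime.mul_dvd ⟨u, w, huw⟩
    · have := dvd_sub h1 hd
      rwa [sub_sub_sub_cancel_right] at this
    · exact dvd_sub h2 hm
  · intro h1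
    push_cast at h1
    have h2 : (d : ℤ) ∣ n - a * (w * m) := (dvd_mul_right _ _).trans h1
    have h3 : (m : ℤ) ∣ n - a * (w * m) := (dvd_mul_left _ _).trans h1
    constructor
    · have := dvd_add h2 hd
      rwa [sub_add_sub_cancel] at this
    · have := dvd_add h3 hm
      rwa [sub_add_cancel] at this

theorem omW_eq (T : Finset ℕ) (n : ℕ) : omW T n = ∑ p ∈ T, (if p ∣ n then (1 : ℝ) else 0) := by
  unfold omW
  rw [Finset.card_filter]
  push_cast
  rfl

theorem var (A T : Finset ℕ) (X δ : ℝ) (hX : 0 ≤ X) (hδ : 0 ≤ δ)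
    (h1 : ∀ p ∈ T, X / p - 1 ≤ ((A.filter (fun n => p ∣ n)).card : ℝ))
    (h2 : ∀ p ∈ T, ((A.filter (fun n => p ∣ n)).card : ℝ) ≤ X / p + δ)
    (h3 : ∀ p ∈ T, ∀ q ∈ T, p ≠ q →
      ((A.filter (fun n => p ∣ n ∧ q ∣ n)).card : ℝ) ≤ X / (p * q) + δ)
    (h4 : (A.card : ℝ) ≤ X + δ) :
    ∑ n ∈ A, (omW T n - mass T) ^ 2 ≤
      X * mass T + δ * T.card + δ * T.card ^ 2 + 2 * mass T * T.card + δ * mass T ^ 2 := by
  obtain ⟨L, hL⟩ : ∃ L, L = mass T := ⟨_, rfl⟩
  have hL0 : 0 ≤ L := by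
    rw [hL]
    unfold mass
    exact Finset.sum_nonneg fun p _ => by positivity
  rw [← hL]
  have s1 : ∑ n ∈ A, omW T n = ∑ p ∈ T, ((A.filter (fun n => p ∣ n)).card : ℝ) := by
    simp only [omW_eq]
    rw [Finset.sum_comm]
    refine Finset.sum_congr rfl fun p _ => ?_
    rw [Finset.card_filter]
    push_cast
    rfl
  have s2 : ∑ n ∈ A, omW T n ^ 2 =
      ∑ p ∈ T, ∑ q ∈ T, ((A.filter (fun n => p ∣ n ∧ q ∣ n)).card : ℝ) := by
    have e1 : ∀ n, omW T n ^ 2 = ∑ p ∈ T, ∑ q ∈ T, (if p ∣ n ∧ q ∣ n then (1 : ℝ) else 0) := by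
      intro n
      rw [omW_eq, sq, Finset.sum_mul_sum]
      refine Finset.sum_congr rfl fun p _ => Finset.sum_congr rfl fun q _ => ?_
      by_cases hp : p ∣ n <;> by_cases hq : q ∣ n <;> simp [hp, hq]
    simp only [e1]
    rw [Finset.sum_comm]
    refine Finset.sum_congr rfl fun p _ => ?_
    rw [Finset.sum_comm]
    refine Finset.sum_congr rfl fun q _ => ?_
    rw [Finset.card_filter]
    push_cast
    rfl
  have b1 : X * L - T.card ≤ ∑ n ∈ A, omW T n := by
    rw [s1]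
    have e1 : X * L - T.card = ∑ p ∈ T, (X / p - 1) := by
      rw [Finset.sum_sub_distrib, hL]
      unfold mass
      rw [Finset.mul_sum]
      simp [div_eq_mul_inv]
    rw [e1]
    exact Finset.sum_le_sum h1
  have b2 : ∑ n ∈ A, omW T n ^ 2 ≤ X * L + δ * T.card + (X * L ^ 2 + δ * T.card ^ 2) := by
    rw [s2]
    have e1 : X * L + δ * T.card + (X * L ^ 2 + δ * T.card ^ 2) =
        ∑ p ∈ T, ∑ q ∈ T, ((if p = q then X / p + δ else 0) + (X / (p * q) + δ)) := by
      simp only [Finset.sum_add_distrib, Finset.sum_ite_eq, Finset.sum_const, nsmul_eq_mul]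
      have e2 : ∑ p ∈ T, (if p ∈ T then X / (p : ℝ) + δ else 0) = X * L + δ * T.card := by
        rw [Finset.sum_congr rfl (g := fun p : ℕ => X / (p : ℝ) + δ)
          (fun p hp => by rw [if_pos hp]), Finset.sum_add_distrib, hL]
        unfold mass
        rw [Finset.mul_sum, Finset.sum_const, nsmul_eq_mul, mul_comm (T.card : ℝ) δ]
        simp [div_eq_mul_inv]
      have e3 : ∑ p ∈ T, ∑ q ∈ T, X / ((p : ℝ) * q) = X * L ^ 2 := by
        rw [hL]
        unfold mass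
        rw [sq, Finset.sum_mul_sum, Finset.mul_sum]
        refine Finset.sum_congr rfl fun p _ => ?_
        rw [Finset.mul_sum]
        refine Finset.sum_congr rfl fun q _ => ?_
        rw [div_eq_mul_inv, mul_inv]
        ring
      rw [e2, e3]
      ring
    rw [e1]
    refine Finset.sum_le_sum fun p hp => Finset.sum_le_sum fun q hq => ?_
    by_cases hpq : p = q
    · subst hpq
      rw [if_pos rfl]
      have e4 : (A.filter (fun n => p ∣ n ∧ p ∣ n)) = A.filter (fun n => p ∣ n) := by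
        refine Finset.filter_congr fun n _ => ?_
        tauto
      rw [e4]
      have := h2 p hp
      have h5 : 0 ≤ X / ((p : ℝ) * p) + δ := by positivity
      linarith
    · rw [if_neg hpq, zero_add]
      exact h3 p hp q hq hpq
  have e : ∀ n, (omW T n - L) ^ 2 = omW T n ^ 2 - 2 * L * omW T n + L ^ 2 := fun n => by ring
  simp only [e]
  rw [Finset.sum_add_distrib, Finset.sum_sub_distrib, ← Finset.mul_sum, Finset.sum_const,
    nsmul_eq_mul]
  have b3 : 2 * L * (X * L - T.card) ≤ 2 * L * ∑ n ∈ A, omW T n :=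
    mul_le_mul_of_nonneg_left b1 (by positivity)
  have b4 : (A.card : ℝ) * L ^ 2 ≤ (X + δ) * L ^ 2 := mul_le_mul_of_nonneg_right h4 (by positivity)
  nlinarith

theorem mem_Pr {P P' p : ℕ} : p ∈ Pr P P' ↔ (P < p ∧ p ≤ P') ∧ p.Prime := by
  unfold Pr
  rw [mem_filter, mem_Ioc]

theorem card_Pr (P P' : ℕ) : (Pr P P').card ≤ P' := by
  unfold Pr
  refine (Finset.card_filter_le _ _).trans ?_
  rw [Nat.card_Ioc]
  omega

theorem mass_le (T : Finset ℕ) (hT : ∀ p ∈ T, 1 ≤ p) : mass T ≤ T.card := by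
  unfold mass
  have : (T.card : ℝ) = ∑ _p ∈ T, (1 : ℝ) := by simp
  rw [this]
  refine Finset.sum_le_sum fun p hp => ?_
  rw [div_le_one (by exact_mod_cast hT p hp)]
  exact_mod_cast hT p hp

theorem mass_nonneg (T : Finset ℕ) : 0 ≤ mass T := by
  unfold mass
  exact Finset.sum_nonneg fun p _ => by positivity

theorem part1 (N P P' : ℕ) (hN : P' ≤ N) :
    ∑ n ∈ Icc 1 N, (omW (Pr P P') n - mass (Pr P P')) ^ 2 ≤
      4 * (N : ℝ) * (mass (Pr P P') + 1) := by
  have hdiv : ∀ m : ℕ, 1 ≤ m → (((Icc 1 N).filter (fun n => m ∣ n)).card : ℝ) ≤ N / m := by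
    intro m hm
    have h1 : ((Icc 1 N).filter (fun n => m ∣ n)).card = N / m := by
      have := Nat.Ioc_filter_dvd_card_eq_div N m
      rw [← this]
      rfl
    rw [h1]
    exact Nat.cast_div_le
  have hvar := var (Icc 1 N) (Pr P P') N 0 (Nat.cast_nonneg _) le_rfl
    (fun p hp => by
      have hp1 := (mem_Pr.1 hp).2.one_lt.le
      have h1 := cnt N p 0 hp1
      have h2 : ((Icc 1 N).filter (fun n : ℕ => (p : ℤ) ∣ (n : ℤ) - 0)) =
          (Icc 1 N).filter (fun n => p ∣ n) := by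
        refine Finset.filter_congr fun n _ => ?_
        rw [sub_zero, Int.natCast_dvd_natCast]
      rw [h2, abs_le] at h1
      linarith [h1.1])
    (fun p hp => by
      rw [add_zero]
      exact hdiv p (mem_Pr.1 hp).2.one_lt.le)
    (fun p hp q hq hpq => by
      rw [add_zero]
      have hc : Nat.Coprime p q := (Nat.coprime_primes (mem_Pr.1 hp).2 (mem_Pr.1 hq).2).2 hpq
      have h2 : ((Icc 1 N).filter (fun n : ℕ => p ∣ n ∧ q ∣ n)) =
          (Icc 1 N).filter (fun n => p * q ∣ n) := by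
        refine Finset.filter_congr fun n _ => ?_
        constructor
        · rintro ⟨a, b⟩
          exact hc.mul_dvd_of_dvd_of_dvd a b
        · intro a
          exact ⟨(dvd_mul_right _ _).trans a, (dvd_mul_left _ _).trans a⟩
      rw [h2]
      have h3 := hdiv (p * q) (Nat.mul_pos (mem_Pr.1 hp).2.pos (mem_Pr.1 hq).2.pos)
      push_cast at h3
      exact h3)
    (by rw [Nat.card_Icc, add_zero]; simp)
  refine hvar.trans ?_
  have h1 : ((Pr P P').card : ℝ) ≤ N := by exact_mod_cast (card_Pr P P').trans hN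
  have h2 := mass_nonneg (Pr P P')
  have h3 : 2 * mass (Pr P P') * (Pr P P').card ≤ 2 * mass (Pr P P') * N :=
    mul_le_mul_of_nonneg_left h1 (by positivity)
  have h4 : (0 : ℝ) ≤ N := Nat.cast_nonneg _
  nlinarith

theorem part2 (N P P' d : ℕ) (a : ℤ) (hP : 1 ≤ P) (hd : 1 ≤ d) (had : Int.gcd a d = 1)
    (hPN : (P' : ℝ) ^ 2 ≤ (N : ℝ) / d) (hom : (om d : ℝ) ≤ P) :
    ∑ n ∈ (Icc 1 N).filter (fun n : ℕ => (d : ℤ) ∣ (n : ℤ) - a),
      (omW (Pr P P') n - mass (Pr P P')) ^ 2 ≤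
      14 * ((N : ℝ) / d) * (mass (Pr P P') + 1) := by
  classical
  obtain ⟨X, hX⟩ : ∃ X : ℝ, X = (N : ℝ) / d := ⟨_, rfl⟩
  have hX0 : 0 ≤ X := by rw [hX]; positivity
  have hdr : (0 : ℝ) < d := by exact_mod_cast hd
  obtain ⟨A, hA⟩ : ∃ A : Finset ℕ, A = (Icc 1 N).filter (fun n : ℕ => (d : ℤ) ∣ (n : ℤ) - a) :=
    ⟨_, rfl⟩
  rw [← hX] at hPN ⊢
  rw [← hA]
  by_cases hP' : P' = 0
  · have hT : Pr P P' = ∅ := by
      rw [Finset.eq_empty_iff_forall_notMem]
      intro p hp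
      have := mem_Pr.1 hp
      omega
    rw [hT]
    have h1 : ∀ n, omW ∅ n = 0 := fun n => by unfold omW; simp
    have h2 : mass ∅ = 0 := by unfold mass; simp
    simp only [h1, h2]
    simp only [sub_zero, ne_eq, OfNat.ofNat_ne_zero, not_false_eq_true, zero_pow, sum_const_zero]
    positivity
  have hX1 : 1 ≤ X := by
    have : (1 : ℝ) ≤ P' := by exact_mod_cast Nat.one_le_iff_ne_zero.2 hP'
    nlinarith
  -- the primes which do not divide `d`
  obtain ⟨T, hT⟩ : ∃ T : Finset ℕ, T = (Pr P P').filter (fun p => ¬ p ∣ d) := ⟨_, rfl⟩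
  have hTs : T ⊆ Pr P P' := by rw [hT]; exact Finset.filter_subset _ _
  have hTcop : ∀ p ∈ T, Nat.Coprime d p := by
    intro p hp
    rw [hT, mem_filter] at hp
    exact (((mem_Pr.1 hp.1).2.coprime_iff_not_dvd).2 hp.2).symm
  have homW : ∀ n ∈ A, omW (Pr P P') n = omW T n := by
    intro n hn
    unfold omW
    congr 2
    rw [hT, Finset.filter_filter]
    refine Finset.filter_congr fun p hp => ?_
    constructor
    · intro hpn
      refine ⟨fun hpd => ?_, hpn⟩
      rw [hA, mem_filter] at hn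
      have h1 : (p : ℤ) ∣ (n : ℤ) - a := (Int.natCast_dvd_natCast.2 hpd).trans hn.2
      have h2 : (p : ℤ) ∣ (n : ℤ) := Int.natCast_dvd_natCast.2 hpn
      have h3 : (p : ℤ) ∣ a := (dvd_sub_right h2).1 h1
      have h4 : (p : ℤ) ∣ (Int.gcd a d : ℤ) := Int.dvd_coe_gcd h3 (Int.natCast_dvd_natCast.2 hpd)
      rw [had] at h4
      have h5 : p ∣ 1 := by exact_mod_cast h4
      exact (mem_Pr.1 hp).2.one_lt.ne' (Nat.dvd_one.1 h5)
    · exact fun h => h.2
  have hcnt : ∀ m : ℕ, 1 ≤ m → Nat.Coprime d m →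
      |((A.filter (fun n => m ∣ n)).card : ℝ) - X / m| ≤ 1 := by
    intro m hm hc
    obtain ⟨v, hv⟩ := crt d m a hc
    have h1 := cnt N (d * m) v (Nat.mul_pos hd hm)
    have h2 : A.filter (fun n => m ∣ n) =
        (Icc 1 N).filter (fun n : ℕ => ((d * m : ℕ) : ℤ) ∣ (n : ℤ) - v) := by
      rw [hA, Finset.filter_filter]
      refine Finset.filter_congr fun n _ => ?_
      rw [← hv, Int.natCast_dvd_natCast]
    rw [h2, hX, div_div]
    push_cast at h1 ⊢
    exact h1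
  have hAcard : (A.card : ℝ) ≤ X + 1 := by
    have h1 := cnt N d a hd
    rw [← hA, ← hX, abs_le] at h1
    linarith [h1.2]
  have hvar := var A T X 1 hX0 zero_le_one
    (fun p hp => by
      have h1 := hcnt p (mem_Pr.1 (hTs hp)).2.pos (hTcop p hp)
      rw [abs_le] at h1
      linarith [h1.1])
    (fun p hp => by
      have h1 := hcnt p (mem_Pr.1 (hTs hp)).2.pos (hTcop p hp)
      rw [abs_le] at h1
      linarith [h1.2])
    (fun p hp q hq hpq => by
      have hpp := (mem_Pr.1 (hTs hp)).2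
      have hqp := (mem_Pr.1 (hTs hq)).2
      have hc : Nat.Coprime p q := (Nat.coprime_primes hpp hqp).2 hpq
      have h2 : (A.filter (fun n : ℕ => p ∣ n ∧ q ∣ n)) = A.filter (fun n => p * q ∣ n) := by
        refine Finset.filter_congr fun n _ => ?_
        constructor
        · rintro ⟨a, b⟩
          exact hc.mul_dvd_of_dvd_of_dvd a b
        · intro a
          exact ⟨(dvd_mul_right _ _).trans a, (dvd_mul_left _ _).trans a⟩
      rw [h2]
      have h1 := hcnt (p * q) (Nat.mul_pos hpp.pos hqp.pos)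
        (Nat.Coprime.mul_right (hTcop p hp) (hTcop q hq))
      push_cast at h1
      rw [abs_le] at h1
      linarith [h1.2])
    hAcard
  have hTc : (T.card : ℝ) ≤ P' := by
    exact_mod_cast (Finset.card_le_card hTs).trans (card_Pr P P')
  have hTm : mass T ≤ T.card := mass_le T fun p hp => (mem_Pr.1 (hTs hp)).2.pos
  have hTm0 := mass_nonneg T
  have hTL : mass T ≤ mass (Pr P P') := by
    unfold mass
    exact Finset.sum_le_sum_of_subset_of_nonneg hTs fun p _ _ => by positivity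
  have hdiff : mass (Pr P P') - mass T ≤ 1 := by
    have h1 : mass (Pr P P') - mass T = ∑ p ∈ (Pr P P').filter (fun p => p ∣ d), 1 / (p : ℝ) := by
      unfold mass
      rw [hT, ← Finset.sum_filter_add_sum_filter_not (Pr P P') (fun p => p ∣ d)]
      ring
    rw [h1]
    have hPr : (0 : ℝ) < P := by exact_mod_cast hP
    have h2 : ∑ p ∈ (Pr P P').filter (fun p => p ∣ d), 1 / (p : ℝ) ≤
        ∑ _p ∈ (Pr P P').filter (fun p => p ∣ d), 1 / (P : ℝ) := by
      refine Finset.sum_le_sum fun p hp => ?_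
      rw [mem_filter] at hp
      have h3 : (P : ℝ) ≤ p := by exact_mod_cast (mem_Pr.1 hp.1).1.1.le
      exact one_div_le_one_div_of_le hPr h3
    refine h2.trans ?_
    rw [Finset.sum_const, nsmul_eq_mul, mul_one_div, div_le_one hPr]
    have h4 : ((Pr P P').filter (fun p => p ∣ d)).card ≤ om d := by
      unfold om
      refine Finset.card_le_card fun p hp => ?_
      rw [mem_filter] at hp
      rw [Nat.mem_primeFactors]
      exact ⟨(mem_Pr.1 hp.1).2, hp.2, by omega⟩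
    have h5 : (((Pr P P').filter (fun p => p ∣ d)).card : ℝ) ≤ om d := by exact_mod_cast h4
    linarith
  have hTc2 : (T.card : ℝ) ≤ (T.card : ℝ) ^ 2 := by
    have : T.card ≤ T.card ^ 2 := Nat.le_self_pow two_ne_zero _
    exact_mod_cast this
  have hTc0 : (0 : ℝ) ≤ T.card := Nat.cast_nonneg _
  have hTcX : (T.card : ℝ) ^ 2 ≤ X := (pow_le_pow_left₀ hTc0 hTc 2).trans hPN
  have hv2 : ∑ n ∈ A, (omW T n - mass T) ^ 2 ≤ X * mass T + 5 * X := by
    refine hvar.trans ?_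
    have k1 : mass T * T.card ≤ (T.card : ℝ) ^ 2 := by nlinarith
    have k2 : mass T ^ 2 ≤ (T.card : ℝ) ^ 2 := pow_le_pow_left₀ hTm0 hTm 2
    linarith
  have hstep : ∑ n ∈ A, (omW (Pr P P') n - mass (Pr P P')) ^ 2 ≤
      2 * ∑ n ∈ A, (omW T n - mass T) ^ 2 + 2 * A.card := by
    have h1 : 2 * ∑ n ∈ A, (omW T n - mass T) ^ 2 + 2 * (A.card : ℝ) =
        ∑ n ∈ A, (2 * (omW T n - mass T) ^ 2 + 2) := by
      rw [Finset.sum_add_distrib, ← Finset.mul_sum, Finset.sum_const, nsmul_eq_mul]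
      ring
    rw [h1]
    refine Finset.sum_le_sum fun n hn => ?_
    rw [homW n hn]
    have h2 : 0 ≤ mass (Pr P P') - mass T := by linarith
    have h3 : (mass (Pr P P') - mass T) ^ 2 ≤ 1 := by nlinarith
    nlinarith [sq_nonneg ((omW T n - mass T) + (mass (Pr P P') - mass T))]
  have hm0 := mass_nonneg (Pr P P')
  have k3 : X * mass T ≤ X * mass (Pr P P') := mul_le_mul_of_nonneg_left hTL hX0
  have k4 : 0 ≤ X * mass (Pr P P') := mul_nonneg hX0 hm0
  nlinarith

end Pool.Agent.H262R4.FR.TTK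

namespace Pool.Agent.H262R4.FR

theorem t_TK : P_TK := by
  refine ⟨fun N P P' _ h => TTK.part1 N P P' h, 14, by norm_num, ?_⟩
  intro N P P' d a hP hd had hPN hom
  exact TTK.part2 N P P' d a hP hd had hPN hom

end Pool.Agent.H262R4.FR
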