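import Pool.Agent.H262R4.FR.Stubs

/-! Task W4: the off-diagonal terms for factorable moduli (helper212). -/

namespace Pool.Agent.H262R4.FR
namespace TW4

open Finset
open Pool.Agent.H442R2.KF (e kf Wt tau norm_e norm_e_sub_le norm_kf)


theorem om_bound (ε : ℝ) (hε : 0 < ε) :
    ∃ C : ℝ, 1 ≤ C ∧ ∀ d : ℕ, 1 ≤ d → (3 : ℝ) ^ om d ≤ C * (d : ℝ) ^ ε := by
  obtain ⟨M, hM⟩ := exists_nat_ge ((3 : ℝ) ^ (1 / ε))
  have h3 : (0 : ℝ) < 3 ^ (1 / ε) := by positivity
  have hM3 : (3 : ℝ) ≤ (M : ℝ) ^ ε := by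
    calc (3 : ℝ) = ((3 : ℝ) ^ (1 / ε)) ^ ε := by
          rw [← Real.rpow_mul (by norm_num)]
          rw [one_div, inv_mul_cancel₀ hε.ne', Real.rpow_one]
      _ ≤ (M : ℝ) ^ ε := Real.rpow_le_rpow h3.le hM hε.le
  refine ⟨3 ^ M, one_le_pow₀ (by norm_num), fun d hd => ?_⟩
  unfold om
  rw [← Finset.card_filter_add_card_filter_not (s := d.primeFactors) (fun p => p < M), pow_add]
  have hs : (d.primeFactors.filter (fun p => p < M)).card ≤ M := by
    have : d.primeFactors.filter (fun p => p < M) ⊆ range M := by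
      intro p hp
      rw [mem_filter] at hp
      exact mem_range.mpr hp.2
    simpa using card_le_card this
  have h1 : (3 : ℝ) ^ (d.primeFactors.filter (fun p => p < M)).card ≤ 3 ^ M :=
    pow_le_pow_right₀ (by norm_num) hs
  have h2 : (3 : ℝ) ^ (d.primeFactors.filter (fun p => ¬ p < M)).card ≤ (d : ℝ) ^ ε := by
    rw [← Finset.prod_const]
    calc ∏ _p ∈ d.primeFactors.filter (fun p => ¬ p < M), (3 : ℝ)
        ≤ ∏ p ∈ d.primeFactors.filter (fun p => ¬ p < M), (p : ℝ) ^ ε := by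
          apply Finset.prod_le_prod
          · intro _ _; norm_num
          · intro p hp
            rw [mem_filter, not_lt] at hp
            refine hM3.trans (Real.rpow_le_rpow (by positivity) ?_ hε.le)
            exact_mod_cast hp.2
      _ = (∏ p ∈ d.primeFactors.filter (fun p => ¬ p < M), (p : ℝ)) ^ ε := by
          rw [Real.finsetProd_rpow _ _ (fun i _ => by positivity)]
      _ ≤ (d : ℝ) ^ ε := by
          apply Real.rpow_le_rpow (by positivity) _ hε.le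
          have e1 : ∏ p ∈ d.primeFactors.filter (fun p => ¬ p < M), p ≤ d := by
            apply Nat.le_of_dvd (by omega)
            exact (Finset.prod_dvd_prod_of_subset _ _ _ (Finset.filter_subset _ _)).trans
              (Nat.prod_primeFactors_dvd d)
          have e2 : ((∏ p ∈ d.primeFactors.filter (fun p => ¬ p < M), p : ℕ) : ℝ) ≤ d := by
            exact_mod_cast e1
          rwa [Nat.cast_prod] at e2
  exact mul_le_mul h1 h2 (by positivity) (by positivity)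

theorem gauss_lip (k N0 s s' : ℝ) (hk : 0 ≤ k) (hN : 0 < N0) (hs : N0 ≤ s) (hs' : N0 ≤ s') :
    |Real.exp (-(k / s ^ 2)) - Real.exp (-(k / s' ^ 2))| ≤ 2 / N0 * |s - s'| := by
  have hconv : Convex ℝ (Set.Ici N0) := convex_Ici N0
  have hd : ∀ x ∈ Set.Ici N0, HasDerivWithinAt (fun x : ℝ => Real.exp (-(k / x ^ 2)))
      (Real.exp (-(k / x ^ 2)) * (2 * k / x ^ 3)) (Set.Ici N0) x := by
    intro x hx
    have hx0 : 0 < x := lt_of_lt_of_le hN hx
    have h1 : HasDerivAt (fun x : ℝ => -(k / x ^ 2)) (2 * k / x ^ 3) x := by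
      have h2 := ((hasDerivAt_const x k).div (hasDerivAt_pow 2 x) (by positivity)).neg
      refine h2.congr_deriv ?_
      have hx1 : x ≠ 0 := hx0.ne'
      field_simp
      norm_num
      ring
    exact h1.exp.hasDerivWithinAt
  have hb : ∀ x ∈ Set.Ici N0, ‖Real.exp (-(k / x ^ 2)) * (2 * k / x ^ 3)‖ ≤ 2 / N0 := by
    intro x hx
    have hx0 : 0 < x := lt_of_lt_of_le hN hx
    have hx' : N0 ≤ x := hx
    rw [Real.norm_eq_abs, abs_of_nonneg (by positivity)]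
    have e1 : Real.exp (-(k / x ^ 2)) * (2 * k / x ^ 3) =
        (2 / x) * ((k / x ^ 2) * Real.exp (-(k / x ^ 2))) := by
      field_simp
    have e2 : (k / x ^ 2) * Real.exp (-(k / x ^ 2)) ≤ 1 := by
      rw [Real.exp_neg, ← div_eq_mul_inv, div_le_one (Real.exp_pos _)]
      have := Real.add_one_le_exp (k / x ^ 2)
      linarith
    rw [e1]
    calc (2 / x) * ((k / x ^ 2) * Real.exp (-(k / x ^ 2))) ≤ (2 / x) * 1 :=
          mul_le_mul_of_nonneg_left e2 (by positivity)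
      _ = 2 / x := mul_one _
      _ ≤ 2 / N0 := div_le_div_of_nonneg_left (by norm_num) hN hx'
  have := hconv.norm_image_sub_le_of_norm_hasDerivWithin_le hd hb hs' hs
  simpa [Real.norm_eq_abs] using this

theorem gam_lip (c N0 s s' : ℝ) (hN : 0 < N0) (hs : N0 ≤ s) (hs' : N0 ≤ s') :
    |gam (c / s) - gam (c / s')| ≤ 6 / N0 * |s - s'| := by
  have hpi := Real.pi_pos
  have e1 : ∀ x : ℝ, N0 ≤ x → gam (c / x) = 2 * Real.exp (-((4 * Real.pi * c ^ 2) / x ^ 2)) -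
      Real.exp (-((Real.pi * c ^ 2) / x ^ 2)) := by
    intro x hx
    have hx0 : x ≠ 0 := (lt_of_lt_of_le hN hx).ne'
    unfold gam
    congr 2
    · congr 1
      field_simp
      ring
    · field_simp
  have h1 := gauss_lip (4 * Real.pi * c ^ 2) N0 s s' (by positivity) hN hs hs'
  have h2 := gauss_lip (Real.pi * c ^ 2) N0 s s' (by positivity) hN hs hs'
  rw [e1 s hs, e1 s' hs']
  rw [abs_le] at h1 h2 ⊢
  have h3 : 6 / N0 * |s - s'| = 3 * (2 / N0 * |s - s'|) := by ring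
  rw [h3]
  constructor <;> linarith [h1.1, h1.2, h2.1, h2.2]

theorem gam_abs (ξ : ℝ) : |gam ξ| ≤ 2 := by
  unfold gam
  have h1 := Real.exp_pos (-Real.pi * (2 * ξ) ^ 2)
  have h2 := Real.exp_pos (-Real.pi * ξ ^ 2)
  have h3 : Real.exp (-Real.pi * (2 * ξ) ^ 2) ≤ 1 := by
    rw [Real.exp_le_one_iff]
    have := Real.pi_pos
    nlinarith [sq_nonneg (2 * ξ)]
  have h4 : Real.exp (-Real.pi * ξ ^ 2) ≤ 1 := by
    rw [Real.exp_le_one_iff]
    have := Real.pi_pos
    nlinarith [sq_nonneg ξ]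
  rw [abs_le]
  constructor <;> linarith

/-- the weight of one block -/
noncomputable def Phi (N0 c β s : ℝ) : ℂ :=
  ((N0 / s * (gam (c / s) / 2) : ℝ) : ℂ) * e (β / s)

theorem Phi_bd (N0 c β s : ℝ) (hN : 0 < N0) (hs : N0 ≤ s) : ‖Phi N0 c β s‖ ≤ 1 := by
  have hs0 : 0 < s := lt_of_lt_of_le hN hs
  unfold Phi
  rw [norm_mul, norm_e, mul_one, Complex.norm_real, Real.norm_eq_abs, abs_mul]
  have h1 : |N0 / s| ≤ 1 := by
    rw [abs_of_pos (by positivity), div_le_one hs0]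
    exact hs
  have h2 : |gam (c / s) / 2| ≤ 1 := by
    rw [abs_div, abs_of_pos (by norm_num : (0:ℝ) < 2)]
    have := gam_abs (c / s)
    linarith
  calc |N0 / s| * |gam (c / s) / 2| ≤ 1 * 1 := mul_le_mul h1 h2 (abs_nonneg _) zero_le_one
    _ = 1 := one_mul 1

theorem Phi_lip (N0 c β s s' V : ℝ) (hN : 0 < N0) (hs : N0 ≤ s) (hs' : N0 ≤ s')
    (hV : 4 + 2 * Real.pi * (|β| / N0) ≤ V) :
    ‖Phi N0 c β s - Phi N0 c β s'‖ ≤ V * |s - s'| / N0 := by
  have hs0 : 0 < s := lt_of_lt_of_le hN hs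
  have hs0' : 0 < s' := lt_of_lt_of_le hN hs'
  have hd : 0 ≤ |s - s'| := abs_nonneg _
  have h1 : |N0 / s| ≤ 1 := by
    rw [abs_of_pos (by positivity), div_le_one hs0]
    exact hs
  have h2 : ∀ x, |gam (c / x) / 2| ≤ 1 := by
    intro x
    rw [abs_div, abs_of_pos (by norm_num : (0:ℝ) < 2)]
    have := gam_abs (c / x)
    linarith
  have h3 : |N0 / s - N0 / s'| ≤ |s - s'| / N0 := by
    have e1 : N0 / s - N0 / s' = (s' - s) * N0 / (s * s') := by field_simp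
    rw [e1, abs_div, abs_mul, abs_of_pos hN, abs_of_pos (mul_pos hs0 hs0'), abs_sub_comm,
      div_le_div_iff₀ (mul_pos hs0 hs0') hN]
    have : N0 * N0 ≤ s * s' := mul_le_mul hs hs' hN.le hs0.le
    nlinarith
  have h4 : |gam (c / s) / 2 - gam (c / s') / 2| ≤ 3 * |s - s'| / N0 := by
    have := gam_lip c N0 s s' hN hs hs'
    rw [← sub_div, abs_div, abs_of_pos (by norm_num : (0:ℝ) < 2)]
    have e1 : 6 / N0 * |s - s'| = 2 * (3 * |s - s'| / N0) := by ring
    linarith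
  have h5 : ‖e (β / s) - e (β / s')‖ ≤ 2 * Real.pi * (|β| / N0) * |s - s'| / N0 := by
    refine (norm_e_sub_le _ _).trans ?_
    have e1 : β / s - β / s' = β * (s' - s) / (s * s') := by field_simp
    rw [e1, abs_div, abs_mul, abs_of_pos (mul_pos hs0 hs0'), abs_sub_comm s' s]
    have e2 : |β| * |s - s'| / (s * s') ≤ |β| * |s - s'| / (N0 * N0) := by
      apply div_le_div_of_nonneg_left (by positivity) (by positivity)
      exact mul_le_mul hs hs' hN.le hs0.le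
    calc 2 * Real.pi * (|β| * |s - s'| / (s * s')) ≤ 2 * Real.pi * (|β| * |s - s'| / (N0 * N0)) :=
          mul_le_mul_of_nonneg_left e2 (by positivity)
      _ = _ := by field_simp
  unfold Phi
  have e0 : ((N0 / s * (gam (c / s) / 2) : ℝ) : ℂ) * e (β / s) -
      ((N0 / s' * (gam (c / s') / 2) : ℝ) : ℂ) * e (β / s') =
      ((N0 / s * (gam (c / s) / 2) - N0 / s' * (gam (c / s') / 2) : ℝ) : ℂ) * e (β / s') +
      ((N0 / s * (gam (c / s) / 2) : ℝ) : ℂ) * (e (β / s) - e (β / s')) := by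
    push_cast
    ring
  rw [e0]
  refine (norm_add_le _ _).trans ?_
  rw [norm_mul, norm_mul, norm_e, mul_one, Complex.norm_real, Complex.norm_real, Real.norm_eq_abs,
    Real.norm_eq_abs]
  have h6 : |N0 / s * (gam (c / s) / 2) - N0 / s' * (gam (c / s') / 2)| ≤ 4 * |s - s'| / N0 := by
    have e1 : N0 / s * (gam (c / s) / 2) - N0 / s' * (gam (c / s') / 2) =
        N0 / s * (gam (c / s) / 2 - gam (c / s') / 2) + (N0 / s - N0 / s') * (gam (c / s') / 2) := by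
      ring
    rw [e1]
    refine (abs_add_le _ _).trans ?_
    rw [abs_mul, abs_mul]
    have i1 : |N0 / s| * |gam (c / s) / 2 - gam (c / s') / 2| ≤ 1 * (3 * |s - s'| / N0) :=
      mul_le_mul h1 h4 (abs_nonneg _) zero_le_one
    have i2 : |N0 / s - N0 / s'| * |gam (c / s') / 2| ≤ (|s - s'| / N0) * 1 :=
      mul_le_mul h3 (h2 _) (abs_nonneg _) (by positivity)
    have e3 : 4 * |s - s'| / N0 = 1 * (3 * |s - s'| / N0) + (|s - s'| / N0) * 1 := by ring
    linarith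
  have h7 : |N0 / s * (gam (c / s) / 2)| ≤ 1 := by
    rw [abs_mul]
    calc |N0 / s| * |gam (c / s) / 2| ≤ 1 * 1 := mul_le_mul h1 (h2 _) (abs_nonneg _) zero_le_one
      _ = 1 := one_mul 1
  have h8 : |N0 / s * (gam (c / s) / 2)| * ‖e (β / s) - e (β / s')‖ ≤
      1 * (2 * Real.pi * (|β| / N0) * |s - s'| / N0) :=
    mul_le_mul h7 h5 (norm_nonneg _) zero_le_one
  have h9 : (4 + 2 * Real.pi * (|β| / N0)) * |s - s'| / N0 ≤ V * |s - s'| / N0 := by
    apply div_le_div_of_nonneg_right _ hN.le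
    exact mul_le_mul_of_nonneg_right hV hd
  have e4 : (4 + 2 * Real.pi * (|β| / N0)) * |s - s'| / N0 = 4 * |s - s'| / N0 +
      1 * (2 * Real.pi * (|β| / N0) * |s - s'| / N0) := by ring
  linarith



theorem cop_iff {p1 p2 : ℕ} (hp1 : p1.Prime) (hp2 : p2.Prime) (hne : p1 ≠ p2) (g e1 e2 : ℕ) :
    (Nat.Coprime e1 e2 ∧ good (g * e1) (g * e2) p1 p2) ↔
      (Nat.Coprime (e1 * p2) (p1 * e2) ∧ Nat.Coprime (p1 * p2) (g * e1) ∧
        Nat.Coprime (p1 * p2) (g * e2)) := by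
  unfold good
  constructor
  · rintro ⟨h1, -, h2⟩
    have h3 : Nat.Coprime (p1 * p2) (g * e1) := h2.coprime_mul_right_right
    have h4 : Nat.Coprime (p1 * p2) (g * e2) := h2.coprime_mul_left_right
    refine ⟨?_, h3, h4⟩
    have h5 : Nat.Coprime p1 e1 := (h3.coprime_mul_left_right).coprime_mul_right
    have h6 : Nat.Coprime p2 e2 := (h4.coprime_mul_left_right).coprime_mul_left
    have h7 : Nat.Coprime p2 p1 := (Nat.coprime_primes hp2 hp1).mpr hne.symm
    exact Nat.Coprime.mul_left (Nat.Coprime.mul_right h5.symm h1) (Nat.Coprime.mul_right h7 h6)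
  · rintro ⟨h1, h2, h3⟩
    refine ⟨?_, hne, Nat.Coprime.mul_right h2 h3⟩
    exact (h1.coprime_mul_right).coprime_mul_left_right

theorem sum_dyadic (f : ℕ → ℝ) (n : ℕ) :
    ∑ k ∈ Ico 1 (2 ^ n), f k = ∑ i ∈ range n, ∑ k ∈ Ico (2 ^ i) (2 * 2 ^ i), f k := by
  induction n with
  | zero => simp
  | succ n ih =>
    rw [Finset.sum_range_succ, ← ih, ← pow_succ']
    exact (Finset.sum_Ico_consecutive _ (Nat.one_le_two_pow) (Nat.pow_le_pow_right (by norm_num)
      (Nat.le_succ n))).symm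

/-- a sum over `n`, written as a sum over factorizations -/
theorem sum_fact (G : ℕ → ℝ) (fa fb : ℕ → ℕ) (I : Finset ℕ)
    (h : ∀ n, G n ≠ 0 → fa n * fb n = n ∧ fa n ∈ I ∧ fb n ∈ I) (h' : ∀ n, G n ≠ 0 → n ∈ I) :
    ∑ n ∈ I, G n = ∑ k ∈ I, ∑ l ∈ I, if fa (k * l) = k ∧ fb (k * l) = l then G (k * l) else 0 := by
  classical
  rw [← Finset.sum_product']
  rw [← Finset.sum_filter_ne_zero]
  conv_rhs => rw [← Finset.sum_filter_ne_zero]
  refine Finset.sum_nbij' (fun n => (fa n, fb n)) (fun x => x.1 * x.2) ?_ ?_ ?_ ?_ ?_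
  · intro n hn
    rw [mem_filter] at hn
    obtain ⟨h1, h2, h3⟩ := h n hn.2
    rw [mem_filter, mem_product]
    refine ⟨⟨h2, h3⟩, ?_⟩
    simp only [h1, and_self, if_true]
    exact hn.2
  · rintro ⟨k, l⟩ hx
    rw [mem_filter, mem_product] at hx
    have h1 := hx.2
    simp only at h1
    rw [mem_filter]
    have h2 : G (k * l) ≠ 0 := by
      intro h0
      apply h1
      rw [h0, ite_self]
    exact ⟨h' _ h2, h2⟩
  · intro n hn
    rw [mem_filter] at hn
    exact (h n hn.2).1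
  · rintro ⟨k, l⟩ hx
    rw [mem_filter] at hx
    have h1 := hx.2
    simp only at h1
    have h2 : fa (k * l) = k ∧ fb (k * l) = l := by
      by_contra h3
      apply h1
      rw [if_neg h3]
    simp only [h2.1, h2.2]
  · intro n hn
    rw [mem_filter] at hn
    obtain ⟨h1, h2, h3⟩ := h n hn.2
    simp only [h1, and_self, if_true]

/-- sorting pairs by the gcd -/
theorem sum_gcd (S : Finset ℕ) (N : ℕ) (hS : ∀ d ∈ S, 1 ≤ d ∧ d ≤ N) (F : ℕ → ℕ → ℝ) :
    ∑ d1 ∈ S, ∑ d2 ∈ S, F d1 d2 = ∑ g ∈ Icc 1 N, ∑ e1 ∈ Icc 1 N, ∑ e2 ∈ Icc 1 N,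
      if g * e1 ∈ S ∧ g * e2 ∈ S ∧ Nat.Coprime e1 e2 then F (g * e1) (g * e2) else 0 := by
  classical
  have e0 : ∑ g ∈ Icc 1 N, ∑ e1 ∈ Icc 1 N, ∑ e2 ∈ Icc 1 N,
      (if g * e1 ∈ S ∧ g * e2 ∈ S ∧ Nat.Coprime e1 e2 then F (g * e1) (g * e2) else 0) =
      ∑ x ∈ (Icc 1 N ×ˢ (Icc 1 N ×ˢ Icc 1 N)).filter
        (fun x => x.1 * x.2.1 ∈ S ∧ x.1 * x.2.2 ∈ S ∧ Nat.Coprime x.2.1 x.2.2),
        F (x.1 * x.2.1) (x.1 * x.2.2) := by
    rw [Finset.sum_filter, Finset.sum_product]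
    refine Finset.sum_congr rfl fun g _ => ?_
    rw [Finset.sum_product]
  rw [e0, ← Finset.sum_product']
  refine Finset.sum_nbij' (fun x => (Nat.gcd x.1 x.2, x.1 / Nat.gcd x.1 x.2, x.2 / Nat.gcd x.1 x.2))
    (fun x => (x.1 * x.2.1, x.1 * x.2.2)) ?_ ?_ ?_ ?_ ?_
  · rintro ⟨d1, d2⟩ hx
    rw [mem_product] at hx
    obtain ⟨h1, h1'⟩ := hS _ hx.1
    obtain ⟨h2, h2'⟩ := hS _ hx.2
    simp only at h1 h1' h2 h2'
    have hg : 0 < Nat.gcd d1 d2 := Nat.gcd_pos_of_pos_left _ (by omega)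
    have hd1 := Nat.gcd_dvd_left d1 d2
    have hd2 := Nat.gcd_dvd_right d1 d2
    rw [mem_filter, mem_product, mem_product, mem_Icc, mem_Icc, mem_Icc]
    simp only
    refine ⟨⟨⟨hg, (Nat.le_of_dvd (by omega) hd1).trans h1'⟩, ⟨?_, ?_⟩, ?_, ?_⟩, ?_, ?_, ?_⟩
    · exact Nat.div_pos (Nat.le_of_dvd (by omega) hd1) hg
    · exact (Nat.div_le_self _ _).trans h1'
    · exact Nat.div_pos (Nat.le_of_dvd (by omega) hd2) hg
    · exact (Nat.div_le_self _ _).trans h2'
    · rw [Nat.mul_div_cancel' hd1]; exact hx.1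
    · rw [Nat.mul_div_cancel' hd2]; exact hx.2
    · exact Nat.coprime_div_gcd_div_gcd hg
  · rintro ⟨g, e1, e2⟩ hx
    rw [mem_filter] at hx
    rw [mem_product]
    exact ⟨hx.2.1, hx.2.2.1⟩
  · rintro ⟨d1, d2⟩ _
    simp only [Nat.mul_div_cancel' (Nat.gcd_dvd_left d1 d2),
      Nat.mul_div_cancel' (Nat.gcd_dvd_right d1 d2)]
  · rintro ⟨g, e1, e2⟩ hx
    rw [mem_filter, mem_product, mem_Icc] at hx
    obtain ⟨⟨hg, -⟩, -, -, hc⟩ := hx
    simp only at hg hc
    have hgg : Nat.gcd (g * e1) (g * e2) = g := by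
      rw [Nat.gcd_mul_left, hc.gcd_eq_one, mul_one]
    simp only [hgg, Nat.mul_div_cancel_left _ (by omega : 0 < g)]
  · rintro ⟨d1, d2⟩ _
    simp only [Nat.mul_div_cancel' (Nat.gcd_dvd_left d1 d2),
      Nat.mul_div_cancel' (Nat.gcd_dvd_right d1 d2)]

end TW4
end Pool.Agent.H262R4.FR
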