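import Pool.Agent.H262R4.FR.W4a

namespace Pool.Agent.H262R4.FR
namespace TW4

open Finset
open Pool.Agent.H442R2.KF (e kf Wt tau norm_e norm_e_sub_le norm_kf)

/-- the statement of `P_W2` with fixed constants -/
def W2s (ε C : ℝ) : Prop := ∀ (E K L J p1 p2 : ℕ) (b : ℤ) (V : ℝ)
    (c1 : ℕ → ℝ) (c2 : ℕ → ℕ → ℝ) (Φ : ℕ → ℝ → ℂ), 1 ≤ E → 1 ≤ K → 1 ≤ L → 1 ≤ J →
    p1.Prime → p2.Prime → p1 ≠ p2 → b ≠ 0 → 1 ≤ V → (∀ n, |c1 n| ≤ 1) →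
    (∀ k l, |c2 k l| ≤ 1) →
    (∀ k l, c2 k l ≠ 0 → Squarefree (k * l) ∧ Nat.Coprime (k * l) (p1 * p2)) →
    (∀ (j : ℕ) (s : ℝ), ((E * K * L : ℕ) : ℝ) ≤ s → ‖Φ j s‖ ≤ 1) →
    (∀ (j : ℕ) (s s' : ℝ), ((E * K * L : ℕ) : ℝ) ≤ s → ((E * K * L : ℕ) : ℝ) ≤ s' →
      ‖Φ j s - Φ j s'‖ ≤ V * |s - s'| / (E * K * L : ℕ)) →
    ‖∑ e1 ∈ Ico E (2 * E), ∑ k ∈ Ico K (2 * K), ∑ l ∈ Ico L (2 * L),
      if Nat.Coprime (e1 * p2) (p1 * (k * l)) then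
        ((c1 e1 * c2 k l : ℝ) : ℂ) * ∑ j ∈ Icc 1 J, Φ j ((e1 : ℝ) * k * l) *
          kf ((j : ℤ) * b) ((e1 * p2 : ℕ) : ℤ) (p1 * (k * l))
      else 0‖ ^ 2 ≤
      C * V * ((p1 : ℝ) * p2 * |(b : ℝ)| * E * K * L * J) ^ ε *
        ((E : ℝ) ^ 2 * K ^ 2 * L * J + |(b : ℝ)| * p1 *
          ((E : ℝ) * (K : ℝ) ^ (5 / 2 : ℝ) * L ^ 3 * J ^ 2 +
            (E : ℝ) ^ 2 * (K : ℝ) ^ (3 / 2 : ℝ) * L * J ^ 3))

/-- the statement of `P_PHX` with a fixed constant -/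
def PHXs (Y0 : ℕ) : Prop := ∀ (a : ℤ) (Y d1 d2 p1 p2 g e1 e2 : ℕ) (t : ℤ) (J : ℕ), Y0 ≤ Y →
    a ≠ 0 →
    1 ≤ g → 1 ≤ e1 → 1 ≤ e2 → d1 = g * e1 → d2 = g * e2 → Nat.Coprime e1 e2 →
    p1.Prime → p2.Prime → good d1 d2 p1 p2 → Int.gcd a d1 = 1 → Int.gcd a d2 = 1 →
    (p2 : ℤ) - p1 = g * t → ((g * e1 * e2 : ℕ) : ℝ) ≤ (Y : ℝ) ^ 3 →
    ((g * e1 * e2 : ℕ) : ℝ) * Real.log (2 * Y) ≤ (J + 1) * Y →
    |S11 a Y d1 d2 p1 p2 - (Y : ℝ) / (g * e1 * e2 : ℕ) -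
      2 * ((Y : ℝ) / (g * e1 * e2 : ℕ)) *
        (∑ j ∈ Icc 1 J, ((gam ((j : ℝ) * Y / (g * e1 * e2 : ℕ)) : ℝ) : ℂ) *
          e ((j : ℝ) * a / ((p1 : ℝ) * (g * e1 * e2 : ℕ))) *
          kf (-((j : ℤ) * a * t)) ((e1 * p2 : ℕ) : ℤ) (p1 * e2)).re| ≤ 1 / (Y : ℝ) ^ 4

/-- one off-diagonal term -/
noncomputable def Am (a : ℤ) (lam : ℕ → ℝ) (S : Finset ℕ) (Y p1 p2 g e1 e2 : ℕ) : ℝ :=
  if g * e1 ∈ S ∧ g * e2 ∈ S ∧ Nat.Coprime e1 e2 ∧ good (g * e1) (g * e2) p1 p2 then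
    lam (g * e1) * lam (g * e2) * (S11 a Y (g * e1) (g * e2) p1 p2 - (Y : ℝ) / (g * e1 * e2 : ℕ))
  else 0

open Classical in
noncomputable def cc1 (lam : ℕ → ℝ) (S : Finset ℕ) (B0 : ℝ) (p1 p2 g n : ℕ) : ℝ :=
  if g * n ∈ S ∧ Nat.Coprime (p1 * p2) (g * n) then lam (g * n) / B0 else 0

open Classical in
noncomputable def cc2 (lam : ℕ → ℝ) (S : Finset ℕ) (fa fb : ℕ → ℕ) (B0 : ℝ) (p1 p2 g k l : ℕ) : ℝ :=
  if fa (k * l) = k ∧ fb (k * l) = l ∧ g * (k * l) ∈ S ∧ Nat.Coprime (p1 * p2) (g * (k * l)) then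
    lam (g * (k * l)) / B0 else 0

/-- one term of the bilinear form -/
noncomputable def Tm (a : ℤ) (lam : ℕ → ℝ) (S : Finset ℕ) (fa fb : ℕ → ℕ) (B0 : ℝ)
    (Y p1 p2 g J N0 : ℕ) (t : ℤ) (e1 k l : ℕ) : ℂ :=
  if Nat.Coprime (e1 * p2) (p1 * (k * l)) then
    ((cc1 lam S B0 p1 p2 g e1 * cc2 lam S fa fb B0 p1 p2 g k l : ℝ) : ℂ) *
      ∑ j ∈ Icc 1 J, Phi (N0 : ℝ) ((j : ℝ) * Y / g) ((j : ℝ) * a / ((p1 : ℝ) * g))
        ((e1 : ℝ) * k * l) * kf ((j : ℤ) * (-(a * t))) ((e1 * p2 : ℕ) : ℤ) (p1 * (k * l))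
  else 0

theorem term_bd {a : ℤ} {lam : ℕ → ℝ} {S : Finset ℕ} {fa fb : ℕ → ℕ} {B0 : ℝ}
    {Y Y0 p1 p2 g J N0 N : ℕ} {t : ℤ} (h3 : PHXs Y0) (ha : a ≠ 0) (hY0 : Y0 ≤ Y) (hY : 3 ≤ Y)
    (hp1 : p1.Prime) (hp2 : p2.Prime) (hne : p1 ≠ p2) (hg : 1 ≤ g) (ht : (p2 : ℤ) - p1 = g * t)
    (hS : ∀ d ∈ S, Int.gcd a d = 1) (hSN : ∀ d ∈ S, d ≤ N) (hNY : (N : ℝ) ^ 2 ≤ (Y : ℝ) ^ 3)
    (hB : 0 < B0) (hlam : ∀ d ∈ S, |lam d| ≤ B0) (hN0 : 1 ≤ N0)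
    {e1 k l : ℕ} (he1 : 1 ≤ e1) (hk : 1 ≤ k) (hl : 1 ≤ l)
    (hJ : ((g * e1 * (k * l) : ℕ) : ℝ) * Real.log (2 * Y) ≤ (J + 1) * Y) :
    |(if fa (k * l) = k ∧ fb (k * l) = l then Am a lam S Y p1 p2 g e1 (k * l) else 0) -
      4 * Y * B0 ^ 2 / (g * N0) * (Tm a lam S fa fb B0 Y p1 p2 g J N0 t e1 k l).re| ≤
      B0 ^ 2 / (Y : ℝ) ^ 4 := by
  have hY' : (0 : ℝ) < Y := by exact_mod_cast (by omega : 0 < Y)
  have hg' : (0 : ℝ) < g := by exact_mod_cast hg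
  have hN0' : (0 : ℝ) < N0 := by exact_mod_cast hN0
  have he1' : (0 : ℝ) < e1 := by exact_mod_cast he1
  have hk' : (0 : ℝ) < k := by exact_mod_cast hk
  have hl' : (0 : ℝ) < l := by exact_mod_cast hl
  have hpos : 0 ≤ B0 ^ 2 / (Y : ℝ) ^ 4 := by positivity
  by_cases hsel : fa (k * l) = k ∧ fb (k * l) = l
  swap
  · rw [if_neg hsel]
    have : Tm a lam S fa fb B0 Y p1 p2 g J N0 t e1 k l = 0 := by
      unfold Tm
      have hc : cc2 lam S fa fb B0 p1 p2 g k l = 0 := by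
        unfold cc2
        rw [if_neg]
        rintro ⟨h1, h2, -⟩
        exact hsel ⟨h1, h2⟩
      rw [hc]
      simp
    rw [this]
    simpa using hpos
  rw [if_pos hsel]
  by_cases hcond : g * e1 ∈ S ∧ g * (k * l) ∈ S ∧ Nat.Coprime e1 (k * l) ∧
      good (g * e1) (g * (k * l)) p1 p2
  · have hiff := (cop_iff hp1 hp2 hne g e1 (k * l)).1 hcond.2.2
    have hkl : 1 ≤ k * l := Nat.mul_pos hk hl
    have hkl' : (0 : ℝ) < ((k * l : ℕ) : ℝ) := by exact_mod_cast hkl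
    have hle : ((g * e1 * (k * l) : ℕ) : ℝ) ≤ (Y : ℝ) ^ 3 := by
      refine le_trans ?_ hNY
      have h1 : g * e1 ≤ N := hSN _ hcond.1
      have h2 : g * (k * l) ≤ N := hSN _ hcond.2.1
      have h3' : k * l ≤ g * (k * l) := Nat.le_mul_of_pos_left _ (by omega)
      have h4 : g * e1 * (k * l) ≤ N * N := Nat.mul_le_mul h1 (h3'.trans h2)
      have h5 : ((g * e1 * (k * l) : ℕ) : ℝ) ≤ ((N * N : ℕ) : ℝ) := by exact_mod_cast h4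
      refine h5.trans (le_of_eq ?_)
      push_cast
      ring
    have hph := h3 a Y (g * e1) (g * (k * l)) p1 p2 g e1 (k * l) t J hY0 ha hg he1 hkl rfl rfl
      hcond.2.2.1 hp1 hp2 hcond.2.2.2 (hS _ hcond.1) (hS _ hcond.2.1) ht hle hJ
    unfold Am
    rw [if_pos hcond]
    have hT : Tm a lam S fa fb B0 Y p1 p2 g J N0 t e1 k l =
        (((lam (g * e1) / B0) * (lam (g * (k * l)) / B0) * ((N0 : ℝ) / ((e1 : ℝ) * k * l) / 2) : ℝ) : ℂ) *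
        (∑ j ∈ Icc 1 J, ((gam ((j : ℝ) * Y / (g * e1 * (k * l) : ℕ)) : ℝ) : ℂ) *
          e ((j : ℝ) * a / ((p1 : ℝ) * (g * e1 * (k * l) : ℕ))) *
          kf (-((j : ℤ) * a * t)) ((e1 * p2 : ℕ) : ℤ) (p1 * (k * l))) := by
      unfold Tm
      rw [if_pos hiff.1]
      have hc1 : cc1 lam S B0 p1 p2 g e1 = lam (g * e1) / B0 := by
        unfold cc1
        rw [if_pos ⟨hcond.1, hiff.2.1⟩]
      have hc2 : cc2 lam S fa fb B0 p1 p2 g k l = lam (g * (k * l)) / B0 := by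
        unfold cc2
        rw [if_pos ⟨hsel.1, hsel.2, hcond.2.1, hiff.2.2⟩]
      rw [hc1, hc2, Finset.mul_sum, Finset.mul_sum]
      refine Finset.sum_congr rfl fun j _ => ?_
      unfold Phi
      have i1 : (j : ℝ) * Y / g / ((e1 : ℝ) * k * l) = (j : ℝ) * Y / (g * e1 * (k * l) : ℕ) := by
        push_cast
        field_simp
      have i2 : (j : ℝ) * a / ((p1 : ℝ) * g) / ((e1 : ℝ) * k * l) =
          (j : ℝ) * a / ((p1 : ℝ) * (g * e1 * (k * l) : ℕ)) := by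
        push_cast
        rw [div_div]
        congr 1
        ring
      have i3 : (j : ℤ) * (-(a * t)) = -((j : ℤ) * a * t) := by ring
      rw [i1, i2, i3]
      push_cast
      ring
    rw [hT, Complex.re_ofReal_mul]
    generalize (∑ j ∈ Icc 1 J, ((gam ((j : ℝ) * Y / (g * e1 * (k * l) : ℕ)) : ℝ) : ℂ) *
          e ((j : ℝ) * a / ((p1 : ℝ) * (g * e1 * (k * l) : ℕ))) *
          kf (-((j : ℤ) * a * t)) ((e1 * p2 : ℕ) : ℤ) (p1 * (k * l))).re = R at hph ⊢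
    generalize S11 a Y (g * e1) (g * (k * l)) p1 p2 = s11 at hph ⊢
    have hkey : lam (g * e1) * lam (g * (k * l)) * (s11 - (Y : ℝ) / (g * e1 * (k * l) : ℕ)) -
        4 * Y * B0 ^ 2 / (g * N0) * ((lam (g * e1) / B0) * (lam (g * (k * l)) / B0) *
          ((N0 : ℝ) / ((e1 : ℝ) * k * l) / 2) * R) =
        lam (g * e1) * lam (g * (k * l)) * (s11 - (Y : ℝ) / (g * e1 * (k * l) : ℕ) -
          2 * ((Y : ℝ) / (g * e1 * (k * l) : ℕ)) * R) := by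
      push_cast
      field_simp
      ring
    rw [hkey, abs_mul, abs_mul]
    have i4 : |lam (g * e1)| * |lam (g * (k * l))| ≤ B0 * B0 :=
      mul_le_mul (hlam _ hcond.1) (hlam _ hcond.2.1) (abs_nonneg _) hB.le
    calc _ ≤ (B0 * B0) * (1 / (Y : ℝ) ^ 4) := mul_le_mul i4 hph (abs_nonneg _) (by positivity)
      _ = _ := by ring
  · unfold Am
    rw [if_neg hcond]
    have : Tm a lam S fa fb B0 Y p1 p2 g J N0 t e1 k l = 0 := by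
      unfold Tm
      by_cases h1 : Nat.Coprime (e1 * p2) (p1 * (k * l))
      · rw [if_pos h1]
        by_cases h2 : g * e1 ∈ S ∧ Nat.Coprime (p1 * p2) (g * e1)
        · by_cases h4 : g * (k * l) ∈ S ∧ Nat.Coprime (p1 * p2) (g * (k * l))
          · exfalso
            apply hcond
            have := (cop_iff hp1 hp2 hne g e1 (k * l)).2 ⟨h1, h2.2, h4.2⟩
            exact ⟨h2.1, h4.1, this⟩
          · have hc : cc2 lam S fa fb B0 p1 p2 g k l = 0 := by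
              unfold cc2
              rw [if_neg]
              rintro ⟨-, -, h5, h6⟩
              exact h4 ⟨h5, h6⟩
            rw [hc]
            simp
        · have hc : cc1 lam S B0 p1 p2 g e1 = 0 := by
            unfold cc1
            rw [if_neg h2]
          rw [hc]
          simp
      · rw [if_neg h1]
    rw [this]
    simpa using hpos

end TW4
end Pool.Agent.H262R4.FR
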