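import Pool.Agent.H262R4.FR.W4b

namespace Pool.Agent.H262R4.FR
namespace TW4

open Finset
open Pool.Agent.H442R2.KF (e kf Wt tau norm_e norm_e_sub_le norm_kf)

/-- the trilinear form of one block -/
theorem T_bd {ε C2 : ℝ} (hε : 0 < ε) (hC2 : 0 < C2) (h2 : W2s ε C2) {a : ℤ} {lam : ℕ → ℝ}
    {S : Finset ℕ} {fa fb : ℕ → ℕ} {B0 : ℝ} {Y p1 p2 g : ℕ} {t : ℤ} (ha : a ≠ 0) (hY : 3 ≤ Y)
    (hp1 : p1.Prime) (hp2 : p2.Prime) (hne : p1 ≠ p2) (hg : 1 ≤ g) (ht : (p2 : ℤ) - p1 = g * t)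
    (hsq : ∀ d, lam d ≠ 0 → Squarefree d)
    (hB : 0 < B0) (hlam : ∀ d ∈ S, |lam d| ≤ B0)
    (E K L J : ℕ) (hE : 1 ≤ E) (hK : 1 ≤ K) (hL : 1 ≤ L)
    (hJ : (J : ℝ) ≤ 8 * g * (E * K * L) * Real.log (2 * Y) / Y) :
    ‖∑ e1 ∈ Ico E (2 * E), ∑ k ∈ Ico K (2 * K), ∑ l ∈ Ico L (2 * L),
      Tm a lam S fa fb B0 Y p1 p2 g J (E * K * L) t e1 k l‖ ^ 2 ≤
      C2 * (60 * |(a : ℝ)|) * ((p1 : ℝ) * p2 * (|(a : ℝ)| * |(t : ℝ)|) * E * K * L * J) ^ ε *
        ((E : ℝ) ^ 2 * K ^ 2 * L * J + (|(a : ℝ)| * |(t : ℝ)|) * p1 *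
          ((E : ℝ) * (K : ℝ) ^ (5 / 2 : ℝ) * L ^ 3 * J ^ 2 +
            (E : ℝ) ^ 2 * (K : ℝ) ^ (3 / 2 : ℝ) * L * J ^ 3)) := by
  have hY' : (0 : ℝ) < Y := by exact_mod_cast (by omega : 0 < Y)
  have hg' : (0 : ℝ) < g := by exact_mod_cast hg
  have hp1' : (2 : ℝ) ≤ p1 := by exact_mod_cast hp1.two_le
  have hE' : (0 : ℝ) < E := by exact_mod_cast hE
  have hK' : (0 : ℝ) < K := by exact_mod_cast hK
  have hL' : (0 : ℝ) < L := by exact_mod_cast hL
  have hN0 : 1 ≤ E * K * L := Nat.mul_pos (Nat.mul_pos hE hK) hL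
  have hN0' : (0 : ℝ) < ((E * K * L : ℕ) : ℝ) := by exact_mod_cast hN0
  have ha1 : (1 : ℝ) ≤ |(a : ℝ)| := by
    have : (1 : ℤ) ≤ |a| := Int.one_le_abs ha
    exact_mod_cast this
  have ht0 : t ≠ 0 := by
    rintro rfl
    rw [mul_zero, sub_eq_zero] at ht
    exact hne (by exact_mod_cast ht.symm)
  rcases Nat.eq_zero_or_pos J with hJ0 | hJ1
  · subst hJ0
    have h0 : ∀ e1 k l, Tm a lam S fa fb B0 Y p1 p2 g 0 (E * K * L) t e1 k l = 0 := by
      intro e1 k l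
      unfold Tm
      simp
    simp only [h0]
    simp only [Finset.sum_const_zero, norm_zero]
    have : (0 : ℝ) ^ 2 = 0 := by norm_num
    rw [this]
    positivity
  have hb : -(a * t) ≠ 0 := neg_ne_zero.mpr (mul_ne_zero ha ht0)
  have hlog : Real.log (2 * Y) ≤ 2 * Y := by
    have := Real.log_le_sub_one_of_pos (by positivity : (0 : ℝ) < 2 * Y)
    linarith
  have hlog0 : 0 ≤ Real.log (2 * Y) := by
    apply Real.log_nonneg
    have : (3 : ℝ) ≤ Y := by exact_mod_cast hY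
    linarith
  have hbeta : ∀ j : ℕ, j ≤ J → |(j : ℝ) * a / ((p1 : ℝ) * g)| / ((E * K * L : ℕ) : ℝ) ≤
      8 * |(a : ℝ)| := by
    intro j hj
    have hj' : (j : ℝ) ≤ J := by exact_mod_cast hj
    have h1 : (j : ℝ) ≤ 8 * g * (E * K * L) * Real.log (2 * Y) / Y := hj'.trans hJ
    rw [abs_div, abs_mul, Nat.abs_cast, abs_of_pos (by positivity : (0:ℝ) < (p1 : ℝ) * g),
      div_div, div_le_iff₀ (by positivity)]
    have h2 : 8 * g * (E * K * L) * Real.log (2 * Y) / Y ≤ 8 * g * (E * K * L) * 2 := by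
      rw [div_le_iff₀ hY']
      have h3 : 0 ≤ 8 * (g : ℝ) * (E * K * L) := by positivity
      nlinarith
    have h4 : (j : ℝ) ≤ 8 * g * (E * K * L) * p1 := by
      refine h1.trans (h2.trans ?_)
      have h3 : 0 ≤ 8 * (g : ℝ) * (E * K * L) := by positivity
      nlinarith
    calc (j : ℝ) * |(a : ℝ)| ≤ (8 * g * (E * K * L) * p1) * |(a : ℝ)| :=
          mul_le_mul_of_nonneg_right h4 (abs_nonneg _)
      _ = _ := by push_cast; ring
  have hmain := h2 E K L J p1 p2 (-(a * t)) (60 * |(a : ℝ)|) (cc1 lam S B0 p1 p2 g)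
    (cc2 lam S fa fb B0 p1 p2 g)
    (fun j s => if j ≤ J then Phi ((E * K * L : ℕ) : ℝ) ((j : ℝ) * Y / g)
      ((j : ℝ) * a / ((p1 : ℝ) * g)) s else 0)
    hE hK hL hJ1 hp1 hp2 hne hb (by linarith) ?_ ?_ ?_ ?_ ?_
  · have e1 : |((-(a * t) : ℤ) : ℝ)| = |(a : ℝ)| * |(t : ℝ)| := by
      push_cast
      rw [abs_neg, abs_mul]
    rw [e1] at hmain
    refine le_trans (le_of_eq ?_) hmain
    congr 2
    refine Finset.sum_congr rfl fun e1 _ => Finset.sum_congr rfl fun k _ =>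
      Finset.sum_congr rfl fun l _ => ?_
    unfold Tm
    split_ifs with h
    · congr 1
      refine Finset.sum_congr rfl fun j hj => ?_
      rw [mem_Icc] at hj
      rw [if_pos hj.2]
    · rfl
  · intro n
    unfold cc1
    split_ifs with h
    · rw [abs_div, abs_of_pos hB, div_le_one hB]
      exact hlam _ h.1
    · simp
  · intro k l
    unfold cc2
    split_ifs with h
    · rw [abs_div, abs_of_pos hB, div_le_one hB]
      exact hlam _ h.2.2.1
    · simp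
  · intro k l h
    unfold cc2 at h
    split_ifs at h with h1
    · have h3 : lam (g * (k * l)) ≠ 0 := by
        intro h4
        apply h
        rw [h4, zero_div]
      refine ⟨(hsq _ h3).of_mul_right, ?_⟩
      exact (h1.2.2.2.coprime_mul_left_right).symm
    · exact absurd rfl h
  · intro j s hs
    split_ifs with h
    · exact Phi_bd _ _ _ _ hN0' hs
    · simp
  · intro j s s' hs hs'
    split_ifs with h
    · apply Phi_lip _ _ _ _ _ _ hN0' hs hs'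
      have h1 := hbeta j h
      have hpi := Real.pi_lt_d2
      have hpi0 := Real.pi_pos
      have h5 : 2 * Real.pi * (|(j : ℝ) * a / ((p1 : ℝ) * g)| / ((E * K * L : ℕ) : ℝ)) ≤
          2 * 3.15 * (8 * |(a : ℝ)|) :=
        mul_le_mul (by linarith) h1 (by positivity) (by norm_num)
      linarith
    · rw [sub_self, norm_zero]
      positivity

end TW4
end Pool.Agent.H262R4.FR
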