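import Pool.Agent.H262R4.FR.W4m
import Pool.Agent.H262R4.FR.W4d

namespace Pool.Agent.H262R4.FR
namespace TW4

open Finset
open Pool.Agent.H442R2.KF (e kf Wt tau norm_e norm_e_sub_le norm_kf)

/-- the common data of one application -/
structure Ctx (a : ℤ) (κ δ C2 B0 : ℝ) (Y0 Y P Z : ℕ) (S : Finset ℕ) (lam : ℕ → ℝ) : Prop where
  hκ : κ = 15 * δ / 4
  hδ : 0 < δ
  hκ1 : κ ≤ 1 / 5
  hC2 : 0 < C2
  h2 : W2s (κ / 100) C2
  h3 : PHXs Y0
  ha : a ≠ 0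
  hY0 : Y0 ≤ Y
  hY : 3 ≤ Y
  hP : 1 ≤ P
  hPr : (P : ℝ) ≤ ((Y : ℝ) * P) ^ (κ / 100)
  hZ : (Z : ℝ) ^ 2 ≤ ((Y : ℝ) * P) ^ (8 / 15 - δ)
  hS : ∀ d ∈ S, 1 ≤ d ∧ d ≤ Z ^ 2 ∧ Int.gcd a d = 1
  hsq : ∀ d, lam d ≠ 0 → Squarefree d
  hB : 0 < B0
  hlam : ∀ d ∈ S, |lam d| ≤ B0

theorem x_low {ρ x Y P : ℝ} (hx : 1 ≤ x) (hxe : x = Y * P) (hY : 0 ≤ Y) (hP : P ≤ x ^ ρ) :
    x ^ (1 - ρ) ≤ Y := by
  have hx0 : 0 < x := by linarith
  rw [Real.rpow_sub hx0, Real.rpow_one, div_le_iff₀ (by positivity)]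
  calc x = Y * P := hxe
    _ ≤ Y * x ^ ρ := mul_le_mul_of_nonneg_left hP hY

/-- the constant of a block -/
noncomputable def C3 (C2 A ε : ℝ) : ℝ :=
  C2 * (60 * A) * (64 * A) * (512 * (8 / ε ^ 3)) * (5 * A)

set_option maxHeartbeats 4000000 in
theorem block_bd {a : ℤ} {κ δ C2 B0 : ℝ} {Y0 Y P Z : ℕ} {S : Finset ℕ} {lam : ℕ → ℝ}
    (c : Ctx a κ δ C2 B0 Y0 Y P Z S lam) {p1 p2 g : ℕ} {t : ℤ} (hp1 : p1.Prime) (hp2 : p2.Prime)
    (hne : p1 ≠ p2) (hp1' : p1 ≤ 2 * P) (hp2' : p2 ≤ 2 * P) (htP : |(t : ℝ)| ≤ P) (hg : 1 ≤ g)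
    (ht : (p2 : ℤ) - p1 = g * t) {fa fb : ℕ → ℕ}
    (hfa : ∀ n, lam (g * n) ≠ 0 → fa n ≤ Z ∧ fb n ≤ Z)
    {E K L : ℕ} (hE : 1 ≤ E) (hK : 1 ≤ K) (hL : 1 ≤ L) :
    |∑ e1 ∈ Ico E (2 * E), ∑ k ∈ Ico K (2 * K), ∑ l ∈ Ico L (2 * L),
      (if fa (k * l) = k ∧ fb (k * l) = l then Am a lam S Y p1 p2 g e1 (k * l) else 0)| ≤
      B0 ^ 2 * Y * ((Y : ℝ) * P) ^ (-(2 * κ / 5)) * (4 * √(C3 C2 |(a : ℝ)| (κ / 100)) + 1) := by
  have hB := c.hB
  have hC3 : 0 ≤ C3 C2 |(a : ℝ)| (κ / 100) := by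
    have := c.hC2
    have hk : 0 < κ := by rw [c.hκ]; have := c.hδ; positivity
    unfold C3
    positivity
  have hrhs : 0 ≤ B0 ^ 2 * Y * ((Y : ℝ) * P) ^ (-(2 * κ / 5)) *
      (4 * √(C3 C2 |(a : ℝ)| (κ / 100)) + 1) := by positivity
  by_cases hall : ∀ e1 ∈ Ico E (2 * E), ∀ k ∈ Ico K (2 * K), ∀ l ∈ Ico L (2 * L),
      (if fa (k * l) = k ∧ fb (k * l) = l then Am a lam S Y p1 p2 g e1 (k * l) else 0) = 0
  · rw [Finset.sum_eq_zero fun e1 h1 => Finset.sum_eq_zero fun k h2 =>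
      Finset.sum_eq_zero fun l h3 => hall e1 h1 k h2 l h3, abs_zero]
    exact hrhs
  push Not at hall
  obtain ⟨e1, he1, k, hk, l, hl, hne0⟩ := hall
  rw [mem_Ico] at he1 hk hl
  have hsel : fa (k * l) = k ∧ fb (k * l) = l := by
    by_contra h
    exact hne0 (if_neg h)
  rw [if_pos hsel] at hne0
  have hcond : g * e1 ∈ S ∧ g * (k * l) ∈ S ∧ Nat.Coprime e1 (k * l) ∧
      good (g * e1) (g * (k * l)) p1 p2 := by
    by_contra h
    exact hne0 (by unfold Am; rw [if_neg h])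
  have hlam0 : lam (g * (k * l)) ≠ 0 := by
    intro h
    apply hne0
    unfold Am
    rw [if_pos hcond, h]
    ring
  have hfz := hfa _ hlam0
  rw [hsel.1, hsel.2] at hfz
  -- numeric data
  set x : ℝ := (Y : ℝ) * P with hxdef
  have hY3 : (3 : ℝ) ≤ Y := by exact_mod_cast c.hY
  have hP1 : (1 : ℝ) ≤ P := by exact_mod_cast c.hP
  have hYx : (Y : ℝ) ≤ x := by
    rw [hxdef]
    nlinarith
  have hx : 1 ≤ x := by linarith
  have hx0 : 0 < x := by linarith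
  have hδ := c.hδ
  have hκ := c.hκ
  have hκ1 := c.hκ1
  have hκ0 : 0 < κ := by rw [hκ]; positivity
  have hxY : x ^ (1 - κ / 100) ≤ Y := x_low hx hxdef (by positivity) c.hPr
  have hA : (1 : ℝ) ≤ |(a : ℝ)| := by
    have : (1 : ℤ) ≤ |a| := Int.one_le_abs c.ha
    exact_mod_cast this
  have hE' : (1 : ℝ) ≤ E := by exact_mod_cast hE
  have hK' : (1 : ℝ) ≤ K := by exact_mod_cast hK
  have hL' : (1 : ℝ) ≤ L := by exact_mod_cast hL
  have hg' : (1 : ℝ) ≤ g := by exact_mod_cast hg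
  have hz1 : (g : ℝ) * E ≤ (Z : ℝ) ^ 2 := by
    have h1 := (c.hS _ hcond.1).2.1
    have h2 : g * E ≤ g * e1 := Nat.mul_le_mul_left _ he1.1
    exact_mod_cast h2.trans h1
  have hz2 : (g : ℝ) * (K * L) ≤ (Z : ℝ) ^ 2 := by
    have h1 := (c.hS _ hcond.2.1).2.1
    have h2 : g * (K * L) ≤ g * (k * l) := Nat.mul_le_mul_left _ (Nat.mul_le_mul hk.1 hl.1)
    exact_mod_cast h2.trans h1
  have hz3 : (K : ℝ) ≤ Z := by exact_mod_cast hk.1.trans hfz.1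
  have hz4 : (L : ℝ) ≤ Z := by exact_mod_cast hl.1.trans hfz.2
  set J : ℕ := ⌊8 * (g : ℝ) * (E * K * L) * Real.log (2 * Y) / Y⌋₊ with hJdef
  have hlog0 : 0 ≤ Real.log (2 * (Y : ℝ)) := Real.log_nonneg (by linarith)
  have hJ1 : (J : ℝ) ≤ 8 * (g : ℝ) * (E * K * L) * Real.log (2 * Y) / Y :=
    Nat.floor_le (by positivity)
  have hJ2 : 8 * (g : ℝ) * (E * K * L) * Real.log (2 * Y) / Y < J + 1 := Nat.lt_floor_add_one _
  -- the trilinear form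
  have hT := T_bd (ε := κ / 100) (by positivity) c.hC2 c.h2 (a := a) (lam := lam) (S := S)
    (fa := fa) (fb := fb) (B0 := B0) (Y := Y) (p1 := p1) (p2 := p2) (g := g) (t := t) c.ha c.hY hp1
    hp2 hne hg ht c.hsq hB c.hlam E K L J hE hK hL hJ1
  have hN := num3 (C2 := C2) (ε := κ / 100) (ρ := κ / 100) (δ := δ) (κ := κ) (x := x) (Y := Y)
    (P := P) (A := |(a : ℝ)|) (p1 := p1) (p2 := p2) (t := |(t : ℝ)|) (E := E) (K := K) (L := L)
    (g := g) (z := Z) (J := J) c.hC2 (by positivity) (by linarith) (by positivity) (by linarith) hδ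
    hκ hκ1 hx hY3 hYx hxY (by positivity) c.hPr hA (by positivity) (by exact_mod_cast hp1')
    (by positivity) (by exact_mod_cast hp2') (abs_nonneg _) htP hE' hK' hL' hg' (by positivity)
    hz1 hz2 hz3 hz4 c.hZ (by positivity) hJ1
  set T : ℂ := ∑ e1 ∈ Ico E (2 * E), ∑ k ∈ Ico K (2 * K), ∑ l ∈ Ico L (2 * L),
      Tm a lam S fa fb B0 Y p1 p2 g J (E * K * L) t e1 k l with hTdef
  have hT2 : ‖T‖ ≤ √(C3 C2 |(a : ℝ)| (κ / 100)) * (E * K * L) * x ^ (-(2 * κ / 5)) := by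
    have h1 : ‖T‖ ^ 2 ≤ C3 C2 |(a : ℝ)| (κ / 100) * (E * K * L) ^ 2 *
        x ^ (-κ + 6 * (κ / 100) + 5 * (κ / 100)) := hT.trans hN
    have h2 : x ^ (-κ + 6 * (κ / 100) + 5 * (κ / 100)) ≤ (x ^ (-(2 * κ / 5))) ^ 2 := by
      rw [← Real.rpow_natCast (x ^ (-(2 * κ / 5))), ← Real.rpow_mul hx0.le]
      apply Real.rpow_le_rpow_of_exponent_le hx
      push_cast
      linarith
    apply le_of_pow_le_pow_left₀ (n := 2) (by norm_num) (by positivity)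
    calc ‖T‖ ^ 2 ≤ _ := h1
      _ ≤ C3 C2 |(a : ℝ)| (κ / 100) * (E * K * L) ^ 2 * (x ^ (-(2 * κ / 5))) ^ 2 :=
          mul_le_mul_of_nonneg_left h2 (by positivity)
      _ = √(C3 C2 |(a : ℝ)| (κ / 100)) ^ 2 * (E * K * L) ^ 2 * (x ^ (-(2 * κ / 5))) ^ 2 := by
          rw [Real.sq_sqrt hC3]
      _ = _ := by ring
  -- the terms
  have hZY : (((Z ^ 2 : ℕ) : ℝ)) ^ 2 ≤ (Y : ℝ) ^ 3 := by
    push_cast
    calc ((Z : ℝ) ^ 2) ^ 2 ≤ (x ^ (8 / 15 - δ)) ^ 2 := pow_le_pow_left₀ (by positivity) c.hZ 2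
      _ = x ^ ((8 / 15 - δ) * 2) := by
          rw [Real.rpow_mul hx0.le]
          exact (Real.rpow_natCast _ 2).symm
      _ ≤ x ^ ((1 - κ / 100) * 3) := Real.rpow_le_rpow_of_exponent_le hx (by linarith)
      _ = (x ^ (1 - κ / 100)) ^ 3 := by
          rw [Real.rpow_mul hx0.le]
          exact Real.rpow_natCast _ 3
      _ ≤ (Y : ℝ) ^ 3 := pow_le_pow_left₀ (by positivity) hxY 3
  have hterm : ∀ e1 ∈ Ico E (2 * E), ∀ k ∈ Ico K (2 * K), ∀ l ∈ Ico L (2 * L),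
      |(if fa (k * l) = k ∧ fb (k * l) = l then Am a lam S Y p1 p2 g e1 (k * l) else 0) -
      4 * Y * B0 ^ 2 / (g * (E * K * L : ℕ)) *
        (Tm a lam S fa fb B0 Y p1 p2 g J (E * K * L) t e1 k l).re| ≤ B0 ^ 2 / (Y : ℝ) ^ 4 := by
    intro e1 he1 k hk l hl
    rw [mem_Ico] at he1 hk hl
    refine term_bd c.h3 c.ha c.hY0 c.hY hp1 hp2 hne hg ht (fun d hd => (c.hS d hd).2.2)
      (fun d hd => (c.hS d hd).2.1) hZY hB c.hlam (Nat.mul_pos (Nat.mul_pos hE hK) hL)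
      (by omega) (by omega) (by omega) ?_
    have h1 : ((g * e1 * (k * l) : ℕ) : ℝ) ≤ 8 * (g : ℝ) * (E * K * L) := by
      have h2 : g * e1 * (k * l) ≤ g * (2 * E) * ((2 * K) * (2 * L)) :=
        Nat.mul_le_mul (Nat.mul_le_mul_left _ he1.2.le) (Nat.mul_le_mul hk.2.le hl.2.le)
      have h3 : ((g * e1 * (k * l) : ℕ) : ℝ) ≤ ((g * (2 * E) * ((2 * K) * (2 * L)) : ℕ) : ℝ) := by
        exact_mod_cast h2
      refine h3.trans (le_of_eq ?_)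
      push_cast
      ring
    rw [div_lt_iff₀ (by positivity)] at hJ2
    exact (mul_le_mul_of_nonneg_right h1 hlog0).trans hJ2.le
  have hsum : |∑ e1 ∈ Ico E (2 * E), ∑ k ∈ Ico K (2 * K), ∑ l ∈ Ico L (2 * L),
      (if fa (k * l) = k ∧ fb (k * l) = l then Am a lam S Y p1 p2 g e1 (k * l) else 0) -
      4 * Y * B0 ^ 2 / (g * (E * K * L : ℕ)) * T.re| ≤ (E * K * L) * (B0 ^ 2 / (Y : ℝ) ^ 4) := by
    have h1 : 4 * Y * B0 ^ 2 / (g * (E * K * L : ℕ)) * T.re =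
        ∑ e1 ∈ Ico E (2 * E), ∑ k ∈ Ico K (2 * K), ∑ l ∈ Ico L (2 * L),
          4 * Y * B0 ^ 2 / (g * (E * K * L : ℕ)) *
            (Tm a lam S fa fb B0 Y p1 p2 g J (E * K * L) t e1 k l).re := by
      rw [hTdef]
      simp only [Complex.re_sum, Finset.mul_sum]
    rw [h1]
    simp only [← Finset.sum_sub_distrib]
    calc _ ≤ ∑ e1 ∈ Ico E (2 * E), ∑ k ∈ Ico K (2 * K), ∑ l ∈ Ico L (2 * L),
          (B0 ^ 2 / (Y : ℝ) ^ 4) := by
          refine (Finset.abs_sum_le_sum_abs _ _).trans (Finset.sum_le_sum fun e1 he1 => ?_)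
          refine (Finset.abs_sum_le_sum_abs _ _).trans (Finset.sum_le_sum fun k hk => ?_)
          refine (Finset.abs_sum_le_sum_abs _ _).trans (Finset.sum_le_sum fun l hl => ?_)
          exact hterm e1 he1 k hk l hl
      _ = _ := by
          simp only [Finset.sum_const, Nat.card_Ico, nsmul_eq_mul]
          have e1 : 2 * E - E = E := by omega
          have e2 : 2 * K - K = K := by omega
          have e3 : 2 * L - L = L := by omega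
          rw [e1, e2, e3]
          ring
  have hmain : |4 * Y * B0 ^ 2 / (g * (E * K * L : ℕ)) * T.re| ≤
      4 * Y * B0 ^ 2 * √(C3 C2 |(a : ℝ)| (κ / 100)) * x ^ (-(2 * κ / 5)) := by
    have hN0 : (0 : ℝ) < (E * K * L : ℕ) := by
      exact_mod_cast Nat.mul_pos (Nat.mul_pos hE hK) hL
    rw [abs_mul, abs_of_nonneg (by positivity)]
    have h1 : |T.re| ≤ √(C3 C2 |(a : ℝ)| (κ / 100)) * (E * K * L) * x ^ (-(2 * κ / 5)) :=
      (Complex.abs_re_le_norm T).trans hT2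
    calc 4 * Y * B0 ^ 2 / (g * (E * K * L : ℕ)) * |T.re| ≤
        4 * Y * B0 ^ 2 / (g * (E * K * L : ℕ)) *
          (√(C3 C2 |(a : ℝ)| (κ / 100)) * (E * K * L) * x ^ (-(2 * κ / 5))) :=
          mul_le_mul_of_nonneg_left h1 (by positivity)
      _ = (4 * Y * B0 ^ 2 * √(C3 C2 |(a : ℝ)| (κ / 100)) * x ^ (-(2 * κ / 5))) / g := by
          push_cast
          field_simp
      _ ≤ _ := div_le_self (by positivity) hg'
  have herr : ((E : ℝ) * K * L) * (B0 ^ 2 / (Y : ℝ) ^ 4) ≤ B0 ^ 2 * Y * x ^ (-(2 * κ / 5)) := by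
    have h1 : (E : ℝ) * K * L ≤ (Y : ℝ) ^ 5 * x ^ (-(2 * κ / 5)) := by
      calc (E : ℝ) * K * L = E * (K * L) := by ring
        _ ≤ (g * E) * (g * (K * L)) := by
            have e1 : (E : ℝ) ≤ g * E := le_mul_of_one_le_left (by positivity) hg'
            have e2 : (K : ℝ) * L ≤ g * (K * L) := le_mul_of_one_le_left (by positivity) hg'
            exact mul_le_mul e1 e2 (by positivity) (by positivity)
        _ ≤ (Z : ℝ) ^ 2 * (Z : ℝ) ^ 2 := mul_le_mul hz1 hz2 (by positivity) (by positivity)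
        _ ≤ x ^ (8 / 15 - δ) * x ^ (8 / 15 - δ) :=
            mul_le_mul c.hZ c.hZ (by positivity) (by positivity)
        _ = x ^ ((8 / 15 - δ) + (8 / 15 - δ)) := by rw [Real.rpow_add hx0]
        _ ≤ x ^ ((1 - κ / 100) * 5 + (-(2 * κ / 5))) :=
            Real.rpow_le_rpow_of_exponent_le hx (by linarith)
        _ = (x ^ (1 - κ / 100)) ^ 5 * x ^ (-(2 * κ / 5)) := by
            rw [Real.rpow_add hx0, Real.rpow_mul hx0.le]
            congr 1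
            exact Real.rpow_natCast _ 5
        _ ≤ _ := by
            apply mul_le_mul_of_nonneg_right _ (by positivity)
            exact pow_le_pow_left₀ (by positivity) hxY 5
    calc ((E : ℝ) * K * L) * (B0 ^ 2 / (Y : ℝ) ^ 4) ≤
        ((Y : ℝ) ^ 5 * x ^ (-(2 * κ / 5))) * (B0 ^ 2 / (Y : ℝ) ^ 4) :=
          mul_le_mul_of_nonneg_right h1 (by positivity)
      _ = _ := by
          field_simp
  have hfin := abs_add_le (∑ e1 ∈ Ico E (2 * E), ∑ k ∈ Ico K (2 * K), ∑ l ∈ Ico L (2 * L),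
      (if fa (k * l) = k ∧ fb (k * l) = l then Am a lam S Y p1 p2 g e1 (k * l) else 0) -
      4 * Y * B0 ^ 2 / (g * (E * K * L : ℕ)) * T.re)
    (4 * Y * B0 ^ 2 / (g * (E * K * L : ℕ)) * T.re)
  rw [sub_add_cancel] at hfin
  refine hfin.trans ?_
  calc _ ≤ B0 ^ 2 * Y * x ^ (-(2 * κ / 5)) +
        4 * Y * B0 ^ 2 * √(C3 C2 |(a : ℝ)| (κ / 100)) * x ^ (-(2 * κ / 5)) :=
        add_le_add (hsum.trans herr) hmain
    _ = _ := by ring

end TW4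
end Pool.Agent.H262R4.FR
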