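import Pool.Agent.H262R4.FR.W4e

namespace Pool.Agent.H262R4.FR
namespace TW4

open Finset
open Pool.Agent.H442R2.KF (e kf Wt tau norm_e norm_e_sub_le norm_kf)

theorem sum_dyadic3 (H : ℕ → ℕ → ℕ → ℝ) (n : ℕ) :
    ∑ e ∈ Ico 1 (2 ^ n), ∑ k ∈ Ico 1 (2 ^ n), ∑ l ∈ Ico 1 (2 ^ n), H e k l =
      ∑ i ∈ range n, ∑ j ∈ range n, ∑ m ∈ range n,
        ∑ e ∈ Ico (2 ^ i) (2 * 2 ^ i), ∑ k ∈ Ico (2 ^ j) (2 * 2 ^ j),
          ∑ l ∈ Ico (2 ^ m) (2 * 2 ^ m), H e k l := by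
  rw [sum_dyadic]
  refine Finset.sum_congr rfl fun i _ => ?_
  calc _ = ∑ e ∈ Ico (2 ^ i) (2 * 2 ^ i), ∑ j ∈ range n, ∑ m ∈ range n,
        ∑ k ∈ Ico (2 ^ j) (2 * 2 ^ j), ∑ l ∈ Ico (2 ^ m) (2 * 2 ^ m), H e k l := by
        refine Finset.sum_congr rfl fun e _ => ?_
        rw [sum_dyadic]
        refine Finset.sum_congr rfl fun j _ => ?_
        calc _ = ∑ k ∈ Ico (2 ^ j) (2 * 2 ^ j), ∑ m ∈ range n,
              ∑ l ∈ Ico (2 ^ m) (2 * 2 ^ m), H e k l :=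
              Finset.sum_congr rfl fun k _ => sum_dyadic _ n
          _ = _ := Finset.sum_comm
    _ = _ := by
        rw [Finset.sum_comm]
        refine Finset.sum_congr rfl fun j _ => ?_
        rw [Finset.sum_comm]

/-- the bound for one block -/
noncomputable def Bd (a : ℤ) (κ C2 B0 : ℝ) (Y P : ℕ) : ℝ :=
  B0 ^ 2 * Y * ((Y : ℝ) * P) ^ (-(2 * κ / 5)) * (4 * √(C3 C2 |(a : ℝ)| (κ / 100)) + 1)

theorem Bd_nonneg (a : ℤ) (κ C2 B0 : ℝ) (Y P : ℕ) : 0 ≤ Bd a κ C2 B0 Y P := by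
  unfold Bd
  positivity

theorem Am_zero {a : ℤ} {lam : ℕ → ℝ} {S : Finset ℕ} {Y p1 p2 g e1 e2 : ℕ}
    (h : ¬ (g * e1 ∈ S ∧ lam (g * e2) ≠ 0 ∧ g * e2 ∈ S)) : Am a lam S Y p1 p2 g e1 e2 = 0 := by
  unfold Am
  split_ifs with h1
  · have : lam (g * e2) = 0 := by
      by_contra h2
      exact h ⟨h1.1, h2, h1.2.1⟩
    rw [this]
    ring
  · rfl

theorem g_bd {a : ℤ} {κ δ C2 B0 : ℝ} {Y0 Y P Z : ℕ} {S : Finset ℕ} {lam : ℕ → ℝ}
    (c : Ctx a κ δ C2 B0 Y0 Y P Z S lam) (hfac : ∀ d, lam d ≠ 0 → ∃ k l : ℕ, k ≤ Z ∧ l ≤ Z ∧ d = k * l)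
    {p1 p2 g : ℕ} {t : ℤ} (hp1 : p1.Prime) (hp2 : p2.Prime)
    (hne : p1 ≠ p2) (hp1' : p1 ≤ 2 * P) (hp2' : p2 ≤ 2 * P) (htP : |(t : ℝ)| ≤ P) (hg : 1 ≤ g)
    (ht : (p2 : ℤ) - p1 = g * t) :
    |∑ e1 ∈ Icc 1 (Z ^ 2), ∑ e2 ∈ Icc 1 (Z ^ 2), Am a lam S Y p1 p2 g e1 e2| ≤
      ((Nat.log 2 (Z ^ 2) + 1 : ℕ) : ℝ) ^ 3 * Bd a κ C2 B0 Y P := by
  classical
  set n := Nat.log 2 (Z ^ 2) + 1 with hn
  have hN : Z ^ 2 < 2 ^ n := Nat.lt_pow_succ_log_self (by norm_num) _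
  have hex : ∀ m : ℕ, lam (g * m) ≠ 0 → ∃ k l : ℕ, k ≤ Z ∧ l ≤ Z ∧ k * l = m := by
    intro m hm
    obtain ⟨k, l, hk, hl, hkl⟩ := hfac _ hm
    have hdvd : g ∣ k * l := hkl ▸ Dvd.intro m rfl
    obtain ⟨g1, g2, h1, h2, h3⟩ := exists_dvd_and_dvd_of_dvd_mul hdvd
    obtain ⟨k', hk'⟩ := h1
    obtain ⟨l', hl'⟩ := h2
    have hg1 : 0 < g1 := by
      rcases Nat.eq_zero_or_pos g1 with h | h
      · rw [h, zero_mul] at h3
        omega
      · exact h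
    have hg2 : 0 < g2 := by
      rcases Nat.eq_zero_or_pos g2 with h | h
      · rw [h, mul_zero] at h3
        omega
      · exact h
    refine ⟨k', l', ?_, ?_, ?_⟩
    · exact (Nat.le_mul_of_pos_left k' hg1).trans (hk' ▸ hk)
    · exact (Nat.le_mul_of_pos_left l' hg2).trans (hl' ▸ hl)
    · have h4 : g * m = g * (k' * l') := by
        rw [hkl, hk', hl', h3]
        ring
      exact (Nat.eq_of_mul_eq_mul_left (by omega) h4).symm
  choose! fa fb hfa using hex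
  have hmem : ∀ m : ℕ, lam (g * m) ≠ 0 → g * m ∈ S → 1 ≤ m ∧ m < 2 ^ n := by
    intro m _ hm
    have h1 := c.hS _ hm
    have h2 : m ≠ 0 := by
      rintro rfl
      simp at h1
    refine ⟨by omega, lt_of_le_of_lt ?_ hN⟩
    exact (Nat.le_mul_of_pos_left m (by omega)).trans h1.2.1
  have hmem1 : ∀ m : ℕ, g * m ∈ S → 1 ≤ m ∧ m ≤ Z ^ 2 := by
    intro m hm
    have h1 := c.hS _ hm
    have h2 : m ≠ 0 := by
      rintro rfl
      simp at h1
    exact ⟨by omega, (Nat.le_mul_of_pos_left m (by omega)).trans h1.2.1⟩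
  have hsub : Icc 1 (Z ^ 2) ⊆ Ico 1 (2 ^ n) := by
    intro m hm
    rw [mem_Icc] at hm
    rw [mem_Ico]
    exact ⟨hm.1, lt_of_le_of_lt hm.2 hN⟩
  have e1 : ∑ e1 ∈ Icc 1 (Z ^ 2), ∑ e2 ∈ Icc 1 (Z ^ 2), Am a lam S Y p1 p2 g e1 e2 =
      ∑ e1 ∈ Ico 1 (2 ^ n), ∑ k ∈ Ico 1 (2 ^ n), ∑ l ∈ Ico 1 (2 ^ n),
        if fa (k * l) = k ∧ fb (k * l) = l then Am a lam S Y p1 p2 g e1 (k * l) else 0 := by
    rw [Finset.sum_subset hsub]
    · refine Finset.sum_congr rfl fun e1 _ => ?_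
      rw [Finset.sum_subset hsub]
      · apply sum_fact
        · intro m hm
          have h1 : g * e1 ∈ S ∧ lam (g * m) ≠ 0 ∧ g * m ∈ S := by
            by_contra h
            exact hm (Am_zero h)
          have h2 := hfa m h1.2.1
          have h3 := hmem m h1.2.1 h1.2.2
          have h4 : fa m ≠ 0 := by
            intro h
            rw [h, zero_mul] at h2
            omega
          have h5 : fb m ≠ 0 := by
            intro h
            rw [h, mul_zero] at h2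
            omega
          refine ⟨h2.2.2, ?_, ?_⟩
          · rw [mem_Ico]
            refine ⟨by omega, lt_of_le_of_lt ?_ h3.2⟩
            calc fa m ≤ fa m * fb m := Nat.le_mul_of_pos_right _ (by omega)
              _ = m := h2.2.2
          · rw [mem_Ico]
            refine ⟨by omega, lt_of_le_of_lt ?_ h3.2⟩
            calc fb m ≤ fa m * fb m := Nat.le_mul_of_pos_left _ (by omega)
              _ = m := h2.2.2
        · intro m hm
          have h1 : g * e1 ∈ S ∧ lam (g * m) ≠ 0 ∧ g * m ∈ S := by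
            by_contra h
            exact hm (Am_zero h)
          rw [mem_Ico]
          exact hmem m h1.2.1 h1.2.2
      · intro e2 _ he2
        apply Am_zero
        rintro ⟨_, _, h⟩
        apply he2
        rw [mem_Icc]
        exact hmem1 _ h
    · intro e1 _ he1
      apply Finset.sum_eq_zero
      intro e2 _
      apply Am_zero
      rintro ⟨h, _, _⟩
      apply he1
      rw [mem_Icc]
      exact hmem1 _ h
  rw [e1, sum_dyadic3]
  calc _ ≤ ∑ i ∈ range n, ∑ j ∈ range n, ∑ m ∈ range n, Bd a κ C2 B0 Y P := by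
        refine (Finset.abs_sum_le_sum_abs _ _).trans (Finset.sum_le_sum fun i _ => ?_)
        refine (Finset.abs_sum_le_sum_abs _ _).trans (Finset.sum_le_sum fun j _ => ?_)
        refine (Finset.abs_sum_le_sum_abs _ _).trans (Finset.sum_le_sum fun m _ => ?_)
        exact block_bd c hp1 hp2 hne hp1' hp2' htP hg ht
          (fun m hm => ⟨(hfa m hm).1, (hfa m hm).2.1⟩) Nat.one_le_two_pow Nat.one_le_two_pow
          Nat.one_le_two_pow
    _ = _ := by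
        simp only [Finset.sum_const, card_range, nsmul_eq_mul]
        ring

/-- one off-diagonal term -/
noncomputable def Fm (a : ℤ) (lam : ℕ → ℝ) (Y p1 p2 d1 d2 : ℕ) : ℝ :=
  if good d1 d2 p1 p2 then lam d1 * lam d2 * (S11 a Y d1 d2 p1 p2 - mn Y d1 d2 p1 p2) else 0

theorem pair_bd (hPH : P_PH) {a : ℤ} {κ δ C2 B0 : ℝ} {Y0 Y P Z : ℕ} {S : Finset ℕ} {lam : ℕ → ℝ}
    (c : Ctx a κ δ C2 B0 Y0 Y P Z S lam) (hfac : ∀ d, lam d ≠ 0 → ∃ k l : ℕ, k ≤ Z ∧ l ≤ Z ∧ d = k * l)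
    {p1 p2 : ℕ} (hp1 : p1.Prime) (hp2 : p2.Prime)
    (hne : p1 ≠ p2) (hp1' : p1 ≤ 2 * P) (hp2' : p2 ≤ 2 * P) (h12 : |(p2 : ℤ) - p1| ≤ P) :
    |∑ d1 ∈ S, ∑ d2 ∈ S, Fm a lam Y p1 p2 d1 d2| ≤
      (P : ℝ) * (((Nat.log 2 (Z ^ 2) + 1 : ℕ) : ℝ) ^ 3 * Bd a κ C2 B0 Y P) := by
  classical
  have hBd : 0 ≤ ((Nat.log 2 (Z ^ 2) + 1 : ℕ) : ℝ) ^ 3 * Bd a κ C2 B0 Y P :=
    mul_nonneg (by positivity) (Bd_nonneg _ _ _ _ _ _)
  rw [sum_gcd S (Z ^ 2) (fun d hd => ⟨(c.hS d hd).1, (c.hS d hd).2.1⟩) (Fm a lam Y p1 p2)]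
  have hg : ∀ g ∈ Icc 1 (Z ^ 2), |∑ e1 ∈ Icc 1 (Z ^ 2), ∑ e2 ∈ Icc 1 (Z ^ 2),
      (if g * e1 ∈ S ∧ g * e2 ∈ S ∧ Nat.Coprime e1 e2 then Fm a lam Y p1 p2 (g * e1) (g * e2)
        else 0)| ≤ if g ≤ P then ((Nat.log 2 (Z ^ 2) + 1 : ℕ) : ℝ) ^ 3 * Bd a κ C2 B0 Y P else 0 := by
    intro g hg
    rw [mem_Icc] at hg
    by_cases hd : (g : ℤ) ∣ (p2 : ℤ) - p1
    · obtain ⟨t, ht⟩ := hd
      have ht0 : t ≠ 0 := by
        rintro rfl
        rw [mul_zero, sub_eq_zero] at ht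
        exact hne (by exact_mod_cast ht.symm)
      have ht1 : 1 ≤ |t| := Int.one_le_abs ht0
      have hgt : (g : ℤ) * |t| ≤ P := by
        rw [ht, abs_mul, Nat.abs_cast] at h12
        exact h12
      have hg0 : (1 : ℤ) ≤ g := by exact_mod_cast hg.1
      have hgP : g ≤ P := by
        have : (g : ℤ) ≤ P := by nlinarith
        exact_mod_cast this
      have htP : |(t : ℝ)| ≤ P := by
        have : |t| ≤ P := by nlinarith
        exact_mod_cast this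
      rw [if_pos hgP]
      refine le_trans (le_of_eq ?_) (g_bd c hfac hp1 hp2 hne hp1' hp2' htP hg.1 ht)
      congr 1
      refine Finset.sum_congr rfl fun e1 _ => Finset.sum_congr rfl fun e2 _ => ?_
      unfold Am Fm
      by_cases h1 : g * e1 ∈ S ∧ g * e2 ∈ S ∧ Nat.Coprime e1 e2
      · rw [if_pos h1]
        by_cases h2 : good (g * e1) (g * e2) p1 p2
        · rw [if_pos h2, if_pos ⟨h1.1, h1.2.1, h1.2.2, h2⟩]
          have hgg : Nat.gcd (g * e1) (g * e2) = g := by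
            rw [Nat.gcd_mul_left, h1.2.2.gcd_eq_one, mul_one]
          have hll : Nat.lcm (g * e1) (g * e2) = g * e1 * e2 := by
            rw [Nat.lcm_mul_left, h1.2.2.lcm_eq_mul, mul_assoc]
          unfold mn
          have h5 : ((Nat.gcd (g * e1) (g * e2) : ℕ) : ℤ) ∣ (p1 : ℤ) - p2 := by
            rw [hgg]
            have : (p1 : ℤ) - p2 = -((p2 : ℤ) - p1) := by ring
            rw [this, ht]
            exact (Dvd.intro t rfl).neg_right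
          rw [if_pos h5, hll]
        · rw [if_neg h2, if_neg]
          rintro ⟨-, -, -, h3⟩
          exact h2 h3
      · rw [if_neg h1, if_neg]
        rintro ⟨h3, h4, h5, -⟩
        exact h1 ⟨h3, h4, h5⟩
    · have h0 : ∑ e1 ∈ Icc 1 (Z ^ 2), ∑ e2 ∈ Icc 1 (Z ^ 2),
        (if g * e1 ∈ S ∧ g * e2 ∈ S ∧ Nat.Coprime e1 e2 then Fm a lam Y p1 p2 (g * e1) (g * e2)
          else 0) = 0 := by
        refine Finset.sum_eq_zero fun e1 _ => Finset.sum_eq_zero fun e2 _ => ?_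
        split_ifs with h1
        · unfold Fm
          split_ifs with h2
          · have hgg : Nat.gcd (g * e1) (g * e2) = g := by
              rw [Nat.gcd_mul_left, h1.2.2.gcd_eq_one, mul_one]
            have h5 : ¬ ((Nat.gcd (g * e1) (g * e2) : ℕ) : ℤ) ∣ (p1 : ℤ) - p2 := by
              rw [hgg]
              intro h
              apply hd
              have : (p2 : ℤ) - p1 = -((p1 : ℤ) - p2) := by ring
              rw [this]
              exact h.neg_right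
            have h6 := hPH.2 a Y (g * e1) (g * e2) p1 p2 (c.hS _ h1.1).1 (c.hS _ h1.2.1).1
              (c.hS _ h1.1).2.2 h5
            rw [h6]
            unfold mn
            rw [if_neg h5]
            ring
          · rfl
        · rfl
      rw [h0, abs_zero]
      split_ifs
      · exact hBd
      · exact le_rfl
  calc _ ≤ ∑ g ∈ Icc 1 (Z ^ 2),
        (if g ≤ P then ((Nat.log 2 (Z ^ 2) + 1 : ℕ) : ℝ) ^ 3 * Bd a κ C2 B0 Y P else 0) :=
        (Finset.abs_sum_le_sum_abs _ _).trans (Finset.sum_le_sum hg)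
    _ = (((Icc 1 (Z ^ 2)).filter (fun g => g ≤ P)).card : ℝ) *
        (((Nat.log 2 (Z ^ 2) + 1 : ℕ) : ℝ) ^ 3 * Bd a κ C2 B0 Y P) := by
        rw [← Finset.sum_filter, Finset.sum_const, nsmul_eq_mul]
    _ ≤ _ := by
        apply mul_le_mul_of_nonneg_right _ hBd
        have h1 : (Icc 1 (Z ^ 2)).filter (fun g => g ≤ P) ⊆ Icc 1 P := by
          intro g hg
          rw [mem_filter, mem_Icc] at hg
          rw [mem_Icc]
          exact ⟨hg.1.1, hg.2⟩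
        have h2 := card_le_card h1
        rw [Nat.card_Icc, Nat.add_sub_cancel] at h2
        exact_mod_cast h2

theorem card_Pr (P P' : ℕ) (h : P' ≤ 2 * P) : ((Pr P P').card : ℝ) ≤ P := by
  have h1 : (Pr P P').card ≤ (Ioc P P').card := card_filter_le _ _
  rw [Nat.card_Ioc] at h1
  have : (Pr P P').card ≤ P := by omega
  exact_mod_cast this

theorem off_bd (hPH : P_PH) {a : ℤ} {κ δ C2 B0 : ℝ} {Y0 Y P P' Z : ℕ} {S : Finset ℕ} {lam : ℕ → ℝ}
    (c : Ctx a κ δ C2 B0 Y0 Y P Z S lam) (hfac : ∀ d, lam d ≠ 0 → ∃ k l : ℕ, k ≤ Z ∧ l ≤ Z ∧ d = k * l)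
    (hPP : P' ≤ 2 * P) :
    |OFF a lam S (Pr P P') Y| ≤ (P : ℝ) ^ 3 * (((Nat.log 2 (Z ^ 2) + 1 : ℕ) : ℝ) ^ 3 *
      Bd a κ C2 B0 Y P) := by
  classical
  have hBd : 0 ≤ ((Nat.log 2 (Z ^ 2) + 1 : ℕ) : ℝ) ^ 3 * Bd a κ C2 B0 Y P :=
    mul_nonneg (by positivity) (Bd_nonneg _ _ _ _ _ _)
  have e1 : OFF a lam S (Pr P P') Y = ∑ p1 ∈ Pr P P', ∑ p2 ∈ Pr P P', ∑ d1 ∈ S, ∑ d2 ∈ S,
      Fm a lam Y p1 p2 d1 d2 := by
    unfold OFF
    calc _ = ∑ d1 ∈ S, ∑ p1 ∈ Pr P P', ∑ p2 ∈ Pr P P', ∑ d2 ∈ S, Fm a lam Y p1 p2 d1 d2 := by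
          refine Finset.sum_congr rfl fun d1 _ => ?_
          rw [Finset.sum_comm]
          refine Finset.sum_congr rfl fun p1 _ => ?_
          rw [Finset.sum_comm]
          rfl
      _ = ∑ p1 ∈ Pr P P', ∑ d1 ∈ S, ∑ p2 ∈ Pr P P', ∑ d2 ∈ S, Fm a lam Y p1 p2 d1 d2 :=
          Finset.sum_comm
      _ = _ := Finset.sum_congr rfl fun p1 _ => Finset.sum_comm
  rw [e1]
  have hcard := card_Pr P P' hPP
  calc _ ≤ ∑ p1 ∈ Pr P P', ∑ p2 ∈ Pr P P',
        (P : ℝ) * (((Nat.log 2 (Z ^ 2) + 1 : ℕ) : ℝ) ^ 3 * Bd a κ C2 B0 Y P) := by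
        refine (Finset.abs_sum_le_sum_abs _ _).trans (Finset.sum_le_sum fun p1 h1 => ?_)
        refine (Finset.abs_sum_le_sum_abs _ _).trans (Finset.sum_le_sum fun p2 h2 => ?_)
        unfold Pr at h1 h2
        rw [mem_filter, mem_Ioc] at h1 h2
        by_cases hne : p1 = p2
        · have h0 : ∑ d1 ∈ S, ∑ d2 ∈ S, Fm a lam Y p1 p2 d1 d2 = 0 := by
            refine Finset.sum_eq_zero fun d1 _ => Finset.sum_eq_zero fun d2 _ => ?_
            unfold Fm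
            rw [if_neg]
            rintro ⟨h, -⟩
            exact h hne
          rw [h0, abs_zero]
          positivity
        · refine pair_bd hPH c hfac h1.2 h2.2 hne (h1.1.2.trans hPP) (h2.1.2.trans hPP) ?_
          rw [abs_le]
          constructor <;> omega
    _ = ((Pr P P').card : ℝ) * (((Pr P P').card : ℝ) *
        ((P : ℝ) * (((Nat.log 2 (Z ^ 2) + 1 : ℕ) : ℝ) ^ 3 * Bd a κ C2 B0 Y P))) := by
        simp only [Finset.sum_const, nsmul_eq_mul]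
    _ ≤ (P : ℝ) * ((P : ℝ) *
        ((P : ℝ) * (((Nat.log 2 (Z ^ 2) + 1 : ℕ) : ℝ) ^ 3 * Bd a κ C2 B0 Y P))) := by
        gcongr
    _ = _ := by ring

end TW4
end Pool.Agent.H262R4.FR
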