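import Pool.Agent.H262R4.FR.W4n

namespace Pool.Agent.H262R4.FR
namespace TW4

open Finset

theorem num3 {C2 ε ρ δ κ x Y P A p1 p2 t E K L g z J : ℝ} (hC2 : 0 < C2) (hε : 0 < ε)
    (hε1 : ε ≤ 1) (hρ : 0 < ρ) (hρ1 : ρ ≤ 1 / 100) (hδ : 0 < δ) (hκ : κ = 15 * δ / 4)
    (hκ1 : κ ≤ 1 / 5) (hx : 1 ≤ x) (hY : 3 ≤ Y) (hYx : Y ≤ x) (hxY : x ^ (1 - ρ) ≤ Y)
    (hP0 : 0 ≤ P) (hP : P ≤ x ^ ρ) (hA : 1 ≤ A) (hp1 : 0 ≤ p1) (hp1' : p1 ≤ 2 * P)
    (hp2 : 0 ≤ p2) (hp2' : p2 ≤ 2 * P) (ht : 0 ≤ t) (htP : t ≤ P)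
    (hE : 1 ≤ E) (hK : 1 ≤ K) (hL : 1 ≤ L) (hg : 1 ≤ g) (hz0 : 0 ≤ z)
    (h1 : g * E ≤ z ^ 2) (h2 : g * (K * L) ≤ z ^ 2) (h3 : K ≤ z) (h4 : L ≤ z)
    (hz : z ^ 2 ≤ x ^ (8 / 15 - δ)) (hJ0 : 0 ≤ J)
    (hJ : J ≤ 8 * g * (E * K * L) * Real.log (2 * Y) / Y) :
    C2 * (60 * A) * (p1 * p2 * (A * t) * E * K * L * J) ^ ε *
        (E ^ 2 * K ^ 2 * L * J + (A * t) * p1 *
          (E * K ^ (5 / 2 : ℝ) * L ^ 3 * J ^ 2 + E ^ 2 * K ^ (3 / 2 : ℝ) * L * J ^ 3)) ≤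
      C2 * (60 * A) * (64 * A) * (512 * (8 / ε ^ 3)) * (5 * A) * (E * K * L) ^ 2 *
        x ^ (-κ + 6 * ε + 5 * ρ) := by
  have hx0 : 0 < x := by linarith
  have hY0 : 0 < Y := by linarith
  have hlog1 : 1 ≤ Real.log (2 * Y) := by
    rw [Real.le_log_iff_exp_le (by positivity)]
    have := Real.exp_one_lt_d9
    linarith
  have hlog2 : Real.log (2 * Y) ≤ 2 * Y := by
    have := Real.log_le_sub_one_of_pos (by positivity : (0 : ℝ) < 2 * Y)
    linarith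
  have hlog3 : Real.log (2 * Y) ≤ 2 * x ^ ε / ε := by
    calc Real.log (2 * Y) ≤ (2 * Y) ^ ε / ε := Real.log_le_rpow_div (by positivity) hε
      _ ≤ 2 * x ^ ε / ε := by
        apply div_le_div_of_nonneg_right _ hε.le
        rw [Real.mul_rpow (by norm_num) hY0.le]
        refine mul_le_mul ?_ (Real.rpow_le_rpow hY0.le hYx hε.le) (by positivity) (by norm_num)
        calc (2 : ℝ) ^ ε ≤ 2 ^ (1 : ℝ) := Real.rpow_le_rpow_of_exponent_le (by norm_num) hε1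
          _ = 2 := Real.rpow_one 2
  -- step 1
  have hEKL : E * K * L ≤ z ^ 4 := by
    calc E * K * L ≤ (g * E) * (g * (K * L)) := by
          have e1 : E ≤ g * E := by nlinarith
          have e2 : K * L ≤ g * (K * L) := by
            have : 0 < K * L := by positivity
            nlinarith
          calc E * K * L = E * (K * L) := by ring
            _ ≤ _ := mul_le_mul e1 e2 (by positivity) (by positivity)
      _ ≤ z ^ 2 * z ^ 2 := mul_le_mul h1 h2 (by positivity) (by positivity)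
      _ = z ^ 4 := by ring
  have hgEKL : g * (E * K * L) ≤ z ^ 4 := by
    calc g * (E * K * L) = (g * E) * (K * L) := by ring
      _ ≤ (g * E) * (g * (K * L)) := by
          have e2 : K * L ≤ g * (K * L) := by
            have : 0 < K * L := by positivity
            nlinarith
          exact mul_le_mul_of_nonneg_left e2 (by positivity)
      _ ≤ z ^ 2 * z ^ 2 := mul_le_mul h1 h2 (by positivity) (by positivity)
      _ = z ^ 4 := by ring
  have hJ1 : J ≤ 16 * z ^ 4 := by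
    refine hJ.trans ?_
    rw [div_le_iff₀ hY0]
    calc 8 * g * (E * K * L) * Real.log (2 * Y) ≤ 8 * g * (E * K * L) * (2 * Y) :=
          mul_le_mul_of_nonneg_left hlog2 (by positivity)
      _ = 16 * (g * (E * K * L)) * Y := by ring
      _ ≤ 16 * z ^ 4 * Y := by
          apply mul_le_mul_of_nonneg_right _ hY0.le
          linarith
  have hz8 : z ^ 8 ≤ x ^ (32 / 15 : ℝ) := by
    calc z ^ 8 = (z ^ 2) ^ 4 := by ring
      _ ≤ (x ^ (8 / 15 - δ)) ^ 4 := pow_le_pow_left₀ (by positivity) hz 4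
      _ = x ^ ((8 / 15 - δ) * 4) := by
          rw [Real.rpow_mul hx0.le]
          exact (Real.rpow_natCast _ 4).symm
      _ ≤ x ^ (32 / 15 : ℝ) := Real.rpow_le_rpow_of_exponent_le hx (by linarith)
  have hP3 : P ^ 3 ≤ x ^ (3 * ρ) := by
    calc P ^ 3 ≤ (x ^ ρ) ^ 3 := pow_le_pow_left₀ hP0 hP 3
      _ = x ^ (3 * ρ) := by
          rw [mul_comm, Real.rpow_mul hx0.le]
          exact (Real.rpow_natCast _ 3).symm
  have hbase : p1 * p2 * (A * t) * E * K * L * J ≤ 64 * A * x ^ (3 : ℝ) := by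
    calc p1 * p2 * (A * t) * E * K * L * J = (p1 * p2) * (A * t) * (E * K * L) * J := by ring
      _ ≤ ((2 * P) * (2 * P)) * (A * P) * (z ^ 4) * (16 * z ^ 4) := by gcongr
      _ = 64 * A * (P ^ 3 * z ^ 8) := by ring
      _ ≤ 64 * A * (x ^ (3 * ρ) * x ^ (32 / 15 : ℝ)) := by gcongr
      _ = 64 * A * x ^ (3 * ρ + 32 / 15) := by rw [Real.rpow_add hx0]
      _ ≤ 64 * A * x ^ (3 : ℝ) := by
          apply mul_le_mul_of_nonneg_left _ (by positivity)
          exact Real.rpow_le_rpow_of_exponent_le hx (by linarith)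
  have hb0 : 0 ≤ p1 * p2 * (A * t) * E * K * L * J := by positivity
  have s1 : (p1 * p2 * (A * t) * E * K * L * J) ^ ε ≤ 64 * A * x ^ (3 * ε) := by
    calc (p1 * p2 * (A * t) * E * K * L * J) ^ ε ≤ (64 * A * x ^ (3 : ℝ)) ^ ε :=
          Real.rpow_le_rpow hb0 hbase hε.le
      _ = (64 * A) ^ ε * x ^ (3 * ε) := by
          rw [Real.mul_rpow (by positivity) (by positivity), ← Real.rpow_mul hx0.le]
      _ ≤ 64 * A * x ^ (3 * ε) := by
          apply mul_le_mul_of_nonneg_right _ (by positivity)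
          calc (64 * A) ^ ε ≤ (64 * A) ^ (1 : ℝ) :=
                Real.rpow_le_rpow_of_exponent_le (by linarith) hε1
            _ = 64 * A := Real.rpow_one _
  -- step 2
  have hr0 : 0 ≤ √z := Real.sqrt_nonneg z
  have hrz : √z ^ 2 = z := Real.sq_sqrt hz0
  have hkK : √K ^ 2 = K := Real.sq_sqrt (by linarith)
  have hK0 : 0 < K := by linarith
  have hk0 : 0 < √K := Real.sqrt_pos.mpr hK0
  have hK4 : K ^ 2 = √K ^ 4 := by
    calc K ^ 2 = (√K ^ 2) ^ 2 := by rw [hkK]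
      _ = _ := by ring
  have hsqrt : ∀ n : ℕ, K ^ ((n : ℝ) / 2) = √K ^ n := by
    intro n
    rw [Real.sqrt_eq_rpow, ← Real.rpow_natCast, ← Real.rpow_mul hK0.le]
    congr 1
    ring
  have hK5 : K ^ (5 / 2 : ℝ) = √K ^ 5 := by
    have := hsqrt 5
    push_cast at this
    exact this
  have hK3 : K ^ (3 / 2 : ℝ) = √K ^ 3 := by
    have := hsqrt 3
    push_cast at this
    exact this
  have hrx : √z ≤ x ^ (2 / 15 - δ / 4) := by
    have : √z ^ 4 ≤ (x ^ (2 / 15 - δ / 4)) ^ 4 := by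
      calc √z ^ 4 = (√z ^ 2) ^ 2 := by ring
        _ = z ^ 2 := by rw [hrz]
        _ ≤ x ^ (8 / 15 - δ) := hz
        _ = x ^ ((2 / 15 - δ / 4) * 4) := by ring_nf
        _ = (x ^ (2 / 15 - δ / 4)) ^ 4 := by
            rw [Real.rpow_mul hx0.le]
            exact Real.rpow_natCast _ 4
    exact le_of_pow_le_pow_left₀ (by norm_num) (by positivity) this
  have hB0 : 0 ≤ (A * t) * p1 := by positivity
  have hr4 : z ^ 2 = √z ^ 4 := by
    calc z ^ 2 = (√z ^ 2) ^ 2 := by rw [hrz]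
      _ = _ := by ring
  have n1 := num1 g E (√K) L J Y (Real.log (2 * Y)) (√z) ((A * t) * p1) (by linarith)
    (by linarith) hk0 (by linarith) hJ0 hY0 (by linarith) hr0 hB0 (by rw [hkK]; exact hJ)
    (by rw [← hr4]; exact h1) (by rw [hkK, ← hr4]; exact h2) (Real.sqrt_le_sqrt h3)
    (by rw [hrz]; exact h4)
  have n2 := num2 x Y (Real.log (2 * Y)) (√z) ((A * t) * p1) κ ρ δ hx hY0 hlog1 hr0 hB0 hρ.le hδ.le
    hκ hκ1 hrx hxY
  have hBx : 1 + 2 * ((A * t) * p1) ≤ 5 * A * x ^ (2 * ρ) := by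
    have e1 : (A * t) * p1 ≤ (A * P) * (2 * P) := by gcongr
    have e2 : P ^ 2 ≤ x ^ (2 * ρ) := by
      calc P ^ 2 ≤ (x ^ ρ) ^ 2 := pow_le_pow_left₀ hP0 hP 2
        _ = x ^ (2 * ρ) := by
            rw [mul_comm, Real.rpow_mul hx0.le]
            exact (Real.rpow_natCast _ 2).symm
    have e3 : (A * P) * (2 * P) ≤ 2 * A * x ^ (2 * ρ) := by
      calc (A * P) * (2 * P) = 2 * A * P ^ 2 := by ring
        _ ≤ _ := mul_le_mul_of_nonneg_left e2 (by positivity)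
    have e4 : 1 ≤ A * x ^ (2 * ρ) := by
      have : 1 ≤ x ^ (2 * ρ) := Real.one_le_rpow hx (by positivity)
      calc (1 : ℝ) = 1 * 1 := by ring
        _ ≤ A * x ^ (2 * ρ) := mul_le_mul hA this zero_le_one (by linarith)
    linarith
  have hlog4 : Real.log (2 * Y) ^ 3 ≤ (8 / ε ^ 3) * x ^ (3 * ε) := by
    calc Real.log (2 * Y) ^ 3 ≤ (2 * x ^ ε / ε) ^ 3 :=
          pow_le_pow_left₀ (by linarith) hlog3 3
      _ = (8 / ε ^ 3) * (x ^ ε) ^ 3 := by
          field_simp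
          ring
      _ = _ := by
          congr 1
          rw [mul_comm 3 ε, Real.rpow_mul hx0.le]
          exact (Real.rpow_natCast _ 3).symm
  have s2 : E ^ 2 * K ^ 2 * L * J + (A * t) * p1 *
          (E * K ^ (5 / 2 : ℝ) * L ^ 3 * J ^ 2 + E ^ 2 * K ^ (3 / 2 : ℝ) * L * J ^ 3) ≤
      (E * K * L) ^ 2 * ((512 * (8 / ε ^ 3)) * (5 * A) * x ^ (-κ + 3 * ε + 5 * ρ)) := by
    rw [hK4, hK5, hK3]
    refine n1.trans ?_
    rw [hkK]
    apply mul_le_mul_of_nonneg_left _ (by positivity)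
    refine n2.trans ?_
    calc 512 * Real.log (2 * Y) ^ 3 * (1 + 2 * ((A * t) * p1)) * x ^ (-κ + 3 * ρ) ≤
        512 * ((8 / ε ^ 3) * x ^ (3 * ε)) * (5 * A * x ^ (2 * ρ)) * x ^ (-κ + 3 * ρ) := by
          gcongr
      _ = (512 * (8 / ε ^ 3)) * (5 * A) * (x ^ (3 * ε) * x ^ (2 * ρ) * x ^ (-κ + 3 * ρ)) := by ring
      _ = _ := by
          rw [← Real.rpow_add hx0, ← Real.rpow_add hx0]
          congr 2
          ring
  have hs20 : 0 ≤ E ^ 2 * K ^ 2 * L * J + (A * t) * p1 *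
          (E * K ^ (5 / 2 : ℝ) * L ^ 3 * J ^ 2 + E ^ 2 * K ^ (3 / 2 : ℝ) * L * J ^ 3) := by
    positivity
  calc _ ≤ C2 * (60 * A) * (64 * A * x ^ (3 * ε)) *
        ((E * K * L) ^ 2 * ((512 * (8 / ε ^ 3)) * (5 * A) * x ^ (-κ + 3 * ε + 5 * ρ))) := by
        gcongr
    _ = C2 * (60 * A) * (64 * A) * (512 * (8 / ε ^ 3)) * (5 * A) * (E * K * L) ^ 2 *
        (x ^ (3 * ε) * x ^ (-κ + 3 * ε + 5 * ρ)) := by ring
    _ = _ := by
        rw [← Real.rpow_add hx0]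
        congr 2
        ring

end TW4
end Pool.Agent.H262R4.FR
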