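import Pool.Agent.H262R4.FR.Stubs

namespace Pool.Agent.H262R4.FR
namespace TW4

open Finset

theorem num1 (g E k L J Y lam r B : ℝ) (hg : 0 < g) (hE : 0 < E) (hk : 0 < k) (hL : 0 < L)
    (hJ0 : 0 ≤ J) (hY : 0 < Y) (hlam : 0 ≤ lam) (hr : 0 ≤ r) (hB : 0 ≤ B)
    (hJ : J ≤ 8 * g * (E * k ^ 2 * L) * lam / Y) (h1 : g * E ≤ r ^ 4) (h2 : g * (k ^ 2 * L) ≤ r ^ 4)
    (h3 : k ≤ r) (h4 : L ≤ r ^ 2) :
    E ^ 2 * k ^ 4 * L * J + B * (E * k ^ 5 * L ^ 3 * J ^ 2 + E ^ 2 * k ^ 3 * L * J ^ 3) ≤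
      (E * k ^ 2 * L) ^ 2 * (8 * lam * r ^ 6 / Y + B * (64 * lam ^ 2 * r ^ 15 / Y ^ 2 +
        512 * lam ^ 3 * r ^ 21 / Y ^ 3)) := by
  have hgE : 0 < g * E := mul_pos hg hE
  have t1 : E ^ 2 * k ^ 4 * L * J ≤ (E * k ^ 2 * L) ^ 2 * (8 * lam * r ^ 6 / Y) := by
    have i1 : (g * E) * k ^ 2 ≤ r ^ 4 * r ^ 2 :=
      mul_le_mul h1 (pow_le_pow_left₀ hk.le h3 2) (by positivity) (by positivity)
    calc E ^ 2 * k ^ 4 * L * J ≤ E ^ 2 * k ^ 4 * L * (8 * g * (E * k ^ 2 * L) * lam / Y) :=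
          mul_le_mul_of_nonneg_left hJ (by positivity)
      _ = ((E * k ^ 2 * L) ^ 2 * (8 * lam / Y)) * ((g * E) * k ^ 2) := by
          field_simp
      _ ≤ ((E * k ^ 2 * L) ^ 2 * (8 * lam / Y)) * (r ^ 4 * r ^ 2) :=
          mul_le_mul_of_nonneg_left i1 (by positivity)
      _ = _ := by ring
  have t2 : E * k ^ 5 * L ^ 3 * J ^ 2 ≤ (E * k ^ 2 * L) ^ 2 * (64 * lam ^ 2 * r ^ 15 / Y ^ 2) := by
    have i1 : ((g * E) * (g * (k ^ 2 * L))) * (k ^ 3 * L ^ 2) ≤ (r ^ 4 * r ^ 4) * (r ^ 3 * (r ^ 2) ^ 2) :=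
      mul_le_mul (mul_le_mul h1 h2 (by positivity) (by positivity))
        (mul_le_mul (pow_le_pow_left₀ hk.le h3 3) (pow_le_pow_left₀ hL.le h4 2) (by positivity)
          (by positivity)) (by positivity) (by positivity)
    calc E * k ^ 5 * L ^ 3 * J ^ 2 ≤ E * k ^ 5 * L ^ 3 * (8 * g * (E * k ^ 2 * L) * lam / Y) ^ 2 :=
          mul_le_mul_of_nonneg_left (pow_le_pow_left₀ hJ0 hJ 2) (by positivity)
      _ = ((E * k ^ 2 * L) ^ 2 * (64 * lam ^ 2 / Y ^ 2)) *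
          (((g * E) * (g * (k ^ 2 * L))) * (k ^ 3 * L ^ 2)) := by
          field_simp
          ring
      _ ≤ ((E * k ^ 2 * L) ^ 2 * (64 * lam ^ 2 / Y ^ 2)) *
          ((r ^ 4 * r ^ 4) * (r ^ 3 * (r ^ 2) ^ 2)) :=
          mul_le_mul_of_nonneg_left i1 (by positivity)
      _ = _ := by ring
  have t3 : E ^ 2 * k ^ 3 * L * J ^ 3 ≤ (E * k ^ 2 * L) ^ 2 * (512 * lam ^ 3 * r ^ 21 / Y ^ 3) := by
    have i1 : (g * E) ^ 3 * (k ^ 5 * L ^ 2) ≤ (r ^ 4) ^ 3 * (r ^ 5 * (r ^ 2) ^ 2) :=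
      mul_le_mul (pow_le_pow_left₀ hgE.le h1 3)
        (mul_le_mul (pow_le_pow_left₀ hk.le h3 5) (pow_le_pow_left₀ hL.le h4 2) (by positivity)
          (by positivity)) (by positivity) (by positivity)
    calc E ^ 2 * k ^ 3 * L * J ^ 3 ≤ E ^ 2 * k ^ 3 * L * (8 * g * (E * k ^ 2 * L) * lam / Y) ^ 3 :=
          mul_le_mul_of_nonneg_left (pow_le_pow_left₀ hJ0 hJ 3) (by positivity)
      _ = ((E * k ^ 2 * L) ^ 2 * (512 * lam ^ 3 / Y ^ 3)) *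
          ((g * E) ^ 3 * (k ^ 5 * L ^ 2)) := by
          field_simp
          ring
      _ ≤ ((E * k ^ 2 * L) ^ 2 * (512 * lam ^ 3 / Y ^ 3)) *
          ((r ^ 4) ^ 3 * (r ^ 5 * (r ^ 2) ^ 2)) :=
          mul_le_mul_of_nonneg_left i1 (by positivity)
      _ = _ := by ring
  calc _ ≤ (E * k ^ 2 * L) ^ 2 * (8 * lam * r ^ 6 / Y) +
        B * ((E * k ^ 2 * L) ^ 2 * (64 * lam ^ 2 * r ^ 15 / Y ^ 2) +
          (E * k ^ 2 * L) ^ 2 * (512 * lam ^ 3 * r ^ 21 / Y ^ 3)) :=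
        add_le_add t1 (mul_le_mul_of_nonneg_left (add_le_add t2 t3) hB)
    _ = _ := by ring

theorem num2 (x Y lam r B κ ρ δ : ℝ) (hx : 1 ≤ x) (hY : 0 < Y) (hlam : 1 ≤ lam) (hr : 0 ≤ r)
    (hB : 0 ≤ B) (hρ : 0 ≤ ρ) (hδ : 0 ≤ δ) (hκ : κ = 15 * δ / 4) (hκ1 : κ ≤ 1 / 5)
    (h1 : r ≤ x ^ (2 / 15 - δ / 4)) (h2 : x ^ (1 - ρ) ≤ Y) :
    8 * lam * r ^ 6 / Y + B * (64 * lam ^ 2 * r ^ 15 / Y ^ 2 +
        512 * lam ^ 3 * r ^ 21 / Y ^ 3) ≤ 512 * lam ^ 3 * (1 + 2 * B) * x ^ (-κ + 3 * ρ) := by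
  have hx0 : 0 < x := by linarith
  have hpow : ∀ n : ℕ, r ^ n ≤ x ^ ((n : ℝ) * (2 / 15 - δ / 4)) := by
    intro n
    calc r ^ n ≤ (x ^ (2 / 15 - δ / 4)) ^ n := pow_le_pow_left₀ hr h1 n
      _ = _ := by rw [mul_comm, Real.rpow_mul hx0.le, Real.rpow_natCast]
  have hYpow : ∀ n : ℕ, x ^ ((n : ℝ) * (1 - ρ)) ≤ Y ^ n := by
    intro n
    calc x ^ ((n : ℝ) * (1 - ρ)) = (x ^ (1 - ρ)) ^ n := by
          rw [mul_comm, Real.rpow_mul hx0.le, Real.rpow_natCast]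
      _ ≤ Y ^ n := pow_le_pow_left₀ (by positivity) h2 n
  have key : ∀ n m : ℕ, (n : ℝ) * (2 / 15 - δ / 4) - (m : ℝ) * (1 - ρ) ≤ -κ + 3 * ρ →
      r ^ n / Y ^ m ≤ x ^ (-κ + 3 * ρ) := by
    intro n m hnm
    rw [div_le_iff₀ (by positivity)]
    calc r ^ n ≤ x ^ ((n : ℝ) * (2 / 15 - δ / 4)) := hpow n
      _ ≤ x ^ ((-κ + 3 * ρ) + (m : ℝ) * (1 - ρ)) :=
          Real.rpow_le_rpow_of_exponent_le hx (by linarith)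
      _ = x ^ (-κ + 3 * ρ) * x ^ ((m : ℝ) * (1 - ρ)) := Real.rpow_add hx0 _ _
      _ ≤ x ^ (-κ + 3 * ρ) * Y ^ m := mul_le_mul_of_nonneg_left (hYpow m) (by positivity)
  have k1 : r ^ 6 / Y ^ 1 ≤ x ^ (-κ + 3 * ρ) := by
    apply key
    push_cast
    rw [hκ] at hκ1 ⊢
    linarith
  have k2 : r ^ 15 / Y ^ 2 ≤ x ^ (-κ + 3 * ρ) := by
    apply key
    push_cast
    rw [hκ] at hκ1 ⊢
    linarith
  have k3 : r ^ 21 / Y ^ 3 ≤ x ^ (-κ + 3 * ρ) := by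
    apply key
    push_cast
    rw [hκ] at hκ1 ⊢
    linarith
  rw [pow_one] at k1
  have hX : 0 ≤ x ^ (-κ + 3 * ρ) := by positivity
  have l1 : lam ≤ lam ^ 3 := by
    calc lam = lam ^ 1 := (pow_one _).symm
      _ ≤ lam ^ 3 := pow_le_pow_right₀ hlam (by norm_num)
  have l2 : lam ^ 2 ≤ lam ^ 3 := pow_le_pow_right₀ hlam (by norm_num)
  have hl0 : 0 ≤ lam := by linarith
  have m1 : lam * (r ^ 6 / Y) ≤ lam ^ 3 * x ^ (-κ + 3 * ρ) :=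
    mul_le_mul l1 k1 (by positivity) (by positivity)
  have m2 : lam ^ 2 * (r ^ 15 / Y ^ 2) ≤ lam ^ 3 * x ^ (-κ + 3 * ρ) :=
    mul_le_mul l2 k2 (by positivity) (by positivity)
  have m3 : lam ^ 3 * (r ^ 21 / Y ^ 3) ≤ lam ^ 3 * x ^ (-κ + 3 * ρ) :=
    mul_le_mul le_rfl k3 (by positivity) (by positivity)
  have hl3 : 0 ≤ lam ^ 3 * x ^ (-κ + 3 * ρ) := by positivity
  calc _ = 8 * (lam * (r ^ 6 / Y)) + B * (64 * (lam ^ 2 * (r ^ 15 / Y ^ 2)) +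
        512 * (lam ^ 3 * (r ^ 21 / Y ^ 3))) := by ring
    _ ≤ 8 * (lam ^ 3 * x ^ (-κ + 3 * ρ)) + B * (64 * (lam ^ 3 * x ^ (-κ + 3 * ρ)) +
        512 * (lam ^ 3 * x ^ (-κ + 3 * ρ))) := by gcongr
    _ = (8 + 576 * B) * (lam ^ 3 * x ^ (-κ + 3 * ρ)) := by ring
    _ ≤ (512 * (1 + 2 * B)) * (lam ^ 3 * x ^ (-κ + 3 * ρ)) :=
        mul_le_mul_of_nonneg_right (by linarith) hl3
    _ = _ := by ring

end TW4
end Pool.Agent.H262R4.FR
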